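import Pool.Agent.Lib.MP_45f3cb_gt.Base

/-!
Elementary properties of smooth flows.
-/

open Set MeasureTheory

namespace Pool.Agent.Lib.MP_45f3cb_gt

variable {E : Type} [NormedAddCommGroup E] [NormedSpace ℝ E] {Y : E → E} {Φ : ℝ → E → E}

theorem FlowD_diff {F : Type} [NormedAddCommGroup F] [NormedSpace ℝ F] {f : E → F} (hf : Sm f) :
    Differentiable ℝ f := hf.differentiable (by simp)

theorem FlowD_smd {F : Type} [NormedAddCommGroup F] [NormedSpace ℝ F] {f : E → F} (hf : Sm f) :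
    Sm (fderiv ℝ f) := (contDiff_infty_iff_fderiv.1 hf).2

theorem FlowD_rel {F : Type} [NormedAddCommGroup F] [NormedSpace ℝ F] {Λ : E → F} {A : E → E}
    {B : F → F} (hΛ : Sm Λ) (hA : Sm A) (hB : Sm B) (hrel : ∀ z, fderiv ℝ Λ z (A z) = B (Λ z))
    {c y : ℝ → E} {t : ℝ} (hc : HasDerivAt c (A (c t)) t)
    (hy : HasDerivAt y (fderiv ℝ A (c t) (y t)) t) :
    HasDerivAt (fun r => fderiv ℝ Λ (c r) (y r))
      (fderiv ℝ B (Λ (c t)) (fderiv ℝ Λ (c t) (y t))) t := by
  have h1 := (FlowD_diff (FlowD_smd hΛ) (c t)).hasFDerivAt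
  have h2 := (h1.comp_hasDerivAt t hc).clm_apply hy
  have h3 := h1.clm_apply (FlowD_diff hA (c t)).hasFDerivAt
  have h4 := (FlowD_diff hB (Λ (c t))).hasFDerivAt.comp (c t) (FlowD_diff hΛ (c t)).hasFDerivAt
  have h5 := congrArg (fun L => L (y t)) (h3.unique (h4.congr_of_eventuallyEq
    (Filter.Eventually.of_forall hrel)))
  have h6 := (hΛ.contDiffAt (x := c t)).isSymmSndFDerivAt
    (by rw [minSmoothness_of_isRCLikeNormedField]; exact WithTop.coe_le_coe.2 (le_top (a := 2)))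
    (A (c t)) (y t)
  simp only [add_apply, ContinuousLinearMap.comp_apply,
    ContinuousLinearMap.flip_apply] at h5
  rw [← h5, ← h6, add_comm]
  exact h2

theorem FlowD_snd (h : IsFlow Y Φ) (r : ℝ) (z w : E) :
    fderiv ℝ (Φ r) z w = fderiv ℝ (fun q : ℝ × E => Φ q.1 q.2) (r, z) (0, w) := by
  have h1 := (FlowD_diff h.sm (r, z)).hasFDerivAt.comp z (hasFDerivAt_prodMk_right r z)
  exact congrArg (fun L => L w) h1.fderiv

theorem FlowD_fst (h : IsFlow Y Φ) (q : ℝ × E) :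
    fderiv ℝ (fun q : ℝ × E => Φ q.1 q.2) q (1, 0) = Y (Φ q.1 q.2) := by
  have h1 := (FlowD_diff h.sm (q.1, q.2)).hasFDerivAt.comp_hasDerivAt (f := fun r => (r, q.2)) q.1
    ((hasDerivAt_id q.1).prodMk (hasDerivAt_const q.1 q.2))
  exact h1.unique (h.der q.2 q.1)

theorem IsFlow.cont (h : IsFlow Y Φ) : Continuous fun q : ℝ × E => Φ q.1 q.2 := h.sm.continuous

theorem IsFlow.sm_t (h : IsFlow Y Φ) (t : ℝ) : Sm (Φ t) := by
  exact h.sm.comp (contDiff_const.prodMk contDiff_id)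

theorem IsFlow.cont_z (h : IsFlow Y Φ) (z : E) : Continuous fun t => Φ t z := by
  exact h.cont.comp (continuous_id.prodMk continuous_const)

/-- uniqueness, `ODE_solution_unique` -/
theorem IsFlow.uniq (h : IsFlow Y Φ) {c : ℝ → E} {T : ℝ}
    (hc : ∀ t ∈ Icc 0 T, HasDerivAt c (Y (c t)) t) : ∀ t ∈ Icc 0 T, c t = Φ t (c 0) := by
  obtain ⟨K, hK⟩ := h.lip
  exact ODE_solution_unique (v := fun _ => Y) (fun _ => hK) (HasDerivAt.continuousOn hc)
    (fun t ht => (hc t (Ico_subset_Icc_self ht)).hasDerivWithinAt) (h.cont_z _).continuousOn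
    (fun t _ => (h.der _ t).hasDerivWithinAt) (h.zero _).symm

theorem IsFlow.uniq_univ (h : IsFlow Y Φ) {c : ℝ → E} (hc : ∀ t, HasDerivAt c (Y (c t)) t) (t : ℝ) :
    c t = Φ t (c 0) := by
  obtain ⟨K, hK⟩ := h.lip
  exact congrFun (ODE_solution_unique_univ (v := fun _ => Y) (s := fun _ => univ) (t₀ := 0)
    (fun _ => hK.lipschitzOnWith) (fun t => ⟨hc t, trivial⟩) (fun t => ⟨h.der _ t, trivial⟩)
    (h.zero _).symm) t

theorem IsFlow.add (h : IsFlow Y Φ) (s t : ℝ) (z : E) : Φ (s + t) z = Φ s (Φ t z) := by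
  have := h.uniq_univ (c := fun r => Φ (r + t) z) (fun r => (h.der z (r + t)).comp_add_const r t) s
  rwa [zero_add] at this

theorem IsFlow.fix (h : IsFlow Y Φ) {z : E} (hz : Y z = 0) (t : ℝ) : Φ t z = z := by
  exact (h.uniq_univ (c := fun _ => z) (fun r => hz ▸ hasDerivAt_const r z) t).symm

/-- derivative of a function along the flow -/
theorem IsFlow.der_comp (h : IsFlow Y Φ) {F : E → ℝ} {z : E} {t : ℝ}
    (hF : DifferentiableAt ℝ F (Φ t z)) :
    HasDerivAt (fun r => F (Φ r z)) (fderiv ℝ F (Φ t z) (Y (Φ t z))) t := by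
  exact hF.hasFDerivAt.comp_hasDerivAt t (h.der z t)

/-- differentiate `Φ t (Φ s z) = Φ (t + s) z` in `s` at `0` -/
theorem IsFlow.fderiv_field (h : IsFlow Y Φ) (t : ℝ) (z : E) :
    fderiv ℝ (Φ t) z (Y z) = Y (Φ t z) := by
  have h1 := (FlowD_diff (h.sm_t t) (Φ 0 z)).hasFDerivAt.comp_hasDerivAt 0 (h.der z 0)
  have h2 := (h.der z (t + 0)).comp_const_add t 0
  rw [h.zero] at h1
  rw [add_zero] at h2
  exact h1.unique (h2.congr_of_eventuallyEq (Filter.Eventually.of_forall fun s =>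
    (h.add t s z).symm))

/-- the linearised equation. Sketch: with `F q = Φ q.1 q.2`, `fderiv (Φ r) z w = fderiv F (r, z) (0, w)`
and `fderiv F (r, y) (1, 0) = Y (Φ r y)`; symmetry of the second derivative
(`ContDiffAt.isSymmSndFDerivAt`) and the chain rule. -/
theorem IsFlow.lin (h : IsFlow Y Φ) (z w : E) (t : ℝ) :
    HasDerivAt (fun r => fderiv ℝ (Φ r) z w) (fderiv ℝ Y (Φ t z) (fderiv ℝ (Φ t) z w)) t := by
  simp only [FlowD_snd h]
  exact FlowD_rel (A := fun _ => ((1 : ℝ), (0 : E))) (c := fun r => (r, z)) (y := fun _ => (0, w))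
    h.sm contDiff_const h.smY (FlowD_fst h)
    ((hasDerivAt_id t).prodMk (hasDerivAt_const t z)) (by simpa using hasDerivAt_const t (0, w))

theorem IsFlow.fderiv_zero (h : IsFlow Y Φ) (z w : E) : fderiv ℝ (Φ 0) z w = w := by
  rw [show Φ 0 = id from funext h.zero, fderiv_id]
  rfl

theorem IsFlow.sm_fderiv (h : IsFlow Y Φ) (w : E) :
    Sm fun q : ℝ × E => fderiv ℝ (Φ q.1) q.2 w := by
  simp only [FlowD_snd h]
  exact (FlowD_smd h.sm).clm_apply contDiff_const

/-- uniqueness for a linear equation with continuous coefficients (Gronwall on the compact interval,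
forward from `t₀` and backward from `t₀`) -/
theorem lin_ode_zero {B : ℝ → E →L[ℝ] E} {y : ℝ → E} {a b t₀ : ℝ} (hB : ContinuousOn B (Icc a b))
    (hy : ∀ t ∈ Icc a b, HasDerivAt y (B t (y t)) t) (ht₀ : t₀ ∈ Icc a b) (h0 : y t₀ = 0) :
    ∀ t ∈ Icc a b, y t = 0 := by
  obtain ⟨K, hK⟩ := isCompact_Icc.exists_bound_of_continuousOn hB
  have hL : ∀ t ∈ Icc a b, LipschitzOnWith (Real.toNNReal K) (B t) univ := fun t ht =>
    ((B t).lipschitz.weaken ((hK t ht).trans (Real.le_coe_toNNReal K))).lipschitzOnWith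
  have hc := HasDerivAt.continuousOn hy
  have hz : ∀ t, HasDerivAt (fun _ : ℝ => (0 : E)) (B t 0) t := fun t => by
    rw [map_zero]
    exact hasDerivAt_const t 0
  intro t ht
  rcases le_total t₀ t with h | h
  · have hs : Ico t₀ b ⊆ Icc a b := Ico_subset_Icc_self.trans (Icc_subset_Icc_left ht₀.1)
    exact ODE_solution_unique_of_mem_Icc_right (v := fun t => B t) (s := fun _ => univ)
      (fun t ht => hL t (hs ht)) (hc.mono (Icc_subset_Icc_left ht₀.1))
      (fun t ht => (hy t (hs ht)).hasDerivWithinAt) (fun _ _ => trivial) continuousOn_const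
      (fun t _ => (hz t).hasDerivWithinAt) (fun _ _ => trivial) h0 ⟨h, ht.2⟩
  · have hs : Ioc a t₀ ⊆ Icc a b := Ioc_subset_Icc_self.trans (Icc_subset_Icc_right ht₀.2)
    exact ODE_solution_unique_of_mem_Icc_left (v := fun t => B t) (s := fun _ => univ)
      (fun t ht => hL t (hs ht)) (hc.mono (Icc_subset_Icc_right ht₀.2))
      (fun t ht => (hy t (hs ht)).hasDerivWithinAt) (fun _ _ => trivial) continuousOn_const
      (fun t _ => (hz t).hasDerivWithinAt) (fun _ _ => trivial) h0 ⟨ht.1, h⟩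

/-- related fields have related linearisations. Sketch: `W z = fderiv Λ z (A z)` equals `B (Λ z)`;
the derivative of `fderiv Λ (c t) (y t)` is `D²Λ(A c, y) + DΛ (DA y) = fderiv W (c t) (y t)` by the
symmetry of `D²Λ`. -/
theorem lin_related {F : Type} [NormedAddCommGroup F] [NormedSpace ℝ F] {Λ : E → F} {A : E → E}
    {B : F → F} (hΛ : Sm Λ) (hA : Sm A) (hB : Sm B) (hrel : ∀ z, fderiv ℝ Λ z (A z) = B (Λ z))
    {c y : ℝ → E} {t : ℝ} (hc : HasDerivAt c (A (c t)) t)
    (hy : HasDerivAt y (fderiv ℝ A (c t) (y t)) t) :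
    HasDerivAt (fun r => fderiv ℝ Λ (c r) (y r))
      (fderiv ℝ B (Λ (c t)) (fderiv ℝ Λ (c t) (y t))) t := by
  exact FlowD_rel hΛ hA hB hrel hc hy

end Pool.Agent.Lib.MP_45f3cb_gt
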