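import Pool.Agent.Lib.MP_45f3cb_gt.Base

/-!
Integrals over a compact set that depend on a parameter (compare `Lib/MP_42bfd7_mp/ParInt.lean`).
-/

open Set MeasureTheory

namespace Pool.Agent.Lib.MP_45f3cb_gt

section General

variable {E P : Type} [NormedAddCommGroup E] [NormedSpace ℝ E] [FiniteDimensional ℝ E]
  [NormedAddCommGroup P] [NormedSpace ℝ P] [FiniteDimensional ℝ P] [MeasurableSpace P]
  [BorelSpace P] {μ : Measure P} [IsFiniteMeasureOnCompacts μ] {K : Set P}

/-- Sketch: `hasFDerivAt_integral_of_dominated_of_fderiv_le` for `μ.restrict K`; the derivative of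
`G` is bounded on `closedBall y 1 ×ˢ K`. -/
theorem hasFDerivAt_setInt {G : E × P → ℝ} (hK : IsCompact K) (hG : ContDiff ℝ 1 G) (y : E) :
    DifferentiableAt ℝ (fun y => ∫ p in K, G (y, p) ∂μ) y ∧
      ∀ v, fderiv ℝ (fun y => ∫ p in K, G (y, p) ∂μ) y v =
        ∫ p in K, fderiv ℝ G (y, p) (v, 0) ∂μ := by
  have hc := hG.continuous
  have hd : Continuous fun q => (fderiv ℝ G q).comp (ContinuousLinearMap.inl ℝ E P) :=
    (hG.continuous_fderiv one_ne_zero).clm_comp continuous_const
  have hd2 : Continuous fun p => (fderiv ℝ G (y, p)).comp (ContinuousLinearMap.inl ℝ E P) :=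
    hd.comp (f := fun p : P => (y, p)) (by fun_prop)
  obtain ⟨C, hC⟩ := ((isCompact_closedBall y 1).prod hK).exists_bound_of_continuousOn
    hd.continuousOn
  have key := hasFDerivAt_integral_of_dominated_of_fderiv_le (𝕜 := ℝ) (μ := μ.restrict K)
    (F := fun x p => G (x, p))
    (F' := fun x p => (fderiv ℝ G (x, p)).comp (ContinuousLinearMap.inl ℝ E P))
    (bound := fun _ => C) (Metric.closedBall_mem_nhds y one_pos)
    (Filter.Eventually.of_forall fun x => Continuous.aestronglyMeasurable (by fun_prop))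
    (ContinuousOn.integrableOn_compact hK (by fun_prop)) hd2.aestronglyMeasurable
    ((ae_restrict_mem hK.measurableSet).mono fun p hp x hx => hC (x, p) ⟨hx, hp⟩)
    (continuousOn_const.integrableOn_compact hK)
    (Filter.Eventually.of_forall fun p x _ =>
      (hG.differentiable one_ne_zero (x, p)).hasFDerivAt.comp x (hasFDerivAt_prodMk_left x p))
  refine ⟨key.differentiableAt, fun v => ?_⟩
  rw [key.fderiv, ContinuousLinearMap.integral_apply (hd2.continuousOn.integrableOn_compact hK)]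
  rfl

/-- Sketch: induction on `k` for all `G`; `k = 0` is `continuous_parametric_integral_of_continuous`;
`contDiff_succ_iff_fderiv` and `contDiff_clm_apply_iff`. -/
theorem contDiff_setInt {k : ℕ} {G : E × P → ℝ} (hK : IsCompact K) (hG : ContDiff ℝ k G) :
    ContDiff ℝ k fun y => ∫ p in K, G (y, p) ∂μ := by
  induction k generalizing G with
  | zero =>
    exact contDiff_zero.2 (continuous_parametric_integral_of_continuous
      (f := fun y p => G (y, p)) hG.continuous hK)
  | succ k ih =>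
    have h1 : ContDiff ℝ 1 G := hG.of_le (by exact_mod_cast Nat.le_add_left 1 k)
    rw [Nat.cast_succ, contDiff_succ_iff_fderiv] at hG ⊢
    refine ⟨fun y => (hasFDerivAt_setInt hK h1 y).1, by simp, contDiff_clm_apply_iff.2 fun v => ?_⟩
    rw [funext fun y => (hasFDerivAt_setInt hK h1 y).2 v]
    exact ih (G := fun q => fderiv ℝ G q (v, 0)) (hG.2.2.clm_apply contDiff_const)

theorem sm_setInt {G : E × P → ℝ} (hK : IsCompact K) (hG : Sm G) :
    Sm fun y => ∫ p in K, G (y, p) ∂μ := by
  exact contDiff_infty.2 fun k => contDiff_setInt hK (contDiff_infty.1 hG k)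

theorem contDiff_intInt {k : ℕ} {G : E × ℝ → ℝ} (hG : ContDiff ℝ k G) (a b : ℝ) :
    ContDiff ℝ k fun y => ∫ t in a..b, G (y, t) := by
  have key : ∀ a b : ℝ, ContDiff ℝ k fun y => ∫ t in Ioc a b, G (y, t) := fun a b => by
    simp only [← integral_Icc_eq_integral_Ioc]
    exact contDiff_setInt isCompact_Icc hG
  exact (key a b).sub (key b a)

theorem sm_intInt {G : E × ℝ → ℝ} (hG : Sm G) (a b : ℝ) : Sm fun y => ∫ t in a..b, G (y, t) := by
  exact contDiff_infty.2 fun k => contDiff_intInt (contDiff_infty.1 hG k) a b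

/-- a one dimensional parameter and a support that stays in a fixed compact set -/
theorem hasDerivAt_int {G : ℝ × P → ℝ} (hK : IsCompact K) (hG : ContDiff ℝ 1 G)
    (hs : ∀ s p, p ∉ K → G (s, p) = 0) (s : ℝ) :
    HasDerivAt (fun s => ∫ p, G (s, p) ∂μ) (∫ p, fderiv ℝ G (s, p) (1, 0) ∂μ) s := by
  have e1 : (fun s => ∫ p, G (s, p) ∂μ) = fun s => ∫ p in K, G (s, p) ∂μ := funext fun s =>
    (setIntegral_eq_integral_of_forall_compl_eq_zero (hs s)).symm
  have e2 : ∀ p, p ∉ K → fderiv ℝ G (s, p) (1, 0) = 0 := fun p hp => by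
    have h0 : G =ᶠ[nhds (s, p)] fun _ => 0 :=
      ((isOpen_univ.prod hK.isClosed.isOpen_compl).eventually_mem (x := (s, p))
        ⟨mem_univ s, hp⟩).mono fun q hq => hs q.1 q.2 hq.2
    rw [h0.fderiv_eq]
    simp
  obtain ⟨h1, h2⟩ := hasFDerivAt_setInt (μ := μ) hK hG s
  rw [e1, ← setIntegral_eq_integral_of_forall_compl_eq_zero e2, ← h2]
  exact h1.hasFDerivAt.hasDerivAt

end General

variable {n : ℕ}

theorem LB.mul_right {F G : Z n → ℝ} (h : LB F) : LB fun z => F z * G z := by
  exact fun x₀ => (h x₀).imp fun R hR => hR.mono fun x hx p hp => by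
    simp only [hx p hp, zero_mul]

theorem LB.mul_left {F G : Z n → ℝ} (h : LB G) : LB fun z => F z * G z := by
  exact fun x₀ => (h x₀).imp fun R hR => hR.mono fun x hx p hp => by
    simp only [hx p hp, mul_zero]

theorem LB.add {F G : Z n → ℝ} (h : LB F) (h' : LB G) : LB fun z => F z + G z := by
  intro x₀
  obtain ⟨R, hR⟩ := h x₀
  obtain ⟨R', hR'⟩ := h' x₀
  exact ⟨max R R', (hR.and hR').mono fun x hx p hp => by
    simp only [hx.1 p (max_lt_iff.1 hp).1, hx.2 p (max_lt_iff.1 hp).2, add_zero]⟩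

theorem LB.sub {F G : Z n → ℝ} (h : LB F) (h' : LB G) : LB fun z => F z - G z := by
  intro x₀
  obtain ⟨R, hR⟩ := h x₀
  obtain ⟨R', hR'⟩ := h' x₀
  exact ⟨max R R', (hR.and hR').mono fun x hx p hp => by
    simp only [hx.1 p (max_lt_iff.1 hp).1, hx.2 p (max_lt_iff.1 hp).2, sub_zero]⟩

theorem LB.of_compact {F : Z n → ℝ} (h : HasCompactSupport F) : LB F := by
  obtain ⟨R, hR⟩ := h.isCompact.isBounded.exists_norm_le
  exact fun x₀ => ⟨R, Filter.Eventually.of_forall fun x p hp => image_eq_zero_of_notMem_tsupport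
    fun hm => absurd ((norm_snd_le (x, p)).trans (hR _ hm)) (not_le.2 hp)⟩

theorem LB.fderiv {F : Z n → ℝ} (h : LB F) (w : Z n) : LB fun z => fderiv ℝ F z w := by
  refine fun x₀ => (h x₀).imp fun R hR => hR.eventually_nhds.mono fun x hx p hp => ?_
  have h0 : F =ᶠ[nhds (x, p)] fun _ => 0 := by
    rw [nhds_prod_eq]
    exact (hx.prod_mk ((isOpen_lt continuous_const continuous_norm).eventually_mem hp)).mono
      fun q hq => hq.1 q.2 hq.2
  simp only [h0.fderiv_eq]
  simp

theorem LB.fib {F : Z n → ℝ} (h : LB F) (x : V n) : HasCompactSupport fun p => F (x, p) := by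
  obtain ⟨R, hR⟩ := h x
  exact HasCompactSupport.intro (isCompact_closedBall 0 R) fun p hp =>
    hR.self_of_nhds p (by simpa using hp)

theorem LB.integrable {F : Z n → ℝ} (h : LB F) (hF : Continuous F) (x : V n) :
    Integrable fun p => F (x, p) := by
  exact Continuous.integrable_of_hasCompactSupport (by fun_prop) (h.fib x)

theorem parInt_ev {F : Z n → ℝ} {x₀ : V n} {R : ℝ}
    (h : ∀ᶠ x in nhds x₀, ∀ p : V n, R < ‖p‖ → F (x, p) = 0) :
    (fun x => ∫ p, F (x, p)) =ᶠ[nhds x₀] fun x => ∫ p in Metric.closedBall 0 R, F (x, p) :=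
  h.mono fun x hx => (setIntegral_eq_integral_of_forall_compl_eq_zero fun p hp =>
    hx p (by simpa using hp)).symm

/-- near `x₀` the fibre integral is the integral over a closed ball -/
theorem contDiff_fib {k : ℕ} {F : Z n → ℝ} (h : LB F) (hF : ContDiff ℝ k F) :
    ContDiff ℝ k fun x => ∫ p, F (x, p) := by
  refine contDiff_iff_contDiffAt.2 fun x => ?_
  obtain ⟨R, hR⟩ := h x
  exact (contDiff_setInt (isCompact_closedBall 0 R) hF).contDiffAt.congr_of_eventuallyEq
    (parInt_ev hR)

theorem pd_fib {F : Z n → ℝ} (h : LB F) (hF : ContDiff ℝ 1 F) (i : Fin n) (x : V n) :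
    pd i (fun x => ∫ p, F (x, p)) x = ∫ p, dx i F (x, p) := by
  obtain ⟨R, hR⟩ := h x
  obtain ⟨R', hR'⟩ := h.fderiv (Pi.single i 1, 0) x
  have h1 := parInt_ev (R := max R R') (hR.mono fun x hx p hp => hx p (max_lt_iff.1 hp).1)
  have h2 := parInt_ev (F := fun z => fderiv ℝ F z (Pi.single i 1, 0)) (R := max R R')
    (hR'.mono fun x hx p hp => hx p (max_lt_iff.1 hp).2)
  rw [pd, h1.fderiv_eq, (hasFDerivAt_setInt (isCompact_closedBall 0 _) hF x).2]
  exact h2.self_of_nhds.symm

end Pool.Agent.Lib.MP_45f3cb_gt
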