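import Pool.Agent.Lib.MP_45f3cb_gt.Jac
import Pool.Agent.Lib.MP_45f3cb_gt.ParInt

/-!
Integration by parts on phase space and on the fibres, Fubini, elementary integral inequalities.
-/

open Set MeasureTheory

namespace Pool.Agent.Lib.MP_45f3cb_gt

variable {n : ℕ} {a F G : Z n → ℝ}

/-- `integral_mul_fderiv_eq_neg_fderiv_mul_of_integrable` with the constant function `1` is not
integrable; use `integral_bilinear_hasLineDerivAt_right_eq_neg_left_of_integrable` (it needs only the
three products to be integrable) or a bump function equal to `1` on the support. -/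
theorem int_fderiv {E : Type} [NormedAddCommGroup E] [NormedSpace ℝ E] [FiniteDimensional ℝ E]
    [MeasurableSpace E] [BorelSpace E] (μ : Measure E) [μ.IsAddHaarMeasure] {u : E → ℝ}
    (hu : ContDiff ℝ 1 u) (hc : HasCompactSupport u) (w : E) : ∫ y, fderiv ℝ u y w ∂μ = 0 := by
  have h1 : Integrable u μ := hu.continuous.integrable_of_hasCompactSupport hc
  have h2 : Integrable (fun y => fderiv ℝ u y w) μ :=
    ((hu.continuous_fderiv one_ne_zero).clm_apply continuous_const).integrable_of_hasCompactSupport
      (hc.fderiv_apply (𝕜 := ℝ) w)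
  have h3 := integral_mul_fderiv_eq_neg_fderiv_mul_of_integrable (μ := μ) (𝕜 := ℝ)
    (f := fun _ => (1 : ℝ)) (g := u) (v := w) (by simp) (by simpa using h2) (by simpa using h1)
    (fun x _ => differentiableAt_const _) (fun x _ => hu.differentiable one_ne_zero x)
  simpa using h3

theorem int_dx (h : Sm F) (hc : HasCompactSupport F) (i : Fin n) : ∫ z, dx i F z = 0 := by
  have : (volume : Measure (Z n)).IsAddHaarMeasure := Measure.prod.instIsAddHaarMeasure _ _
  exact int_fderiv volume (h.of_le (by simp)) hc _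

theorem int_dp (h : Sm F) (hc : HasCompactSupport F) (i : Fin n) : ∫ z, dp i F z = 0 := by
  have : (volume : Measure (Z n)).IsAddHaarMeasure := Measure.prod.instIsAddHaarMeasure _ _
  exact int_fderiv volume (h.of_le (by simp)) hc _

/-- `br a F = ∑ dx i (dp i a * F) - dp i (dx i a * F)` -/
theorem int_br (ha : Sm a) (h : Sm F) (hc : HasCompactSupport F) : ∫ z, br a F z = 0 := by
  have h1 : ∀ z, br a F z = ∑ i, (dx i (fun w => dp i a w * F w) z -
      dp i (fun w => dx i a w * F w) z) := by
    intro z
    refine Finset.sum_congr rfl fun i _ => ?_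
    rw [dx_mul ((ha.dp i).dAt z) (h.dAt z), dp_mul ((ha.dx i).dAt z) (h.dAt z), dx_dp ha]
    ring
  have s1 : ∀ i, Sm fun w => dp i a w * F w := fun i => ContDiff.mul (ha.dp i) h
  have s2 : ∀ i, Sm fun w => dx i a w * F w := fun i => ContDiff.mul (ha.dx i) h
  have c1 : ∀ i, HasCompactSupport fun w => dp i a w * F w := fun i => hc.mul_left
  have c2 : ∀ i, HasCompactSupport fun w => dx i a w * F w := fun i => hc.mul_left
  have i1 : ∀ i, Integrable (dx i fun w => dp i a w * F w) := fun i =>
    ((s1 i).dx i).continuous.integrable_of_hasCompactSupport (hcs_dx (c1 i) i)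
  have i2 : ∀ i, Integrable (dp i fun w => dx i a w * F w) := fun i =>
    ((s2 i).dp i).continuous.integrable_of_hasCompactSupport (hcs_dp (c2 i) i)
  simp only [h1]
  have i3 : ∀ i, Integrable fun z => dx i (fun w => dp i a w * F w) z -
      dp i (fun w => dx i a w * F w) z := fun i => (i1 i).sub (i2 i)
  rw [integral_finsetSum _ fun i _ => i3 i]
  refine Finset.sum_eq_zero fun i _ => ?_
  rw [integral_sub (i1 i) (i2 i), int_dx (s1 i) (c1 i), int_dp (s2 i) (c2 i), sub_self]

theorem int_mul_dx (hF : Sm F) (hG : Sm G) (hc : HasCompactSupport G) (i : Fin n) :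
    ∫ z, F z * dx i G z = -∫ z, dx i F z * G z := by
  have h1 := int_dx (F := fun w => F w * G w) (ContDiff.mul hF hG) hc.mul_left i
  simp only [dx_mul (hF.dAt _) (hG.dAt _)] at h1
  rw [integral_add (f := fun z => dx i F z * G z) (g := fun z => F z * dx i G z)
    (((hF.dx i).continuous.mul hG.continuous).integrable_of_hasCompactSupport hc.mul_left)
    ((hF.continuous.mul (hG.dx i).continuous).integrable_of_hasCompactSupport
      (hcs_dx hc i).mul_left)] at h1
  linarith

theorem int_mul_dp (hF : Sm F) (hG : Sm G) (hc : HasCompactSupport G) (i : Fin n) :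
    ∫ z, F z * dp i G z = -∫ z, dp i F z * G z := by
  have h1 := int_dp (F := fun w => F w * G w) (ContDiff.mul hF hG) hc.mul_left i
  simp only [dp_mul (hF.dAt _) (hG.dAt _)] at h1
  rw [integral_add (f := fun z => dp i F z * G z) (g := fun z => F z * dp i G z)
    (((hF.dp i).continuous.mul hG.continuous).integrable_of_hasCompactSupport hc.mul_left)
    ((hF.continuous.mul (hG.dp i).continuous).integrable_of_hasCompactSupport
      (hcs_dp hc i).mul_left)] at h1
  linarith

theorem int_mul_br (ha : Sm a) (hF : Sm F) (hG : Sm G) (hc : HasCompactSupport G) :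
    ∫ z, F z * br a G z = -∫ z, br a F z * G z := by
  have h1 := int_br (F := fun w => F w * G w) ha (ContDiff.mul hF hG) hc.mul_left
  simp only [br_mul (hF.dAt _) (hG.dAt _)] at h1
  rw [integral_add (f := fun z => br a F z * G z) (g := fun z => F z * br a G z)
    (((ha.br hF).continuous.mul hG.continuous).integrable_of_hasCompactSupport hc.mul_left)
    ((hF.continuous.mul (ha.br hG).continuous).integrable_of_hasCompactSupport
      (hcs_br hc a).mul_left)] at h1
  linarith

theorem int_fib_dp (h : Sm F) (hb : LB F) (i : Fin n) (x : V n) : ∫ p, dp i F (x, p) = 0 := by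
  have h1 : ∀ p, dp i F (x, p) = pd i (fun p => F (x, p)) p := fun p => dp_eq_pd (h.dAt _)
  simp only [h1]
  have h2 : ContDiff ℝ 1 fun p : V n => F (x, p) :=
    (h.of_le (by simp)).comp (contDiff_const.prodMk contDiff_id)
  exact int_fderiv volume h2 (hb.fib x) _

theorem intg (h : Continuous F) (hc : HasCompactSupport F) : Integrable F :=
  h.integrable_of_hasCompactSupport hc

theorem int_fub (h : Integrable F) : ∫ z, F z = ∫ x, ∫ p, F (x, p) := by
  exact integral_prod F h

/-- an orthogonal function integrates to zero against every fibrewise polynomial -/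
theorem Orth.int_mul {d : ℕ} (h : Orth d F) (hF : Continuous F) (hc : HasCompactSupport F)
    (hG : Continuous G) (hp : FP d G) : ∫ z, F z * G z = 0 := by
  rw [int_fub (F := fun z => F z * G z) (intg (hF.mul hG) hc.mul_right)]
  have h1 : ∀ x, ∫ p, F (x, p) * G (x, p) = 0 := fun x => h x _ (hp x)
  simp [h1]

theorem Int_setInt {S : Set (Z n)} (hS : IsCompact S) (hF : Continuous F) :
    (Integrable fun x => ∫ p in {p | (x, p) ∈ S}, F (x, p)) ∧
      ∫ z in S, F z = ∫ x, ∫ p in {p | (x, p) ∈ S}, F (x, p) := by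
  have h1 : Integrable (S.indicator F) :=
    (integrable_indicator_iff hS.measurableSet).2 (hF.continuousOn.integrableOn_compact hS)
  have h2 : ∀ x, ∫ p in {p | (x, p) ∈ S}, F (x, p) = ∫ p, S.indicator F (x, p) := by
    intro x
    have h3 : MeasurableSet {p : V n | (x, p) ∈ S} := measurable_prodMk_left hS.measurableSet
    rw [← integral_indicator h3]
    rfl
  simp only [h2]
  exact ⟨Integrable.integral_prod_left h1, by rw [← integral_indicator hS.measurableSet, int_fub h1]⟩

/-- fibrewise comparison: `F` vanishes outside the compact `K ×ˢ closedBall 0 R` after restriction -/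
theorem setInt_le_fib {K : Set (V n)} {R C : ℝ} (hK : IsCompact K) (hC : 0 ≤ C) (hF : Continuous F)
    (hG : Continuous G) (hGc : HasCompactSupport G) (hG0 : ∀ z, 0 ≤ G z)
    (h : ∀ x ∈ K, ∀ p : V n, ‖p‖ ≤ R → F (x, p) ≤ C * ∫ p', G (x, p')) :
    ∫ z in K ×ˢ Metric.closedBall 0 R, F z ≤
      C * (volume (Metric.closedBall (0 : V n) R)).toReal * ∫ z, G z := by
  classical
  obtain ⟨h1, h2⟩ := Int_setInt (hK.prod (isCompact_closedBall (0 : V n) R)) hF
  have h3 : Integrable G := intg hG hGc
  rw [h2, int_fub h3, ← integral_const_mul]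
  refine integral_mono h1 ((Integrable.integral_prod_left h3).const_mul _) fun x => ?_
  have h4 : 0 ≤ ∫ p', G (x, p') := integral_nonneg fun p => hG0 _
  by_cases hx : x ∈ K
  · have h5 : {p : V n | (x, p) ∈ K ×ˢ Metric.closedBall (0 : V n) R} = Metric.closedBall 0 R := by
      ext p
      simp [hx]
    have h6 : Continuous fun p : V n => F (x, p) := hF.comp (Continuous.prodMk_right x)
    have h7 := setIntegral_mono_on (μ := volume) (s := Metric.closedBall (0 : V n) R)
      (h6.continuousOn.integrableOn_compact (isCompact_closedBall _ _))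
      (continuous_const.continuousOn.integrableOn_compact (isCompact_closedBall _ _))
      measurableSet_closedBall fun p hp => h x hx p (mem_closedBall_zero_iff.1 hp)
    rw [setIntegral_const, smul_eq_mul, Measure.real] at h7
    simp only [h5]
    linarith
  · have h5 : {p : V n | (x, p) ∈ K ×ˢ Metric.closedBall (0 : V n) R} = ∅ := by
      ext p
      simp [hx]
    simp only [h5, Measure.restrict_empty, integral_zero_measure]
    positivity

/-- comparison of set integrals fibre by fibre -/
theorem setInt_le_setInt {S S' : Set (Z n)} {C : ℝ} (hS : IsCompact S) (hS' : IsCompact S')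
    (hF : Continuous F) (hG : Continuous G)
    (h : ∀ x, ∫ p in {p | (x, p) ∈ S}, F (x, p) ≤ C * ∫ p in {p | (x, p) ∈ S'}, G (x, p)) :
    ∫ z in S, F z ≤ C * ∫ z in S', G z := by
  obtain ⟨h1, h2⟩ := Int_setInt hS hF
  obtain ⟨h3, h4⟩ := Int_setInt hS' hG
  rw [h2, h4, ← integral_const_mul]
  exact integral_mono h1 (h3.const_mul _) h

/-- `2 F G ≤ ε F² + G² / ε` when `G` vanishes outside `S` -/
theorem int_mul_le {S : Set (Z n)} {ε : ℝ} (hε : 0 < ε) (hS : IsCompact S) (hF : Continuous F)
    (hG : Continuous G) (hs : ∀ z, z ∉ S → G z = 0) :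
    2 * |∫ z, F z * G z| ≤ ε * (∫ z in S, F z ^ 2) + ε⁻¹ * ∫ z, G z ^ 2 := by
  have h1 : ∫ z, F z * G z = ∫ z in S, F z * G z :=
    (setIntegral_eq_integral_of_forall_compl_eq_zero fun z hz => by rw [hs z hz, mul_zero]).symm
  have h2 : ∫ z, G z ^ 2 = ∫ z in S, G z ^ 2 :=
    (setIntegral_eq_integral_of_forall_compl_eq_zero fun z hz => by
      rw [hs z hz, zero_pow two_ne_zero]).symm
  have i1 : IntegrableOn (fun z => F z ^ 2) S := (hF.pow 2).continuousOn.integrableOn_compact hS
  have i2 : IntegrableOn (fun z => G z ^ 2) S := (hG.pow 2).continuousOn.integrableOn_compact hS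
  have i3 : IntegrableOn (fun z => |F z * G z|) S :=
    (hF.mul hG).abs.continuousOn.integrableOn_compact hS
  rw [h1, h2, ← integral_const_mul, ← integral_const_mul,
    ← integral_add (i1.const_mul _) (i2.const_mul _)]
  refine (mul_le_mul_of_nonneg_left abs_integral_le_integral_abs zero_le_two).trans ?_
  rw [← integral_const_mul]
  refine integral_mono (i3.const_mul _) ((i1.const_mul _).add (i2.const_mul _)) fun z => ?_
  have h3 : 0 ≤ ε⁻¹ * (ε * |F z| - |G z|) ^ 2 := by positivity
  have h4 : ε⁻¹ * (ε * |F z| - |G z|) ^ 2 =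
      ε * |F z| ^ 2 + ε⁻¹ * |G z| ^ 2 - 2 * (|F z| * |G z|) := by
    field_simp
    ring
  rw [h4, sq_abs, sq_abs, ← abs_mul] at h3
  simp only
  linarith

theorem eq_zero_of_int {E : Type} [NormedAddCommGroup E] [NormedSpace ℝ E] [FiniteDimensional ℝ E]
    [MeasurableSpace E] [BorelSpace E] (μ : Measure E) [μ.IsAddHaarMeasure] {u : E → ℝ}
    (hu : Continuous u) (hc : HasCompactSupport u) (h0 : ∀ y, 0 ≤ u y) (h : ∫ y, u y ∂μ ≤ 0)
    (y : E) : u y = 0 := by
  have h1 : ∫ y, u y ∂μ = 0 := le_antisymm h (integral_nonneg h0)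
  have h2 := (integral_eq_zero_iff_of_nonneg h0 (hu.integrable_of_hasCompactSupport hc)).1 h1
  exact congrFun ((hu.ae_eq_iff_eq μ continuous_zero).1 h2) y

end Pool.Agent.Lib.MP_45f3cb_gt
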