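import Pool.Agent.Lib.MP_45f3cb_gt.PolyB
import Pool.Agent.Lib.MP_45f3cb_gt.Int

/-!
The fibrewise orthogonal projection onto `HP n d` for a weight, and stability of orthogonality.
-/

open Set MeasureTheory

namespace Pool.Agent.Lib.MP_45f3cb_gt

variable {n d : ℕ} {ω U F : Z n → ℝ}

theorem Proj_int (hF : Continuous F) (hb : LB F) (x : V n) {q : V n → ℝ} (hq : Continuous q) :
    Integrable fun p => F (x, p) * q p :=
  (hb.mul_right (G := fun z => q z.2)).integrable (hF.mul (hq.comp continuous_snd)) x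

theorem Proj_sum {N : ℕ} {G : V n → ℝ} {e : Fin N → V n → ℝ}
    (hi : ∀ i, Integrable fun p => G p * e i p) (v : Fin N → ℝ) :
    ∫ p, G p * ∑ i, v i * e i p = ∑ i, v i * ∫ p, G p * e i p := by
  simp only [Finset.mul_sum, mul_left_comm (G _)]
  rw [integral_finsetSum _ fun i _ => (hi i).const_mul _]
  simp only [integral_const_mul]

theorem Proj_solve {N : ℕ} (Γ : Matrix (Fin N) (Fin N) ℝ) (h : Γ.det ≠ 0) (m : Fin N → ℝ)
    (j : Fin N) : ∑ i, (Γ.det⁻¹ * ∑ l, m l * Γ.adjugate l i) * Γ i j = m j := by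
  have e : Matrix.vecMul (Γ.det⁻¹ • Matrix.vecMul m Γ.adjugate) Γ = m := by
    rw [Matrix.smul_vecMul, Matrix.vecMul_vecMul, Matrix.adjugate_mul, Matrix.vecMul_smul,
      Matrix.vecMul_one, smul_smul, inv_mul_cancel₀ h, one_smul]
  exact congrFun e j

theorem Proj_basis (n d : ℕ) : ∃ (N : ℕ) (e : Fin N → V n → ℝ), (∀ i, e i ∈ HP n d) ∧
    (∀ v : Fin N → ℝ, (∀ p, ∑ i, v i * e i p = 0) → v = 0) ∧
    ∀ q ∈ HP n d, ∃ v : Fin N → ℝ, ∀ p, q p = ∑ i, v i * e i p := by
  have := HP_fd n d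
  let b := Module.finBasis ℝ (HP n d)
  have key : ∀ (v : Fin (Module.finrank ℝ (HP n d)) → ℝ) p,
      ((∑ i, v i • b i : HP n d) : V n → ℝ) p = ∑ i, v i * (b i : V n → ℝ) p := by
    intro v p
    rw [Submodule.coe_sum, Finset.sum_apply]
    rfl
  refine ⟨_, fun i => b i, fun i => (b i).2, fun v hv => funext ?_, fun q hq =>
    ⟨b.repr ⟨q, hq⟩, fun p => ?_⟩⟩
  · exact Fintype.linearIndependent_iff.1 b.linearIndependent v
      (Subtype.ext (funext fun p => (key v p).trans (hv p)))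
  · rw [← key, b.sum_repr]

theorem Proj_mem {N : ℕ} {e : Fin N → V n → ℝ} (he : ∀ i, e i ∈ HP n d) (v : Fin N → ℝ) :
    (fun p => ∑ i, v i * e i p) ∈ HP n d := by
  have h := (HP n d).sum_mem (t := Finset.univ) fun i _ => (HP n d).smul_mem (v i) (he i)
  have e : (fun p => ∑ i, v i * e i p) = ∑ i, v i • e i := by
    funext p
    rw [Finset.sum_apply]
    rfl
  rwa [e]

/-- a polynomial with `∫ ω q² = 0` vanishes -/
theorem proj_unique (hω : Continuous ω) (hb : LB ω) (h0 : ∀ z, 0 ≤ ω z) {x : V n}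
    (hp : ∃ p, 0 < ω (x, p)) {q : V n → ℝ} (hq : q ∈ HP n d)
    (h : ∫ p, ω (x, p) * q p * q p = 0) (p : V n) : q p = 0 := by
  have hc := (HP_sm hq).continuous
  have hx : Continuous fun p => ω (x, p) := hω.comp (Continuous.prodMk_right x)
  have h1 := eq_zero_of_int volume ((hx.mul hc).mul hc) (hb.fib x).mul_right.mul_right
    (fun y => by
      show 0 ≤ ω (x, y) * q y * q y
      rw [mul_assoc]
      exact mul_nonneg (h0 _) (mul_self_nonneg _)) h.le
  refine HP_eq_zero hq (isOpen_lt continuous_const hx) hp (fun y hy => ?_) p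
  have h2 : ω (x, y) * q y * q y = 0 := h1 y
  rw [mul_assoc] at h2
  exact mul_self_eq_zero.1 ((mul_eq_zero.1 h2).resolve_left (ne_of_gt hy))

theorem contDiff_det {E : Type} [NormedAddCommGroup E] [NormedSpace ℝ E] {k : WithTop ℕ∞} {N : ℕ}
    {A : E → Matrix (Fin N) (Fin N) ℝ} (h : ∀ i j, ContDiff ℝ k fun x => A x i j) :
    ContDiff ℝ k fun x => (A x).det := by
  simp only [Matrix.det_apply']
  exact ContDiff.sum fun σ _ => contDiff_const.mul (contDiff_prod fun i _ => h _ _)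

theorem contDiff_adjugate {E : Type} [NormedAddCommGroup E] [NormedSpace ℝ E] {k : WithTop ℕ∞}
    {N : ℕ} {A : E → Matrix (Fin N) (Fin N) ℝ} (h : ∀ i j, ContDiff ℝ k fun x => A x i j)
    (i j : Fin N) : ContDiff ℝ k fun x => (A x).adjugate i j := by
  simp only [Matrix.adjugate_apply]
  refine contDiff_det fun a b => ?_
  simp only [Matrix.updateRow_apply]
  split_ifs
  · exact contDiff_const
  · exact h a b

/-- Sketch: a basis `e` of `HP n d`, the Gram matrix `Γ x i j = ∫ ω e_i e_j` has trivial kernel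
(`proj_unique`), so `det ≠ 0`; `h z = ∑ i j, (det Γ)⁻¹ * adjugate Γ i j * (∫ U e_j) * e_i z.2`;
`contDiff_fib`. The formula does not depend on `k`. -/
theorem exists_proj (hω : Sm ω) (hb : LB ω) (h0 : ∀ z, 0 ≤ ω z) (hp : ∀ x, ∃ p, 0 < ω (x, p))
    (hU : Continuous U) (hUb : LB U) :
    ∃ h : Z n → ℝ, (∀ k : ℕ, ContDiff ℝ k U → ContDiff ℝ k h) ∧ FP d h ∧
      Orth d fun z => U z - ω z * h z := by
  obtain ⟨N, e, e1, e2, e3⟩ := Proj_basis n d
  have ec : ∀ i, Continuous (e i) := fun i => (HP_sm (e1 i)).continuous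
  have hc := hω.continuous
  obtain ⟨Γ, hΓ⟩ : ∃ Γ : V n → Matrix (Fin N) (Fin N) ℝ,
      ∀ x i j, Γ x i j = ∫ p, ω (x, p) * e j p * e i p := ⟨fun x => Matrix.of _, fun _ _ _ => rfl⟩
  have hi : ∀ x {q : V n → ℝ}, Continuous q → ∀ i, Integrable fun p => ω (x, p) * q p * e i p :=
    fun x q hq i => Proj_int (F := fun z => ω z * q z.2) (hc.mul (hq.comp continuous_snd))
      hb.mul_right x (ec i)
  have h1 : ∀ x (v : Fin N → ℝ) j,
      ∫ p, ω (x, p) * (∑ i, v i * e i p) * e j p = ∑ i, v i * Γ x i j := by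
    intro x v j
    simp only [hΓ, mul_right_comm (ω _) (∑ i, v i * e i _)]
    exact Proj_sum (hi x (ec j)) v
  have hdet : ∀ x, (Γ x).det ≠ 0 := by
    intro x hx
    obtain ⟨v, hv, h2⟩ := Matrix.exists_vecMul_eq_zero_iff.2 hx
    refine hv (e2 v (proj_unique hc hb h0 (hp x) (Proj_mem e1 v) ?_))
    rw [Proj_sum (hi x (HP_sm (Proj_mem e1 v)).continuous) v]
    refine Finset.sum_eq_zero fun j _ => ?_
    have h3 : ∑ i, v i * Γ x i j = 0 := congrFun h2 j
    rw [h1, h3, mul_zero]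
  refine ⟨fun z => ∑ i, ((Γ z.1).det⁻¹ * ∑ l, (∫ p, U (z.1, p) * e l p) * (Γ z.1).adjugate l i) *
    e i z.2, fun k hk => ?_, fun x => Proj_mem e1 fun i =>
      (Γ x).det⁻¹ * ∑ l, (∫ p, U (x, p) * e l p) * (Γ x).adjugate l i, fun x q hq => ?_⟩
  · have hle : ((k : ℕ∞) : WithTop ℕ∞) ≤ ((⊤ : ℕ∞) : WithTop ℕ∞) := by exact_mod_cast le_top
    have ek : ∀ i, ContDiff ℝ k fun z : Z n => e i z.2 := fun i =>
      ((HP_sm (e1 i)).of_le hle).comp contDiff_snd
    have hΓk : ∀ i j, ContDiff ℝ k fun x => Γ x i j := by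
      intro i j
      simp only [hΓ]
      exact contDiff_fib (F := fun z => ω z * e j z.2 * e i z.2) hb.mul_right.mul_right
        (((hω.of_le hle).mul (ek j)).mul (ek i))
    refine ContDiff.sum fun i _ => ContDiff.mul (ContDiff.comp (g := fun x => (Γ x).det⁻¹ *
      ∑ l, (∫ p, U (x, p) * e l p) * (Γ x).adjugate l i) ?_ contDiff_fst) (ek i)
    exact ((contDiff_det hΓk).inv hdet).mul (ContDiff.sum fun l _ =>
      (contDiff_fib (F := fun z => U z * e l z.2) hUb.mul_right (hk.mul (ek l))).mul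
        (contDiff_adjugate hΓk l i))
  · obtain ⟨v, hv⟩ := e3 q hq
    obtain ⟨c, hcc⟩ : ∃ c : Fin N → ℝ, ∀ i, c i =
        (Γ x).det⁻¹ * ∑ l, (∫ p, U (x, p) * e l p) * (Γ x).adjugate l i := ⟨_, fun _ => rfl⟩
    have h2 := hi x (HP_sm (Proj_mem e1 c)).continuous
    have h3 := fun j => Proj_int hU hUb x (ec j)
    simp only [hv, ← hcc]
    rw [Proj_sum (fun j => by simpa only [sub_mul] using (h3 j).sub' (h2 j)) v]
    refine Finset.sum_eq_zero fun j _ => ?_
    simp only [sub_mul]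
    rw [integral_sub (h3 j) (h2 j), h1]
    simp only [hcc]
    rw [Proj_solve _ (hdet x), sub_self, mul_zero]

/-- the projection reproduces polynomials -/
theorem proj_eq (hω : Continuous ω) (hb : LB ω) (h0 : ∀ z, 0 ≤ ω z) {h : Z n → ℝ} (hh : FP d h)
    (ho : Orth d fun z => U z - ω z * h z) {x : V n} (hp : ∃ p, 0 < ω (x, p)) {q : V n → ℝ}
    (hq : q ∈ HP n d) (he : ∀ p, U (x, p) = ω (x, p) * q p) (p : V n) : h (x, p) = q p := by
  have hr := (HP n d).sub_mem (hh x) hq
  have h1 := ho x _ hr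
  refine sub_eq_zero.1 (proj_unique hω hb h0 hp hr ?_ p)
  rw [← neg_eq_zero, ← integral_neg, ← h1]
  refine integral_congr_ae (Filter.Eventually.of_forall fun y => ?_)
  simp only [he, Pi.sub_apply]
  ring

/-- `pd_fib` applied to `F * q` -/
theorem Orth.dx (h : Orth d F) (hF : Sm F) (hb : LB F) (i : Fin n) : Orth d (dx i F) := by
  intro x q hq
  have hs : Sm fun z : Z n => q z.2 := (HP_sm hq).comp contDiff_snd
  have h1 := pd_fib (F := fun z => F z * q z.2) hb.mul_right
    ((hF.mul hs).of_le (by exact_mod_cast le_top)) i x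
  have h2 : (fun x => ∫ p, F (x, p) * q p) = fun _ => 0 := funext fun y => h y q hq
  simp only [h2, dx_mul (hF.dAt _) (hs.dAt _), dx_snd, mul_zero, add_zero] at h1
  rw [← h1, pd]
  simp

/-- `int_fib_dp` applied to `p j * q * F`, `HP_coord_pd` -/
theorem Orth.coord_dp (h : Orth d F) (hF : Sm F) (hb : LB F) (i j : Fin n) :
    Orth d fun z => z.2 j * dp i F z := by
  intro x q hq
  have hs : Sm fun z : Z n => q z.2 := (HP_sm hq).comp contDiff_snd
  have hj : Sm fun z : Z n => z.2 j := (contDiff_apply ℝ ℝ j).comp contDiff_snd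
  have hjs : Sm fun z : Z n => z.2 j * q z.2 := hj.mul hs
  have hG : Sm fun z : Z n => F z * (z.2 j * q z.2) := hF.mul hjs
  have hr : (fun p => (if i = j then 1 else 0) * q p + p j * pd i q p) ∈ HP n d :=
    (HP n d).add_mem ((HP n d).smul_mem (if i = j then 1 else 0) hq) (HP_coord_pd hq i j)
  have h1 := int_fib_dp hG hb.mul_right i x
  have h2 := h x _ hr
  have h3 : Integrable fun p => dp i (fun z : Z n => F z * (z.2 j * q z.2)) (x, p) :=
    LB.integrable (F := dp i fun z : Z n => F z * (z.2 j * q z.2)) (hb.mul_right.fderiv _)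
      (hG.dp i).continuous x
  have h4 := integral_sub h3 (Proj_int hF.continuous hb x (HP_sm hr).continuous)
  rw [h1, h2, sub_zero] at h4
  rw [← h4]
  refine integral_congr_ae (Filter.Eventually.of_forall fun y => ?_)
  simp only [dp_mul (hF.dAt _) (hjs.dAt _), dp_mul (hj.dAt _) (hs.dAt _), dp_coord]
  rw [dp_snd ((HP_sm hq).dAt _)]
  ring

theorem Orth.br_lin (h : Orth d F) (hF : Sm F) (hb : LB F) {ξ : V n → V n} (hξ : Sm ξ) :
    Orth d (br (lin ξ) F) := by
  intro x q hq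
  have hc := (HP_sm hq).continuous
  have i1 : ∀ i, Integrable fun p => MP_45f3cb_gt.dx i F (x, p) * q p := fun i =>
    Proj_int (F := MP_45f3cb_gt.dx i F) (hF.dx i).continuous (hb.fderiv _) x hc
  have i2 : ∀ i j, Integrable fun p : V n => p j * dp i F (x, p) * q p := fun i j =>
    Proj_int (F := fun z => z.2 j * dp i F z)
      (((continuous_apply j).comp continuous_snd).mul (hF.dp i).continuous)
      (LB.mul_left (G := dp i F) (hb.fderiv _)) x hc
  have e : ∀ p, br (lin ξ) F (x, p) * q p = ∑ i, (ξ x i * (MP_45f3cb_gt.dx i F (x, p) * q p) -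
      ∑ j, pd i (fun x => ξ x j) x * (p j * dp i F (x, p) * q p)) := by
    intro p
    rw [br, Finset.sum_mul]
    refine Finset.sum_congr rfl fun i _ => ?_
    rw [dp_lin hξ, dx_lin hξ, sub_mul, mul_assoc, Finset.sum_mul, Finset.sum_mul]
    exact congrArg _ (Finset.sum_congr rfl fun j _ => by ring)
  have i3 := fun i => integrable_finsetSum Finset.univ fun j _ =>
    (i2 i j).const_mul (pd i (fun x => ξ x j) x)
  simp only [e]
  rw [integral_finsetSum _ fun i _ => ((i1 i).const_mul _).sub' (i3 i)]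
  refine Finset.sum_eq_zero fun i _ => ?_
  rw [integral_sub ((i1 i).const_mul _) (i3 i), integral_const_mul, h.dx hF hb i x q hq,
    integral_finsetSum _ fun j _ => (i2 i j).const_mul _, Finset.sum_eq_zero fun j _ => by
      rw [integral_const_mul, h.coord_dp hF hb i j x q hq, mul_zero], mul_zero, sub_zero]

end Pool.Agent.Lib.MP_45f3cb_gt
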