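import Pool.Agent.Lib.MP_45f3cb_gt.Top
import Pool.Agent.Lib.MP_45f3cb_gt.FlowD
import Pool.Agent.Lib.MP_45f3cb_gt.Proj

/-!
Consequences of the Killing equation over `M`.
-/

open Set MeasureTheory

namespace Pool.Agent.Lib.MP_45f3cb_gt

variable {n d : ℕ} {D : Dom n} {ξ : V n → V n} {z : Z n}

theorem KilF_br_psi (A : Met n) (hξ : Sm ξ) : br A.H (A.psi ξ) = br A.H (lin ξ) := by
  funext w
  have e : A.psi ξ = fun w => lin ξ w - A.H w := rfl
  rw [e, br_sub ((sm_lin hξ).dAt w) (A.sm_H.dAt w), br_self, sub_zero]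

theorem KilF_dp_psi (A : Met n) (hξ : Sm ξ) (i : Fin n) (x : V n) :
    dp i (A.psi ξ) (x, A.fl ξ x) = 0 := by
  rw [A.dp_psi hξ]
  simp

theorem KilF_gG (A : Met n) (x q : V n) (i : Fin n) :
    ∑ j, A.g x i j * ∑ l, A.G x j l * q l = q i := by
  simp_rw [Finset.mul_sum, ← mul_assoc]
  rw [Finset.sum_comm]
  simp_rw [← Finset.sum_mul, A.inv]
  simp

theorem KilF_quad (A : Met n) (x q : V n) :
    ∑ i, ∑ j, A.g x i j * (∑ k, A.G x i k * q k) * (∑ l, A.G x j l * q l) =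
      ∑ i, ∑ j, A.G x i j * q i * q j := by
  refine Finset.sum_congr rfl fun i _ => ?_
  have e : ∀ j, A.g x i j * (∑ k, A.G x i k * q k) * (∑ l, A.G x j l * q l) =
      (∑ k, A.G x i k * q k) * (A.g x i j * ∑ l, A.G x j l * q l) := fun j => by ring
  simp_rw [e]
  rw [← Finset.mul_sum, KilF_gG, Finset.sum_mul]
  exact Finset.sum_congr rfl fun j _ => by ring

theorem KilF_sig (A : Met n) (hξ : Sm ξ) : A.sig ξ = fun w => ∑ p : Fin n × Fin n,
    (1 / 2 * A.g w.1 p.1 p.2) * dp p.1 (A.psi ξ) w * dp p.2 (A.psi ξ) w := by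
  funext w
  rw [A.sig_eq, Fintype.sum_prod_type]
  unfold Met.H
  rw [← KilF_quad, Finset.mul_sum]
  refine Finset.sum_congr rfl fun i _ => ?_
  rw [Finset.mul_sum]
  refine Finset.sum_congr rfl fun j _ => ?_
  rw [A.dp_psi hξ, A.dp_psi hξ]
  simp only [Pi.sub_apply]
  ring

theorem KilF_two {a u v w : Z n → ℝ} (ha : Sm a) (hu : Sm u) (hv : Sm v) (hw : Sm w)
    (h1 : v z = 0) (h2 : w z = 0) :
    br a (br a fun y => u y * v y * w y) z = 2 * u z * br a v z * br a w z := by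
  have hf : Sm fun y => u y * v y := hu.mul hv
  have e : (br a fun y => u y * v y * w y) = fun y =>
      br a (fun y => u y * v y) y * w y + u y * v y * br a w y :=
    funext fun y => br_mul (hf.dAt y) (hw.dAt y)
  have s1 : Sm fun y => br a (fun y => u y * v y) y * w y := (ha.br hf).mul hw
  have s2 : Sm fun y => u y * v y * br a w y := hf.mul (ha.br hw)
  rw [e, br_add (s1.dAt z) (s2.dAt z), br_mul ((ha.br hf).dAt z) (hw.dAt z),
    br_mul (hf.dAt z) ((ha.br hw).dAt z), br_mul (hu.dAt z) (hv.dAt z), h1, h2]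
  ring

theorem KilF_sum {ι : Type} [Fintype ι] {a : Z n → ℝ} {f : ι → Z n → ℝ} (ha : Sm a)
    (hf : ∀ k, Sm (f k)) :
    br a (br a fun y => ∑ k, f k y) z = ∑ k, br a (br a (f k)) z := by
  have e : (br a fun y => ∑ k, f k y) = fun y => ∑ k, br a (f k) y :=
    funext fun y => br_sum fun k _ => (hf k).dAt y
  rw [e, br_sum fun k _ => (ha.br (hf k)).dAt z]

theorem KilF_zero {a F : Z n → ℝ} {O : Set (Z n)} (hO : IsOpen O) (h : ∀ w ∈ O, F w = 0)
    (hz : z ∈ O) : br a F z = 0 := by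
  have e : F =ᶠ[nhds z] fun _ => 0 := Filter.eventually_of_mem (hO.mem_nhds hz) h
  rw [br_congr e, br_const]

/-- `Dom.fderiv_neg` -/
theorem Kil.fderiv_kil (h : Kil D ξ) (hz : D.b z.1 ≤ 0) : fderiv ℝ (br D.H (lin ξ)) z = 0 := by
  exact D.fderiv_neg ((D.sm_H.br (sm_lin h.sm)).of_le (by simp)) (fun w hw => h.kil w hw.le) hz

theorem Kil.br_psi (h : Kil D ξ) (hz : D.b z.1 ≤ 0) : br D.H (D.psi ξ) z = 0 := by
  rw [KilF_br_psi _ h.sm]
  exact h.kil z hz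

theorem Kil.fderiv_br_psi (h : Kil D ξ) (hz : D.b z.1 ≤ 0) :
    fderiv ℝ (br D.H (D.psi ξ)) z = 0 := by
  rw [KilF_br_psi _ h.sm]
  exact h.fderiv_kil hz

theorem Kil.lin_H (h : Kil D ξ) (hz : D.b z.1 ≤ 0) : br (lin ξ) D.H z = 0 := by
  rw [br_anti, h.kil z hz, neg_zero]

theorem Kil.lin_psi (h : Kil D ξ) (hz : D.b z.1 ≤ 0) : br (lin ξ) (D.psi ξ) z = 0 := by
  have e : D.psi ξ = fun w => lin ξ w - D.H w := rfl
  rw [e, br_sub ((sm_lin h.sm).dAt z) (D.sm_H.dAt z), br_self, h.lin_H hz, sub_zero]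

/-- both sides depend on `x` only; evaluate `Kil.lin_psi` on the graph, `Met.dx_psi_fl`,
`Met.dp_psi` -/
theorem Kil.lin_rho (h : Kil D ξ) (hz : D.b z.1 ≤ 0) :
    br (lin ξ) (fun w => D.rho ξ w.1) z = 0 := by
  have h1 := h.lin_psi (z := (z.1, D.fl ξ z.1)) hz
  rw [br_fst ((D.sm_rho h.sm).dAt _), ← h1]
  unfold br
  refine Finset.sum_congr rfl fun i _ => ?_
  rw [KilF_dp_psi _ h.sm, D.dx_psi_fl h.sm, dp_lin h.sm, dp_lin h.sm, mul_zero, sub_zero]

theorem Kil.lin_sig (h : Kil D ξ) (hz : D.b z.1 ≤ 0) : br (lin ξ) (D.sig ξ) z = 0 := by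
  have e : D.sig ξ = fun w => D.rho ξ w.1 - D.psi ξ w := rfl
  have s : Sm fun w : Z n => D.rho ξ w.1 := (D.sm_rho h.sm).comp contDiff_fst
  rw [e, br_sub (s.dAt z) ((D.sm_psi h.sm).dAt z), h.lin_rho hz, h.lin_psi hz, sub_zero]

/-- the two derivatives commute over `M` (`br_br`, `br_anti`, `br_eq`) -/
theorem Kil.comm (h : Kil D ξ) {F : Z n → ℝ} (hF : Sm F) (hz : D.b z.1 ≤ 0) :
    br D.H (br (lin ξ) F) z = br (lin ξ) (br D.H F) z := by
  have h1 := br_br D.sm_H (sm_lin h.sm) hF z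
  rw [br_anti (br D.H (lin ξ)), br_eq F, h.fderiv_kil hz, zero_apply,
    neg_zero] at h1
  exact sub_eq_zero.1 h1

/-- `br_dp` type formula: `dp_br` for `psi` and `Kil.fderiv_br_psi`; on the graph `dp psi = 0` -/
theorem Kil.br_dp_psi (h : Kil D ξ) {x : V n} (hx : D.b x ≤ 0) (i : Fin n) :
    br D.H (dp i (D.psi ξ)) (x, D.fl ξ x) = -∑ j, D.G x i j * pd j (D.rho ξ) x := by
  have h1 := dp_br D.sm_H (D.sm_psi h.sm) i (x, D.fl ξ x)
  have h2 : dp i (br D.H (D.psi ξ)) (x, D.fl ξ x) = 0 := by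
    unfold dp
    rw [h.fderiv_br_psi (z := (x, D.fl ξ x)) hx, zero_apply]
  have h3 : br (dp i D.H) (D.psi ξ) (x, D.fl ξ x) = ∑ j, D.G x i j * pd j (D.rho ξ) x := by
    unfold br
    refine Finset.sum_congr rfl fun j _ => ?_
    rw [KilF_dp_psi _ h.sm, D.dx_psi_fl h.sm, D.dp_dp_H, mul_zero, sub_zero, D.symG]
  rw [h2, h3] at h1
  linarith

theorem Kil.br_mu (h : Kil D ξ) {x : V n} (hx : D.b x ≤ 0) :
    -br D.H (D.mu ξ) (x, D.fl ξ x) = ∑ i, ∑ j, D.G x i j * pd i (D.rho ξ) x * pd j (D.rho ξ) x := by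
  have e : D.mu ξ = fun w => ∑ i, dx i (D.psi ξ) w * dp i (D.psi ξ) w := rfl
  have s := D.sm_psi h.sm
  rw [e, br_sum fun i _ => Sm.dAt ((s.dx i).mul (s.dp i)) _, ← Finset.sum_neg_distrib]
  refine Finset.sum_congr rfl fun i _ => ?_
  rw [br_mul ((s.dx i).dAt _) ((s.dp i).dAt _), KilF_dp_psi _ h.sm, D.dx_psi_fl h.sm,
    h.br_dp_psi hx, mul_zero, zero_add, mul_neg, neg_neg, Finset.mul_sum]
  exact Finset.sum_congr rfl fun j _ => by ring

/-- Sketch: `br H rho = br H sig` over `M`, hence also after one more `br H` (`Dom.fderiv_neg`).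
`sig = (1 / 2) ∑ g i j * dp i psi * dp j psi` (`Met.dp_psi`, `Met.sig_eq`); apply `br_mul` twice; on the
graph only `∑ g i j * br H (dp i psi) * br H (dp j psi)` survives; `Kil.br_dp_psi`. -/
theorem Kil.br_br_rho (h : Kil D ξ) {x : V n} (hx : D.b x ≤ 0) :
    br D.H (br D.H fun w => D.rho ξ w.1) (x, D.fl ξ x) =
      ∑ i, ∑ j, D.G x i j * pd i (D.rho ξ) x * pd j (D.rho ξ) x := by
  have s := D.sm_psi h.sm
  have s' := D.sm_sig h.sm
  have e0 : (fun w : Z n => D.rho ξ w.1) = fun w => D.sig ξ w + D.psi ξ w :=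
    funext fun w => (sub_add_cancel _ _).symm
  have e1 : (br D.H fun w => D.sig ξ w + D.psi ξ w) =
      fun w => br D.H (D.sig ξ) w + br D.H (D.psi ξ) w :=
    funext fun w => br_add (s'.dAt w) (s.dAt w)
  have su : ∀ p : Fin n × Fin n, Sm fun w : Z n => 1 / 2 * D.g w.1 p.1 p.2 := fun p =>
    contDiff_const.mul ((D.smg p.1 p.2).comp contDiff_fst)
  rw [e0, e1, br_add ((D.sm_H.br s').dAt _) ((D.sm_H.br s).dAt _), br_eq _ (br D.H (D.psi ξ)),
    h.fderiv_br_psi (z := (x, D.fl ξ x)) hx, zero_apply, add_zero,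
    KilF_sig _ h.sm, KilF_sum D.sm_H fun p => ((su p).mul (s.dp p.1)).mul (s.dp p.2),
    ← KilF_quad, Fintype.sum_prod_type]
  refine Finset.sum_congr rfl fun i _ => Finset.sum_congr rfl fun j _ => ?_
  rw [KilF_two D.sm_H (su (i, j)) (s.dp i) (s.dp j) (KilF_dp_psi _ h.sm i x)
    (KilF_dp_psi _ h.sm j x), h.br_dp_psi hx, h.br_dp_psi hx]
  ring

theorem Met.G_pd_pos (A : Met n) {u : V n → ℝ} {x : V n} (h : fderiv ℝ u x ≠ 0) :
    0 < ∑ i, ∑ j, A.G x i j * pd i u x * pd j u x := by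
  refine A.pos x (fun i => pd i u x) fun h0 => h ?_
  ext1 w
  rw [fderiv_eq_sum_pd, zero_apply]
  exact Finset.sum_eq_zero fun i _ => by rw [congrFun h0 i, Pi.zero_apply, mul_zero]

/-- `hv psi` is a Jacobi field along trajectories over `M` (`hv_jac`) -/
theorem Kil.jac_psi (h : Kil D ξ) {c : ℝ → Z n} {t : ℝ} (hc : HasDerivAt c (hv D.H (c t)) t)
    (hb : D.b (c t).1 ≤ 0) : HasDerivAt (fun r => hv (D.psi ξ) (c r))
      (fderiv ℝ (hv D.H) (c t) (hv (D.psi ξ) (c t))) t := by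
  exact hv_jac D.sm_H (D.sm_psi h.sm) hc (h.fderiv_br_psi hb)

/-- Sketch: otherwise `ξ = 0` on an open set `O ⊆ {b < 0}` (`mem_closure_neg`). Join `y ∈ O` to `x₀`
(`D.join`); `hv (lin ξ) ∘ c` solves the linearised equation (`hv_jac`, `Kil.fderiv_kil`) and vanishes
at `0`; `lin_ode_zero` gives `ξ x₀ = 0`. -/
theorem Kil.dense (h : Kil D ξ) {x₀ : V n} (h0 : D.b x₀ ≤ 0) (h1 : ξ x₀ ≠ 0) {x : V n}
    (hx : D.b x ≤ 0) : x ∈ closure {y | D.b y ≤ 0 ∧ ξ y ≠ 0} := by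
  refine mem_closure_iff.2 fun U hU hxU => ?_
  by_contra hne
  have hcl : x ∈ closure {y | D.b y < 0} := by
    rcases hx.lt_or_eq with h2 | h2
    · exact subset_closure h2
    · exact mem_closure_neg h2 (D.regular x h2)
  obtain ⟨y, hyU, hy⟩ := mem_closure_iff.1 hcl U hU hxU
  have hy' : D.b y < 0 := hy
  obtain ⟨c, hc, hb, hc0, hc1⟩ := D.join y x₀ hy'.le h0
  have hO : IsOpen {w : Z n | w.1 ∈ U ∧ D.b w.1 < 0} :=
    (hU.preimage continuous_fst).inter (isOpen_lt D.sm_bz.continuous continuous_const)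
  have e : lin ξ =ᶠ[nhds (c 0)] fun _ => 0 := by
    refine Filter.eventually_of_mem (hO.mem_nhds ⟨hc0 ▸ hyU, hc0 ▸ hy'⟩) fun w hw => ?_
    have h2 : ξ w.1 = 0 := by
      by_contra h2
      exact hne ⟨w.1, hw.1, hw.2.le, h2⟩
    simp [lin, h2]
  have h2 : hv (lin ξ) (c 0) = 0 := by
    rw [hv_congr e]
    unfold hv
    simp only [dp_const, dx_const, neg_zero]
    rfl
  have hcc : ContinuousOn c (Icc 0 1) := fun t ht => (hc t ht).continuousAt.continuousWithinAt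
  have h3 := lin_ode_zero (B := fun t => fderiv ℝ (hv D.H) (c t)) (y := fun t => hv (lin ξ) (c t))
    ((FlowD_smd D.sm_H.hv).continuous.comp_continuousOn hcc)
    (fun t ht => hv_jac D.sm_H (sm_lin h.sm) (hc t ht) (h.fderiv_kil (hb t ht)))
    ⟨le_rfl, zero_le_one⟩ h2 1 ⟨zero_le_one, le_rfl⟩
  refine h1 (funext fun i => ?_)
  have h4 : dp i (lin ξ) (c 1) = 0 := congrFun (congrArg Prod.fst h3) i
  rw [dp_lin h.sm, hc1] at h4
  exact h4

theorem KC.hcs {κ : ℝ → ℝ} {h₀ h₁ : ℝ} {v f : Z n → ℝ} (h : KC D d κ h₀ h₁ v f) :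
    HasCompactSupport v := by
  exact HasCompactSupport.intro (D.isCompact_sh h₀ h₁) h.supp

/-- Sketch: `sh` is closed, so `v = 0` near every point of its complement; `Kil.comm`, `br_mul`,
`br_comp`, `Kil.lin_H`; `κ * br L v = br L (κ * v)` and `Orth.br_lin`; `FP.br_lin`. -/
theorem KC.step {κ : ℝ → ℝ} {h₀ h₁ : ℝ} {v f : Z n → ℝ} (h : KC D d κ h₀ h₁ v f) (hK : Kil D ξ)
    (hκ : Sm κ) : KC D d κ h₀ h₁ (br (lin ξ) v)
      (br (lin ξ) f) := by
  have sL := sm_lin hK.sm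
  have sκ : Sm fun w => κ (D.H w) := hκ.comp D.sm_H
  have hO : IsOpen {w : Z n | 0 < D.b w.1} := isOpen_lt continuous_const D.sm_bz.continuous
  have h1 : ∀ z, z ∉ D.sh h₀ h₁ → br (lin ξ) v z = 0 := fun z hz =>
    KilF_zero (D.isCompact_sh h₀ h₁).isClosed.isOpen_compl h.supp hz
  have h2 : ∀ z : Z n, 0 < D.b z.1 → br (lin ξ) f z = 0 := fun z hz => KilF_zero hO h.suppf hz
  have h3 : ∀ z : Z n, D.b z.1 ≤ 0 → br (lin ξ) (fun w => κ (D.H w)) z = 0 := fun z hz => by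
    rw [br_comp (hκ.dAt _) (D.sm_H.dAt z), hK.lin_H hz, mul_zero]
  have h4 : ∀ z : Z n, 0 < D.b z.1 → z ∉ D.sh h₀ h₁ := fun z hz hs => hz.not_ge hs.1
  refine ⟨sL.br h.smv, sL.br h.smf, h.fp.br_lin hK.sm (FlowD_diff h.smf), h1, h2, fun z => ?_, ?_⟩
  · rcases le_or_gt (D.b z.1) 0 with hz | hz
    · have e : br D.H v = fun w => κ (D.H w) * f w := funext h.eq
      rw [hK.comm h.smv hz, e, br_mul (sκ.dAt z) (h.smf.dAt z), h3 z hz, zero_mul, zero_add]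
    · rw [h2 z hz, mul_zero]
      exact KilF_zero hO (fun w hw => h1 w (h4 w hw)) hz
  · have e : (fun z => κ (D.H z) * br (lin ξ) v z) = br (lin ξ) fun z => κ (D.H z) * v z := by
      funext z
      rw [br_mul (sκ.dAt z) (h.smv.dAt z)]
      rcases le_or_gt (D.b z.1) 0 with hz | hz
      · rw [h3 z hz, zero_mul, zero_add]
      · rw [h.supp z (h4 z hz), mul_zero, zero_add]
    rw [e]
    exact h.orth.br_lin (sκ.mul h.smv) (LB.of_compact h.hcs).mul_left hK.sm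

end Pool.Agent.Lib.MP_45f3cb_gt
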