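import Pool.Agent.Lib.MP_45f3cb_gt.ProjB
import Pool.Agent.Lib.MP_45f3cb_gt.KilF

/-!
A priori estimate, part A: the source term.
-/

open Set MeasureTheory

namespace Pool.Agent.Lib.MP_45f3cb_gt

variable {n d : ℕ} {κ : ℝ → ℝ} {h₀ h₁ : ℝ}

theorem aprA_hcs (A : Met n) {K : Set (V n)} (hK : IsCompact K) {F : Z n → ℝ} (s : ℝ)
    (h1 : ∀ z, s < A.H z → F z = 0) (h2 : ∀ z : Z n, z.1 ∉ K → F z = 0) :
    HasCompactSupport F := by
  refine HasCompactSupport.intro (A.isCompact_le hK s) fun z hz => ?_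
  by_cases h : z.1 ∈ K
  · exact h1 z (not_le.1 fun h' => hz ⟨h, h'⟩)
  · exact h2 z h

theorem aprA_deriv {φ : ℝ → ℝ} (h : Sm φ) : Sm (deriv φ) := by
  have := h.iterate_deriv 1
  simpa using this

theorem aprA_hi (hκ : Cut κ h₀ h₁) {s : ℝ} (h : h₁ < s) : κ s = 0 :=
  hκ.supp s fun h' => absurd h'.2 (not_le.2 h)

/-- Sketch: `k s = κ s ^ 2 / s` is smooth (it vanishes for `s < h₀`), `g = k(H) f²` is smooth with
compact support, and `∑ i, dp i (p i * g) = (n + 2 d) k(H) f² + 4 κ κ' f²` (`Met.euler_H`,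
`FP.euler`); `int_dp`; `k s ≥ κ s ^ 2 / h₁`. -/
theorem apr_euler (A : Met n) (hκ : Cut κ h₀ h₁) (hn : 0 < n) {K : Set (V n)} (hK : IsCompact K)
    {f : Z n → ℝ} (hf : Sm f) (hp : FP (d + 1) f) (hs : ∀ z : Z n, z.1 ∉ K → f z = 0) :
    ∫ z, κ (A.H z) ^ 2 * f z ^ 2 ≤ -(4 * h₁) * ∫ z, κ (A.H z) * deriv κ (A.H z) * f z ^ 2 := by
  obtain ⟨ι, hι, hι1⟩ := exists_smooth_inv hκ.pos
  have hk : Sm fun s => κ s ^ 2 * ι s := (hκ.sm.pow 2).mul hι
  have hks : ∀ s, κ s ^ 2 * ι s * s = κ s ^ 2 := by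
    intro s
    by_cases h : s ∈ Icc h₀ h₁
    · rw [mul_assoc, hι1 s (h.1.trans (le_abs_self s)), mul_one]
    · simp [hκ.supp s h]
  have hkle : ∀ s, κ s ^ 2 ≤ h₁ * (((n : ℝ) + 2 * d) * (κ s ^ 2 * ι s)) := by
    intro s
    by_cases h : s ∈ Icc h₀ h₁
    · have h1 := hι1 s (h.1.trans (le_abs_self s))
      have hs0 : 0 < s := hκ.pos.trans_le h.1
      have hι0 : 0 < ι s := by
        by_contra hh
        have := mul_nonpos_of_nonpos_of_nonneg (not_lt.1 hh) hs0.le
        linarith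
      have hk0 : 0 ≤ κ s ^ 2 * ι s := mul_nonneg (sq_nonneg _) hι0.le
      have hn1 : (1 : ℝ) ≤ (n : ℝ) + 2 * d := by
        have h2 : (1 : ℝ) ≤ n := by exact_mod_cast hn
        have h3 : (0 : ℝ) ≤ d := Nat.cast_nonneg d
        linarith
      calc κ s ^ 2 = s * (1 * (κ s ^ 2 * ι s)) := by rw [one_mul, mul_comm, hks]
        _ ≤ _ := mul_le_mul h.2 (mul_le_mul_of_nonneg_right hn1 hk0) (by rwa [one_mul])
          (hs0.le.trans h.2)
    · simp [hκ.supp s h]
  obtain ⟨k, hkdef⟩ : ∃ k : ℝ → ℝ, k = fun s => κ s ^ 2 * ι s := ⟨_, rfl⟩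
  rw [← hkdef] at hk
  have hks' : ∀ s, k s * s = κ s ^ 2 := fun s => by rw [hkdef]; exact hks s
  have hkle' : ∀ s, κ s ^ 2 ≤ h₁ * (((n : ℝ) + 2 * d) * k s) := fun s => by
    rw [hkdef]; exact hkle s
  have hkhi : ∀ s, h₁ < s → k s = 0 := fun s h => by rw [hkdef]; simp [aprA_hi hκ h]
  have hder : ∀ s, deriv k s * s + k s = 2 * κ s * deriv κ s := by
    intro s
    have e1 : HasDerivAt (fun s => k s * s) (deriv k s * s + k s * 1) s :=
      (hk.dAt s).hasDerivAt.mul (hasDerivAt_id s)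
    have e2 : HasDerivAt (fun s => κ s * κ s) (deriv κ s * κ s + κ s * deriv κ s) s :=
      (hκ.sm.dAt s).hasDerivAt.mul (hκ.sm.dAt s).hasDerivAt
    have e3 : (fun s => k s * s) = fun s => κ s * κ s := funext fun s => by rw [hks', sq]
    rw [e3] at e1
    have := e1.unique e2
    linarith
  have hkH : Sm fun z => k (A.H z) := hk.comp A.sm_H
  have hff : Sm fun z => f z * f z := hf.mul hf
  have hg : Sm fun z => k (A.H z) * (f z * f z) := hkH.mul hff
  have hgc : HasCompactSupport fun z => k (A.H z) * (f z * f z) :=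
    aprA_hcs A hK h₁ (fun z h => by simp [hkhi _ h]) fun z h => by simp [hs z h]
  have hpg : ∀ i, Sm fun z : Z n => z.2 i * (k (A.H z) * (f z * f z)) := fun i =>
    (MetF_coord i).mul hg
  have hpgc : ∀ i, HasCompactSupport fun z : Z n => z.2 i * (k (A.H z) * (f z * f z)) := fun i =>
    hgc.mul_left
  have hid : ∀ z, ∑ i, dp i (fun z : Z n => z.2 i * (k (A.H z) * (f z * f z))) z =
      ((n : ℝ) + 2 * d) * (k (A.H z) * (f z * f z)) +
        4 * (κ (A.H z) * deriv κ (A.H z) * f z ^ 2) := by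
    intro z
    have e1 : ∀ i, dp i (fun z : Z n => z.2 i * (k (A.H z) * (f z * f z))) z =
        k (A.H z) * (f z * f z) + deriv k (A.H z) * (f z * f z) * (z.2 i * dp i A.H z) +
          2 * k (A.H z) * f z * (z.2 i * dp i f z) := by
      intro i
      rw [dp_mul ((MetF_coord i).dAt z) (hg.dAt z), dp_mul (hkH.dAt z) (hff.dAt z),
        dp_mul (hf.dAt z) (hf.dAt z), dp_comp (hk.dAt _) (A.sm_H.dAt z), dp_coord, if_pos rfl]
      ring
    simp only [e1, Finset.sum_add_distrib, ← Finset.mul_sum]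
    rw [A.euler_H, hp.euler (fun z => hf.dAt z), Finset.sum_const, Finset.card_univ,
      Fintype.card_fin, nsmul_eq_mul]
    push_cast
    linear_combination (2 * f z ^ 2) * hder (A.H z)
  have hκH : Sm fun z => κ (A.H z) := hκ.sm.comp A.sm_H
  have hκH' : Sm fun z => deriv κ (A.H z) := (aprA_deriv hκ.sm).comp A.sm_H
  have hi1 : Integrable fun z => k (A.H z) * (f z * f z) := intg hg.continuous hgc
  have hi2 : Integrable fun z => κ (A.H z) * deriv κ (A.H z) * f z ^ 2 :=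
    intg ((hκH.mul hκH').mul (hf.pow 2)).continuous
      (aprA_hcs A hK h₁ (fun z h => by simp [aprA_hi hκ h]) fun z h => by simp [hs z h])
  have hi3 : Integrable fun z => κ (A.H z) ^ 2 * f z ^ 2 :=
    intg ((hκH.pow 2).mul (hf.pow 2)).continuous
      (aprA_hcs A hK h₁ (fun z h => by simp [aprA_hi hκ h]) fun z h => by simp [hs z h])
  have h0 : ∫ z, ∑ i, dp i (fun z : Z n => z.2 i * (k (A.H z) * (f z * f z))) z = 0 := by
    rw [integral_finsetSum _ fun i _ => intg ((hpg i).dp i).continuous (hcs_dp (hpgc i) i)]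
    exact Finset.sum_eq_zero fun i _ => int_dp (hpg i) (hpgc i) i
  simp only [hid] at h0
  rw [integral_add (hi1.const_mul _) (hi2.const_mul _), integral_const_mul,
    integral_const_mul] at h0
  have h1 : ∫ z, κ (A.H z) ^ 2 * f z ^ 2 ≤
      ∫ z, h₁ * (((n : ℝ) + 2 * d) * (k (A.H z) * (f z * f z))) := by
    refine integral_mono hi3 ((hi1.const_mul _).const_mul _) fun z => ?_
    have := mul_le_mul_of_nonneg_right (hkle' (A.H z)) (sq_nonneg (f z))
    simp only []
    nlinarith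
  rw [integral_const_mul, integral_const_mul] at h1
  calc _ ≤ _ := h1
    _ = _ := by linear_combination h₁ * h0

/-- `fp_weight`, `setInt_le_fib` -/
theorem apr_f (A : Met n) (hκ : Cut κ h₀ h₁) (hn : 0 < n) {K : Set (V n)} (hK : IsCompact K)
    {S : Set (Z n)} (hS : IsCompact S) : ∃ C : ℝ, 0 ≤ C ∧ ∀ f : Z n → ℝ, Sm f → FP d f →
      (∀ z : Z n, z.1 ∉ K → f z = 0) → ∫ z in S, n2 f z ≤ C * ∫ z, κ (A.H z) ^ 2 * f z ^ 2 := by
  have hκH : Sm fun z => κ (A.H z) ^ 2 := (hκ.sm.comp A.sm_H).pow 2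
  have hK' : IsCompact (Prod.fst '' S) := hS.image continuous_fst
  obtain ⟨R, hR⟩ := (hS.image continuous_snd).isBounded.subset_closedBall (0 : V n)
  obtain ⟨C, hC, hb⟩ := fp_weight (d := d) (ω := fun z => κ (A.H z) ^ 2) hK' hκH.continuous
    (A.lb_H (s := h₁) fun z h => by simp [aprA_hi hκ h]) (fun z => sq_nonneg _)
    (fun x _ => by
      obtain ⟨p, hp⟩ := hκ.fib A hn x
      exact ⟨p, by positivity⟩) R
  refine ⟨C * (volume (Metric.closedBall (0 : V n) R)).toReal,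
    mul_nonneg hC ENNReal.toReal_nonneg, fun f hf hp hs => ?_⟩
  have hc : HasCompactSupport fun z => κ (A.H z) ^ 2 * f z ^ 2 :=
    aprA_hcs A hK h₁ (fun z h => by simp [aprA_hi hκ h]) fun z h => by simp [hs z h]
  refine le_trans ?_ (setInt_le_fib hK' hC hf.n2.continuous (hκH.mul (hf.pow 2)).continuous hc
    (fun z => by positivity) (hb f hf hp))
  refine setIntegral_mono_set
    (hf.n2.continuous.continuousOn.integrableOn_compact (hK'.prod (isCompact_closedBall _ _)))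
    (Filter.Eventually.of_forall fun z => (n1_nonneg f z).trans (n1_le_n2 f z))
    (LE.le.eventuallyLE fun z hz => ⟨⟨z, hz, rfl⟩, hR ⟨z, hz, rfl⟩⟩)

/-- `T` is bounded on `S` by the second order fibre jet -/
def AprAB (S : Set (Z n)) (T : (Z n → ℝ) → Z n → ℝ) : Prop :=
  ∃ C : ℝ, 0 ≤ C ∧ ∀ f, Sm f → ∀ z ∈ S, |T f z| ≤ C * √(n2 f z)

theorem AprAB.congr {S : Set (Z n)} {T T' : (Z n → ℝ) → Z n → ℝ} (h : AprAB S T)
    (e : ∀ f, Sm f → ∀ z, T' f z = T f z) : AprAB S T' := by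
  obtain ⟨C, hC, h⟩ := h
  exact ⟨C, hC, fun f hf z hz => by rw [e f hf z]; exact h f hf z hz⟩

theorem AprAB.add {S : Set (Z n)} {T T' : (Z n → ℝ) → Z n → ℝ} (h : AprAB S T)
    (h' : AprAB S T') : AprAB S fun f z => T f z + T' f z := by
  obtain ⟨C, hC, h⟩ := h
  obtain ⟨C', hC', h'⟩ := h'
  refine ⟨C + C', add_nonneg hC hC', fun f hf z hz => ?_⟩
  rw [add_mul]
  exact (abs_add_le _ _).trans (add_le_add (h f hf z hz) (h' f hf z hz))

theorem AprAB.neg {S : Set (Z n)} {T : (Z n → ℝ) → Z n → ℝ} (h : AprAB S T) :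
    AprAB S fun f z => -T f z := by
  obtain ⟨C, hC, h⟩ := h
  exact ⟨C, hC, fun f hf z hz => by rw [abs_neg]; exact h f hf z hz⟩

theorem AprAB.sum {S : Set (Z n)} {ι : Type} (s : Finset ι) {T : ι → (Z n → ℝ) → Z n → ℝ}
    (h : ∀ i, AprAB S (T i)) : AprAB S fun f z => ∑ i ∈ s, T i f z := by
  classical
  induction s using Finset.induction_on with
  | empty => exact ⟨0, le_rfl, fun f _ z _ => by simp⟩
  | insert i s hi ih => exact ((h i).add ih).congr fun f _ z => Finset.sum_insert hi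

theorem AprAB.mul {S : Set (Z n)} (hS : IsCompact S) {T : (Z n → ℝ) → Z n → ℝ} (h : AprAB S T)
    {c : Z n → ℝ} (hc : Sm c) : AprAB S fun f z => c z * T f z := by
  obtain ⟨C, hC, h⟩ := h
  obtain ⟨M, hM⟩ := hS.exists_bound_of_continuousOn hc.continuous.continuousOn
  refine ⟨|M| * C, mul_nonneg (abs_nonneg _) hC, fun f hf z hz => ?_⟩
  rw [abs_mul, mul_assoc]
  exact mul_le_mul ((hM z hz).trans (le_abs_self M)) (h f hf z hz) (abs_nonneg _) (abs_nonneg _)

theorem aprAB_0 (S : Set (Z n)) : AprAB S fun f z => f z := by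
  refine ⟨1, zero_le_one, fun f _ z _ => ?_⟩
  rw [one_mul]
  refine Real.abs_le_sqrt ?_
  have h1 : 0 ≤ ∑ i, dp i f z ^ 2 := by positivity
  have h2 : 0 ≤ ∑ i, ∑ j, dp i (dp j f) z ^ 2 := by positivity
  unfold n2
  linarith

theorem aprAB_1 (S : Set (Z n)) (i : Fin n) : AprAB S fun f z => dp i f z := by
  refine ⟨1, zero_le_one, fun f _ z _ => ?_⟩
  rw [one_mul]
  refine Real.abs_le_sqrt ?_
  have h1 : dp i f z ^ 2 ≤ ∑ i, dp i f z ^ 2 :=
    Finset.single_le_sum (f := fun i => dp i f z ^ 2) (fun _ _ => sq_nonneg _) (Finset.mem_univ i)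
  have h2 : 0 ≤ ∑ i, ∑ j, dp i (dp j f) z ^ 2 := by positivity
  have h3 := sq_nonneg (f z)
  unfold n2
  linarith

theorem aprAB_2 (S : Set (Z n)) (i j : Fin n) : AprAB S fun f z => dp i (dp j f) z := by
  refine ⟨1, zero_le_one, fun f _ z _ => ?_⟩
  rw [one_mul]
  refine Real.abs_le_sqrt ?_
  have h1 : dp i (dp j f) z ^ 2 ≤ ∑ j, dp i (dp j f) z ^ 2 :=
    Finset.single_le_sum (f := fun j => dp i (dp j f) z ^ 2) (fun _ _ => sq_nonneg _)
      (Finset.mem_univ j)
  have h1' : ∑ j, dp i (dp j f) z ^ 2 ≤ ∑ i, ∑ j, dp i (dp j f) z ^ 2 :=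
    Finset.single_le_sum (f := fun i => ∑ j, dp i (dp j f) z ^ 2) (fun _ _ => by positivity)
      (Finset.mem_univ i)
  have h2 : 0 ≤ ∑ i, dp i f z ^ 2 := by positivity
  have h3 := sq_nonneg (f z)
  unfold n2
  linarith

theorem aprAB_dp {S : Set (Z n)} (hS : IsCompact S) {c : Z n → ℝ} (hc : Sm c) (i : Fin n) :
    AprAB S fun f z => dp i (fun w => c w * f w) z :=
  (((aprAB_0 S).mul hS (hc.dp i)).add ((aprAB_1 S i).mul hS hc)).congr fun _ hf z =>
    dp_mul (hc.dAt z) (hf.dAt z)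

theorem aprAB_dp2 {S : Set (Z n)} (hS : IsCompact S) {c : Z n → ℝ} (hc : Sm c) (i k : Fin n) :
    AprAB S fun f z => dp k (dp i fun w => c w * f w) z := by
  refine ((aprAB_dp hS (hc.dp i) k).add (((aprAB_1 S i).mul hS (hc.dp k)).add
    ((aprAB_2 S k i).mul hS hc))).congr fun f hf z => ?_
  have e : (dp i fun w => c w * f w) = fun w => dp i c w * f w + c w * dp i f w :=
    funext fun w => dp_mul (hc.dAt w) (hf.dAt w)
  have h1 : Sm fun w => dp i c w * f w := (hc.dp i).mul hf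
  have h2 : Sm fun w => c w * dp i f w := hc.mul (hf.dp i)
  rw [e, dp_add (h1.dAt z) (h2.dAt z), dp_mul (hc.dAt z) ((hf.dp i).dAt z)]

theorem aprAB_dp3 {S : Set (Z n)} (hS : IsCompact S) {c s : Z n → ℝ} (hc : Sm c) (hs : Sm s)
    (i k : Fin n) : AprAB S fun f z => dp k (fun y => s y * dp i (fun w => c w * f w) y) z := by
  refine (((aprAB_dp hS hc i).mul hS (hs.dp k)).add ((aprAB_dp2 hS hc i k).mul hS hs)).congr
    fun f hf z => ?_
  have h1 : Sm fun w => c w * f w := hc.mul hf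
  exact dp_mul (hs.dAt z) ((h1.dp i).dAt z)

theorem aprA_int {F G : Z n → ℝ} (hF : Sm F) (hG : Sm G) (hc : HasCompactSupport G) :
    Integrable fun z => F z * G z :=
  intg (hF.mul hG).continuous hc.mul_left

/-- the integrations by parts -/
theorem aprA_parts {b u e v f : Z n → ℝ} {T : Fin n → Z n → ℝ} (i : Fin n) (hb : Sm b) (hu : Sm u)
    (he : Sm e) (hv : Sm v) (hf : Sm f) (hT : ∀ k, Sm (T k)) (hc : HasCompactSupport v)
    (hec : HasCompactSupport e) (h0 : ∫ z, e z * f z = 0) :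
    ∫ z, (b z * dp i v z + f z * e z - u z * v z + ∑ k, T k z * dp k v z) =
      ∫ z, (-dp i b z + -u z + -∑ k, dp k (T k) z) * v z := by
  have i1 := aprA_int hb (hv.dp i) (hcs_dp hc i)
  have i2 := aprA_int hf he hec
  have i3 := aprA_int hu hv hc
  have i4 := fun k => aprA_int (hT k) (hv.dp k) (hcs_dp hc k)
  have i5 := aprA_int (hb.dp i) hv hc
  have i6 := fun k => aprA_int ((hT k).dp k) hv hc
  have e1 : ∀ z, (-dp i b z + -u z + -∑ k, dp k (T k) z) * v z =
      -(dp i b z * v z + u z * v z + ∑ k, dp k (T k) z * v z) := by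
    intro z
    rw [← Finset.sum_mul]
    ring
  have h0' : ∫ z, f z * e z = 0 := by simpa only [mul_comm] using h0
  have i12 : Integrable fun z => b z * dp i v z + f z * e z := i1.add i2
  have i123 : Integrable fun z => b z * dp i v z + f z * e z - u z * v z := i12.sub i3
  have i53 : Integrable fun z => dp i b z * v z + u z * v z := i5.add i3
  simp only [e1]
  rw [integral_add i123 (integrable_finsetSum _ fun k _ => i4 k), integral_sub i12 i3,
    integral_add i1 i2, integral_finsetSum _ fun k _ => i4 k, integral_neg,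
    integral_add i53 (integrable_finsetSum _ fun k _ => i6 k), integral_add i5 i3,
    integral_finsetSum _ fun k _ => i6 k, h0', int_mul_dp hb hv hc,
    Finset.sum_congr rfl fun k _ => int_mul_dp (hT k) hv hc k, Finset.sum_neg_distrib]
  ring

/-- Sketch: `dp i (κ f) = κ' dp i H f + κ dp i f`. (1) `∑ dp i H * dx i v = κ f + ∑ dx i H * dp i v`
(definition of `br`), and `int_mul_dp` moves `dp i` away from `v`. (2)
`κ dx i v = dx i (κ v) - κ' dx i H v` and `∫ dx i (κ v) * dp i f = 0` (`Orth.dx`, `Orth.int_mul`,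
`FP.dp`). (3) `int_mul_dp` for the terms with `S`. So
`g = -∑ dp i (κ' f dx i H) - ∑ κ' dx i H dp i f - ∑ dp k (dp i (κ f) S i k)`; expand and use
`coef_bound`. -/
theorem apr_id (D : Dom n) (hκ : Cut κ h₀ h₁) {S : Z n → Fin n → Fin n → ℝ}
    (hS : ∀ i j, Sm fun z => S z i j) : ∃ C : ℝ, 0 ≤ C ∧ ∀ v f, KC D d κ h₀ h₁ v f →
      ∃ g : Z n → ℝ, Continuous g ∧ (∀ z ∈ D.sh h₀ h₁, g z ^ 2 ≤ C * n2 f z) ∧
        ∫ z, ∑ i, dp i (br D.H v) z * (dx i v z + ∑ k, S z i k * dp k v z) =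
          (∫ z, κ (D.H z) * deriv κ (D.H z) * f z ^ 2) + ∫ z, g z * v z := by
  have hH : Sm D.H := D.sm_H
  have ha : Sm fun z => κ (D.H z) := hκ.sm.comp hH
  have ha' : Sm fun z => deriv κ (D.H z) := (aprA_deriv hκ.sm).comp hH
  have hb : ∀ i, Sm fun z => deriv κ (D.H z) * dx i D.H z := fun i => ha'.mul (hH.dx i)
  have hc := D.isCompact_sh h₀ h₁
  obtain ⟨C, hC, hB⟩ := AprAB.sum (S := D.sh h₀ h₁) Finset.univ fun i =>
    ((aprAB_dp hc (hb i) i).neg.add ((aprAB_1 _ i).mul hc (hb i)).neg).add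
      (AprAB.sum Finset.univ fun k => aprAB_dp3 hc ha (hS i k) i k).neg
  refine ⟨C ^ 2, sq_nonneg C, fun v f h => ?_⟩
  have hv := h.smv
  have hf := h.smf
  have hvc := h.hcs
  have haf : Sm fun w => κ (D.H w) * f w := ha.mul hf
  have hav : Sm fun w => κ (D.H w) * v w := ha.mul hv
  have havc : HasCompactSupport fun w => κ (D.H w) * v w := hvc.mul_left
  have hbf : ∀ i, Sm fun w => deriv κ (D.H w) * dx i D.H w * f w := fun i => (hb i).mul hf
  have hu : ∀ i, Sm fun w => deriv κ (D.H w) * dx i D.H w * dp i f w := fun i =>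
    (hb i).mul (hf.dp i)
  have hT : ∀ i k, Sm fun y => S y i k * dp i (fun w => κ (D.H w) * f w) y := fun i k =>
    (hS i k).mul (haf.dp i)
  have hg : ∀ i, Sm fun z => -dp i (fun w => deriv κ (D.H w) * dx i D.H w * f w) z +
      -(deriv κ (D.H z) * dx i D.H z * dp i f z) +
      -∑ k, dp k (fun y => S y i k * dp i (fun w => κ (D.H w) * f w) y) z := fun i =>
    (((hbf i).dp i).neg.add (hu i).neg).add (ContDiff.sum fun k _ => (hT i k).dp k).neg
  refine ⟨_, (ContDiff.sum (s := Finset.univ) fun i _ => hg i).continuous, fun z hz => ?_, ?_⟩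
  · have h1 := hB f hf z hz
    have h2 : 0 ≤ n2 f z := (n1_nonneg f z).trans (n1_le_n2 f z)
    have h3 := pow_le_pow_left₀ (abs_nonneg _) h1 2
    rwa [sq_abs, mul_pow, Real.sq_sqrt h2] at h3
  · have ebr : br D.H v = fun w => κ (D.H w) * f w := funext h.eq
    have hpar := fun i => aprA_parts i (hbf i) (hu i) (hav.dx i) hv (hf.dp i) (hT i) hvc
      (hcs_dx havc i) ((h.orth.dx hav (LB.of_compact havc) i).int_mul (hav.dx i).continuous
        (hcs_dx havc i) (hf.dp i).continuous (h.fp.dp (fun z => hf.dAt z) i))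
    have hpt : ∀ z, ∑ i, dp i (br D.H v) z * (dx i v z + ∑ k, S z i k * dp k v z) =
        (deriv κ (D.H z) * f z) * br D.H v z + ∑ i, (deriv κ (D.H z) * dx i D.H z * f z * dp i v z +
          dp i f z * dx i (fun w => κ (D.H w) * v w) z -
          deriv κ (D.H z) * dx i D.H z * dp i f z * v z +
          ∑ k, S z i k * dp i (fun w => κ (D.H w) * f w) z * dp k v z) := by
      intro z
      conv_rhs => rw [br, Finset.mul_sum, ← Finset.sum_add_distrib]
      refine Finset.sum_congr rfl fun i _ => ?_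
      rw [ebr, mul_add, Finset.mul_sum]
      have e1 : ∀ k, dp i (fun w => κ (D.H w) * f w) z * (S z i k * dp k v z) =
          S z i k * dp i (fun w => κ (D.H w) * f w) z * dp k v z := fun k => by ring
      simp only [e1]
      rw [← add_assoc, add_left_inj, dp_mul (ha.dAt z) (hf.dAt z), dx_mul (ha.dAt z) (hv.dAt z),
        dp_comp (hκ.sm.dAt _) (hH.dAt z), dx_comp (hκ.sm.dAt _) (hH.dAt z)]
      ring
    have hq : ∀ i, Integrable fun z => deriv κ (D.H z) * dx i D.H z * f z * dp i v z +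
          dp i f z * dx i (fun w => κ (D.H w) * v w) z -
          deriv κ (D.H z) * dx i D.H z * dp i f z * v z +
          ∑ k, S z i k * dp i (fun w => κ (D.H w) * f w) z * dp k v z := fun i =>
      (((aprA_int (hbf i) (hv.dp i) (hcs_dp hvc i)).add
        (aprA_int (hf.dp i) (hav.dx i) (hcs_dx havc i))).sub (aprA_int (hu i) hv hvc)).add
        (integrable_finsetSum _ fun k _ => aprA_int (hT i k) (hv.dp k) (hcs_dp hvc k))
    have hq0 : Integrable fun z => (deriv κ (D.H z) * f z) * br D.H v z :=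
      aprA_int (ha'.mul hf) (hH.br hv) (hcs_br hvc _)
    simp only [hpt]
    rw [integral_add hq0 (integrable_finsetSum _ fun i _ => hq i),
      integral_finsetSum _ fun i _ => hq i, Finset.sum_congr rfl fun i _ => hpar i,
      ← integral_finsetSum _ fun i _ => aprA_int (hg i) hv hvc]
    simp only [Finset.sum_mul]
    congr 1
    refine integral_congr_ae (Filter.Eventually.of_forall fun z => ?_)
    simp only [h.eq]
    ring

end Pool.Agent.Lib.MP_45f3cb_gt
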