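import Pool.Agent.Lib.MP_45f3cb_gt.Int

/-!
The Pestov identity in canonical coordinates, completion of the square by a Riccati field, and two
multiplier estimates. `H` is an arbitrary smooth function.
-/

open Set MeasureTheory

namespace Pool.Agent.Lib.MP_45f3cb_gt

variable {n : ℕ} {H u : Z n → ℝ}

/-- `dp_br` unfolded -/
theorem br_dp (hH : Sm H) (hu : Sm u) (i : Fin n) (z : Z n) :
    br H (dp i u) z = dp i (br H u) z - ∑ j, dp i (dp j H) z * dx j u z +
      ∑ j, dx j (dp i H) z * dp j u z := by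
  have h : br (dp i H) u z =
      ∑ j, dp i (dp j H) z * dx j u z - ∑ j, dx j (dp i H) z * dp j u z := by
    rw [br, Finset.sum_sub_distrib]
    congr 1
    exact Finset.sum_congr rfl fun j _ => by rw [dp_dp hH]
  rw [dp_br hH hu, h]
  ring

theorem pest_br_dx (hH : Sm H) (hu : Sm u) (i : Fin n) (z : Z n) :
    br H (dx i u) z = dx i (br H u) z - ∑ j, dx i (dp j H) z * dx j u z +
      ∑ j, dx i (dx j H) z * dp j u z := by
  have h : br (dx i H) u z =
      ∑ j, dx i (dp j H) z * dx j u z - ∑ j, dx i (dx j H) z * dp j u z := by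
    rw [br, Finset.sum_sub_distrib]
    congr 1
    · exact Finset.sum_congr rfl fun j _ => by rw [dx_dp hH]
    · exact Finset.sum_congr rfl fun j _ => by rw [dx_dx hH]
  rw [dx_br hH hu, h]
  ring

theorem pest_off {z : Z n} (hz : z ∉ tsupport u) (i : Fin n) : dx i u z = 0 ∧ dp i u z = 0 := by
  have h : u =ᶠ[nhds z] fun _ => 0 := notMem_tsupport_iff_eventuallyEq.1 hz
  exact ⟨(dx_congr h).trans (dx_const 0), (dp_congr h).trans (dp_const 0)⟩

theorem pest_intg {K : Set (Z n)} (hK : IsCompact K) {F : Z n → ℝ} (hF : Continuous F)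
    (h : ∀ z, z ∉ K → F z = 0) : Integrable F :=
  intg hF (HasCompactSupport.intro hK h)

/-- Sketch: `∫ dp i a * dx i u = ∫ dx i a * dp i u` (two integrations by parts, `a = br H u`);
expand `dp i a` and `dx i a` by `dp_br`, `dx_br`, add the two forms, use
`∫ br H (dp i u * dx i u) = 0`; the mixed terms cancel after exchanging the indices. -/
theorem pestov (hH : Sm H) (hu : Sm u) (hc : HasCompactSupport u) :
    2 * ∫ z, ∑ i, dp i (br H u) z * dx i u z =
      ∫ z, ∑ i, ∑ j, (dp i (dp j H) z * dx i u z * dx j u z -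
        dx i (dx j H) z * dp i u z * dp j u z) := by
  have ha : Sm (br H u) := hH.br hu
  have i1 : ∀ i, Integrable fun z => dp i (br H u) z * dx i u z := fun i =>
    pest_intg hc ((ha.dp i).continuous.mul (hu.dx i).continuous) fun z hz => by
      rw [(pest_off hz i).1, mul_zero]
  have i2 : ∀ i, Integrable fun z => dx i (br H u) z * dp i u z := fun i =>
    pest_intg hc ((ha.dx i).continuous.mul (hu.dp i).continuous) fun z hz => by
      rw [(pest_off hz i).2, mul_zero]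
  have e1 : ∫ z, ∑ i, dp i (br H u) z * dx i u z = ∫ z, ∑ i, dx i (br H u) z * dp i u z := by
    rw [integral_finsetSum _ fun i _ => i1 i, integral_finsetSum _ fun i _ => i2 i]
    refine Finset.sum_congr rfl fun i _ => ?_
    have a1 := int_mul_dp ha (hu.dx i) (hcs_dx hc i) i
    have a2 := int_mul_dx ha (hu.dp i) (hcs_dp hc i) i
    simp only [dx_dp hu] at a2
    linarith
  have sΦ : Sm fun w => ∑ i, dp i u w * dx i u w :=
    ContDiff.sum fun i _ => (hu.dp i).mul (hu.dx i)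
  have cΦ : HasCompactSupport fun w => ∑ i, dp i u w * dx i u w :=
    HasCompactSupport.intro hc fun z hz => Finset.sum_eq_zero fun i _ => by
      rw [(pest_off hz i).1, mul_zero]
  have e2 := int_br hH sΦ cΦ
  have i3 := intg (hH.br sΦ).continuous (hcs_br cΦ H)
  have j1 := integrable_finsetSum Finset.univ fun i _ => i1 i
  have j2 := integrable_finsetSum Finset.univ fun i _ => i2 i
  have j3 : Integrable fun z => ∑ i, dp i (br H u) z * dx i u z +
      ∑ i, dx i (br H u) z * dp i u z := j1.add j2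
  rw [two_mul]
  nth_rewrite 2 [e1]
  rw [← sub_zero (_ + _), ← e2, ← integral_add j1 j2, ← integral_sub j3 i3]
  refine integral_congr_ae (Filter.Eventually.of_forall fun z => ?_)
  have e3 : br H (fun w => ∑ i, dp i u w * dx i u w) z =
      ∑ i, (br H (dp i u) z * dx i u z + dp i u z * br H (dx i u) z) := by
    rw [br_sum fun i _ => Sm.dAt ((hu.dp i).mul (hu.dx i)) z]
    exact Finset.sum_congr rfl fun i _ => br_mul ((hu.dp i).dAt z) ((hu.dx i).dAt z)
  have e4 : ∑ i, (∑ j, dx j (dp i H) z * dp j u z) * dx i u z =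
      ∑ i, dp i u z * ∑ j, dx i (dp j H) z * dx j u z := by
    simp only [Finset.sum_mul, Finset.mul_sum]
    rw [Finset.sum_comm]
    exact Finset.sum_congr rfl fun i _ => Finset.sum_congr rfl fun j _ => by ring
  have e5 : ∑ i, (∑ j, dp i (dp j H) z * dx j u z) * dx i u z =
      ∑ i, ∑ j, dp i (dp j H) z * dx i u z * dx j u z := by
    simp only [Finset.sum_mul]
    exact Finset.sum_congr rfl fun i _ => Finset.sum_congr rfl fun j _ => by ring
  have e6 : ∑ i, dp i u z * ∑ j, dx i (dx j H) z * dp j u z =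
      ∑ i, ∑ j, dx i (dx j H) z * dp i u z * dp j u z := by
    simp only [Finset.mul_sum]
    exact Finset.sum_congr rfl fun i _ => Finset.sum_congr rfl fun j _ => by ring
  have e7 : ∑ i, dp i u z * dx i (br H u) z = ∑ i, dx i (br H u) z * dp i u z :=
    Finset.sum_congr rfl fun i _ => mul_comm _ _
  simp only [e3, br_dp hH hu, pest_br_dx hH hu, add_mul, sub_mul, mul_add, mul_sub,
    Finset.sum_add_distrib, Finset.sum_sub_distrib, e4, e5, e6, e7]
  ring

open Matrix in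
theorem pest_bridge (M : Matrix (Fin n) (Fin n) ℝ) (x y : Fin n → ℝ) :
    ∑ i, ∑ j, M i j * x i * y j = x ⬝ᵥ M *ᵥ y := by
  simp only [dotProduct, mulVec, Finset.mul_sum]
  exact Finset.sum_congr rfl fun i _ => Finset.sum_congr rfl fun j _ => by ring

open Matrix in
theorem pest_alg0 (A B C S R : Matrix (Fin n) (Fin n) ℝ) (X P D Q : Fin n → ℝ) (hA : Aᵀ = A)
    (hS : Sᵀ = S) (hR : R + B + S * Cᵀ + C * S + S * A * S = 0)
    (hQ : Q = D - A *ᵥ X + Cᵀ *ᵥ P) :
    (X + S *ᵥ P) ⬝ᵥ A *ᵥ (X + S *ᵥ P) = X ⬝ᵥ A *ᵥ X - P ⬝ᵥ B *ᵥ P + 2 * (D ⬝ᵥ S *ᵥ P) -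
      (P ⬝ᵥ R *ᵥ P + Q ⬝ᵥ S *ᵥ P + P ⬝ᵥ S *ᵥ Q) := by
  have tr : ∀ (M : Matrix (Fin n) (Fin n) ℝ) (x y : Fin n → ℝ), x ⬝ᵥ M *ᵥ y = y ⬝ᵥ Mᵀ *ᵥ x :=
    fun M x y => by rw [dotProduct_mulVec, mulVec_transpose, dotProduct_comm]
  have h0 : P ⬝ᵥ (R + B + S * Cᵀ + C * S + S * A * S) *ᵥ P = 0 := by rw [hR]; simp
  simp only [add_mulVec, dotProduct_add, ← mulVec_mulVec] at h0
  have h1 : P ⬝ᵥ S *ᵥ Q = Q ⬝ᵥ S *ᵥ P := by rw [tr, hS]
  have h2 : P ⬝ᵥ S *ᵥ (Cᵀ *ᵥ P) = (Cᵀ *ᵥ P) ⬝ᵥ S *ᵥ P := by rw [tr, hS]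
  have h3 : P ⬝ᵥ C *ᵥ (S *ᵥ P) = (Cᵀ *ᵥ P) ⬝ᵥ S *ᵥ P := by rw [tr, dotProduct_comm]
  have h4 : P ⬝ᵥ S *ᵥ (A *ᵥ (S *ᵥ P)) = (S *ᵥ P) ⬝ᵥ A *ᵥ (S *ᵥ P) := by
    rw [tr, hS, dotProduct_comm]
  have h5 : X ⬝ᵥ A *ᵥ (S *ᵥ P) = (A *ᵥ X) ⬝ᵥ S *ᵥ P := by rw [tr, hA, dotProduct_comm]
  have h6 : (S *ᵥ P) ⬝ᵥ A *ᵥ X = (A *ᵥ X) ⬝ᵥ S *ᵥ P := dotProduct_comm _ _
  rw [h1, hQ]
  simp only [mulVec_add, dotProduct_add, add_dotProduct, sub_dotProduct]
  linarith

open Matrix in
theorem pest_alg (A B C S R : Fin n → Fin n → ℝ) (X P D Q : Fin n → ℝ)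
    (hA : ∀ i j, A i j = A j i)
    (hR : (∀ i, P i = 0) ∨ ((∀ i j, S i j = S j i) ∧ ∀ i j, R i j + B i j + ∑ k, S i k * C j k +
      ∑ k, C i k * S k j + ∑ k, ∑ l, S i k * A k l * S l j = 0))
    (hQ : ∀ i, Q i = D i - ∑ j, A i j * X j + ∑ j, C j i * P j) :
    ∑ i, ∑ j, A i j * (X i + ∑ k, S i k * P k) * (X j + ∑ k, S j k * P k) =
      ∑ i, ∑ j, (A i j * X i * X j - B i j * P i * P j) +
        2 * (∑ i, D i * (X i + ∑ k, S i k * P k) - ∑ i, D i * X i) -
        ∑ i, ∑ j, ((R i j * P i + S i j * Q i) * P j + S i j * P i * Q j) := by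
  rcases hR with h | ⟨hS, hR⟩
  · simp [h]
  have := pest_alg0 (of A) (of B) (of C) (of S) (of R) X P D Q
    (Matrix.ext fun i j => hA j i) (Matrix.ext fun i j => hS j i)
    (Matrix.ext fun i j => by
      rw [Matrix.zero_apply, ← hR i j]
      simp only [Matrix.add_apply, Matrix.mul_apply, of_apply, transpose_apply, Finset.sum_mul]
      rw [Finset.sum_comm])
    (funext fun i => hQ i)
  simp only [← pest_bridge] at this
  have e1 : ∑ i, D i * (X i + ∑ k, S i k * P k) - ∑ i, D i * X i =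
      ∑ i, ∑ j, S i j * D i * P j := by
    simp only [mul_add, Finset.sum_add_distrib, add_sub_cancel_left, Finset.mul_sum]
    exact Finset.sum_congr rfl fun i _ => Finset.sum_congr rfl fun j _ => by ring
  rw [e1]
  simp only [add_mul (R _ _ * _), Finset.sum_add_distrib, Finset.sum_sub_distrib]
  exact this

/-- Sketch: add `0 = ∫ br H (∑ S i j * dp i u * dp j u)` to `pestov`, expand with `br_mul`,
`br_dp`; pointwise the integrands agree by the symmetry of `S` and the Riccati equation (or both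
corrections vanish because `dp u = 0`). -/
theorem pestov_ric (hH : Sm H) (hu : Sm u) (hc : HasCompactSupport u)
    {S : Z n → Fin n → Fin n → ℝ} (hS : ∀ i j, Sm fun z => S z i j)
    (hR : ∀ z, (∀ i, dp i u z = 0) ∨ ((∀ i j, S z i j = S z j i) ∧ ∀ i j,
      br H (fun w => S w i j) z + dx i (dx j H) z + ∑ k, S z i k * dx j (dp k H) z +
        ∑ k, dx i (dp k H) z * S z k j + ∑ k, ∑ l, S z i k * dp k (dp l H) z * S z l j = 0)) :
    ∫ z, ∑ i, ∑ j, dp i (dp j H) z * (dx i u z + ∑ k, S z i k * dp k u z) *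
        (dx j u z + ∑ k, S z j k * dp k u z) =
      2 * ∫ z, ∑ i, dp i (br H u) z * (dx i u z + ∑ k, S z i k * dp k u z) := by
  have ha : Sm (br H u) := hH.br hu
  have sΦ : Sm fun w => ∑ i, ∑ j, S w i j * dp i u w * dp j u w :=
    ContDiff.sum fun i _ => ContDiff.sum fun j _ => ((hS i j).mul (hu.dp i)).mul (hu.dp j)
  have cΦ : HasCompactSupport fun w => ∑ i, ∑ j, S w i j * dp i u w * dp j u w :=
    HasCompactSupport.intro hc fun z hz => by simp [fun i => (pest_off hz i).2]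
  have e2 := int_br hH sΦ cΦ
  have i3 := intg (hH.br sΦ).continuous (hcs_br cΦ H)
  have i1 : Integrable fun z => ∑ i, dp i (br H u) z * dx i u z :=
    pest_intg hc (continuous_finsetSum _ fun i _ =>
      (ha.dp i).continuous.mul (hu.dx i).continuous) fun z hz => by
        simp [fun i => (pest_off hz i).1]
  have i2 : Integrable fun z => ∑ i, dp i (br H u) z * (dx i u z + ∑ k, S z i k * dp k u z) :=
    pest_intg hc (continuous_finsetSum _ fun i _ =>
      (ha.dp i).continuous.mul ((hu.dx i).continuous.add (continuous_finsetSum _ fun k _ =>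
        (hS i k).continuous.mul (hu.dp k).continuous))) fun z hz => by
        simp [fun i => (pest_off hz i).1, fun i => (pest_off hz i).2]
  have i4 : Integrable fun z => ∑ i, ∑ j, (dp i (dp j H) z * dx i u z * dx j u z -
      dx i (dx j H) z * dp i u z * dp j u z) :=
    pest_intg hc (continuous_finsetSum _ fun i _ => continuous_finsetSum _ fun j _ =>
      ((((hH.dp j).dp i).continuous.mul (hu.dx i).continuous).mul (hu.dx j).continuous).sub
      ((((hH.dx j).dx i).continuous.mul (hu.dp i).continuous).mul (hu.dp j).continuous))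
      fun z hz => by simp [fun i => (pest_off hz i).1, fun i => (pest_off hz i).2]
  have e1 := pestov hH hu hc
  have key : ∀ z, ∑ i, ∑ j, dp i (dp j H) z * (dx i u z + ∑ k, S z i k * dp k u z) *
      (dx j u z + ∑ k, S z j k * dp k u z) =
      ∑ i, ∑ j, (dp i (dp j H) z * dx i u z * dx j u z - dx i (dx j H) z * dp i u z * dp j u z) +
        2 * (∑ i, dp i (br H u) z * (dx i u z + ∑ k, S z i k * dp k u z) -
          ∑ i, dp i (br H u) z * dx i u z) -
        br H (fun w => ∑ i, ∑ j, S w i j * dp i u w * dp j u w) z := by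
    intro z
    have e3 : br H (fun w => ∑ i, ∑ j, S w i j * dp i u w * dp j u w) z =
        ∑ i, ∑ j, ((br H (fun w => S w i j) z * dp i u z + S z i j * br H (dp i u) z) * dp j u z +
          S z i j * dp i u z * br H (dp j u) z) := by
      rw [br_sum fun i _ => Sm.dAt
        (ContDiff.sum fun j _ => ((hS i j).mul (hu.dp i)).mul (hu.dp j)) z]
      refine Finset.sum_congr rfl fun i _ => ?_
      rw [br_sum fun j _ => Sm.dAt (((hS i j).mul (hu.dp i)).mul (hu.dp j)) z]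
      refine Finset.sum_congr rfl fun j _ => ?_
      rw [br_mul (Sm.dAt ((hS i j).mul (hu.dp i)) z) ((hu.dp j).dAt z),
        br_mul ((hS i j).dAt z) ((hu.dp i).dAt z)]
    rw [e3]
    exact pest_alg (fun i j => dp i (dp j H) z) (fun i j => dx i (dx j H) z)
      (fun i j => dx i (dp j H) z) (S z) (fun i j => br H (fun w => S w i j) z)
      (fun i => dx i u z) (fun i => dp i u z) (fun i => dp i (br H u) z)
      (fun i => br H (dp i u) z) (fun i j => dp_dp hH i j z) (hR z) fun i => br_dp hH hu i z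
  simp only [key]
  have i5 : Integrable fun z =>
      2 * (∑ i, dp i (br H u) z * (dx i u z + ∑ k, S z i k * dp k u z) -
        ∑ i, dp i (br H u) z * dx i u z) := (i2.sub i1).const_mul 2
  have i6 : Integrable fun z => ∑ i, ∑ j, (dp i (dp j H) z * dx i u z * dx j u z -
      dx i (dx j H) z * dp i u z * dp j u z) +
      2 * (∑ i, dp i (br H u) z * (dx i u z + ∑ k, S z i k * dp k u z) -
        ∑ i, dp i (br H u) z * dx i u z) := i4.add i5
  rw [integral_sub i6 i3, integral_add i4 i5, integral_const_mul, integral_sub i2 i1, e2, ← e1]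
  ring

theorem pest_core {K : Set (Z n)} (hK : IsCompact K) {F w ρ : Z n → ℝ} (hF : Continuous F)
    (hw : Continuous w) (hρ : Continuous ρ) (h0 : ∫ z, F z = 0) (hF0 : ∀ z, z ∉ K → F z = 0)
    (hw0 : ∀ z, z ∉ K → w z = 0) {α γ : ℝ} (h : ∀ z ∈ K, F z ≤ γ * ρ z - α * w z) :
    α * ∫ z, w z ≤ γ * ∫ z in K, ρ z := by
  have j1 : IntegrableOn F K := hF.continuousOn.integrableOn_compact hK
  have j2 : IntegrableOn w K := hw.continuousOn.integrableOn_compact hK
  have j3 : IntegrableOn ρ K := hρ.continuousOn.integrableOn_compact hK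
  have j4 : IntegrableOn (fun z => γ * ρ z - α * w z) K := (j3.const_mul γ).sub (j2.const_mul α)
  have := setIntegral_mono_on j1 j4 hK.measurableSet h
  rw [setIntegral_eq_integral_of_forall_compl_eq_zero hF0, h0,
    integral_sub (j3.const_mul γ) (j2.const_mul α), integral_const_mul, integral_const_mul,
    setIntegral_eq_integral_of_forall_compl_eq_zero hw0] at this
  linarith

theorem pest_quad {B : Fin n → Fin n → ℝ} {β : ℝ} (hβ : ∀ i j, |B i j| ≤ β) (W : Fin n → ℝ) :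
    |∑ i, W i * ∑ j, B i j * W j| ≤ n * β * ∑ i, W i ^ 2 := by
  have h : ∀ i j, |W i * (B i j * W j)| ≤ β / 2 * W i ^ 2 + β / 2 * W j ^ 2 := fun i j => by
    have h1 := hβ i j
    have h2 := abs_nonneg (B i j)
    have h3 : |W i| * |W j| ≤ (W i ^ 2 + W j ^ 2) / 2 := by
      rw [← sq_abs (W i), ← sq_abs (W j)]
      nlinarith [sq_nonneg (|W i| - |W j|)]
    have h4 := mul_le_mul h1 h3 (mul_nonneg (abs_nonneg _) (abs_nonneg _)) (h2.trans h1)
    rw [abs_mul, abs_mul]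
    linarith
  calc _ ≤ ∑ i, ∑ j, (β / 2 * W i ^ 2 + β / 2 * W j ^ 2) := by
        refine (Finset.abs_sum_le_sum_abs _ _).trans (Finset.sum_le_sum fun i _ => ?_)
        rw [Finset.mul_sum]
        exact (Finset.abs_sum_le_sum_abs _ _).trans (Finset.sum_le_sum fun j _ => h i j)
    _ = _ := by
        simp only [Finset.sum_add_distrib, Finset.sum_const, Finset.card_univ, Fintype.card_fin,
          nsmul_eq_mul, ← Finset.mul_sum]
        ring

theorem pest_sq {W r : Fin n → Z n → ℝ} {B : Z n → Fin n → Fin n → ℝ} (hW : ∀ i, Sm (W i))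
    (he : ∀ i z, br H (W i) z = r i z + ∑ j, B z i j * W j z) {μ : Z n → ℝ} (hμ : Sm μ)
    (z : Z n) : br H (fun w => μ w * ∑ i, W i w ^ 2) z = br H μ z * ∑ i, W i z ^ 2 +
      μ z * (2 * ∑ i, W i z * r i z + 2 * ∑ i, W i z * ∑ j, B z i j * W j z) := by
  rw [br_mul (hμ.dAt z) (Sm.dAt (ContDiff.sum fun i _ => (hW i).pow 2) z),
    br_sum fun i _ => Sm.dAt ((hW i).pow 2) z, ← mul_add, ← Finset.sum_add_distrib,
    Finset.mul_sum _ _ 2]
  congr 2
  refine Finset.sum_congr rfl fun i _ => ?_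
  simp only [sq]
  rw [br_mul ((hW i).dAt z) ((hW i).dAt z), he]
  ring

theorem pest_mult (hH : Sm H) {μ : Z n → ℝ} (hμ : Sm μ) {K : Set (Z n)} (hK : IsCompact K)
    {B : Z n → Fin n → Fin n → ℝ} {W r : Fin n → Z n → ℝ}
    (hW : ∀ i, Sm (W i)) (hr : ∀ i, Continuous (r i)) (hs : ∀ i z, z ∉ K → W i z = 0)
    (he : ∀ i z, br H (W i) z = r i z + ∑ j, B z i j * W j z) {α γ : ℝ}
    (h : ∀ z ∈ K, br H μ z * ∑ i, W i z ^ 2 +
      μ z * (2 * ∑ i, W i z * r i z + 2 * ∑ i, W i z * ∑ j, B z i j * W j z) ≤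
        γ * ∑ i, r i z ^ 2 - α * ∑ i, W i z ^ 2) :
    α * ∫ z, ∑ i, W i z ^ 2 ≤ γ * ∫ z in K, ∑ i, r i z ^ 2 := by
  have s1 : Sm fun w => μ w * ∑ i, W i w ^ 2 := hμ.mul (ContDiff.sum fun i _ => (hW i).pow 2)
  refine pest_core hK (hH.br s1).continuous
    (continuous_finsetSum _ fun i _ => (hW i).continuous.pow 2)
    (continuous_finsetSum _ fun i _ => (hr i).pow 2)
    (int_br hH s1 (HasCompactSupport.intro hK fun z hz => by simp [fun i => hs i z hz]))
    (fun z hz => ?_) (fun z hz => by simp [fun i => hs i z hz]) fun z hz => ?_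
  · rw [pest_sq hW he hμ]
    simp [fun i => hs i z hz]
  · rw [pest_sq hW he hμ]
    exact h z hz

theorem pest_young (W r : Fin n → ℝ) {t e : ℝ} (he : 0 < e) :
    t * (2 * ∑ i, W i * r i) ≤ e * ∑ i, W i ^ 2 + t ^ 2 / e * ∑ i, r i ^ 2 := by
  simp only [Finset.mul_sum, ← Finset.sum_add_distrib]
  refine Finset.sum_le_sum fun i _ => ?_
  have : e * W i ^ 2 + t ^ 2 / e * r i ^ 2 - t * (2 * (W i * r i)) =
      (e * W i - t * r i) ^ 2 / e := by
    field_simp
    ring
  have h2 : 0 ≤ (e * W i - t * r i) ^ 2 / e := by positivity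
  linarith

/-- Sketch: `0 = ∫ br H (exp (l T) ∑ W i ^ 2)` with `l = 2 n β + 2`; on `K` one has
`exp (-l T₀) ≤ exp (l T) ≤ exp (l T₀)`; `2 W r ≤ W² + r²`, `2 ∑ W i B i j W j ≤ 2 n β ∑ W²`. -/
theorem mult_exp (hH : Sm H) {T : Z n → ℝ} (hT : Sm T) {K : Set (Z n)} (hK : IsCompact K)
    {B : Z n → Fin n → Fin n → ℝ} (hB : ∀ i j, Continuous fun z => B z i j) :
    ∃ C : ℝ, 0 ≤ C ∧ ∀ W r : Fin n → Z n → ℝ, (∀ i, Sm (W i)) → (∀ i, Continuous (r i)) →
      (∀ i z, z ∉ K → W i z = 0) → (∀ z, (∀ i, W i z = 0) ∨ br H T z = -1) →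
      (∀ i z, br H (W i) z = r i z + ∑ j, B z i j * W j z) →
      ∫ z, ∑ i, W i z ^ 2 ≤ C * ∫ z in K, ∑ i, r i z ^ 2 := by
  obtain ⟨T₀, hT₀⟩ := hK.exists_bound_of_continuousOn hT.continuous.continuousOn
  obtain ⟨β, hβ⟩ := hK.exists_bound_of_continuousOn (f := B)
    (continuous_pi fun i => continuous_pi fun j => hB i j).continuousOn
  have hβ' : ∀ z ∈ K, ∀ i j, |B z i j| ≤ |β| := fun z hz i j =>
    (((norm_le_pi_norm (B z i) j).trans (norm_le_pi_norm (B z) i)).trans (hβ z hz)).trans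
      (le_abs_self β)
  obtain ⟨l, hl⟩ : ∃ l : ℝ, l = 2 * (n * |β|) + 2 := ⟨_, rfl⟩
  have hl0 : 0 ≤ l := by rw [hl]; positivity
  refine ⟨Real.exp (l * T₀) / Real.exp (-(l * T₀)), by positivity,
    fun W r hW hr hs hT1 he => ?_⟩
  have sμ : Sm fun w => Real.exp (l * T w) := (contDiff_const.mul hT).exp
  rw [div_mul_eq_mul_div, le_div_iff₀ (Real.exp_pos _), mul_comm]
  refine pest_mult hH sμ hK hW hr hs he fun z hz => ?_
  have r0 : 0 ≤ ∑ i, r i z ^ 2 := Finset.sum_nonneg fun i _ => sq_nonneg _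
  have w0 : 0 ≤ ∑ i, W i z ^ 2 := Finset.sum_nonneg fun i _ => sq_nonneg _
  rcases hT1 z with h | h
  · simp only [h]
    simp
    positivity
  have e1 : br H (fun w => Real.exp (l * T w)) z = -(l * Real.exp (l * T z)) := by
    have d : HasDerivAt (fun t => Real.exp (l * t)) (Real.exp (l * T z) * l) (T z) := by
      simpa using ((hasDerivAt_id (T z)).const_mul l).exp
    rw [br_comp (φ := fun t => Real.exp (l * t)) d.differentiableAt (hT.dAt z), d.deriv, h]
    ring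
  have b := abs_le.1 (hT₀ z hz)
  have a1 : Real.exp (l * T z) ≤ Real.exp (l * T₀) :=
    Real.exp_le_exp.2 (mul_le_mul_of_nonneg_left b.2 hl0)
  have a2 : Real.exp (-(l * T₀)) ≤ Real.exp (l * T z) :=
    Real.exp_le_exp.2 (by nlinarith [b.1])
  have a3 := pest_young (fun i => W i z) (fun i => r i z) (t := 1) one_pos
  have a4 := (le_abs_self _).trans (pest_quad (hβ' z hz) fun i => W i z)
  have a5 : -l * ∑ i, W i z ^ 2 +
      (2 * ∑ i, W i z * r i z + 2 * ∑ i, W i z * ∑ j, B z i j * W j z) ≤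
      ∑ i, r i z ^ 2 - ∑ i, W i z ^ 2 := by
    rw [hl]
    simp only [one_pow, div_one, one_mul] at a3
    linarith
  have a6 := mul_le_mul_of_nonneg_left a5 (Real.exp_pos (l * T z)).le
  have a7 := mul_le_mul_of_nonneg_right a1 r0
  have a8 := mul_le_mul_of_nonneg_right a2 w0
  rw [e1]
  linarith

/-- Sketch: `0 = ∫ br H (μ ∑ W i ^ 2)`, so `c ∫ W² ≤ 2 η ∫ |W| |r| + 2 η n β ∫ W²`; with
`4 η n β ≤ c` and `2 η |W| |r| ≤ (c / 4) W² + (4 η² / c) r²` one gets the claim. -/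
theorem mult_small (hH : Sm H) {μ : Z n → ℝ} (hμ : Sm μ) {K : Set (Z n)} (hK : IsCompact K)
    {B : Z n → Fin n → Fin n → ℝ} (hB : ∀ i j, Continuous fun z => B z i j) {c η β : ℝ}
    (hc : 0 < c) (hη : 0 ≤ η) (hβ : ∀ z ∈ K, ∀ i j, |B z i j| ≤ β) (h4 : 4 * η * n * β ≤ c)
    (h1 : ∀ z ∈ K, c ≤ -br H μ z) (h2 : ∀ z ∈ K, |μ z| ≤ η) {W r : Fin n → Z n → ℝ}
    (hW : ∀ i, Sm (W i)) (hr : ∀ i, Continuous (r i)) (hs : ∀ i z, z ∉ K → W i z = 0)
    (he : ∀ i z, br H (W i) z = r i z + ∑ j, B z i j * W j z) :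
    ∫ z, ∑ i, W i z ^ 2 ≤ 16 * η ^ 2 / c ^ 2 * ∫ z in K, ∑ i, r i z ^ 2 := by
  have key := pest_mult hH hμ hK hW hr hs he (α := c / 4) (γ := η ^ 2 / (c / 4)) fun z hz => by
    have r0 : 0 ≤ ∑ i, r i z ^ 2 := Finset.sum_nonneg fun i _ => sq_nonneg _
    have w0 : 0 ≤ ∑ i, W i z ^ 2 := Finset.sum_nonneg fun i _ => sq_nonneg _
    have a3 := pest_young (fun i => W i z) (fun i => r i z) (t := μ z) (e := c / 4) (by positivity)
    have a4 := pest_quad (hβ z hz) fun i => W i z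
    have a5 : μ z * ∑ i, W i z * ∑ j, B z i j * W j z ≤ η * (n * β * ∑ i, W i z ^ 2) := by
      refine (le_abs_self _).trans ?_
      rw [abs_mul]
      exact mul_le_mul (h2 z hz) a4 (abs_nonneg _) hη
    have a6 : μ z ^ 2 / (c / 4) ≤ η ^ 2 / (c / 4) :=
      div_le_div_of_nonneg_right (sq_le_sq' (abs_le.1 (h2 z hz)).1 (abs_le.1 (h2 z hz)).2)
        (by positivity)
    have a7 := mul_le_mul_of_nonneg_right a6 r0
    have a8 := mul_le_mul_of_nonneg_right (h1 z hz) w0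
    have a9 := mul_le_mul_of_nonneg_right h4 w0
    linarith
  have e : 16 * η ^ 2 / c ^ 2 = η ^ 2 / (c / 4) / (c / 4) := by
    field_simp
    ring
  rw [e, div_mul_eq_mul_div _ (c / 4), le_div_iff₀ (by positivity), mul_comm]
  exact key

end Pool.Agent.Lib.MP_45f3cb_gt
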