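import Pool.Agent.Lib.MP_45f3cb_gt.TimeF
import Pool.Agent.Lib.MP_45f3cb_gt.Proj

/-!
A smooth symmetric solution of the Riccati equation on the energy shell.
-/

open Set MeasureTheory

namespace Pool.Agent.Lib.MP_45f3cb_gt

variable {n : ℕ} {D : Dom n} {e h₀ h₁ : ℝ}

theorem RicS_clm (L : Z n →L[ℝ] Z n) (y : Z n) :
    (L y).1 = Matrix.mulVec (Matrix.of fun i j => (L (Pi.single j 1, 0)).1 i) y.1 +
      Matrix.mulVec (Matrix.of fun i j => (L (0, Pi.single j 1)).1 i) y.2 := by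
  funext i
  have h := clm_apply_eq ((ContinuousLinearMap.proj i).comp
    ((ContinuousLinearMap.fst ℝ (V n) (V n)).comp L)) y
  simp only [ContinuousLinearMap.comp_apply, ContinuousLinearMap.proj_apply,
    ContinuousLinearMap.coe_fst'] at h
  rw [h, Finset.sum_add_distrib]
  simp only [Pi.add_apply, Matrix.mulVec, dotProduct, Matrix.of_apply, mul_comm]

theorem RicS_solve (A Q : Matrix (Fin n) (Fin n) ℝ) {c : ℝ} (hc : c * Q.det = 1) (u v : V n) :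
    A.mulVec u + Q.mulVec v = 0 ↔ v = (-c • (Q.adjugate * A)).mulVec u := by
  constructor
  · intro h
    have h1 := congrArg (fun w => c • Q.adjugate.mulVec w) h
    simp only [Matrix.mulVec_add, Matrix.mulVec_mulVec, Matrix.adjugate_mul, Matrix.smul_mulVec,
      Matrix.one_mulVec, smul_add, smul_smul, hc, one_smul, Matrix.mulVec_zero, smul_zero] at h1
    rw [Matrix.smul_mulVec, neg_smul]
    exact eq_neg_of_add_eq_zero_right h1
  · rintro rfl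
    rw [Matrix.mulVec_mulVec, Matrix.mul_smul, ← Matrix.mul_assoc, Matrix.mul_adjugate,
      Matrix.smul_mul, Matrix.one_mul, smul_smul, neg_mul, hc, neg_smul, one_smul,
      Matrix.neg_mulVec, add_neg_cancel]

/-- Sketch: `Q z i j = (fderiv (Φ (T z)) z (0, e j)).1 i` and `A z i j = (fderiv (Φ (T z)) z (e j, 0)).1 i`
are smooth (`IsFlow.sm_fderiv`); `det Q ≠ 0` on the compact `sh`, so `|det Q| ≥ m > 0`; put
`S = -ι (det Q) • adjugate Q * A` with `ι` of `exists_smooth_inv`; `contDiff_det`,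
`contDiff_adjugate`. -/
theorem GF.exists_graph (P : GF D e) {T : Z n → ℝ} (hT : Sm T)
    (hQ : ∀ z ∈ D.sh h₀ h₁, ∀ w : V n, (fderiv ℝ (P.Φ (T z)) z (0, w)).1 = 0 → w = 0) :
    ∃ S : Z n → Fin n → Fin n → ℝ, (∀ i j, Sm fun z => S z i j) ∧ ∀ z ∈ D.sh h₀ h₁, ∀ y : Z n,
      (fderiv ℝ (P.Φ (T z)) z y).1 = 0 ↔ ∀ i, y.2 i = ∑ j, S z i j * y.1 j := by
  set A : Z n → Matrix (Fin n) (Fin n) ℝ := fun z =>
    Matrix.of fun i j => (fderiv ℝ (P.Φ (T z)) z (Pi.single j 1, 0)).1 i with hA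
  set Q : Z n → Matrix (Fin n) (Fin n) ℝ := fun z =>
    Matrix.of fun i j => (fderiv ℝ (P.Φ (T z)) z (0, Pi.single j 1)).1 i with hQ'
  have sm : ∀ (w : Z n) (i : Fin n), Sm fun z => (fderiv ℝ (P.Φ (T z)) z w).1 i := fun w i =>
    (contDiff_apply ℝ ℝ i).comp (contDiff_fst.comp
      ((P.flow.sm_fderiv w).comp (hT.prodMk contDiff_id)))
  have sA : ∀ i j, Sm fun z => A z i j := fun i j => sm _ i
  have sQ : ∀ i j, Sm fun z => Q z i j := fun i j => sm _ i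
  have e : ∀ z y, (fderiv ℝ (P.Φ (T z)) z y).1 = (A z).mulVec y.1 + (Q z).mulVec y.2 :=
    fun z y => RicS_clm _ y
  have hdet : ∀ z ∈ D.sh h₀ h₁, 0 < |(Q z).det| := by
    intro z hz
    refine abs_pos.2 fun h => ?_
    obtain ⟨v, hv, h2⟩ := Matrix.exists_mulVec_eq_zero_iff.2 h
    refine hv (hQ z hz v ?_)
    rw [e, Matrix.mulVec_zero, zero_add]
    exact h2
  obtain ⟨m, hm, hm'⟩ := (D.isCompact_sh h₀ h₁).exists_forall_le'
    (contDiff_det sQ).continuous.abs.continuousOn hdet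
  obtain ⟨ι, hι, hι'⟩ := exists_smooth_inv hm
  refine ⟨fun z i j => (-ι (Q z).det • ((Q z).adjugate * A z)) i j, fun i j => ?_,
    fun z hz y => ?_⟩
  · simp only [Matrix.smul_apply, Matrix.mul_apply, smul_eq_mul]
    exact (hι.comp (contDiff_det sQ)).neg.mul
      (ContDiff.sum fun k _ => (contDiff_adjugate sQ i k).mul (sA k j))
  · rw [e, RicS_solve _ _ (hι' _ (hm' z hz)), funext_iff]
    rfl

/-- `wronski` and `GF.linz` on `[0, T]` for the initial vectors `(e i, S e i)`, `(e j, S e j)` -/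
theorem GF.graph_symm (P : GF D e) {z : Z n} (he : D.H z < e) {T : ℝ} (hT : 0 ≤ T)
    (hR : ∀ t ∈ Icc 0 T, ‖(P.Φ t z).1‖ < P.R) {S : Fin n → Fin n → ℝ}
    (h : ∀ y : Z n, (∀ i, y.2 i = ∑ j, S i j * y.1 j) → (fderiv ℝ (P.Φ T) z y).1 = 0)
    (i j : Fin n) : S i j = S j i := by
  have hd : ∀ t ∈ Icc 0 T, HasDerivAt (fun r => ∑ k,
      ((fderiv ℝ (P.Φ r) z (Pi.single i 1, fun k => S k i)).1 k *
        (fderiv ℝ (P.Φ r) z (Pi.single j 1, fun k => S k j)).2 k -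
      (fderiv ℝ (P.Φ r) z (Pi.single i 1, fun k => S k i)).2 k *
        (fderiv ℝ (P.Φ r) z (Pi.single j 1, fun k => S k j)).1 k)) 0 t := fun t ht =>
    wronski (γ := fun r => P.Φ r z) D.sm_H (P.linz he (hR t ht) _) (P.linz he (hR t ht) _)
  have h1 := constant_of_has_deriv_right_zero (fun t ht => (hd t ht).continuousAt.continuousWithinAt)
    (fun t ht => (hd t (Ico_subset_Icc_self ht)).hasDerivWithinAt) T (right_mem_Icc.2 hT)
  have h2 : ∀ l, (fderiv ℝ (P.Φ T) z (Pi.single l 1, fun k => S k l)).1 = 0 := fun l =>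
    h _ fun k => by simp [Pi.single_apply]
  simp only [h2, P.flow.fderiv_zero, Pi.zero_apply, zero_mul, mul_zero, sub_zero,
    Finset.sum_const_zero, Finset.sum_sub_distrib] at h1
  simp [Pi.single_apply] at h1
  linarith

/-- Sketch: fix `j`, `y₀ = (e j, S z e j)`, `y s = fderiv (Φ s) z y₀`. For `0 ≤ s ≤ ex z` the chain
rule for `Φ (T z - s) ∘ Φ s = Φ (T z)` and the shift rule for `T` give
`(y s).2 i = ∑ k, S (Φ s z) i k * (y s).1 k`. Both sides are differentiable at `s = 0` (`GF.linz`,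
`GF.der_fun`), `ex z > 0`; compare the derivatives (`fderiv_hv_fst`, `fderiv_hv_snd`). -/
theorem GF.graph_ric (P : GF D e) (h0 : 0 < h₀) (h1 : h₁ < e) {T : Z n → ℝ}
    (hT : ∀ z ∈ D.sh h₀ h₁, ∀ s ∈ Icc 0 (P.ex z), T (P.Φ s z) = T z - s)
    {S : Z n → Fin n → Fin n → ℝ} (hS : ∀ i j, Sm fun z => S z i j)
    (h : ∀ z ∈ D.sh h₀ h₁, ∀ y : Z n,
      (fderiv ℝ (P.Φ (T z)) z y).1 = 0 ↔ ∀ i, y.2 i = ∑ j, S z i j * y.1 j) {z : Z n}
    (hz : z ∈ D.sh h₀ h₁) (hb : D.b z.1 < 0) (i j : Fin n) :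
    br D.H (fun w => S w i j) z + dx i (dx j D.H) z + ∑ k, S z i k * dx j (dp k D.H) z +
      ∑ k, dx i (dp k D.H) z * S z k j + ∑ k, ∑ l, S z i k * dp k (dp l D.H) z * S z l j = 0 := by
  have z0 : 0 < D.H z := h0.trans_le hz.2.1
  have ze : D.H z < e := hz.2.2.trans_lt h1
  have hp : 0 < P.ex z := P.ex_pos hz.1 z0 ze (Or.inl hb)
  set y₀ : Z n := (Pi.single j 1, fun k => S z k j) with hy₀
  have a0 : (fderiv ℝ (P.Φ (T z)) z y₀).1 = 0 :=
    (h z hz y₀).2 fun k => by simp [hy₀, Pi.single_apply]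
  have a1 : ∀ s ∈ Icc 0 (P.ex z), (fderiv ℝ (P.Φ s) z y₀).2 i -
      ∑ k, S (P.Φ s z) i k * (fderiv ℝ (P.Φ s) z y₀).1 k = 0 := by
    intro s hs
    have b1 : P.Φ s z ∈ D.sh h₀ h₁ := ⟨P.ex_in hz.1 z0 ze s hs, by rw [P.ener]; exact hz.2⟩
    refine sub_eq_zero.2 ((h _ b1 _).1 ?_ i)
    have b2 : P.Φ (T z) = P.Φ (T z - s) ∘ P.Φ s := by
      funext w
      rw [Function.comp_apply, ← P.flow.add, sub_add_cancel]
    rw [b2, fderiv_comp z ((P.flow.sm_t _).dAt _) ((P.flow.sm_t _).dAt _)] at a0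
    rw [hT z hz s hs]
    exact a0
  have hR : ‖(P.Φ 0 z).1‖ < P.R := by
    rw [P.flow.zero]
    exact P.ball _ hz.1
  have d0 := P.linz ze hR y₀
  have d1 : ∀ k, HasDerivAt (fun s => (fderiv ℝ (P.Φ s) z y₀).1 k) _ 0 := fun k =>
    hasDerivAt_pi.1 d0.fst k
  have d2 : HasDerivAt (fun s => (fderiv ℝ (P.Φ s) z y₀).2 i) _ 0 := hasDerivAt_pi.1 d0.snd i
  have d3 := d2.fun_sub (HasDerivAt.fun_sum (u := Finset.univ) fun k _ =>
    (P.der_fun ze hR ((hS i k).dAt _)).fun_mul (d1 k))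
  have d4 := (uniqueDiffOn_Icc hp 0 (left_mem_Icc.2 hp.le)).eq_deriv _ d3.hasDerivWithinAt
    ((hasDerivWithinAt_const (0 : ℝ) (Icc 0 (P.ex z)) (0 : ℝ)).congr a1
      (a1 0 (left_mem_Icc.2 hp.le)))
  simp only [P.flow.zero, P.flow.fderiv_zero, fderiv_hv_fst D.sm_H, fderiv_hv_snd D.sm_H, hy₀,
    Finset.sum_add_distrib, mul_add, Pi.single_apply, ite_mul, mul_ite, one_mul, zero_mul, mul_one,
    mul_zero, Finset.sum_ite_eq', Finset.mem_univ, if_true, Finset.mul_sum] at d4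
  have e1 : ∑ k, dx i (dp k D.H) z * S z k j = ∑ k, S z k j * dp k (dx i D.H) z :=
    Finset.sum_congr rfl fun k _ => by rw [dx_dp D.sm_H, mul_comm]
  have e2 : ∑ k, ∑ l, S z i k * dp k (dp l D.H) z * S z l j =
      ∑ k, ∑ l, S z i k * (S z l j * dp l (dp k D.H) z) :=
    Finset.sum_congr rfl fun k _ => Finset.sum_congr rfl fun l _ => by
      rw [dp_dp D.sm_H]
      ring
  rw [e1, e2, dx_dx D.sm_H]
  linarith

/-- assembly with `δ = min δ₁ ε₀` (`GF.noconj_ext`, `GF.ex_after`, `GF.exists_time`) -/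
theorem GF.exists_ric (P : GF D e) (h0 : 0 < h₀) (h1 : h₁ < e) :
    ∃ (T : Z n → ℝ) (S : Z n → Fin n → Fin n → ℝ), Sm T ∧ (∀ i j, Sm fun z => S z i j) ∧
      ∀ z ∈ D.sh h₀ h₁, D.b z.1 < 0 → br D.H T z = -1 ∧ (∀ i j, S z i j = S z j i) ∧ ∀ i j,
        br D.H (fun w => S w i j) z + dx i (dx j D.H) z + ∑ k, S z i k * dx j (dp k D.H) z +
          ∑ k, dx i (dp k D.H) z * S z k j +
          ∑ k, ∑ l, S z i k * dp k (dp l D.H) z * S z l j = 0 := by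
  obtain ⟨δ, hδ, hn⟩ := P.noconj_ext h0 h1
  obtain ⟨ε, c, hε, -, ha⟩ := P.ex_after h0 h1
  obtain ⟨T, hT, t1, t2⟩ := P.exists_time h0 h1 (lt_min hδ hε)
  obtain ⟨S, hS, hg⟩ := P.exists_graph (h₀ := h₀) (h₁ := h₁) hT fun z hz =>
    hn z hz _ ⟨(t1 z hz).1, (t1 z hz).2.trans (by linarith [min_le_left δ ε])⟩
  refine ⟨T, S, hT, hS, fun z hz hb => ⟨P.br_time h0 h1 hT t2 hz hb,
    P.graph_symm (hz.2.2.trans_lt h1) (t1 z hz).1.le (fun t ht => (ha z hz).2 t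
      ⟨ht.1, ht.2.trans ((t1 z hz).2.trans (by linarith [min_le_right δ ε]))⟩)
      fun y hy => (hg z hz y).2 hy, P.graph_ric h0 h1 t2 hS hg hz hb⟩⟩

end Pool.Agent.Lib.MP_45f3cb_gt
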