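import Pool.Agent.Lib.MP_45f3cb_gt.AprA
import Pool.Agent.Lib.MP_45f3cb_gt.Pest
import Pool.Agent.Lib.MP_45f3cb_gt.RicS

/-!
A priori estimate, part B.
-/

open Set MeasureTheory

namespace Pool.Agent.Lib.MP_45f3cb_gt

variable {n d : ℕ} {κ : ℝ → ℝ} {h₀ h₁ e : ℝ} {D : Dom n}

/-- outside the open part of the shell the differential of `v` vanishes (`Dom.fderiv_pos`; the
complement of `sh` is open) -/
theorem KC.fderiv_zero {v f : Z n → ℝ} (h : KC D d κ h₀ h₁ v f) {z : Z n}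
    (hz : ¬(z ∈ D.sh h₀ h₁ ∧ D.b z.1 < 0)) : fderiv ℝ v z = 0 := by
  by_cases h1 : z ∈ D.sh h₀ h₁
  · exact D.fderiv_pos (h.smv.of_le (by simp)) (fun w hw => h.supp w fun e => e.1.not_gt hw)
      (not_lt.1 fun e => hz ⟨h1, e⟩)
  · have h2 : v =ᶠ[nhds z] fun _ => 0 :=
      Filter.mem_of_superset ((D.isCompact_sh h₀ h₁).isClosed.isOpen_compl.mem_nhds h1) h.supp
    rw [h2.fderiv_eq, fderiv_fun_const]
    rfl

theorem KC.aprB_off {v f : Z n → ℝ} (h : KC D d κ h₀ h₁ v f) {z : Z n}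
    (hz : ¬(z ∈ D.sh h₀ h₁ ∧ D.b z.1 < 0)) (i : Fin n) : dx i v z = 0 ∧ dp i v z = 0 := by
  rw [dx, dp, h.fderiv_zero hz]
  exact ⟨rfl, rfl⟩

theorem aprB_bd {K : Set (Z n)} (hK : IsCompact K) {F : Z n → ℝ} (hF : Continuous F) :
    ∃ M : ℝ, 0 ≤ M ∧ ∀ z ∈ K, F z ≤ M := by
  obtain ⟨M, hM⟩ := hK.exists_bound_of_continuousOn hF.continuousOn
  exact ⟨|M|, abs_nonneg _, fun z hz => ((le_abs_self _).trans (hM z hz)).trans (le_abs_self _)⟩

theorem aprB_cont {S : Z n → Fin n → Fin n → ℝ} (hS : ∀ i j, Sm fun z => S z i j) {v : Z n → ℝ}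
    (hv : Sm v) (i : Fin n) : Continuous fun z => dx i v z + ∑ k, S z i k * dp k v z :=
  (hv.dx i).continuous.add (continuous_finsetSum _ fun k _ =>
    (hS i k).continuous.mul (hv.dp k).continuous)

theorem KC.aprB_intD {S : Z n → Fin n → Fin n → ℝ} (hS : ∀ i j, Sm fun z => S z i j)
    {v f : Z n → ℝ} (h : KC D d κ h₀ h₁ v f) :
    Integrable fun z => ∑ i, (dx i v z + ∑ k, S z i k * dp k v z) ^ 2 :=
  pest_intg (D.isCompact_sh h₀ h₁)
    (continuous_finsetSum _ fun i _ => (aprB_cont hS h.smv i).pow 2) fun z hz => by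
      simp [fun i => (h.aprB_off (fun e => hz e.1) i).1, fun i => (h.aprB_off (fun e => hz e.1) i).2]

theorem KC.aprB_intp {v f : Z n → ℝ} (h : KC D d κ h₀ h₁ v f) :
    Integrable fun z => ∑ i, dp i v z ^ 2 :=
  pest_intg (D.isCompact_sh h₀ h₁)
    (continuous_finsetSum _ fun i _ => (h.smv.dp i).continuous.pow 2) fun z hz => by
      simp [fun i => (h.aprB_off (fun e => hz e.1) i).2]

theorem aprB_sub (a b : ℝ) : (a - b) ^ 2 ≤ 2 * a ^ 2 + 2 * b ^ 2 := by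
  nlinarith [sq_nonneg (a + b)]

/-- Sketch: `pestov_ric`, `Met.dp_dp_H`, `Met.coer`, `apr_id`, `apr_euler`: with `N = ∫ κ² f²` one gets
`l ∫ ∑ D² + N / (2 h₁) ≤ 2 |∫ g v| ≤ ε ∫ z in sh, g² + ε⁻¹ ∫ v² ≤ ε C N + ε⁻¹ ∫ v²` (`int_mul_le`,
`apr_f`); choose `ε C ≤ 1 / (4 h₁)`. -/
theorem apr_D (D : Dom n) (hn : 0 < n) (hκ : Cut κ h₀ h₁) {S : Z n → Fin n → Fin n → ℝ}
    (hS : ∀ i j, Sm fun z => S z i j)
    (hR : ∀ z ∈ D.sh h₀ h₁, D.b z.1 < 0 → (∀ i j, S z i j = S z j i) ∧ ∀ i j,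
      br D.H (fun w => S w i j) z + dx i (dx j D.H) z + ∑ k, S z i k * dx j (dp k D.H) z +
        ∑ k, dx i (dp k D.H) z * S z k j +
        ∑ k, ∑ l, S z i k * dp k (dp l D.H) z * S z l j = 0) :
    ∃ C : ℝ, 0 ≤ C ∧ ∀ v f, KC D d κ h₀ h₁ v f →
      ∫ z, ∑ i, (dx i v z + ∑ k, S z i k * dp k v z) ^ 2 ≤ C * ∫ z, v z ^ 2 ∧
      ∫ z, κ (D.H z) ^ 2 * f z ^ 2 ≤ C * ∫ z, v z ^ 2 := by
  have hh : 0 < h₁ := hκ.pos.trans_le hκ.le
  have hsh := D.isCompact_sh h₀ h₁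
  obtain ⟨l, hl, h1⟩ := D.coer D.compact
  obtain ⟨C₁, c1, h2⟩ := apr_id (d := d) D hκ hS
  obtain ⟨C₂, c2, h3⟩ := apr_f (d := d + 1) D.toMet hκ hn D.compact hsh
  obtain ⟨q, hq⟩ : ∃ q, q = 4 * h₁ * (C₁ * C₂ + 1) := ⟨_, rfl⟩
  have q0 : 0 < q := hq ▸ by positivity
  refine ⟨q / l + 4 * h₁ * q, by positivity, fun v f h => ?_⟩
  have hf : ∀ z : Z n, z.1 ∉ {x | D.b x ≤ 0} → f z = 0 := fun z hz => h.suppf z (not_le.1 hz)
  obtain ⟨g, g1, g2, g3⟩ := h2 v f h
  have e1 := pestov_ric D.sm_H h.smv h.hcs hS fun z => by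
    by_cases hz : z ∈ D.sh h₀ h₁ ∧ D.b z.1 < 0
    · exact .inr (hR z hz.1 hz.2)
    · exact .inl fun i => (h.aprB_off hz i).2
  have e2 : l * ∫ z, ∑ i, (dx i v z + ∑ k, S z i k * dp k v z) ^ 2 ≤
      ∫ z, ∑ i, ∑ j, dp i (dp j D.H) z * (dx i v z + ∑ k, S z i k * dp k v z) *
        (dx j v z + ∑ k, S z j k * dp k v z) := by
    rw [← integral_const_mul]
    refine integral_mono ((h.aprB_intD hS).const_mul l) (pest_intg hsh
      (continuous_finsetSum _ fun i _ => continuous_finsetSum _ fun j _ =>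
        (((D.sm_H.dp j).dp i).continuous.mul (aprB_cont hS h.smv i)).mul (aprB_cont hS h.smv j))
      fun z hz => ?_) fun z => ?_
    · simp [fun i => (h.aprB_off (fun e => hz e.1) i).1,
        fun i => (h.aprB_off (fun e => hz e.1) i).2]
    · by_cases hz : z ∈ D.sh h₀ h₁
      · simp only [D.dp_dp_H]
        exact h1 z.1 hz.1 fun i => dx i v z + ∑ k, S z i k * dp k v z
      · simp [fun i => (h.aprB_off (fun e => hz e.1) i).1,
          fun i => (h.aprB_off (fun e => hz e.1) i).2]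
  have e3 := apr_euler D.toMet hκ hn D.compact h.smf h.fp hf
  have e4 := int_mul_le (inv_pos.2 q0) hsh g1 h.smv.continuous h.supp
  have e5 : ∫ z in D.sh h₀ h₁, g z ^ 2 ≤ C₁ * ∫ z in D.sh h₀ h₁, n2 f z := by
    rw [← integral_const_mul]
    exact setIntegral_mono_on ((g1.pow 2).continuousOn.integrableOn_compact hsh)
      ((continuous_const.mul h.smf.n2.continuous).continuousOn.integrableOn_compact hsh)
      hsh.measurableSet g2
  have e6 := mul_le_mul_of_nonneg_left (h3 f h.smf h.fp hf) c1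
  have a0 : 0 ≤ ∫ z, ∑ i, (dx i v z + ∑ k, S z i k * dp k v z) ^ 2 :=
    integral_nonneg fun z => Finset.sum_nonneg fun i _ => sq_nonneg _
  have n0 : 0 ≤ ∫ z, κ (D.H z) ^ 2 * f z ^ 2 := integral_nonneg fun z => by positivity
  have w0 : 0 ≤ ∫ z, v z ^ 2 := integral_nonneg fun z => sq_nonneg _
  rw [e1, g3] at e2
  rw [inv_inv] at e4
  generalize ∫ z, ∑ i, (dx i v z + ∑ k, S z i k * dp k v z) ^ 2 = A at *
  generalize ∫ z, κ (D.H z) ^ 2 * f z ^ 2 = N at *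
  generalize ∫ z, v z ^ 2 = W at *
  generalize ∫ z, κ (D.H z) * deriv κ (D.H z) * f z ^ 2 = E at *
  have e7 : 4 * h₁ * (q⁻¹ * ∫ z in D.sh h₀ h₁, g z ^ 2) ≤ N := by
    refine (mul_le_mul_of_nonneg_left (mul_le_mul_of_nonneg_left (e5.trans e6)
      (inv_pos.2 q0).le) (by positivity)).trans ?_
    rw [mul_left_comm, inv_mul_le_iff₀ q0, hq]
    nlinarith [mul_nonneg hh.le n0]
  have e8 := mul_le_mul_of_nonneg_left (((mul_le_mul_of_nonneg_left (le_abs_self _)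
    zero_le_two)).trans e4) (show 0 ≤ 4 * h₁ by positivity)
  have e9 := mul_le_mul_of_nonneg_left e2 (show 0 ≤ 4 * h₁ by positivity)
  have f1 : 4 * h₁ * (l * A) + N ≤ 4 * h₁ * (q * W) := by linarith
  have f2 : 0 ≤ 4 * h₁ * (l * A) := by positivity
  have f3 : 0 ≤ q / l * W := by positivity
  have f4 : 0 ≤ 4 * h₁ * q * W := by positivity
  have f5 : A ≤ q / l * W := by
    rw [div_mul_eq_mul_div, le_div_iff₀ hl, mul_comm]
    exact le_of_mul_le_mul_left (by linarith) (show 0 < 4 * h₁ by positivity)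
  constructor <;> linarith

/-- Sketch: `br_dp` gives `br H (dp i v) = r i + ∑ B i k * dp k v` with
`r i = dp i (κ f) - ∑ G i j * D j`, `B i k = ∑ G i j * S j k + dx k (dp i H)`; `mult_exp` with
`K = sh`; `∑ r² ≤ C (n2 f + ∑ D²)` on `sh`; `apr_f`. -/
theorem apr_p (D : Dom n) (hn : 0 < n) (hκ : Cut κ h₀ h₁) {S : Z n → Fin n → Fin n → ℝ}
    (hS : ∀ i j, Sm fun z => S z i j) {T : Z n → ℝ} (hT : Sm T)
    (hR : ∀ z ∈ D.sh h₀ h₁, D.b z.1 < 0 → br D.H T z = -1) :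
    ∃ C : ℝ, 0 ≤ C ∧ ∀ v f, KC D d κ h₀ h₁ v f → ∫ z, ∑ i, dp i v z ^ 2 ≤
      C * ((∫ z, ∑ i, (dx i v z + ∑ k, S z i k * dp k v z) ^ 2) +
        ∫ z, κ (D.H z) ^ 2 * f z ^ 2) := by
  have hsh := D.isCompact_sh h₀ h₁
  have sa : Sm fun z => κ (D.H z) := hκ.sm.comp D.sm_H
  have cG : ∀ i j, Continuous (dp i (dp j D.H)) := fun i j => ((D.sm_H.dp j).dp i).continuous
  obtain ⟨C₁, c1, h1⟩ := mult_exp D.sm_H hT hsh
    (B := fun z i k => ∑ j, dp i (dp j D.H) z * S z j k + dx k (dp i D.H) z) fun i k =>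
      (continuous_finsetSum _ fun j _ => (cG i j).mul (hS j k).continuous).add
        ((D.sm_H.dp i).dx k).continuous
  obtain ⟨C₂, c2, h2⟩ := apr_f (d := d + 1) D.toMet hκ hn D.compact hsh
  obtain ⟨M₁, m1, h3⟩ := aprB_bd hsh sa.n1.continuous
  obtain ⟨M₂, m2, h4⟩ := aprB_bd hsh (F := fun z => ∑ i, ∑ j, dp i (dp j D.H) z ^ 2)
    (continuous_finsetSum _ fun i _ => continuous_finsetSum _ fun j _ => (cG i j).pow 2)
  refine ⟨C₁ * (2 * M₂ + 4 * M₁ * C₂), by positivity, fun v f h => ?_⟩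
  have hf : ∀ z : Z n, z.1 ∉ {x | D.b x ≤ 0} → f z = 0 := fun z hz => h.suppf z (not_le.1 hz)
  have cr : ∀ i, Continuous fun z => dp i (br D.H v) z -
      ∑ j, dp i (dp j D.H) z * (dx j v z + ∑ k, S z j k * dp k v z) := fun i =>
    ((D.sm_H.br h.smv).dp i).continuous.sub
      (continuous_finsetSum _ fun j _ => (cG i j).mul (aprB_cont hS h.smv j))
  have e1 := h1 (fun i => dp i v) _ (fun i => h.smv.dp i) cr
    (fun i z hz => (h.aprB_off (fun e => hz e.1) i).2)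
    (fun z => by
      by_cases hz : z ∈ D.sh h₀ h₁ ∧ D.b z.1 < 0
      · exact .inr (hR z hz.1 hz.2)
      · exact .inl fun i => (h.aprB_off hz i).2)
    (fun i z => by
      have e : ∑ k, (∑ j, dp i (dp j D.H) z * S z j k) * dp k v z =
          ∑ j, dp i (dp j D.H) z * ∑ k, S z j k * dp k v z := by
        simp only [Finset.sum_mul, Finset.mul_sum, mul_assoc]
        exact Finset.sum_comm
      rw [br_dp D.sm_H h.smv]
      simp only [add_mul, mul_add, Finset.sum_add_distrib, e]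
      ring)
  have iD := h.aprB_intD hS
  have i2 : IntegrableOn (n2 f) (D.sh h₀ h₁) :=
    h.smf.n2.continuous.continuousOn.integrableOn_compact hsh
  have e2 : ∫ z in D.sh h₀ h₁, ∑ i, (dp i (br D.H v) z -
      ∑ j, dp i (dp j D.H) z * (dx j v z + ∑ k, S z j k * dp k v z)) ^ 2 ≤
      ∫ z in D.sh h₀ h₁, (4 * M₁ * n2 f z +
        2 * M₂ * ∑ i, (dx i v z + ∑ k, S z i k * dp k v z) ^ 2) := by
    refine setIntegral_mono_on ((continuous_finsetSum _ fun i _ =>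
      (cr i).pow 2).continuousOn.integrableOn_compact hsh)
      ((i2.const_mul _).add (iD.integrableOn.const_mul _)) hsh.measurableSet fun z hz => ?_
    refine (Finset.sum_le_sum fun i _ => aprB_sub _ _).trans ?_
    rw [Finset.sum_add_distrib, ← Finset.mul_sum, ← Finset.mul_sum]
    have a1 : ∑ i, dp i (br D.H v) z ^ 2 ≤ 2 * M₁ * n2 f z := by
      rw [funext h.eq]
      refine ((le_add_of_nonneg_left (sq_nonneg _)).trans (n1_mul_le sa h.smf z)).trans ?_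
      exact mul_le_mul (mul_le_mul_of_nonneg_left (h3 z hz) zero_le_two) (n1_le_n2 f z)
        (n1_nonneg f z) (by positivity)
    have a2 : ∑ i, (∑ j, dp i (dp j D.H) z * (dx j v z + ∑ k, S z j k * dp k v z)) ^ 2 ≤
        M₂ * ∑ i, (dx i v z + ∑ k, S z i k * dp k v z) ^ 2 := by
      refine (Finset.sum_le_sum fun i _ => Finset.sum_mul_sq_le_sq_mul_sq _ _ _).trans ?_
      rw [← Finset.sum_mul]
      exact mul_le_mul_of_nonneg_right (h4 z hz) (Finset.sum_nonneg fun i _ => sq_nonneg _)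
    linarith
  rw [integral_add (i2.const_mul _) (iD.integrableOn.const_mul _), integral_const_mul,
    integral_const_mul] at e2
  have e3 := mul_le_mul_of_nonneg_left (h2 f h.smf h.fp hf) (show 0 ≤ 4 * M₁ by positivity)
  have e4 := mul_le_mul_of_nonneg_left (setIntegral_le_integral (s := D.sh h₀ h₁) iD
    (Filter.Eventually.of_forall fun z => Finset.sum_nonneg fun i _ => sq_nonneg _))
    (show 0 ≤ 2 * M₂ by positivity)
  have a0 : 0 ≤ ∫ z, ∑ i, (dx i v z + ∑ k, S z i k * dp k v z) ^ 2 :=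
    integral_nonneg fun z => Finset.sum_nonneg fun i _ => sq_nonneg _
  have n0 : 0 ≤ ∫ z, κ (D.H z) ^ 2 * f z ^ 2 := integral_nonneg fun z => by positivity
  refine e1.trans ?_
  rw [mul_assoc C₁]
  refine mul_le_mul_of_nonneg_left (e2.trans ?_) c1
  nlinarith [mul_nonneg m2 n0, mul_nonneg (mul_nonneg m1 c2) a0]

/-- Sketch: `GF.exists_ric`, `apr_D`, `apr_p`; `br L v = ∑ ξ i * D i - ∑ (ξ i * S i k + dx k L) * dp k v`
with coefficients bounded on `sh`; `apr_f`, `n1_le_n2`. -/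
theorem GF.apriori (P : GF D e) (hn : 0 < n) (hκ : Cut κ h₀ h₁) (h1 : h₁ < e) {ξ : V n → V n}
    (hξ : Sm ξ) {S₀ : Set (Z n)} (hS : IsCompact S₀) : ∃ C : ℝ, 1 ≤ C ∧
      ∀ v f, KC D d κ h₀ h₁ v f →
        ∫ z, br (lin ξ) v z ^ 2 ≤ C * ∫ z, v z ^ 2 ∧ ∫ z in S₀, n1 f z ≤ C * ∫ z, v z ^ 2 := by
  have hsh := D.isCompact_sh h₀ h₁
  have sL := sm_lin hξ
  obtain ⟨T, S, hT, hS', hR⟩ := P.exists_ric hκ.pos h1
  obtain ⟨C₁, c1, k1⟩ := apr_D (d := d) D hn hκ hS' fun z hz hb => (hR z hz hb).2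
  obtain ⟨C₂, c2, k2⟩ := apr_p (d := d) D hn hκ hS' hT fun z hz hb => (hR z hz hb).1
  obtain ⟨C₃, c3, k3⟩ := apr_f (d := d + 1) D.toMet hκ hn D.compact hS
  obtain ⟨M₁, m1, h3⟩ := aprB_bd hsh (F := fun z => ∑ i, dp i (lin ξ) z ^ 2)
    (continuous_finsetSum _ fun i _ => (sL.dp i).continuous.pow 2)
  obtain ⟨M₂, m2, h4⟩ := aprB_bd hsh
    (F := fun z => ∑ k, (∑ i, dp i (lin ξ) z * S z i k + dx k (lin ξ) z) ^ 2)
    (continuous_finsetSum _ fun k _ => ((continuous_finsetSum _ fun i _ =>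
      (sL.dp i).continuous.mul (hS' i k).continuous).add (sL.dx k).continuous).pow 2)
  have p1 : 0 ≤ 2 * M₁ * C₁ + 2 * M₂ * (C₂ * (2 * C₁)) := by positivity
  have p2 : 0 ≤ C₃ * C₁ := by positivity
  refine ⟨1 + (2 * M₁ * C₁ + 2 * M₂ * (C₂ * (2 * C₁))) + C₃ * C₁, by linarith, fun v f h => ?_⟩
  have hf : ∀ z : Z n, z.1 ∉ {x | D.b x ≤ 0} → f z = 0 := fun z hz => h.suppf z (not_le.1 hz)
  obtain ⟨a1, a2⟩ := k1 v f h
  have a3 := k2 v f h
  have w0 : 0 ≤ ∫ z, v z ^ 2 := integral_nonneg fun z => sq_nonneg _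
  have iD := h.aprB_intD hS'
  have ip := h.aprB_intp
  constructor
  · have e1 : ∫ z, br (lin ξ) v z ^ 2 ≤
        ∫ z, (2 * M₁ * ∑ i, (dx i v z + ∑ k, S z i k * dp k v z) ^ 2 +
          2 * M₂ * ∑ i, dp i v z ^ 2) := by
      refine integral_mono_of_nonneg (Filter.Eventually.of_forall fun z => sq_nonneg _)
        ((iD.const_mul _).add (ip.const_mul _)) (Filter.Eventually.of_forall fun z => ?_)
      by_cases hz : z ∈ D.sh h₀ h₁
      · have e : ∑ k, (∑ i, dp i (lin ξ) z * S z i k) * dp k v z =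
            ∑ i, dp i (lin ξ) z * ∑ k, S z i k * dp k v z := by
          simp only [Finset.sum_mul, Finset.mul_sum, mul_assoc]
          exact Finset.sum_comm
        have e' : br (lin ξ) v z =
            ∑ i, dp i (lin ξ) z * (dx i v z + ∑ k, S z i k * dp k v z) -
              ∑ k, (∑ i, dp i (lin ξ) z * S z i k + dx k (lin ξ) z) * dp k v z := by
          simp only [br, add_mul, mul_add, Finset.sum_add_distrib, Finset.sum_sub_distrib, e]
          ring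
        have b1 := (Finset.sum_mul_sq_le_sq_mul_sq _ _ _).trans (mul_le_mul_of_nonneg_right
          (h3 z hz) (Finset.sum_nonneg (s := Finset.univ) fun i _ =>
            sq_nonneg (dx i v z + ∑ k, S z i k * dp k v z)))
        have b2 := (Finset.sum_mul_sq_le_sq_mul_sq _ _ _).trans (mul_le_mul_of_nonneg_right
          (h4 z hz) (Finset.sum_nonneg (s := Finset.univ) fun i _ => sq_nonneg (dp i v z)))
        change br (lin ξ) v z ^ 2 ≤ _
        rw [e']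
        refine (aprB_sub _ _).trans ?_
        linarith
      · simp [br, fun i => (h.aprB_off (fun e => hz e.1) i).1,
          fun i => (h.aprB_off (fun e => hz e.1) i).2]
    rw [integral_add (iD.const_mul _) (ip.const_mul _), integral_const_mul,
      integral_const_mul] at e1
    have e2 := mul_le_mul_of_nonneg_left a1 (show 0 ≤ 2 * M₁ by positivity)
    have e3 := mul_le_mul_of_nonneg_left (a3.trans (mul_le_mul_of_nonneg_left (add_le_add a1 a2) c2))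
      (show 0 ≤ 2 * M₂ by positivity)
    nlinarith [mul_nonneg p2 w0]
  · have e1 : ∫ z in S₀, n1 f z ≤ ∫ z in S₀, n2 f z :=
      setIntegral_mono_on (h.smf.n1.continuous.continuousOn.integrableOn_compact hS)
        (h.smf.n2.continuous.continuousOn.integrableOn_compact hS) hS.measurableSet
        fun z _ => n1_le_n2 f z
    have e2 := (k3 f h.smf h.fp hf).trans (mul_le_mul_of_nonneg_left a2 c3)
    nlinarith [mul_nonneg p1 w0]

theorem KC.iter {ξ : V n → V n} {v f : Z n → ℝ} (h : KC D d κ h₀ h₁ v f) (hK : Kil D ξ)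
    (hκ : Sm κ) (N : ℕ) : KC D d κ h₀ h₁ ((br (lin ξ))^[N] v) ((br (lin ξ))^[N] f) := by
  induction N with
  | zero => exact h
  | succ N ih =>
    rw [Function.iterate_succ_apply', Function.iterate_succ_apply']
    exact ih.step hK hκ

theorem GF.apriori_iter (P : GF D e) (hn : 0 < n) (hκ : Cut κ h₀ h₁) (h1 : h₁ < e)
    {ξ : V n → V n} (hK : Kil D ξ) {S₀ : Set (Z n)} (hS : IsCompact S₀) : ∃ C : ℝ, 1 ≤ C ∧
      ∀ v f, KC D d κ h₀ h₁ v f → ∀ N : ℕ,
        ∫ z, (br (lin ξ))^[N] v z ^ 2 ≤ (∫ z, v z ^ 2) * C ^ N ∧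
        ∫ z in S₀, n1 ((br (lin ξ))^[N] f) z ≤ (C * ∫ z, v z ^ 2) * C ^ N := by
  obtain ⟨C, hC, h⟩ := P.apriori (d := d) hn hκ h1 hK.sm hS
  have c0 : 0 ≤ C := zero_le_one.trans hC
  refine ⟨C, hC, fun v f k => ?_⟩
  have key : ∀ N : ℕ, ∫ z, (br (lin ξ))^[N] v z ^ 2 ≤ (∫ z, v z ^ 2) * C ^ N := fun N => by
    induction N with
    | zero => simp
    | succ N ih =>
      rw [Function.iterate_succ_apply']
      refine (h _ _ (k.iter hK hκ.sm N)).1.trans ((mul_le_mul_of_nonneg_left ih c0).trans_eq ?_)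
      ring
  refine fun N => ⟨key N, (h _ _ (k.iter hK hκ.sm N)).2.trans
    ((mul_le_mul_of_nonneg_left (key N) c0).trans_eq ?_)⟩
  ring

end Pool.Agent.Lib.MP_45f3cb_gt
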