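import Pool.Agent.Lib.MP_45f3cb_gt.Stmt

/-!
Phase space `Z n = V n × V n` with canonical coordinates `(x, p)`; Poisson calculus, fibrewise
polynomials, flows, the Hamiltonian form of a simple domain, the classes used in the proof.
-/

open Set MeasureTheory

namespace Pool.Agent.Lib.MP_45f3cb_gt

/-- phase space -/
abbrev Z (n : ℕ) : Type := V n × V n

/-- smooth -/
abbrev Sm {E F : Type} [NormedAddCommGroup E] [NormedSpace ℝ E] [NormedAddCommGroup F]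
    [NormedSpace ℝ F] (f : E → F) : Prop := ContDiff ℝ (⊤ : ℕ∞) f

/-- `Φ` is the smooth global flow of the smooth Lipschitz field `Y` -/
structure IsFlow {E : Type} [NormedAddCommGroup E] [NormedSpace ℝ E] (Y : E → E)
    (Φ : ℝ → E → E) : Prop where
  smY : Sm Y
  lip : ∃ K, LipschitzWith K Y
  sm : Sm fun q : ℝ × E => Φ q.1 q.2
  zero : ∀ z, Φ 0 z = z
  der : ∀ z t, HasDerivAt (fun r => Φ r z) (Y (Φ t z)) t

variable {n : ℕ}

/-- derivative in `x_i` -/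
noncomputable def dx (i : Fin n) (F : Z n → ℝ) (z : Z n) : ℝ := fderiv ℝ F z (Pi.single i 1, 0)

/-- derivative in `p_i` -/
noncomputable def dp (i : Fin n) (F : Z n → ℝ) (z : Z n) : ℝ := fderiv ℝ F z (0, Pi.single i 1)

/-- derivative of `F` along the Hamiltonian field of `a` -/
noncomputable def br (a F : Z n → ℝ) (z : Z n) : ℝ :=
  ∑ i, (dp i a z * dx i F z - dx i a z * dp i F z)

/-- the Hamiltonian field of `a` -/
noncomputable def hv (a : Z n → ℝ) (z : Z n) : Z n := (fun i => dp i a z, fun i => -dx i a z)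

/-- homogeneous polynomial functions of degree `d` -/
def HP (n d : ℕ) : Submodule ℝ (V n → ℝ) :=
  Submodule.span ℝ (range fun a : Fin d → Fin n => fun p : V n => ∏ j, p (a j))

/-- `F` is a homogeneous polynomial of degree `d` on every fibre -/
def FP (d : ℕ) (F : Z n → ℝ) : Prop := ∀ x, (fun p => F (x, p)) ∈ HP n d

/-- the support in `p` is locally bounded -/
def LB (F : Z n → ℝ) : Prop :=
  ∀ x₀ : V n, ∃ R : ℝ, ∀ᶠ x in nhds x₀, ∀ p : V n, R < ‖p‖ → F (x, p) = 0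

/-- every fibre of `F` is orthogonal to `HP n d` -/
def Orth (d : ℕ) (F : Z n → ℝ) : Prop := ∀ x, ∀ q ∈ HP n d, ∫ p, F (x, p) * q p = 0

/-- a co-metric `G` with inverse `g` -/
structure Met (n : ℕ) where
  G : V n → Fin n → Fin n → ℝ
  g : V n → Fin n → Fin n → ℝ
  smG : ∀ i j, Sm fun x => G x i j
  smg : ∀ i j, Sm fun x => g x i j
  symG : ∀ x i j, G x i j = G x j i
  symg : ∀ x i j, g x i j = g x j i
  inv : ∀ x i j, ∑ k, g x i k * G x k j = if i = j then 1 else 0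
  pos : ∀ x p : V n, p ≠ 0 → 0 < ∑ i, ∑ j, G x i j * p i * p j

/-- the geodesic Hamiltonian -/
noncomputable def Met.H (A : Met n) (z : Z n) : ℝ := (1 / 2) * ∑ i, ∑ j, A.G z.1 i j * z.2 i * z.2 j

/-- `c` is an integral curve of the Hamiltonian field of `a` on `s` -/
def Traj (a : Z n → ℝ) (c : ℝ → Z n) (s : Set ℝ) : Prop := ∀ t ∈ s, HasDerivAt c (hv a (c t)) t

/-- Hamiltonian form of a simple domain `M = {b ≤ 0}` -/
structure Dom (n : ℕ) extends Met n where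
  b : V n → ℝ
  smb : Sm b
  compact : IsCompact {x | b x ≤ 0}
  regular : ∀ x, b x = 0 → fderiv ℝ b x ≠ 0
  convex : ∀ z : Z n, b z.1 = 0 → z.2 ≠ 0 → br toMet.H (fun w => b w.1) z = 0 →
    0 < br toMet.H (br toMet.H fun w => b w.1) z
  nontrap : ∀ c, Traj toMet.H c (Ici 0) → (c 0).2 ≠ 0 → ∃ t : ℝ, 0 ≤ t ∧ 0 < b (c t).1
  noconj : ∀ (c Y : ℝ → Z n) (T : ℝ), 0 < T → Traj toMet.H c (Icc 0 T) →
    (∀ t ∈ Icc 0 T, b (c t).1 ≤ 0) → (c 0).2 ≠ 0 →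
    (∀ t ∈ Icc 0 T, HasDerivAt Y (fderiv ℝ (hv toMet.H) (c t) (Y t)) t) → (Y 0).1 = 0 →
    (Y T).1 = 0 → ∀ t ∈ Icc 0 T, Y t = 0
  join : ∀ x y, b x ≤ 0 → b y ≤ 0 → ∃ c, Traj toMet.H c (Icc 0 1) ∧
    (∀ t ∈ Icc (0 : ℝ) 1, b (c t).1 ≤ 0) ∧ (c 0).1 = x ∧ (c 1).1 = y

/-- derivative of the boundary function along the geodesic flow -/
noncomputable def Dom.ell (D : Dom n) : Z n → ℝ := br D.H fun w => D.b w.1

/-- the part of phase space over `M` with energy in `[h₀, h₁]` -/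
def Dom.sh (D : Dom n) (h₀ h₁ : ℝ) : Set (Z n) := {z | D.b z.1 ≤ 0 ∧ D.H z ∈ Icc h₀ h₁}

/-- the integral of `F` vanishes over all trajectories in `M` with end points on the boundary -/
def Dom.Seg (D : Dom n) (F : Z n → ℝ) : Prop :=
  ∀ (c : ℝ → Z n) (T : ℝ), 0 < T → Traj D.H c (Icc 0 T) → (∀ t ∈ Icc 0 T, D.b (c t).1 ≤ 0) →
    D.b (c 0).1 = 0 → D.b (c T).1 = 0 → (c 0).2 ≠ 0 → ∫ t in (0 : ℝ)..T, F (c t) = 0

/-- a complete flow that is the geodesic flow near `M` below the energy `e` -/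
structure GF (D : Dom n) (e : ℝ) where
  Y : Z n → Z n
  Φ : ℝ → Z n → Z n
  R : ℝ
  flow : IsFlow Y Φ
  ener : ∀ t z, D.H (Φ t z) = D.H z
  ball : ∀ x, D.b x ≤ 0 → ‖x‖ < R
  eqY : ∀ z : Z n, ‖z.1‖ < R → D.H z < e → Y z = hv D.H z
  rev : ∀ t z, Φ (-t) (z.1, -z.2) = ((Φ t z).1, -(Φ t z).2)

/-- forward exit time -/
noncomputable def GF.ex {D : Dom n} {e : ℝ} (P : GF D e) (z : Z n) : ℝ :=
  sSup {t | 0 ≤ t ∧ ∀ s ∈ Icc 0 t, D.b (P.Φ s z).1 ≤ 0}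

/-- the solution of the transport equation that vanishes at the exit -/
noncomputable def GF.sol {D : Dom n} {e : ℝ} (P : GF D e) (F : Z n → ℝ) (z : Z n) : ℝ :=
  if D.b z.1 ≤ 0 then -∫ t in (0 : ℝ)..P.ex z, F (P.Φ t z) else 0

/-- the momentum `p(ξ)` -/
def lin (ξ : V n → V n) (z : Z n) : ℝ := ∑ i, z.2 i * ξ z.1 i

/-- the covector dual to `ξ` -/
def Met.fl (A : Met n) (ξ : V n → V n) (x : V n) : V n := fun i => ∑ j, A.g x i j * ξ x j

/-- `|ξ|² / 2` -/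
noncomputable def Met.rho (A : Met n) (ξ : V n → V n) (x : V n) : ℝ :=
  (1 / 2) * ∑ i, A.fl ξ x i * ξ x i

/-- the invariant phase `p(ξ) - H` -/
noncomputable def Met.psi (A : Met n) (ξ : V n → V n) (z : Z n) : ℝ := lin ξ z - A.H z

/-- `|p - ξ♭|² / 2` -/
noncomputable def Met.sig (A : Met n) (ξ : V n → V n) (z : Z n) : ℝ := A.rho ξ z.1 - A.psi ξ z

/-- the multiplier `ψ_x · ψ_p` -/
noncomputable def Met.mu (A : Met n) (ξ : V n → V n) (z : Z n) : ℝ :=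
  ∑ i, dx i (A.psi ξ) z * dp i (A.psi ξ) z

/-- `ξ` is a Killing field on `M` -/
structure Kil (D : Dom n) (ξ : V n → V n) : Prop where
  sm : Sm ξ
  kil : ∀ z : Z n, D.b z.1 ≤ 0 → br D.H (lin ξ) z = 0

/-- an energy cut-off supported in `[h₀, h₁]` -/
structure Cut (κ : ℝ → ℝ) (h₀ h₁ : ℝ) : Prop where
  sm : Sm κ
  pos : 0 < h₀
  supp : ∀ s, s ∉ Icc h₀ h₁ → κ s = 0
  ne : ∃ s, κ s ≠ 0

/-- the gauge fixed kernel: `X v = κ(H) f`, `κ(H) v` orthogonal to `HP n d` -/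
structure KC (D : Dom n) (d : ℕ) (κ : ℝ → ℝ) (h₀ h₁ : ℝ) (v f : Z n → ℝ) : Prop where
  smv : Sm v
  smf : Sm f
  fp : FP (d + 1) f
  supp : ∀ z, z ∉ D.sh h₀ h₁ → v z = 0
  suppf : ∀ z : Z n, 0 < D.b z.1 → f z = 0
  eq : ∀ z, br D.H v z = κ (D.H z) * f z
  orth : Orth d fun z => κ (D.H z) * v z

/-- the class to which the Carleman estimate is applied -/
structure CC (A : Met n) (ξ : V n → V n) (d : ℕ) (K : Set (V n)) (η : ℝ → ℝ) (c δ : ℝ)
    (U F : Z n → ℝ) : Prop where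
  smU : Sm U
  smF : Sm F
  fp : FP (d + 1) F
  supp : ∀ z, U z ≠ 0 → z.1 ∈ K ∧ c - 2 * δ ≤ A.psi ξ z ∧ A.rho ξ z.1 ≤ c + 2 * δ
  suppF : ∀ z, F z ≠ 0 → z.1 ∈ K ∧ A.rho ξ z.1 ≤ c + 2 * δ
  eq : ∀ z, br A.H U z = η (A.psi ξ z) * F z

/-- all elements of the gauge fixed kernel are polynomial on `{ψ > c}` -/
def Claim (D : Dom n) (ξ : V n → V n) (d : ℕ) (κ : ℝ → ℝ) (h₀ h₁ c : ℝ) : Prop :=
  ∀ v f, KC D d κ h₀ h₁ v f → ∀ x, ∃ q ∈ HP n d, ∀ p, c < D.psi ξ (x, p) → v (x, p) = q p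

end Pool.Agent.Lib.MP_45f3cb_gt
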