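import Pool.Agent.Lib.MP_45f3cb_gt.Base

/-!
Definitions for the Carleman estimate, the layer stripping and the Legendre transform.
-/

open Set MeasureTheory

namespace Pool.Agent.Lib.MP_45f3cb_gt

variable {n : ℕ}

/-- square of the first order fibre jet -/
noncomputable def n1 (F : Z n → ℝ) (z : Z n) : ℝ := F z ^ 2 + ∑ i, dp i F z ^ 2

/-- square of the second order fibre jet -/
noncomputable def n2 (F : Z n → ℝ) (z : Z n) : ℝ :=
  F z ^ 2 + ∑ i, dp i F z ^ 2 + ∑ i, ∑ j, dp i (dp j F) z ^ 2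

/-- the tube around the graph of `fl` over `K` -/
def Met.tube (A : Met n) (ξ : V n → V n) (K : Set (V n)) (r : ℝ) : Set (Z n) :=
  {z | z.1 ∈ K ∧ A.sig ξ z ≤ r}

/-- the Carleman weight -/
noncomputable def Met.W (A : Met n) (ξ : V n → V n) (τ : ℝ) (z : Z n) : ℝ :=
  Real.exp (τ * A.psi ξ z)

/-- the weighted norm on the core of the tube -/
noncomputable def Met.Bq (A : Met n) (ξ : V n → V n) (K : Set (V n)) (τ : ℝ) (f : Z n → ℝ) : ℝ :=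
  ∫ z in A.tube ξ K τ⁻¹, A.W ξ τ z ^ 2 * f z ^ 2

/-- the weighted norm of the error -/
noncomputable def Met.Er (A : Met n) (ξ : V n → V n) (K : Set (V n)) (r τ : ℝ) (u : Z n → ℝ) : ℝ :=
  ∫ z in A.tube ξ K r, A.W ξ τ z ^ 2 * n1 u z

/-- the hypotheses on the compact set `K` for the Carleman estimate -/
structure Good (A : Met n) (ξ : V n → V n) (K : Set (V n)) : Prop where
  cpt : IsCompact K
  sm : Sm ξ
  inv : ∀ z : Z n, z.1 ∈ K → br A.H (lin ξ) z = 0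
  rho : ∀ z : Z n, z.1 ∈ K → br (lin ξ) (fun w => A.rho ξ w.1) z = 0
  pos : ∀ x ∈ K, 0 < -br A.H (A.mu ξ) (x, A.fl ξ x)

/-- the data of the weighted identity -/
structure CD (A : Met n) (ξ : V n → V n) (d : ℕ) (K : Set (V n)) (r τ : ℝ) (U f u : Z n → ℝ) :
    Prop where
  smU : Sm U
  smf : Sm f
  smu : Sm u
  fp : FP (d + 1) f
  supp : ∀ z, z ∉ A.tube ξ K r → U z = 0
  eq : ∀ z, br A.H U z = A.W ξ τ z * (f z + u z)
  orth : Orth d fun z => A.W ξ τ z * U z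

/-- the cut-off in `sig` -/
structure Th (θ : ℝ → ℝ) (r : ℝ) : Prop where
  sm : Sm θ
  nonneg : ∀ s, 0 ≤ θ s
  le_one : ∀ s, θ s ≤ 1
  one : ∀ s, s ≤ r / 2 → θ s = 1
  zero : ∀ s, r ≤ s → θ s = 0

/-- `h` is the fibre projection of `v` for the weight `ω` -/
structure PD (d : ℕ) (ω v h : Z n → ℝ) : Prop where
  sm : Sm h
  fp : FP d h
  orth : Orth d fun z => ω z * v z - ω z * h z

/-- the cut-offs of one layer -/
structure LC (β χ η ζ : ℝ → ℝ) (c₀ c δ : ℝ) : Prop where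
  smβ : Sm β
  smχ : Sm χ
  smη : Sm η
  smζ : Sm ζ
  β0 : ∀ s, 0 ≤ β s
  β1 : ∀ s, β s ≤ 1
  βpos : 0 < β 0
  βzero : ∀ s, δ / 2 ≤ s → β s = 0
  χzero : ∀ s, s ≤ c + δ / 2 → χ s = 0
  χone : ∀ s, c + δ ≤ s → χ s = 1
  ηzero : ∀ s, s ≤ c - 2 * δ → η s = 0
  ηone : ∀ s, c - δ ≤ s → η s = 1
  ζzero : ∀ s, s ≤ c₀ / 2 → ζ s = 0
  ζone : ∀ s, 2 * c₀ / 3 ≤ s → ζ s = 1

/-- the localised solution of one layer -/
noncomputable def layU (A : Met n) (ξ : V n → V n) (χ η : ℝ → ℝ) (v h : Z n → ℝ) (z : Z n) : ℝ :=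
  η (A.psi ξ z) * (v z - χ (A.rho ξ z.1) * h z)

/-- the source of one layer -/
noncomputable def layF (A : Met n) (ξ : V n → V n) (χ ζ : ℝ → ℝ) (f h : Z n → ℝ) (z : Z n) : ℝ :=
  ζ (A.rho ξ z.1) *
    ((1 - χ (A.rho ξ z.1)) * f z - br A.H (fun w => χ (A.rho ξ w.1)) z * h z)

/-- the points whose orbit stays in `M` -/
def Dom.Mst (D : Dom n) (θ : ℝ → V n → V n) : Set (V n) := {x | ∀ s, D.b (θ s x) ≤ 0}

/-- a segment over `M` with both ends in the tube has its maximum of `rho` at an end -/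
def GF.Dip {D : Dom n} {e : ℝ} (P : GF D e) (ξ : V n → V n) (K : Set (V n)) (δ₀ : ℝ) : Prop :=
  ∀ (z : Z n) (T : ℝ), 0 ≤ T → (∀ t ∈ Icc 0 T, D.b (P.Φ t z).1 ≤ 0) → z ∈ D.tube ξ K δ₀ →
    P.Φ T z ∈ D.tube ξ K δ₀ → ∀ t ∈ Icc 0 T,
      D.rho ξ (P.Φ t z).1 ≤ max (D.rho ξ z.1) (D.rho ξ (P.Φ T z).1)

/-- raising the index -/
def Met.up (A : Met n) (z : Z n) : Z n := (z.1, fun i => ∑ j, A.G z.1 i j * z.2 j)

/-- lowering the index -/
def Met.dn (A : Met n) (z : Z n) : Z n := (z.1, fun i => ∑ j, A.g z.1 i j * z.2 j)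

end Pool.Agent.Lib.MP_45f3cb_gt
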