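import Pool.Agent.Lib.MP_45f3cb_gt.Jac

/-!
Formulas and uniform bounds for `H`, `lin ξ`, `rho`, `psi`, `sig`, `mu`.
-/

open Set MeasureTheory

namespace Pool.Agent.Lib.MP_45f3cb_gt

variable {n : ℕ} (A : Met n) {ξ : V n → V n}

theorem Met.inv' (x : V n) (i j : Fin n) :
    ∑ k, A.G x i k * A.g x k j = if i = j then 1 else 0 := by
  have h := A.inv x j i
  rw [if_congr (eq_comm (a := i) (b := j)) rfl rfl, ← h]
  exact Finset.sum_congr rfl fun k _ => by rw [A.symG x i k, A.symg x k j, mul_comm]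

theorem MetF_coord (i : Fin n) : Sm fun z : Z n => z.2 i := (contDiff_apply ℝ ℝ i).comp contDiff_snd

theorem MetF_G (i j : Fin n) : Sm fun z : Z n => A.G z.1 i j := (A.smG i j).comp contDiff_fst

theorem MetF_xi (hξ : Sm ξ) (i : Fin n) : Sm fun x => ξ x i := contDiff_pi.1 hξ i

theorem MetF_xi' (hξ : Sm ξ) (i : Fin n) : Sm fun z : Z n => ξ z.1 i :=
  (MetF_xi hξ i).comp contDiff_fst

theorem MetF_term (i j : Fin n) : Sm fun z : Z n => A.G z.1 i j * z.2 i * z.2 j :=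
  ((MetF_G A i j).mul (MetF_coord i)).mul (MetF_coord j)

theorem MetF_row (i : Fin n) : Sm fun z : Z n => ∑ j, A.G z.1 i j * z.2 i * z.2 j :=
  ContDiff.sum fun j _ => MetF_term A i j

theorem MetF_all : Sm fun z : Z n => ∑ i, ∑ j, A.G z.1 i j * z.2 i * z.2 j :=
  ContDiff.sum fun i _ => MetF_row A i

theorem Met.sm_H : Sm A.H := by
  exact contDiff_const.mul (MetF_all A)

theorem sm_lin (hξ : Sm ξ) : Sm (lin ξ) := by
  exact ContDiff.sum fun i _ => (MetF_coord i).mul (MetF_xi' hξ i)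

theorem Met.sm_fl (hξ : Sm ξ) : Sm (A.fl ξ) := by
  exact contDiff_pi.2 fun i => ContDiff.sum fun j _ => (A.smg i j).mul (MetF_xi hξ j)

theorem Met.sm_rho (hξ : Sm ξ) : Sm (A.rho ξ) := by
  exact contDiff_const.mul
    (ContDiff.sum fun i _ => (MetF_xi (A.sm_fl hξ) i).mul (MetF_xi hξ i))

theorem Met.sm_psi (hξ : Sm ξ) : Sm (A.psi ξ) := by
  exact ContDiff.sub (sm_lin hξ) A.sm_H

theorem Met.sm_sig (hξ : Sm ξ) : Sm (A.sig ξ) := by
  exact ContDiff.sub ((A.sm_rho hξ).comp contDiff_fst) (A.sm_psi hξ)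

theorem Met.sm_mu (hξ : Sm ξ) : Sm (A.mu ξ) := by
  exact ContDiff.sum fun i _ => ContDiff.mul ((A.sm_psi hξ).dx i) ((A.sm_psi hξ).dp i)

theorem Met.dp_H (i : Fin n) (z : Z n) : dp i A.H z = ∑ j, A.G z.1 i j * z.2 j := by
  have h1 : ∀ j k, dp i (fun w : Z n => A.G w.1 j k * w.2 j * w.2 k) z =
      (if i = j then A.G z.1 j k * z.2 k else 0) + (if i = k then A.G z.1 j k * z.2 j else 0) := by
    intro j k
    rw [dp_mul (Sm.dAt ((MetF_G A j k).mul (MetF_coord j)) z) ((MetF_coord k).dAt z),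
      dp_mul ((MetF_G A j k).dAt z) ((MetF_coord j).dAt z), dp_fst (fun x => A.G x j k),
      dp_coord, dp_coord]
    split_ifs <;> ring
  have h2 : dp i A.H z = dp i (fun w : Z n => (1 / 2 : ℝ) *
      ∑ j, ∑ k, A.G w.1 j k * w.2 j * w.2 k) z := rfl
  rw [h2, dp_mul (differentiableAt_const _) ((MetF_all A).dAt z), dp_const,
    dp_sum fun j _ => (MetF_row A j).dAt z,
    Finset.sum_congr rfl fun j _ => dp_sum fun k _ => (MetF_term A j k).dAt z]
  simp only [h1, Finset.sum_add_distrib]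
  rw [Finset.sum_comm (f := fun j k => if i = j then A.G z.1 j k * z.2 k else 0)]
  simp only [Finset.sum_ite_eq, Finset.mem_univ, if_true]
  rw [Finset.sum_congr rfl fun j _ => (by rw [A.symG z.1 j i] :
    A.G z.1 j i * z.2 j = A.G z.1 i j * z.2 j)]
  ring

theorem Met.dp_dp_H (i j : Fin n) (z : Z n) : dp i (dp j A.H) z = A.G z.1 i j := by
  have h1 : dp j A.H = fun w : Z n => ∑ k, A.G w.1 j k * w.2 k := funext (A.dp_H j)
  have h2 : ∀ k, dp i (fun w : Z n => A.G w.1 j k * w.2 k) z =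
      if i = k then A.G z.1 j k else 0 := by
    intro k
    rw [dp_mul ((MetF_G A j k).dAt z) ((MetF_coord k).dAt z), dp_fst (fun x => A.G x j k),
      dp_coord]
    split_ifs <;> ring
  rw [h1, dp_sum fun k _ => Sm.dAt ((MetF_G A j k).mul (MetF_coord k)) z]
  simp only [h2, Finset.sum_ite_eq, Finset.mem_univ, if_true]
  exact A.symG _ _ _

theorem Met.dx_H (i : Fin n) (z : Z n) :
    dx i A.H z = (1 / 2) * ∑ j, ∑ k, pd i (fun x => A.G x j k) z.1 * z.2 j * z.2 k := by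
  have h1 : ∀ j k, dx i (fun w : Z n => A.G w.1 j k * w.2 j * w.2 k) z =
      pd i (fun x => A.G x j k) z.1 * z.2 j * z.2 k := by
    intro j k
    rw [dx_mul (Sm.dAt ((MetF_G A j k).mul (MetF_coord j)) z) ((MetF_coord k).dAt z),
      dx_mul ((MetF_G A j k).dAt z) ((MetF_coord j).dAt z),
      dx_fst (u := fun x => A.G x j k) ((A.smG j k).dAt z.1), dx_coord, dx_coord]
    ring
  have h2 : dx i A.H z = dx i (fun w : Z n => (1 / 2 : ℝ) *
      ∑ j, ∑ k, A.G w.1 j k * w.2 j * w.2 k) z := rfl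
  rw [h2, dx_mul (differentiableAt_const _) ((MetF_all A).dAt z), dx_const,
    dx_sum fun j _ => (MetF_row A j).dAt z,
    Finset.sum_congr rfl fun j _ => dx_sum fun k _ => (MetF_term A j k).dAt z]
  simp only [h1]
  ring

theorem Met.euler_H (z : Z n) : ∑ i, z.2 i * dp i A.H z = 2 * A.H z := by
  simp only [A.dp_H, Met.H, Finset.mul_sum]
  exact Finset.sum_congr rfl fun i _ => Finset.sum_congr rfl fun j _ => by ring

theorem dp_lin (hξ : Sm ξ) (i : Fin n) (z : Z n) : dp i (lin ξ) z = ξ z.1 i := by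
  have h2 : ∀ k, dp i (fun w : Z n => w.2 k * ξ w.1 k) z = if i = k then ξ z.1 k else 0 := by
    intro k
    rw [dp_mul ((MetF_coord k).dAt z) ((MetF_xi' hξ k).dAt z), dp_fst (fun x => ξ x k), dp_coord]
    split_ifs <;> ring
  have h1 : dp i (lin ξ) z = dp i (fun w : Z n => ∑ k, w.2 k * ξ w.1 k) z := rfl
  rw [h1, dp_sum fun k _ => Sm.dAt ((MetF_coord k).mul (MetF_xi' hξ k)) z]
  simp only [h2, Finset.sum_ite_eq, Finset.mem_univ, if_true]

theorem dx_lin (hξ : Sm ξ) (i : Fin n) (z : Z n) :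
    dx i (lin ξ) z = ∑ j, z.2 j * pd i (fun x => ξ x j) z.1 := by
  have h2 : ∀ k, dx i (fun w : Z n => w.2 k * ξ w.1 k) z =
      z.2 k * pd i (fun x => ξ x k) z.1 := by
    intro k
    rw [dx_mul ((MetF_coord k).dAt z) ((MetF_xi' hξ k).dAt z),
      dx_fst (u := fun x => ξ x k) ((MetF_xi hξ k).dAt z.1), dx_coord]
    ring
  have h1 : dx i (lin ξ) z = dx i (fun w : Z n => ∑ k, w.2 k * ξ w.1 k) z := rfl
  rw [h1, dx_sum fun k _ => Sm.dAt ((MetF_coord k).mul (MetF_xi' hξ k)) z]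
  simp only [h2]

theorem Met.H_smul (x p : V n) (r : ℝ) : A.H (x, r • p) = r ^ 2 * A.H (x, p) := by
  simp only [Met.H, Finset.mul_sum, Pi.smul_apply, smul_eq_mul]
  exact Finset.sum_congr rfl fun i _ => Finset.sum_congr rfl fun j _ => by ring

theorem Met.H_nonneg (z : Z n) : 0 ≤ A.H z := by
  by_cases h : z.2 = 0
  · simp [Met.H, h]
  · exact mul_nonneg (by norm_num) (A.pos z.1 z.2 h).le

theorem Met.H_pos {z : Z n} (h : z.2 ≠ 0) : 0 < A.H z := by
  exact mul_pos (by norm_num) (A.pos z.1 z.2 h)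

theorem Met.ne_of_H_pos {z : Z n} (h : 0 < A.H z) : z.2 ≠ 0 := by
  intro h0
  simp [Met.H, h0] at h

theorem Met.hv_smul (x p : V n) (r : ℝ) :
    hv A.H (x, r • p) = (r • (hv A.H (x, p)).1, r ^ 2 • (hv A.H (x, p)).2) := by
  refine Prod.ext (funext fun i => ?_) (funext fun i => ?_)
  · simp only [hv, A.dp_H, Pi.smul_apply, smul_eq_mul, Finset.mul_sum]
    exact Finset.sum_congr rfl fun j _ => by ring
  · simp only [hv, A.dx_H, Pi.smul_apply, smul_eq_mul, mul_neg, neg_inj, Finset.mul_sum]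
    exact Finset.sum_congr rfl fun j _ => Finset.sum_congr rfl fun k _ => by ring

/-- every positive energy is attained in every fibre -/
theorem Met.exists_H (hn : 0 < n) (x : V n) {s : ℝ} (hs : 0 ≤ s) : ∃ p, A.H (x, p) = s := by
  have h0 : (fun _ => 1 : V n) ≠ 0 := fun h => one_ne_zero (congrFun h ⟨0, hn⟩)
  have h1 : 0 < A.H (x, fun _ => 1) := A.H_pos h0
  refine ⟨Real.sqrt (s / A.H (x, fun _ => 1)) • fun _ => 1, ?_⟩
  rw [A.H_smul, Real.sq_sqrt (div_nonneg hs h1.le), div_mul_cancel₀ _ h1.ne']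

theorem Met.G_fl (x : V n) (i : Fin n) : ∑ j, A.G x i j * A.fl ξ x j = ξ x i := by
  simp only [Met.fl, Finset.mul_sum]
  rw [Finset.sum_comm]
  simp only [← mul_assoc, ← Finset.sum_mul, A.inv', ite_mul, one_mul, zero_mul, Finset.sum_ite_eq,
    Finset.mem_univ, if_true]

theorem MetF_right (x p : V n) :
    ∑ i, ∑ j, A.G x i j * p i * A.fl ξ x j = ∑ i, p i * ξ x i := by
  refine Finset.sum_congr rfl fun i _ => ?_
  rw [← A.G_fl (ξ := ξ) x i, Finset.mul_sum]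
  exact Finset.sum_congr rfl fun j _ => by ring

theorem MetF_left (x p : V n) :
    ∑ i, ∑ j, A.G x i j * A.fl ξ x i * p j = ∑ i, p i * ξ x i := by
  rw [← MetF_right A x p, Finset.sum_comm]
  exact Finset.sum_congr rfl fun i _ => Finset.sum_congr rfl fun j _ => by
    rw [A.symG x j i]; ring

theorem Met.sig_eq (z : Z n) : A.sig ξ z = A.H (z.1, z.2 - A.fl ξ z.1) := by
  have h1 : ∑ i, ∑ j, A.G z.1 i j * (z.2 i - A.fl ξ z.1 i) * (z.2 j - A.fl ξ z.1 j) =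
      ∑ i, ∑ j, A.G z.1 i j * z.2 i * z.2 j - ∑ i, ∑ j, A.G z.1 i j * z.2 i * A.fl ξ z.1 j -
        ∑ i, ∑ j, A.G z.1 i j * A.fl ξ z.1 i * z.2 j +
        ∑ i, ∑ j, A.G z.1 i j * A.fl ξ z.1 i * A.fl ξ z.1 j := by
    simp only [← Finset.sum_sub_distrib, ← Finset.sum_add_distrib]
    exact Finset.sum_congr rfl fun i _ => Finset.sum_congr rfl fun j _ => by ring
  rw [MetF_right, MetF_left, MetF_right] at h1
  simp only [Met.sig, Met.psi, Met.rho, Met.H, lin, Pi.sub_apply]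
  rw [h1]
  ring

theorem Met.rho_eq (x : V n) : A.rho ξ x = A.H (x, A.fl ξ x) := by
  simp only [Met.rho, Met.H]
  rw [MetF_right]

theorem Met.sig_nonneg (z : Z n) : 0 ≤ A.sig ξ z := by
  rw [A.sig_eq]
  exact A.H_nonneg _

theorem Met.sig_fl (x : V n) : A.sig ξ (x, A.fl ξ x) = 0 := by
  rw [A.sig_eq]
  simp [Met.H]

theorem Met.eq_fl_of_sig {z : Z n} (h : A.sig ξ z = 0) : z.2 = A.fl ξ z.1 := by
  by_contra h1
  rw [A.sig_eq] at h
  exact (A.H_pos (z := (z.1, z.2 - A.fl ξ z.1)) (sub_ne_zero.2 h1)).ne' h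

theorem Met.rho_pos {x : V n} (h : ξ x ≠ 0) : 0 < A.rho ξ x := by
  rw [A.rho_eq]
  refine A.H_pos fun h0 => h (funext fun i => ?_)
  have h1 : A.fl ξ x = 0 := h0
  rw [← A.G_fl (ξ := ξ) x i, h1]
  simp

theorem Met.ne_of_rho_pos {x : V n} (h : 0 < A.rho ξ x) : ξ x ≠ 0 := by
  intro h0
  simp [Met.rho, h0] at h

theorem Met.dp_psi (hξ : Sm ξ) (i : Fin n) (z : Z n) :
    dp i (A.psi ξ) z = -∑ j, A.G z.1 i j * (z.2 j - A.fl ξ z.1 j) := by
  have h1 : dp i (A.psi ξ) z = dp i (fun w => lin ξ w - A.H w) z := rfl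
  rw [h1, dp_sub ((sm_lin hξ).dAt z) (A.sm_H.dAt z), dp_lin hξ, A.dp_H, ← A.G_fl (ξ := ξ) z.1 i]
  simp only [mul_sub, Finset.sum_sub_distrib]
  ring

/-- `rho x = psi (x, fl x)` and `dp psi = 0` on the graph; or `sig ≥ 0` is minimal there -/
theorem Met.dx_psi_fl (hξ : Sm ξ) (i : Fin n) (x : V n) :
    dx i (A.psi ξ) (x, A.fl ξ x) = pd i (A.rho ξ) x := by
  have h1 : IsLocalMin (A.sig ξ) (x, A.fl ξ x) :=
    Filter.Eventually.of_forall fun z => by rw [A.sig_fl]; exact A.sig_nonneg z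
  have h2 : dx i (A.sig ξ) (x, A.fl ξ x) = 0 := by
    rw [dx, h1.fderiv_eq_zero]; rfl
  have h3 : dx i (A.sig ξ) (x, A.fl ξ x) =
      dx i (fun w => A.rho ξ w.1 - A.psi ξ w) (x, A.fl ξ x) := rfl
  rw [h3, dx_sub (F := fun w => A.rho ξ w.1) (Sm.dAt ((A.sm_rho hξ).comp contDiff_fst) _)
    ((A.sm_psi hξ).dAt _), dx_fst ((A.sm_rho hξ).dAt _)] at h2
  exact (sub_eq_zero.1 h2).symm

/-- compactness of `K ×ˢ sphere 0 1` and homogeneity -/
theorem Met.bounds {K : Set (V n)} (hK : IsCompact K) : ∃ l L : ℝ, 0 < l ∧ 0 < L ∧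
    ∀ x ∈ K, ∀ p : V n, l * ‖p‖ ^ 2 ≤ A.H (x, p) ∧ A.H (x, p) ≤ L * ‖p‖ ^ 2 := by
  have hS : IsCompact (K ×ˢ Metric.sphere (0 : V n) 1) := hK.prod (isCompact_sphere _ _)
  have hc : ContinuousOn A.H (K ×ˢ Metric.sphere (0 : V n) 1) := A.sm_H.continuous.continuousOn
  obtain ⟨l, hl, h1⟩ := hS.exists_forall_le' hc (a := 0) fun z hz => A.H_pos fun h0 => by
    have h2 := hz.2
    rw [h0] at h2
    simp at h2
  obtain ⟨C, h2⟩ := hS.exists_bound_of_continuousOn hc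
  refine ⟨l, |C| + 1, hl, by positivity, fun x hx p => ?_⟩
  by_cases hp : p = 0
  · simp [hp, Met.H]
  · have hn : ‖p‖ ≠ 0 := norm_ne_zero_iff.2 hp
    have hq : ((x, ‖p‖⁻¹ • p) : Z n) ∈ K ×ˢ Metric.sphere (0 : V n) 1 :=
      ⟨hx, by simp [norm_smul, hn]⟩
    have h3 : A.H (x, p) = ‖p‖ ^ 2 * A.H (x, ‖p‖⁻¹ • p) := by
      rw [← A.H_smul, smul_inv_smul₀ hn]
    have h4 := h1 _ hq
    have h5 : A.H (x, ‖p‖⁻¹ • p) ≤ |C| + 1 :=
      ((le_abs_self _).trans ((h2 _ hq).trans (le_abs_self C))).trans (by linarith)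
    have h6 : 0 ≤ ‖p‖ ^ 2 := sq_nonneg _
    rw [h3]
    constructor <;> nlinarith

theorem Met.isCompact_le {K : Set (V n)} (hK : IsCompact K) (s : ℝ) :
    IsCompact {z : Z n | z.1 ∈ K ∧ A.H z ≤ s} := by
  obtain ⟨l, L, hl, -, h⟩ := A.bounds hK
  refine (hK.prod (isCompact_closedBall (0 : V n) (|s| / l + 1))).of_isClosed_subset ?_ ?_
  · exact (hK.isClosed.preimage continuous_fst).inter
      (isClosed_le A.sm_H.continuous continuous_const)
  · intro z hz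
    refine ⟨hz.1, mem_closedBall_zero_iff.2 ?_⟩
    have h1 : l * ‖z.2‖ ^ 2 ≤ |s| := ((h z.1 hz.1 z.2).1.trans hz.2).trans (le_abs_self s)
    have h2 : ‖z.2‖ ^ 2 ≤ |s| / l := by rw [le_div_iff₀ hl]; linarith
    nlinarith [sq_nonneg (‖z.2‖ - 1), sq_nonneg ‖z.2‖]

theorem Met.isCompact_sig (hξ : Sm ξ) {K : Set (V n)} (hK : IsCompact K) (s : ℝ) :
    IsCompact {z : Z n | z.1 ∈ K ∧ A.sig ξ z ≤ s} := by
  have h1 : Continuous fun w : Z n => ((w.1, w.2 + A.fl ξ w.1) : Z n) :=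
    continuous_fst.prodMk (continuous_snd.add ((A.sm_fl hξ).continuous.comp continuous_fst))
  convert (A.isCompact_le hK s).image h1 using 1
  ext z
  constructor
  · intro hz
    exact ⟨(z.1, z.2 - A.fl ξ z.1), ⟨hz.1, by rw [← A.sig_eq]; exact hz.2⟩, by simp⟩
  · rintro ⟨w, hw, rfl⟩
    refine ⟨hw.1, ?_⟩
    rw [A.sig_eq]
    simpa using hw.2

theorem MetF_lb {F : Z n → ℝ} (h : ∀ K : Set (V n), IsCompact K → ∃ S : Set (Z n), IsCompact S ∧
    ∀ z : Z n, z.1 ∈ K → F z ≠ 0 → z ∈ S) : LB F := by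
  intro x₀
  obtain ⟨S, hS, h1⟩ := h _ (isCompact_closedBall x₀ 1)
  obtain ⟨R, hR⟩ := hS.isBounded.exists_norm_le
  refine ⟨R, ?_⟩
  filter_upwards [Metric.closedBall_mem_nhds x₀ one_pos] with x hx p hp
  by_contra h2
  have h3 := hR _ (h1 (x, p) hx h2)
  exact absurd ((norm_snd_le ((x, p) : Z n)).trans h3) (not_le.2 hp)

theorem Met.lb_H {F : Z n → ℝ} {s : ℝ} (h : ∀ z, s < A.H z → F z = 0) : LB F := by
  exact MetF_lb fun K hK => ⟨_, A.isCompact_le hK s, fun z hz h1 =>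
    ⟨hz, not_lt.1 fun h2 => h1 (h z h2)⟩⟩

theorem Met.lb_sig (hξ : Sm ξ) {F : Z n → ℝ} {s : ℝ} (h : ∀ z, s < A.sig ξ z → F z = 0) :
    LB F := by
  exact MetF_lb fun K hK => ⟨_, A.isCompact_sig hξ hK s, fun z hz h1 =>
    ⟨hz, not_lt.1 fun h2 => h1 (h z h2)⟩⟩

theorem Met.lb_psi (hξ : Sm ξ) {F : Z n → ℝ} {s : ℝ} (h : ∀ z, A.psi ξ z < s → F z = 0) :
    LB F := by
  refine MetF_lb fun K hK => ?_
  obtain ⟨C, hC⟩ := hK.exists_bound_of_continuousOn (A.sm_rho hξ).continuous.continuousOn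
  refine ⟨_, A.isCompact_sig hξ hK (C - s), fun z hz h1 => ⟨hz, ?_⟩⟩
  have h2 : s ≤ A.psi ξ z := not_lt.1 fun h2 => h1 (h z h2)
  have h3 : A.rho ξ z.1 ≤ C := (le_abs_self _).trans (hC _ hz)
  have h4 : A.sig ξ z = A.rho ξ z.1 - A.psi ξ z := rfl
  linarith

/-- linear vanishing on the graph: a smooth function that vanishes on the graph of `fl` (mean value
inequality on the segment from `fl x` to `p`, inside a compact set) -/
theorem Met.lip_graph (hξ : Sm ξ) {K : Set (V n)} (hK : IsCompact K) {F : Z n → ℝ} (hF : Sm F)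
    (h : ∀ x ∈ K, F (x, A.fl ξ x) = 0) (s : ℝ) : ∃ C : ℝ, 0 ≤ C ∧
      ∀ z : Z n, z.1 ∈ K → A.sig ξ z ≤ s → |F z| ≤ C * ‖z.2 - A.fl ξ z.1‖ := by
  obtain ⟨R, hR⟩ := (A.isCompact_sig hξ hK s).isBounded.exists_norm_le
  obtain ⟨C, hC⟩ := (hK.prod (isCompact_closedBall (0 : V n) R)).exists_bound_of_continuousOn
    (hF.continuous_fderiv (by simp)).continuousOn
  refine ⟨|C|, abs_nonneg _, fun z hz hs => ?_⟩
  have hcv : Convex ℝ (({z.1} : Set (V n)) ×ˢ Metric.closedBall (0 : V n) R) :=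
    (convex_singleton _).prod (convex_closedBall _ _)
  have h1 : z ∈ ({z.1} : Set (V n)) ×ˢ Metric.closedBall (0 : V n) R :=
    ⟨rfl, mem_closedBall_zero_iff.2 ((norm_snd_le z).trans (hR z ⟨hz, hs⟩))⟩
  have h2 : ((z.1, A.fl ξ z.1) : Z n) ∈ ({z.1} : Set (V n)) ×ˢ Metric.closedBall (0 : V n) R :=
    ⟨rfl, mem_closedBall_zero_iff.2 ((norm_snd_le ((z.1, A.fl ξ z.1) : Z n)).trans
      (hR _ ⟨hz, by rw [A.sig_fl]; exact (A.sig_nonneg z).trans hs⟩))⟩
  have h3 := hcv.norm_image_sub_le_of_norm_fderiv_le (𝕜 := ℝ) (f := F) (C := |C|)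
    (fun w _ => hF.dAt w) (fun w hw => (hC w ⟨by rw [show w.1 = z.1 from hw.1]; exact hz, hw.2⟩).trans
      (le_abs_self C)) h2 h1
  rw [h z.1 hz, sub_zero, Real.norm_eq_abs, Prod.norm_def] at h3
  simpa using h3

/-- a continuous function that is positive on the graph over `K` is bounded below near it -/
theorem Met.pos_graph (hξ : Sm ξ) {K : Set (V n)} (hK : IsCompact K) {F : Z n → ℝ}
    (hF : Continuous F) (h : ∀ x ∈ K, 0 < F (x, A.fl ξ x)) : ∃ c r : ℝ, 0 < c ∧ 0 < r ∧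
      ∀ z : Z n, z.1 ∈ K → A.sig ξ z ≤ r → c ≤ F z := by
  have hc : Continuous fun z => max (F z) (A.sig ξ z) := hF.max (A.sm_sig hξ).continuous
  obtain ⟨a, ha, h1⟩ := (A.isCompact_sig hξ hK 1).exists_forall_le' hc.continuousOn (a := 0)
    fun z hz => by
      rcases (A.sig_nonneg (ξ := ξ) z).lt_or_eq with h2 | h2
      · exact lt_max_of_lt_right h2
      · have h3 := h z.1 hz.1
        rw [← A.eq_fl_of_sig h2.symm] at h3
        exact lt_max_of_lt_left h3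
  refine ⟨a, min 1 (a / 2), ha, lt_min one_pos (half_pos ha), fun z hz hs => ?_⟩
  have h2 := h1 z ⟨hz, hs.trans (min_le_left _ _)⟩
  have h3 : A.sig ξ z < a := (hs.trans (min_le_right _ _)).trans_lt (half_lt_self ha)
  rcases le_max_iff.1 h2 with h4 | h4
  · exact h4
  · exact absurd h4 (not_le.2 h3)

end Pool.Agent.Lib.MP_45f3cb_gt
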