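import Pool.Agent.Lib.MP_45f3cb_gt.PolyA
import Pool.Agent.Lib.MP_45f3cb_gt.MetF

/-!
Fibrewise polynomials.
-/

open Set MeasureTheory

namespace Pool.Agent.Lib.MP_45f3cb_gt

variable {n d e : ℕ} {F G : Z n → ℝ}

theorem FP.add (h : FP d F) (h' : FP d G) : FP d fun z => F z + G z :=
  fun x => (HP n d).add_mem (h x) (h' x)

theorem FP.sub (h : FP d F) (h' : FP d G) : FP d fun z => F z - G z :=
  fun x => (HP n d).sub_mem (h x) (h' x)

theorem FP.zero : FP d fun _ : Z n => (0 : ℝ) :=
  fun _ => (HP n d).zero_mem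

theorem FP.fst_mul (h : FP d F) (u : V n → ℝ) : FP d fun z => u z.1 * F z :=
  fun x => (HP n d).smul_mem (u x) (h x)

theorem FP.sum {ι : Type} {s : Finset ι} {f : ι → Z n → ℝ} (h : ∀ k ∈ s, FP d (f k)) :
    FP d fun z => ∑ k ∈ s, f k z := by
  intro x
  have h1 := (HP n d).sum_mem fun k hk => h k hk x
  convert h1 using 1
  funext p
  simp only [Finset.sum_apply]

theorem FP.mul (h : FP d F) (h' : FP e G) : FP (d + e) fun z => F z * G z :=
  fun x => HP_mul (h x) (h' x)

theorem FP.snd {q : V n → ℝ} (h : q ∈ HP n d) : FP d fun z : Z n => q z.2 :=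
  fun _ => h

theorem PolyB_congr (h : FP d F) (e : ∀ z, G z = F z) : FP d G := by
  rwa [show G = F from funext e]

theorem PolyB_coord (h : FP d F) (j : Fin n) : FP (d + 1) fun z => z.2 j * F z :=
  fun x => HP_coord_mul (h x) j

/-- a fibrewise polynomial is a finite sum of products (`HP_interp` with `O = univ`) -/
theorem FP.dx (h : FP d F) (hF : Differentiable ℝ F) (i : Fin n) : FP d (dx i F) := by
  obtain ⟨N, y, l, -, hl, hq⟩ := HP_interp n d isOpen_univ univ_nonempty
  have hd : ∀ k (x : V n), DifferentiableAt ℝ (fun x => F (x, y k)) x := fun k x =>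
    (hF _).comp x (differentiableAt_id.prodMk (differentiableAt_const _))
  refine PolyB_congr (FP.sum (s := Finset.univ) fun k _ =>
    (FP.snd (hl k)).fst_mul (pd i fun x => F (x, y k))) fun z => ?_
  rw [dx_eq_pd (hF z), show (fun x => F (x, z.2)) = fun x => ∑ k, F (x, y k) * l k z.2 from
    funext fun x => hq _ (h x) z.2]
  unfold pd
  rw [fderiv_fun_sum fun k _ => (hd k _).mul_const _, _root_.sum_apply]
  refine Finset.sum_congr rfl fun k _ => ?_
  rw [fderiv_mul_const (hd k _)]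
  simp [mul_comm]

theorem FP.dp (h : FP (d + 1) F) (hF : Differentiable ℝ F) (i : Fin n) : FP d (dp i F) := by
  intro x
  simp only [fun p => dp_eq_pd (i := i) (hF (x, p))]
  exact HP_pd (h x) i

theorem FP.coord_dp (h : FP d F) (hF : Differentiable ℝ F) (i j : Fin n) :
    FP d fun z => z.2 j * Pool.Agent.Lib.MP_45f3cb_gt.dp i F z := by
  intro x
  simp only [fun p => dp_eq_pd (i := i) (hF (x, p))]
  exact HP_coord_pd (h x) i j

theorem FP.euler (h : FP d F) (hF : Differentiable ℝ F) (z : Z n) :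
    ∑ i, z.2 i * Pool.Agent.Lib.MP_45f3cb_gt.dp i F z = d * F z := by
  simp only [dp_eq_pd (hF z)]
  exact HP_euler (h z.1) z.2

/-- use `Met.dp_H`, `Met.dx_H` -/
theorem FP.br_H (A : Met n) (h : FP d F) (hF : Differentiable ℝ F) : FP (d + 1) (br A.H F) := by
  refine PolyB_congr (FP.sum (s := Finset.univ) fun i _ => FP.sub
    (FP.sum (s := Finset.univ) fun j _ =>
      (PolyB_coord (h.dx hF i) j).fst_mul fun x => A.G x i j)
    (FP.sum (s := Finset.univ) fun j _ => FP.sum (s := Finset.univ) fun k _ =>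
      (PolyB_coord (h.coord_dp hF i k) j).fst_mul fun x => 1 / 2 * pd i (fun x => A.G x j k) x))
    fun z => ?_
  unfold br
  refine Finset.sum_congr rfl fun i _ => ?_
  rw [A.dp_H, A.dx_H]
  simp only [Finset.mul_sum, Finset.sum_mul]
  congr 1
  · exact Finset.sum_congr rfl fun j _ => by ring
  · exact Finset.sum_congr rfl fun j _ => Finset.sum_congr rfl fun k _ => by ring

/-- use `dp_lin`, `dx_lin` -/
theorem FP.br_lin {ξ : V n → V n} (hξ : Sm ξ) (h : FP d F) (hF : Differentiable ℝ F) :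
    FP d (br (lin ξ) F) := by
  refine PolyB_congr (FP.sum (s := Finset.univ) fun i _ => FP.sub
    ((h.dx hF i).fst_mul fun x => ξ x i)
    (FP.sum (s := Finset.univ) fun j _ =>
      (h.coord_dp hF i j).fst_mul fun x => pd i (fun x => ξ x j) x)) fun z => ?_
  unfold br
  refine Finset.sum_congr rfl fun i _ => ?_
  rw [dp_lin hξ, dx_lin hξ, Finset.sum_mul]
  congr 1
  exact Finset.sum_congr rfl fun j _ => by ring

/-- smoothness of a fibrewise polynomial follows from smoothness at the nodes -/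
theorem FP.contDiffOn {k : WithTop ℕ∞} (h : FP d F) {s : Set (V n)} {O : Set (V n)} (hO : IsOpen O)
    (hne : O.Nonempty) (hk : k ≤ (⊤ : ℕ∞)) (hF : ∀ p ∈ O, ContDiffOn ℝ k (fun x => F (x, p)) s) :
    ContDiffOn ℝ k F (s ×ˢ univ) := by
  obtain ⟨N, y, l, hy, hl, hq⟩ := HP_interp n d hO hne
  rw [show F = fun z => ∑ i, F (z.1, y i) * l i z.2 from funext fun z => hq _ (h z.1) z.2]
  refine ContDiffOn.sum fun i _ => ContDiffOn.mul ?_ ?_
  · exact (hF _ (hy i)).comp contDiffOn_fst fun z hz => hz.1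
  · exact (((HP_sm (hl i)).of_le hk).comp contDiff_snd).contDiffOn

/-- being polynomial on an open set of the fibre is a closed condition in `x` (interpolate at nodes
in `O`, fixed; the identity `F (x, p) = ∑ F (x, y i) * l i p` passes to the closure) -/
theorem poly_closure {s : Set (V n)} {x : V n} {U : Set (Z n)} (hU : IsOpen U)
    (hF : ContinuousOn F U) (hx : x ∈ closure s)
    (h : ∀ x' ∈ s, ∃ q ∈ HP n d, ∀ p, (x', p) ∈ U → F (x', p) = q p) :
    ∃ q ∈ HP n d, ∀ p, (x, p) ∈ U → F (x, p) = q p := by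
  rcases ({p | (x, p) ∈ U} : Set (V n)).eq_empty_or_nonempty with h0 | hne
  · exact ⟨0, (HP n d).zero_mem, fun p hp => (h0.subset hp).elim⟩
  obtain ⟨N, y, l, hy, hl, hq⟩ := HP_interp n d (hU.preimage (Continuous.prodMk_right x)) hne
  refine ⟨∑ i, F (x, y i) • l i, (HP n d).sum_mem fun i _ => (HP n d).smul_mem _ (hl i),
    fun p hp => ?_⟩
  have hc : ∀ p, (x, p) ∈ U → ContinuousAt (fun x' => F (x', p)) x ∧
      ∀ᶠ x' in nhds x, (x', p) ∈ U := fun p hp =>
    ⟨(hF.continuousAt (hU.mem_nhds hp)).comp_of_eq (Continuous.prodMk_left p).continuousAt rfl,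
      (Continuous.prodMk_left p).continuousAt.eventually_mem (hU.mem_nhds hp)⟩
  have h1 : ∃ᶠ x' in nhds x, F (x', p) = ∑ i, F (x', y i) * l i p := by
    refine ((mem_closure_iff_frequently.1 hx).and_eventually
      ((hc p hp).2.and (Filter.eventually_all.2 fun i => (hc _ (hy i)).2))).mono ?_
    rintro x' ⟨e1, e2, e3⟩
    obtain ⟨q, hq1, hq2⟩ := h x' e1
    rw [hq2 p e2, hq q hq1 p]
    exact Finset.sum_congr rfl fun i _ => by rw [hq2 _ (e3 i)]
  rw [Finset.sum_apply]
  exact tendsto_nhds_unique_of_frequently_eq (hc p hp).1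
    (tendsto_finsetSum _ fun i _ => (hc _ (hy i)).1.mul continuousAt_const) h1

end Pool.Agent.Lib.MP_45f3cb_gt
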