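import Pool.Agent.Lib.MP_45f3cb_gt.Exit2
import Pool.Agent.Lib.MP_45f3cb_gt.PolyB

/-!
Transport along full segments: two sided alternative, gauge change, scaling and parity.
-/

open Set MeasureTheory

namespace Pool.Agent.Lib.MP_45f3cb_gt

variable {n d : ℕ} {D : Dom n} {e : ℝ} {F : Z n → ℝ} {z : Z n}

theorem Exit4_H_neg (D : Dom n) (z : Z n) : D.H (z.1, -z.2) = D.H z := by
  rw [← neg_one_smul ℝ z.2, D.H_smul]
  simp

theorem Exit4_br_cont (D : Dom n) {h : Z n → ℝ} (hh : ContDiff ℝ 1 h) : Continuous (br D.H h) :=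
  (contDiff_br (k := 0) D.sm_H (by simpa using hh)).continuous

theorem Exit4_lin_smul (ξ : V n → V n) (x p : V n) (r : ℝ) :
    lin ξ (x, r • p) = r * lin ξ (x, p) := by
  simp only [lin, Pi.smul_apply, smul_eq_mul, Finset.mul_sum, mul_assoc]

/-- the backward segment, by `GF.rev'` and the facts on `ex (z.1, -z.2)` -/
theorem GF.back (P : GF D e) (hz : D.b z.1 ≤ 0) (h0 : 0 < D.H z) (he : D.H z < e) :
    0 ≤ P.ex (z.1, -z.2) ∧ (∀ s ∈ Icc (-P.ex (z.1, -z.2)) 0, D.b (P.Φ s z).1 ≤ 0) ∧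
      D.b (P.Φ (-P.ex (z.1, -z.2)) z).1 = 0 := by
  have h0' : 0 < D.H (z.1, -z.2) := by rwa [Exit4_H_neg]
  have he' : D.H (z.1, -z.2) < e := by rwa [Exit4_H_neg]
  refine ⟨P.ex_nonneg (z := (z.1, -z.2)) hz h0' he', fun s hs => ?_, ?_⟩
  · have h1 := P.ex_in (z := (z.1, -z.2)) hz h0' he' (-s) ⟨by linarith [hs.2], by linarith [hs.1]⟩
    rwa [P.rev', neg_neg] at h1
  · have h1 := P.ex_bdry (z := (z.1, -z.2)) hz h0' he'
    rwa [P.rev'] at h1

/-- Sketch: either `br H w` vanishes on the whole forward segment or on the whole backward segment;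
`Traj.ftc` with `GF.traj`. -/
theorem GF.two_sided (P : GF D e) {w : Z n → ℝ} (hw : ContDiff ℝ 1 w)
    (hb : ∀ y : Z n, D.b y.1 = 0 → w y = 0) (hz : D.b z.1 ≤ 0) (h0 : 0 < D.H z) (he : D.H z < e)
    (h : ∀ s t, s ≤ 0 → 0 ≤ t → (∀ r ∈ Icc s t, D.b (P.Φ r z).1 ≤ 0) →
      br D.H w (P.Φ s z) = 0 ∨ br D.H w (P.Φ t z) = 0) : w z = 0 := by
  have hin := P.ex_in hz h0 he
  have hnn := P.ex_nonneg hz h0 he
  by_cases hf : ∀ t ∈ Icc 0 (P.ex z), br D.H w (P.Φ t z) = 0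
  · have h1 := Traj.ftc D.sm_H hw hnn (P.traj he hin)
    rw [intervalIntegral.integral_congr (g := fun _ => 0) (by rwa [uIcc_of_le hnn]),
      hb _ (P.ex_bdry hz h0 he), P.flow.zero] at h1
    simpa using h1
  · simp only [not_forall] at hf
    obtain ⟨t, ht, hne⟩ := hf
    obtain ⟨b1, b2, b3⟩ := P.back hz h0 he
    have hnn' : -P.ex (z.1, -z.2) ≤ 0 := neg_nonpos.2 b1
    have h2 : ∀ s ∈ Icc (-P.ex (z.1, -z.2)) 0, br D.H w (P.Φ s z) = 0 := fun s hs =>
      (h s t hs.2 ht.1 fun r hr => (le_total r 0).elim (fun h3 => b2 r ⟨hs.1.trans hr.1, h3⟩)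
        fun h3 => hin r ⟨h3, hr.2.trans ht.2⟩).resolve_right hne
    have h1 := Traj.ftc D.sm_H hw hnn' (P.traj he b2)
    rw [intervalIntegral.integral_congr (g := fun _ => 0) (by rwa [uIcc_of_le hnn']),
      hb _ b3, P.flow.zero] at h1
    simpa using h1.symm

/-- a potential part can be removed (`Traj.ftc`) -/
theorem Dom.Seg.gauge {f h : Z n → ℝ} (hf : D.Seg f) (hfc : Continuous f) (hh : ContDiff ℝ 1 h)
    (hb : ∀ y : Z n, D.b y.1 = 0 → h y = 0)
    (hF : ∀ y : Z n, D.b y.1 ≤ 0 → F y = f y - br D.H h y) : D.Seg F := by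
  intro c T hT h1 h2 h3 h4 h5
  have hc : ContinuousOn c (uIcc 0 T) := by
    rw [uIcc_of_le hT.le]
    exact HasDerivAt.continuousOn h1
  rw [intervalIntegral.integral_congr (g := fun t => f (c t) - br D.H h (c t))
      (fun t ht => hF _ (h2 t (by rwa [uIcc_of_le hT.le] at ht))),
    intervalIntegral.integral_sub (f := fun t => f (c t)) (g := fun t => br D.H h (c t))
      (hfc.comp_continuousOn hc).intervalIntegrable
      ((Exit4_br_cont D hh).comp_continuousOn hc).intervalIntegrable,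
    hf c T hT h1 h2 h3 h4 h5, Traj.ftc D.sm_H hh hT.le h1, hb _ h3, hb _ h4, sub_self, sub_self]

theorem GF.sol_gauge (P : GF D e) {f h : Z n → ℝ} (hfc : Continuous f) (hh : ContDiff ℝ 1 h)
    (hb : ∀ y : Z n, D.b y.1 = 0 → h y = 0)
    (hF : ∀ y : Z n, D.b y.1 ≤ 0 → F y = f y - br D.H h y) (hz : D.b z.1 ≤ 0) (h0 : 0 < D.H z)
    (he : D.H z < e) : P.sol f z = P.sol F z + h z := by
  have hin := P.ex_in hz h0 he
  have hnn := P.ex_nonneg hz h0 he
  have hc := P.flow.cont_z z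
  simp only [GF.sol, if_pos hz]
  rw [intervalIntegral.integral_congr (f := fun t => F (P.Φ t z))
      (g := fun t => f (P.Φ t z) - br D.H h (P.Φ t z))
      (fun t ht => hF _ (hin t (by rwa [uIcc_of_le hnn] at ht))),
    intervalIntegral.integral_sub (f := fun t => f (P.Φ t z))
      (g := fun t => br D.H h (P.Φ t z)) ((hfc.comp hc).intervalIntegrable _ _)
      (((Exit4_br_cont D hh).comp hc).intervalIntegrable _ _),
    Traj.ftc D.sm_H hh hnn (P.traj he hin), hb _ (P.ex_bdry hz h0 he), P.flow.zero]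
  ring

/-- Sketch: `Traj.scale` and `GF.eq_of_traj` on `[0, ex z / r]`, `GF.ex_eq` (with `Dom.ell_smul`) gives
`ex (x, r p) = ex z / r`; `HP_smul_arg`, `intervalIntegral.integral_comp_mul_left`. -/
theorem GF.sol_scale (P : GF D e) (hp : FP (d + 1) F) (hz : D.b z.1 ≤ 0) (h0 : 0 < D.H z)
    (he : D.H z < e) {r : ℝ} (hr : 0 < r) (hr1 : r ≤ 1) :
    P.sol F (z.1, r • z.2) = r ^ d * P.sol F z := by
  have hin := P.ex_in hz h0 he
  have hnn := P.ex_nonneg hz h0 he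
  have hT : 0 ≤ P.ex z / r := div_nonneg hnn hr.le
  have hrT : r * (P.ex z / r) = P.ex z := mul_div_cancel₀ _ hr.ne'
  have hmem : ∀ t ∈ Icc 0 (P.ex z / r), r * t ∈ Icc 0 (P.ex z) := fun t ht =>
    ⟨mul_nonneg hr.le ht.1, hrT ▸ mul_le_mul_of_nonneg_left ht.2 hr.le⟩
  have hH : D.H (z.1, r • z.2) = r ^ 2 * D.H z := D.H_smul _ _ _
  have h0' : 0 < D.H (z.1, r • z.2) := hH ▸ mul_pos (pow_pos hr 2) h0
  have he' : D.H (z.1, r • z.2) < e := by
    rw [hH]
    exact (mul_le_of_le_one_left h0.le (pow_le_one₀ hr.le hr1)).trans_lt he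
  have h1 : ∀ t ∈ Icc 0 (P.ex z / r),
      P.Φ t (z.1, r • z.2) = ((P.Φ (r * t) z).1, r • (P.Φ (r * t) z).2) := by
    have h2 := P.eq_of_traj (T := P.ex z / r)
      (c := fun t => ((P.Φ (r * t) z).1, r • (P.Φ (r * t) z).2))
      (fun t ht => Traj.scale D.toMet (P.traj he hin) r t (hmem t ht))
      (fun t ht => hin _ (hmem t ht)) (by simpa only [mul_zero, P.flow.zero] using he')
    intro t ht
    simpa only [mul_zero, P.flow.zero] using (h2 t ht).symm
  have h3 : P.ex (z.1, r • z.2) = P.ex z / r := by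
    refine P.ex_eq h0' he' hT (fun t ht => ?_) ?_ ?_
    · rw [h1 t ht]
      exact hin _ (hmem t ht)
    · rw [h1 _ ⟨hT, le_rfl⟩, hrT]
      exact P.ex_bdry hz h0 he
    · rw [h1 _ ⟨hT, le_rfl⟩, hrT, D.ell_smul]
      exact mul_nonneg hr.le (P.ex_ell hz h0 he)
  simp only [GF.sol, if_pos hz]
  rw [h3, intervalIntegral.integral_congr (g := fun t => r ^ (d + 1) * F (P.Φ (r * t) z))
      (fun t ht => by
        simp only [h1 t (by rwa [uIcc_of_le hT] at ht)]
        exact HP_smul_arg (hp _) r _),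
    intervalIntegral.integral_const_mul,
    intervalIntegral.integral_comp_mul_left (fun s => F (P.Φ s z)) hr.ne', mul_zero, hrT,
    smul_eq_mul]
  field_simp
  ring

/-- Sketch: `GF.rev'`, `HP_smul_arg` with `-1`, substitution `t ↦ -t`, `GF.seg` on the full segment
`[-ex (x, -p), ex z]`. -/
theorem GF.sol_neg (P : GF D e) (hF : Continuous F) (hp : FP (d + 1) F) (hS : D.Seg F)
    (hz : D.b z.1 ≤ 0) (h0 : 0 < D.H z) (he : D.H z < e) :
    P.sol F (z.1, -z.2) = (-1) ^ d * P.sol F z := by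
  have hin := P.ex_in hz h0 he
  have hnn := P.ex_nonneg hz h0 he
  obtain ⟨b1, b2, b3⟩ := P.back hz h0 he
  have hc : Continuous fun t => F (P.Φ t z) := hF.comp (P.flow.cont_z z)
  have h1 := P.seg hS h0 he ((neg_nonpos.2 b1).trans hnn)
    (fun r hr => (le_total r 0).elim (fun h3 => b2 r ⟨hr.1, h3⟩) fun h3 => hin r ⟨h3, hr.2⟩) b3
    (P.ex_bdry hz h0 he)
  rw [← intervalIntegral.integral_add_adjacent_intervals (b := 0) (hc.intervalIntegrable _ _)
    (hc.intervalIntegrable _ _)] at h1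
  have h2 : ∀ t, F (P.Φ t (z.1, -z.2)) = (-1) ^ (d + 1) * F (P.Φ (-t) z) := by
    intro t
    rw [P.rev', ← neg_one_smul ℝ (P.Φ (-t) z).2]
    exact HP_smul_arg (hp _) _ _
  simp only [GF.sol, if_pos hz, h2]
  rw [intervalIntegral.integral_const_mul,
    intervalIntegral.integral_comp_neg fun s => F (P.Φ s z), neg_zero,
    eq_neg_of_add_eq_zero_left h1]
  ring

/-- Sketch: `rho x > 0`. Take `q` for `c = rho x / 2`; the polynomials for smaller `c` agree with it on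
the nonempty open set `{psi > rho x / 2}` (it contains `fl x`), hence everywhere (`HP_eq`). So
`sol = q` on `{psi > 0}`. If `lin > 0`, `psi (x, r p) = r lin - r² H > 0` for a small `r ≤ 1`;
`GF.sol_scale`, `HP_smul_arg`. If `lin < 0` use `GF.sol_neg`. -/
theorem GF.sol_poly (P : GF D e) (hF : Continuous F) (hp : FP (d + 1) F) (hS : D.Seg F)
    {ξ : V n → V n} (hξ : Sm ξ) {x : V n} (hx : D.b x ≤ 0) (hx0 : ξ x ≠ 0)
    (h : ∀ c : ℝ, 0 < c → ∃ q ∈ HP n d, ∀ p, c < D.psi ξ (x, p) → P.sol F (x, p) = q p) :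
    ∃ q ∈ HP n d, ∀ p, D.H (x, p) < e → lin ξ (x, p) ≠ 0 → P.sol F (x, p) = q p := by
  have hρ : 0 < D.rho ξ x := D.rho_pos hx0
  obtain ⟨q, hq, h1⟩ := h _ (half_pos hρ)
  have h2 : ∀ p, 0 < D.psi ξ (x, p) → P.sol F (x, p) = q p := by
    intro p hp0
    obtain ⟨q', hq', h3⟩ := h _ (lt_min (half_pos hρ) (half_pos hp0))
    rw [h3 p ((min_le_right _ _).trans_lt (half_lt_self hp0))]
    refine HP_eq hq' hq (O := {p | D.rho ξ x / 2 < D.psi ξ (x, p)})
      (isOpen_lt continuous_const ((D.sm_psi hξ).continuous.comp (Continuous.prodMk_right x)))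
      ⟨D.fl ξ x, ?_⟩ (fun y hy => ?_) p
    · have h4 : D.rho ξ x - D.psi ξ (x, D.fl ξ x) = 0 := D.sig_fl x
      show D.rho ξ x / 2 < D.psi ξ (x, D.fl ξ x)
      linarith
    · rw [← h3 y ((min_le_left _ _).trans_lt hy), h1 y hy]
  have hH : ∀ p, lin ξ (x, p) ≠ 0 → 0 < D.H (x, p) := fun p hl =>
    D.H_pos fun (h0 : p = 0) => hl (by
      simp only [lin, h0, Pi.zero_apply, zero_mul, Finset.sum_const_zero])
  have h3 : ∀ p, D.H (x, p) < e → 0 < lin ξ (x, p) → P.sol F (x, p) = q p := by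
    intro p he hl
    have h0 := hH p hl.ne'
    obtain ⟨r, hr, hr1, hr2⟩ : ∃ r : ℝ, 0 < r ∧ r ≤ 1 ∧ r * D.H (x, p) < lin ξ (x, p) := by
      refine ⟨min 1 (lin ξ (x, p) / 2 / D.H (x, p)), lt_min one_pos (by positivity),
        min_le_left _ _, (mul_le_mul_of_nonneg_right (min_le_right _ _) h0.le).trans_lt ?_⟩
      rw [div_mul_cancel₀ _ h0.ne']
      exact half_lt_self hl
    have h4 := h2 (r • p) (by
      rw [Met.psi, Exit4_lin_smul, D.H_smul, pow_two, mul_assoc, ← mul_sub]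
      exact mul_pos hr (sub_pos.2 hr2))
    rw [P.sol_scale (z := (x, p)) hp hx h0 he hr hr1, HP_smul_arg hq] at h4
    exact mul_left_cancel₀ (pow_pos hr d).ne' h4
  refine ⟨q, hq, fun p he hl => ?_⟩
  rcases lt_or_gt_of_ne hl with h4 | h4
  · have h5 := h3 (-p) (by rwa [Exit4_H_neg D (x, p)]) (by
      rw [← neg_one_smul ℝ p, Exit4_lin_smul]
      linarith)
    rw [P.sol_neg (z := (x, p)) hF hp hS hx (hH p hl) he, ← neg_one_smul ℝ p,
      HP_smul_arg hq] at h5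
    exact mul_left_cancel₀ (pow_ne_zero d (by norm_num)) h5
  · exact h3 p he h4

end Pool.Agent.Lib.MP_45f3cb_gt
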