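import Pool.Agent.Lib.MP_45f3cb_gt.Had
import Pool.Agent.Lib.MP_45f3cb_gt.Exit4

/-!
Boundary determination to all orders.
-/

open Set MeasureTheory

namespace Pool.Agent.Lib.MP_45f3cb_gt

variable {n d : ℕ} {D : Dom n} {e : ℝ}

theorem bdry_fp {N ν : V n → V n} {a : Z n → ℝ} (hp : FP d a) :
    FP d fun z : Z n => a (z.1, z.2 - lin N z • ν z.1) := by
  intro x
  have h := HP_comp_lin (hp x) fun i j => (if i = j then 1 else 0) - ν x i * N x j
  have e : ∀ p : V n, (fun i => ∑ j, ((if i = j then 1 else 0) - ν x i * N x j) * p j) =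
      p - lin N (x, p) • ν x := fun p => by
    funext i
    simp only [sub_mul, Finset.sum_sub_distrib, ite_mul, one_mul, zero_mul, Finset.sum_ite_eq,
      Finset.mem_univ, if_true, Pi.sub_apply, Pi.smul_apply, smul_eq_mul, lin, Finset.sum_mul]
    exact congrArg _ (Finset.sum_congr rfl fun j _ => by ring)
  simpa only [e] using h

theorem bdry_sm {N ν : V n → V n} (hN : Sm N) (hν : Sm ν) :
    Sm fun z : Z n => z.2 - lin N z • ν z.1 :=
  contDiff_snd.sub ((sm_lin hN).smul (hν.comp contDiff_fst))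

/-- Sketch: induction on `d` with `HP_succ`:
`p i * r p - (p i - l * ν i) * r p' = p i * (r p - r p') + l * ν i * r p'`; `HP_comp_lin` shows that
`z ↦ r (z.2 - lin N z • ν z.1)` is fibrewise polynomial. -/
theorem div_lin_HP {N ν : V n → V n} (hN : Sm N) (hν : Sm ν) {q : V n → ℝ} (hq : q ∈ HP n (d + 1)) :
    ∃ β : Z n → ℝ, Sm β ∧ FP d β ∧
      ∀ z : Z n, q z.2 - q (z.2 - lin N z • ν z.1) = lin N z * β z := by
  induction d generalizing q with
  | zero =>
    obtain ⟨r, h1, h2⟩ := HP_succ hq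
    refine ⟨fun z => ∑ i, ν z.1 i * r i z.2, ContDiff.sum fun i _ =>
      (MetF_xi' hν i).mul ((HP_sm (h1 i)).comp contDiff_snd),
      FP.sum fun i _ => (FP.snd (h1 i)).fst_mul fun x => ν x i, fun z => ?_⟩
    rw [h2, h2, ← Finset.sum_sub_distrib, Finset.mul_sum]
    refine Finset.sum_congr rfl fun i _ => ?_
    rw [HP_zero_const (h1 i) (z.2 - _) z.2, Pi.sub_apply, Pi.smul_apply, smul_eq_mul]
    ring
  | succ d ih =>
    obtain ⟨r, h1, h2⟩ := HP_succ hq
    choose β b1 b2 b3 using fun i => ih (h1 i)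
    refine ⟨fun z => ∑ i, (z.2 i * β i z + ν z.1 i * r i (z.2 - lin N z • ν z.1)),
      ContDiff.sum fun i _ => ((MetF_coord i).mul (b1 i)).add
        ((MetF_xi' hν i).mul ((HP_sm (h1 i)).comp (bdry_sm hN hν))),
      FP.sum fun i _ => (PolyB_coord (b2 i) i).add
        ((bdry_fp (N := N) (ν := ν) (FP.snd (h1 i))).fst_mul fun x => ν x i), fun z => ?_⟩
    rw [h2, h2, ← Finset.sum_sub_distrib, Finset.mul_sum]
    refine Finset.sum_congr rfl fun i _ => ?_
    rw [Pi.sub_apply, Pi.smul_apply, smul_eq_mul]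
    linear_combination z.2 i * b3 i z

/-- `HP_interp` with `O = univ` -/
theorem div_lin {N ν : V n → V n} (hN : Sm N) (hν : Sm ν) {a : Z n → ℝ} (ha : Sm a)
    (hp : FP (d + 1) a) : ∃ β : Z n → ℝ, Sm β ∧ FP d β ∧
      Sm (fun z : Z n => a (z.1, z.2 - lin N z • ν z.1)) ∧
      FP (d + 1) (fun z : Z n => a (z.1, z.2 - lin N z • ν z.1)) ∧
      ∀ z : Z n, a z - a (z.1, z.2 - lin N z • ν z.1) = lin N z * β z := by
  obtain ⟨M, y, l, -, hl, hq⟩ := HP_interp n (d + 1) isOpen_univ univ_nonempty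
  choose β b1 b2 b3 using fun k => div_lin_HP hN hν (hl k)
  refine ⟨fun z => ∑ k, a (z.1, y k) * β k z,
    ContDiff.sum fun k _ => (ha.comp (contDiff_fst.prodMk contDiff_const)).mul (b1 k),
    FP.sum fun k _ => (b2 k).fst_mul fun x => a (x, y k),
    ha.comp (contDiff_fst.prodMk (bdry_sm hN hν)), bdry_fp hp, fun z => ?_⟩
  have e1 : a z = ∑ k, a (z.1, y k) * l k z.2 := hq _ (hp z.1) z.2
  have e2 : a (z.1, z.2 - lin N z • ν z.1) = ∑ k, a (z.1, y k) * l k (z.2 - lin N z • ν z.1) :=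
    hq _ (hp z.1) _
  rw [e1, e2, ← Finset.sum_sub_distrib, Finset.mul_sum]
  refine Finset.sum_congr rfl fun k _ => ?_
  linear_combination a (z.1, y k) * b3 k z

theorem bdry_db (D : Dom n) {x : V n} (hb : D.b x = 0) :
    0 < D.H (x, fun i => pd i D.b x) := by
  refine D.H_pos fun h => D.regular x hb ?_
  ext1 w
  rw [fderiv_eq_sum_pd]
  exact Finset.sum_eq_zero fun i _ => mul_eq_zero_of_right _ (congrFun h i)

theorem bdry_ell (D : Dom n) (z : Z n) (r : ℝ) :
    D.ell (z.1, z.2 - r • fun i => pd i D.b z.1) =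
      D.ell z - r * (2 * D.H (z.1, fun i => pd i D.b z.1)) := by
  simp only [D.ell_eq, Met.H, Pi.sub_apply, Pi.smul_apply, smul_eq_mul, Finset.sum_mul,
    Finset.mul_sum, ← Finset.sum_sub_distrib]
  exact Finset.sum_congr rfl fun i _ => Finset.sum_congr rfl fun j _ => by ring

/-- short geodesics. Sketch: `ex z₀ = 0` (`GF.ex_eq`). Suppose `a z₀ ≠ 0`. For `z = (x₀, p₀ - ε db)`
one has `ell z < 0`, so `ex z > 0` (`GF.ex_pos`), and `ex z → 0` (`GF.ex_cont`); so for small `ε` the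
function `a z₀ * a` is positive on the segment, and `(-b) ^ k > 0` inside (`GF.ex_neg`);
`intervalIntegral.intervalIntegral_pos_of_pos_on` contradicts `GF.seg`. -/
theorem GF.short (P : GF D e) {a : Z n → ℝ} (ha : Continuous a) {k : ℕ}
    (hS : D.Seg fun z => D.b z.1 ^ k * a z) {z₀ : Z n} (hb : D.b z₀.1 = 0) (hl : D.ell z₀ = 0)
    (h0 : 0 < D.H z₀) (he : D.H z₀ < e) : a z₀ = 0 := by
  by_contra hne
  have hex : P.ex z₀ = 0 := P.ex_eq h0 he le_rfl
    (fun s hs => by rw [le_antisymm hs.2 hs.1, P.flow.zero, hb]) (by rw [P.flow.zero, hb])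
    (by rw [P.flow.zero, hl])
  have hc : Continuous fun q : ℝ × Z n => a z₀ * a (P.Φ q.1 q.2) :=
    continuous_const.mul (ha.comp P.flow.cont)
  have h1 : ∀ᶠ q : ℝ × Z n in nhds (0, z₀), 0 < a z₀ * a (P.Φ q.1 q.2) :=
    hc.continuousAt.eventually (lt_mem_nhds (by
      simp only [P.flow.zero]
      exact mul_self_pos.2 hne))
  rw [nhds_prod_eq, Filter.eventually_prod_iff] at h1
  obtain ⟨pa, h1, pb, h2, h3⟩ := h1
  obtain ⟨δ, hδ, h1⟩ := Metric.eventually_nhds_iff.1 h1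
  let w : ℝ → Z n := fun r => (z₀.1, z₀.2 - r • fun i => pd i D.b z₀.1)
  have hw : Filter.Tendsto w (nhdsWithin 0 (Ioi 0)) (nhds z₀) := by
    have h4 : Continuous w :=
      continuous_const.prodMk (continuous_const.sub (continuous_id.smul continuous_const))
    exact (h4.tendsto' 0 z₀ (by simp [w])).mono_left nhdsWithin_le_nhds
  have h4 : ∀ᶠ r in nhdsWithin 0 (Ioi 0), w r ∈ D.sh (D.H z₀ / 2) ((D.H z₀ + e) / 2) :=
    (hw.eventually (D.sm_H.continuous.continuousAt.eventually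
      (Icc_mem_nhds (by linarith) (by linarith)))).mono fun r hr => ⟨hb.le, hr⟩
  have h5 : Filter.Tendsto (fun r => P.ex (w r)) (nhdsWithin 0 (Ioi 0)) (nhds (P.ex z₀)) :=
    Filter.Tendsto.comp (g := P.ex) (f := w) (P.ex_cont (h₀ := D.H z₀ / 2)
      (h₁ := (D.H z₀ + e) / 2) (by linarith) (by linarith) z₀
      ⟨hb.le, by linarith, by linarith⟩) (tendsto_nhdsWithin_iff.2 ⟨hw, h4⟩)
  rw [hex] at h5
  obtain ⟨r, ⟨⟨r1, r2⟩, r3⟩, r4⟩ := (((h4.and (hw.eventually h2)).and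
    (h5.eventually (gt_mem_nhds hδ))).and self_mem_nhdsWithin).exists
  have s0 : 0 < D.H (w r) := by linarith [r1.2.1]
  have s1 : D.H (w r) < e := by linarith [r1.2.2]
  have s2 : D.ell (w r) < 0 := by
    rw [bdry_ell, hl, zero_sub, neg_lt_zero]
    exact mul_pos r4 (mul_pos two_pos (bdry_db D hb))
  have s3 := P.ex_pos r1.1 s0 s1 (Or.inr s2)
  have s4 := P.seg hS s0 s1 s3.le (P.ex_in r1.1 s0 s1) (by rw [P.flow.zero]; exact hb)
    (P.ex_bdry r1.1 s0 s1)
  have s5 : Continuous fun t => (-1) ^ k * a z₀ *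
      (D.b (P.Φ t (w r)).1 ^ k * a (P.Φ t (w r))) :=
    continuous_const.mul (((D.smb.continuous.comp (P.flow.cont_z _).fst).pow k).mul
      (ha.comp (P.flow.cont_z _)))
  have s6 := intervalIntegral.intervalIntegral_pos_of_pos_on (s5.intervalIntegrable 0 (P.ex (w r)))
    (fun t ht => by
      have t1 := pow_pos (neg_pos.2 (P.ex_neg r1.1 s0 s1 t ht)) k
      have t2 : 0 < a z₀ * a (P.Φ t (w r)) := h3 (h1 (y := t) (by
        rw [Real.dist_eq, sub_zero, abs_of_pos ht.1]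
        exact ht.2.trans r3)) r2
      rw [neg_pow] at t1
      exact (mul_pos t1 t2).trans_eq (by ring)) s3
  rw [intervalIntegral.integral_const_mul, s4, mul_zero] at s6
  exact lt_irrefl _ s6

/-- scaling (`HP_smul_arg`) removes the energy restriction -/
theorem GF.short' (P : GF D e) (he : 0 < e) {a : Z n → ℝ} (ha : Continuous a) (hp : FP (d + 1) a)
    {k : ℕ} (hS : D.Seg fun z => D.b z.1 ^ k * a z) {z₀ : Z n} (hb : D.b z₀.1 = 0)
    (hl : D.ell z₀ = 0) : a z₀ = 0 := by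
  have hs : ∀ r : ℝ, a (z₀.1, r • z₀.2) = r ^ (d + 1) * a z₀ := fun r => HP_smul_arg (hp z₀.1) r z₀.2
  by_cases h0 : z₀.2 = 0
  · have h := hs 0
    rw [zero_smul, ← h0, zero_pow d.succ_ne_zero, zero_mul] at h
    exact h
  have h1 := D.H_pos h0
  have h2 : 0 < e / (2 * D.H z₀) := by positivity
  have h3 : D.H (z₀.1, √(e / (2 * D.H z₀)) • z₀.2) = e / 2 := by
    rw [Met.H_smul, Real.sq_sqrt h2.le]
    field_simp
  have h4 := P.short ha hS (z₀ := (z₀.1, √(e / (2 * D.H z₀)) • z₀.2)) hb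
    (by rw [D.ell_smul, hl, mul_zero]) (by linarith) (by linarith)
  rw [hs] at h4
  exact (mul_eq_zero.1 h4).resolve_left (pow_pos (Real.sqrt_pos.2 h2) _).ne'

theorem bdry_normal (D : Dom n) : ∃ N ν : V n → V n, Sm N ∧ Sm ν ∧ (∀ z, lin N z = D.ell z) ∧
    ∀ z : Z n, D.b z.1 = 0 → D.ell (z.1, z.2 - lin N z • ν z.1) = 0 := by
  have h0 : Sm fun x : V n => fun i => pd i D.b x := contDiff_pi.2 fun i => D.smb.pd i
  have h1 : ∀ x, 2 * D.H (x, fun i => pd i D.b x) + D.b x ^ 2 ≠ 0 := fun x => by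
    by_cases h : D.b x = 0
    · have := bdry_db D h
      positivity
    · have := D.H_nonneg (x, fun i => pd i D.b x)
      positivity
  have h2 : ∀ z : Z n, lin (fun x j => ∑ i, D.G x i j * pd i D.b x) z = D.ell z := fun z => by
    simp only [D.ell_eq, lin, Finset.sum_mul, Finset.mul_sum]
    rw [Finset.sum_comm]
    exact Finset.sum_congr rfl fun i _ => Finset.sum_congr rfl fun j _ => by ring
  refine ⟨fun x j => ∑ i, D.G x i j * pd i D.b x,
    fun x => (2 * D.H (x, fun i => pd i D.b x) + D.b x ^ 2)⁻¹ • fun i => pd i D.b x,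
    contDiff_pi.2 fun j => ContDiff.sum fun i _ => (D.smG i j).mul (D.smb.pd i),
    ContDiff.smul (ContDiff.inv ((contDiff_const.mul (D.sm_H.comp (contDiff_id.prodMk h0))).add
      (D.smb.pow 2)) h1) h0, h2, fun z hz => ?_⟩
  have h3 := bdry_db D hz
  rw [smul_smul, bdry_ell, h2, hz]
  field_simp
  ring

/-- Sketch: induction on `k`. `ell = lin N` with `N x j = ∑ i, G x i j * pd i b x`; put
`ν x i = pd i b x / (∑ i j, G x i j * pd i b x * pd j b x + b x ^ 2)` (the denominator is positive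
everywhere), so `lin N (x, ν x) = 1` on the boundary. By `GF.short'` (with `Dom.Seg.gauge`) the function
`a (x, p - ell • ν)` vanishes on the boundary, so it is `b * c'` (`Dom.had`); with `β` of `div_lin`
take `h + b ^ (k + 1) * β / (k + 1)` and `c' - br H β / (k + 1)`. -/
theorem GF.bdry (P : GF D e) (he : 0 < e) {f : Z n → ℝ} (hf : Sm f) (hp : FP (d + 1) f)
    (hS : D.Seg f) (k : ℕ) : ∃ h a : Z n → ℝ, Sm h ∧ FP d h ∧ Sm a ∧ FP (d + 1) a ∧
      (∀ z : Z n, D.b z.1 = 0 → h z = 0) ∧ ∀ z, f z - br D.H h z = D.b z.1 ^ k * a z := by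
  obtain ⟨N, ν, hN, hν, e1, e2⟩ := bdry_normal D
  induction k with
  | zero => exact ⟨fun _ => 0, f, contDiff_const, FP.zero, hf, hp, fun _ _ => rfl, fun z => by
      rw [br_const, pow_zero, sub_zero, one_mul]⟩
  | succ k ih =>
    obtain ⟨h, a, h1, h2, a1, a2, h3, h4⟩ := ih
    have hS' : D.Seg fun z => D.b z.1 ^ k * a z :=
      hS.gauge hf.continuous (h1.of_le (by exact_mod_cast le_top)) h3 fun y _ => (h4 y).symm
    obtain ⟨β, b1, b2, b3, b4, b5⟩ := div_lin hN hν a1 a2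
    obtain ⟨c, c1, c2, c3⟩ := D.had b3 b4 fun z hz =>
      P.short' he a1.continuous a2 hS' (z₀ := (z.1, z.2 - lin N z • ν z.1)) hz (e2 z hz)
    have hk : ((k : ℝ) + 1) ≠ 0 := by positivity
    have s1 : Sm fun z : Z n => ((k : ℝ) + 1)⁻¹ * D.b z.1 ^ (k + 1) :=
      contDiff_const.mul (D.sm_bz.pow _)
    refine ⟨fun z => h z + ((k : ℝ) + 1)⁻¹ * D.b z.1 ^ (k + 1) * β z,
      fun z => c z - ((k : ℝ) + 1)⁻¹ * br D.H β z, h1.add (s1.mul b1),
      h2.add (b2.fst_mul fun x => ((k : ℝ) + 1)⁻¹ * D.b x ^ (k + 1)),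
      c1.sub (contDiff_const.mul (D.sm_H.br b1)),
      c2.sub ((FP.br_H D.toMet b2 fun z => b1.dAt z).fst_mul fun _ => ((k : ℝ) + 1)⁻¹),
      fun z hz => by simp [h3 z hz, hz], fun z => ?_⟩
    have d1 : HasDerivAt (fun s : ℝ => ((k : ℝ) + 1)⁻¹ * s ^ (k + 1)) (D.b z.1 ^ k) (D.b z.1) := by
      refine ((hasDerivAt_pow (k + 1) (D.b z.1)).const_mul ((k : ℝ) + 1)⁻¹).congr_deriv ?_
      rw [Nat.add_sub_cancel, Nat.cast_succ, inv_mul_cancel_left₀ hk]
    have d2 : br D.H (fun w : Z n => ((k : ℝ) + 1)⁻¹ * D.b w.1 ^ (k + 1)) z =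
        D.b z.1 ^ k * D.ell z := by
      rw [br_comp (φ := fun s : ℝ => ((k : ℝ) + 1)⁻¹ * s ^ (k + 1)) (F := fun w : Z n => D.b w.1)
        d1.differentiableAt (D.sm_bz.dAt z), d1.deriv]
      rfl
    rw [br_add (h1.dAt z) (Sm.dAt (s1.mul b1) z), br_mul (s1.dAt z) (b1.dAt z), d2, ← e1]
    linear_combination h4 z + D.b z.1 ^ k * b5 z + D.b z.1 ^ k * c3 z

end Pool.Agent.Lib.MP_45f3cb_gt
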