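import Pool.Agent.Lib.MP_45f3cb_gt.Base

/-!
Rules for `dx`, `dp`, `br`, `hv`.
-/

open Set MeasureTheory

namespace Pool.Agent.Lib.MP_45f3cb_gt

variable {n : ℕ} {a c F G : Z n → ℝ} {z : Z n} {i j : Fin n}

theorem Sm.dx (h : Sm F) (i : Fin n) : Sm (dx i F) := by
  exact (h.fderiv_right (m := (⊤ : ℕ∞)) le_rfl).clm_apply contDiff_const

theorem Sm.dp (h : Sm F) (i : Fin n) : Sm (dp i F) := by
  exact (h.fderiv_right (m := (⊤ : ℕ∞)) le_rfl).clm_apply contDiff_const

theorem Sm.br (ha : Sm a) (h : Sm F) : Sm (br a F) := by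
  exact ContDiff.sum fun i _ => ((ha.dp i).mul (h.dx i)).sub ((ha.dx i).mul (h.dp i))

theorem Sm.hv (ha : Sm a) : Sm (hv a) := by
  exact (contDiff_pi.2 fun i => ha.dp i).prodMk (contDiff_pi.2 fun i => (ha.dx i).neg)

theorem Sm.pd {u : V n → ℝ} (h : Sm u) (i : Fin n) : Sm (pd i u) := by
  exact (h.fderiv_right (m := (⊤ : ℕ∞)) le_rfl).clm_apply contDiff_const

theorem Sm.dAt {E W : Type} [NormedAddCommGroup E] [NormedSpace ℝ E] [NormedAddCommGroup W]
    [NormedSpace ℝ W] {f : E → W} (h : Sm f) (y : E) : DifferentiableAt ℝ f y :=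
  h.differentiable (by simp) y

theorem contDiff_br {k : ℕ} (ha : Sm a) (h : ContDiff ℝ (k + 1 : ℕ) F) : ContDiff ℝ k (br a F) := by
  have h1 : ContDiff ℝ k (fderiv ℝ F) := h.fderiv_right (by push_cast; exact le_rfl)
  have h2 : ∀ {b : Z n → ℝ}, Sm b → ContDiff ℝ k b := fun hb => hb.of_le (by exact_mod_cast le_top)
  exact ContDiff.sum fun i _ => ((h2 (ha.dp i)).mul (h1.clm_apply contDiff_const)).sub
    ((h2 (ha.dx i)).mul (h1.clm_apply contDiff_const))

/-- a vector is the sum of its coordinates -/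
theorem clm_apply_eq (L : Z n →L[ℝ] ℝ) (w : Z n) :
    L w = ∑ i, (w.1 i * L (Pi.single i 1, 0) + w.2 i * L (0, Pi.single i 1)) := by
  have e : w = ∑ i, (w.1 i • ((Pi.single i 1, 0) : Z n) + w.2 i • ((0, Pi.single i 1) : Z n)) := by
    ext j
    · simp [Prod.fst_sum, Finset.sum_apply, Pi.single_apply]
    · simp [Prod.snd_sum, Finset.sum_apply, Pi.single_apply]
  conv_lhs => rw [e]
  simp only [map_sum, map_add, map_smul, smul_eq_mul]

theorem fderiv_eq_sum (F : Z n → ℝ) (z w : Z n) :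
    fderiv ℝ F z w = ∑ i, (w.1 i * dx i F z + w.2 i * dp i F z) := by
  exact clm_apply_eq _ w

theorem fderiv_eq_sum_pd (u : V n → ℝ) (x w : V n) : fderiv ℝ u x w = ∑ i, w i * pd i u x := by
  have e : w = ∑ i, w i • (Pi.single i 1 : V n) := by
    ext j
    simp [Finset.sum_apply, Pi.single_apply]
  conv_lhs => rw [e]
  simp only [map_sum, map_smul, smul_eq_mul]
  rfl

theorem br_eq (a F : Z n → ℝ) (z : Z n) : br a F z = fderiv ℝ F z (hv a z) := by
  rw [fderiv_eq_sum]
  refine Finset.sum_congr rfl fun i _ => ?_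
  simp only [hv]
  ring

theorem br_anti (a F : Z n → ℝ) (z : Z n) : br a F z = -br F a z := by
  simp only [br, ← Finset.sum_neg_distrib]
  exact Finset.sum_congr rfl fun i _ => by ring

theorem br_self (a : Z n → ℝ) (z : Z n) : br a a z = 0 := by
  have := br_anti a a z
  linarith

theorem dx_congr (h : F =ᶠ[nhds z] G) : dx i F z = dx i G z := by
  simp only [dx, h.fderiv_eq]

theorem dp_congr (h : F =ᶠ[nhds z] G) : dp i F z = dp i G z := by
  simp only [dp, h.fderiv_eq]

theorem br_congr (h : F =ᶠ[nhds z] G) : br a F z = br a G z := by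
  simp only [br, dx, dp, h.fderiv_eq]

theorem br_congr_left (h : a =ᶠ[nhds z] c) : br a F z = br c F z := by
  simp only [br, dx, dp, h.fderiv_eq]

theorem hv_congr (h : a =ᶠ[nhds z] c) : hv a z = hv c z := by
  simp only [hv, dx, dp, h.fderiv_eq]

theorem dx_const (r : ℝ) : dx i (fun _ => r) z = 0 := by
  simp [dx]

theorem dp_const (r : ℝ) : dp i (fun _ => r) z = 0 := by
  simp [dp]

theorem br_const (r : ℝ) : br a (fun _ => r) z = 0 := by
  simp [br, dx_const, dp_const]

theorem dx_add (h : DifferentiableAt ℝ F z) (h' : DifferentiableAt ℝ G z) :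
    dx i (fun w => F w + G w) z = dx i F z + dx i G z := by
  simp only [dx, fderiv_fun_add h h', add_apply]

theorem dp_add (h : DifferentiableAt ℝ F z) (h' : DifferentiableAt ℝ G z) :
    dp i (fun w => F w + G w) z = dp i F z + dp i G z := by
  simp only [dp, fderiv_fun_add h h', add_apply]

theorem br_add (h : DifferentiableAt ℝ F z) (h' : DifferentiableAt ℝ G z) :
    br a (fun w => F w + G w) z = br a F z + br a G z := by
  simp only [br_eq, fderiv_fun_add h h', add_apply]

theorem dx_sub (h : DifferentiableAt ℝ F z) (h' : DifferentiableAt ℝ G z) :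
    dx i (fun w => F w - G w) z = dx i F z - dx i G z := by
  simp only [dx, fderiv_fun_sub h h', sub_apply]

theorem dp_sub (h : DifferentiableAt ℝ F z) (h' : DifferentiableAt ℝ G z) :
    dp i (fun w => F w - G w) z = dp i F z - dp i G z := by
  simp only [dp, fderiv_fun_sub h h', sub_apply]

theorem br_sub (h : DifferentiableAt ℝ F z) (h' : DifferentiableAt ℝ G z) :
    br a (fun w => F w - G w) z = br a F z - br a G z := by
  simp only [br_eq, fderiv_fun_sub h h', sub_apply]

theorem br_sub_left (h : DifferentiableAt ℝ a z) (h' : DifferentiableAt ℝ c z) :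
    br (fun w => a w - c w) F z = br a F z - br c F z := by
  rw [br_anti, br_sub h h', br_anti F a, br_anti F c]
  ring

theorem dx_mul (h : DifferentiableAt ℝ F z) (h' : DifferentiableAt ℝ G z) :
    dx i (fun w => F w * G w) z = dx i F z * G z + F z * dx i G z := by
  simp only [dx, fderiv_fun_mul h h', add_apply,
    smul_apply, smul_eq_mul]
  ring

theorem dp_mul (h : DifferentiableAt ℝ F z) (h' : DifferentiableAt ℝ G z) :
    dp i (fun w => F w * G w) z = dp i F z * G z + F z * dp i G z := by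
  simp only [dp, fderiv_fun_mul h h', add_apply,
    smul_apply, smul_eq_mul]
  ring

theorem br_mul (h : DifferentiableAt ℝ F z) (h' : DifferentiableAt ℝ G z) :
    br a (fun w => F w * G w) z = br a F z * G z + F z * br a G z := by
  simp only [br_eq, fderiv_fun_mul h h', add_apply,
    smul_apply, smul_eq_mul]
  ring

theorem dx_sum {ι : Type} {s : Finset ι} {f : ι → Z n → ℝ}
    (h : ∀ k ∈ s, DifferentiableAt ℝ (f k) z) :
    dx i (fun w => ∑ k ∈ s, f k w) z = ∑ k ∈ s, dx i (f k) z := by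
  simp only [dx, fderiv_fun_sum h, _root_.sum_apply]

theorem dp_sum {ι : Type} {s : Finset ι} {f : ι → Z n → ℝ}
    (h : ∀ k ∈ s, DifferentiableAt ℝ (f k) z) :
    dp i (fun w => ∑ k ∈ s, f k w) z = ∑ k ∈ s, dp i (f k) z := by
  simp only [dp, fderiv_fun_sum h, _root_.sum_apply]

theorem br_sum {ι : Type} {s : Finset ι} {f : ι → Z n → ℝ}
    (h : ∀ k ∈ s, DifferentiableAt ℝ (f k) z) :
    br a (fun w => ∑ k ∈ s, f k w) z = ∑ k ∈ s, br a (f k) z := by
  simp only [br_eq, fderiv_fun_sum h, _root_.sum_apply]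

theorem dx_comp {φ : ℝ → ℝ} (hφ : DifferentiableAt ℝ φ (F z)) (h : DifferentiableAt ℝ F z) :
    dx i (fun w => φ (F w)) z = deriv φ (F z) * dx i F z := by
  have h1 : fderiv ℝ (fun w => φ (F w)) z = deriv φ (F z) • fderiv ℝ F z :=
    (hφ.hasDerivAt.comp_hasFDerivAt z h.hasFDerivAt).fderiv
  simp only [dx, h1, smul_apply, smul_eq_mul]

theorem dp_comp {φ : ℝ → ℝ} (hφ : DifferentiableAt ℝ φ (F z)) (h : DifferentiableAt ℝ F z) :
    dp i (fun w => φ (F w)) z = deriv φ (F z) * dp i F z := by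
  have h1 : fderiv ℝ (fun w => φ (F w)) z = deriv φ (F z) • fderiv ℝ F z :=
    (hφ.hasDerivAt.comp_hasFDerivAt z h.hasFDerivAt).fderiv
  simp only [dp, h1, smul_apply, smul_eq_mul]

theorem br_comp {φ : ℝ → ℝ} (hφ : DifferentiableAt ℝ φ (F z)) (h : DifferentiableAt ℝ F z) :
    br a (fun w => φ (F w)) z = deriv φ (F z) * br a F z := by
  have h1 : fderiv ℝ (fun w => φ (F w)) z = deriv φ (F z) • fderiv ℝ F z :=
    (hφ.hasDerivAt.comp_hasFDerivAt z h.hasFDerivAt).fderiv
  simp only [br_eq, h1, smul_apply, smul_eq_mul]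

theorem Calc_dp (h : DifferentiableAt ℝ F z) : dp i F z = pd i (fun p => F (z.1, p)) z.2 := by
  have h1 : fderiv ℝ (fun p => F (z.1, p)) z.2 = _ :=
    (HasFDerivAt.comp (f := fun p => (z.1, p)) z.2 h.hasFDerivAt
      (hasFDerivAt_prodMk_right z.1 z.2)).fderiv
  simp only [dp, pd, h1]
  rfl

theorem Calc_dx (h : DifferentiableAt ℝ F z) : dx i F z = pd i (fun x => F (x, z.2)) z.1 := by
  have h1 : fderiv ℝ (fun x => F (x, z.2)) z.1 = _ :=
    (HasFDerivAt.comp (f := fun x => (x, z.2)) z.1 h.hasFDerivAt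
      (hasFDerivAt_prodMk_left z.1 z.2)).fderiv
  simp only [dx, pd, h1]
  rfl

theorem dx_fst {u : V n → ℝ} (h : DifferentiableAt ℝ u z.1) :
    dx i (fun w => u w.1) z = pd i u z.1 := by
  have h1 : fderiv ℝ (fun w : Z n => u w.1) z = _ := (h.hasFDerivAt.comp z hasFDerivAt_fst).fderiv
  simp only [dx, pd, h1]
  rfl

theorem dp_fst (u : V n → ℝ) : dp i (fun w => u w.1) z = 0 := by
  by_cases h : DifferentiableAt ℝ (fun w : Z n => u w.1) z
  · rw [Calc_dp h]
    simp [pd]
  · simp [dp, fderiv_zero_of_not_differentiableAt h]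

theorem dx_snd (q : V n → ℝ) : dx i (fun w => q w.2) z = 0 := by
  by_cases h : DifferentiableAt ℝ (fun w : Z n => q w.2) z
  · rw [Calc_dx h]
    simp [pd]
  · simp [dx, fderiv_zero_of_not_differentiableAt h]

theorem dp_snd {q : V n → ℝ} (h : DifferentiableAt ℝ q z.2) :
    dp i (fun w => q w.2) z = pd i q z.2 := by
  have h1 : fderiv ℝ (fun w : Z n => q w.2) z = _ := (h.hasFDerivAt.comp z hasFDerivAt_snd).fderiv
  simp only [dp, pd, h1]
  rfl

theorem dp_coord : dp i (fun w : Z n => w.2 j) z = if i = j then 1 else 0 := by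
  rw [dp_snd (q := fun p => p j) (differentiableAt_apply j _)]
  have h1 : fderiv ℝ (fun p : V n => p j) z.2 = _ := (hasFDerivAt_apply j z.2).fderiv
  simp only [pd, h1]
  simp [Pi.single_apply, eq_comm]

theorem dx_coord : dx i (fun w : Z n => w.2 j) z = 0 := by
  exact dx_snd (fun p => p j)

/-- the fibre derivative -/
theorem dp_eq_pd (h : DifferentiableAt ℝ F z) : dp i F z = pd i (fun p => F (z.1, p)) z.2 := by
  exact Calc_dp h

theorem dx_eq_pd (h : DifferentiableAt ℝ F z) : dx i F z = pd i (fun x => F (x, z.2)) z.1 := by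
  exact Calc_dx h

theorem br_fst {u : V n → ℝ} (h : DifferentiableAt ℝ u z.1) :
    br a (fun w => u w.1) z = ∑ i, dp i a z * pd i u z.1 := by
  simp only [br, dx_fst h, dp_fst, mul_zero, sub_zero]

theorem hcs_dx (h : HasCompactSupport F) (i : Fin n) :
    HasCompactSupport (dx i F) := by
  exact (h.fderiv ℝ).comp_left (g := fun L : Z n →L[ℝ] ℝ => L (Pi.single i 1, 0)) rfl

theorem hcs_dp (h : HasCompactSupport F) (i : Fin n) :
    HasCompactSupport (dp i F) := by
  exact (h.fderiv ℝ).comp_left (g := fun L : Z n →L[ℝ] ℝ => L (0, Pi.single i 1)) rfl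

theorem hcs_br (h : HasCompactSupport F) (a : Z n → ℝ) :
    HasCompactSupport (br a F) := by
  refine (h.fderiv ℝ).mono fun w hw => ?_
  rw [Function.mem_support] at hw ⊢
  intro h0
  exact hw (by rw [br_eq, h0]; rfl)

/-- a `C¹` function that vanishes on an open set has zero derivative on its closure -/
theorem fderiv_zero_of_closure {E : Type} [NormedAddCommGroup E] [NormedSpace ℝ E] {u : E → ℝ}
    {O : Set E} (hu : ContDiff ℝ 1 u) (hO : IsOpen O) (h : ∀ y ∈ O, u y = 0) {y : E}
    (hy : y ∈ closure O) : u y = 0 ∧ fderiv ℝ u y = 0 := by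
  refine ⟨closure_minimal (t := {y | u y = 0}) h (isClosed_eq hu.continuous continuous_const) hy,
    closure_minimal (t := {y | fderiv ℝ u y = 0}) (fun x hx => ?_)
      (isClosed_eq (hu.continuous_fderiv one_ne_zero) continuous_const) hy⟩
  have h1 : u =ᶠ[nhds x] fun _ => 0 := Filter.eventually_of_mem (hO.mem_nhds hx) h
  show fderiv ℝ u x = 0
  rw [h1.fderiv_eq]
  simp

end Pool.Agent.Lib.MP_45f3cb_gt
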