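import Pool.Agent.Lib.MP_45f3cb_gt.Gau
import Pool.Agent.Lib.MP_45f3cb_gt.Pest

/-!
The weighted Pestov identity.
-/

open Set MeasureTheory

namespace Pool.Agent.Lib.MP_45f3cb_gt

variable {n d : ℕ} {A : Met n} {ξ : V n → V n} {K : Set (V n)} {r τ : ℝ} {U f u : Z n → ℝ}

theorem car1_intg (hc : HasCompactSupport U) {F : Z n → ℝ} (hF : Sm F)
    (h : ∀ z, U z = 0 → (∀ i, dx i U z = 0) → (∀ i, dp i U z = 0) → (∀ a, br a U z = 0) →
      F z = 0) : Integrable F :=
  pest_intg hc hF.continuous fun z hz => h z (image_eq_zero_of_notMem_tsupport hz)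
    (fun i => (pest_off hz i).1) (fun i => (pest_off hz i).2) fun a => by
      simp [br, fun i => (pest_off hz i).1, fun i => (pest_off hz i).2]

theorem car1_sum {a b : Fin n → Z n → ℝ} (ha : ∀ i, Sm (a i)) (hb : ∀ i, Sm (b i)) :
    Sm fun z => ∑ i, a i z * b i z := ContDiff.sum fun i _ => (ha i).mul (hb i)

theorem CD.hcs (h : CD A ξ d K r τ U f u) (hξ : Sm ξ) (hK : IsCompact K) :
    HasCompactSupport U := by
  exact HasCompactSupport.intro (A.isCompact_tube hξ hK r) h.supp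

theorem CD.dp_a (h : CD A ξ d K r τ U f u) (hξ : Sm ξ) (i : Fin n) (z : Z n) :
    dp i (br A.H U) z = τ * dp i (A.psi ξ) z * br A.H U z + A.W ξ τ z * dp i f z +
      A.W ξ τ z * dp i u z := by
  have e : br A.H U = fun z => A.W ξ τ z * (f z + u z) := funext h.eq
  have s : Sm fun z => f z + u z := ContDiff.add h.smf h.smu
  rw [h.eq z, e, dp_mul ((A.sm_W hξ τ).dAt z) (s.dAt z), dp_add (h.smf.dAt z) (h.smu.dAt z),
    A.dp_W hξ]
  ring

/-- `Orth.dx` for `W U`, `Orth.int_mul`, `FP.dp`, `Met.dx_W` -/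
theorem CD.orth1 (h : CD A ξ d K r τ U f u) (hξ : Sm ξ) (hK : IsCompact K) :
    ∫ z, A.W ξ τ z * ∑ i, dp i f z * dx i U z =
      -τ * ∫ z, A.W ξ τ z * (∑ i, dx i (A.psi ξ) z * dp i f z) * U z := by
  have hc := h.hcs hξ hK
  have hW := A.sm_W hξ τ
  have hψ := A.sm_psi hξ
  have sF : Sm fun z => A.W ξ τ z * U z := ContDiff.mul hW h.smU
  have cF : HasCompactSupport fun z => A.W ξ τ z * U z := hc.mul_left
  have lF : LB fun z => A.W ξ τ z * U z := A.lb_sig hξ (s := r) fun z hz => by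
    rw [h.supp z fun h' => not_le.2 hz h'.2, mul_zero]
  have j1 : ∀ i, Integrable fun z => dx i (fun z => A.W ξ τ z * U z) z * dp i f z := fun i =>
    intg ((sF.dx i).continuous.mul (h.smf.dp i).continuous) (hcs_dx cF i).mul_right
  have e1 : ∫ z, ∑ i, dx i (fun z => A.W ξ τ z * U z) z * dp i f z = 0 := by
    rw [integral_finsetSum _ fun i _ => j1 i]
    exact Finset.sum_eq_zero fun i _ => (h.orth.dx sF lF i).int_mul (sF.dx i).continuous
      (hcs_dx cF i) (h.smf.dp i).continuous (h.fp.dp (fun z => h.smf.dAt z) i)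
  have i1 : Integrable fun z => A.W ξ τ z * ∑ i, dp i f z * dx i U z :=
    car1_intg hc (hW.mul (car1_sum h.smf.dp h.smU.dx)) fun z _ h2 _ _ => by simp [h2]
  have i2 : Integrable fun z => A.W ξ τ z * (∑ i, dx i (A.psi ξ) z * dp i f z) * U z :=
    car1_intg hc ((hW.mul (car1_sum hψ.dx h.smf.dp)).mul h.smU) fun z h1 _ _ _ => by simp [h1]
  have e2 : ∀ z, ∑ i, dx i (fun z => A.W ξ τ z * U z) z * dp i f z =
      A.W ξ τ z * ∑ i, dp i f z * dx i U z +
        τ * (A.W ξ τ z * (∑ i, dx i (A.psi ξ) z * dp i f z) * U z) := fun z => by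
    simp only [dx_mul (hW.dAt z) (h.smU.dAt z), A.dx_W hξ, Finset.mul_sum, Finset.sum_mul,
      ← Finset.sum_add_distrib]
    exact Finset.sum_congr rfl fun i _ => by ring
  simp only [e2] at e1
  rw [integral_add i1 (i2.const_mul τ), integral_const_mul] at e1
  linarith

theorem CD.orth2 (h : CD A ξ d K r τ U f u) (hξ : Sm ξ) (hK : IsCompact K) :
    ∫ z, A.W ξ τ z * (∑ i, pd i (A.rho ξ) z.1 * dp i f z) * U z = 0 := by
  have sF : Sm fun z => A.W ξ τ z * U z := ContDiff.mul (A.sm_W hξ τ) h.smU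
  have e := h.orth.int_mul sF.continuous (h.hcs hξ hK).mul_left
    (G := fun z => ∑ i, pd i (A.rho ξ) z.1 * dp i f z)
    (car1_sum (fun i => ((A.sm_rho hξ).pd i).comp contDiff_fst) h.smf.dp).continuous
    (FP.sum fun i _ => (h.fp.dp (fun z => h.smf.dAt z) i).fst_mul (pd i (A.rho ξ)))
  rw [← e]
  exact integral_congr_ae (Filter.Eventually.of_forall fun z => mul_right_comm _ _ _)

/-- `int_br` for `μ U²` -/
theorem int_mu {H μ : Z n → ℝ} (hH : Sm H) (hμ : Sm μ) (hU : Sm U) (hc : HasCompactSupport U) :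
    2 * ∫ z, μ z * U z * br H U z = ∫ z, -br H μ z * U z ^ 2 := by
  have e := int_mul_br hH hμ (G := fun z => U z * U z) (ContDiff.mul hU hU) hc.mul_left
  simp only [br_mul (hU.dAt _) (hU.dAt _)] at e
  rw [← integral_neg] at e
  rw [← integral_const_mul]
  refine (integral_congr_ae (Filter.Eventually.of_forall fun z => ?_)).trans
    (e.trans (integral_congr_ae (Filter.Eventually.of_forall fun z => ?_)))
  · show 2 * (μ z * U z * br H U z) = μ z * (br H U z * U z + U z * br H U z)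
    ring
  · show -(br H μ z * (U z * U z)) = -br H μ z * U z ^ 2
    ring

/-- Sketch: with `a = br H U`: `∑ dp i psi * dx i U = br psi U + ∑ dx i psi * dp i U` and
`br psi U = br L U - a` (`br_sub_left`); `int_mul_dp` for `∫ a * dx i psi * dp i U`; `CD.dp_a`;
`int_mu`. -/
theorem CD.mixed (h : CD A ξ d K r τ U f u) (hξ : Sm ξ) (hK : IsCompact K) :
    2 * ∫ z, br A.H U z * ∑ i, dp i (A.psi ξ) z * dx i U z =
      (2 * ∫ z, br A.H U z * br (lin ξ) U z) - (2 * ∫ z, br A.H U z ^ 2) -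
      (τ * ∫ z, -br A.H (A.mu ξ) z * U z ^ 2) -
      (2 * ∫ z, A.W ξ τ z * (∑ i, dx i (A.psi ξ) z * dp i f z) * U z) -
      (2 * ∫ z, A.W ξ τ z * (∑ i, dx i (A.psi ξ) z * dp i u z) * U z) -
      2 * ∫ z, (∑ i, dp i (dx i (A.psi ξ)) z) * br A.H U z * U z := by
  have hc := h.hcs hξ hK
  have hW := A.sm_W hξ τ
  have hψ := A.sm_psi hξ
  have hU := h.smU
  have ha : Sm (br A.H U) := A.sm_H.br hU
  have sP : ∀ i, Sm fun z => br A.H U z * dx i (A.psi ξ) z * U z := fun i =>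
    (ha.mul (hψ.dx i)).mul hU
  have cP : ∀ i, HasCompactSupport fun z => br A.H U z * dx i (A.psi ξ) z * U z := fun i =>
    hc.mul_left
  have j7 : ∀ i, Integrable (dp i fun z => br A.H U z * dx i (A.psi ξ) z * U z) := fun i =>
    intg ((sP i).dp i).continuous (hcs_dp (cP i) i)
  have e1 : ∫ z, ∑ i, dp i (fun z => br A.H U z * dx i (A.psi ξ) z * U z) z = 0 := by
    rw [integral_finsetSum _ fun i _ => j7 i]
    exact Finset.sum_eq_zero fun i _ => int_dp (sP i) (cP i) i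
  have i7 := integrable_finsetSum Finset.univ fun i _ => j7 i
  have i1 : Integrable fun z => br A.H U z * br (lin ξ) U z :=
    car1_intg hc (ha.mul ((sm_lin hξ).br hU)) fun z _ _ _ h4 => by simp [h4]
  have i2 : Integrable fun z => br A.H U z ^ 2 :=
    car1_intg hc (ha.pow 2) fun z _ _ _ h4 => by simp [h4]
  have i3 : Integrable fun z => A.mu ξ z * U z * br A.H U z :=
    car1_intg hc (((A.sm_mu hξ).mul hU).mul ha) fun z _ _ _ h4 => by simp [h4]
  have i4 : Integrable fun z => A.W ξ τ z * (∑ i, dx i (A.psi ξ) z * dp i f z) * U z :=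
    car1_intg hc ((hW.mul (car1_sum hψ.dx h.smf.dp)).mul hU) fun z h1 _ _ _ => by simp [h1]
  have i5 : Integrable fun z => A.W ξ τ z * (∑ i, dx i (A.psi ξ) z * dp i u z) * U z :=
    car1_intg hc ((hW.mul (car1_sum hψ.dx h.smu.dp)).mul hU) fun z h1 _ _ _ => by simp [h1]
  have i6 : Integrable fun z => (∑ i, dp i (dx i (A.psi ξ)) z) * br A.H U z * U z :=
    car1_intg hc (((ContDiff.sum fun i _ => (hψ.dx i).dp i).mul ha).mul hU)
      fun z h1 _ _ _ => by simp [h1]
  have e2 : ∀ z, br A.H U z * ∑ i, dp i (A.psi ξ) z * dx i U z =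
      br A.H U z * br (lin ξ) U z - br A.H U z ^ 2 - τ * (A.mu ξ z * U z * br A.H U z) -
      A.W ξ τ z * (∑ i, dx i (A.psi ξ) z * dp i f z) * U z -
      A.W ξ τ z * (∑ i, dx i (A.psi ξ) z * dp i u z) * U z -
      (∑ i, dp i (dx i (A.psi ξ)) z) * br A.H U z * U z +
      ∑ i, dp i (fun z => br A.H U z * dx i (A.psi ξ) z * U z) z := fun z => by
    have a1 : br (A.psi ξ) U z = br (lin ξ) U z - br A.H U z :=
      br_sub_left ((sm_lin hξ).dAt z) (A.sm_H.dAt z)
    have a2 : ∑ i, dp i (fun z => br A.H U z * dx i (A.psi ξ) z * U z) z =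
        τ * (A.mu ξ z * U z * br A.H U z) +
        A.W ξ τ z * (∑ i, dx i (A.psi ξ) z * dp i f z) * U z +
        A.W ξ τ z * (∑ i, dx i (A.psi ξ) z * dp i u z) * U z +
        (∑ i, dp i (dx i (A.psi ξ)) z) * br A.H U z * U z +
        br A.H U z * ∑ i, dx i (A.psi ξ) z * dp i U z := by
      simp only [Met.mu, Finset.mul_sum, Finset.sum_mul, ← Finset.sum_add_distrib]
      refine Finset.sum_congr rfl fun i _ => ?_
      rw [dp_mul (Sm.dAt (ha.mul (hψ.dx i)) z) (hU.dAt z), dp_mul (ha.dAt z) ((hψ.dx i).dAt z),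
        h.dp_a hξ]
      ring
    rw [br, Finset.sum_sub_distrib] at a1
    rw [a2]
    linear_combination br A.H U z * a1
  have e3 := int_mu A.sm_H (A.sm_mu hξ) hU hc
  have k2 := i1.sub i2
  have k3 := k2.sub (i3.const_mul τ)
  have k4 := k3.sub i4
  have k5 := k4.sub i5
  have k6 := k5.sub i6
  simp only [Pi.sub_def] at k2 k3 k4 k5 k6
  simp only [e2]
  rw [integral_add k6 i7, integral_sub k5 i6, integral_sub k4 i5, integral_sub k3 i4,
    integral_sub k2 (i3.const_mul τ), integral_sub i1 i2, integral_const_mul, e1, ← e3]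
  ring

/-- `pestov`, `Met.dp_dp_H`, `CD.dp_a`, `CD.mixed`, `CD.orth1`, `CD.orth2` -/
theorem CD.ident (h : CD A ξ d K r τ U f u) (hξ : Sm ξ) (hK : IsCompact K) :
    (∫ z, ∑ i, ∑ j, A.G z.1 i j * dx i U z * dx j U z) + (2 * τ * ∫ z, br A.H U z ^ 2) +
      τ ^ 2 * ∫ z, -br A.H (A.mu ξ) z * U z ^ 2 =
    (∫ z, ∑ i, ∑ j, dx i (dx j A.H) z * dp i U z * dp j U z) +
      (2 * τ * ∫ z, br A.H U z * br (lin ξ) U z) -
      (4 * τ * ∫ z, A.W ξ τ z *
        (∑ i, (dx i (A.psi ξ) z - pd i (A.rho ξ) z.1) * dp i f z) * U z) -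
      (2 * τ * ∫ z, (∑ i, dp i (dx i (A.psi ξ)) z) * br A.H U z * U z) -
      (2 * τ * ∫ z, A.W ξ τ z * (∑ i, dx i (A.psi ξ) z * dp i u z) * U z) +
      2 * ∫ z, A.W ξ τ z * ∑ i, dp i u z * dx i U z := by
  have hc := h.hcs hξ hK
  have hW := A.sm_W hξ τ
  have hψ := A.sm_psi hξ
  have hU := h.smU
  have ha : Sm (br A.H U) := A.sm_H.br hU
  have i1 : Integrable fun z => ∑ i, ∑ j, A.G z.1 i j * dx i U z * dx j U z :=
    car1_intg hc (ContDiff.sum fun i _ => ContDiff.sum fun j _ =>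
      (((A.smG i j).comp contDiff_fst).mul (hU.dx i)).mul (hU.dx j)) fun z _ h2 _ _ => by simp [h2]
  have i2 : Integrable fun z => ∑ i, ∑ j, dx i (dx j A.H) z * dp i U z * dp j U z :=
    car1_intg hc (ContDiff.sum fun i _ => ContDiff.sum fun j _ =>
      (((A.sm_H.dx j).dx i).mul (hU.dp i)).mul (hU.dp j)) fun z _ _ h3 _ => by simp [h3]
  have i3 : Integrable fun z => br A.H U z * ∑ i, dp i (A.psi ξ) z * dx i U z :=
    car1_intg hc (ha.mul (car1_sum hψ.dp hU.dx)) fun z _ h2 _ _ => by simp [h2]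
  have i4 : Integrable fun z => A.W ξ τ z * ∑ i, dp i f z * dx i U z :=
    car1_intg hc (hW.mul (car1_sum h.smf.dp hU.dx)) fun z _ h2 _ _ => by simp [h2]
  have i5 : Integrable fun z => A.W ξ τ z * ∑ i, dp i u z * dx i U z :=
    car1_intg hc (hW.mul (car1_sum h.smu.dp hU.dx)) fun z _ h2 _ _ => by simp [h2]
  have i6 : Integrable fun z => A.W ξ τ z * (∑ i, dx i (A.psi ξ) z * dp i f z) * U z :=
    car1_intg hc ((hW.mul (car1_sum hψ.dx h.smf.dp)).mul hU) fun z h1 _ _ _ => by simp [h1]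
  have i7 : Integrable fun z => A.W ξ τ z * (∑ i, pd i (A.rho ξ) z.1 * dp i f z) * U z :=
    car1_intg hc ((hW.mul (car1_sum (fun i => ((A.sm_rho hξ).pd i).comp contDiff_fst)
      h.smf.dp)).mul hU) fun z h1 _ _ _ => by simp [h1]
  have e1 := pestov A.sm_H hU hc
  have e2 : ∀ z, ∑ i, dp i (br A.H U) z * dx i U z =
      τ * (br A.H U z * ∑ i, dp i (A.psi ξ) z * dx i U z) +
        A.W ξ τ z * ∑ i, dp i f z * dx i U z + A.W ξ τ z * ∑ i, dp i u z * dx i U z := fun z => by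
    simp only [h.dp_a hξ, Finset.mul_sum, ← Finset.sum_add_distrib]
    exact Finset.sum_congr rfl fun i _ => by ring
  have e3 : ∀ z, A.W ξ τ z * (∑ i, (dx i (A.psi ξ) z - pd i (A.rho ξ) z.1) * dp i f z) * U z =
      A.W ξ τ z * (∑ i, dx i (A.psi ξ) z * dp i f z) * U z -
        A.W ξ τ z * (∑ i, pd i (A.rho ξ) z.1 * dp i f z) * U z := fun z => by
    simp only [sub_mul, Finset.sum_sub_distrib, mul_sub]
  have k1 := (i3.const_mul τ).add i4
  simp only [Pi.add_def] at k1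
  simp only [e2, A.dp_dp_H, Finset.sum_sub_distrib] at e1
  rw [integral_add k1 i5, integral_add (i3.const_mul τ) i4, integral_const_mul,
    integral_sub i1 i2] at e1
  simp only [e3]
  rw [integral_sub i6 i7, h.orth2 hξ hK]
  linear_combination τ * h.mixed hξ hK + 2 * h.orth1 hξ hK - e1

end Pool.Agent.Lib.MP_45f3cb_gt
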