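import Pool.Agent.Lib.MP_45f3cb_gt.Car1

/-!
Estimates of the single terms of the weighted identity (`int_mul_le` and bounded coefficients on
`tube K 1`).
-/

open Set MeasureTheory

namespace Pool.Agent.Lib.MP_45f3cb_gt

variable {n : ℕ} {A : Met n} {ξ : V n → V n} {K : Set (V n)}

theorem car2b_le {S : Set (Z n)} (hS : IsCompact S) {F w ρ : Z n → ℝ} (hF : Continuous F)
    (hw : Continuous w) (hρ : Continuous ρ) (hF0 : ∀ z, z ∉ S → F z = 0)
    (hw0 : ∀ z, z ∉ S → w z = 0) {a α γ : ℝ} (h : ∀ z ∈ S, a * F z ≤ α * w z + γ * ρ z) :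
    a * ∫ z, F z ≤ (α * ∫ z, w z) + γ * ∫ z in S, ρ z := by
  have i1 : IntegrableOn F S := hF.continuousOn.integrableOn_compact hS
  have i2 : IntegrableOn w S := hw.continuousOn.integrableOn_compact hS
  have i3 : IntegrableOn ρ S := hρ.continuousOn.integrableOn_compact hS
  rw [← setIntegral_eq_integral_of_forall_compl_eq_zero hF0,
    ← setIntegral_eq_integral_of_forall_compl_eq_zero hw0, ← integral_const_mul,
    ← integral_const_mul, ← integral_const_mul, ← integral_add (i2.const_mul _) (i3.const_mul _)]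
  exact setIntegral_mono_on (i1.const_mul _) ((i2.const_mul _).add (i3.const_mul _))
    hS.measurableSet h

theorem car2b_abs {S : Set (Z n)} (hS : IsCompact S) {F w ρ : Z n → ℝ} (hF : Continuous F)
    (hw : Continuous w) (hρ : Continuous ρ) (hF0 : ∀ z, z ∉ S → F z = 0)
    (hw0 : ∀ z, z ∉ S → w z = 0) {a α γ : ℝ} (ha : 0 ≤ a)
    (h : ∀ z ∈ S, a * |F z| ≤ α * w z + γ * ρ z) :
    a * |∫ z, F z| ≤ (α * ∫ z, w z) + γ * ∫ z in S, ρ z :=
  (mul_le_mul_of_nonneg_left abs_integral_le_integral_abs ha).trans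
    (car2b_le hS hF.abs hw hρ (fun z hz => by rw [hF0 z hz, abs_zero]) hw0 h)

theorem car2b_le' {S : Set (Z n)} (hS : IsCompact S) {F w : Z n → ℝ} (hF : Continuous F)
    (hw : Continuous w) (hF0 : ∀ z, z ∉ S → F z = 0) (hw0 : ∀ z, z ∉ S → w z = 0) {a α : ℝ}
    (h : ∀ z ∈ S, a * F z ≤ α * w z) : a * ∫ z, F z ≤ α * ∫ z, w z := by
  simpa using car2b_le hS hF hw hw hF0 hw0 (γ := 0) fun z hz => by simpa using h z hz

theorem car2b_off {d : ℕ} {r τ : ℝ} {U f u : Z n → ℝ} (h : CD A ξ d K r τ U f u) (hξ : Sm ξ)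
    (hK : IsCompact K) {z : Z n} (hz : z ∉ A.tube ξ K r) (i : Fin n) :
    dx i U z = 0 ∧ dp i U z = 0 :=
  pest_off (fun h1 => hz (closure_minimal (s := Function.support U)
    (fun w hw => by_contra fun h2 => hw (h.supp w h2)) (A.isCompact_tube hξ hK r).isClosed h1)) i

theorem car2b_young {ε : ℝ} (hε : 0 < ε) (τ x y : ℝ) :
    2 * τ * |x * y| ≤ ε * τ ^ 2 * y ^ 2 + ε⁻¹ * x ^ 2 := by
  have h3 : 0 ≤ ε⁻¹ * (ε * τ * |y| - |x|) ^ 2 := by positivity
  have h4 : ε⁻¹ * (ε * τ * |y| - |x|) ^ 2 =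
      ε * τ ^ 2 * |y| ^ 2 + ε⁻¹ * |x| ^ 2 - 2 * τ * (|x| * |y|) := by
    field_simp
    ring
  rw [h4, sq_abs, sq_abs, ← abs_mul] at h3
  linarith

theorem car2b_bound {S : Set (Z n)} (hS : IsCompact S) {F : Z n → ℝ} (hF : Continuous F) :
    ∃ C : ℝ, 0 ≤ C ∧ ∀ z ∈ S, F z ≤ C := by
  obtain ⟨C, hC⟩ := hS.exists_bound_of_continuousOn hF.continuousOn
  exact ⟨max C 0, le_max_right _ _, fun z hz =>
    ((le_abs_self _).trans (hC z hz)).trans (le_max_left _ _)⟩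

theorem car2b_sum {F : Fin n → Z n → ℝ} (h : ∀ i, Continuous (F i)) :
    Continuous fun z => ∑ i, F i z := continuous_finsetSum _ fun i _ => h i

theorem car2b_n1 (u : Z n → ℝ) (z : Z n) : ∑ i, dp i u z ^ 2 ≤ n1 u z :=
  le_add_of_nonneg_left (sq_nonneg _)

theorem car_t0 (hG : Good A ξ K) (d : ℕ) : ∃ l c r₀ : ℝ, 0 < l ∧ 0 < c ∧ 0 < r₀ ∧
    ∀ (r τ : ℝ) (U f u : Z n → ℝ), r ≤ r₀ → CD A ξ d K r τ U f u →
      l * ∫ z, ∑ i, dx i U z ^ 2 ≤ ∫ z, ∑ i, ∑ j, A.G z.1 i j * dx i U z * dx j U z ∧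
      c * ∫ z, U z ^ 2 ≤ ∫ z, -br A.H (A.mu ξ) z * U z ^ 2 := by
  obtain ⟨l, L, hl, -, h1⟩ := A.bounds hG.cpt
  obtain ⟨c, r₀, hc, hr₀, h2⟩ := A.pos_graph hG.sm hG.cpt
    (F := fun z => -br A.H (A.mu ξ) z) (A.sm_H.br (A.sm_mu hG.sm)).continuous.neg hG.pos
  refine ⟨2 * l / (n + 1), c, r₀, by positivity, hc, hr₀, fun r τ U f u hr h => ⟨?_, ?_⟩⟩
  · have hx := fun i => (h.smU.dx i).continuous
    rw [← one_mul (∫ z, ∑ i, ∑ j, _)]
    refine car2b_le' (A.isCompact_tube hG.sm hG.cpt r) (car2b_sum fun i => (hx i).pow 2)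
      (car2b_sum fun i => car2b_sum fun j => ((MetF_G A i j).continuous.mul (hx i)).mul (hx j))
      (fun z hz => by simp [(car2b_off h hG.sm hG.cpt hz _).1])
      (fun z hz => by simp [(car2b_off h hG.sm hG.cpt hz _).1]) fun z hz => ?_
    have h3 := (h1 z.1 hz.1 fun i => dx i U z).1
    have h4 : ∑ i, dx i U z ^ 2 ≤ n * ‖fun i => dx i U z‖ ^ 2 := by
      refine (Finset.sum_le_card_nsmul _ _ (‖fun i => dx i U z‖ ^ 2) fun i _ => ?_).trans
        (by simp)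
      rw [← sq_abs]
      exact pow_le_pow_left₀ (abs_nonneg _) (norm_le_pi_norm (fun i => dx i U z) i) 2
    simp only [Met.H] at h3
    simp only [Pi.mul_apply, Pi.pow_apply]
    rw [div_mul_eq_mul_div, div_le_iff₀ (by positivity)]
    have h5 : 0 ≤ l * ‖fun i => dx i U z‖ ^ 2 := by positivity
    have h6 := mul_le_mul_of_nonneg_left h4 hl.le
    have h7 := mul_le_mul_of_nonneg_left h3 (Nat.cast_nonneg (α := ℝ) n)
    nlinarith
  · rw [← one_mul (∫ z, -br _ _ _ * _)]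
    refine car2b_le' (A.isCompact_tube hG.sm hG.cpt r) (h.smU.continuous.pow 2)
      ((A.sm_H.br (A.sm_mu hG.sm)).continuous.neg.mul (h.smU.continuous.pow 2))
      (fun z hz => by simp [h.supp z hz]) (fun z hz => by simp [h.supp z hz]) fun z hz => ?_
    rw [one_mul]
    exact mul_le_mul_of_nonneg_right (h2 z hz.1 (hz.2.trans hr)) (sq_nonneg _)

theorem car_t1 (hξ : Sm ξ) (hK : IsCompact K) (d : ℕ) : ∃ C : ℝ, 0 ≤ C ∧
    ∀ (r τ : ℝ) (U f u : Z n → ℝ), r ≤ 1 → CD A ξ d K r τ U f u →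
      ∫ z, ∑ i, ∑ j, dx i (dx j A.H) z * dp i U z * dp j U z ≤ C * ∫ z, ∑ i, dp i U z ^ 2 := by
  have hB := fun i j => ((A.sm_H.dx j).dx i).continuous
  obtain ⟨β, hβ, h1⟩ := car2b_bound (A.isCompact_tube hξ hK 1)
    (car2b_sum fun i => car2b_sum fun j => (hB i j).abs)
  refine ⟨n * β, by positivity, fun r τ U f u hr h => ?_⟩
  have hp := fun i => (h.smU.dp i).continuous
  rw [← one_mul (∫ z, ∑ i, ∑ j, _)]
  refine car2b_le' (A.isCompact_tube hξ hK r)
    (car2b_sum fun i => car2b_sum fun j => ((hB i j).mul (hp i)).mul (hp j))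
    (car2b_sum fun i => (hp i).pow 2) (fun z hz => by simp [(car2b_off h hξ hK hz _).2])
    (fun z hz => by simp [(car2b_off h hξ hK hz _).2]) fun z hz => ?_
  have h2 : ∀ i j, |dx i (dx j A.H) z| ≤ β := fun i j =>
    ((Finset.single_le_sum (f := fun j => |dx i (dx j A.H) z|) (fun _ _ => abs_nonneg _)
      (Finset.mem_univ j)).trans (Finset.single_le_sum (f := fun i => ∑ j, |dx i (dx j A.H) z|)
        (fun _ _ => Finset.sum_nonneg fun _ _ => abs_nonneg _) (Finset.mem_univ i))).trans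
      (h1 z (A.tube_mono hr hz))
  refine le_trans (le_of_eq ?_) ((le_abs_self _).trans (pest_quad h2 fun i => dp i U z))
  simp only [one_mul, Finset.mul_sum, Pi.mul_apply]
  exact Finset.sum_congr rfl fun i _ => Finset.sum_congr rfl fun j _ => by ring

theorem car_t2 {F G : Z n → ℝ} (hF : Continuous F) (hG : Continuous G) (hF' : HasCompactSupport F)
    (hG' : HasCompactSupport G) :
    2 * ∫ z, F z * G z ≤ (1 / 2 * ∫ z, F z ^ 2) + 2 * ∫ z, G z ^ 2 := by
  have i1 : Integrable fun z => F z ^ 2 :=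
    intg (hF.pow 2) (hF'.comp_left (g := fun t : ℝ => t ^ 2) (by simp))
  have i2 : Integrable fun z => G z ^ 2 :=
    intg (hG.pow 2) (hG'.comp_left (g := fun t : ℝ => t ^ 2) (by simp))
  rw [← integral_const_mul, ← integral_const_mul, ← integral_const_mul,
    ← integral_add (i1.const_mul _) (i2.const_mul _)]
  refine integral_mono ((intg (hF.mul hG) hG'.mul_left).const_mul _)
    ((i1.const_mul _).add (i2.const_mul _)) fun z => ?_
  simp only
  nlinarith [sq_nonneg (F z - 2 * G z)]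

/-- `dx i psi - pd i rho` vanishes on the graph (`Met.dx_psi_fl`), `Met.sq_le_sig`, `Met.gau'` -/
theorem car_t3 (hξ : Sm ξ) (hK : IsCompact K) (d : ℕ) {ε : ℝ} (hε : 0 < ε) : ∃ C : ℝ, 0 ≤ C ∧
    ∀ (r τ : ℝ) (U f u : Z n → ℝ), r ≤ 1 → 1 ≤ τ → CD A ξ d K r τ U f u →
      4 * τ * |∫ z, A.W ξ τ z * (∑ i, (dx i (A.psi ξ) z - pd i (A.rho ξ) z.1) * dp i f z) * U z| ≤
        (ε * τ ^ 2 * ∫ z, U z ^ 2) + C * A.Bq ξ K τ f := by
  have ha : ∀ i, Sm fun z : Z n => dx i (A.psi ξ) z - pd i (A.rho ξ) z.1 := fun i =>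
    ((A.sm_psi hξ).dx i).sub (((A.sm_rho hξ).pd i).comp contDiff_fst)
  choose c hc h1 using fun i => A.sq_le_sig hξ hK (ha i)
    (fun x _ => by rw [A.dx_psi_fl hξ, sub_self]) 1
  obtain ⟨C, hC, h2⟩ := A.gau' hξ hK (d + 1)
  have hs : 0 ≤ ∑ i, c i := Finset.sum_nonneg fun i _ => hc i
  refine ⟨4 * ε⁻¹ * (∑ i, c i) * C, by positivity, fun r τ U f u hr hτ h => ?_⟩
  have hW := (A.sm_W hξ τ).continuous
  have hp := fun i => (h.smf.dp i).continuous
  refine (car2b_abs (A.isCompact_tube hξ hK r)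
    ((hW.mul (car2b_sum fun i => (ha i).continuous.mul (hp i))).mul h.smU.continuous)
    (h.smU.continuous.pow 2)
    ((hW.pow 2).mul ((A.sm_sig hξ).continuous.mul (car2b_sum fun i => (hp i).pow 2)))
    (fun z hz => by simp [h.supp z hz]) (fun z hz => by simp [h.supp z hz])
    (α := ε * τ ^ 2) (γ := 4 * ε⁻¹ * ∑ i, c i) (by positivity) fun z hz => ?_).trans ?_
  · have h3 := car2b_young hε τ (2 * (A.W ξ τ z *
      ∑ i, (dx i (A.psi ξ) z - pd i (A.rho ξ) z.1) * dp i f z)) (U z)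
    rw [mul_assoc 2, mul_assoc 2, abs_mul 2, abs_two] at h3
    have h4 := (Finset.sum_mul_sq_le_sq_mul_sq Finset.univ
      (fun i => dx i (A.psi ξ) z - pd i (A.rho ξ) z.1) fun i => dp i f z).trans
      (mul_le_mul_of_nonneg_right (Finset.sum_le_sum fun i _ => h1 i z (A.tube_mono hr hz))
        (Finset.sum_nonneg fun i _ => sq_nonneg _))
    rw [← Finset.sum_mul] at h4
    have h5 := mul_le_mul_of_nonneg_left h4
      (by positivity : 0 ≤ 4 * ε⁻¹ * A.W ξ τ z ^ 2)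
    simp only [Pi.mul_apply, Pi.pow_apply]
    linarith
  · rw [mul_assoc _ C]
    exact add_le_add le_rfl (mul_le_mul_of_nonneg_left
      (h2 τ r (zero_lt_one.trans_le hτ) f h.smf h.fp).1 (by positivity))

theorem car_t4 (hξ : Sm ξ) (hK : IsCompact K) (d : ℕ) {ε : ℝ} (hε : 0 < ε) : ∃ C : ℝ, 0 ≤ C ∧
    ∀ (r τ : ℝ) (U f u : Z n → ℝ), r ≤ 1 → 1 ≤ τ → CD A ξ d K r τ U f u →
      2 * τ * |∫ z, (∑ i, dp i (dx i (A.psi ξ)) z) * br A.H U z * U z| ≤
        (ε * τ ^ 2 * ∫ z, U z ^ 2) + C * ∫ z, br A.H U z ^ 2 := by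
  have ha : Continuous fun z => ∑ i, dp i (dx i (A.psi ξ)) z :=
    car2b_sum fun i => (((A.sm_psi hξ).dx i).dp i).continuous
  obtain ⟨β, hβ, h1⟩ := car2b_bound (A.isCompact_tube hξ hK 1) (ha.pow 2)
  refine ⟨ε⁻¹ * β, by positivity, fun r τ U f u hr hτ h => ?_⟩
  have hb := (A.sm_H.br h.smU).continuous
  refine (car2b_abs (A.isCompact_tube hξ hK r) ((ha.mul hb).mul h.smU.continuous)
    (h.smU.continuous.pow 2) (hb.pow 2)
    (fun z hz => by simp [h.supp z hz]) (fun z hz => by simp [h.supp z hz])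
    (α := ε * τ ^ 2) (γ := ε⁻¹ * β) (by positivity) fun z hz => ?_).trans (le_of_eq ?_)
  · refine (car2b_young hε τ _ _).trans (add_le_add le_rfl ?_)
    rw [mul_assoc, Pi.mul_apply, mul_pow]
    exact mul_le_mul_of_nonneg_left (mul_le_mul_of_nonneg_right (h1 z (A.tube_mono hr hz))
      (sq_nonneg _)) (by positivity)
  · rw [setIntegral_eq_integral_of_forall_compl_eq_zero fun z hz => by
      simp [br, car2b_off h hξ hK hz]]
    rfl

theorem car_t5 (hξ : Sm ξ) (hK : IsCompact K) (d : ℕ) {ε : ℝ} (hε : 0 < ε) : ∃ C : ℝ, 0 ≤ C ∧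
    ∀ (r τ : ℝ) (U f u : Z n → ℝ), r ≤ 1 → 1 ≤ τ → CD A ξ d K r τ U f u →
      2 * τ * |∫ z, A.W ξ τ z * (∑ i, dx i (A.psi ξ) z * dp i u z) * U z| ≤
        (ε * τ ^ 2 * ∫ z, U z ^ 2) + C * A.Er ξ K r τ u := by
  have ha := fun i => ((A.sm_psi hξ).dx i).continuous
  obtain ⟨β, hβ, h1⟩ := car2b_bound (A.isCompact_tube hξ hK 1) (car2b_sum fun i => (ha i).pow 2)
  refine ⟨ε⁻¹ * β, by positivity, fun r τ U f u hr hτ h => ?_⟩
  have hW := (A.sm_W hξ τ).continuous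
  refine car2b_abs (A.isCompact_tube hξ hK r)
    ((hW.mul (car2b_sum fun i => (ha i).mul (h.smu.dp i).continuous)).mul h.smU.continuous)
    (h.smU.continuous.pow 2) ((hW.pow 2).mul h.smu.n1.continuous)
    (fun z hz => by simp [h.supp z hz]) (fun z hz => by simp [h.supp z hz])
    (by positivity) fun z hz => ?_
  refine (car2b_young hε τ _ _).trans (add_le_add le_rfl ?_)
  have h4 := (Finset.sum_mul_sq_le_sq_mul_sq Finset.univ (fun i => dx i (A.psi ξ) z)
    fun i => dp i u z).trans (mul_le_mul (h1 z (A.tube_mono hr hz)) (car2b_n1 u z)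
      (Finset.sum_nonneg fun i _ => sq_nonneg _) hβ)
  have h5 := mul_le_mul_of_nonneg_left h4 (by positivity : 0 ≤ ε⁻¹ * A.W ξ τ z ^ 2)
  simp only [Pi.mul_apply, Pi.pow_apply]
  linarith

theorem car_t6 (hξ : Sm ξ) (hK : IsCompact K) (d : ℕ) {ε : ℝ} (hε : 0 < ε) : ∃ C : ℝ, 0 ≤ C ∧
    ∀ (r τ : ℝ) (U f u : Z n → ℝ), CD A ξ d K r τ U f u →
      2 * ∫ z, A.W ξ τ z * ∑ i, dp i u z * dx i U z ≤
        (ε * ∫ z, ∑ i, dx i U z ^ 2) + C * A.Er ξ K r τ u := by
  refine ⟨ε⁻¹, by positivity, fun r τ U f u h => ?_⟩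
  have hW := (A.sm_W hξ τ).continuous
  have hx := fun i => (h.smU.dx i).continuous
  refine car2b_le (A.isCompact_tube hξ hK r)
    (hW.mul (car2b_sum fun i => (h.smu.dp i).continuous.mul (hx i)))
    (car2b_sum fun i => (hx i).pow 2) ((hW.pow 2).mul h.smu.n1.continuous)
    (fun z hz => by simp [(car2b_off h hξ hK hz _).1])
    (fun z hz => by simp [(car2b_off h hξ hK hz _).1]) fun z _ => ?_
  have h3 := pest_young (fun i => dx i U z) (fun i => dp i u z) (t := A.W ξ τ z) hε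
  have h4 := mul_le_mul_of_nonneg_left (car2b_n1 u z)
    (by positivity : 0 ≤ ε⁻¹ * A.W ξ τ z ^ 2)
  simp only [mul_comm (dx _ U z)] at h3
  rw [div_eq_inv_mul] at h3
  simp only [Pi.mul_apply, Pi.pow_apply]
  linarith

/-- `W f = a - W u` on the core, which lies in the tube -/
theorem car_tB (hξ : Sm ξ) (hK : IsCompact K) {d : ℕ} {r τ : ℝ} {U f u : Z n → ℝ} (hr : τ⁻¹ ≤ r)
    (h : CD A ξ d K r τ U f u) :
    A.Bq ξ K τ f ≤ (2 * ∫ z, br A.H U z ^ 2) + 2 * A.Er ξ K r τ u := by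
  have hW := (A.sm_W hξ τ).continuous
  have hb := (A.sm_H.br h.smU).continuous
  have hS := A.isCompact_tube hξ hK τ⁻¹
  have c2 : Continuous fun z => A.W ξ τ z ^ 2 * n1 u z := (hW.pow 2).mul h.smu.n1.continuous
  have i1 : Integrable fun z => br A.H U z ^ 2 := intg (hb.pow 2)
    ((hcs_br (h.hcs hξ hK) A.H).comp_left (g := fun t : ℝ => t ^ 2) (by simp))
  have i2 : IntegrableOn (fun z => A.W ξ τ z ^ 2 * n1 u z) (A.tube ξ K τ⁻¹) :=
    c2.continuousOn.integrableOn_compact hS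
  have h1 : A.Bq ξ K τ f ≤ (2 * ∫ z in A.tube ξ K τ⁻¹, br A.H U z ^ 2) +
      2 * ∫ z in A.tube ξ K τ⁻¹, A.W ξ τ z ^ 2 * n1 u z := by
    rw [← integral_const_mul, ← integral_const_mul,
      ← integral_add (i1.integrableOn.const_mul _) (i2.const_mul _)]
    refine integral_mono
      (((hW.pow 2).mul (h.smf.continuous.pow 2)).continuousOn.integrableOn_compact hS)
      ((i1.integrableOn.const_mul _).add (i2.const_mul _)) fun z => ?_
    have h2 : u z ^ 2 ≤ n1 u z :=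
      le_add_of_nonneg_right (Finset.sum_nonneg fun i _ => sq_nonneg _)
    have h3 := mul_le_mul_of_nonneg_left h2 (sq_nonneg (A.W ξ τ z))
    simp only [h.eq]
    nlinarith [sq_nonneg (A.W ξ τ z * (f z + 2 * u z))]
  refine h1.trans (add_le_add (mul_le_mul_of_nonneg_left ?_ zero_le_two)
    (mul_le_mul_of_nonneg_left ?_ zero_le_two))
  · exact setIntegral_le_integral i1 (Filter.Eventually.of_forall fun z => sq_nonneg _)
  · exact setIntegral_mono_set (c2.continuousOn.integrableOn_compact (A.isCompact_tube hξ hK r))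
      (Filter.Eventually.of_forall fun z => mul_nonneg (sq_nonneg _) (n1_nonneg u z))
      (A.tube_mono hr).eventuallyLE

end Pool.Agent.Lib.MP_45f3cb_gt
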