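import Pool.Agent.Lib.MP_45f3cb_gt.Car2a
import Pool.Agent.Lib.MP_45f3cb_gt.Car2b

/-!
The Carleman estimate with an error term.
-/

open Set MeasureTheory

namespace Pool.Agent.Lib.MP_45f3cb_gt

variable {n : ℕ} {A : Met n} {ξ : V n → V n} {K : Set (V n)}

theorem car2_aux {c τ a y L B E D C₃ C₄ C₅ : ℝ} (hc : 0 < c) (hτ : 1 ≤ τ) (ha : 0 ≤ a)
    (hy : 0 ≤ y) (hL : 0 ≤ L) (hE : 0 ≤ E) (h₃ : 0 ≤ C₃) (h₅ : 0 ≤ C₅) (hD : D = 1 + 2 * C₃ + C₅)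
    (hτ' : 4 * (2 * C₃ + C₄) ≤ τ) (hB : B ≤ 2 * a + 2 * E)
    (h : 2 * τ * a + c * (τ ^ 2 * y) / 2 ≤
      τ * B / 8 + τ ^ 2 * E / 8 + τ * a / 2 + 2 * τ * L + C₃ * B + C₄ * a + C₅ * E) :
    τ ^ 2 * y + τ * B ≤ ((2 / c + 2) * (2 + D) + 2) * (τ * L + τ ^ 2 * E) := by
  have h0 : 0 ≤ τ := zero_le_one.trans hτ
  have h1 : τ * B ≤ τ * (2 * a + 2 * E) := mul_le_mul_of_nonneg_left hB h0
  have h2 : C₃ * B ≤ C₃ * (2 * a + 2 * E) := mul_le_mul_of_nonneg_left hB h₃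
  have h3 : 4 * (2 * C₃ + C₄) * a ≤ τ * a := mul_le_mul_of_nonneg_right hτ' ha
  have h4 : E ≤ τ * E := le_mul_of_one_le_left hE hτ
  have h5 : τ * E ≤ τ ^ 2 * E := by
    rw [sq, mul_assoc]
    exact mul_le_mul_of_nonneg_left h4 h0
  have h6 : (2 * C₃ + C₅) * E ≤ (2 * C₃ + C₅) * (τ ^ 2 * E) :=
    mul_le_mul_of_nonneg_left (h4.trans h5) (by positivity)
  have h7 : 0 ≤ τ * L := mul_nonneg h0 hL
  have h8 : 0 ≤ τ ^ 2 * E := by positivity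
  have h9 : 0 ≤ D * (τ * L) := mul_nonneg (by rw [hD]; positivity) h7
  have h10 : τ * a + c * (τ ^ 2 * y) / 2 ≤ (2 + D) * (τ * L + τ ^ 2 * E) := by
    rw [hD] at h9 ⊢
    linarith
  have h11 : 0 ≤ τ * a := mul_nonneg h0 ha
  have h12 : 0 ≤ c * (τ ^ 2 * y) := by positivity
  have h13 : τ ^ 2 * y ≤ 2 / c * ((2 + D) * (τ * L + τ ^ 2 * E)) := by
    rw [div_mul_eq_mul_div, le_div_iff₀ hc]
    linarith
  linarith

/-- Sketch: write `X = ∫ ∑ dx U²`, `a = ∫ (br H U)²`, `y = ∫ U²`, `L = ∫ (br L U)²`, `B`, `E`. Take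
`l c r₀` of `car_t0`, `C₁` of `car_t1`, `car_up` with `C₁ ε₁ ≤ min (l / 4) (1 / 8)`, `car_t3`, `car_t4`,
`car_t5` with `ε = c / 6`, `car_t6` with `ε = l / 4`. `CD.ident` gives
`l X + 2 τ a + c τ² y ≤ l X / 2 + τ B / 8 + τ² E / 8 + τ a / 2 + 2 τ L + c τ² y / 2 + C B + C a + C E`;
with `B ≤ 2 a + 2 E` (`car_tB`, `τ ≥ r⁻¹`) and `τ ≥ 12 C` one gets
`τ a + c τ² y / 2 ≤ 2 τ L + C' τ² E`. -/
theorem car2 (hG : Good A ξ K) (d : ℕ) : ∃ r C τ₀ : ℝ, 0 < r ∧ 0 ≤ C ∧ 1 ≤ τ₀ ∧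
    ∀ (τ : ℝ) (U f u : Z n → ℝ), τ₀ ≤ τ → CD A ξ d K r τ U f u →
      (τ ^ 2 * ∫ z, U z ^ 2) + τ * A.Bq ξ K τ f ≤
        C * ((τ * ∫ z, br (lin ξ) U z ^ 2) + τ ^ 2 * A.Er ξ K r τ u) := by
  obtain ⟨l, c, r₀, hl, hc, hr₀, h0⟩ := car_t0 hG d
  obtain ⟨C₁, hC₁, h1⟩ := car_t1 (A := A) hG.sm hG.cpt d
  have hm : 0 < min (l / 4) (1 / 8) := lt_min (by positivity) (by norm_num)
  obtain ⟨r₁, hr₁, hr₁', hup⟩ := car_up hG d (ε := min (l / 4) (1 / 8) / (C₁ + 1)) (by positivity)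
  obtain ⟨C₃, hC₃, h3⟩ := car_t3 (A := A) hG.sm hG.cpt d (ε := c / 6) (by positivity)
  obtain ⟨C₄, hC₄, h4⟩ := car_t4 (A := A) hG.sm hG.cpt d (ε := c / 6) (by positivity)
  obtain ⟨C₅, hC₅, h5⟩ := car_t5 (A := A) hG.sm hG.cpt d (ε := c / 6) (by positivity)
  obtain ⟨C₆, hC₆, h6⟩ := car_t6 (A := A) hG.sm hG.cpt d (ε := l / 4) (by positivity)
  refine ⟨min r₀ r₁, (2 / c + 2) * (2 + (1 + 2 * C₃ + (C₅ + C₆))) + 2,
    max 1 (max (min r₀ r₁)⁻¹ (4 * (2 * C₃ + C₄))), lt_min hr₀ hr₁, by positivity, le_max_left _ _,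
    fun τ U f u hτ h => ?_⟩
  obtain ⟨hτ1, hτ2⟩ := max_le_iff.1 hτ
  obtain ⟨hτ2, hτ3⟩ := max_le_iff.1 hτ2
  have hτ0 : 0 < τ := one_pos.trans_le hτ1
  have hr : min r₀ r₁ ≤ 1 := (min_le_right _ _).trans hr₁'
  have hU := h.hcs hG.sm hG.cpt
  have hE : 0 ≤ A.Er ξ K (min r₀ r₁) τ u := integral_nonneg fun z =>
    mul_nonneg (sq_nonneg _) (add_nonneg (sq_nonneg _) (Finset.sum_nonneg fun _ _ => sq_nonneg _))
  have hB : 0 ≤ A.Bq ξ K τ f := integral_nonneg fun z => mul_nonneg (sq_nonneg _) (sq_nonneg _)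
  have hX : 0 ≤ ∫ z, ∑ i, dx i U z ^ 2 :=
    integral_nonneg fun z => Finset.sum_nonneg fun _ _ => sq_nonneg _
  refine car2_aux hc hτ1 (a := ∫ z, br A.H U z ^ 2) (integral_nonneg fun z => sq_nonneg _)
    (integral_nonneg fun z => sq_nonneg _) (integral_nonneg fun z => sq_nonneg _) hE hC₃
    (add_nonneg hC₅ hC₆) rfl hτ3 (car_tB hG.sm hG.cpt (inv_le_of_inv_le₀ (lt_min hr₀ hr₁) hτ2) h) ?_
  have e := h.ident hG.sm hG.cpt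
  obtain ⟨e0, e0'⟩ := h0 _ τ U f u (min_le_left _ _) h
  have e0'' := mul_le_mul_of_nonneg_left e0' (sq_nonneg τ)
  have e1 := (h1 _ τ U f u hr h).trans (mul_le_mul_of_nonneg_left
    (hup _ τ U f u (lt_min hr₀ hr₁) (min_le_right _ _) hτ1 h) hC₁)
  have e1' : C₁ * (min (l / 4) (1 / 8) / (C₁ + 1)) ≤ min (l / 4) (1 / 8) := by
    rw [← mul_div_assoc, div_le_iff₀ (by positivity)]
    linarith
  rw [← mul_assoc] at e1
  have e1a := mul_le_mul_of_nonneg_right (e1'.trans (min_le_left _ _)) hX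
  have e1b := mul_le_mul_of_nonneg_right (e1'.trans (min_le_right _ _))
    (add_nonneg (mul_nonneg hτ0.le hB) (mul_nonneg (sq_nonneg τ) hE))
  have e2 := mul_le_mul_of_nonneg_left (car_t2 (A.sm_H.br h.smU).continuous
    ((sm_lin hG.sm).br h.smU).continuous (hcs_br hU _) (hcs_br hU _)) hτ0.le
  have e3 := (mul_le_mul_of_nonneg_left (neg_le_abs _) (by positivity)).trans (h3 _ τ U f u hr hτ1 h)
  have e4 := (mul_le_mul_of_nonneg_left (neg_le_abs _) (by positivity)).trans (h4 _ τ U f u hr hτ1 h)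
  have e5 := (mul_le_mul_of_nonneg_left (neg_le_abs _) (by positivity)).trans (h5 _ τ U f u hr hτ1 h)
  have e6 := h6 _ τ U f u h
  have e7 := mul_nonneg hl.le hX
  linarith

end Pool.Agent.Lib.MP_45f3cb_gt
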