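import Pool.Agent.Lib.MP_45f3cb_gt.Car1

/-!
The vertical derivative is small near the graph.
-/

open Set MeasureTheory

namespace Pool.Agent.Lib.MP_45f3cb_gt

variable {n : ℕ} {A : Met n} {ξ : V n → V n} {K : Set (V n)}

theorem car2a_five (a b c e g : ℝ) :
    (a + b + c + e - g) ^ 2 ≤ 5 * (a ^ 2 + b ^ 2 + c ^ 2 + e ^ 2 + g ^ 2) := by
  nlinarith [sq_nonneg (a - b), sq_nonneg (a - c), sq_nonneg (a - e), sq_nonneg (a + g),
    sq_nonneg (b - c), sq_nonneg (b - e), sq_nonneg (b + g), sq_nonneg (c - e), sq_nonneg (c + g),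
    sq_nonneg (e + g)]

theorem car2a_pt {ψ a b X : Fin n → ℝ} {G : Fin n → Fin n → ℝ} {τ W f u s P L : ℝ} (hτ : 1 ≤ τ)
    (hP : 0 ≤ P) (hs0 : 0 ≤ s) (hs1 : s ≤ 1) (hψ : ∑ i, ψ i ^ 2 ≤ P * s)
    (hG : ∑ i, ∑ j, G i j ^ 2 ≤ L) :
    ∑ i, (τ * ψ i * (W * (f + u)) + W * a i + W * b i - ∑ j, G i j * X j) ^ 2 ≤
      5 * (P + 1) * (W ^ 2 * (τ ^ 2 * s * f ^ 2 + ∑ i, a i ^ 2)) +
      5 * (P + 1) * τ ^ 2 * (W ^ 2 * (u ^ 2 + ∑ i, b i ^ 2)) + 5 * L * ∑ i, X i ^ 2 := by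
  have h1 : ∀ i, (τ * ψ i * (W * (f + u)) + W * a i + W * b i - ∑ j, G i j * X j) ^ 2 ≤
      5 * (τ * W * f) ^ 2 * ψ i ^ 2 + 5 * (τ * W * u) ^ 2 * ψ i ^ 2 + 5 * W ^ 2 * a i ^ 2 +
        5 * W ^ 2 * b i ^ 2 + 5 * (∑ j, X j ^ 2) * ∑ j, G i j ^ 2 := fun i => by
    have h2 := car2a_five (τ * W * f * ψ i) (τ * W * u * ψ i) (W * a i) (W * b i)
      (∑ j, G i j * X j)
    have h3 := Finset.sum_mul_sq_le_sq_mul_sq Finset.univ (G i) X
    linarith
  refine (Finset.sum_le_sum fun i _ => h1 i).trans ?_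
  simp only [Finset.sum_add_distrib, ← Finset.mul_sum]
  have ha : 0 ≤ ∑ i, a i ^ 2 := Finset.sum_nonneg fun i _ => sq_nonneg _
  have hb : 0 ≤ ∑ i, b i ^ 2 := Finset.sum_nonneg fun i _ => sq_nonneg _
  have hX : 0 ≤ ∑ i, X i ^ 2 := Finset.sum_nonneg fun i _ => sq_nonneg _
  have h2 := mul_le_mul_of_nonneg_left hψ (sq_nonneg (τ * W * f))
  have h3 := mul_le_mul_of_nonneg_left (hψ.trans (mul_le_of_le_one_right hP hs1))
    (sq_nonneg (τ * W * u))
  have h4 := mul_le_mul_of_nonneg_left hG hX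
  have h5 : 1 ≤ (P + 1) * τ ^ 2 :=
    one_le_mul_of_one_le_of_one_le (by linarith) (one_le_pow₀ hτ)
  have h6 := mul_le_mul_of_nonneg_right h5 (mul_nonneg (sq_nonneg W) hb)
  have h7 := mul_nonneg hP (mul_nonneg (sq_nonneg W) ha)
  have h8 := mul_nonneg hs0 (sq_nonneg (τ * W * f))
  have h9 := sq_nonneg (τ * W * u)
  linarith

theorem car2a_dp (hξ : Sm ξ) (i : Fin n) (x : V n) : dp i (A.psi ξ) (x, A.fl ξ x) = 0 := by
  simp [A.dp_psi hξ]

/-- Sketch: by `CD.dp_a` and `CD.eq`,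
`dp i a = τ dp i psi W f + τ dp i psi W u + W dp i f + W dp i u`; on `tube K 1` one has
`(dp i psi)² ≤ C sig ≤ C` (`Met.sq_le_sig`, `Met.dp_psi`) and `G` is bounded; `Met.gau'`. -/
theorem car_r (hξ : Sm ξ) (hK : IsCompact K) (d : ℕ) : ∃ C : ℝ, 0 ≤ C ∧
    ∀ (r τ : ℝ) (U f u : Z n → ℝ), r ≤ 1 → 1 ≤ τ → CD A ξ d K r τ U f u →
      ∫ z in A.tube ξ K r, ∑ i, (dp i (br A.H U) z - ∑ j, dp i (dp j A.H) z * dx j U z) ^ 2 ≤
        C * ((∫ z, ∑ i, dx i U z ^ 2) + τ * A.Bq ξ K τ f + τ ^ 2 * A.Er ξ K r τ u) := by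
  choose P hP0 hP using fun i : Fin n =>
    A.sq_le_sig hξ hK ((A.sm_psi hξ).dp i) (fun x _ => car2a_dp hξ i x) 1
  have hGc : Continuous fun z => ∑ i, ∑ j, dp i (dp j A.H) z ^ 2 :=
    continuous_finsetSum _ fun i _ => continuous_finsetSum _ fun j _ =>
      ((A.sm_H.dp j).dp i).continuous.pow 2
  obtain ⟨L, hL⟩ := (A.isCompact_tube hξ hK 1).exists_bound_of_continuousOn hGc.continuousOn
  obtain ⟨C, hC0, hC⟩ := A.gau' hξ hK (d + 1)
  have hP1 : 0 ≤ ∑ i, P i := Finset.sum_nonneg fun i _ => hP0 i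
  refine ⟨5 * (∑ i, P i + 1) * (C + 1) + 5 * |L|, by positivity, ?_⟩
  intro r τ U f u hr hτ h
  have hS := A.isCompact_tube hξ hK r
  have hW := (A.sm_W hξ τ).continuous
  have c1 : Continuous fun z => A.W ξ τ z ^ 2 *
      (τ ^ 2 * A.sig ξ z * f z ^ 2 + ∑ i, dp i f z ^ 2) :=
    (hW.pow 2).mul (((continuous_const.mul (A.sm_sig hξ).continuous).mul
      (h.smf.continuous.pow 2)).add
        (continuous_finsetSum _ fun i _ => (h.smf.dp i).continuous.pow 2))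
  have c2 : Continuous fun z => A.W ξ τ z ^ 2 * n1 u z := (hW.pow 2).mul h.smu.n1.continuous
  have c3 : Continuous fun z => ∑ i, dx i U z ^ 2 :=
    continuous_finsetSum _ fun i _ => (h.smU.dx i).continuous.pow 2
  have c4 : Continuous fun z =>
      ∑ i, (dp i (br A.H U) z - ∑ j, dp i (dp j A.H) z * dx j U z) ^ 2 :=
    continuous_finsetSum _ fun i _ => (((A.sm_H.br h.smU).dp i).continuous.sub
      (continuous_finsetSum _ fun j _ =>
        ((A.sm_H.dp j).dp i).continuous.mul (h.smU.dx j).continuous)).pow 2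
  have i1 := c1.continuousOn.integrableOn_compact (μ := volume) hS
  have i2 := c2.continuousOn.integrableOn_compact (μ := volume) hS
  have i3 : Integrable fun z => ∑ i, dx i U z ^ 2 :=
    pest_intg (h.hcs hξ hK).isCompact c3 fun z hz => by simp [(pest_off hz _).1]
  have h1 : ∫ z in A.tube ξ K r,
      ∑ i, (dp i (br A.H U) z - ∑ j, dp i (dp j A.H) z * dx j U z) ^ 2 ≤
      ∫ z in A.tube ξ K r, (5 * (∑ i, P i + 1) * (A.W ξ τ z ^ 2 *
        (τ ^ 2 * A.sig ξ z * f z ^ 2 + ∑ i, dp i f z ^ 2)) +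
        5 * (∑ i, P i + 1) * τ ^ 2 * (A.W ξ τ z ^ 2 * n1 u z) + 5 * |L| * ∑ i, dx i U z ^ 2) := by
    refine setIntegral_mono_on (c4.continuousOn.integrableOn_compact hS)
      (((i1.const_mul _).add (i2.const_mul _)).add (i3.integrableOn.const_mul _))
      hS.measurableSet fun z hz => ?_
    have hz1 := A.tube_mono hr hz
    simp only [h.dp_a hξ, h.eq, n1]
    refine car2a_pt hτ hP1 (A.sig_nonneg z) hz1.2 ?_
      ((le_abs_self _).trans ((hL z hz1).trans (le_abs_self L)))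
    rw [Finset.sum_mul]
    exact Finset.sum_le_sum fun i _ => hP i z hz1
  rw [integral_add (by exact (i1.const_mul _).add (i2.const_mul _)) (i3.integrableOn.const_mul _),
    integral_add (i1.const_mul _) (i2.const_mul _), integral_const_mul, integral_const_mul,
    integral_const_mul] at h1
  have n3 : ∀ z, 0 ≤ ∑ i, dx i U z ^ 2 := fun z => Finset.sum_nonneg fun i _ => sq_nonneg _
  have h2 := mul_le_mul_of_nonneg_left (hC τ r (by linarith) f h.smf h.fp).2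
    (show 0 ≤ 5 * (∑ i, P i + 1) by positivity)
  have h3 := mul_le_mul_of_nonneg_left
    (setIntegral_le_integral (s := A.tube ξ K r) i3 (Filter.Eventually.of_forall n3))
    (show 0 ≤ 5 * |L| by positivity)
  have h4 : 0 ≤ ∫ z, ∑ i, dx i U z ^ 2 := integral_nonneg n3
  have h5 : 0 ≤ τ * A.Bq ξ K τ f := mul_nonneg (by linarith) (A.Bq_nonneg hξ hK τ f)
  have h6 : 0 ≤ τ ^ 2 * A.Er ξ K r τ u := mul_nonneg (sq_nonneg τ) (A.Er_nonneg hξ hK r τ u)
  have h7 : ∫ z in A.tube ξ K r, A.W ξ τ z ^ 2 * n1 u z = A.Er ξ K r τ u := rfl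
  rw [h7] at h1
  have h8 : 0 ≤ ∑ i, P i + 1 := by positivity
  have h9 := mul_nonneg (mul_nonneg h8 hC0) h4
  have h10 := mul_nonneg h8 h4
  have h11 := mul_nonneg h8 h5
  have h12 := mul_nonneg (abs_nonneg L) h5
  have h13 := mul_nonneg (abs_nonneg L) h6
  have h14 := mul_nonneg (mul_nonneg h8 hC0) h6
  linarith

/-- Sketch: `mult_small` with the compact set `tube K r`, `W i = dp i U`, `br_dp`,
`B z i j = dx j (dp i H) z` (bounded on `tube K 1`), `c` from `Met.pos_graph`, and `η = √(C r)` from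
`Met.sq_le_sig` for `mu` (it vanishes on the graph by `Met.dp_psi`); `car_r`. -/
theorem car_up (hG : Good A ξ K) (d : ℕ) {ε : ℝ} (hε : 0 < ε) : ∃ r₀ : ℝ, 0 < r₀ ∧ r₀ ≤ 1 ∧
    ∀ (r τ : ℝ) (U f u : Z n → ℝ), 0 < r → r ≤ r₀ → 1 ≤ τ → CD A ξ d K r τ U f u →
      ∫ z, ∑ i, dp i U z ^ 2 ≤
        ε * ((∫ z, ∑ i, dx i U z ^ 2) + τ * A.Bq ξ K τ f + τ ^ 2 * A.Er ξ K r τ u) := by
  have hξ := hG.sm
  have hK := hG.cpt
  obtain ⟨C, hC0, hC⟩ := car_r (A := A) hξ hK d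
  obtain ⟨c, r₁, hc, hr₁, h1⟩ := A.pos_graph hξ hK (A.sm_H.br (A.sm_mu hξ)).continuous.neg hG.pos
  obtain ⟨M, hM0, hM⟩ := A.sq_le_sig hξ hK (A.sm_mu hξ)
    (fun x _ => by simp [Met.mu, car2a_dp hξ]) 1
  have hB : ∀ i j, Continuous fun z => dx j (dp i A.H) z := fun i j =>
    ((A.sm_H.dp i).dx j).continuous
  have hBc : Continuous fun z => fun i j => dx j (dp i A.H) z :=
    continuous_pi fun i => continuous_pi fun j => hB i j
  obtain ⟨β, hβ⟩ := (A.isCompact_tube hξ hK 1).exists_bound_of_continuousOn hBc.continuousOn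
  obtain ⟨η, hη0, hη1, hη2⟩ : ∃ η : ℝ, 0 < η ∧ 4 * η * n * β < c ∧ 16 * η ^ 2 / c ^ 2 * C < ε := by
    have e1 : Continuous fun η : ℝ => 4 * η * n * β := by fun_prop
    have e2 : Continuous fun η : ℝ => 16 * η ^ 2 / c ^ 2 * C := by fun_prop
    have e3 := (e1.tendsto 0).eventually (gt_mem_nhds (a := c) (by simpa using hc))
    have e4 := (e2.tendsto 0).eventually (gt_mem_nhds (a := ε) (by simpa using hε))
    obtain ⟨η, e5, e6⟩ := (((e3.and e4).filter_mono (nhdsWithin_le_nhds (s := Ioi 0))).and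
      self_mem_nhdsWithin).exists
    exact ⟨η, e6, e5.1, e5.2⟩
  refine ⟨min (min 1 r₁) (η ^ 2 / (M + 1)), by positivity,
    (min_le_left _ _).trans (min_le_left _ _), ?_⟩
  intro r τ U f u _ hr hτ h
  have hr1 : r ≤ 1 := hr.trans ((min_le_left _ _).trans (min_le_left _ _))
  have hr2 : r ≤ r₁ := hr.trans ((min_le_left _ _).trans (min_le_right _ _))
  have hr3 : r * (M + 1) ≤ η ^ 2 := (le_div_iff₀ (by positivity)).1 (hr.trans (min_le_right _ _))
  have hS := A.isCompact_tube hξ hK r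
  have hts : tsupport U ⊆ A.tube ξ K r :=
    closure_minimal (fun z hz => by_contra fun h2 => hz (h.supp z h2)) hS.isClosed
  have h2 := mult_small A.sm_H (A.sm_mu hξ) hS hB hc hη0.le (β := β)
    (fun z hz i j => (norm_le_pi_norm (fun j => dx j (dp i A.H) z) j).trans
      ((norm_le_pi_norm (fun i j => dx j (dp i A.H) z) i).trans (hβ z (A.tube_mono hr1 hz))))
    hη1.le (fun z hz => h1 z hz.1 (hz.2.trans hr2))
    (fun z hz => abs_le_of_sq_le_sq' (by
      have h3 := hM z (A.tube_mono hr1 hz)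
      have h4 := mul_le_mul_of_nonneg_left hz.2 hM0
      have h5 := (A.sig_nonneg z).trans hz.2
      linarith) hη0.le |> abs_le.2)
    (W := fun i => dp i U)
    (r := fun i z => dp i (br A.H U) z - ∑ j, dp i (dp j A.H) z * dx j U z)
    (fun i => h.smU.dp i)
    (fun i => ((A.sm_H.br h.smU).dp i).continuous.sub (continuous_finsetSum _ fun j _ =>
        ((A.sm_H.dp j).dp i).continuous.mul (h.smU.dx j).continuous))
    (fun i z hz => (pest_off (fun h3 => hz (hts h3)) i).2)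
    (fun i z => br_dp A.sm_H h.smU i z)
  refine h2.trans ((mul_le_mul_of_nonneg_left (hC r τ U f u hr1 hτ h) (by positivity)).trans ?_)
  rw [← mul_assoc]
  refine mul_le_mul_of_nonneg_right hη2.le (add_nonneg (add_nonneg
    (integral_nonneg fun z => Finset.sum_nonneg fun i _ => sq_nonneg _)
    (mul_nonneg (by linarith) (A.Bq_nonneg hξ hK τ f)))
    (mul_nonneg (sq_nonneg τ) (A.Er_nonneg hξ hK r τ u)))

end Pool.Agent.Lib.MP_45f3cb_gt
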