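import Pool.Agent.Lib.MP_45f3cb_gt.CarH
import Pool.Agent.Lib.MP_45f3cb_gt.Car2

/-!
The Carleman estimate on the class `CC`.
-/

open Set MeasureTheory

namespace Pool.Agent.Lib.MP_45f3cb_gt

variable {n d : ℕ} {A : Met n} {ξ : V n → V n} {K : Set (V n)} {θ η : ℝ → ℝ} {r c δ τ : ℝ}
  {U F h : Z n → ℝ}

/-- the exponentially small part of the error -/
noncomputable def Met.e1 (A : Met n) (ξ : V n → V n) (θ η : ℝ → ℝ) (F h : Z n → ℝ) (z : Z n) : ℝ :=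
  (η (A.psi ξ z) - θ (A.sig ξ z)) * F z - br A.H (fun w => θ (A.sig ξ w)) z * h z

theorem Car3_th (A : Met n) (hξ : Sm ξ) (hθ : Th θ r) : Sm fun z => θ (A.sig ξ z) :=
  hθ.sm.comp (A.sm_sig hξ)

theorem Car3_a (A : Met n) (hξ : Sm ξ) (hθ : Th θ r) (hη : Sm η) :
    Sm fun z => η (A.psi ξ z) - θ (A.sig ξ z) :=
  ContDiff.sub (hη.comp (A.sm_psi hξ)) (Car3_th A hξ hθ)

theorem Car3_e1 (A : Met n) (hξ : Sm ξ) (hθ : Th θ r) (hη : Sm η) (hF : Sm F) (hh : Sm h) :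
    Sm (A.e1 ξ θ η F h) :=
  ContDiff.sub ((Car3_a A hξ hθ hη).mul hF)
    (ContDiff.mul (A.sm_H.br (Car3_th A hξ hθ)) hh)

/-- `CC.cj_facts`, `FP.br_H`; `br H W = 0` over `K` (`Met.br_W`, `Good.inv`), and `U = h = 0` off `K` -/
theorem CC.cd (hU : CC A ξ d K η c δ U F) (hG : Good A ξ K) (hθ : Th θ r) (hη : Sm η) (hδ : 0 < δ)
    (h8 : 8 * δ ≤ r) (H : PD d (A.om ξ θ τ) U h) :
    CD A ξ d K r τ (A.cj ξ θ τ U h) (fun z => F z - br A.H h z)
      fun z => (θ (A.sig ξ z) - 1) * (F z - br A.H h z) + A.e1 ξ θ η F h z := by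
  have hξ := hG.sm
  obtain ⟨h1, h2, h3⟩ := hU.cj_facts hξ hθ hδ h8 H
  have hf : Sm fun z => F z - br A.H h z := hU.smF.sub (A.sm_H.br H.sm)
  have ht := Car3_th A hξ hθ
  refine ⟨h1, hf, ((ht.sub contDiff_const).mul hf).add (Car3_e1 A hξ hθ hη hU.smF H.sm),
    hU.fp.sub (H.fp.br_H A fun z => H.sm.dAt z), h2, fun z => ?_, h3⟩
  have h4 : br A.H (A.W ξ τ) z * (U z - θ (A.sig ξ z) * h z) = 0 := by
    by_cases hz : z.1 ∈ K
    · have h5 : br A.H (A.psi ξ) z = br A.H (fun w => lin ξ w - A.H w) z := rfl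
      rw [A.br_W hξ, h5, br_sub ((sm_lin hξ).dAt z) (A.sm_H.dAt z), hG.inv z hz, br_self]
      ring
    · have h5 : U z = 0 := not_not.1 fun h5 => hz (hU.supp z h5).1
      have h6 : h z = 0 := not_not.1 fun h6 => hz (hU.h_supp hξ hθ (by linarith) H z h6).1
      rw [h5, h6]
      ring
  have h5 : br A.H (A.cj ξ θ τ U h) z =
      br A.H (fun w => A.W ξ τ w * (U w - θ (A.sig ξ w) * h w)) z := rfl
  rw [h5, br_mul ((A.sm_W hξ τ).dAt z) (Sm.dAt (hU.smU.sub (ht.mul H.sm)) z), h4,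
    br_sub (hU.smU.dAt z) (Sm.dAt (ht.mul H.sm) z), br_mul (ht.dAt z) (H.sm.dAt z), hU.eq, Met.e1]
  ring

theorem Car3_W {z : Z n} {s : ℝ} (hτ : 0 ≤ τ) (h : A.psi ξ z ≤ s) :
    A.W ξ τ z ^ 2 ≤ Real.exp (2 * τ * s) := by
  rw [Met.W, ← Real.exp_nat_mul]
  exact Real.exp_le_exp.2 (by push_cast; nlinarith)

theorem Car3_int (hξ : Sm ξ) (hK : IsCompact K) (r : ℝ) {G : Z n → ℝ} (hG : Continuous G) :
    IntegrableOn G (A.tube ξ K r) := hG.continuousOn.integrableOn_compact (A.isCompact_tube hξ hK r)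

theorem Car3_pt {a G : Z n → ℝ} {z : Z n} {s C : ℝ} (hτ : 0 ≤ τ) (ha : Sm a) (hG : Sm G)
    (hC : n1 a z ≤ C) (h : (∀ᶠ w in nhds z, a w * G w = 0) ∨ A.psi ξ z ≤ s) :
    A.W ξ τ z ^ 2 * n1 (fun w => a w * G w) z ≤ 2 * C * Real.exp (2 * τ * s) * n1 G z := by
  have h1 := n1_nonneg G z
  have h2 := (n1_nonneg a z).trans hC
  rcases h with h | h
  · rw [n1_of_eventually h, mul_zero]
    positivity
  · refine (mul_le_mul (Car3_W hτ h) ((n1_mul_le ha hG z).trans (mul_le_mul_of_nonneg_right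
      (mul_le_mul_of_nonneg_left hC zero_le_two) h1)) (n1_nonneg _ _)
      (Real.exp_pos _).le).trans_eq ?_
    ring

/-- Sketch: `n1_sub_le`, `n1_mul_le`; the jets `n1` of the two coefficients are bounded on the tube.
First term: it vanishes if `rho > c + 2 δ` (then `F = 0` near the point) or if `psi > c - δ` and
`sig < r / 2` (the coefficient vanishes near the point); otherwise `psi ≤ c - δ`, because
`sig ≥ r / 2 ≥ 4 δ` gives `psi ≤ c - 2 δ`. Second term: it vanishes unless `sig ≥ r / 2` and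
`rho ≤ c + 2 δ` (`CC.h_supp`), where `psi ≤ c - 2 δ`; `car_h` contributes `exp (2 τ δ)`. -/
theorem car_e1 (hξ : Sm ξ) (hK : IsCompact K) (d : ℕ) (hθ : Th θ r) (hη : Sm η) (hδ : 0 < δ)
    (h8 : 8 * δ ≤ r) (h1 : ∀ s, c - δ ≤ s → η s = 1) : ∃ C : ℝ, 0 ≤ C ∧
    ∀ (τ : ℝ) (U F h : Z n → ℝ), 0 ≤ τ → CC A ξ d K η c δ U F → PD d (A.om ξ θ τ) U h →
      A.Er ξ K r τ (A.e1 ξ θ η F h) ≤ C * Real.exp (2 * τ * (c - δ)) *
        ((∫ z, U z ^ 2) + ∫ z in A.tube ξ K r, n1 F z) := by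
  have hT := A.isCompact_tube hξ hK r
  have sa := Car3_a A hξ hθ hη
  have sb := A.sm_H.br (Car3_th A hξ hθ)
  obtain ⟨Ca, ha⟩ := hT.exists_bound_of_continuousOn sa.n1.continuous.continuousOn
  obtain ⟨Cb, hb⟩ := hT.exists_bound_of_continuousOn sb.n1.continuous.continuousOn
  obtain ⟨Ch, hh0, hh⟩ := car_h (A := A) hξ hK d hθ hδ h8
  refine ⟨4 * |Ca| + 4 * |Cb| * Ch, by positivity, fun τ U F h hτ hU H => ?_⟩
  have cr : Continuous fun z : Z n => A.rho ξ z.1 := (A.sm_rho hξ).continuous.comp continuous_fst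
  have e0 : ∀ z, A.psi ξ z = A.rho ξ z.1 - A.sig ξ z := fun z => (sub_sub_cancel _ _).symm
  have e1 : ∀ z : Z n, c + 2 * δ < A.rho ξ z.1 → ∀ᶠ w in nhds z, c + 2 * δ < A.rho ξ w.1 :=
    fun z hz => (isOpen_lt continuous_const cr).mem_nhds hz
  have e2 : ∀ z : Z n, A.sig ξ z < r / 2 → ∀ᶠ w in nhds z, θ (A.sig ξ w) = 1 := fun z hz =>
    Filter.Eventually.mono ((isOpen_lt (A.sm_sig hξ).continuous continuous_const).mem_nhds hz)
      fun w hw => hθ.one _ (le_of_lt hw)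
  have key : ∀ z ∈ A.tube ξ K r, A.W ξ τ z ^ 2 * n1 (A.e1 ξ θ η F h) z ≤
      4 * |Ca| * Real.exp (2 * τ * (c - δ)) * n1 F z +
        4 * |Cb| * Real.exp (2 * τ * (c - 2 * δ)) * n1 h z := by
    intro z hz
    have k1 := Car3_pt (A := A) (ξ := ξ) (s := c - δ) hτ sa hU.smF
      ((le_abs_self _).trans ((ha z hz).trans (le_abs_self Ca))) (by
        rcases lt_or_ge (c + 2 * δ) (A.rho ξ z.1) with h2 | h2
        · exact Or.inl ((e1 z h2).mono fun w hw => by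
            rw [not_not.1 fun h3 => absurd (hU.suppF w h3).2 (not_le.2 hw), mul_zero])
        rcases lt_or_ge (A.sig ξ z) (r / 2) with h3 | h3
        · rcases lt_or_ge (c - δ) (A.psi ξ z) with h4 | h4
          · left
            filter_upwards [e2 z h3,
              (isOpen_lt continuous_const (A.sm_psi hξ).continuous).mem_nhds h4] with w h5 h6
            rw [h5, h1 _ (le_of_lt h6), sub_self, zero_mul]
          · exact Or.inr h4
        · exact Or.inr (by linarith [e0 z]))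
    have k2 := Car3_pt (A := A) (ξ := ξ) (s := c - 2 * δ) hτ sb H.sm
      ((le_abs_self _).trans ((hb z hz).trans (le_abs_self Cb))) (by
        rcases lt_or_ge (c + 2 * δ) (A.rho ξ z.1) with h2 | h2
        · exact Or.inl ((e1 z h2).mono fun w hw => by
            rw [not_not.1 fun h3 =>
              absurd (hU.h_supp hξ hθ (by linarith) H w h3).2 (not_le.2 hw), mul_zero])
        rcases lt_or_ge (A.sig ξ z) (r / 2) with h3 | h3
        · exact Or.inl ((e2 z h3).eventually_nhds.mono fun w hw => by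
            rw [br_congr (G := fun _ => 1) hw, br_const, zero_mul])
        · exact Or.inr (by linarith [e0 z]))
    have k3 := mul_le_mul_of_nonneg_left (n1_sub_le (sa.mul hU.smF) (ContDiff.mul sb H.sm) z)
      (sq_nonneg (A.W ξ τ z))
    exact k3.trans (by linarith)
  have i1 := (Car3_int (A := A) hξ hK r hU.smF.n1.continuous).const_mul
    (4 * |Ca| * Real.exp (2 * τ * (c - δ)))
  have i2 := (Car3_int (A := A) hξ hK r H.sm.n1.continuous).const_mul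
    (4 * |Cb| * Real.exp (2 * τ * (c - 2 * δ)))
  refine (setIntegral_mono_on (Car3_int hξ hK r (((A.sm_W hξ τ).continuous.pow 2).mul
    (Car3_e1 A hξ hθ hη hU.smF H.sm).n1.continuous)) (i1.add i2) hT.measurableSet key).trans ?_
  simp only [Pi.add_apply]
  rw [integral_add i1 i2, integral_const_mul, integral_const_mul]
  have b1 := mul_le_mul_of_nonneg_left (hh τ U h hτ hU.smU.continuous (hU.hcs hξ hK) H)
    (show 0 ≤ 4 * |Cb| * Real.exp (2 * τ * (c - 2 * δ)) by positivity)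
  have b2 : Real.exp (2 * τ * (c - δ)) = Real.exp (2 * τ * (c - 2 * δ)) * Real.exp (2 * τ * δ) := by
    rw [← Real.exp_add]
    congr 1
    ring
  have b3 : 0 ≤ ∫ z, U z ^ 2 := integral_nonneg fun z => sq_nonneg _
  have b4 : 0 ≤ ∫ z in A.tube ξ K r, n1 F z := integral_nonneg fun z => n1_nonneg _ _
  have b5 : 0 ≤ |Ca| * Real.exp (2 * τ * (c - δ)) * ∫ z, U z ^ 2 := by positivity
  have b6 : 0 ≤ |Cb| * Ch * Real.exp (2 * τ * (c - δ)) * ∫ z in A.tube ξ K r, n1 F z := by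
    positivity
  rw [b2] at b5 b6 ⊢
  linarith

theorem Car3_exp (D : ℝ) (hr : 0 < r) :
    ∃ τ₁ : ℝ, ∀ τ, τ₁ ≤ τ → D * (τ ^ 2 * Real.exp (-(τ * r / 2))) ≤ 1 := by
  have h := ((Real.tendsto_pow_mul_exp_neg_atTop_nhds_zero 2).comp
    ((Filter.tendsto_id.atTop_mul_const hr).atTop_div_const two_pos)).const_mul (D * (4 / r ^ 2))
  rw [mul_zero] at h
  obtain ⟨τ₁, h1⟩ := Filter.eventually_atTop.1 (h.eventually_lt_const one_pos)
  refine ⟨τ₁, fun τ hτ => le_trans (le_of_eq ?_) (h1 τ hτ).le⟩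
  simp only [Function.comp_apply, id]
  field_simp
  ring

theorem Car3_add (hξ : Sm ξ) (hK : IsCompact K) (r τ : ℝ) {u v : Z n → ℝ} (hu : Sm u) (hv : Sm v) :
    A.Er ξ K r τ (fun z => u z + v z) ≤ 2 * A.Er ξ K r τ u + 2 * A.Er ξ K r τ v := by
  have i := fun {w : Z n → ℝ} (hw : Sm w) => Car3_int (A := A) hξ hK r
    (G := fun z => A.W ξ τ z ^ 2 * n1 w z) (((A.sm_W hξ τ).continuous.pow 2).mul hw.n1.continuous)
  rw [Met.Er, Met.Er, Met.Er, ← integral_const_mul, ← integral_const_mul,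
    ← integral_add ((i hu).const_mul 2) ((i hv).const_mul 2)]
  refine setIntegral_mono_on (i (hu.add hv)) (((i hu).const_mul 2).add ((i hv).const_mul 2))
    (A.isCompact_tube hξ hK r).measurableSet fun z _ => ?_
  exact (mul_le_mul_of_nonneg_left (n1_add_le hu hv z) (sq_nonneg _)).trans_eq (by ring)

/-- Sketch: `car2` for `CC.cd`; `Er (u₁ + u₂) ≤ 2 Er u₁ + 2 Er u₂` (`n1_add_le`); `Met.tail` and
`τ² exp (-τ r / 2) → 0` absorb the first part into `τ Bq`; `car_e1`; divide by `τ`. -/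
theorem car3 (hG : Good A ξ K) (d : ℕ) : ∃ r : ℝ, 0 < r ∧ ∀ (θ η : ℝ → ℝ) (c δ : ℝ), Th θ r →
    Sm η → 0 < δ → 8 * δ ≤ r → (∀ s, c - δ ≤ s → η s = 1) → ∃ C τ₀ : ℝ, 0 ≤ C ∧ 1 ≤ τ₀ ∧
      ∀ (τ : ℝ) (U F h : Z n → ℝ), τ₀ ≤ τ → CC A ξ d K η c δ U F → PD d (A.om ξ θ τ) U h →
        τ * ∫ z, A.cj ξ θ τ U h z ^ 2 ≤ C * ((∫ z, br (lin ξ) (A.cj ξ θ τ U h) z ^ 2) +
          τ * (Real.exp (2 * τ * (c - δ)) * ((∫ z, U z ^ 2) + ∫ z in A.tube ξ K r, n1 F z))) := by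
  obtain ⟨r, C, τ₀, hr, hC, hτ₀, h2⟩ := car2 hG d
  refine ⟨r, hr, fun θ η c δ hθ hη hδ h8 h1 => ?_⟩
  have hξ := hG.sm
  obtain ⟨Ct, ht0, ht⟩ := A.tail hξ hG.cpt (d + 1) hθ
  obtain ⟨Ce, he0, he⟩ := car_e1 (A := A) hξ hG.cpt d hθ hη hδ h8 h1
  obtain ⟨τ₁, h3⟩ := Car3_exp (2 * C * Ct) hr
  refine ⟨C + 2 * C * Ce, max τ₀ τ₁, by positivity, le_max_of_le_left hτ₀,
    fun τ U F h hτ hU H => ?_⟩
  have t0 : τ₀ ≤ τ := (le_max_left _ _).trans hτ
  have t1 : 1 ≤ τ := hτ₀.trans t0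
  have t2 : 0 < τ := one_pos.trans_le t1
  have cd := hU.cd hG hθ hη hδ h8 H
  have a1 := h2 τ _ _ _ t0 cd
  have a2 := Car3_add (A := A) hξ hG.cpt r τ
    (((Car3_th A hξ hθ).sub (contDiff_const (c := 1))).mul cd.smf)
    (Car3_e1 A hξ hθ hη hU.smF H.sm)
  have a3 := ht τ t1 _ cd.smf cd.fp
  have a4 := he τ U F h t2.le hU H
  have a5 := mul_le_mul_of_nonneg_right (h3 τ ((le_max_right _ _).trans hτ))
    (mul_nonneg t2.le (A.Bq_nonneg hξ hG.cpt τ fun z => F z - br A.H h z))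
  have a6 := mul_le_mul_of_nonneg_left
    (a2.trans (add_le_add (mul_le_mul_of_nonneg_left a3 zero_le_two)
      (mul_le_mul_of_nonneg_left a4 zero_le_two))) (show 0 ≤ C * τ ^ 2 by positivity)
  have b1 : 0 ≤ ∫ z, br (lin ξ) (A.cj ξ θ τ U h) z ^ 2 := integral_nonneg fun z => sq_nonneg _
  have b3 : 0 ≤ ∫ z, U z ^ 2 := integral_nonneg fun z => sq_nonneg _
  have b4 : 0 ≤ ∫ z in A.tube ξ K r, n1 F z := integral_nonneg fun z => n1_nonneg _ _
  have b5 : 0 ≤ τ * (C * Ce * ∫ z, br (lin ξ) (A.cj ξ θ τ U h) z ^ 2) := by positivity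
  have b6 : 0 ≤ τ * (C * (τ * (Real.exp (2 * τ * (c - δ)) *
      ((∫ z, U z ^ 2) + ∫ z in A.tube ξ K r, n1 F z)))) := by positivity
  refine le_of_mul_le_mul_left ?_ t2
  linarith

end Pool.Agent.Lib.MP_45f3cb_gt
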