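import Pool.Agent.Lib.MP_45f3cb_gt.ProjB

/-!
Extraction of a polynomial from approximations; two elementary iterations.
-/

open Set MeasureTheory

namespace Pool.Agent.Lib.MP_45f3cb_gt

variable {n d : ℕ}

/-- Sketch: fix `x₀`, `p₀` with `ω (x₀, p₀) > 0` (else `q = 0`). Take a bump `a` at `x₀` (`= 1` on a ball
`B`, support inside `{x | ω (x, p₀) > 0}`) and a bump `γ` at `0` in the fibre;
`ω' z = ω z + (1 - a z.1) * γ z.2` is positive somewhere on every fibre; let `h'` be the projection of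
`U` for `ω'` (`exists_PD`). `Δ x = ∫ p, ω' (U - h')²` is continuous (`contDiff_fib`), nonnegative, and
on `B` at most `∫ p, ω (U - h)²` (`PD.min`), so `∫ x in B, Δ x ≤ ε` for all `ε` (`int_fub`,
`Integrable.integral_prod_left`). Hence `Δ x₀ = 0`, and the continuous nonnegative integrand
vanishes (`eq_zero_of_int`). -/
theorem extract {ω U : Z n → ℝ} (hω : Sm ω) (hb : LB ω) (h0 : ∀ z, 0 ≤ ω z) (hU : Sm U)
    (h : ∀ ε : ℝ, 0 < ε → ∃ h : Z n → ℝ, FP d h ∧ Integrable (fun z => ω z * (U z - h z) ^ 2) ∧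
      ∫ z, ω z * (U z - h z) ^ 2 ≤ ε) (x : V n) :
    ∃ q ∈ HP n d, ∀ p, 0 < ω (x, p) → U (x, p) = q p := by
  by_cases hx : ∃ p₀, 0 < ω (x, p₀)
  swap
  · exact ⟨0, Submodule.zero_mem _, fun p hp => absurd ⟨p, hp⟩ hx⟩
  obtain ⟨p₀, hp₀⟩ := hx
  have hW : {y : V n | 0 < ω (y, p₀)} ∈ nhds x :=
    (isOpen_lt continuous_const (hω.continuous.comp (by fun_prop))).mem_nhds hp₀
  obtain ⟨r, hr, hrW⟩ := Metric.mem_nhds_iff.1 hW
  let a : ContDiffBump x := ⟨r / 3, r / 2, by positivity, by linarith⟩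
  let b : ContDiffBump x := ⟨r / 4, r / 3, by positivity, by linarith⟩
  let γ : ContDiffBump (0 : V n) := ⟨1, 2, one_pos, one_lt_two⟩
  let ω' : Z n → ℝ := fun z => ω z + (1 - a z.1) * γ z.2
  have hs : Sm ω' := hω.add ((contDiff_const.sub (a.contDiff.comp contDiff_fst)).mul
    (γ.contDiff.comp contDiff_snd))
  have hn : ∀ z : Z n, 0 ≤ (1 - a z.1) * γ z.2 := fun z =>
    mul_nonneg (sub_nonneg.2 a.le_one) γ.nonneg
  have h0' : ∀ z, 0 ≤ ω' z := fun z => add_nonneg (h0 z) (hn z)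
  have hb' : LB ω' := by
    intro x₀
    obtain ⟨R, hR⟩ := hb x₀
    refine ⟨max R 2, hR.mono fun y hy p hp => ?_⟩
    have h1 : γ p = 0 := γ.zero_of_le_dist (by
      rw [dist_zero_right]; exact ((le_max_right _ _).trans hp.le : (2 : ℝ) ≤ ‖p‖))
    simp only [ω', hy p ((le_max_left _ _).trans_lt hp), h1, mul_zero, add_zero]
  have hp' : ∀ y, ∃ p, 0 < ω' (y, p) := by
    intro y
    by_cases hy : y ∈ Metric.ball x r
    · exact ⟨p₀, add_pos_of_pos_of_nonneg (hrW hy) (hn (y, p₀))⟩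
    · have h1 : a y = 0 := a.zero_of_le_dist (by
        have : r ≤ dist y x := not_lt.1 hy
        show r / 2 ≤ dist y x
        linarith)
      have h2 : γ 0 = 1 := γ.one_of_mem_closedBall (Metric.mem_closedBall_self zero_le_one)
      refine ⟨0, add_pos_of_nonneg_of_pos (h0 _) ?_⟩
      simp only [h1, h2, sub_zero, mul_one, one_pos]
  have he : ∀ y, dist y x ≤ r / 3 → ∀ p, ω' (y, p) = ω (y, p) := by
    intro y hy p
    have h1 : a y = 1 := a.one_of_mem_closedBall hy
    simp only [ω', h1, sub_self, zero_mul, add_zero]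
  obtain ⟨h', H⟩ := exists_PD (d := d) hs hb' h0' hp' hU
  have hF : Sm fun z => ω' z * (U z - h' z) ^ 2 := hs.mul ((hU.sub H.sm).pow 2)
  have hL : LB fun z => ω' z * (U z - h' z) ^ 2 := by
    intro x₀
    obtain ⟨R, hR⟩ := hb' x₀
    exact ⟨R, hR.mono fun y hy p hp => by simp only [hy p hp, zero_mul]⟩
  have hΔ : Continuous fun y => ∫ p, ω' (y, p) * (U (y, p) - h' (y, p)) ^ 2 :=
    (contDiff_fib (k := 0) hL (hF.of_le (by simp))).continuous
  have hΔ0 : ∀ y, 0 ≤ ∫ p, ω' (y, p) * (U (y, p) - h' (y, p)) ^ 2 := fun y =>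
    integral_nonneg fun p => mul_nonneg (h0' _) (sq_nonneg _)
  have hc : Continuous fun y => b y * ∫ p, ω' (y, p) * (U (y, p) - h' (y, p)) ^ 2 :=
    b.continuous.mul hΔ
  have hk : HasCompactSupport fun y => b y * ∫ p, ω' (y, p) * (U (y, p) - h' (y, p)) ^ 2 :=
    b.hasCompactSupport.mul_right
  have hle : ∫ y, b y * ∫ p, ω' (y, p) * (U (y, p) - h' (y, p)) ^ 2 ≤ 0 := by
    refine le_of_forall_pos_le_add fun ε hε => ?_
    obtain ⟨g, hg, hi, hε'⟩ := h ε hε
    rw [zero_add]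
    refine le_trans ?_ hε'
    rw [int_fub hi]
    refine integral_mono (hc.integrable_of_hasCompactSupport hk) hi.integral_prod_left fun y => ?_
    by_cases hy : dist y x ≤ r / 3
    · have h1 := H.min hs.continuous hb' h0' hU.continuous y (hg y)
      refine (mul_le_of_le_one_left (hΔ0 y) b.le_one).trans (h1.trans_eq ?_)
      simp only [he y hy]
    · have h1 : b y = 0 := b.zero_of_le_dist (not_le.1 hy).le
      simp only [h1, zero_mul]
      exact integral_nonneg fun p => mul_nonneg (h0 _) (sq_nonneg _)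
  have h1 := eq_zero_of_int volume hc hk (fun y => mul_nonneg b.nonneg (hΔ0 y)) hle x
  rw [b.one_of_mem_closedBall (Metric.mem_closedBall_self b.rIn_pos.le), one_mul] at h1
  obtain ⟨R, hR⟩ := hL x
  refine ⟨fun p => h' (x, p), H.fp x, fun p hp => ?_⟩
  have h2 := eq_zero_of_int (u := fun p => ω' (x, p) * (U (x, p) - h' (x, p)) ^ 2) volume
    (hF.continuous.comp (by fun_prop : Continuous fun p : V n => (x, p)))
    (HasCompactSupport.intro (isCompact_closedBall 0 R) fun p hp =>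
      hR.self_of_nhds p (by simpa using hp))
    (fun p => mul_nonneg (h0' _) (sq_nonneg _)) h1.le p
  rw [he x (by rw [dist_self]; positivity)] at h2
  exact sub_eq_zero.1 (pow_eq_zero_iff two_ne_zero |>.1 ((mul_eq_zero.1 h2).resolve_left hp.ne'))

/-- with `z N = y N / Λ ^ N` one has `z N ≤ z (N + 1) / 2 + C E` and `z` is bounded -/
theorem iter_bound {y : ℕ → ℝ} {τ C E M Λ : ℝ} (hΛ : 0 < Λ) (hC : 0 ≤ C) (hτ : 0 < τ)
    (h2 : 2 * C * Λ ≤ τ) (h0 : ∀ N, 0 ≤ y N) (hM : ∀ N, y N ≤ M * Λ ^ N)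
    (h : ∀ N, τ * y N ≤ C * (y (N + 1) + τ * (E * Λ ^ N))) : y 0 ≤ 2 * C * E := by
  have hz : ∀ N, y (N) / Λ ^ N ≤ y (N + 1) / Λ ^ (N + 1) / 2 + C * E := by
    intro N
    have hp : 0 < Λ ^ N := pow_pos hΛ N
    have h1 : y (N + 1) = y (N + 1) / Λ ^ (N + 1) * Λ * Λ ^ N := by
      rw [pow_succ]; field_simp
    have h3 : 0 ≤ y (N + 1) / Λ ^ (N + 1) := div_nonneg (h0 _) (pow_pos hΛ _).le
    have h4 := h N
    rw [h1] at h4
    rw [div_le_iff₀ hp]
    generalize y (N + 1) / Λ ^ (N + 1) = w at *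
    refine le_of_mul_le_mul_left ?_ hτ
    nlinarith [mul_le_mul_of_nonneg_right h2 (mul_nonneg h3 hp.le)]
  have hk : ∀ k N : ℕ, y N / Λ ^ N - 2 * C * E ≤ (M - 2 * C * E) * (1 / 2) ^ k := by
    intro k
    induction k with
    | zero =>
      intro N
      have := (div_le_iff₀ (pow_pos hΛ N)).2 (hM N)
      linarith
    | succ k ih =>
      intro N
      have h1 := hz N
      have h3 := ih (N + 1)
      rw [pow_succ (1 / 2 : ℝ)]
      linarith
  have hl : Filter.Tendsto (fun k : ℕ => (M - 2 * C * E) * (1 / 2 : ℝ) ^ k) Filter.atTop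
      (nhds ((M - 2 * C * E) * 0)) :=
    (tendsto_pow_atTop_nhds_zero_of_lt_one (by norm_num) (by norm_num)).const_mul _
  have := ge_of_tendsto' hl fun k => hk k 0
  rw [pow_zero, div_one, mul_zero] at this
  linarith

theorem extr_aux {g D : ℕ → ℕ → ℝ → ℝ} {M C : ℝ}
    (hd : ∀ j k s, HasDerivAt (g j k) (D j k s) s)
    (hD : ∀ j k s, |D j k s| ≤ |g (j + 1) k s| + |g j (k + 1) s|)
    (hb : ∀ j k s, |g j k s| ≤ M * C ^ (j + k)) (h0 : ∀ j k, g j k 0 = 0) {s : ℝ} (hs : 0 ≤ s) :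
    g 0 0 s = 0 := by
  have hl : ∀ (l j k : ℕ) (t : ℝ), t ∈ Icc 0 s →
      |g j k t| ≤ M * C ^ (j + k) * ((2 * C * t) ^ l / l.factorial) := by
    intro l
    induction l with
    | zero => intro j k t _; simpa using hb j k t
    | succ l ih =>
      intro j k t ht
      have hB : ∀ t : ℝ, HasDerivAt
          (fun t : ℝ => M * C ^ (j + k) * ((2 * C * t) ^ (l + 1) / (l + 1).factorial))
          (2 * (M * C ^ (j + k + 1) * ((2 * C * t) ^ l / l.factorial))) t := by
        intro t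
        refine (((((hasDerivAt_id' t).const_mul (2 * C)).fun_pow (l + 1)).div_const
          _).const_mul _).congr_deriv ?_
        rw [Nat.factorial_succ]
        push_cast
        have : (l.factorial : ℝ) ≠ 0 := by positivity
        field_simp
        ring
      refine image_norm_le_of_norm_deriv_right_le_deriv_boundary (f := g j k) (f' := D j k)
        (fun t _ => (hd j k t).continuousAt.continuousWithinAt)
        (fun t _ => (hd j k t).hasDerivWithinAt) ?_ hB (fun t ht => ?_) ht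
      · simp [h0]
      · have h1 := ih (j + 1) k t (Ico_subset_Icc_self ht)
        have h2 := ih j (k + 1) t (Ico_subset_Icc_self ht)
        rw [add_right_comm] at h1
        rw [← add_assoc] at h2
        rw [Real.norm_eq_abs]
        linarith [hD j k t]
  have ht : Filter.Tendsto (fun l : ℕ => M * C ^ (0 + 0) * ((2 * C * s) ^ l / l.factorial))
      Filter.atTop (nhds (M * C ^ (0 + 0) * 0)) :=
    (FloorSemiring.tendsto_pow_div_factorial_atTop _).const_mul _
  have := ge_of_tendsto' ht fun l => hl l 0 0 s ⟨hs, le_rfl⟩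
  rw [mul_zero] at this
  exact abs_nonpos_iff.1 this

/-- induction on `l`: `|g j k s| ≤ M C ^ (j + k) (2 C |s|) ^ l / l!` for all `j k s` (fundamental
theorem of calculus; for `s < 0` apply the case `s ≥ 0` to `(-1) ^ (j + k) * g j k (-s)`);
`Real.tendsto_pow_div_factorial_atTop` -/
theorem taylor2 {g : ℕ → ℕ → ℝ → ℝ} {M C : ℝ} (hC : 0 ≤ C)
    (hd : ∀ j k s, HasDerivAt (g j k) (-(g (j + 1) k s + g j (k + 1) s)) s)
    (hb : ∀ j k s, |g j k s| ≤ M * C ^ (j + k)) (h0 : ∀ j k, g j k 0 = 0) (s : ℝ) :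
    g 0 0 s = 0 := by
  rcases le_total 0 s with hs | hs
  · exact extr_aux hd (fun j k s => by rw [abs_neg]; exact abs_add_le _ _) hb h0 hs
  · have := extr_aux (g := fun j k t => g j k (-t)) (M := M) (C := C)
      (D := fun j k t => g (j + 1) k (-t) + g j (k + 1) (-t)) (s := -s)
      (fun j k t => ((hd j k (-t)).comp t (hasDerivAt_neg t)).congr_deriv (by ring))
      (fun j k t => abs_add_le _ _) (fun j k t => hb j k (-t)) (fun j k => by simpa using h0 j k)
      (neg_nonneg.2 hs)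
    simpa using this

end Pool.Agent.Lib.MP_45f3cb_gt
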