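import Pool.Agent.Lib.MP_45f3cb_gt.Car3
import Pool.Agent.Lib.MP_45f3cb_gt.Extr

/-!
Unique continuation across one layer.
-/

open Set MeasureTheory

namespace Pool.Agent.Lib.MP_45f3cb_gt

variable {n : ℕ} {A : Met n} {ξ : V n → V n} {K : Set (V n)}

theorem Car4_pt {d : ℕ} {θ η β : ℝ → ℝ} {r c δ τ : ℝ} {U F h : Z n → ℝ}
    (hU : CC A ξ d K η c δ U F) (hξ : Sm ξ) (hθ : Th θ r) (hδ : 0 < δ) (h8 : 8 * δ ≤ r)
    (hτ : 0 ≤ τ) (H : PD d (A.om ξ θ τ) U h) (h1 : ∀ s, β s ≤ 1)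
    (h0 : ∀ s, s ≤ c - δ / 2 → β s = 0) (z : Z n) :
    β (A.psi ξ z) * (U z - h z) ^ 2 ≤
      Real.exp (-(2 * τ * (c - δ / 2))) * A.cj ξ θ τ U h z ^ 2 := by
  rcases le_or_gt (A.psi ξ z) (c - δ / 2) with h2 | h2
  · rw [h0 _ h2, zero_mul]
    positivity
  by_cases h3 : U z = 0 ∧ h z = 0
  · rw [h3.1, h3.2, sub_zero, zero_pow two_ne_zero, mul_zero]
    positivity
  have h4 : A.rho ξ z.1 ≤ c + 2 * δ := (not_and_or.1 h3).elim (fun e => (hU.supp z e).2.2)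
    fun e => (hU.h_supp hξ hθ (by linarith) H z e).2
  rw [Met.cj, hθ.one _ (by unfold Met.sig; linarith), one_mul, mul_pow, ← mul_assoc, Met.W,
    ← Real.exp_nat_mul, ← Real.exp_add]
  refine mul_le_mul_of_nonneg_right ((h1 _).trans (Real.one_le_exp ?_)) (sq_nonneg _)
  push_cast
  linarith [mul_le_mul_of_nonneg_left h2.le hτ]

/-- Sketch: `r` of `car3`, `θ` from `exists_step'` (`Th θ r`). For `τ ≥ max τ₀ (2 C Λ)` take `h 0` from
`exists_PD` (`om_facts`), `h N = (br L)^[N] (h 0)`; `CC.step` by induction; `iter_bound` for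
`y N = ∫ (cj (U N) (h N))²` with `car3`, `CC.cj_le` gives `y 0 ≤ 2 C M exp (2 τ (c - δ))`. Let
`ω = β (psi)` with `β` of `exists_step` for `c - δ / 2 < c`. Pointwise
`ω (U 0 - h 0)² ≤ exp (-2 τ (c - δ / 2)) cj²`: if `ω ≠ 0` and `U 0 z ≠ 0` or `h 0 z ≠ 0` then
`rho ≤ c + 2 δ` (`CC.h_supp`), so `sig ≤ r / 2`, `θ = 1`. Hence the integral is at most
`2 C M exp (-τ δ) → 0`; `extract` (`Met.lb_psi`). -/
theorem carleman (hG : Good A ξ K) (d : ℕ) : ∃ r : ℝ, 0 < r ∧ ∀ (η : ℝ → ℝ) (c δ M Λ : ℝ)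
    (U F : ℕ → Z n → ℝ), Sm η → 0 < δ → 8 * δ ≤ r → (∀ s, c - δ ≤ s → η s = 1) → 0 < Λ →
    (∀ N, CC A ξ d K η c δ (U N) (F N)) → (∀ N, U (N + 1) = br (lin ξ) (U N)) →
    (∀ N, (∫ z, U N z ^ 2) + ∫ z in A.tube ξ K r, n1 (F N) z ≤ M * Λ ^ N) →
    ∀ x, ∃ q ∈ HP n d, ∀ p, c - δ / 2 < A.psi ξ (x, p) → U 0 (x, p) = q p := by
  obtain ⟨r, hr, H3⟩ := car3 hG d
  refine ⟨r, hr, fun η c δ M Λ U F hη hδ h8 h1 hΛ hU hN hM x => ?_⟩
  obtain ⟨θ, t1, t2, t3, t4, t5, -⟩ := exists_step' (half_lt_self hr)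
  have hθ : Th θ r := ⟨t1, t2, t3, t4, t5⟩
  obtain ⟨C, τ₀, hC, hτ₀, H⟩ := H3 θ η c δ hθ hη hδ h8 h1
  obtain ⟨β, b1, b2, b3, b4, -, b6⟩ := exists_step (show c - δ / 2 < c by linarith)
  have hω : Sm fun z => β (A.psi ξ z) := b1.comp (A.sm_psi hG.sm)
  refine (extract (d := d) hω (A.lb_psi hG.sm fun z hz => b4 _ hz.le) (fun _ => b2 _) (hU 0).smU
    (fun ε hε => ?_) x).imp fun q e => ⟨e.1, fun p hp => e.2 p (b6 _ hp)⟩
  have hl := (Real.tendsto_exp_neg_atTop_nhds_zero.comp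
    (Filter.tendsto_id.atTop_mul_const hδ)).const_mul (2 * C * M)
  rw [mul_zero] at hl
  obtain ⟨τ, e1, e2, e3⟩ := ((Filter.eventually_ge_atTop τ₀).and
    ((Filter.eventually_ge_atTop (2 * C * Λ)).and (hl.eventually_le_const hε))).exists
  have hτ : 0 < τ := by linarith
  obtain ⟨o1, o2, o3, o4⟩ := om_facts (A := A) hG.sm hθ hr τ
  obtain ⟨h₀, P₀⟩ := exists_PD (d := d) o1 o2 o3 o4 (hU 0).smU
  have P : ∀ N, PD d (A.om ξ θ τ) (U N) ((br (lin ξ))^[N] h₀) := fun N => by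
    induction N with
    | zero => exact P₀
    | succ N ih =>
      rw [hN, Function.iterate_succ_apply']
      exact ((hU N).step hG hθ hr ih).1
  have hy := iter_bound (y := fun N => ∫ z, A.cj ξ θ τ (U N) ((br (lin ξ))^[N] h₀) z ^ 2)
    (E := Real.exp (2 * τ * (c - δ)) * M) (M := 4 * Real.exp (2 * τ * (c + 2 * δ)) * M) hΛ hC hτ e2
    (fun N => integral_nonneg fun z => sq_nonneg _) (fun N => by
      refine ((hU N).cj_le hG.sm hG.cpt hθ hδ h8 hτ.le (P N)).trans ?_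
      rw [mul_assoc _ M]
      refine mul_le_mul_of_nonneg_left (le_trans (le_add_of_nonneg_right ?_) (hM N)) (by positivity)
      exact integral_nonneg fun z => n1_nonneg _ z) fun N => by
      refine (H τ _ _ _ e1 (hU N) (P N)).trans (mul_le_mul_of_nonneg_left ?_ hC)
      rw [((hU N).step hG hθ hr (P N)).2, ← hN, Function.iterate_succ_apply', mul_assoc _ M]
      gcongr
      exact hM N
  obtain ⟨c1, c2, -⟩ := (hU 0).cj_facts hG.sm hθ hδ h8 P₀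
  have hi : Integrable fun z => Real.exp (-(2 * τ * (c - δ / 2))) * A.cj ξ θ τ (U 0) h₀ z ^ 2 :=
    (intg (c1.continuous.pow 2) (HasCompactSupport.intro (A.isCompact_tube hG.sm hG.cpt r)
      fun z hz => by rw [Pi.pow_apply, c2 z hz, zero_pow two_ne_zero])).const_mul _
  have hp := Car4_pt (hU 0) hG.sm hθ hδ h8 hτ.le P₀ b3 b4
  have hj : Integrable fun z => β (A.psi ξ z) * (U 0 z - h₀ z) ^ 2 :=
    hi.mono' (hω.continuous.mul
      (((hU 0).smU.continuous.sub P₀.sm.continuous).pow 2)).aestronglyMeasurable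
      (Filter.Eventually.of_forall fun z => by
        rw [Real.norm_of_nonneg (mul_nonneg (b2 _) (sq_nonneg _))]
        exact hp z)
  refine ⟨h₀, P₀.fp, hj, (integral_mono hj hi hp).trans ?_⟩
  rw [integral_const_mul]
  refine (mul_le_mul_of_nonneg_left hy (Real.exp_pos _).le).trans (le_of_eq_of_le ?_ e3)
  rw [Function.comp_apply, id, show -(τ * δ) = -(2 * τ * (c - δ / 2)) + 2 * τ * (c - δ) by ring,
    Real.exp_add]
  ring

end Pool.Agent.Lib.MP_45f3cb_gt
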