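import Pool.Agent.Lib.MP_45f3cb_gt.Gau

/-!
The projection for the weight `W² θ(sig)`.
-/

open Set MeasureTheory

namespace Pool.Agent.Lib.MP_45f3cb_gt

variable {n d : ℕ} {A : Met n} {ξ : V n → V n} {K : Set (V n)} {θ η : ℝ → ℝ} {r c δ τ : ℝ}
  {U F h : Z n → ℝ}

/-- the weight -/
noncomputable def Met.om (A : Met n) (ξ : V n → V n) (θ : ℝ → ℝ) (τ : ℝ) (z : Z n) : ℝ :=
  A.W ξ τ z ^ 2 * θ (A.sig ξ z)

/-- the conjugated function -/
noncomputable def Met.cj (A : Met n) (ξ : V n → V n) (θ : ℝ → ℝ) (τ : ℝ) (U h : Z n → ℝ)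
    (z : Z n) : ℝ := A.W ξ τ z * (U z - θ (A.sig ξ z) * h z)

theorem om_facts (hξ : Sm ξ) (hθ : Th θ r) (hr : 0 < r) (τ : ℝ) :
    Sm (A.om ξ θ τ) ∧ LB (A.om ξ θ τ) ∧ (∀ z, 0 ≤ A.om ξ θ τ z) ∧
      ∀ x, ∃ p, 0 < A.om ξ θ τ (x, p) := by
  refine ⟨((A.sm_W hξ τ).pow 2).mul (hθ.sm.comp (A.sm_sig hξ)),
    A.lb_sig hξ (s := r) fun z hz => ?_, fun z => mul_nonneg (sq_nonneg _) (hθ.nonneg _),
    fun x => ⟨A.fl ξ x, ?_⟩⟩
  · rw [Met.om, hθ.zero _ hz.le, mul_zero]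
  · rw [Met.om, A.sig_fl, hθ.one _ (by linarith), mul_one]
    exact pow_pos (A.W_pos τ _) 2

theorem CarH_sig (hU : CC A ξ d K η c δ U F) {z : Z n} (hz : U z ≠ 0) :
    z ∈ A.tube ξ K (4 * δ) := by
  obtain ⟨h1, h2, h3⟩ := hU.supp z hz
  exact ⟨h1, by rw [Met.sig]; linarith⟩

theorem CarH_om (hθ : Th θ r) (hτ : 0 ≤ τ) (z : Z n) {s : ℝ} (hs : A.rho ξ z.1 ≤ s) :
    A.om ξ θ τ z ≤ Real.exp (2 * τ * s) := by
  refine (mul_le_of_le_one_right (sq_nonneg _) (hθ.le_one _)).trans ?_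
  rw [Met.W, ← Real.exp_nat_mul]
  refine Real.exp_le_exp.2 ?_
  have := mul_le_mul_of_nonneg_left ((A.psi_le_rho ξ z).trans hs) hτ
  push_cast
  linarith

/-- on the support of `U` one has `sig ≤ 4 δ ≤ r / 2` -/
theorem CC.th (hU : CC A ξ d K η c δ U F) (hθ : Th θ r) (h8 : 8 * δ ≤ r) (z : Z n) :
    θ (A.sig ξ z) * U z = U z := by
  by_cases hz : U z = 0
  · rw [hz, mul_zero]
  · rw [hθ.one _ (by linarith [(CarH_sig hU hz).2]), one_mul]

theorem CC.hcs (hU : CC A ξ d K η c δ U F) (hξ : Sm ξ) (hK : IsCompact K) :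
    HasCompactSupport U := by
  exact HasCompactSupport.intro (A.isCompact_tube hξ hK (4 * δ)) fun z hz =>
    by_contra fun h => hz (CarH_sig hU h)

/-- `PD.eq` with `q = 0` -/
theorem CC.h_supp (hU : CC A ξ d K η c δ U F) (hξ : Sm ξ) (hθ : Th θ r) (hr : 0 < r)
    (H : PD d (A.om ξ θ τ) U h) (z : Z n) (hz : h z ≠ 0) :
    z.1 ∈ K ∧ A.rho ξ z.1 ≤ c + 2 * δ := by
  obtain ⟨o1, o2, o3, o4⟩ := om_facts (A := A) hξ hθ hr τ
  by_contra hn
  refine hz (H.eq o1.continuous o2 o3 (o4 z.1) (HP n d).zero_mem (fun p _ => ?_) z.2)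
  by_contra h0
  exact hn ⟨(hU.supp _ h0).1, (hU.supp _ h0).2.2⟩

theorem CarH_th (hU : CC A ξ d K η c δ U F) (hξ : Sm ξ) (hθ : Th θ r) (hr : 0 < r)
    (H : PD d (A.om ξ θ τ) U h) {z : Z n} (hz : z ∉ A.tube ξ K r) :
    θ (A.sig ξ z) * h z = 0 := by
  by_cases h0 : h z = 0
  · rw [h0, mul_zero]
  · rw [hθ.zero _ (le_of_not_ge fun h1 => hz ⟨(hU.h_supp hξ hθ hr H z h0).1, h1⟩), zero_mul]

theorem CC.cj_facts (hU : CC A ξ d K η c δ U F) (hξ : Sm ξ) (hθ : Th θ r) (hδ : 0 < δ)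
    (h8 : 8 * δ ≤ r) (H : PD d (A.om ξ θ τ) U h) :
    Sm (A.cj ξ θ τ U h) ∧ (∀ z, z ∉ A.tube ξ K r → A.cj ξ θ τ U h z = 0) ∧
      Orth d fun z => A.W ξ τ z * A.cj ξ θ τ U h z := by
  refine ⟨(A.sm_W hξ τ).mul (hU.smU.sub ((hθ.sm.comp (A.sm_sig hξ)).mul H.sm)), fun z hz => ?_, ?_⟩
  · have h1 : U z = 0 := by_contra fun h0 => hz (A.tube_mono (by linarith) (CarH_sig hU h0))
    rw [Met.cj, h1, CarH_th hU hξ hθ (by linarith) H hz, sub_zero, mul_zero]
  · have e : (fun z => A.W ξ τ z * A.cj ξ θ τ U h z) =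
        fun z => A.om ξ θ τ z * U z - A.om ξ θ τ z * h z := by
      funext z
      rw [Met.cj, Met.om, mul_assoc _ _ (U z), hU.th hθ h8]
      ring
    rw [e]
    exact H.orth

/-- `cj² ≤ 2 W² U² + 2 om h²` (as `θ² ≤ θ`), `PD.le` on each fibre, `int_fub`, `integral_mono`; on the
support of `U`, `psi ≤ rho ≤ c + 2 δ` -/
theorem CC.cj_le (hU : CC A ξ d K η c δ U F) (hξ : Sm ξ) (hK : IsCompact K) (hθ : Th θ r)
    (hδ : 0 < δ) (h8 : 8 * δ ≤ r) (hτ : 0 ≤ τ) (H : PD d (A.om ξ θ τ) U h) :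
    ∫ z, A.cj ξ θ τ U h z ^ 2 ≤ 4 * Real.exp (2 * τ * (c + 2 * δ)) * ∫ z, U z ^ 2 := by
  have hr : 0 < r := by linarith
  obtain ⟨o1, o2, o3, -⟩ := om_facts (A := A) hξ hθ hr τ
  obtain ⟨c1, c2, -⟩ := hU.cj_facts hξ hθ hδ h8 H
  have hT := A.isCompact_tube hξ hK r
  have cU := hU.smU.continuous
  have sU : HasCompactSupport fun z => U z ^ 2 :=
    (hU.hcs hξ hK).comp_left (g := fun t : ℝ => t ^ 2) (by simp)
  have i0 : Integrable fun z => A.cj ξ θ τ U h z ^ 2 := intg (c1.continuous.pow 2)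
    (HasCompactSupport.intro hT fun z hz => by rw [c2 z hz, sq, mul_zero])
  have i1 : Integrable fun z => U z ^ 2 := intg (cU.pow 2) sU
  have i2 : Integrable fun z => A.om ξ θ τ z * U z ^ 2 :=
    intg (o1.continuous.mul (cU.pow 2)) sU.mul_left
  have i3 : Integrable fun z => A.om ξ θ τ z * h z ^ 2 :=
    intg (o1.continuous.mul (H.sm.continuous.pow 2)) (HasCompactSupport.intro hT fun z hz => by
      rw [Met.om, sq (h z), mul_assoc, ← mul_assoc (θ _), CarH_th hU hξ hθ hr H hz, zero_mul,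
        mul_zero])
  have e1 : ∫ z, A.om ξ θ τ z * h z ^ 2 ≤ ∫ z, A.om ξ θ τ z * U z ^ 2 := by
    rw [int_fub i3, int_fub i2]
    exact integral_mono (Integrable.integral_prod_left i3) (Integrable.integral_prod_left i2)
      fun x => H.le o1.continuous o2 o3 cU x
  have e2 : ∫ z, A.om ξ θ τ z * U z ^ 2 ≤ Real.exp (2 * τ * (c + 2 * δ)) * ∫ z, U z ^ 2 := by
    rw [← integral_const_mul]
    refine integral_mono i2 (i1.const_mul _) fun z => ?_
    by_cases h0 : U z = 0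
    · simp [h0]
    · exact mul_le_mul_of_nonneg_right (CarH_om hθ hτ z (hU.supp z h0).2.2) (sq_nonneg _)
  have e3 : ∫ z, A.cj ξ θ τ U h z ^ 2 ≤
      ∫ z, (2 * (A.om ξ θ τ z * U z ^ 2) + 2 * (A.om ξ θ τ z * h z ^ 2)) := by
    refine integral_mono i0 ((i2.const_mul _).add (i3.const_mul _)) fun z => ?_
    have a1 : θ (A.sig ξ z) * U z ^ 2 = U z ^ 2 := by rw [sq, ← mul_assoc, hU.th hθ h8]
    have a2 : (θ (A.sig ξ z) * h z) ^ 2 ≤ θ (A.sig ξ z) * h z ^ 2 := by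
      rw [mul_pow]
      exact mul_le_mul_of_nonneg_right
        (pow_le_of_le_one (hθ.nonneg _) (hθ.le_one _) two_ne_zero) (sq_nonneg _)
    have a3 : (U z - θ (A.sig ξ z) * h z) ^ 2 ≤
        2 * (θ (A.sig ξ z) * U z ^ 2) + 2 * (θ (A.sig ξ z) * h z ^ 2) := by
      nlinarith [sq_nonneg (U z + θ (A.sig ξ z) * h z)]
    simp only [Met.cj, Met.om, mul_pow (A.W ξ τ z)]
    exact (mul_le_mul_of_nonneg_left a3 (sq_nonneg _)).trans (le_of_eq (by ring))
  rw [integral_add (i2.const_mul _) (i3.const_mul _), integral_const_mul, integral_const_mul] at e3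
  linarith

/-- Sketch: `fp_weight` for a fixed weight `β (sig)` with `0 ≤ β ≤ 1`, `β 0 > 0`, `β = 0` on `[δ, ∞)`
(`exists_step'`); `β (sig) ≤ exp (2 τ δ - 2 τ rho) om`; `PD.le`; `om ≤ exp (2 τ rho)`;
`setInt_le_fib` (carry `exp (2 τ δ)` in the constant). -/
theorem car_h (hξ : Sm ξ) (hK : IsCompact K) (d : ℕ) (hθ : Th θ r) (hδ : 0 < δ) (h8 : 8 * δ ≤ r) :
    ∃ C : ℝ, 0 ≤ C ∧ ∀ (τ : ℝ) (U h : Z n → ℝ), 0 ≤ τ → Continuous U → HasCompactSupport U →
      PD d (A.om ξ θ τ) U h →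
      ∫ z in A.tube ξ K r, n1 h z ≤ C * Real.exp (2 * τ * δ) * ∫ z, U z ^ 2 := by
  have hr : 0 < r := by linarith
  obtain ⟨β, b1, b2, b3, b4, b5, -⟩ := exists_step' hδ
  have cβ : Continuous fun z => β (A.sig ξ z) := (b1.comp (A.sm_sig hξ)).continuous
  have lβ : LB fun z => β (A.sig ξ z) := A.lb_sig hξ (s := δ) fun z hz => b5 _ hz.le
  obtain ⟨R, hR⟩ := (A.isCompact_tube hξ hK r).isBounded.exists_norm_le
  obtain ⟨C, hC, hw⟩ := fp_weight (d := d) hK cβ lβ (fun z => b2 _)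
    (fun x _ => ⟨A.fl ξ x, by rw [A.sig_fl, b4 _ le_rfl]; exact one_pos⟩) R
  refine ⟨C * (volume (Metric.closedBall (0 : V n) R)).toReal, by positivity,
    fun τ U h hτ cU sU H => ?_⟩
  obtain ⟨o1, o2, o3, -⟩ := om_facts (A := A) hξ hθ hr τ
  have sU2 : HasCompactSupport fun z => U z ^ 2 := sU.comp_left (g := fun t : ℝ => t ^ 2) (by simp)
  have ch := H.sm.continuous.pow 2
  have key := setInt_le_fib (R := R) (C := C * Real.exp (2 * τ * δ)) hK (by positivity)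
    H.sm.n1.continuous (cU.pow 2) sU2 (fun z => sq_nonneg _) fun x hx p hp => by
      refine (n1_le_n2 _ _).trans ((hw h H.sm H.fp x hx p hp).trans ?_)
      rw [mul_assoc]
      refine mul_le_mul_of_nonneg_left ?_ hC
      have e1 : ∫ y, β (A.sig ξ (x, y)) * h (x, y) ^ 2 ≤
          Real.exp (2 * τ * δ - 2 * τ * A.rho ξ x) * ∫ y, A.om ξ θ τ (x, y) * h (x, y) ^ 2 := by
        rw [← integral_const_mul]
        refine integral_mono ((lβ.mul_right (G := fun z => h z ^ 2)).integrable (cβ.mul ch) x)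
          (((o2.mul_right (G := fun z => h z ^ 2)).integrable (o1.continuous.mul ch) x).const_mul _)
          fun y => ?_
        beta_reduce
        rw [← mul_assoc]
        refine mul_le_mul_of_nonneg_right ?_ (sq_nonneg _)
        rcases le_or_gt δ (A.sig ξ (x, y)) with h1 | h1
        · rw [b5 _ h1]
          exact mul_nonneg (Real.exp_pos _).le (o3 _)
        · rw [Met.om, hθ.one _ (by linarith), mul_one, Met.W, ← Real.exp_nat_mul, ← Real.exp_add]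
          refine (b3 _).trans (Real.one_le_exp ?_)
          have h2 := mul_le_mul_of_nonneg_left h1.le hτ
          rw [Met.sig] at h2
          push_cast
          linarith
      have e2 : ∫ y, A.om ξ θ τ (x, y) * U (x, y) ^ 2 ≤
          Real.exp (2 * τ * A.rho ξ x) * ∫ y, U (x, y) ^ 2 := by
        rw [← integral_const_mul]
        exact integral_mono ((o2.mul_right (G := fun z => U z ^ 2)).integrable
          (o1.continuous.mul (cU.pow 2)) x)
          (((LB.of_compact sU2).integrable (cU.pow 2) x).const_mul _)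
          fun y => mul_le_mul_of_nonneg_right (CarH_om hθ hτ (x, y) le_rfl) (sq_nonneg _)
      refine e1.trans ((mul_le_mul_of_nonneg_left ((H.le o1.continuous o2 o3 cU x).trans e2)
        (Real.exp_pos _).le).trans (le_of_eq ?_))
      rw [← mul_assoc, ← Real.exp_add, sub_add_cancel]
      rfl
  refine (setIntegral_mono_set (H.sm.n1.continuous.continuousOn.integrableOn_compact
    (hK.prod (isCompact_closedBall (0 : V n) R)))
    (Filter.Eventually.of_forall fun z => n1_nonneg h z)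
    (LE.le.eventuallyLE fun z hz => ⟨hz.1, mem_closedBall_zero_iff.2
      ((norm_snd_le z).trans (hR z hz))⟩)).trans (key.trans (le_of_eq ?_))
  simp only [Pi.pow_apply]
  ring

theorem CarH_mul (hK : IsCompact K) {L a w : Z n → ℝ} (ha : Sm a) (hw : Sm w)
    (h0 : ∀ z : Z n, z.1 ∈ K → br L a z = 0) (hs : ∀ z : Z n, w z ≠ 0 → z.1 ∈ K) (z : Z n) :
    br L (fun y => a y * w y) z = a z * br L w z := by
  by_cases hz : z.1 ∈ K
  · rw [br_mul (ha.dAt _) (hw.dAt _), h0 z hz, zero_mul, zero_add]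
  · have e : w =ᶠ[nhds z] fun _ => 0 := by
      filter_upwards [(hK.isClosed.isOpen_compl.preimage continuous_fst).mem_nhds hz] with y hy
      exact by_contra fun h => hy (hs y h)
    have e' : (fun y => a y * w y) =ᶠ[nhds z] fun _ => 0 := by
      filter_upwards [e] with y hy
      rw [hy, mul_zero]
    rw [br_congr e, br_congr e', br_const, mul_zero]

/-- equivariance. Sketch: over `K` the functions `psi`, `rho`, `sig` are killed by `br L` (`Good.inv`,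
`br_anti`, `br_sub`, `br_self`, `Good.rho`); off the closed set `K` both `U` and `h` vanish near the
point. So `br L (a * w) = a * br L w` for `a ∈ {W, θ (sig), om}` and `w ∈ {U, h}`; `Orth.br_lin`. -/
theorem CC.step (hU : CC A ξ d K η c δ U F) (hG : Good A ξ K) (hθ : Th θ r) (hr : 0 < r)
    (H : PD d (A.om ξ θ τ) U h) : PD d (A.om ξ θ τ) (br (lin ξ) U) (br (lin ξ) h) ∧
      br (lin ξ) (A.cj ξ θ τ U h) = A.cj ξ θ τ (br (lin ξ) U) (br (lin ξ) h) := by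
  have hξ := hG.sm
  have hK := hG.cpt
  obtain ⟨o1, o2, -, -⟩ := om_facts (A := A) hξ hθ hr τ
  have sW := A.sm_W hξ τ
  have sθ : Sm fun z => θ (A.sig ξ z) := hθ.sm.comp (A.sm_sig hξ)
  have k1 : ∀ z : Z n, z.1 ∈ K → br (lin ξ) (A.psi ξ) z = 0 := fun z hz => by
    have := br_sub (a := lin ξ) ((sm_lin hξ).dAt z) (A.sm_H.dAt z)
    rw [br_self, br_anti _ A.H, hG.inv z hz, neg_zero, sub_zero] at this
    exact this
  have k2 : ∀ z : Z n, z.1 ∈ K → br (lin ξ) (A.sig ξ) z = 0 := fun z hz => by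
    have := br_sub (a := lin ξ) (F := fun w => A.rho ξ w.1)
      (Sm.dAt ((A.sm_rho hξ).comp contDiff_fst) z) ((A.sm_psi hξ).dAt z)
    rw [hG.rho z hz, k1 z hz, sub_zero] at this
    exact this
  have k3 : ∀ z : Z n, z.1 ∈ K → br (lin ξ) (A.W ξ τ) z = 0 := fun z hz => by
    rw [A.br_W hξ, k1 z hz, mul_zero, zero_mul]
  have k4 : ∀ z : Z n, z.1 ∈ K → br (lin ξ) (fun z => θ (A.sig ξ z)) z = 0 := fun z hz => by
    rw [br_comp (hθ.sm.dAt _) ((A.sm_sig hξ).dAt z), k2 z hz, mul_zero]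
  have k5 : ∀ z : Z n, z.1 ∈ K → br (lin ξ) (A.om ξ θ τ) z = 0 := fun z hz => by
    have e : A.om ξ θ τ = fun w => A.W ξ τ w * A.W ξ τ w * θ (A.sig ξ w) := by
      funext w
      rw [Met.om, sq]
    rw [e, br_mul (Sm.dAt (sW.mul sW) z) (sθ.dAt z), br_mul (sW.dAt z) (sW.dAt z), k3 z hz, k4 z hz]
    ring
  have sU : ∀ z : Z n, U z ≠ 0 → z.1 ∈ K := fun z hz => (hU.supp z hz).1
  have sh : ∀ z : Z n, h z ≠ 0 → z.1 ∈ K := fun z hz => (hU.h_supp hξ hθ hr H z hz).1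
  refine ⟨⟨(sm_lin hξ).br H.sm, H.fp.br_lin hξ H.sm.dAt, ?_⟩, funext fun z => ?_⟩
  · have h1 := H.orth.br_lin ((o1.mul hU.smU).sub (o1.mul H.sm)) (o2.mul_right.sub o2.mul_right) hξ
    have e : br (lin ξ) (fun z => A.om ξ θ τ z * U z - A.om ξ θ τ z * h z) = fun z =>
        A.om ξ θ τ z * br (lin ξ) U z - A.om ξ θ τ z * br (lin ξ) h z := by
      funext z
      rw [br_sub (Sm.dAt (o1.mul hU.smU) z) (Sm.dAt (o1.mul H.sm) z),
        CarH_mul hK o1 hU.smU k5 sU, CarH_mul hK o1 H.sm k5 sh]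
    rwa [e] at h1
  · have h1 := CarH_mul hK sW (hU.smU.sub (sθ.mul H.sm)) k3 (fun z hz => by
      by_contra hn
      refine hz ?_
      rw [by_contra fun h0 => hn (sU z h0), by_contra fun h0 => hn (sh z h0), mul_zero, sub_zero]) z
    rw [br_sub (hU.smU.dAt z) (Sm.dAt (sθ.mul H.sm) z), CarH_mul hK sθ H.sm k4 sh] at h1
    exact h1

end Pool.Agent.Lib.MP_45f3cb_gt
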