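import Pool.Agent.Lib.MP_45f3cb_gt.Exit1

/-!
The exit time. Apply `GF.exit_est`, `GF.exit_bdd` with `h₀ = h₁ = H z` for pointwise facts.
-/

open Set MeasureTheory

namespace Pool.Agent.Lib.MP_45f3cb_gt

variable {n : ℕ} {D : Dom n} {e h₀ h₁ : ℝ} {z : Z n}

theorem Exit2_cont (P : GF D e) : Continuous fun q : ℝ × Z n => D.b (P.Φ q.1 q.2).1 :=
  D.smb.continuous.comp P.flow.cont.fst

theorem Exit2_cz (P : GF D e) (z : Z n) : Continuous fun t => D.b (P.Φ t z).1 :=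
  D.smb.continuous.comp (P.flow.cont_z z).fst

theorem Exit2_der (P : GF D e) (he : D.H z < e) {t : ℝ} (ht : D.b (P.Φ t z).1 ≤ 0) :
    HasDerivAt (fun r => D.b (P.Φ r z).1) (D.ell (P.Φ t z)) t :=
  P.der_fun he (P.ball _ ht) (F := fun w => D.b w.1) (D.sm_bz.dAt _)

theorem Exit2_zero (P : GF D e) (hz : D.b z.1 ≤ 0) :
    ∀ s ∈ Icc (0 : ℝ) 0, D.b (P.Φ s z).1 ≤ 0 := fun s hs => by
  rwa [le_antisymm hs.2 hs.1, P.flow.zero]

theorem Exit2_right {f : ℝ → ℝ} {a d : ℝ} (h : HasDerivAt f d a) (hd : d < 0) :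
    ∀ᶠ s in nhdsWithin a (Ioi a), f s < f a := by
  have h1 := ((hasDerivAt_iff_tendsto_slope.1 h).mono_left (nhdsGT_le_nhdsNE a)).eventually
    (gt_mem_nhds hd)
  filter_upwards [h1, self_mem_nhdsWithin] with s hs hs'
  rw [slope_def_field, div_lt_iff₀ (sub_pos.2 hs'), zero_mul] at hs
  exact sub_neg.1 hs

theorem GF.ex_bddAbove (P : GF D e) (hz : D.b z.1 ≤ 0) (h0 : 0 < D.H z) (he : D.H z < e) :
    BddAbove {t | 0 ≤ t ∧ ∀ s ∈ Icc 0 t, D.b (P.Φ s z).1 ≤ 0} := by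
  obtain ⟨Tm, h⟩ := P.exit_bdd h0 he
  obtain ⟨t, ht, hb⟩ := h z ⟨hz, le_rfl, le_rfl⟩
  refine ⟨t, fun u hu => ?_⟩
  by_contra hc
  exact absurd (hu.2 t ⟨ht.1, (not_le.1 hc).le⟩) (not_le.2 hb)

theorem GF.le_ex (P : GF D e) (h0 : 0 < D.H z) (he : D.H z < e) {t : ℝ} (ht : 0 ≤ t)
    (h : ∀ s ∈ Icc 0 t, D.b (P.Φ s z).1 ≤ 0) : t ≤ P.ex z := by
  have hz := h 0 ⟨le_rfl, ht⟩
  rw [P.flow.zero] at hz
  exact le_csSup (P.ex_bddAbove hz h0 he) ⟨ht, h⟩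

theorem Exit2_ext (P : GF D e) (h0 : 0 < D.H z) (he : D.H z < e) {T : ℝ} (hT : 0 ≤ T)
    (h : ∀ s ∈ Icc 0 T, D.b (P.Φ s z).1 ≤ 0)
    (h' : ∀ᶠ s in nhdsWithin T (Ioi T), D.b (P.Φ s z).1 ≤ 0) : T < P.ex z := by
  obtain ⟨u, hu, hs⟩ := mem_nhdsGT_iff_exists_Ioc_subset.1 h'
  refine lt_of_lt_of_le hu (P.le_ex h0 he (hT.trans (le_of_lt hu)) fun s hs' => ?_)
  rcases le_or_gt s T with h1 | h1
  · exact h s ⟨hs'.1, h1⟩
  · exact hs ⟨h1, hs'.2⟩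

theorem GF.ex_nonneg (P : GF D e) (hz : D.b z.1 ≤ 0) (h0 : 0 < D.H z) (he : D.H z < e) :
    0 ≤ P.ex z := by
  exact P.le_ex h0 he le_rfl (Exit2_zero P hz)

/-- for `s < ex z` by the definition of the supremum, at `ex z` by continuity -/
theorem GF.ex_in (P : GF D e) (hz : D.b z.1 ≤ 0) (h0 : 0 < D.H z) (he : D.H z < e) :
    ∀ s ∈ Icc 0 (P.ex z), D.b (P.Φ s z).1 ≤ 0 := by
  rcases (P.ex_nonneg hz h0 he).eq_or_lt with h | h
  · rw [← h]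
    exact Exit2_zero P hz
  · have hc : IsClosed {s | D.b (P.Φ s z).1 ≤ 0} := isClosed_le (Exit2_cz P z) continuous_const
    rw [← closure_Ico h.ne]
    refine fun s hs => closure_minimal (fun r hr => ?_) hc hs
    obtain ⟨t, ht, hrt⟩ := exists_lt_of_lt_csSup
      (s := {t | 0 ≤ t ∧ ∀ s ∈ Icc 0 t, D.b (P.Φ s z).1 ≤ 0}) ⟨0, le_rfl, Exit2_zero P hz⟩ hr.2
    exact ht.2 r ⟨hr.1, hrt.le⟩

theorem GF.ex_lt (P : GF D e) (hz : D.b z.1 ≤ 0) (h0 : 0 < D.H z) (he : D.H z < e) {t : ℝ}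
    (ht : 0 ≤ t) (h : 0 < D.b (P.Φ t z).1) : P.ex z < t := by
  by_contra hc
  exact absurd (P.ex_in hz h0 he t ⟨ht, not_lt.1 hc⟩) (not_le.2 h)

theorem GF.ex_bdry (P : GF D e) (hz : D.b z.1 ≤ 0) (h0 : 0 < D.H z) (he : D.H z < e) :
    D.b (P.Φ (P.ex z) z).1 = 0 := by
  have hn := P.ex_nonneg hz h0 he
  refine le_antisymm (P.ex_in hz h0 he _ ⟨hn, le_rfl⟩) (not_lt.1 fun hc => ?_)
  refine lt_irrefl _ (Exit2_ext P h0 he hn (P.ex_in hz h0 he) ?_)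
  exact (((Exit2_cz P z).tendsto _).eventually (gt_mem_nhds hc)).filter_mono nhdsWithin_le_nhds
    |>.mono fun s hs => hs.le

/-- if `ell < 0` at the exit point then `b < 0` just after it (the derivative of `b ∘ Φ` is
negative), which contradicts the maximality -/
theorem GF.ex_ell (P : GF D e) (hz : D.b z.1 ≤ 0) (h0 : 0 < D.H z) (he : D.H z < e) :
    0 ≤ D.ell (P.Φ (P.ex z) z) := by
  have hn := P.ex_nonneg hz h0 he
  have hb := P.ex_bdry hz h0 he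
  refine not_lt.1 fun hc => lt_irrefl _ (Exit2_ext P h0 he hn (P.ex_in hz h0 he) ?_)
  exact (Exit2_right (Exit2_der P he hb.le) hc).mono fun s hs => hs.le.trans hb.le

/-- `GF.exit_est` at `Φ T z` -/
theorem GF.ex_eq (P : GF D e) (h0 : 0 < D.H z) (he : D.H z < e) {T : ℝ} (hT : 0 ≤ T)
    (h : ∀ s ∈ Icc 0 T, D.b (P.Φ s z).1 ≤ 0) (hb : D.b (P.Φ T z).1 = 0)
    (hl : 0 ≤ D.ell (P.Φ T z)) : P.ex z = T := by
  refine le_antisymm (not_lt.1 fun hc => ?_) (P.le_ex h0 he hT h)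
  have hz := h 0 ⟨le_rfl, hT⟩
  rw [P.flow.zero] at hz
  obtain ⟨ε₀, c, hε, hc0, hest⟩ := P.exit_est h0 he
  have ht : 0 < min ε₀ (P.ex z - T) := lt_min hε (sub_pos.2 hc)
  have h1 := (hest (P.Φ T z) hb (by rw [P.ener]; exact ⟨le_rfl, le_rfl⟩) hl _
    ⟨ht.le, min_le_left _ _⟩).1
  rw [← P.flow.add] at h1
  have h2 := P.ex_in hz h0 he (min ε₀ (P.ex z - T) + T)
    ⟨by linarith, by linarith [min_le_right ε₀ (P.ex z - T)]⟩
  have h3 : 0 < c * min ε₀ (P.ex z - T) ^ 2 := by positivity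
  linarith

/-- an interior zero is a local maximum, so `ell = 0` there and `GF.ex_eq` applies -/
theorem GF.ex_neg (P : GF D e) (hz : D.b z.1 ≤ 0) (h0 : 0 < D.H z) (he : D.H z < e) :
    ∀ s ∈ Ioo 0 (P.ex z), D.b (P.Φ s z).1 < 0 := by
  intro s hs
  have hin := P.ex_in hz h0 he
  have hle := hin s ⟨hs.1.le, hs.2.le⟩
  refine hle.lt_of_ne fun hb => ?_
  have hm : IsLocalMax (fun r => D.b (P.Φ r z).1) s := by
    filter_upwards [Icc_mem_nhds hs.1 hs.2] with r hr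
    exact (hin r hr).trans hb.ge
  have hl := hm.hasDerivAt_eq_zero (Exit2_der P he hle)
  exact hs.2.ne' (P.ex_eq h0 he hs.1.le (fun r hr => hin r ⟨hr.1, hr.2.trans hs.2.le⟩) hb hl.ge)

theorem GF.ex_pos (P : GF D e) (hz : D.b z.1 ≤ 0) (h0 : 0 < D.H z) (he : D.H z < e)
    (h : D.b z.1 < 0 ∨ D.ell z < 0) : 0 < P.ex z := by
  have hb := Exit2_zero P hz 0 ⟨le_rfl, le_rfl⟩
  refine Exit2_ext P h0 he le_rfl (Exit2_zero P hz) ?_
  rw [← P.flow.zero z] at h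
  rcases h with h | h
  · exact (((Exit2_cz P z).tendsto _).eventually (gt_mem_nhds h)).filter_mono nhdsWithin_le_nhds
      |>.mono fun s hs => hs.le
  · exact (Exit2_right (Exit2_der P he hb) h).mono fun s hs => hs.le.trans hb

theorem GF.ex_shift (P : GF D e) (hz : D.b z.1 ≤ 0) (h0 : 0 < D.H z) (he : D.H z < e) {s : ℝ}
    (hs : s ∈ Icc 0 (P.ex z)) : P.ex (P.Φ s z) = P.ex z - s := by
  refine P.ex_eq (by rwa [P.ener]) (by rwa [P.ener]) (sub_nonneg.2 hs.2) (fun r hr => ?_) ?_ ?_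
  · rw [← P.flow.add]
    exact P.ex_in hz h0 he _ ⟨add_nonneg hr.1 hs.1, by linarith [hr.2]⟩
  · rw [← P.flow.add, sub_add_cancel]
    exact P.ex_bdry hz h0 he
  · rw [← P.flow.add, sub_add_cancel]
    exact P.ex_ell hz h0 he

theorem GF.ex_after (P : GF D e) (h0 : 0 < h₀) (h1 : h₁ < e) : ∃ ε₀ c : ℝ, 0 < ε₀ ∧ 0 < c ∧
    ∀ z ∈ D.sh h₀ h₁, (∀ t ∈ Icc (P.ex z) (P.ex z + ε₀), c * (t - P.ex z) ^ 2 ≤ D.b (P.Φ t z).1) ∧
      ∀ t ∈ Icc 0 (P.ex z + ε₀), ‖(P.Φ t z).1‖ < P.R := by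
  obtain ⟨ε₀, c, hε, hc, hest⟩ := P.exit_est h0 h1
  refine ⟨ε₀, c, hε, hc, fun z hz => ?_⟩
  have a0 : 0 < D.H z := h0.trans_le hz.2.1
  have a1 : D.H z < e := hz.2.2.trans_lt h1
  have key : ∀ t ∈ Icc (P.ex z) (P.ex z + ε₀),
      c * (t - P.ex z) ^ 2 ≤ D.b (P.Φ t z).1 ∧ ‖(P.Φ t z).1‖ < P.R := fun t ht => by
    have := hest (P.Φ (P.ex z) z) (P.ex_bdry hz.1 a0 a1) (by rw [P.ener]; exact hz.2)
      (P.ex_ell hz.1 a0 a1) (t - P.ex z) ⟨sub_nonneg.2 ht.1, by linarith [ht.2]⟩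
    rwa [← P.flow.add, sub_add_cancel] at this
  refine ⟨fun t ht => (key t ht).1, fun t ht => ?_⟩
  rcases le_total t (P.ex z) with h | h
  · exact P.ball _ (P.ex_in hz.1 a0 a1 t ⟨ht.1, h⟩)
  · exact (key t ⟨h, ht.2⟩).2

theorem GF.ex_le (P : GF D e) (h0 : 0 < h₀) (h1 : h₁ < e) :
    ∃ Tm : ℝ, ∀ z ∈ D.sh h₀ h₁, P.ex z ≤ Tm := by
  obtain ⟨Tm, h⟩ := P.exit_bdd h0 h1
  refine ⟨Tm, fun z hz => ?_⟩
  obtain ⟨t, ht, hb⟩ := h z hz
  exact (P.ex_lt hz.1 (h0.trans_le hz.2.1) (hz.2.2.trans_lt h1) ht.1 hb).le.trans ht.2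

/-- Sketch: fix `z₀`, `ε < ε₀ / 2`. Upper bound: `b (Φ (ex z₀ + ε) z).1 > 0` near `z₀`, `GF.ex_lt`.
Lower bound (only if `ex z₀ > 2 ε`): `b < 0` on `[ε, ex z₀ - ε]` for `z` near `z₀` (compactness);
`ex z < ε` is impossible since then `b (Φ ε z).1 > 0` by `GF.ex_after`; so `GF.le_ex` applies. -/
theorem GF.ex_cont (P : GF D e) (h0 : 0 < h₀) (h1 : h₁ < e) : ContinuousOn P.ex (D.sh h₀ h₁) := by
  obtain ⟨ε₀, c, hε, hc, haft⟩ := P.ex_after h0 h1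
  have a0 : ∀ z ∈ D.sh h₀ h₁, 0 < D.H z := fun z hz => h0.trans_le hz.2.1
  have a1 : ∀ z ∈ D.sh h₀ h₁, D.H z < e := fun z hz => hz.2.2.trans_lt h1
  have hn : ∀ z ∈ D.sh h₀ h₁, 0 ≤ P.ex z := fun z hz => P.ex_nonneg hz.1 (a0 z hz) (a1 z hz)
  have hpos : ∀ z ∈ D.sh h₀ h₁, ∀ t, P.ex z < t → t ≤ P.ex z + ε₀ → 0 < D.b (P.Φ t z).1 :=
    fun z hz t ht ht' => by
      have h2 := sub_pos.2 ht
      exact lt_of_lt_of_le (by positivity) ((haft z hz).1 t ⟨ht.le, ht'⟩)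
  intro z₀ hz₀
  refine tendsto_order.2 ⟨fun a ha => ?_, fun a ha => ?_⟩
  · rcases lt_or_ge a 0 with ha0 | ha0
    · filter_upwards [self_mem_nhdsWithin] with z hz
      exact ha0.trans_le (hn z hz)
    have hp : 0 < P.ex z₀ := ha0.trans_lt ha
    have e0 : 0 < min ε₀ (P.ex z₀ / 2) := lt_min hε (half_pos hp)
    have e1 : max a (min ε₀ (P.ex z₀ / 2)) < P.ex z₀ :=
      max_lt ha ((min_le_right _ _).trans_lt (half_lt_self hp))
    have hev : ∀ᶠ z in nhds z₀, ∀ t ∈ Icc (min ε₀ (P.ex z₀ / 2)) (max a (min ε₀ (P.ex z₀ / 2))),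
        D.b (P.Φ t z).1 < 0 := by
      refine isCompact_Icc.eventually_forall_of_forall_eventually fun t ht => ?_
      have h2 := P.ex_neg hz₀.1 (a0 _ hz₀) (a1 _ hz₀) t ⟨e0.trans_le ht.1, ht.2.trans_lt e1⟩
      exact (((Exit2_cont P).comp continuous_swap).tendsto (z₀, t)).eventually (gt_mem_nhds h2)
    filter_upwards [self_mem_nhdsWithin, hev.filter_mono nhdsWithin_le_nhds] with z hz hneg
    refine not_le.1 fun hle => ?_
    rcases lt_or_ge (P.ex z) (min ε₀ (P.ex z₀ / 2)) with h | h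
    · have h2 := hpos z hz _ h ((min_le_left _ _).trans (le_add_of_nonneg_left (hn z hz)))
      exact lt_asymm h2 (hneg _ ⟨le_rfl, le_max_right _ _⟩)
    · exact (hneg _ ⟨h, hle.trans (le_max_left _ _)⟩).ne (P.ex_bdry hz.1 (a0 z hz) (a1 z hz))
  · have e0 : P.ex z₀ < min a (P.ex z₀ + ε₀) := lt_min ha (lt_add_of_pos_right _ hε)
    have h2 := hpos z₀ hz₀ _ e0 (min_le_right _ _)
    have hev : ∀ᶠ z in nhds z₀, 0 < D.b (P.Φ (min a (P.ex z₀ + ε₀)) z).1 :=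
      (((Exit2_cont P).comp (Continuous.prodMk_right _)).tendsto z₀).eventually (lt_mem_nhds h2)
    filter_upwards [self_mem_nhdsWithin, hev.filter_mono nhdsWithin_le_nhds] with z hz hb
    exact (P.ex_lt hz.1 (a0 z hz) (a1 z hz) ((hn _ hz₀).trans e0.le) hb).trans_le (min_le_left _ _)

end Pool.Agent.Lib.MP_45f3cb_gt
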