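import Pool.Agent.Lib.MP_45f3cb_gt.Base2
import Pool.Agent.Lib.MP_45f3cb_gt.KilF
import Pool.Agent.Lib.MP_45f3cb_gt.Exit2

/-!
A geodesic cannot be almost tangent to `ξ` twice.
-/

open Set MeasureTheory

namespace Pool.Agent.Lib.MP_45f3cb_gt

variable {n : ℕ} {e : ℝ} {D : Dom n} {ξ : V n → V n} {K : Set (V n)}

/-- `Met.pos_graph` for `H` and `e - H`, then compactness (`Met.isCompact_sig`) -/
theorem tube_energy (A : Met n) (hξ : Sm ξ) (hK : IsCompact K) (h0 : ∀ x ∈ K, ξ x ≠ 0)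
    (he : ∀ x ∈ K, A.rho ξ x < e) : ∃ δ h₀ h₁ : ℝ, 0 < δ ∧ 0 < h₀ ∧ h₁ < e ∧
      ∀ z ∈ A.tube ξ K δ, A.H z ∈ Icc h₀ h₁ := by
  obtain ⟨c, r, hc, hr, h1⟩ := A.pos_graph hξ hK (F := A.H) A.sm_H.continuous
    fun x hx => by rw [← A.rho_eq]; exact A.rho_pos (h0 x hx)
  obtain ⟨c', r', hc', hr', h2⟩ := A.pos_graph hξ hK (F := fun z => e - A.H z)
    (continuous_const.sub A.sm_H.continuous)
    fun x hx => by rw [← A.rho_eq]; exact sub_pos.2 (he x hx)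
  refine ⟨min r r', c, e - c', lt_min hr hr', hc, by linarith, fun z hz => ⟨?_, ?_⟩⟩
  · exact h1 z hz.1 (hz.2.trans (min_le_left _ _))
  · have := h2 z hz.1 (hz.2.trans (min_le_right _ _))
    linarith

/-- short segments. Sketch: `a = br H (br H rho)` is positive on the graph over `K`
(`Kil.br_br_rho`, `Met.G_pd_pos`). By compactness there are `T₀`, `δ` with `a (Φ t z) > 0` for
`z ∈ tube K δ`, `t ∈ [0, T₀]` (the compact set of `(z, t) ∈ tube K 1 ×ˢ [0, 1]` with `a (Φ t z) ≤ 0`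
has `sig z + t > 0`, so bounded below). Then `t ↦ rho (Φ t z).1` is convex on `[0, T]`
(`GF.der_fun` twice, `convexOn_of_deriv2_nonneg` or monotonicity of the derivative);
`ConvexOn.le_max_of_mem_Icc`. -/
theorem GF.dip_short (P : GF D e) (hξ : Kil D ξ) (hK : IsCompact K) (hM : ∀ x ∈ K, D.b x ≤ 0)
    (h0 : ∀ x ∈ K, ξ x ≠ 0) (h1 : ∀ x ∈ K, fderiv ℝ (D.rho ξ) x ≠ 0)
    (he : ∀ x ∈ K, D.rho ξ x < e) : ∃ δ T₀ : ℝ, 0 < δ ∧ 0 < T₀ ∧ ∀ (z : Z n) (T : ℝ), 0 ≤ T →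
      T ≤ T₀ → (∀ t ∈ Icc 0 T, D.b (P.Φ t z).1 ≤ 0) → z ∈ D.tube ξ K δ → ∀ t ∈ Icc 0 T,
        D.rho ξ (P.Φ t z).1 ≤ max (D.rho ξ z.1) (D.rho ξ (P.Φ T z).1) := by
  obtain ⟨δ₁, h₀, h₁, hδ₁, -, hh₁, hE⟩ := tube_energy D.toMet hξ.sm hK h0 he
  have hρ : Sm fun w : Z n => D.rho ξ w.1 := (D.sm_rho hξ.sm).comp contDiff_fst
  have hρ1 : Sm (br D.H fun w : Z n => D.rho ξ w.1) := D.sm_H.br hρ
  have hρ2 : Sm (br D.H (br D.H fun w : Z n => D.rho ξ w.1)) := D.sm_H.br hρ1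
  have hc : Continuous fun q : ℝ × Z n =>
      br D.H (br D.H fun w : Z n => D.rho ξ w.1) (P.Φ q.1 q.2) := hρ2.continuous.comp P.flow.cont
  obtain ⟨a, ha, h4⟩ := (((isCompact_Icc (a := (0 : ℝ)) (b := 1)).prod
    (D.isCompact_sig hξ.sm hK 1)).inter_right
      (isClosed_le hc (continuous_const (y := 0)))).exists_forall_le'
    (f := fun q => q.1 + D.sig ξ q.2) (a := 0)
    (continuous_fst.add ((D.sm_sig hξ.sm).continuous.comp continuous_snd)).continuousOn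
    fun q hq => by
      have h5 : 0 ≤ q.1 := hq.1.1.1
      have h6 := D.sig_nonneg (ξ := ξ) q.2
      by_contra h7
      have h8 : q.1 = 0 := by linarith [not_lt.1 h7]
      have h9 : D.sig ξ q.2 = 0 := by linarith [not_lt.1 h7]
      have h10 : br D.H (br D.H fun w : Z n => D.rho ξ w.1) (P.Φ q.1 q.2) ≤ 0 := hq.2
      have h11 : q.2 = (q.2.1, D.fl ξ q.2.1) := Prod.ext rfl (D.eq_fl_of_sig h9)
      rw [h8, P.flow.zero, h11, hξ.br_br_rho (hM _ hq.1.2.1)] at h10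
      exact absurd (D.G_pd_pos (h1 _ hq.1.2.1)) (not_lt.2 h10)
  refine ⟨min δ₁ (min 1 (a / 3)), min 1 (a / 3), lt_min hδ₁ (lt_min one_pos (by positivity)),
    lt_min one_pos (by positivity), fun z T hT hT' hb hz => ?_⟩
  have m1 := min_le_left δ₁ (min 1 (a / 3))
  have m2 := min_le_right δ₁ (min 1 (a / 3))
  have m3 := min_le_left (1 : ℝ) (a / 3)
  have m4 := min_le_right (1 : ℝ) (a / 3)
  have hs : D.sig ξ z ≤ min δ₁ (min 1 (a / 3)) := hz.2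
  have hze : D.H z < e := (hE z ⟨hz.1, hs.trans m1⟩).2.trans_lt hh₁
  have hpos : ∀ t ∈ Icc 0 T, 0 ≤ br D.H (br D.H fun w : Z n => D.rho ξ w.1) (P.Φ t z) := by
    intro t ht
    by_contra h7
    have h8 : a ≤ t + D.sig ξ z :=
      h4 (t, z) ⟨⟨⟨ht.1, by linarith [ht.2]⟩, hz.1, by linarith⟩, (not_le.1 h7).le⟩
    linarith [ht.2]
  have d1 : ∀ t ∈ Icc 0 T, HasDerivAt (fun r => D.rho ξ (P.Φ r z).1)
      (br D.H (fun w : Z n => D.rho ξ w.1) (P.Φ t z)) t := fun t ht =>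
    P.der_fun hze (P.ball _ (hb t ht)) (hρ.dAt _)
  have d2 : ∀ t ∈ Icc 0 T, HasDerivAt (fun r => br D.H (fun w : Z n => D.rho ξ w.1) (P.Φ r z))
      (br D.H (br D.H fun w : Z n => D.rho ξ w.1) (P.Φ t z)) t := fun t ht =>
    P.der_fun hze (P.ball _ (hb t ht)) (hρ1.dAt _)
  have hcv : ConvexOn ℝ (Icc 0 T) fun r => D.rho ξ (P.Φ r z).1 :=
    convexOn_of_hasDerivWithinAt2_nonneg (convex_Icc 0 T)
      (fun t ht => (d1 t ht).continuousAt.continuousWithinAt)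
      (fun t ht => (d1 t (interior_subset ht)).hasDerivWithinAt)
      (fun t ht => (d2 t (interior_subset ht)).hasDerivWithinAt)
      fun t ht => hpos t (interior_subset ht)
  intro t ht
  have := hcv.le_max_of_mem_Icc (left_mem_Icc.2 hT) (right_mem_Icc.2 hT) ht
  simpa [P.flow.zero] using this

/-- `hv psi` is a Jacobi field (`Kil.jac_psi`) that is vertical at both ends (`Met.dp_psi`,
`Met.eq_fl_of_sig`); `D.noconj` gives `dx psi = pd rho = 0` at the start -/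
theorem GF.not_twice (P : GF D e) (hξ : Kil D ξ) {z : Z n} {T : ℝ} (hT : 0 < T)
    (hb : ∀ t ∈ Icc 0 T, D.b (P.Φ t z).1 ≤ 0) (h0 : 0 < D.H z) (he : D.H z < e)
    (hs : D.sig ξ z = 0) (hs' : D.sig ξ (P.Φ T z) = 0) : fderiv ℝ (D.rho ξ) z.1 = 0 := by
  have hv0 : ∀ w : Z n, D.sig ξ w = 0 → (hv (D.psi ξ) w).1 = 0 := by
    intro w hw
    funext i
    show dp i (D.psi ξ) w = 0
    rw [D.dp_psi hξ.sm, D.eq_fl_of_sig hw]
    simp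
  have htr := P.traj he hb
  have h1 := D.noconj (fun r => P.Φ r z) (fun r => hv (D.psi ξ) (P.Φ r z)) T hT htr hb
    (by simpa [P.flow.zero] using D.ne_of_H_pos h0)
    (fun t ht => hξ.jac_psi (htr t ht) (hb t ht)) (hv0 _ (by simpa [P.flow.zero] using hs))
    (hv0 _ hs') 0 (left_mem_Icc.2 hT.le)
  simp only [P.flow.zero] at h1
  ext w
  rw [fderiv_eq_sum_pd]
  refine Finset.sum_eq_zero fun i _ => ?_
  have h2 : -dx i (D.psi ξ) z = 0 := congrFun (congrArg Prod.snd h1) i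
  have h3 : z = (z.1, D.fl ξ z.1) := Prod.ext rfl (D.eq_fl_of_sig hs)
  rw [h3, D.dx_psi_fl hξ.sm, neg_eq_zero] at h2
  rw [h2, mul_zero]

/-- long segments. Sketch: with `δ₁, h₀, h₁` of `tube_energy` and `Tm` of `GF.ex_le`, the set of
`(z, T)` with `z ∈ tube K δ₁`, `T ∈ [T₀, Tm]`, `∀ r ∈ [0, 1], b (Φ (r T) z).1 ≤ 0` is compact and
`sig z + sig (Φ T z)` is positive on it (`GF.not_twice`), so at least some `3 δ > 0`. -/
theorem GF.dip_long (P : GF D e) (hξ : Kil D ξ) (hK : IsCompact K) (hM : ∀ x ∈ K, D.b x ≤ 0)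
    (h0 : ∀ x ∈ K, ξ x ≠ 0) (h1 : ∀ x ∈ K, fderiv ℝ (D.rho ξ) x ≠ 0)
    (he : ∀ x ∈ K, D.rho ξ x < e) {T₀ : ℝ} (hT : 0 < T₀) : ∃ δ : ℝ, 0 < δ ∧
      ∀ (z : Z n) (T : ℝ), T₀ ≤ T → (∀ t ∈ Icc 0 T, D.b (P.Φ t z).1 ≤ 0) → z ∈ D.tube ξ K δ →
        δ < D.sig ξ (P.Φ T z) := by
  obtain ⟨δ₁, h₀, h₁, hδ₁, hh₀, hh₁, hE⟩ := tube_energy D.toMet hξ.sm hK h0 he
  obtain ⟨Tm, hTm⟩ := P.ex_le hh₀ hh₁
  have hcl : IsClosed {q : ℝ × Z n | ∀ r ∈ Icc (0 : ℝ) 1, D.b (P.Φ (r * q.1) q.2).1 ≤ 0} := by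
    have e1 : {q : ℝ × Z n | ∀ r ∈ Icc (0 : ℝ) 1, D.b (P.Φ (r * q.1) q.2).1 ≤ 0} =
        ⋂ r ∈ Icc (0 : ℝ) 1, {q : ℝ × Z n | D.b (P.Φ (r * q.1) q.2).1 ≤ 0} := by
      ext q
      simp only [mem_ofPred_eq, mem_iInter]
    rw [e1]
    refine isClosed_biInter fun r _ => isClosed_le ?_ continuous_const
    have c1 : Continuous fun q : ℝ × Z n => ((r * q.1, q.2) : ℝ × Z n) :=
      (continuous_const.mul continuous_fst).prodMk continuous_snd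
    have c2 : Continuous fun q : ℝ × Z n => P.Φ (r * q.1) q.2 := P.flow.cont.comp c1
    exact D.smb.continuous.comp c2.fst
  have hc1 : Continuous fun q : ℝ × Z n => D.sig ξ q.2 :=
    (D.sm_sig hξ.sm).continuous.comp continuous_snd
  have hc2 : Continuous fun q : ℝ × Z n => D.sig ξ (P.Φ q.1 q.2) :=
    (D.sm_sig hξ.sm).continuous.comp P.flow.cont
  have hcp : IsCompact ((Icc T₀ Tm ×ˢ D.tube ξ K δ₁) ∩
      {q : ℝ × Z n | ∀ r ∈ Icc (0 : ℝ) 1, D.b (P.Φ (r * q.1) q.2).1 ≤ 0}) :=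
    (isCompact_Icc.prod (D.isCompact_sig hξ.sm hK δ₁)).inter_right hcl
  have hpos : ∀ q ∈ (Icc T₀ Tm ×ˢ D.tube ξ K δ₁) ∩
      {q : ℝ × Z n | ∀ r ∈ Icc (0 : ℝ) 1, D.b (P.Φ (r * q.1) q.2).1 ≤ 0},
      0 < D.sig ξ q.2 + D.sig ξ (P.Φ q.1 q.2) := by
    rintro ⟨T, z⟩ ⟨⟨hq1, hq2⟩, hq3⟩
    have h5 := D.sig_nonneg (ξ := ξ) z
    have h6 := D.sig_nonneg (ξ := ξ) (P.Φ T z)
    by_contra h7
    have h7' : D.sig ξ z + D.sig ξ (P.Φ T z) ≤ 0 := not_lt.1 h7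
    have h8 : D.sig ξ z = 0 := by linarith
    have h9 : D.sig ξ (P.Φ T z) = 0 := by linarith
    have hq0 : 0 < T := hT.trans_le hq1.1
    have hEq := hE z hq2
    refine h1 _ hq2.1 (P.not_twice hξ hq0 (fun t ht => ?_) (hh₀.trans_le hEq.1)
      (hEq.2.trans_lt hh₁) h8 h9)
    have h10 : D.b (P.Φ (t / T * T) z).1 ≤ 0 :=
      hq3 (t / T) ⟨div_nonneg ht.1 hq0.le, (div_le_one hq0).2 ht.2⟩
    rwa [div_mul_cancel₀ _ hq0.ne'] at h10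
  obtain ⟨a, ha, h4⟩ := hcp.exists_forall_le' (hc1.add hc2).continuousOn hpos
  refine ⟨min δ₁ (a / 3), lt_min hδ₁ (by positivity), fun z T hT' hb hz => ?_⟩
  have m1 := min_le_left δ₁ (a / 3)
  have m2 := min_le_right δ₁ (a / 3)
  have hs : D.sig ξ z ≤ min δ₁ (a / 3) := hz.2
  have hz1 : z ∈ D.tube ξ K δ₁ := ⟨hz.1, hs.trans m1⟩
  have hEq := hE z hz1
  have hT0 : 0 ≤ T := hT.le.trans hT'
  have h5 : T ≤ Tm := (P.le_ex (hh₀.trans_le hEq.1) (hEq.2.trans_lt hh₁) hT0 hb).trans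
    (hTm z ⟨hM _ hz.1, hEq⟩)
  have h6 : a ≤ D.sig ξ z + D.sig ξ (P.Φ T z) := h4 (T, z) ⟨⟨⟨hT', h5⟩, hz1⟩, fun r hr =>
    hb _ ⟨mul_nonneg hr.1 hT0, mul_le_of_le_one_left hT0 hr.2⟩⟩
  linarith

theorem GF.exists_dip (P : GF D e) (hξ : Kil D ξ) (hK : IsCompact K) (hM : ∀ x ∈ K, D.b x ≤ 0)
    (h0 : ∀ x ∈ K, ξ x ≠ 0) (h1 : ∀ x ∈ K, fderiv ℝ (D.rho ξ) x ≠ 0)
    (he : ∀ x ∈ K, D.rho ξ x < e) : ∃ δ₀ : ℝ, 0 < δ₀ ∧ P.Dip ξ K δ₀ := by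
  obtain ⟨δ, T₀, hδ, hT₀, hs⟩ := P.dip_short hξ hK hM h0 h1 he
  obtain ⟨δ', hδ', hl⟩ := P.dip_long hξ hK hM h0 h1 he hT₀
  refine ⟨min δ δ', lt_min hδ hδ', fun z T hT hb hz hz' => ?_⟩
  rcases le_total T T₀ with h | h
  · exact hs z T hT h hb ⟨hz.1, hz.2.trans (min_le_left _ _)⟩
  · exact absurd (hl z T h hb ⟨hz.1, hz.2.trans (min_le_right _ _)⟩)
      (not_lt.2 (hz'.2.trans (min_le_right _ _)))

end Pool.Agent.Lib.MP_45f3cb_gt
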