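import Pool.Agent.Lib.MP_45f3cb_gt.GFex

/-!
Uniform behaviour of the flow at the boundary, and the uniform bound for the exit time.
-/

open Set MeasureTheory

namespace Pool.Agent.Lib.MP_45f3cb_gt

variable {n : ℕ} {D : Dom n} {e h₀ h₁ : ℝ}

theorem Exit1_mono {f f' : ℝ → ℝ} {ε : ℝ} (h : ∀ t ∈ Icc 0 ε, HasDerivAt f (f' t) t)
    (h' : ∀ t ∈ Icc 0 ε, 0 ≤ f' t) {t : ℝ} (ht : t ∈ Icc 0 ε) : f 0 ≤ f t := by
  refine monotoneOn_of_deriv_nonneg (convex_Icc 0 ε)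
    (fun s hs => (h s hs).continuousAt.continuousWithinAt)
    (fun s hs => (h s (interior_subset hs)).differentiableAt.differentiableWithinAt)
    (fun s hs => ?_) ⟨le_rfl, ht.1.trans ht.2⟩ ht ht.1
  rw [(h s (interior_subset hs)).deriv]
  exact h' s (interior_subset hs)

theorem Exit1_one {β β₁ β₂ : ℝ → ℝ} {ε c : ℝ} (hε : ε ≤ 1) (hc : 0 < c)
    (h : ∀ t ∈ Icc 0 ε, HasDerivAt β (β₁ t) t) (h₁ : ∀ t ∈ Icc 0 ε, HasDerivAt β₁ (β₂ t) t)
    (h0 : β 0 = 0) (h0' : 0 ≤ β₁ 0)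
    (hor : (∀ t ∈ Icc 0 ε, c ≤ β₁ t) ∨ ∀ t ∈ Icc 0 ε, c ≤ β₂ t) {t : ℝ} (ht : t ∈ Icc 0 ε) :
    c / 2 * t ^ 2 ≤ β t := by
  have key : ∀ s ∈ Icc 0 ε, c * s ≤ β₁ s := by
    intro s hs
    rcases hor with h2 | h2
    · exact (mul_le_of_le_one_right hc.le (hs.2.trans hε)).trans (h2 s hs)
    · have h3 := Exit1_mono (f := fun r => β₁ r - c * r) (f' := fun r => β₂ r - c * 1)
        (fun r hr => (h₁ r hr).sub ((hasDerivAt_id' r).const_mul c))
        (fun r hr => by linarith [h2 r hr]) hs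
      simp only [mul_zero, sub_zero] at h3
      linarith
  have h3 := Exit1_mono (f := fun r => β r - c / 2 * (r * r))
    (f' := fun r => β₁ r - c / 2 * (1 * r + r * 1))
    (fun r hr => (h r hr).sub (((hasDerivAt_id' r).mul (hasDerivAt_id' r)).const_mul (c / 2)))
    (fun r hr => by linarith [key r hr]) ht
  simp only [mul_zero, sub_zero, h0] at h3
  rw [sq]
  linarith

/-- Sketch: `Σ = {b = 0, H ∈ [h₀, h₁], ell ≥ 0}` is compact and `max ell (br H ell) > 0` on it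
(`D.convex`), so `≥ c₁ > 0`. By uniform continuity (the generalized tube lemma, or
`IsCompact.eventually_forall_of_forall_eventually`) there is `ε₀ ≤ 1` such that for `z ∈ Σ`,
`|t| ≤ ε₀` the orbit is in the ball and `ell`, `br H ell` move by at most `c₁ / 2`. With
`β t = b (Φ t z).1` one has `β' = ell ∘ Φ`, `β'' = br H ell ∘ Φ` (`GF.der_fun`). Either `β' ≥ c₁ / 2`,
or `β'' ≥ c₁ / 2` and `β' 0 ≥ 0`; monotonicity (`monotoneOn_of_deriv_nonneg`); `c = c₁ / 4`. -/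
theorem GF.exit_est (P : GF D e) (h0 : 0 < h₀) (h1 : h₁ < e) : ∃ ε₀ c : ℝ, 0 < ε₀ ∧ 0 < c ∧
    ∀ z : Z n, D.b z.1 = 0 → D.H z ∈ Icc h₀ h₁ → 0 ≤ D.ell z → ∀ t ∈ Icc 0 ε₀,
      c * t ^ 2 ≤ D.b (P.Φ t z).1 ∧ ‖(P.Φ t z).1‖ < P.R := by
  have hb := D.sm_bz
  have hl := D.sm_ell
  have hl2 : Sm (br D.H D.ell) := D.sm_H.br hl
  have hK : IsCompact (D.sh h₀ h₁ ∩ {z | D.b z.1 = 0 ∧ 0 ≤ D.ell z}) :=
    (D.isCompact_sh h₀ h₁).inter_right ((isClosed_eq hb.continuous continuous_const).inter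
      (isClosed_le continuous_const hl.continuous))
  obtain ⟨c, hc, hcK⟩ := hK.exists_forall_le' (f := fun z => max (D.ell z) (br D.H D.ell z))
    (hl.continuous.max hl2.continuous).continuousOn (a := 0) fun z hz => by
      rcases hz.2.2.eq_or_lt with h | h
      · exact lt_max_of_lt_right
          (D.convex z hz.2.1 (D.ne_of_H_pos (h0.trans_le hz.1.2.1)) h.symm)
      · exact lt_max_of_lt_left h
  have hΦ : Continuous fun q : ℝ × Z n => P.Φ q.1 q.2 := P.flow.sm.continuous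
  have hev : ∀ᶠ t in nhds (0 : ℝ), ∀ z ∈ D.sh h₀ h₁ ∩ {z | D.b z.1 = 0 ∧ 0 ≤ D.ell z},
      ‖(P.Φ t z).1‖ < P.R ∧ D.ell z - c / 2 < D.ell (P.Φ t z) ∧
        br D.H D.ell z - c / 2 < br D.H D.ell (P.Φ t z) := by
    refine hK.eventually_forall_of_forall_eventually fun z hz => ?_
    refine Filter.Eventually.and ?_ (Filter.Eventually.and ?_ ?_)
    · refine (continuous_fst.comp hΦ).norm.continuousAt.eventually_lt continuousAt_const ?_
      simp only [Function.comp_apply, P.flow.zero]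
      exact P.ball _ hz.1.1
    · refine ((hl.continuous.comp continuous_snd).sub continuous_const).continuousAt.eventually_lt
        (hl.continuous.comp hΦ).continuousAt ?_
      simp only [Pi.sub_apply, Function.comp_apply, P.flow.zero]
      linarith
    · refine ((hl2.continuous.comp continuous_snd).sub continuous_const).continuousAt.eventually_lt
        (hl2.continuous.comp hΦ).continuousAt ?_
      simp only [Pi.sub_apply, Function.comp_apply, P.flow.zero]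
      linarith
  obtain ⟨δ, hδ, hδ'⟩ := Metric.eventually_nhds_iff.1 hev
  refine ⟨min (δ / 2) 1, c / 2 / 2, by positivity, by positivity, fun z hz1 hz2 hz3 t ht => ?_⟩
  have hz : z ∈ D.sh h₀ h₁ ∩ {z | D.b z.1 = 0 ∧ 0 ≤ D.ell z} := ⟨⟨hz1.le, hz2⟩, hz1, hz3⟩
  have hs : ∀ s ∈ Icc 0 (min (δ / 2) 1), ‖(P.Φ s z).1‖ < P.R ∧
      D.ell z - c / 2 < D.ell (P.Φ s z) ∧ br D.H D.ell z - c / 2 < br D.H D.ell (P.Φ s z) := by
    intro s hs
    refine hδ' ?_ z hz
    rw [Real.dist_eq, sub_zero, abs_of_nonneg hs.1]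
    linarith [hs.2.trans (min_le_left _ _)]
  have he : D.H z < e := hz2.2.trans_lt h1
  refine ⟨Exit1_one (β := fun r => D.b (P.Φ r z).1) (β₁ := fun r => D.ell (P.Φ r z))
    (β₂ := fun r => br D.H D.ell (P.Φ r z)) (min_le_right _ _) (by positivity)
    (fun s h => P.der_fun he (hs s h).1 (hb.dAt _)) (fun s h => P.der_fun he (hs s h).1 (hl.dAt _))
    (by simp only [P.flow.zero, hz1]) (by simpa only [P.flow.zero] using hz3) ?_ ht, (hs t ht).1⟩
  rcases le_max_iff.1 (hcK z hz) with h | h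
  · exact Or.inl fun s h' => by linarith [(hs s h').2.1]
  · exact Or.inr fun s h' => by linarith [(hs s h').2.2]

/-- Sketch: for `z ∈ sh` some `t ≥ 0` has `b (Φ t z).1 > 0` (else `GF.traj` on `Ici 0` contradicts
`D.nontrap`); the same `t` works near `z`; finite subcover. -/
theorem GF.exit_bdd (P : GF D e) (h0 : 0 < h₀) (h1 : h₁ < e) :
    ∃ Tm : ℝ, ∀ z ∈ D.sh h₀ h₁, ∃ t ∈ Icc 0 Tm, 0 < D.b (P.Φ t z).1 := by
  have hΦ : Continuous fun q : ℝ × Z n => P.Φ q.1 q.2 := P.flow.sm.continuous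
  refine (D.isCompact_sh h₀ h₁).induction_on
    (p := fun s => ∃ Tm : ℝ, ∀ z ∈ s, ∃ t ∈ Icc 0 Tm, 0 < D.b (P.Φ t z).1)
    ⟨0, fun _ h => h.elim⟩ ?_ ?_ ?_
  · rintro s t hst ⟨T, hT⟩
    exact ⟨T, fun z hz => hT z (hst hz)⟩
  · rintro s t ⟨T, hT⟩ ⟨T', hT'⟩
    refine ⟨max T T', fun z hz => ?_⟩
    rcases hz with hz | hz
    · obtain ⟨r, hr, h⟩ := hT z hz
      exact ⟨r, ⟨hr.1, hr.2.trans (le_max_left _ _)⟩, h⟩
    · obtain ⟨r, hr, h⟩ := hT' z hz
      exact ⟨r, ⟨hr.1, hr.2.trans (le_max_right _ _)⟩, h⟩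
  · intro z hz
    have h2 : ∃ t : ℝ, 0 ≤ t ∧ 0 < D.b (P.Φ t z).1 := by
      by_contra hc
      push Not at hc
      obtain ⟨t, ht, h⟩ := D.nontrap _ (P.traj (hz.2.2.trans_lt h1) (s := Ici 0) hc) (by
        simp only [P.flow.zero]
        exact D.ne_of_H_pos (h0.trans_le hz.2.1))
      exact absurd h (not_lt.2 (hc t ht))
    obtain ⟨t, ht, h⟩ := h2
    have h3 : Continuous fun w : Z n => D.b (P.Φ t w).1 :=
      D.sm_bz.continuous.comp (hΦ.comp (continuous_const.prodMk continuous_id))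
    exact ⟨{w | 0 < D.b (P.Φ t w).1},
      mem_nhdsWithin_of_mem_nhds ((isOpen_lt continuous_const h3).mem_nhds h), t,
      fun w hw => ⟨t, ⟨ht, le_rfl⟩, hw⟩⟩

end Pool.Agent.Lib.MP_45f3cb_gt
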