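import Pool.Agent.Lib.MP_45f3cb_gt.Exit2
import Pool.Agent.Lib.MP_45f3cb_gt.ParInt

/-!
Local representation and regularity of the solution of the transport equation.
-/

open Set MeasureTheory

namespace Pool.Agent.Lib.MP_45f3cb_gt

variable {n : ℕ} {D : Dom n} {e : ℝ} {F : Z n → ℝ}

theorem Exit3_zero {f : ℝ → ℝ} {a b : ℝ} (hab : a ≤ b) (h : ∀ t ∈ Ioo a b, f t = 0) :
    ∫ t in a..b, f t = 0 := by
  rw [intervalIntegral.integral_of_le hab, integral_Ioc_eq_integral_Ioo]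
  exact setIntegral_eq_zero_of_forall_eq_zero h

theorem Exit3_cont (P : GF D e) : Continuous fun q : Z n × ℝ => D.b (P.Φ q.2 q.1).1 :=
  D.smb.continuous.comp (continuous_fst.comp (P.flow.cont.comp continuous_swap))

/-- the pointwise part -/
theorem Exit3_point (P : GF D e) (hF : Continuous F) (h0 : ∀ z : Z n, 0 < D.b z.1 → F z = 0)
    (hS : D.Seg F) {z : Z n} (hz : 0 < D.H z) (he : D.H z < e) {a ε : ℝ} (ha : 0 ≤ a) (hε : 0 < ε)
    (h1 : ∀ w : Z n, D.b w.1 ≤ 0 → D.H w = D.H z → ∀ t, P.ex w < t → t ≤ P.ex w + 8 * ε →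
      0 < D.b (P.Φ t w).1)
    (h2 : ∀ t ∈ Icc ε (a - ε), D.b (P.Φ t z).1 < 0)
    (h3 : ∀ t ∈ Icc (a + ε) (a + 2 * ε), 0 < D.b (P.Φ t z).1) :
    P.sol F z = -∫ t in (0 : ℝ)..(a + 2 * ε), F (P.Φ t z) := by
  have hc : Continuous fun t => D.b (P.Φ t z).1 :=
    (Exit3_cont P).comp (continuous_const.prodMk continuous_id)
  have hf : Continuous fun t => F (P.Φ t z) := hF.comp (P.flow.cont_z z)
  have ht₀ : 0 ≤ a + 2 * ε := by linarith
  by_cases hne : (Icc 0 (a + 2 * ε) ∩ {t | D.b (P.Φ t z).1 ≤ 0}).Nonempty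
  swap
  · have h4 : ∀ t ∈ Icc 0 (a + 2 * ε), 0 < D.b (P.Φ t z).1 := fun t ht =>
      not_le.1 fun h => hne ⟨t, ht, h⟩
    have h5 := h4 0 ⟨le_rfl, ht₀⟩
    rw [P.flow.zero] at h5
    rw [GF.sol, if_neg h5.not_ge, Exit3_zero ht₀ fun t ht => h0 _ (h4 t (Ioo_subset_Icc_self ht)),
      neg_zero]
  obtain ⟨t₁, ⟨⟨a1, a2⟩, a3⟩, a4⟩ :=
    (isCompact_Icc.inter_right (isClosed_le hc continuous_const)).exists_isLeast hne
  replace a3 : D.b (P.Φ t₁ z).1 ≤ 0 := a3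
  have a5 : ∀ t, 0 ≤ t → t < t₁ → 0 < D.b (P.Φ t z).1 := fun t h h' =>
    not_le.1 fun k => (a4 ⟨⟨h, h'.le.trans a2⟩, k⟩).not_gt h'
  have e1 := P.ener t₁ z
  have hw := e1.symm ▸ hz
  have hw' := e1.symm ▸ he
  have e2 : ∀ t, P.Φ t z = P.Φ (t - t₁) (P.Φ t₁ z) := fun t => by
    rw [← P.flow.add, sub_add_cancel]
  have b0 := P.ex_nonneg a3 hw hw'
  have b1 : ∀ t ∈ Icc t₁ (P.ex (P.Φ t₁ z) + t₁), D.b (P.Φ t z).1 ≤ 0 := fun t ht => by
    rw [e2 t]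
    exact P.ex_in a3 hw hw' _ ⟨by linarith [ht.1], by linarith [ht.2]⟩
  have b2 : D.b (P.Φ (P.ex (P.Φ t₁ z) + t₁) z).1 = 0 := by
    rw [P.flow.add]
    exact P.ex_bdry a3 hw hw'
  have b3 : ∀ t, P.ex (P.Φ t₁ z) + t₁ < t → t ≤ P.ex (P.Φ t₁ z) + t₁ + 8 * ε →
      0 < D.b (P.Φ t z).1 := fun t h h' => by
    rw [e2 t]
    exact h1 _ a3 e1 _ (by linarith) (by linarith)
  have c1 : t₁ < a + ε := not_le.1 fun h => (h3 t₁ ⟨h, a2⟩).not_ge a3
  have c2 : P.ex (P.Φ t₁ z) + t₁ < a + ε := not_le.1 fun h =>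
    (h3 _ ⟨le_rfl, by linarith⟩).not_ge (b1 _ ⟨c1.le, h⟩)
  have c3 : a + 2 * ε ≤ P.ex (P.Φ t₁ z) + t₁ + 8 * ε := not_lt.1 fun h =>
    (h2 (P.ex (P.Φ t₁ z) + t₁ + 4 * ε) ⟨by linarith, by linarith⟩).not_gt
      (b3 _ (by linarith) (by linarith))
  have i1 : ∫ t in (0 : ℝ)..t₁, F (P.Φ t z) = 0 :=
    Exit3_zero a1 fun t ht => h0 _ (a5 t ht.1.le ht.2)
  have i2 : ∫ t in (P.ex (P.Φ t₁ z) + t₁)..(a + 2 * ε), F (P.Φ t z) = 0 :=
    Exit3_zero (by linarith) fun t ht => h0 _ (b3 t ht.1 (ht.2.le.trans c3))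
  rw [← intervalIntegral.integral_add_adjacent_intervals (hf.intervalIntegrable 0 t₁)
    (hf.intervalIntegrable _ _), ← intervalIntegral.integral_add_adjacent_intervals
    (hf.intervalIntegrable t₁ (P.ex (P.Φ t₁ z) + t₁)) (hf.intervalIntegrable _ _), i1, i2, zero_add,
    add_zero, GF.sol]
  split_ifs with h
  · have e3 : t₁ = 0 := le_antisymm (a4 ⟨⟨le_rfl, ht₀⟩, by rwa [mem_ofPred_eq, P.flow.zero]⟩) a1
    rw [e3, P.flow.zero, add_zero]
  · have d1 : 0 < t₁ := a1.lt_of_ne fun k => h (by rwa [← k, P.flow.zero] at a3)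
    have d2 : 0 ≤ D.b (P.Φ t₁ z).1 := by
      have := (isClosed_le continuous_const hc).closure_subset_iff.2
        (show Ico 0 t₁ ⊆ _ from fun t ht => (a5 t ht.1 ht.2).le)
      rw [closure_Ico d1.ne] at this
      exact this ⟨a1, le_rfl⟩
    rw [P.seg hS hz he (by linarith) b1 (le_antisymm a3 d2) b2, neg_zero]

/-- Sketch. If `b z₀ > 0` take `t₀ = 0`. Otherwise take a shell `[h₀, h₁]` around `H z₀`, `ε₀` of
`GF.ex_after`, `a = ex z₀`, `ε = ε₀ / 8`, `t₀ = a + 2 ε`. For `z` near `z₀`: the energy is in the shell,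
`b ∘ Φ < 0` on `[ε, a - ε]` and `b ∘ Φ > 0` on `[a + ε, t₀]` (compactness, `GF.ex_neg`). If `b ∘ Φ > 0` on
`[0, t₀]` both sides vanish. Otherwise let `t₁` be the first time with `b ≤ 0` (`t₁ = 0` if
`b z ≤ 0`, else `b = 0` there), `t₂ = t₁ + ex (Φ t₁ z) < t₀`. Then `b > 0` on `(t₂, t₂ + ε₀]`, and
`t₂ + ε₀ ≥ a + ε` (else `t₂ + ε₀ / 2 ∈ [ε, a - ε]`), so `F ∘ Φ = 0` on `[t₂, t₀]` and on `[0, t₁]`. If
`b z ≤ 0` this is the claim, otherwise use `GF.seg` on `[t₁, t₂]`. -/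
theorem GF.sol_local (P : GF D e) (hF : Continuous F) (h0 : ∀ z : Z n, 0 < D.b z.1 → F z = 0)
    (hS : D.Seg F) {z₀ : Z n} (hz : 0 < D.H z₀) (he : D.H z₀ < e) :
    ∃ t₀ : ℝ, 0 < D.b (P.Φ t₀ z₀).1 ∧
      ∀ᶠ z in nhds z₀, P.sol F z = -∫ t in (0 : ℝ)..t₀, F (P.Φ t z) := by
  rcases lt_or_ge 0 (D.b z₀.1) with hb | hb
  · refine ⟨0, by rwa [P.flow.zero], ?_⟩
    filter_upwards [(D.smb.continuous.comp continuous_fst).continuousAt.eventually
      (lt_mem_nhds hb)] with z h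
    rw [intervalIntegral.integral_same, neg_zero]
    exact if_neg (not_le.2 h)
  obtain ⟨ε₀, c, hε, hc, h1⟩ := P.ex_after (h₀ := D.H z₀ / 2) (h₁ := (D.H z₀ + e) / 2)
    (by linarith) (by linarith)
  have h2 : ∀ w : Z n, D.b w.1 ≤ 0 → D.H z₀ / 2 < D.H w → D.H w < (D.H z₀ + e) / 2 → ∀ t,
      P.ex w < t → t ≤ P.ex w + ε₀ → 0 < D.b (P.Φ t w).1 := fun w k1 k2 k3 t k4 k5 =>
    (mul_pos hc (pow_pos (sub_pos.2 k4) 2)).trans_le ((h1 w ⟨k1, k2.le, k3.le⟩).1 t ⟨k4.le, k5⟩)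
  have h3 := h2 z₀ hb (by linarith) (by linarith)
  refine ⟨P.ex z₀ + 2 * (ε₀ / 8), h3 _ (by linarith) (by linarith), ?_⟩
  have hH := D.sm_H.continuous.continuousAt (x := z₀)
  filter_upwards [hH.eventually (lt_mem_nhds (show D.H z₀ / 2 < D.H z₀ by linarith)),
    hH.eventually (gt_mem_nhds (show D.H z₀ < (D.H z₀ + e) / 2 by linarith)),
    (isCompact_Icc (a := ε₀ / 8) (b := P.ex z₀ - ε₀ / 8)).eventually_forall_of_forall_eventually
      (x₀ := z₀) (P := fun z t => D.b (P.Φ t z).1 < 0) fun t ht =>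
      (Exit3_cont P).continuousAt.eventually (gt_mem_nhds
        (P.ex_neg hb hz he t ⟨by linarith [ht.1], by linarith [ht.2]⟩)),
    (isCompact_Icc (a := P.ex z₀ + ε₀ / 8)
      (b := P.ex z₀ + 2 * (ε₀ / 8))).eventually_forall_of_forall_eventually
      (x₀ := z₀) (P := fun z t => 0 < D.b (P.Φ t z).1) fun t ht =>
      (Exit3_cont P).continuousAt.eventually (lt_mem_nhds
        (h3 t (by linarith [ht.1]) (by linarith [ht.2])))] with z k1 k2 k3 k4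
  exact Exit3_point P hF h0 hS (by linarith) (by linarith) (P.ex_nonneg hb hz he) (by linarith)
    (fun w j1 j2 t j3 j4 => h2 w j1 (j2 ▸ k1) (j2 ▸ k2) t j3 (by linarith)) k3 k4

/-- `contDiff_intInt` -/
theorem GF.sol_contDiffAt (P : GF D e) {k : ℕ} (hF : ContDiff ℝ k F)
    (h0 : ∀ z : Z n, 0 < D.b z.1 → F z = 0) (hS : D.Seg F) {z₀ : Z n} (hz : 0 < D.H z₀)
    (he : D.H z₀ < e) : ContDiffAt ℝ k (P.sol F) z₀ := by
  obtain ⟨t₀, -, h⟩ := P.sol_local hF.continuous h0 hS hz he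
  have hG : ContDiff ℝ k fun q : Z n × ℝ => F (P.Φ q.2 q.1) :=
    hF.comp ((contDiff_infty.1 P.flow.sm k).comp (contDiff_snd.prodMk contDiff_fst))
  exact (contDiff_intInt hG 0 t₀).neg.contDiffAt.congr_of_eventuallyEq h

/-- Sketch: for `b z₀ > 0` both sides vanish. Otherwise differentiate
`s ↦ -∫ t in 0..t₀, F (Φ t (Φ s z₀)) = -∫ t in s..t₀ + s, F (Φ t z₀)` at `s = 0` and compare with
`GF.der_fun`. -/
theorem GF.br_sol (P : GF D e) (hF : ContDiff ℝ 1 F) (h0 : ∀ z : Z n, 0 < D.b z.1 → F z = 0)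
    (hS : D.Seg F) {z₀ : Z n} (hz : 0 < D.H z₀) (he : D.H z₀ < e) :
    br D.H (P.sol F) z₀ = F z₀ := by
  rcases lt_or_ge 0 (D.b z₀.1) with hb | hb
  · rw [br_congr (G := fun _ => 0), br_const, h0 _ hb]
    filter_upwards [(D.smb.continuous.comp continuous_fst).continuousAt.eventually
      (lt_mem_nhds hb)] with z h
    exact if_neg (not_le.2 h)
  obtain ⟨t₀, h1, h2⟩ := P.sol_local hF.continuous h0 hS hz he
  have h3 := (P.sol_contDiffAt (k := 1) hF h0 hS hz he).differentiableAt (by simp)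
  have h4 := P.der_fun (F := P.sol F) (t := 0) he (by rw [P.flow.zero]; exact P.ball _ hb)
    (by rwa [P.flow.zero])
  have hf : Continuous fun t => F (P.Φ t z₀) := hF.continuous.comp (P.flow.cont_z z₀)
  have h5 := ((hf.integral_hasStrictDerivAt 0 0).hasDerivAt.fun_sub
    ((hf.integral_hasStrictDerivAt 0 (t₀ + 0)).hasDerivAt.comp_const_add t₀ 0))
  have h6 : Filter.Tendsto (fun s => P.Φ s z₀) (nhds 0) (nhds z₀) := by
    have := (P.flow.cont_z z₀).tendsto 0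
    rwa [P.flow.zero] at this
  have h7 := h4.unique (h5.congr_of_eventuallyEq ((h6.eventually h2).mono fun s hs => by
    simp only [hs, ← P.flow.add]
    rw [intervalIntegral.integral_comp_add_right (fun t => F (P.Φ t z₀)), zero_add,
      ← intervalIntegral.integral_symm, intervalIntegral.integral_interval_sub_left
        (hf.intervalIntegrable _ _) (hf.intervalIntegrable _ _)]))
  rwa [add_zero, h0 _ h1, sub_zero, P.flow.zero] at h7

end Pool.Agent.Lib.MP_45f3cb_gt
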