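import Pool.Agent.Lib.MP_45f3cb_gt.MetF

/-!
Cut-off functions, the topology of the boundary, trajectories of `H`.
-/

open Set MeasureTheory

namespace Pool.Agent.Lib.MP_45f3cb_gt

variable {n : ℕ}

/-- `Real.smoothTransition ((s - a) / (b - a))` -/
theorem exists_step {a b : ℝ} (h : a < b) : ∃ χ : ℝ → ℝ, Sm χ ∧ (∀ s, 0 ≤ χ s) ∧ (∀ s, χ s ≤ 1) ∧
    (∀ s, s ≤ a → χ s = 0) ∧ (∀ s, b ≤ s → χ s = 1) ∧ ∀ s, a < s → 0 < χ s := by
  have hd : 0 < b - a := sub_pos.2 h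
  refine ⟨fun s => Real.smoothTransition ((s - a) / (b - a)),
    Real.smoothTransition.contDiff.comp ((contDiff_id.sub contDiff_const).div_const _),
    fun s => Real.smoothTransition.nonneg _, fun s => Real.smoothTransition.le_one _,
    fun s hs => Real.smoothTransition.zero_of_nonpos ?_,
    fun s hs => Real.smoothTransition.one_of_one_le ?_,
    fun s hs => Real.smoothTransition.pos_of_pos (div_pos (sub_pos.2 hs) hd)⟩
  · exact div_nonpos_of_nonpos_of_nonneg (sub_nonpos.2 hs) hd.le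
  · rw [le_div_iff₀ hd]
    linarith

theorem exists_step' {a b : ℝ} (h : a < b) : ∃ χ : ℝ → ℝ, Sm χ ∧ (∀ s, 0 ≤ χ s) ∧ (∀ s, χ s ≤ 1) ∧
    (∀ s, s ≤ a → χ s = 1) ∧ (∀ s, b ≤ s → χ s = 0) ∧ ∀ s, s < b → 0 < χ s := by
  obtain ⟨χ, h1, h2, h3, h4, h5, h6⟩ := exists_step (neg_lt_neg h)
  exact ⟨fun s => χ (-s), h1.comp contDiff_neg, fun s => h2 _, fun s => h3 _,
    fun s hs => h5 _ (neg_le_neg hs), fun s hs => h4 _ (neg_le_neg hs),
    fun s hs => h6 _ (neg_lt_neg hs)⟩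

theorem exists_cut {h₀ a b h₁ : ℝ} (h0 : 0 < h₀) (h1 : h₀ < a) (h2 : a ≤ b) (h3 : b < h₁) :
    ∃ κ, Cut κ h₀ h₁ ∧ ∀ s ∈ Icc a b, κ s = 1 := by
  obtain ⟨χ, a1, -, -, a2, a3, -⟩ := exists_step h1
  obtain ⟨θ, b1, -, -, b2, b3, -⟩ := exists_step' h3
  have key : ∀ s ∈ Icc a b, χ s * θ s = 1 := fun s hs => by rw [a3 s hs.1, b2 s hs.2, mul_one]
  refine ⟨fun s => χ s * θ s, ⟨a1.mul b1, h0, fun s hs => ?_, a, ?_⟩, key⟩
  · rcases not_and_or.1 hs with h | h
    · rw [a2 s (not_le.1 h).le, zero_mul]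
    · rw [b3 s (not_le.1 h).le, mul_zero]
  · rw [key a ⟨le_rfl, h2⟩]
    exact one_ne_zero

theorem Cut.le {κ : ℝ → ℝ} {h₀ h₁ : ℝ} (h : Cut κ h₀ h₁) : h₀ ≤ h₁ := by
  obtain ⟨s, hs⟩ := h.ne
  have h1 : s ∈ Icc h₀ h₁ := by_contra fun h1 => hs (h.supp s h1)
  exact h1.1.trans h1.2

/-- `Met.exists_H` -/
theorem Cut.fib {κ : ℝ → ℝ} {h₀ h₁ : ℝ} (h : Cut κ h₀ h₁) (A : Met n) (hn : 0 < n) (x : V n) :
    ∃ p, κ (A.H (x, p)) ≠ 0 := by
  obtain ⟨s, hs⟩ := h.ne
  have h1 : s ∈ Icc h₀ h₁ := by_contra fun h1 => hs (h.supp s h1)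
  obtain ⟨p, hp⟩ := A.exists_H hn x (h.pos.le.trans h1.1)
  exact ⟨p, by rwa [hp]⟩

/-- a smooth inverse away from `0`: `r / (r ^ 2 + θ r)` with `θ ≥ 0` smooth, `θ 0 > 0`, `θ = 0` for
`m ≤ |r|` -/
theorem exists_smooth_inv {m : ℝ} (hm : 0 < m) :
    ∃ ι : ℝ → ℝ, Sm ι ∧ ∀ r, m ≤ |r| → ι r * r = 1 := by
  have hm2 : 0 < m ^ 2 := pow_pos hm 2
  obtain ⟨θ, b1, b0, -, -, b3, b4⟩ := exists_step' hm2
  have hd : ∀ r : ℝ, r ^ 2 + θ (r ^ 2) ≠ 0 := by
    intro r
    rcases lt_or_ge (r ^ 2) (m ^ 2) with h | h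
    · exact (add_pos_of_nonneg_of_pos (sq_nonneg r) (b4 _ h)).ne'
    · exact (add_pos_of_pos_of_nonneg (hm2.trans_le h) (b0 _)).ne'
  refine ⟨fun r => r / (r ^ 2 + θ (r ^ 2)),
    contDiff_id.div ((contDiff_id.pow 2).add (b1.comp (contDiff_id.pow 2))) hd, fun r hr => ?_⟩
  have h1 : m ^ 2 ≤ r ^ 2 := by
    rw [← sq_abs r]
    exact pow_le_pow_left₀ hm.le hr 2
  have h2 := hd r
  simp only
  rw [b3 _ h1, add_zero] at h2 ⊢
  rw [div_mul_eq_mul_div, ← sq, div_self h2]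

theorem Top_min_pow (k : ℕ) (t : ℝ) : HasDerivAt (fun t : ℝ => min t 0 ^ (k + 1 + 1))
    (((k + 1 + 1 : ℕ) : ℝ) * min t 0 ^ (k + 1)) t := by
  have hL : t ≤ 0 → HasDerivWithinAt (fun t : ℝ => min t 0 ^ (k + 1 + 1))
      (((k + 1 + 1 : ℕ) : ℝ) * min t 0 ^ (k + 1)) (Iic 0) t := fun h => by
    rw [min_eq_left h]
    exact (hasDerivAt_pow (k + 1 + 1) t).hasDerivWithinAt.congr
      (fun y hy => by rw [min_eq_left hy]) (by rw [min_eq_left h])
  have hR : 0 ≤ t → HasDerivWithinAt (fun t : ℝ => min t 0 ^ (k + 1 + 1))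
      (((k + 1 + 1 : ℕ) : ℝ) * min t 0 ^ (k + 1)) (Ici 0) t := fun h => by
    rw [min_eq_right h, zero_pow (Nat.succ_ne_zero k), mul_zero]
    exact (hasDerivWithinAt_const t _ (0 : ℝ)).congr
      (fun y hy => by rw [min_eq_right hy, zero_pow (Nat.succ_ne_zero _)])
      (by rw [min_eq_right h, zero_pow (Nat.succ_ne_zero _)])
  rcases lt_trichotomy t 0 with h | h | h
  · exact (hL h.le).hasDerivAt (Iic_mem_nhds h)
  · have h1 := (hL h.le).union (hR h.ge)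
    rwa [Iic_union_Ici, hasDerivWithinAt_univ] at h1
  · exact (hR h.le).hasDerivAt (Ici_mem_nhds h)

/-- induction on `k`; the derivative of `min t 0 ^ (k + 2)` is `(k + 2) * min t 0 ^ (k + 1)` -/
theorem contDiff_min_pow (k : ℕ) : ContDiff ℝ k fun t : ℝ => min t 0 ^ (k + 1) := by
  induction k with
  | zero => exact contDiff_zero.2 ((continuous_id.min continuous_const).pow _)
  | succ k ih =>
    have hd : deriv (fun t : ℝ => min t 0 ^ (k + 1 + 1)) =
        fun t => ((k + 1 + 1 : ℕ) : ℝ) * min t 0 ^ (k + 1) :=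
      funext fun t => (Top_min_pow k t).deriv
    rw [Nat.cast_succ, contDiff_succ_iff_deriv, hd]
    exact ⟨fun t => (Top_min_pow k t).differentiableAt, fun h => by simp at h,
      contDiff_const.mul ih⟩

/-- otherwise `b` has a local extremum at `x` (`IsLocalMax.fderiv_eq_zero`) -/
theorem mem_closure_pos {E : Type} [NormedAddCommGroup E] [NormedSpace ℝ E] {b : E → ℝ} {x : E}
    (h0 : b x = 0) (h : fderiv ℝ b x ≠ 0) : x ∈ closure {y | 0 < b y} := by
  by_contra hc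
  refine h (IsLocalMax.fderiv_eq_zero ?_)
  filter_upwards [isClosed_closure.isOpen_compl.mem_nhds hc] with y hy
  rw [h0]
  exact not_lt.1 fun h1 => hy (subset_closure h1)

theorem mem_closure_neg {E : Type} [NormedAddCommGroup E] [NormedSpace ℝ E] {b : E → ℝ} {x : E}
    (h0 : b x = 0) (h : fderiv ℝ b x ≠ 0) : x ∈ closure {y | b y < 0} := by
  by_contra hc
  refine h (IsLocalMin.fderiv_eq_zero ?_)
  filter_upwards [isClosed_closure.isOpen_compl.mem_nhds hc] with y hy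
  rw [h0]
  exact not_lt.1 fun h1 => hy (subset_closure h1)

theorem Dom.clos_pos (D : Dom n) {z : Z n} (h : 0 ≤ D.b z.1) :
    z ∈ closure {w : Z n | 0 < D.b w.1} := by
  rcases h.lt_or_eq with h | h
  · exact subset_closure h
  · exact map_mem_closure (f := fun x : V n => ((x, z.2) : Z n)) (Continuous.prodMk_left _)
      (mem_closure_pos h.symm (D.regular _ h.symm)) fun x hx => hx

theorem Dom.clos_neg (D : Dom n) {z : Z n} (h : D.b z.1 ≤ 0) :
    z ∈ closure {w : Z n | D.b w.1 < 0} := by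
  rcases h.lt_or_eq with h | h
  · exact subset_closure h
  · exact map_mem_closure (f := fun x : V n => ((x, z.2) : Z n)) (Continuous.prodMk_left _)
      (mem_closure_neg h (D.regular _ h)) fun x hx => hx

theorem Dom.zero_pos (D : Dom n) {F : Z n → ℝ} (hF : Continuous F)
    (h : ∀ w : Z n, 0 < D.b w.1 → F w = 0) {z : Z n} (hz : 0 ≤ D.b z.1) : F z = 0 := by
  exact EqOn.closure (g := fun _ => 0) (s := {w : Z n | 0 < D.b w.1}) h hF continuous_const
    (D.clos_pos hz)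

theorem Dom.fderiv_pos (D : Dom n) {F : Z n → ℝ} (hF : ContDiff ℝ 1 F)
    (h : ∀ w : Z n, 0 < D.b w.1 → F w = 0) {z : Z n} (hz : 0 ≤ D.b z.1) : fderiv ℝ F z = 0 := by
  exact (fderiv_zero_of_closure hF
    (isOpen_lt continuous_const (D.smb.continuous.comp continuous_fst)) h (D.clos_pos hz)).2

theorem Dom.fderiv_neg (D : Dom n) {F : Z n → ℝ} (hF : ContDiff ℝ 1 F)
    (h : ∀ w : Z n, D.b w.1 < 0 → F w = 0) {z : Z n} (hz : D.b z.1 ≤ 0) : fderiv ℝ F z = 0 := by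
  exact (fderiv_zero_of_closure hF
    (isOpen_lt (D.smb.continuous.comp continuous_fst) continuous_const) h (D.clos_neg hz)).2

theorem Dom.sm_bz (D : Dom n) : Sm fun w : Z n => D.b w.1 := by
  exact D.smb.comp contDiff_fst

theorem Dom.sm_ell (D : Dom n) : Sm D.ell := by
  exact Sm.br D.toMet.sm_H D.sm_bz

/-- `br_fst`, `Met.dp_H` -/
theorem Dom.ell_eq (D : Dom n) (z : Z n) :
    D.ell z = ∑ i, (∑ j, D.G z.1 i j * z.2 j) * pd i D.b z.1 := by
  rw [Dom.ell, br_fst (D.smb.dAt z.1)]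
  simp only [Met.dp_H]

theorem Dom.ell_smul (D : Dom n) (x p : V n) (r : ℝ) : D.ell (x, r • p) = r * D.ell (x, p) := by
  simp only [Dom.ell_eq, Finset.mul_sum, Finset.sum_mul, Pi.smul_apply, smul_eq_mul]
  exact Finset.sum_congr rfl fun i _ => Finset.sum_congr rfl fun j _ => by ring

theorem Dom.isCompact_sh (D : Dom n) (h₀ h₁ : ℝ) : IsCompact (D.sh h₀ h₁) := by
  refine (D.toMet.isCompact_le D.compact h₁).of_isClosed_subset ?_ fun z hz => ⟨hz.1, hz.2.2⟩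
  exact (isClosed_le D.sm_bz.continuous continuous_const).inter
    (isClosed_Icc.preimage D.toMet.sm_H.continuous)

/-- coercivity in the Euclidean form -/
theorem Met.coer (A : Met n) {K : Set (V n)} (hK : IsCompact K) : ∃ l : ℝ, 0 < l ∧
    ∀ x ∈ K, ∀ w : V n, l * ∑ i, w i ^ 2 ≤ ∑ i, ∑ j, A.G x i j * w i * w j := by
  obtain ⟨l, L, hl, -, h⟩ := A.bounds hK
  refine ⟨l / (n + 1), by positivity, fun x hx w => ?_⟩
  have h1 : ∑ i, w i ^ 2 ≤ (n + 1) * ‖w‖ ^ 2 := by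
    have h2 : ∑ i, w i ^ 2 ≤ ∑ _i : Fin n, ‖w‖ ^ 2 := Finset.sum_le_sum fun i _ => by
      rw [← sq_abs]
      exact pow_le_pow_left₀ (abs_nonneg _) (norm_le_pi_norm w i) 2
    rw [Finset.sum_const, Finset.card_univ, Fintype.card_fin, nsmul_eq_mul] at h2
    nlinarith [sq_nonneg ‖w‖]
  have h2 := (h x hx w).1
  have h3 := A.H_nonneg (x, w)
  have h4 : l / (n + 1) * ∑ i, w i ^ 2 ≤ l * ‖w‖ ^ 2 := by
    refine (mul_le_mul_of_nonneg_left h1 (by positivity)).trans_eq ?_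
    field_simp
  simp only [Met.H] at h2 h3
  linarith

/-- `sig (x, p / 2) ≥ 0` -/
theorem Met.H_le_of_psi (A : Met n) (ξ : V n → V n) {z : Z n} (h : 0 ≤ A.psi ξ z) :
    A.H z ≤ 4 * A.rho ξ z.1 := by
  have h1 := A.sig_nonneg (ξ := ξ) (z.1, (1 / 2 : ℝ) • z.2)
  have h2 : lin ξ (z.1, (1 / 2 : ℝ) • z.2) = (1 / 2) * lin ξ z := by
    simp only [lin, Finset.mul_sum, Pi.smul_apply, smul_eq_mul, mul_assoc]
  rw [Met.sig, Met.psi, A.H_smul, h2] at h1
  rw [Met.psi] at h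
  simp only [Prod.mk.eta] at h1
  linarith

theorem Met.psi_le_rho (A : Met n) (ξ : V n → V n) (z : Z n) : A.psi ξ z ≤ A.rho ξ z.1 := by
  exact sub_nonneg.1 (A.sig_nonneg z)

/-- the set is compact (`isCompact_sig`) and `psi (x, 0) = 0` -/
theorem Met.le_H_of_psi (A : Met n) {ξ : V n → V n} (hξ : Sm ξ) {K : Set (V n)} (hK : IsCompact K)
    {c : ℝ} (hc : 0 < c) : ∃ a : ℝ, 0 < a ∧ ∀ z : Z n, z.1 ∈ K → c ≤ A.psi ξ z → a ≤ A.H z := by
  obtain ⟨C, hC⟩ := hK.exists_bound_of_continuousOn (A.sm_rho hξ).continuous.continuousOn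
  have hS : IsCompact {z : Z n | z.1 ∈ K ∧ c ≤ A.psi ξ z} := by
    refine (A.isCompact_sig hξ hK (C - c)).of_isClosed_subset ?_ fun z hz => ⟨hz.1, ?_⟩
    · exact (hK.isClosed.preimage continuous_fst).inter
        (isClosed_le continuous_const (A.sm_psi hξ).continuous)
    · have h3 : A.rho ξ z.1 ≤ C := (le_abs_self _).trans (hC _ hz.1)
      have h4 : A.sig ξ z = A.rho ξ z.1 - A.psi ξ z := rfl
      have h5 := hz.2
      linarith
  obtain ⟨a, ha, h1⟩ := hS.exists_forall_le' A.sm_H.continuous.continuousOn (a := 0)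
    fun z hz => A.H_pos fun h0 => by
      have h2 := hz.2
      simp only [Met.psi, lin, Met.H, h0, Pi.zero_apply, zero_mul, mul_zero,
        Finset.sum_const_zero, sub_zero] at h2
      linarith
  exact ⟨a, ha, fun z h2 h3 => h1 z ⟨h2, h3⟩⟩

theorem Traj.H_const (A : Met n) {c : ℝ → Z n} {T : ℝ} (h : Traj A.H c (Icc 0 T)) :
    ∀ t ∈ Icc 0 T, A.H (c t) = A.H (c 0) := by
  have h1 : ∀ t ∈ Icc 0 T, HasDerivAt (fun r => A.H (c r)) 0 t := fun t ht => by
    have h2 := h.der ht (A.sm_H.dAt _)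
    rwa [br_self] at h2
  exact constant_of_has_deriv_right_zero (fun t ht => (h1 t ht).continuousAt.continuousWithinAt)
    fun t ht => (h1 t (Ico_subset_Icc_self ht)).hasDerivWithinAt

/-- rescaled trajectories, `Met.hv_smul` -/
theorem Traj.scale (A : Met n) {c : ℝ → Z n} {s : Set ℝ} (h : Traj A.H c s) (r : ℝ) :
    Traj A.H (fun t => ((c (r * t)).1, r • (c (r * t)).2)) {t | r * t ∈ s} := by
  intro t ht
  have h1 : HasDerivAt (fun t => c (r * t)) (r • hv A.H (c (r * t))) t := by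
    have h2 := (h (r * t) ht).scomp t ((hasDerivAt_id t).const_mul r)
    rwa [mul_one] at h2
  have h2 : HasDerivAt (fun t => (c (r * t)).1) (r • hv A.H (c (r * t))).1 t := h1.fst
  have h3 : HasDerivAt (fun t => (c (r * t)).2) (r • hv A.H (c (r * t))).2 t := h1.snd
  rw [A.hv_smul, sq, mul_smul]
  exact HasDerivAt.prodMk h2 (HasDerivAt.const_smul r h3)

/-- fundamental theorem of calculus along a trajectory -/
theorem Traj.ftc {a F : Z n → ℝ} (ha : Sm a) (hF : ContDiff ℝ 1 F) {c : ℝ → Z n} {s t : ℝ}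
    (hst : s ≤ t) (h : Traj a c (Icc s t)) :
    ∫ r in s..t, br a F (c r) = F (c t) - F (c s) := by
  have hc : ContinuousOn c (Icc s t) := fun r hr => (h r hr).continuousAt.continuousWithinAt
  have hb : Continuous (br a F) := (contDiff_br (k := 0) ha (by simpa using hF)).continuous
  refine intervalIntegral.integral_eq_sub_of_hasDerivAt (f := fun r => F (c r)) (fun r hr => ?_) ?_
  · rw [uIcc_of_le hst] at hr
    exact h.der hr (hF.differentiable one_ne_zero _)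
  · exact (hb.comp_continuousOn hc).intervalIntegrable_of_Icc hst

end Pool.Agent.Lib.MP_45f3cb_gt
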