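import Pool.Agent.Lib.MP_45f3cb_gt.Base2
import Pool.Agent.Lib.MP_45f3cb_gt.Top
import Pool.Agent.Lib.MP_45f3cb_gt.Proj

/-!
The Legendre transform relates the Hamiltonian field of `H` and the geodesic spray.
-/

open Set MeasureTheory

namespace Pool.Agent.Lib.MP_45f3cb_gt

variable {n : ℕ} {g : V n → Matrix (Fin n) (Fin n) ℝ}

/-- `G x = (g x)⁻¹ = det⁻¹ • adjugate`; `contDiff_det`, `contDiff_adjugate`, `Matrix.PosDef.inv` -/
theorem exists_met (hs : ∀ i j, Sm fun x => g x i j) (hp : ∀ x, (g x).PosDef) :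
    ∃ A : Met n, ∀ x i j, g x i j = A.g x i j := by
  have hdet : ∀ x, (g x).det ≠ 0 := fun x => (hp x).det_pos.ne'
  refine ⟨⟨fun x i j => (g x)⁻¹ i j, fun x i j => g x i j, fun i j => ?_, hs, fun x i j => ?_,
    fun x i j => ?_, fun x i j => ?_, fun x p h => ?_⟩, fun _ _ _ => rfl⟩
  · simp only [Matrix.inv_def, Ring.inverse_eq_inv', Matrix.smul_apply, smul_eq_mul]
    exact ((contDiff_det hs).inv hdet).mul (contDiff_adjugate hs i j)
  · simpa using (hp x).inv.isHermitian.apply j i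
  · simpa using (hp x).isHermitian.apply j i
  · rw [← Matrix.mul_apply, Matrix.mul_nonsing_inv _ (hdet x).isUnit, Matrix.one_apply]
  · have h1 := (hp x).inv.dotProduct_mulVec_pos h
    simp only [star_trivial, dotProduct, Matrix.mulVec, Finset.mul_sum] at h1
    refine h1.trans_eq (Finset.sum_congr rfl fun i _ => Finset.sum_congr rfl fun j _ => ?_)
    ring

variable (A : Met n)

/-- `Matrix.inv_eq_right_inv` -/
theorem Met.inv_eq (hg : ∀ x i j, g x i j = A.g x i j) (x : V n) (i j : Fin n) :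
    (g x)⁻¹ i j = A.G x i j := by
  have h : g x * Matrix.of (A.G x) = 1 := by
    ext a b
    simp only [Matrix.mul_apply, Matrix.of_apply, hg, A.inv, Matrix.one_apply]
  rw [Matrix.inv_eq_right_inv h, Matrix.of_apply]

theorem Met.sm_up : Sm A.up := by
  exact contDiff_fst.prodMk (contDiff_pi.2 fun i => ContDiff.sum fun j _ =>
    (MetF_G A i j).mul (MetF_coord j))

theorem Met.sm_dn : Sm A.dn := by
  exact contDiff_fst.prodMk (contDiff_pi.2 fun i => ContDiff.sum fun j _ =>
    ((A.smg i j).comp contDiff_fst).mul (MetF_coord j))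

theorem Tr1_cancel {a b : Fin n → Fin n → ℝ}
    (h : ∀ i j, ∑ k, a i k * b k j = if i = j then 1 else 0) (p : V n) (i : Fin n) :
    ∑ j, a i j * ∑ k, b j k * p k = p i := by
  simp only [Finset.mul_sum, ← mul_assoc]
  rw [Finset.sum_comm]
  simp only [← Finset.sum_mul, h, ite_mul, one_mul, zero_mul, Finset.sum_ite_eq, Finset.mem_univ,
    if_true]

theorem Met.up_dn (z : Z n) : A.up (A.dn z) = z := by
  exact Prod.ext rfl (funext fun i => Tr1_cancel (A.inv' z.1) z.2 i)

theorem Met.dn_up (z : Z n) : A.dn (A.up z) = z := by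
  exact Prod.ext rfl (funext fun i => Tr1_cancel (A.inv z.1) z.2 i)

theorem Met.sm_spray (hg : ∀ x i j, g x i j = A.g x i j) : Sm (spray g) := by
  have h : ∀ k i j, Sm fun x => chr g x k i j := by
    intro k i j
    simp only [chr, A.inv_eq hg, hg]
    exact contDiff_const.mul (ContDiff.sum fun l _ => (A.smG k l).mul
      ((((A.smg j l).pd i).add ((A.smg i l).pd j)).sub ((A.smg i j).pd l)))
  exact contDiff_snd.prodMk (contDiff_pi.2 fun k => (ContDiff.sum fun i _ => ContDiff.sum fun j _ =>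
    (((h k i j).comp contDiff_fst).mul (MetF_coord i)).mul (MetF_coord j)).neg)

/-- differentiate `∑ g G = δ` -/
theorem Met.pd_G (x : V n) (l i j : Fin n) : pd l (fun y => A.G y i j) x =
    -∑ a, ∑ b, A.G x i a * pd l (fun y => A.g y a b) x * A.G x b j := by
  have h1 : ∀ a, ∑ k, A.g x a k * pd l (fun y => A.G y k j) x =
      -∑ b, pd l (fun y => A.g y a b) x * A.G x b j := by
    intro a
    have h2 := HasFDerivAt.fun_sum (u := Finset.univ) fun k _ =>
      ((A.smg a k).dAt x).hasFDerivAt.fun_mul ((A.smG k j).dAt x).hasFDerivAt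
    simp only [A.inv] at h2
    have h3 := congrArg (fun L : V n →L[ℝ] ℝ => L (Pi.single l 1))
      (h2.unique (hasFDerivAt_const _ x))
    simp only [_root_.sum_apply, add_apply, smul_apply, smul_eq_mul, zero_apply,
      Finset.sum_add_distrib] at h3
    rw [eq_neg_iff_add_eq_zero, ← h3]
    simp only [pd, mul_comm]
  rw [← Tr1_cancel (A.inv' x) (fun k => pd l (fun y => A.G y k j) x) i]
  simp only [h1, mul_neg, Finset.sum_neg_distrib, Finset.mul_sum, mul_assoc]

theorem Tr1_alg (G : Fin n → Fin n → ℝ) (D : Fin n → Fin n → Fin n → ℝ) (p v : V n)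
    (hv : ∀ i, v i = ∑ j, G i j * p j) (hG : ∀ i j, G i j = G j i)
    (hD : ∀ l a b, D l a b = D l b a) (k : Fin n) :
    ∑ i, (v i * ∑ j, (-∑ a, ∑ b, G k a * D i a b * G b j) * p j +
      -((1 / 2) * ∑ j, ∑ m, (-∑ a, ∑ b, G j a * D i a b * G b m) * p j * p m) * G i k) =
    -∑ i, ∑ j, ((1 / 2) * ∑ l, G k l * (D i j l + D j i l - D l i j)) *
      (∑ m, G i m * p m) * ∑ m, G j m * p m := by
  simp only [← hv]
  have e1 : ∀ i k, ∑ j, (-∑ a, ∑ b, G k a * D i a b * G b j) * p j =
      -∑ a, ∑ b, G k a * D i a b * v b := by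
    intro i k
    simp only [hv, neg_mul, Finset.sum_neg_distrib, Finset.sum_mul, Finset.mul_sum, mul_assoc]
    rw [Finset.sum_comm]
    congr 1
    exact Finset.sum_congr rfl fun a _ => Finset.sum_comm
  have e2 : ∀ i, ∑ j, ∑ m, (-∑ a, ∑ b, G j a * D i a b * G b m) * p j * p m =
      -∑ a, ∑ b, v a * D i a b * v b := by
    intro i
    have e3 : ∀ j, ∑ m, (-∑ a, ∑ b, G j a * D i a b * G b m) * p j * p m =
        -∑ a, G a j * p j * ∑ b, D i a b * v b := by
      intro j
      simp only [mul_right_comm _ (p j)]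
      rw [← Finset.sum_mul, e1, neg_mul, Finset.sum_mul]
      congr 1
      refine Finset.sum_congr rfl fun a _ => ?_
      rw [hG a j]
      simp only [Finset.mul_sum, Finset.sum_mul]
      exact Finset.sum_congr rfl fun b _ => by ring
    simp only [e3, Finset.sum_neg_distrib]
    rw [Finset.sum_comm]
    simp only [← Finset.sum_mul, ← hv]
    simp only [Finset.mul_sum, mul_assoc]
  have s1 : ∑ i, ∑ j, ∑ l, G k l * D i j l * v i * v j =
      ∑ i, v i * ∑ a, ∑ b, G k a * D i a b * v b := by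
    refine Finset.sum_congr rfl fun i _ => ?_
    rw [Finset.sum_comm]
    simp only [Finset.mul_sum]
    exact Finset.sum_congr rfl fun a _ => Finset.sum_congr rfl fun b _ => by rw [hD i b a]; ring
  have s2 : ∑ i, ∑ j, ∑ l, G k l * D j i l * v i * v j =
      ∑ i, ∑ j, ∑ l, G k l * D i j l * v i * v j := by
    rw [Finset.sum_comm]
    exact Finset.sum_congr rfl fun i _ => Finset.sum_congr rfl fun j _ =>
      Finset.sum_congr rfl fun l _ => by ring
  have s3 : ∑ i, ∑ j, ∑ l, G k l * D l i j * v i * v j =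
      ∑ i, (∑ a, ∑ b, v a * D i a b * v b) * G i k := by
    rw [Finset.sum_congr rfl fun i _ => Finset.sum_comm, Finset.sum_comm]
    simp only [Finset.sum_mul]
    exact Finset.sum_congr rfl fun l _ => Finset.sum_congr rfl fun i _ =>
      Finset.sum_congr rfl fun j _ => by rw [hG k l]; ring
  have s4 : ∑ i, ∑ j, ((1 / 2) * ∑ l, G k l * (D i j l + D j i l - D l i j)) * v i * v j =
      (1 / 2) * (∑ i, ∑ j, ∑ l, G k l * D i j l * v i * v j +
        ∑ i, ∑ j, ∑ l, G k l * D j i l * v i * v j -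
        ∑ i, ∑ j, ∑ l, G k l * D l i j * v i * v j) := by
    simp only [← Finset.sum_add_distrib, ← Finset.sum_sub_distrib, Finset.mul_sum, Finset.sum_mul]
    exact Finset.sum_congr rfl fun i _ => Finset.sum_congr rfl fun j _ =>
      Finset.sum_congr rfl fun l _ => by ring
  have s5 : ∑ i, (v i * -∑ a, ∑ b, G k a * D i a b * v b +
      -((1 / 2) * -∑ a, ∑ b, v a * D i a b * v b) * G i k) =
      -∑ i, v i * ∑ a, ∑ b, G k a * D i a b * v b +
        (1 / 2) * ∑ i, (∑ a, ∑ b, v a * D i a b * v b) * G i k := by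
    rw [Finset.mul_sum, ← Finset.sum_neg_distrib, ← Finset.sum_add_distrib]
    exact Finset.sum_congr rfl fun i _ => by ring
  simp only [e1, e2]
  rw [s4, s2, s1, s3, s5]
  ring

theorem Tr1_fst (z y : Z n) : (fderiv ℝ A.up z y).1 = y.1 := by
  have h := (A.sm_up.dAt z).hasFDerivAt.fst.unique (hasFDerivAt_fst (𝕜 := ℝ) (p := z))
  exact congrArg (fun L : Z n →L[ℝ] V n => L y) h

/-- Sketch: with `v = G p` the second component is
`∑ i, v i * pd i (G k l) p l - ∑ l, G k l * dx l H`; `Met.pd_G`, `Met.dx_H`, `Met.dp_H`; compare with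
`-∑ chr k i j v i v j`, where the first two terms of `chr` contribute equally after exchanging
`i` and `j`. -/
theorem Met.up_rel (hg : ∀ x i j, g x i j = A.g x i j) (z : Z n) :
    fderiv ℝ A.up z (hv A.H z) = spray g (A.up z) := by
  refine Prod.ext ?_ (funext fun k => ?_)
  · rw [Tr1_fst]
    exact funext fun i => A.dp_H i z
  · have h1 : dp k A.H = fun w : Z n => ∑ j, A.G w.1 k j * w.2 j := funext (A.dp_H k)
    have h2 : ∀ i, dx i (dp k A.H) z = ∑ j, pd i (fun x => A.G x k j) z.1 * z.2 j := by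
      intro i
      rw [h1, dx_sum fun j _ => Sm.dAt ((MetF_G A k j).mul (MetF_coord j)) z]
      refine Finset.sum_congr rfl fun j _ => ?_
      rw [dx_mul ((MetF_G A k j).dAt z) ((MetF_coord j).dAt z),
        dx_fst (u := fun x => A.G x k j) ((A.smG k j).dAt z.1), dx_coord, mul_zero, add_zero]
    have h3 : fderiv ℝ (fun w : Z n => ∑ j, A.G w.1 k j * w.2 j) z = _ :=
      (hasFDerivAt_pi'.1 (A.sm_up.dAt z).hasFDerivAt.snd k).fderiv
    have h4 : (fderiv ℝ A.up z (hv A.H z)).2 k = fderiv ℝ (dp k A.H) z (hv A.H z) := by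
      rw [h1, h3]
      rfl
    rw [h4, fderiv_eq_sum]
    simp only [h2, A.dp_dp_H, hv, A.dx_H, A.pd_G, spray, chr, A.inv_eq hg, hg]
    exact Tr1_alg (A.G z.1) (fun l a b => pd l (fun y => A.g y a b) z.1) z.2 _
      (fun i => A.dp_H i z) (A.symG z.1) (fun l a b => by simp only [A.symg _ a b]) k

/-- chain rule for `dn ∘ up = id` -/
theorem Met.dn_rel (hg : ∀ x i j, g x i j = A.g x i j) (w : Z n) :
    fderiv ℝ A.dn w (spray g w) = hv A.H (A.dn w) := by
  have h1 := (A.sm_dn.dAt (A.up (A.dn w))).hasFDerivAt.comp (A.dn w)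
    (A.sm_up.dAt (A.dn w)).hasFDerivAt
  rw [show A.dn ∘ A.up = id from funext A.dn_up] at h1
  have h2 := congrArg (fun L : Z n →L[ℝ] Z n => L (hv A.H (A.dn w)))
    (h1.unique (hasFDerivAt_id _))
  simpa only [ContinuousLinearMap.comp_apply, A.up_rel hg, A.up_dn,
    ContinuousLinearMap.id_apply] using h2

theorem Met.br_up (hg : ∀ x i j, g x i j = A.g x i j) {F : Z n → ℝ} {z : Z n}
    (hF : DifferentiableAt ℝ F (A.up z)) :
    br A.H (fun w => F (A.up w)) z = fderiv ℝ F (A.up z) (spray g (A.up z)) := by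
  have h1 : fderiv ℝ (fun w => F (A.up w)) z = _ :=
    (hF.hasFDerivAt.comp z (A.sm_up.dAt z).hasFDerivAt).fderiv
  rw [br_eq, h1, ContinuousLinearMap.comp_apply, A.up_rel hg]

theorem Met.fderiv_up_fst (z y : Z n) : (fderiv ℝ A.up z y).1 = y.1 := by
  exact Tr1_fst A z y

theorem Met.up_ne {z : Z n} (h : z.2 ≠ 0) : (A.up z).2 ≠ 0 := by
  intro h0
  apply h
  rw [← A.dn_up z]
  funext i
  simp [Met.dn, h0]

theorem Met.g_up (z : Z n) :
    ∑ i, ∑ j, A.g z.1 i j * (A.up z).2 i * (A.up z).2 j = 2 * A.H z := by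
  have h1 : ∀ i, ∑ j, A.g z.1 i j * (A.up z).2 j = z.2 i := fun i =>
    congrFun (congrArg Prod.snd (A.dn_up z)) i
  rw [← A.euler_H]
  refine Finset.sum_congr rfl fun i _ => ?_
  rw [← h1 i, A.dp_H, Finset.sum_mul]
  exact Finset.sum_congr rfl fun j _ => mul_right_comm _ _ _

theorem Met.geod_of_traj (hg : ∀ x i j, g x i j = A.g x i j) {c : ℝ → Z n} {s : Set ℝ}
    (h : Traj A.H c s) : IsGeod g (fun t => (c t).1) (fun t => (A.up (c t)).2) s := by
  intro t ht
  have h1 := (A.sm_up.dAt (c t)).hasFDerivAt.comp_hasDerivAt t (h t ht)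
  rw [A.up_rel hg] at h1
  exact h1

theorem Met.traj_of_geod (hg : ∀ x i j, g x i j = A.g x i j) {γ γ' : ℝ → V n} {s : Set ℝ}
    (h : IsGeod g γ γ' s) : Traj A.H (fun t => A.dn (γ t, γ' t)) s := by
  intro t ht
  have h1 := (A.sm_dn.dAt (γ t, γ' t)).hasFDerivAt.comp_hasDerivAt t (h t ht)
  rw [A.dn_rel hg] at h1
  exact h1

end Pool.Agent.Lib.MP_45f3cb_gt
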