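import Pool.Agent.Lib.MP_45f3cb_gt.ParInt
import Pool.Agent.Lib.MP_45f3cb_gt.PolyB
import Pool.Agent.Lib.MP_45f3cb_gt.Top

/-!
Division by a defining function.
-/

open Set MeasureTheory

namespace Pool.Agent.Lib.MP_45f3cb_gt

/-- the difference quotient in the direction `w` -/
noncomputable def hadQ {E : Type} [NormedAddCommGroup E] [NormedSpace ℝ E] (u : E → ℝ) (w : E)
    (q : E × ℝ) : ℝ := ∫ t in (0 : ℝ)..1, fderiv ℝ u (q.1 - (t * q.2) • w) w

theorem hadQ_sm {E : Type} [NormedAddCommGroup E] [NormedSpace ℝ E] [FiniteDimensional ℝ E]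
    {u : E → ℝ} (hu : Sm u) (w : E) : Sm (hadQ u w) := by
  have h1 : Sm (fderiv ℝ u) := hu.fderiv_right (m := (⊤ : ℕ∞)) le_rfl
  have h2 : Sm fun z : (E × ℝ) × ℝ => z.1.1 - (z.2 * z.1.2) • w :=
    contDiff_fst.fst.sub ((contDiff_snd.mul contDiff_fst.snd).smul contDiff_const)
  exact sm_intInt (G := fun z : (E × ℝ) × ℝ => fderiv ℝ u (z.1.1 - (z.2 * z.1.2) • w) w)
    ((h1.comp h2).clm_apply contDiff_const) 0 1

theorem hadQ_eq {E : Type} [NormedAddCommGroup E] [NormedSpace ℝ E]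
    {u : E → ℝ} (hu : Sm u) (w x : E) (s : ℝ) : u x - u (x - s • w) = s * hadQ u w (x, s) := by
  have h1 : Continuous (fderiv ℝ u) := hu.continuous_fderiv (by simp)
  have h2 : ∀ t : ℝ, HasDerivAt (fun t : ℝ => -u (x - (t * s) • w))
      (s * fderiv ℝ u (x - (t * s) • w) w) t := by
    intro t
    have h3 : HasDerivAt (fun t : ℝ => x - (t * s) • w) (-(s • w)) t := by
      have h4 := (((hasDerivAt_id t).mul_const s).smul_const w).const_sub x
      simpa using h4
    have h5 := ((hu.dAt (x - (t * s) • w)).hasFDerivAt.comp_hasDerivAt t h3).neg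
    simp only [map_neg, map_smul, smul_eq_mul, neg_neg] at h5
    exact h5
  have h6 : Continuous fun t : ℝ => s * fderiv ℝ u (x - (t * s) • w) w :=
    continuous_const.mul ((h1.comp (by fun_prop)).clm_apply continuous_const)
  have h7 := intervalIntegral.integral_eq_sub_of_hasDerivAt (a := 0) (b := 1)
    (fun t _ => h2 t) (h6.intervalIntegrable _ _)
  rw [intervalIntegral.integral_const_mul] at h7
  simp only [one_mul, zero_mul, zero_smul, sub_zero] at h7
  unfold hadQ
  simp only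
  rw [h7]
  ring

/-- the distance to the zero set in a transversal direction -/
theorem had_foot {E : Type} [NormedAddCommGroup E] [NormedSpace ℝ E] [FiniteDimensional ℝ E]
    {b : E → ℝ} (hb : Sm b) {x₀ w : E} (h0 : b x₀ = 0) (hw : fderiv ℝ b x₀ w = 1) :
    ∃ U : Set E, IsOpen U ∧ x₀ ∈ U ∧ ∃ s : E → ℝ, ContDiffOn ℝ (⊤ : ℕ∞) s U ∧ s x₀ = 0 ∧
      ∀ x ∈ U, b (x - s x • w) = 0 := by
  have : CompleteSpace E := FiniteDimensional.complete ℝ E
  set l : E →L[ℝ] ℝ := fderiv ℝ b x₀ with hl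
  set Λ : E → E := fun y => y + (b y - l (y - x₀)) • w with hΛ
  have hΛs : Sm Λ := contDiff_id.add
    ((hb.sub (l.contDiff.comp (contDiff_id.sub contDiff_const))).smul contDiff_const)
  have hd : HasFDerivAt Λ ((ContinuousLinearEquiv.refl ℝ E : E ≃L[ℝ] E) : E →L[ℝ] E) x₀ := by
    have h1 : HasFDerivAt (fun y => l (y - x₀)) l x₀ := by
      have h2 := l.hasFDerivAt.comp x₀ ((hasFDerivAt_id x₀).sub_const x₀)
      rw [ContinuousLinearMap.comp_id] at h2
      exact h2
    have h3 := (hasFDerivAt_id x₀).add (((hb.dAt x₀).hasFDerivAt.sub h1).smul_const w)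
    refine HasFDerivAt.congr_fderiv h3 ?_
    ext y
    simp [hl]
  set f := hΛs.contDiffAt.toOpenPartialHomeomorph Λ hd (by simp) with hf
  have hfe : (f : E → E) = Λ := rfl
  have hsrc : x₀ ∈ f.source := hΛs.contDiffAt.mem_toOpenPartialHomeomorph_source hd (by simp)
  have hΛ0 : Λ x₀ = x₀ := by simp [hΛ, h0]
  have htg : x₀ ∈ f.target := by
    have h1 := f.map_source hsrc
    rwa [hfe, hΛ0] at h1
  have hsy : f.symm x₀ = x₀ := by
    have h1 := f.left_inv hsrc
    rwa [hfe, hΛ0] at h1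
  set O : Set E := fderiv ℝ Λ ⁻¹' range ((↑) : (E ≃L[ℝ] E) → E →L[ℝ] E) with hO
  have hOo : IsOpen O :=
    ContinuousLinearEquiv.isOpen.preimage (hΛs.continuous_fderiv (by simp))
  have hO0 : x₀ ∈ O := ⟨_, hd.fderiv.symm⟩
  have hU' : IsOpen (f.target ∩ f.symm ⁻¹' O) := f.isOpen_inter_preimage_symm hOo
  set pr : E → E := fun x => x - l (x - x₀) • w with hpr
  have hprs : Sm pr := contDiff_id.sub
    ((l.contDiff.comp (contDiff_id.sub contDiff_const)).smul contDiff_const)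
  have hpr0 : pr x₀ = x₀ := by simp [hpr]
  refine ⟨pr ⁻¹' (f.target ∩ f.symm ⁻¹' O), hU'.preimage hprs.continuous, ?_,
    fun x => l (x - x₀) - l (f.symm (pr x) - x₀), ?_, ?_, ?_⟩
  · rw [mem_preimage, hpr0]
    exact ⟨htg, by rw [mem_preimage, hsy]; exact hO0⟩
  · intro x hx
    obtain ⟨h1, e, he⟩ := hx
    have h2 : HasFDerivAt f (e : E →L[ℝ] E) (f.symm (pr x)) := by
      rw [he, hfe]
      exact (hΛs.dAt _).hasFDerivAt
    have h3 : ContDiffAt ℝ (⊤ : ℕ∞) f.symm (pr x) := f.contDiffAt_symm h1 h2 hΛs.contDiffAt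
    have h4 : ContDiffAt ℝ (⊤ : ℕ∞) (fun x => f.symm (pr x)) x := h3.comp x hprs.contDiffAt
    exact ((l.contDiff.comp (contDiff_id.sub contDiff_const)).contDiffAt.sub
      (l.contDiff.contDiffAt.comp x (h4.sub contDiffAt_const))).contDiffWithinAt
  · simp [hpr0, hsy]
  · intro x hx
    have h1 : Λ (f.symm (pr x)) = pr x := f.right_inv hx.1
    set y := f.symm (pr x) with hy
    have h2 : y + (b y - l (y - x₀)) • w = x - l (x - x₀) • w := h1
    have h3 : b y = 0 := by
      have h4 := congrArg l h2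
      simp only [map_add, map_sub, map_smul, smul_eq_mul, hw, mul_one] at h4
      linarith
    rw [h3, zero_sub, neg_smul] at h2
    have h5 : x - (l (x - x₀) - l (y - x₀)) • w = y := by
      rw [sub_smul]
      have h6 : y = x - l (x - x₀) • w + l (y - x₀) • w := by
        rw [← h2]
        abel
      rw [sub_sub_eq_add_sub, add_sub_right_comm]
      exact h6.symm
    rw [h5, h3]

/-- Sketch: if `b x₀ ≠ 0` take `c / b`. Otherwise let `ℓ = fderiv b x₀`, `ℓ w = 1`,
`Λ y = y + (b y - ℓ (y - x₀)) • w`, whose derivative at `x₀` is the identity. With the local inverse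
(`ContDiffAt.toOpenPartialHomeomorph`, smooth at every point of the target near `x₀`:
`OpenPartialHomeomorph.contDiffAt_symm`, or `ContDiffAt.to_localInverse` plus openness of the set of
invertible derivatives) put `y x = Λ⁻¹ (x - ℓ (x - x₀) • w)`, `s x = ℓ (x - y x)`. Applying `ℓ` gives
`b (y x) = 0` and `y x = x - s x • w`. For any smooth `u` with `u (y x) = 0` one has
`u x = s x * ∫ t in 0..1, fderiv u (x - (t * s x) • w) w`, and `(x, s) ↦ ∫ …` is smooth
(`sm_intInt`). Apply this to `c` and to `b`; the factor for `b` equals `1` at `x₀`; divide. -/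
theorem hadamard_loc {E : Type} [NormedAddCommGroup E] [NormedSpace ℝ E] [FiniteDimensional ℝ E]
    {b c : E → ℝ} (hb : Sm b) (hc : Sm c) (hr : ∀ x, b x = 0 → fderiv ℝ b x ≠ 0)
    (h : ∀ x, b x = 0 → c x = 0) (x₀ : E) :
    ∃ U ∈ nhds x₀, ∃ c' : E → ℝ, ContDiffOn ℝ (⊤ : ℕ∞) c' U ∧ ∀ x ∈ U, c x = b x * c' x := by
  by_cases h0 : b x₀ = 0
  · obtain ⟨v, hv⟩ : ∃ v, fderiv ℝ b x₀ v ≠ 0 := by
      by_contra hcon
      push Not at hcon
      exact hr x₀ h0 (ContinuousLinearMap.ext hcon)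
    set w : E := (fderiv ℝ b x₀ v)⁻¹ • v with hwd
    have hw : fderiv ℝ b x₀ w = 1 := by
      rw [hwd, map_smul, smul_eq_mul, inv_mul_cancel₀ hv]
    obtain ⟨U, hU, hx₀, s, hs, hs0, hz⟩ := had_foot hb h0 hw
    have hq : ∀ {u : E → ℝ}, Sm u → ContDiffOn ℝ (⊤ : ℕ∞) (fun x => hadQ u w (x, s x)) U :=
      fun hu => (hadQ_sm hu w).comp_contDiffOn (contDiffOn_id.prodMk hs)
    have h1 : hadQ b w (x₀, s x₀) ≠ 0 := by
      simp [hadQ, hs0, hw]
    have h2 : ∀ᶠ x in nhds x₀, hadQ b w (x, s x) ≠ 0 :=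
      ((hq hb).continuousOn.continuousAt (hU.mem_nhds hx₀)).eventually_ne h1
    refine ⟨U ∩ {x | hadQ b w (x, s x) ≠ 0}, Filter.inter_mem (hU.mem_nhds hx₀) h2,
      fun x => hadQ c w (x, s x) / hadQ b w (x, s x),
      ((hq hc).mono inter_subset_left).div ((hq hb).mono inter_subset_left) fun x hx => hx.2,
      fun x hx => ?_⟩
    have e1 := hadQ_eq hb w x (s x)
    have e2 := hadQ_eq hc w x (s x)
    rw [hz x hx.1, sub_zero] at e1
    rw [h _ (hz x hx.1), sub_zero] at e2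
    have h3 : hadQ b w (x, s x) ≠ 0 := hx.2
    rw [e1, e2]
    field_simp
  · refine ⟨{x | b x ≠ 0}, hb.continuous.continuousAt.eventually_ne h0, fun x => c x / b x,
      hc.contDiffOn.div hb.contDiffOn fun x hx => hx, fun x hx => ?_⟩
    have h3 : b x ≠ 0 := hx
    field_simp

/-- glue: `exists_contMDiffMap_forall_mem_convex_of_local` with the convex sets
`{r | c x = b x * r}` -/
theorem hadamard {E : Type} [NormedAddCommGroup E] [NormedSpace ℝ E] [FiniteDimensional ℝ E]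
    {b c : E → ℝ} (hb : Sm b) (hc : Sm c) (hr : ∀ x, b x = 0 → fderiv ℝ b x ≠ 0)
    (h : ∀ x, b x = 0 → c x = 0) : ∃ c' : E → ℝ, Sm c' ∧ ∀ x, c x = b x * c' x := by
  obtain ⟨g, hg⟩ := exists_contMDiffMap_forall_mem_convex_of_local (n := ⊤)
    (modelWithCornersSelf ℝ E) (t := fun x => {r : ℝ | c x = b x * r})
    (fun x r hr' r' hr'' α β _ _ hαβ => by
      have e1 : c x = b x * r := hr'
      have e2 : c x = b x * r' := hr''
      show c x = b x * (α * r + β * r')
      linear_combination α * e1 + β * e2 - c x * hαβ)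
    (fun x => by
      obtain ⟨U, hU, c', h1, h2⟩ := hadamard_loc hb hc hr h x
      exact ⟨U, hU, c', h1.contMDiffOn, h2⟩)
  exact ⟨g, g.contMDiff.contDiff, hg⟩

/-- gluing of local smooth extensions from a closed set -/
theorem exists_sm_ext {E : Type} [NormedAddCommGroup E] [NormedSpace ℝ E] [FiniteDimensional ℝ E]
    {K : Set E} (hK : IsClosed K) {u : E → ℝ}
    (h : ∀ x ∈ K, ∃ g : E → ℝ, Sm g ∧ ∀ᶠ y in nhds x, y ∈ K → u y = g y) :
    ∃ g : E → ℝ, Sm g ∧ ∀ y ∈ K, g y = u y := by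
  obtain ⟨g, hg⟩ := exists_contMDiffMap_forall_mem_convex_of_local (n := ⊤)
    (modelWithCornersSelf ℝ E) (t := fun x => {r : ℝ | x ∈ K → r = u x})
    (fun x r hr' r' hr'' α β _ _ hαβ hx => by
      have e1 : r = u x := hr' hx
      have e2 : r' = u x := hr'' hx
      show α * r + β * r' = u x
      linear_combination α * e1 + β * e2 + u x * hαβ)
    (fun x => by
      by_cases hx : x ∈ K
      · obtain ⟨g, h1, h2⟩ := h x hx
        exact ⟨_, h2, g, h1.contMDiff.contMDiffOn, fun y hy hyK => (hy hyK).symm⟩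
      · exact ⟨Kᶜ, hK.isOpen_compl.mem_nhds hx, fun _ => 0, contMDiffOn_const,
          fun y hy hyK => (hy hyK).elim⟩)
  exact ⟨g, g.contMDiff.contDiff, hg⟩

/-- `hadamard` on `Z n`; the quotient is polynomial where `b ≠ 0` and then everywhere by
`poly_closure` with `U = univ` and `mem_closure_pos` -/
theorem Dom.had {n d : ℕ} (D : Dom n) {c : Z n → ℝ} (hc : Sm c) (hp : FP d c)
    (h : ∀ z : Z n, D.b z.1 = 0 → c z = 0) :
    ∃ c' : Z n → ℝ, Sm c' ∧ FP d c' ∧ ∀ z, c z = D.b z.1 * c' z := by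
  have hr : ∀ z : Z n, D.b z.1 = 0 → fderiv ℝ (fun w : Z n => D.b w.1) z ≠ 0 := by
    intro z hz hcon
    have h1 : fderiv ℝ (fun w : Z n => D.b w.1) z = _ :=
      ((D.smb.dAt z.1).hasFDerivAt.comp z hasFDerivAt_fst).fderiv
    apply D.regular z.1 hz
    refine ContinuousLinearMap.ext fun v => ?_
    exact congrArg (fun L : Z n →L[ℝ] ℝ => L (v, 0)) (h1.symm.trans hcon)
  obtain ⟨c', h1, h2⟩ := hadamard D.sm_bz hc hr h
  refine ⟨c', h1, fun x => ?_, h2⟩
  have hx : x ∈ closure {y | D.b y ≠ 0} := by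
    by_cases h0 : D.b x = 0
    · exact closure_mono (fun y (hy : 0 < D.b y) => hy.ne') (mem_closure_pos h0 (D.regular x h0))
    · exact subset_closure h0
  obtain ⟨q, hq, hq'⟩ := poly_closure (d := d) isOpen_univ h1.continuous.continuousOn hx
    (fun x' hx' => ⟨_, (HP n d).smul_mem (D.b x')⁻¹ (hp x'), fun p _ => by
      have h3 : D.b x' ≠ 0 := hx'
      have h4 := h2 (x', p)
      show c' (x', p) = (D.b x')⁻¹ * c (x', p)
      rw [h4]
      field_simp⟩)
  rw [show (fun p => c' (x, p)) = q from funext fun p => hq' p (mem_univ _)]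
  exact hq

end Pool.Agent.Lib.MP_45f3cb_gt
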