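import Pool.Agent.Lib.MP_45f3cb_gt.Exit2
import Pool.Agent.Lib.MP_45f3cb_gt.Had

/-!
A smooth time function, and the absence of conjugate points slightly beyond the exit.
-/

open Set MeasureTheory

namespace Pool.Agent.Lib.MP_45f3cb_gt

variable {n : ℕ} {D : Dom n} {e h₀ h₁ : ℝ}

theorem TimeF_cont (P : GF D e) :
    Continuous fun q : ℝ × Z n × V n => fderiv ℝ (P.Φ q.1) q.2.1 (0, q.2.2) := by
  simp only [FlowD_snd P.flow]
  exact ((P.flow.sm.continuous_fderiv (by simp)).comp (by fun_prop)).clm_apply (by fun_prop)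

theorem TimeF_scale (L : Z n →L[ℝ] Z n) {w : V n} (h : (L (0, w)).1 = 0) (hw : w ≠ 0) :
    ∃ u ∈ Metric.sphere (0 : V n) 1, (L (0, u)).1 = 0 := by
  have hn : ‖w‖ ≠ 0 := norm_ne_zero_iff.2 hw
  refine ⟨‖w‖⁻¹ • w, by simp [norm_smul, hn], ?_⟩
  have e : ((0, ‖w‖⁻¹ • w) : Z n) = ‖w‖⁻¹ • (0, w) := by simp
  rw [e, map_smul, Prod.smul_fst, h, smul_zero]

theorem TimeF_ne {u : V n} (h : u ∈ Metric.sphere (0 : V n) 1) : u ≠ 0 := by
  rintro rfl
  simp at h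

/-- Sketch: with `ε₀`, `c` of `GF.ex_after` and `δ' = min δ (ε₀ / 2)` take `β` from `exists_step'` with
`β = 1` on `(-∞, 0]`, `β = 0` on `[c δ'², ∞)`, and `T₀ z = ∫ t in 0..ex z + δ', β (b (Φ t z).1)`. It is
positive (the integrand is nonnegative, continuous and `1` at `t = 0`) and at most `ex z + δ'`;
`GF.ex_shift` and `β = 1` over `M` give the shift rule. Near `z₀ ∈ sh` and on `sh` it equals the smooth
`∫ t in 0..ex z₀ + 3 ε₀ / 4, …` (`GF.ex_cont`, `sm_intInt`); `exists_sm_ext`. -/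
theorem GF.exists_time (P : GF D e) (h0 : 0 < h₀) (h1 : h₁ < e) {δ : ℝ} (hδ : 0 < δ) :
    ∃ T : Z n → ℝ, Sm T ∧ (∀ z ∈ D.sh h₀ h₁, 0 < T z ∧ T z ≤ P.ex z + δ) ∧
      ∀ z ∈ D.sh h₀ h₁, ∀ s ∈ Icc 0 (P.ex z), T (P.Φ s z) = T z - s := by
  obtain ⟨ε₀, c, hε, hc, H⟩ := P.ex_after h0 h1
  obtain ⟨δ', d0, d1, d2⟩ : ∃ δ', 0 < δ' ∧ δ' ≤ δ ∧ δ' ≤ ε₀ / 2 :=
    ⟨min δ (ε₀ / 2), lt_min hδ (half_pos hε), min_le_left _ _, min_le_right _ _⟩
  obtain ⟨β, b1, b2, b3, b4, b5, -⟩ := exists_step' (show 0 < c * δ' ^ 2 by positivity)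
  obtain ⟨G, hG⟩ : ∃ G : Z n × ℝ → ℝ, ∀ q, G q = β (D.b (P.Φ q.2 q.1).1) := ⟨_, fun _ => rfl⟩
  have sG : Sm G := by
    rw [funext hG]
    exact b1.comp (D.sm_bz.comp (P.flow.sm.comp (contDiff_snd.prodMk contDiff_fst)))
  have cG : ∀ z, Continuous fun t => G (z, t) := fun z =>
    sG.continuous.comp (Continuous.prodMk_right z)
  have iG : ∀ z a b, IntervalIntegrable (fun t => G (z, t)) volume a b := fun z a b =>
    (cG z).intervalIntegrable a b
  have k0 : ∀ z ∈ D.sh h₀ h₁, 0 < D.H z := fun z hz => h0.trans_le hz.2.1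
  have k1 : ∀ z ∈ D.sh h₀ h₁, D.H z < e := fun z hz => hz.2.2.trans_lt h1
  obtain ⟨T, hT, hT'⟩ := exists_sm_ext (D.isCompact_sh h₀ h₁).isClosed
    (u := fun z => ∫ t in (0 : ℝ)..P.ex z + δ', G (z, t)) fun z hz => by
      refine ⟨_, sm_intInt sG 0 (P.ex z + 3 * ε₀ / 4), ?_⟩
      have h2 := (P.ex_cont h0 h1 z hz).eventually
        (Ioo_mem_nhds (a := P.ex z - ε₀ / 4) (b := P.ex z + ε₀ / 4) (by linarith) (by linarith))
      filter_upwards [eventually_nhdsWithin_iff.1 h2] with y hy hy'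
      obtain ⟨a1, a2⟩ := hy hy'
      rw [← intervalIntegral.integral_add_adjacent_intervals (iG y 0 (P.ex y + δ'))
        (iG y _ (P.ex z + 3 * ε₀ / 4)), left_eq_add,
        intervalIntegral.integral_congr (g := fun _ => 0), intervalIntegral.integral_zero]
      intro t ht
      rw [uIcc_of_le (by linarith)] at ht
      refine (hG _).trans (b5 _ (le_trans ?_ ((H y hy').1 t ⟨by linarith [ht.1],
        by linarith [ht.2]⟩)))
      gcongr
      linarith [ht.1]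
  refine ⟨T, hT, fun z hz => ?_, fun z hz s hs => ?_⟩
  · have h2 := P.ex_nonneg hz.1 (k0 z hz) (k1 z hz)
    rw [hT' z hz]
    constructor
    · refine intervalIntegral.integral_pos (by linarith) (cG z).continuousOn
        (fun t _ => (b2 _).trans_eq (hG _).symm) ⟨0, ⟨le_rfl, by linarith⟩, ?_⟩
      rw [hG, P.flow.zero, b4 _ hz.1]
      exact one_pos
    · have h3 := intervalIntegral.integral_mono_on (show 0 ≤ P.ex z + δ' by linarith) (iG z _ _)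
        (intervalIntegrable_const (c := (1 : ℝ))) fun t _ => (hG _).trans_le (b3 _)
      rw [intervalIntegral.integral_const, smul_eq_mul, mul_one, sub_zero] at h3
      linarith
  · have h2 := P.ex_in hz.1 (k0 z hz) (k1 z hz)
    have h3 : ∀ t, G (P.Φ s z, t) = G (z, t + s) := fun t => by rw [hG, hG, P.flow.add]
    have h4 : ∫ t in (0 : ℝ)..s, G (z, t) = s := by
      rw [intervalIntegral.integral_congr (g := fun _ => 1), intervalIntegral.integral_const,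
        smul_eq_mul, mul_one, sub_zero]
      intro t ht
      rw [uIcc_of_le hs.1] at ht
      exact (hG _).trans (b4 _ (h2 t ⟨ht.1, ht.2.trans hs.2⟩))
    rw [hT' z hz, hT' _ ⟨h2 s hs, by rw [P.ener]; exact hz.2⟩,
      P.ex_shift hz.1 (k0 z hz) (k1 z hz) hs]
    simp only [h3]
    rw [intervalIntegral.integral_comp_add_right (fun t => G (z, t)) s, zero_add,
      show P.ex z - s + δ' + s = P.ex z + δ' by ring,
      ← intervalIntegral.integral_interval_sub_left (iG z 0 _) (iG z 0 s), h4]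

/-- one sided derivative at `s = 0`, `GF.der_fun`, `GF.ex_pos` -/
theorem GF.br_time (P : GF D e) (h0 : 0 < h₀) (h1 : h₁ < e) {T : Z n → ℝ} (hT : Sm T)
    (h : ∀ z ∈ D.sh h₀ h₁, ∀ s ∈ Icc 0 (P.ex z), T (P.Φ s z) = T z - s) {z : Z n}
    (hz : z ∈ D.sh h₀ h₁) (hb : D.b z.1 < 0) : br D.H T z = -1 := by
  have he := hz.2.2.trans_lt h1
  have hp := P.ex_pos hz.1 (h0.trans_le hz.2.1) he (Or.inl hb)
  have h2 := P.der_fun he (t := 0) (by rw [P.flow.zero]; exact P.ball _ hz.1) (hT.dAt _)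
  rw [P.flow.zero] at h2
  have h3 : HasDerivWithinAt (fun r => T (P.Φ r z)) (-1) (Icc 0 (P.ex z)) 0 :=
    ((hasDerivAt_id' (0 : ℝ)).const_sub (T z)).hasDerivWithinAt.congr (h z hz)
      (h z hz 0 ⟨le_rfl, hp.le⟩)
  exact (uniqueDiffOn_Icc hp 0 ⟨le_rfl, hp.le⟩).eq_deriv _ h2.hasDerivWithinAt h3

/-- `D.noconj` on `[0, t]` with `GF.traj`, `GF.linz` -/
theorem GF.noconj_in (P : GF D e) {z : Z n} (hz : D.b z.1 ≤ 0) (h0 : 0 < D.H z) (he : D.H z < e)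
    {t : ℝ} (ht : t ∈ Ioc 0 (P.ex z)) {w : V n} (h : (fderiv ℝ (P.Φ t) z (0, w)).1 = 0) :
    w = 0 := by
  have h2 : ∀ s ∈ Icc 0 t, D.b (P.Φ s z).1 ≤ 0 := fun s hs =>
    P.ex_in hz h0 he s ⟨hs.1, hs.2.trans ht.2⟩
  have h3 := D.noconj (fun r => P.Φ r z) (fun r => fderiv ℝ (P.Φ r) z (0, w)) t ht.1
    (P.traj he h2) h2 (by rw [P.flow.zero]; exact D.ne_of_H_pos h0)
    (fun s hs => P.linz he (P.ball _ (h2 s hs)) _) (by rw [P.flow.fderiv_zero]) h 0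
    ⟨le_rfl, ht.1.le⟩
  rw [P.flow.fderiv_zero] at h3
  exact congrArg Prod.snd h3

/-- short times. Sketch: `φ t = ∑ i, w i * (fderiv (Φ t) z (0, w)).1 i` vanishes at `0`, and its
derivative (`IsFlow.lin`) is continuous in `(t, z, w)` and equals `∑ G i j w i w j > 0` at `t = 0`
(`GF.fderiv_Y`, `fderiv_hv_fst`); compactness of `sh ×ˢ sphere 0 1`; scaling in `w`. -/
theorem GF.noconj_short (P : GF D e) (h1 : h₁ < e) : ∃ ε : ℝ, 0 < ε ∧ ∀ z ∈ D.sh h₀ h₁,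
    ∀ t ∈ Ioc 0 ε, ∀ w : V n, (fderiv ℝ (P.Φ t) z (0, w)).1 = 0 → w = 0 := by
  obtain ⟨ψ, hψ⟩ : ∃ ψ : ℝ × Z n × V n → ℝ, ∀ q, ψ q = ∑ i, q.2.2 i *
      (fderiv ℝ P.Y (P.Φ q.1 q.2.1) (fderiv ℝ (P.Φ q.1) q.2.1 (0, q.2.2))).1 i :=
    ⟨_, fun _ => rfl⟩
  have cψ : Continuous ψ := by
    have h2 := (((P.flow.smY.continuous_fderiv (by simp)).comp (P.flow.cont.comp
      (f := fun q : ℝ × Z n × V n => (q.1, q.2.1)) (by fun_prop))).clm_apply (TimeF_cont P)).fst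
    rw [funext hψ]
    exact continuous_finsetSum _ fun i _ => Continuous.mul (by fun_prop)
      ((continuous_apply i).comp h2)
  have h2 := ((D.isCompact_sh h₀ h₁).prod
    (isCompact_sphere (0 : V n) 1)).eventually_forall_of_forall_eventually (x₀ := (0 : ℝ))
    (P := fun t y => 0 < ψ (t, y)) fun y hy => by
      refine cψ.continuousAt.eventually (lt_mem_nhds ?_)
      rw [hψ, P.flow.zero, P.flow.fderiv_zero, P.fderiv_Y (hy.1.2.2.trans_lt h1) (P.ball _ hy.1.1)]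
      simp only [fderiv_hv_fst D.sm_H, D.dp_dp_H, Pi.zero_apply, zero_mul, zero_add, Finset.mul_sum]
      refine (D.pos y.1.1 y.2 (TimeF_ne hy.2)).trans_eq ?_
      exact Finset.sum_congr rfl fun i _ => Finset.sum_congr rfl fun j _ => by
        rw [D.symG y.1.1 j i]; ring
  obtain ⟨ε, hε, h3⟩ := Metric.eventually_nhds_iff.1 h2
  refine ⟨ε / 2, half_pos hε, fun z hz t ht w h => ?_⟩
  by_contra hw
  obtain ⟨u, hu, h4⟩ := TimeF_scale _ h hw
  have h5 : ∀ r, HasDerivAt (fun r => ∑ i, u i * (fderiv ℝ (P.Φ r) z (0, u)).1 i)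
      (ψ (r, z, u)) r := by
    intro r
    rw [hψ]
    exact HasDerivAt.fun_sum fun i _ => HasDerivAt.const_mul _
      (hasDerivAt_pi.1 ((ContinuousLinearMap.fst ℝ (V n) (V n)).hasFDerivAt.comp_hasDerivAt r
        (P.flow.lin z (0, u) r)) i)
  obtain ⟨r, hr, h6⟩ := exists_hasDerivAt_eq_zero ht.1
    (fun r _ => (h5 r).continuousAt.continuousWithinAt)
    (by simp only [P.flow.fderiv_zero, h4]) fun r _ => h5 r
  refine (h3 (y := r) ?_ (z, u) ⟨hz, hu⟩).ne' h6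
  rw [Real.dist_eq, sub_zero, abs_of_pos hr.1]
  linarith [hr.2, ht.2]

/-- Sketch: the set of `(z, t, w)` with `z ∈ sh`, `ε ≤ t ≤ Tm + 1`, `‖w‖ = 1` and
`(fderiv (Φ t) z (0, w)).1 = 0` is compact, and the continuous function `t - ex z` is positive on it
(`GF.noconj_in`, `GF.ex_cont`), so it is bounded below by some `2 δ > 0`. -/
theorem GF.noconj_ext (P : GF D e) (h0 : 0 < h₀) (h1 : h₁ < e) : ∃ δ : ℝ, 0 < δ ∧
    ∀ z ∈ D.sh h₀ h₁, ∀ t ∈ Ioc 0 (P.ex z + δ), ∀ w : V n,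
      (fderiv ℝ (P.Φ t) z (0, w)).1 = 0 → w = 0 := by
  obtain ⟨ε, hε, h2⟩ := P.noconj_short (h₀ := h₀) h1
  obtain ⟨Tm, h3⟩ := P.ex_le h0 h1
  obtain ⟨a, ha, h4⟩ := (((isCompact_Icc (a := ε) (b := Tm + 1)).prod
    ((D.isCompact_sh h₀ h₁).prod (isCompact_sphere (0 : V n) 1))).inter_right
      (isClosed_eq (TimeF_cont P).fst (continuous_const (y := 0)))).exists_forall_le'
    (f := fun q => q.1 - P.ex q.2.1) (a := 0)
    (continuousOn_fst.sub ((P.ex_cont h0 h1).comp (f := fun q : ℝ × Z n × V n => q.2.1)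
      (by fun_prop) fun q hq => hq.1.2.1))
    fun q hq => sub_pos.2 (not_le.1 fun h5 => TimeF_ne hq.1.2.2
      (P.noconj_in hq.1.2.1.1 (h0.trans_le hq.1.2.1.2.1) (hq.1.2.1.2.2.trans_lt h1)
        ⟨hε.trans_le hq.1.1.1, h5⟩ hq.2))
  refine ⟨min (a / 2) 1, lt_min (half_pos ha) one_pos, fun z hz t ht w h => ?_⟩
  rcases le_total t ε with h5 | h5
  · exact h2 z hz t ⟨ht.1, h5⟩ w h
  · by_contra hw
    obtain ⟨u, hu, h6⟩ := TimeF_scale _ h hw
    have h7 := min_le_left (a / 2) 1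
    have h8 := min_le_right (a / 2) 1
    have h9 : a ≤ t - P.ex z :=
      h4 (t, z, u) ⟨⟨⟨h5, by linarith [ht.2, h3 z hz]⟩, hz, hu⟩, h6⟩
    linarith [ht.2]

end Pool.Agent.Lib.MP_45f3cb_gt
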