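import Pool.Agent.Lib.MP_45f3cb_gt.Bdry
import Pool.Agent.Lib.MP_45f3cb_gt.Exit3
import Pool.Agent.Lib.MP_45f3cb_gt.Proj

/-!
The gauge: reduction to the class `KC`.
-/

open Set MeasureTheory

namespace Pool.Agent.Lib.MP_45f3cb_gt

variable {n d : ℕ} {D : Dom n} {e h₀ h₁ : ℝ} {κ : ℝ → ℝ} {f : Z n → ℝ}

theorem Gauge_sm (D : Dom n) (hκ : Cut κ h₀ h₁) : Sm fun z => κ (D.H z) := hκ.sm.comp D.sm_H

theorem Gauge_lb (D : Dom n) (hκ : Cut κ h₀ h₁) : LB fun z => κ (D.H z) :=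
  D.lb_H (s := h₁) fun _ hz => hκ.supp _ fun h => absurd h.2 (not_le.2 hz)

theorem Gauge_br (D : Dom n) (hκ : Cut κ h₀ h₁) {w : Z n → ℝ} {z : Z n}
    (hw : DifferentiableAt ℝ w z) :
    br D.H (fun y => κ (D.H y) * w y) z = κ (D.H z) * br D.H w z := by
  rw [br_mul ((Gauge_sm D hκ).dAt z) hw, br_comp (hκ.sm.dAt _) (D.sm_H.dAt z), br_self]
  ring

theorem Gauge_ev (D : Dom n) (hκ : Cut κ h₀ h₁) (w : Z n → ℝ) {z : Z n}
    (hz : D.H z ∉ Icc h₀ h₁) : (fun y => κ (D.H y) * w y) =ᶠ[nhds z] fun _ => 0 := by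
  filter_upwards [(isClosed_Icc.preimage D.sm_H.continuous).isOpen_compl.mem_nhds hz] with y hy
  rw [hκ.supp _ hy, zero_mul]

theorem Gauge_pos (D : Dom n) (hκ : Cut κ h₀ h₁) (hn : 0 < n) (x : V n) :
    ∃ p, 0 < κ (D.H (x, p)) * κ (D.H (x, p)) :=
  (hκ.fib D.toMet hn x).imp fun _ hp => mul_self_pos.2 hp

theorem Gauge_top (k : ℕ) : (k : WithTop ℕ∞) ≤ ((⊤ : ℕ∞) : WithTop ℕ∞) := by
  exact_mod_cast le_top

theorem Gauge_le {k l : ℕ} (h : k ≤ l) : (k : WithTop ℕ∞) ≤ (l : WithTop ℕ∞) := by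
  exact_mod_cast h

/-- Sketch: `GF.bdry` with the exponent `k + 3` gives `h'`, `a`. `F z = min (b z.1) 0 ^ (k + 3) * a z`
is `C^(k+2)` (`contDiff_min_pow`), vanishes for `b > 0`, equals `f - br H h'` over `M`, and satisfies
`Seg` (`Dom.Seg.gauge`). `u = κ(H) * sol F` is `C^(k+2)` (`GF.sol_contDiffAt`; near points with
`H ∉ [h₀, h₁]` it vanishes) with `br H u = κ(H) F` (`GF.br_sol`). `exists_proj` with `ω = κ(H)²`,
`U = κ(H) u` gives `π`; `π = 0` for `b > 0` (`proj_eq` with `q = 0`), hence for `b = 0`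
(`Dom.zero_pos`). Take `h = h' + π`, `v = u - κ(H) π`, `f' = F - br H π`; `GF.sol_gauge`. -/
theorem GF.gauge_k (P : GF D e) (hn : 0 < n) (hκ : Cut κ h₀ h₁) (h1 : h₁ < e) (hf : Sm f)
    (hp : FP (d + 1) f) (hS : D.Seg f) (k : ℕ) : ∃ h v f' : Z n → ℝ,
      ContDiff ℝ (k + 1 : ℕ) h ∧ ContDiff ℝ (k + 1 : ℕ) v ∧ ContDiff ℝ (k + 1 : ℕ) f' ∧ FP d h ∧
      FP (d + 1) f' ∧ (∀ z : Z n, D.b z.1 = 0 → h z = 0) ∧
      (∀ z : Z n, D.b z.1 ≤ 0 → v z = κ (D.H z) * (P.sol f z - h z) ∧ f' z = f z - br D.H h z) ∧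
      (∀ z : Z n, 0 < D.b z.1 → v z = 0 ∧ f' z = 0) ∧
      (∀ z, br D.H v z = κ (D.H z) * f' z) ∧ Orth d fun z => κ (D.H z) * v z := by
  have he : 0 < e := (hκ.pos.trans_le hκ.le).trans h1
  obtain ⟨h', a, a1, a2, a3, a4, a5, a6⟩ := P.bdry he hf hp hS (k + 2 + 1)
  obtain ⟨F, hF⟩ : ∃ F : Z n → ℝ, F = fun z => min (D.b z.1) 0 ^ (k + 2 + 1) * a z := ⟨_, rfl⟩
  have f1 : ContDiff ℝ (k + 2 : ℕ) F := by
    rw [hF]
    exact ((contDiff_min_pow (k + 2)).comp (D.sm_bz.of_le (Gauge_top _))).mul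
      (a3.of_le (Gauge_top _))
  have f2 : ∀ z : Z n, 0 < D.b z.1 → F z = 0 := fun z hz => by
    simp only [hF, min_eq_right hz.le, pow_succ, mul_zero, zero_mul]
  have f3 : ∀ z : Z n, D.b z.1 ≤ 0 → F z = f z - br D.H h' z := fun z hz => by
    simp only [hF, min_eq_left hz, a6]
  have f4 : FP (d + 1) F := by
    rw [hF]
    exact a4.fst_mul fun x => min (D.b x) 0 ^ (k + 2 + 1)
  have a7 : ContDiff ℝ 1 h' := a1.of_le (Gauge_top 1)
  have f5 : D.Seg F := hS.gauge hf.continuous a7 a5 f3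
  have s1 : ∀ z : Z n, D.H z ∈ Icc h₀ h₁ → ContDiffAt ℝ (k + 2 : ℕ) (P.sol F) z := fun z hz =>
    P.sol_contDiffAt f1 f2 f5 (hκ.pos.trans_le hz.1) (hz.2.trans_lt h1)
  have s2 : ∀ z : Z n, 0 < D.b z.1 → P.sol F z = 0 := fun z hz => if_neg (not_le.2 hz)
  have kk : ContDiff ℝ (k + 2 : ℕ) fun z => κ (D.H z) := (Gauge_sm D hκ).of_le (Gauge_top _)
  have n2 : ((k + 2 : ℕ) : WithTop ℕ∞) ≠ 0 := Nat.cast_ne_zero.2 (Nat.succ_ne_zero _)
  have u1 : ContDiff ℝ (k + 2 : ℕ) fun z => κ (D.H z) * P.sol F z := by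
    refine contDiff_iff_contDiffAt.2 fun z => ?_
    by_cases hz : D.H z ∈ Icc h₀ h₁
    · exact kk.contDiffAt.mul (s1 z hz)
    · exact contDiffAt_const.congr_of_eventuallyEq (Gauge_ev D hκ _ hz)
  have u2 : ∀ z, br D.H (fun z => κ (D.H z) * P.sol F z) z = κ (D.H z) * F z := fun z => by
    by_cases hz : D.H z ∈ Icc h₀ h₁
    · rw [Gauge_br D hκ ((s1 z hz).differentiableAt n2), P.br_sol
        (f1.of_le (Gauge_le (k := 1) (by omega))) f2 f5 (hκ.pos.trans_le hz.1) (hz.2.trans_lt h1)]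
    · rw [br_congr (Gauge_ev D hκ _ hz), br_const, hκ.supp _ hz, zero_mul]
  have w1 : Sm fun z => κ (D.H z) * κ (D.H z) := (Gauge_sm D hκ).mul (Gauge_sm D hκ)
  have w2 : LB fun z => κ (D.H z) * κ (D.H z) := (Gauge_lb D hκ).mul_right
  obtain ⟨π, p1, p2, p3⟩ := exists_proj (d := d)
    (U := fun z => κ (D.H z) * (κ (D.H z) * P.sol F z)) w1 w2 (fun z => mul_self_nonneg _)
    (Gauge_pos D hκ hn) (kk.mul u1).continuous (Gauge_lb D hκ).mul_right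
  have p4 : ContDiff ℝ (k + 2 : ℕ) π := p1 _ (kk.mul u1)
  have p5 : ∀ z : Z n, 0 < D.b z.1 → π z = 0 := fun z hz =>
    proj_eq w1.continuous w2 (fun z => mul_self_nonneg _) p2 p3 (Gauge_pos D hκ hn z.1)
      (q := fun _ => 0) (HP n d).zero_mem (fun p => by simp only [s2 (z.1, p) hz, mul_zero]) z.2
  have p6 : Differentiable ℝ π := p4.differentiable n2
  have hle := Gauge_le (Nat.le_succ (k + 1))
  refine ⟨fun z => h' z + π z, fun z => κ (D.H z) * P.sol F z - κ (D.H z) * π z,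
    fun z => F z - br D.H π z, (a1.of_le (Gauge_top _)).add (p4.of_le hle),
    (u1.sub (kk.mul p4)).of_le hle, (f1.of_le hle).sub (contDiff_br D.sm_H p4), a2.add p2,
    f4.sub (p2.br_H D.toMet p6), fun z hz => ?_, fun z hz => ⟨?_, ?_⟩, fun z hz => ⟨?_, ?_⟩,
    fun z => ?_, ?_⟩
  · simp only [a5 z hz, D.zero_pos p4.continuous p5 hz.ge, add_zero]
  · by_cases hH : D.H z ∈ Icc h₀ h₁
    · simp only [P.sol_gauge hf.continuous a7 a5 f3 hz (hκ.pos.trans_le hH.1) (hH.2.trans_lt h1)]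
      ring
    · simp only [hκ.supp _ hH, zero_mul, sub_zero]
  · simp only [f3 z hz, br_add (a1.dAt z) (p6 z)]
    ring
  · simp only [s2 z hz, p5 z hz, mul_zero, sub_zero]
  · simp only [f2 z hz, br_eq, D.fderiv_pos (p4.of_le (Gauge_le (k := 1) (by omega))) p5 hz.le,
      zero_apply, sub_zero]
  · rw [br_sub (u1.differentiable n2 z) ((kk.mul p4).differentiable n2 z), u2,
      Gauge_br D hκ (p6 z)]
    ring
  · convert p3 using 2 with z
    ring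

/-- Sketch: for two levels `k`, `l` and `x ∈ M`, `κ² (h_k - h_l) = κ v_l - κ v_k` is orthogonal to
`HP n d`, so `h_k = h_l` over `M` (`proj_unique`; the fibre functions `κ v` are continuous with compact
support), `v_k = v_l`, and `f_k = f_l` since `κ f_k = κ f_l` and `{κ (H) ≠ 0}` is open and nonempty in
each fibre (`HP_eq`). Take the objects of level `0`; `contDiff_infty`, `contDiffOn_infty`. -/
theorem GF.gauge (P : GF D e) (hn : 0 < n) (hκ : Cut κ h₀ h₁) (h1 : h₁ < e) (hf : Sm f)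
    (hp : FP (d + 1) f) (hS : D.Seg f) : ∃ h v f' : Z n → ℝ, KC D d κ h₀ h₁ v f' ∧ FP d h ∧
      Continuous h ∧ ContDiffOn ℝ (⊤ : ℕ∞) h ({x | D.b x ≤ 0} ×ˢ univ) ∧
      (∀ z : Z n, D.b z.1 = 0 → h z = 0) ∧
      ∀ z : Z n, D.b z.1 ≤ 0 → v z = κ (D.H z) * (P.sol f z - h z) ∧ f' z = f z - br D.H h z := by
  choose h v f' c1 c2 c3 c4 c5 c6 c7 c8 c9 c10 using P.gauge_k hn hκ h1 hf hp hS
  have kc := (Gauge_sm D hκ).continuous
  have e1 : ∀ k (z : Z n), D.b z.1 ≤ 0 → h k z = h 0 z := by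
    intro k z hz
    have hq : (fun p => h k (z.1, p) - h 0 (z.1, p)) ∈ HP n d := (c4 k).sub (c4 0) z.1
    have hi := fun l => Proj_int (F := fun z => κ (D.H z) * v l z) (kc.mul (c2 l).continuous)
      (Gauge_lb D hκ).mul_right z.1 (HP_sm hq).continuous
    refine sub_eq_zero.1 (proj_unique (ω := fun z => κ (D.H z) * κ (D.H z)) (kc.mul kc)
      (Gauge_lb D hκ).mul_right (fun z => mul_self_nonneg _) (Gauge_pos D hκ hn z.1) hq ?_ z.2)
    have h2 := integral_sub (hi 0) (hi k)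
    rw [c10 0 z.1 _ hq, c10 k z.1 _ hq, sub_zero] at h2
    rw [← h2]
    refine integral_congr_ae (Filter.Eventually.of_forall fun p => ?_)
    simp only [(c7 0 (z.1, p) hz).1, (c7 k (z.1, p) hz).1]
    ring
  have e2 : ∀ k, v k = v 0 := fun k => funext fun z => by
    rcases le_or_gt (D.b z.1) 0 with hz | hz
    · rw [(c7 k z hz).1, (c7 0 z hz).1, e1 k z hz]
    · rw [(c8 k z hz).1, (c8 0 z hz).1]
  have e3 : ∀ k, f' k = f' 0 := fun k => funext fun z =>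
    HP_eq (c5 k z.1) (c5 0 z.1) (O := {p | κ (D.H (z.1, p)) ≠ 0})
      (isOpen_ne_fun (kc.comp (Continuous.prodMk_right z.1)) continuous_const)
      (hκ.fib D.toMet hn z.1)
      (fun p hp => mul_left_cancel₀ hp (by rw [← c9 k, ← c9 0, e2 k])) z.2
  have hle := fun k => Gauge_le (Nat.le_succ k)
  refine ⟨h 0, v 0, f' 0, ⟨contDiff_infty.2 fun k => e2 k ▸ (c2 k).of_le (hle k),
    contDiff_infty.2 fun k => e3 k ▸ (c3 k).of_le (hle k), c5 0, fun z hz => ?_,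
    fun z hz => (c8 0 z hz).2, c9 0, c10 0⟩, c4 0, (c1 0).continuous,
    contDiffOn_infty.2 fun k => ((c1 k).of_le (hle k)).contDiffOn.congr
      fun z hz => (e1 k z hz.1).symm, c6 0, c7 0⟩
  rcases le_or_gt (D.b z.1) 0 with hb | hb
  · rw [(c7 0 z hb).1, hκ.supp _ fun h2 => hz ⟨hb, h2⟩, zero_mul]
  · exact (c8 0 z hb).1

end Pool.Agent.Lib.MP_45f3cb_gt
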