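import Pool.Agent.Lib.MP_45f3cb_gt.Tr1
import Pool.Agent.Lib.MP_45f3cb_gt.FlowD

/-!
The Hamiltonian form of the hypotheses.
-/

open Set MeasureTheory

namespace Pool.Agent.Lib.MP_45f3cb_gt

variable {n : ℕ} {g : V n → Matrix (Fin n) (Fin n) ℝ} {b : V n → ℝ}

theorem Tr2_alg (v B : Fin n → ℝ) (S : Fin n → Fin n → ℝ) (Γ : Fin n → Fin n → Fin n → ℝ) :
    ∑ i, (v i * ∑ j, v j * S i j + (-∑ a, ∑ c, Γ i a c * v a * v c) * B i) =
      ∑ i, ∑ j, (S i j - ∑ k, Γ k i j * B k) * v i * v j := by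
  have e1 : ∑ i, v i * ∑ j, v j * S i j = ∑ i, ∑ j, S i j * v i * v j :=
    Finset.sum_congr rfl fun i _ => by
      rw [Finset.mul_sum]
      exact Finset.sum_congr rfl fun j _ => by ring
  have e2 : ∑ k, (∑ a, ∑ c, Γ k a c * v a * v c) * B k =
      ∑ i, ∑ j, (∑ k, Γ k i j * B k) * v i * v j := by
    simp only [Finset.sum_mul]
    rw [Finset.sum_comm]
    refine Finset.sum_congr rfl fun i _ => ?_
    rw [Finset.sum_comm]
    exact Finset.sum_congr rfl fun j _ => Finset.sum_congr rfl fun k _ => by ring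
  simp only [neg_mul, Finset.sum_add_distrib, Finset.sum_neg_distrib, sub_mul,
    Finset.sum_sub_distrib]
  rw [e1, e2, sub_eq_add_neg]

theorem Tr2_lie {v p ξ : Fin n → ℝ} {m dξ : Fin n → Fin n → ℝ} {dg : Fin n → Fin n → Fin n → ℝ}
    (hs : ∀ i j, m i j = m j i) (hp : ∀ k, ∑ j, m k j * v j = p k)
    (h0 : ∀ i j, ∑ k, (ξ k * dg k i j + m k j * dξ i k + m i k * dξ j k) = 0) :
    ∑ i, (v i * ∑ j, p j * dξ i j - 1 / 2 * -(∑ a, ∑ c, dg i a c * v a * v c) * ξ i) = 0 := by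
  have e0 : ∑ i, ∑ j, (∑ k, (ξ k * dg k i j + m k j * dξ i k + m i k * dξ j k)) * v i * v j = 0 := by
    simp only [h0, zero_mul, Finset.sum_const_zero]
  have e1 : ∑ i, ∑ j, ∑ k, ξ k * dg k i j * v i * v j =
      ∑ i, (∑ a, ∑ c, dg i a c * v a * v c) * ξ i := by
    simp only [Finset.sum_mul]
    symm
    rw [Finset.sum_comm]
    refine Finset.sum_congr rfl fun i _ => ?_
    rw [Finset.sum_comm]
    exact Finset.sum_congr rfl fun j _ => Finset.sum_congr rfl fun k _ => by ring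
  have e2 : ∑ i, ∑ j, ∑ k, m k j * dξ i k * v i * v j = ∑ i, v i * ∑ j, p j * dξ i j := by
    refine Finset.sum_congr rfl fun i _ => ?_
    rw [Finset.sum_comm, Finset.mul_sum]
    refine Finset.sum_congr rfl fun k _ => ?_
    rw [← hp, Finset.sum_mul, Finset.mul_sum]
    exact Finset.sum_congr rfl fun j _ => by ring
  have e3 : ∑ i, ∑ j, ∑ k, m i k * dξ j k * v i * v j = ∑ i, v i * ∑ j, p j * dξ i j := by
    rw [Finset.sum_comm, ← e2]
    exact Finset.sum_congr rfl fun i _ => Finset.sum_congr rfl fun j _ =>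
      Finset.sum_congr rfl fun k _ => by rw [hs j k]; ring
  simp only [Finset.sum_mul, add_mul, Finset.sum_add_distrib] at e0
  rw [e1, e2, e3] at e0
  have e4 : ∑ i, 1 / 2 * -(∑ a, ∑ c, dg i a c * v a * v c) * ξ i =
      -(1 / 2) * ∑ i, (∑ a, ∑ c, dg i a c * v a * v c) * ξ i := by
    rw [Finset.mul_sum]
    exact Finset.sum_congr rfl fun i _ => by ring
  rw [Finset.sum_sub_distrib, e4]
  linarith

theorem Tr2_dG {p : Fin n → ℝ} {G d : Fin n → Fin n → ℝ} (hs : ∀ i j, G i j = G j i) :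
    ∑ j, ∑ k, (-∑ a, ∑ c, G j a * d a c * G c k) * p j * p k =
      -∑ a, ∑ c, d a c * (∑ j, G a j * p j) * ∑ k, G c k * p k := by
  simp only [neg_mul, Finset.sum_neg_distrib, Finset.sum_mul, Finset.mul_sum]
  refine congrArg Neg.neg ?_
  have s3 : ∀ F : Fin n → Fin n → Fin n → ℝ, ∑ k, ∑ a, ∑ c, F k a c = ∑ a, ∑ c, ∑ k, F k a c :=
    fun F => Finset.sum_comm.trans (Finset.sum_congr rfl fun a _ => Finset.sum_comm)
  have e : ∀ f : Fin n → Fin n → Fin n → Fin n → ℝ,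
      ∑ j, ∑ k, ∑ a, ∑ c, f j k a c = ∑ a, ∑ c, ∑ k, ∑ j, f j k a c := fun f =>
    (Finset.sum_congr rfl fun j _ => s3 (f j)).trans ((s3 fun j a c => ∑ k, f j k a c).trans
      (Finset.sum_congr rfl fun a _ => Finset.sum_congr rfl fun c _ => Finset.sum_comm))
  rw [e]
  exact Finset.sum_congr rfl fun a _ => Finset.sum_congr rfl fun c _ =>
    Finset.sum_congr rfl fun k _ => Finset.sum_congr rfl fun j _ => by rw [hs j a]; ring

theorem Tr2_ev {m : ℕ} (T : (Fin m → Fin n) → ℝ) (r : ℝ) (v : V n) :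
    ev T (r • v) = r ^ m * ev T v := by
  unfold ev
  rw [Finset.mul_sum]
  refine Finset.sum_congr rfl fun a _ => ?_
  simp only [Pi.smul_apply, smul_eq_mul, Finset.prod_mul_distrib, Finset.prod_const,
    Finset.card_univ, Fintype.card_fin]
  ring

theorem Tr2_up (A : Met n) (x p : V n) (r : ℝ) : (A.up (x, r • p)).2 = r • (A.up (x, p)).2 := by
  funext i
  simp only [Met.up, Pi.smul_apply, smul_eq_mul, Finset.mul_sum]
  exact Finset.sum_congr rfl fun j _ => by ring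

/-- `br H b = ℓ ∘ up` with `ℓ w = ∑ pd i b w.1 * w.2 i`; `Met.br_up`, `fderiv_eq_sum` -/
theorem Met.br_br_fst (A : Met n) (hg : ∀ x i j, g x i j = A.g x i j) (hb : Sm b) (z : Z n) :
    br A.H (fun w => b w.1) z = ∑ i, pd i b z.1 * (A.up z).2 i ∧
    br A.H (br A.H fun w => b w.1) z = ∑ i, ∑ j,
      (pd i (pd j b) z.1 - ∑ k, chr g z.1 k i j * pd k b z.1) * (A.up z).2 i * (A.up z).2 j := by
  have h1 : ∀ z : Z n, br A.H (fun w => b w.1) z = ∑ i, pd i b z.1 * (A.up z).2 i := fun z => by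
    rw [br_fst (hb.dAt _)]
    exact Finset.sum_congr rfl fun i _ => by rw [A.dp_H, mul_comm]; rfl
  refine ⟨h1 z, ?_⟩
  have hξ : Sm fun x i => pd i b x := contDiff_pi.2 fun i => hb.pd i
  have e : (br A.H fun w => b w.1) = fun w => lin (fun x i => pd i b x) (A.up w) :=
    funext fun w => (h1 w).trans (Finset.sum_congr rfl fun i _ => mul_comm _ _)
  rw [e, A.br_up hg ((sm_lin hξ).dAt _), fderiv_eq_sum, ← Tr2_alg]
  refine Finset.sum_congr rfl fun i _ => ?_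
  rw [dx_lin hξ, dp_lin hξ]
  rfl

/-- Sketch for `noconj`: `(J, J') = fderiv up (c t) (Y t)` is a Jacobi field (`lin_related`,
`Met.up_rel`) with `J = Y.1`, so `Y.1 = 0` on `[0, T]`; then its derivative vanishes on `[0, T]`
(`uniqueDiffOn_Icc`), which is `∑ G i j * Y.2 j = 0` (`fderiv_hv_fst`, `Met.dp_dp_H`), so `Y.2 = 0`
(`Met.up_ne`). -/
theorem exists_dom (h : SimpleDomain g b) :
    ∃ D : Dom n, D.b = b ∧ ∀ x i j, g x i j = D.g x i j := by
  obtain ⟨A, hg⟩ := exists_met h.smooth_g h.pos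
  refine ⟨⟨A, b, h.smooth_b, h.compact, h.regular, fun z hb hz h0 => ?_, fun c hc h0 => ?_,
    fun c Y T hT hc hb h0 hY hY0 hYT => ?_, fun x y hx hy => ?_⟩, rfl, hg⟩
  · obtain ⟨e1, e2⟩ := A.br_br_fst hg h.smooth_b z
    rw [e2]
    exact h.convex z.1 _ hb (A.up_ne hz) (e1 ▸ h0)
  · exact h.nontrap _ _ (A.geod_of_traj hg hc) (A.up_ne h0)
  · have h1 := h.noconj _ _ (fun t => (fderiv ℝ A.up (c t) (Y t)).1)
      (fun t => (fderiv ℝ A.up (c t) (Y t)).2) T hT (A.geod_of_traj hg hc) hb (A.up_ne h0)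
      (fun t ht => lin_related A.sm_up A.sm_H.hv (A.sm_spray hg) (A.up_rel hg) (hc t ht) (hY t ht))
      ((A.fderiv_up_fst _ _).trans hY0) ((A.fderiv_up_fst _ _).trans hYT)
    have h2 : ∀ t ∈ Icc 0 T, (Y t).1 = 0 := fun t ht => (A.fderiv_up_fst _ _).symm.trans (h1 t ht)
    intro t ht
    have h3 : HasDerivWithinAt (fun r => (Y r).1) (fderiv ℝ (hv A.H) (c t) (Y t)).1 (Icc 0 T) t :=
      ((ContinuousLinearMap.fst ℝ (V n) (V n)).hasFDerivAt.comp_hasDerivAt t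
        (hY t ht)).hasDerivWithinAt
    have h4 : HasDerivWithinAt (fun r => (Y r).1) 0 (Icc 0 T) t :=
      (hasDerivWithinAt_const t (Icc 0 T) (0 : V n)).congr h2 (h2 t ht)
    have h5 := (uniqueDiffOn_Icc hT t ht).eq_deriv _ h3 h4
    refine Prod.ext (h2 t ht) ?_
    by_contra h6
    refine A.up_ne (z := ((c t).1, (Y t).2)) h6 (funext fun i => ?_)
    have h7 := congrFun h5 i
    rw [fderiv_hv_fst A.sm_H, h2 t ht] at h7
    change ∑ j, A.G (c t).1 i j * (Y t).2 j = 0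
    refine Eq.trans (Finset.sum_congr rfl fun j _ => ?_) h7
    rw [A.dp_dp_H, Pi.zero_apply, zero_mul, zero_add, mul_comm, A.symG]
  · obtain ⟨γ, γ', h1, h2, h3, h4⟩ := h.join x y hx hy
    exact ⟨_, A.traj_of_geod hg h1, h2, h3, h4⟩

/-- `br H (lin ξ) z = (1 / 2) ∑ lieG i j v i v j` with `v = G p` (`Met.dp_H`, `Met.dx_H`, `dp_lin`,
`dx_lin`, `Met.pd_G`) -/
theorem kil_of_lie (D : Dom n) (hg : ∀ x i j, g x i j = D.g x i j) {ξ : V n → V n} (hξ : Sm ξ)
    (h : ∀ x, D.b x ≤ 0 → ∀ i j, lieG g ξ x i j = 0) : Kil D ξ := by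
  refine ⟨hξ, fun z hz => ?_⟩
  have e : ∀ i j, (fun y => g y i j) = fun y => D.g y i j := fun i j => funext fun y => hg y i j
  have h0 := h z.1 hz
  simp only [lieG, e] at h0
  simp only [hg] at h0
  refine Eq.trans (Finset.sum_congr rfl fun i _ => ?_) (Tr2_lie (v := (D.up z).2) (p := z.2)
    (D.symg z.1) (fun k => congrFun (congrArg Prod.snd (D.dn_up z)) k) h0)
  rw [D.dp_H, D.dx_H, dp_lin hξ, dx_lin hξ]
  simp only [D.pd_G]
  rw [Tr2_dG (D.symG z.1)]
  rfl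

/-- Sketch: `H` is a constant `a > 0` on the trajectory (`Traj.H_const`); rescale with
`r = (2 a) ^ (-1/2)` (`Traj.scale`) to a unit speed geodesic on `[0, T / r]` (`Met.geod_of_traj`,
`Met.g_up`); `ev T (r • v) = r ^ m * ev T v`; `intervalIntegral.integral_comp_mul_left`. -/
theorem seg_of_ray (D : Dom n) (hg : ∀ x i j, g x i j = D.g x i j) {m : ℕ}
    {f : V n → (Fin m → Fin n) → ℝ} (h : RayZero g D.b f) :
    D.Seg fun z => ev (f z.1) (D.up z).2 := by
  intro c T hT hc hb hb0 hbT h0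
  have ha : 0 < 2 * D.H (c 0) := mul_pos two_pos (D.H_pos h0)
  obtain ⟨r, hr, hr2⟩ : ∃ r : ℝ, 0 < r ∧ 2 * (r ^ 2 * D.H (c 0)) = 1 := by
    refine ⟨(√(2 * D.H (c 0)))⁻¹, inv_pos.2 (Real.sqrt_pos.2 ha), ?_⟩
    rw [inv_pow, Real.sq_sqrt ha.le, mul_left_comm, inv_mul_cancel₀ ha.ne']
  have hT' : r * (T / r) = T := mul_div_cancel₀ T hr.ne'
  have hm : ∀ t ∈ Icc 0 (T / r), r * t ∈ Icc 0 T := fun t ht =>
    ⟨mul_nonneg hr.le ht.1, (mul_le_mul_of_nonneg_left ht.2 hr.le).trans_eq hT'⟩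
  have h1 : Traj D.H (fun t => ((c (r * t)).1, r • (c (r * t)).2)) (Icc 0 (T / r)) :=
    fun t ht => hc.scale D.toMet r t (hm t ht)
  have h2 := h _ _ _ (div_pos hT hr) (D.geod_of_traj hg h1) (fun t ht => hb _ (hm t ht))
    (by simpa only [mul_zero] using hb0) (by simpa only [hT'] using hbT) fun t ht => by
      simp only [hg]
      rw [D.g_up ((c (r * t)).1, r • (c (r * t)).2), D.H_smul, hc.H_const D.toMet _ (hm t ht), hr2]
  simp only [Tr2_up, Tr2_ev] at h2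
  rw [intervalIntegral.integral_const_mul, intervalIntegral.integral_comp_mul_left
    (fun s => ev (f (c s).1) (D.up ((c s).1, (c s).2)).2) hr.ne', mul_zero, hT', smul_eq_mul] at h2
  exact (mul_eq_zero.1 ((mul_eq_zero.1 h2).resolve_left (pow_pos hr m).ne')).resolve_left
    (inv_pos.2 hr).ne'

end Pool.Agent.Lib.MP_45f3cb_gt
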