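import Pool.Agent.Lib.MP_45f3cb_gt.Tr1

/-!
Symmetric tensors and homogeneous polynomials.
-/

open Set MeasureTheory

namespace Pool.Agent.Lib.MP_45f3cb_gt

variable {n m d : ℕ}

theorem ev_mem (T : (Fin m → Fin n) → ℝ) : ev T ∈ HP n m := by
  exact polyA_sum fun a => polyA_smul (polyA_mon a) (T a)

theorem isSym_symm (T : (Fin m → Fin n) → ℝ) : IsSym (symm T) := by
  intro σ a
  unfold symm
  congr 1
  exact Equiv.sum_comp (Equiv.mulLeft σ) fun τ : Equiv.Perm (Fin m) => T (a ∘ τ)

theorem ev_symm (T : (Fin m → Fin n) → ℝ) (v : V n) : ev (symm T) v = ev T v := by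
  have h : ∀ σ : Equiv.Perm (Fin m), ∑ a : Fin m → Fin n, T (a ∘ σ) * ∏ j, v (a j) = ev T v := by
    intro σ
    refine Eq.trans (Finset.sum_congr rfl fun a _ => ?_) (Equiv.sum_comp
      (Equiv.arrowCongr σ.symm (Equiv.refl (Fin n))) fun b => T b * ∏ j, v (b j))
    rw [← Equiv.prod_comp σ]
    rfl
  have h0 : (m.factorial : ℝ) ≠ 0 := Nat.cast_ne_zero.2 m.factorial_ne_zero
  simp only [ev, symm, mul_assoc, ← Finset.mul_sum, Finset.sum_mul]
  rw [Finset.sum_comm]
  simp only [h, Finset.sum_const, Finset.card_univ, Fintype.card_perm, Fintype.card_fin,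
    nsmul_eq_mul, ev]
  field_simp

theorem exists_sym {q : V n → ℝ} (h : q ∈ HP n m) :
    ∃ T : (Fin m → Fin n) → ℝ, IsSym T ∧ ∀ v, ev T v = q v := by
  obtain ⟨c, hc⟩ := (Submodule.mem_span_range_iff_exists_fun ℝ).1 h
  refine ⟨symm c, isSym_symm c, fun v => ?_⟩
  rw [ev_symm, ← hc]
  simp [ev]

/-- polarisation. Sketch: for `S - T` consider the continuous multilinear map
`w ↦ ∑ a, (S a - T a) * ∏ j, w j (a j)`; its diagonal vanishes;
`ContinuousMultilinearMap.iteratedFDeriv_comp_diagonal` evaluated at `w j = Pi.single (a j) 1` gives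
`m! * (S a - T a) = 0`. -/
theorem sym_ext {S T : (Fin m → Fin n) → ℝ} (hS : IsSym S) (hT : IsSym T)
    (h : ∀ v, ev S v = ev T v) : S = T := by
  classical
  obtain ⟨f, hf⟩ : ∃ f : ContinuousMultilinearMap ℝ (fun _ : Fin m => V n) ℝ,
      ∀ w, f w = ∑ a, (S a - T a) * ∏ j, w j (a j) :=
    ⟨∑ a : Fin m → Fin n, (S a - T a) • (ContinuousMultilinearMap.mkPiAlgebra ℝ (Fin m)
      ℝ).compContinuousLinearMap fun j => ContinuousLinearMap.proj (a j), fun w => by simp⟩
  have h1 : (fun x : V n => f fun _ => x) = fun _ => 0 := by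
    funext x
    rw [hf, ← sub_eq_zero.2 (h x)]
    simp only [ev, sub_mul, Finset.sum_sub_distrib]
  have h2 : ∀ b : Fin m → Fin n, f (fun j => Pi.single (b j) 1) = S b - T b := by
    intro b
    rw [hf, Finset.sum_eq_single b]
    · simp
    · intro a _ hab
      obtain ⟨j, hj⟩ := Function.ne_iff.1 hab
      rw [Finset.prod_eq_zero (Finset.mem_univ j) (Pi.single_eq_of_ne hj _), mul_zero]
    · simp
  funext b
  have h3 := f.iteratedFDeriv_comp_diagonal 0 fun j => Pi.single (b j) 1
  have h4 : ∀ σ : Equiv.Perm (Fin m), f (fun j => Pi.single (b (σ j)) 1) = S b - T b := fun σ => by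
    rw [← hS σ b, ← hT σ b]
    exact h2 (b ∘ σ)
  rw [h1] at h3
  simp only [h4, Finset.sum_const, Finset.card_univ, Fintype.card_perm, Fintype.card_fin,
    nsmul_eq_mul, iteratedFDeriv_fun_zero, Pi.zero_apply, zero_apply] at h3
  exact sub_eq_zero.1 ((mul_eq_zero.1 h3.symm).resolve_left
    (Nat.cast_ne_zero.2 m.factorial_ne_zero))

theorem tr3_swap (j : Fin d) (F : (Fin d → Fin n) → Fin n → ℝ) :
    ∑ a, ∑ k, F a k = ∑ a, ∑ k, F (Function.update a j k) (a j) := by
  rw [← Fintype.sum_prod_type', ← Fintype.sum_prod_type']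
  refine (Function.Involutive.bijective (f := fun p : (Fin d → Fin n) × Fin n =>
    (Function.update p.1 j p.2, p.1 j)) fun p => by simp).sum_comp
      (fun p => F p.1 p.2) |>.symm

/-- Sketch: `fderiv_eq_sum`; `dx i` gives `∑ a, pd i (h · a) x * ∏ v`; `dp k` of the product gives
`∑ j, [a j = k] ∏ l ≠ j, v (a l)`. On the left split `a = Fin.cons i a'` (`Fin.consEquiv`,
`Fin.prod_univ_succ`); for fixed `j` reindex the sum over `(a', k)` by the involution
`(a', k) ↦ (update a' j k, a' j)`. -/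
theorem ev_cov (g : V n → Matrix (Fin n) (Fin n) ℝ) {h : V n → (Fin d → Fin n) → ℝ} {x : V n}
    (hd : ∀ a, DifferentiableAt ℝ (fun y => h y a) x) (v : V n) :
    ev (cov g h x) v = fderiv ℝ (fun w : Z n => ev (h w.1) w.2) (x, v) (spray g (x, v)) := by
  classical
  have h1 : ∀ a : Fin d → Fin n, HasFDerivAt (fun w : Z n => h w.1 a * ∏ j, w.2 (a j)) _ (x, v) :=
    fun a => (HasFDerivAt.comp (x, v) (g := fun y => h y a) (hd a).hasFDerivAt
      hasFDerivAt_fst).mul (HasFDerivAt.finsetProd (u := Finset.univ)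
        (g := fun j (w : Z n) => w.2 (a j)) fun j _ =>
          ((ContinuousLinearMap.proj (a j) : V n →L[ℝ] ℝ).comp
            (ContinuousLinearMap.snd ℝ (V n) (V n))).hasFDerivAt)
  have h2 := (HasFDerivAt.fun_sum (u := Finset.univ) fun a _ => h1 a).fderiv
  have ht : ∀ (i : Fin n) (a : Fin d → Fin n),
      Fin.tail ((Fin.consEquiv fun _ => Fin n) (i, a)) = a := fun _ _ => rfl
  unfold ev
  rw [h2, ← (Fin.consEquiv fun _ => Fin n).sum_comp, Fintype.sum_prod_type, Finset.sum_comm]
  simp only [FunLike.coe_sum, Finset.sum_apply, add_apply,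
    smul_apply, ContinuousLinearMap.comp_apply, ContinuousLinearMap.coe_fst',
    ContinuousLinearMap.coe_snd', ContinuousLinearMap.proj_apply, smul_eq_mul, spray,
    Function.comp, fderiv_eq_sum_pd, cov, Fin.consEquiv_apply, Fin.cons_zero, Fin.cons_succ,
    ht, Fin.prod_univ_succ, sub_mul, Finset.sum_sub_distrib, Finset.sum_add_distrib]
  rw [sub_eq_add_neg, add_comm]
  congr 1
  · have h3 : ∀ j : Fin d, ∑ a : Fin d → Fin n, ∑ k, ∑ i,
        chr g x k i (a j) * h x (Function.update a j k) * (v i * ∏ l, v (a l)) =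
        ∑ a : Fin d → Fin n, ∑ k, ∑ i, h x a * ((∏ l ∈ Finset.univ.erase j, v (a l)) *
          (chr g x (a j) i k * v i * v k)) := by
      intro j
      rw [tr3_swap j]
      refine Finset.sum_congr rfl fun a _ => Finset.sum_congr rfl fun k _ =>
        Finset.sum_congr rfl fun i _ => ?_
      have e : ∏ l ∈ Finset.univ.erase j, v (Function.update a j k l) =
          ∏ l ∈ Finset.univ.erase j, v (a l) :=
        Finset.prod_congr rfl fun l hl => by rw [Function.update_of_ne (Finset.mem_erase.1 hl).1]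
      rw [← Finset.mul_prod_erase _ _ (Finset.mem_univ j), e]
      simp only [Function.update_self, Function.update_idem, Function.update_eq_self]
      ring
    simp only [Finset.sum_mul, mul_neg, Finset.sum_neg_distrib, Finset.mul_sum, neg_inj]
    calc _ = ∑ a : Fin d → Fin n, ∑ j, ∑ k, ∑ i,
          chr g x k i (a j) * h x (Function.update a j k) * (v i * ∏ l, v (a l)) :=
          Finset.sum_congr rfl fun a _ => Finset.sum_comm.trans
            (Finset.sum_congr rfl fun j _ => Finset.sum_comm)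
      _ = _ := by
          rw [Finset.sum_comm]
          simp only [h3]
          rw [Finset.sum_comm]
          exact Finset.sum_congr rfl fun a _ => Finset.sum_congr rfl fun j _ => Finset.sum_comm
  · refine Finset.sum_congr rfl fun a _ => ?_
    rw [Finset.mul_sum]
    exact Finset.sum_congr rfl fun i _ => by ring

/-- Sketch: `HP_interp` with `O = univ`, tensors `T i` for `l i` (`exists_sym`),
`t x a = ∑ i, h (dn (x, y i)) * T i a`; `v ↦ h (dn (x, v))` is in `HP n d` (`HP_comp_lin`). -/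
theorem exists_tensor (A : Met n) {h : Z n → ℝ} (hp : FP d h) {s : Set (V n)}
    (hs : ContDiffOn ℝ (⊤ : ℕ∞) h (s ×ˢ univ)) : ∃ t : V n → (Fin d → Fin n) → ℝ,
      (∀ a, ContDiffOn ℝ (⊤ : ℕ∞) (fun x => t x a) s) ∧ (∀ x, IsSym (t x)) ∧
      (∀ x, (∀ p, h (x, p) = 0) → t x = 0) ∧ ∀ x v, ev (t x) v = h (A.dn (x, v)) := by
  obtain ⟨N, y, l, -, hl, H⟩ := HP_interp n d isOpen_univ univ_nonempty
  choose T hT hT' using fun i => exists_sym (hl i)
  refine ⟨fun x a => ∑ i, h (A.dn (x, y i)) * T i a, fun a => ?_, fun x σ a => ?_,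
    fun x hx => ?_, fun x v => ?_⟩
  · refine ContDiffOn.sum fun i _ => ContDiffOn.mul ?_ contDiffOn_const
    exact hs.comp (A.sm_dn.comp (contDiff_id.prodMk contDiff_const)).contDiffOn
      fun x hx => ⟨hx, mem_univ _⟩
  · simp only [hT _ σ a]
  · funext a
    simp [Met.dn, hx]
  · refine Eq.trans ?_ (H _ (HP_comp_lin (hp x) (A.g x)) v).symm
    simp only [ev, Finset.sum_mul, ← hT', Finset.mul_sum, mul_assoc]
    exact Finset.sum_comm

theorem fp_ev (A : Met n) {f : V n → (Fin m → Fin n) → ℝ} (hf : ∀ a, Sm fun x => f x a) :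
    Sm (fun z : Z n => ev (f z.1) (A.up z).2) ∧ FP m fun z : Z n => ev (f z.1) (A.up z).2 := by
  refine ⟨?_, fun x => HP_comp_lin (ev_mem (f x)) (A.G x)⟩
  refine ContDiff.sum fun a _ => ((hf a).comp contDiff_fst).mul (contDiff_prod fun j _ => ?_)
  exact (contDiff_apply ℝ ℝ (a j)).comp (contDiff_snd.comp A.sm_up)

end Pool.Agent.Lib.MP_45f3cb_gt
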