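import Pool.Agent.Lib.MP_45f3cb_gt.FlowA

/-!
A smooth compactly supported field has a smooth global flow.
-/

open Set MeasureTheory

namespace Pool.Agent.Lib.MP_45f3cb_gt

theorem flowC_ex {E : Type} [NormedAddCommGroup E] [NormedSpace ℝ E] [FiniteDimensional ℝ E]
    {Y : E → E} (hY : Sm Y) (hc : HasCompactSupport Y) :
    ∃ Φ : ℝ → E → E, Continuous (fun q : ℝ × E => Φ q.1 q.2) ∧ (∀ z, Φ 0 z = z) ∧
      ∀ z t, HasDerivAt (fun r => Φ r z) (Y (Φ t z)) t := by
  have := FiniteDimensional.complete ℝ E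
  obtain ⟨K, hK⟩ := ContDiff.lipschitzWith_of_hasCompactSupport hc hY (by simp)
  obtain ⟨B, hB⟩ := hY.continuous.bounded_above_of_compact_support hc
  exact exists_cont_flow hK hB

theorem flowC_gron {F : Type} [NormedAddCommGroup F] [NormedSpace ℝ F] {f f' : ℝ → F} {K : ℝ}
    (hf : ∀ t, HasDerivAt f (f' t) t) (hK : ∀ t, ‖f' t‖ ≤ K * ‖f t‖) (t : ℝ) :
    ‖f t‖ ≤ ‖f 0‖ * Real.exp (K * |t|) := by
  have key : ∀ f f' : ℝ → F, (∀ t, HasDerivAt f (f' t) t) → (∀ t, ‖f' t‖ ≤ K * ‖f t‖) →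
      ∀ t, 0 ≤ t → ‖f t‖ ≤ ‖f 0‖ * Real.exp (K * t) := by
    intro f f' hf hK t ht
    have := norm_le_gronwallBound_of_norm_deriv_right_le (f := f) (f' := f') (a := 0) (b := t)
      (δ := ‖f 0‖) (K := K) (ε := 0) (fun x _ => (hf x).continuousAt.continuousWithinAt)
      (fun x _ => (hf x).hasDerivWithinAt) le_rfl (fun x _ => by simpa using hK x) t ⟨ht, le_rfl⟩
    rwa [gronwallBound_ε0, sub_zero] at this
  rcases le_total 0 t with h | h
  · rw [abs_of_nonneg h]
    exact key f f' hf hK t h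
  · rw [abs_of_nonpos h]
    have := key (fun r => f (-r)) (fun r => -f' (-r))
      (fun r => by simpa [Function.comp_def] using (hf (-r)).scomp r (hasDerivAt_neg r))
      (fun r => by simpa using hK (-r)) (-t) (by linarith)
    simpa using this

theorem flowC_var {E : Type} [NormedAddCommGroup E] [NormedSpace ℝ E] [FiniteDimensional ℝ E]
    {Y : E → E} {Φ : ℝ → E → E} (hY : Sm Y) (hc : HasCompactSupport Y) (h0 : ∀ z, Φ 0 z = z)
    (hΦ : ∀ z t, HasDerivAt (fun r => Φ r z) (Y (Φ t z)) t) {T : ℝ} (hT : 0 < T) :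
    ∃ (W : E × (E →L[ℝ] E) → E × (E →L[ℝ] E)) (Ψ : ℝ → E × (E →L[ℝ] E) → E × (E →L[ℝ] E)),
      Sm W ∧ HasCompactSupport W ∧ Continuous (fun q : ℝ × (E × (E →L[ℝ] E)) => Ψ q.1 q.2) ∧
      (∀ z, Ψ 0 z = z) ∧ (∀ z t, HasDerivAt (fun r => Ψ r z) (W (Ψ t z)) t) ∧
      ∀ z, ∀ t ∈ Icc (-T) T, HasFDerivAt (Φ t) (Ψ t (z, ContinuousLinearMap.id ℝ E)).2 z := by
  have := FiniteDimensional.complete ℝ E
  obtain ⟨K, hK⟩ := ContDiff.lipschitzWith_of_hasCompactSupport hc hY (by simp)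
  have hD : Sm (fderiv ℝ Y) := hY.fderiv_right (by simp)
  let χ : ContDiffBump (0 : E →L[ℝ] E) :=
    ⟨Real.exp (K * T), Real.exp (K * T) + 1, Real.exp_pos _, by linarith⟩
  let W : E × (E →L[ℝ] E) → E × (E →L[ℝ] E) := fun q => χ q.2 • (Y q.1, (fderiv ℝ Y q.1).comp q.2)
  have hW : Sm W := (χ.contDiff.comp contDiff_snd).smul
    ((hY.comp contDiff_fst).prodMk ((hD.comp contDiff_fst).clm_comp contDiff_snd))
  have hWc : HasCompactSupport W := by
    refine HasCompactSupport.intro (hc.isCompact.prod χ.hasCompactSupport.isCompact) fun q hq => ?_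
    rw [mem_prod, not_and_or] at hq
    rcases hq with h | h
    · have e1 : Y q.1 = 0 := image_eq_zero_of_notMem_tsupport h
      have e2 : fderiv ℝ Y q.1 = 0 :=
        Function.notMem_support.1 fun h' => h (support_fderiv_subset ℝ h')
      simp [W, e1, e2]
    · have e1 : χ q.2 = 0 := image_eq_zero_of_notMem_tsupport h
      simp [W, e1]
  obtain ⟨Ψ, a1, a2, a3⟩ := flowC_ex hW hWc
  refine ⟨W, Ψ, hW, hWc, a1, a2, a3, fun z t ht => ?_⟩
  set q : E × (E →L[ℝ] E) := (z, ContinuousLinearMap.id ℝ E) with hq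
  have d1 : ∀ t, HasDerivAt (fun r => (Ψ r q).1) (χ (Ψ t q).2 • Y (Ψ t q).1) t := fun t =>
    (ContinuousLinearMap.fst ℝ E (E →L[ℝ] E)).hasFDerivAt.comp_hasDerivAt t (a3 q t)
  have d2 : ∀ t, HasDerivAt (fun r => (Ψ r q).2)
      (χ (Ψ t q).2 • (fderiv ℝ Y (Ψ t q).1).comp (Ψ t q).2) t := fun t =>
    (ContinuousLinearMap.snd ℝ E (E →L[ℝ] E)).hasFDerivAt.comp_hasDerivAt t (a3 q t)
  have b1 : ∀ t ∈ Icc (-T) T, χ (Ψ t q).2 = 1 := by
    intro t ht
    refine χ.one_of_mem_closedBall (mem_closedBall_zero_iff.2 ?_)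
    have := flowC_gron (K := K) d2 (fun t => by
      rw [norm_smul, Real.norm_of_nonneg χ.nonneg]
      refine (mul_le_of_le_one_left (norm_nonneg _) χ.le_one).trans
        ((ContinuousLinearMap.opNorm_comp_le _ _).trans ?_)
      exact mul_le_mul_of_nonneg_right (norm_fderiv_le_of_lipschitz ℝ hK) (norm_nonneg _)) t
    rw [a2] at this
    refine this.trans ((mul_le_of_le_one_left (Real.exp_pos _).le
      ContinuousLinearMap.norm_id_le).trans (Real.exp_le_exp.2 ?_))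
    exact mul_le_mul_of_nonneg_left (abs_le.2 ht) K.2
  have b2 : EqOn (fun r => (Ψ r q).1) (fun r => Φ r z) (Icc (-T) T) :=
    ODE_solution_unique_of_mem_Icc (v := fun _ => Y) (s := fun _ => univ) (t₀ := 0)
      (fun _ _ => hK.lipschitzOnWith) ⟨by linarith, hT⟩
      (fun x _ => (d1 x).continuousAt.continuousWithinAt)
      (fun x hx => by simpa [b1 x (Ioo_subset_Icc_self hx)] using d1 x) (fun _ _ => trivial)
      (fun x _ => (hΦ z x).continuousAt.continuousWithinAt) (fun x _ => hΦ z x)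
      (fun _ _ => trivial) (by simp [a2, h0, hq])
  refine hasFDerivAt_flow hK (hY.differentiable (by simp))
    ((hc.fderiv ℝ).uniformContinuous_of_continuous hD.continuous) h0 hΦ
    (A := fun r => (Ψ r q).2) (by rw [a2]) (fun x hx => ?_) ht
  have := d2 x
  rwa [b1 x hx, one_smul, show (Ψ x q).1 = Φ x z from b2 hx] at this

/-- Sketch: induction on `k` for all spaces `E` at once. `k = 0`: continuity. Step: fix `T`, put
`L = exp (K T) + 1`, take a smooth bump `χ` on `E →L[ℝ] E` (`ContDiffBump`, finite dimension) equal to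
`1` on the closed ball of radius `L`, and the compactly supported field
`Ŷ (z, A) = χ A • (Y z, fderiv Y z ∘ A)` on `E × (E →L[ℝ] E)`, with its continuous flow `Ψ`
(`exists_cont_flow`), which is `C^k` by induction. Gronwall (`‖(Ψ.2)'‖ ≤ K ‖Ψ.2‖` since
`0 ≤ χ ≤ 1`) shows `‖(Ψ t (z, id)).2‖ ≤ exp (K |t|)`, so `χ = 1` along these orbits for
`|t| ≤ T`; uniqueness gives `(Ψ t (z, id)).1 = Φ t z`, and `hasFDerivAt_flow` identifies the second
component with the derivative in `z`. Both of these derivatives are continuous, so `Φ` is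
differentiable on `(-T, T) × E` (`hasStrictFDerivAt_uncurry_coprod` or a direct estimate) with
derivative `(s, w) ↦ s • Y (Φ t z) + A t z w`, which is `C^k`;
`contDiffOn_succ_iff_fderiv_of_isOpen`. -/
theorem contDiff_flow (k : ℕ) : ∀ {E : Type} [NormedAddCommGroup E] [NormedSpace ℝ E]
    [FiniteDimensional ℝ E] {Y : E → E} {Φ : ℝ → E → E}, Sm Y → HasCompactSupport Y →
    Continuous (fun q : ℝ × E => Φ q.1 q.2) → (∀ z, Φ 0 z = z) →
    (∀ z t, HasDerivAt (fun r => Φ r z) (Y (Φ t z)) t) →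
    ContDiff ℝ k fun q : ℝ × E => Φ q.1 q.2 := by
  induction k with
  | zero => exact fun _ _ h _ _ => contDiff_zero.2 h
  | succ k ih =>
    intro E _ _ _ Y Φ hY hc hΦ h0 hd
    have i1 := ih hY hc hΦ h0 hd
    refine contDiff_iff_contDiffAt.2 fun u => ?_
    obtain ⟨W, Ψ, a1, a2, a3, a4, a5, a6⟩ := flowC_var hY hc h0 hd (T := |u.1| + 1) (by positivity)
    have i2 : ContDiff ℝ k fun q : ℝ × E => (Ψ q.1 (q.2, ContinuousLinearMap.id ℝ E)).2 :=
      ((ih a1 a2 a3 a4 a5).comp (contDiff_fst.prodMk (contDiff_snd.prodMk contDiff_const))).snd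
    have i3 : ContDiff ℝ k fun q : ℝ × E =>
        (ContinuousLinearMap.id ℝ ℝ).smulRight (Y (Φ q.1 q.2)) :=
      contDiff_const.smulRight ((hY.of_le (by exact_mod_cast le_top)).comp i1)
    have ho : IsOpen {q : ℝ × E | |q.1| < |u.1| + 1} := isOpen_lt (by fun_prop) continuous_const
    rw [Nat.cast_succ, contDiffAt_succ_iff_hasFDerivAt]
    refine ⟨fun q => ((ContinuousLinearMap.id ℝ ℝ).smulRight (Y (Φ q.1 q.2))).comp
      (ContinuousLinearMap.fst ℝ ℝ E) + (Ψ q.1 (q.2, ContinuousLinearMap.id ℝ E)).2.comp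
      (ContinuousLinearMap.snd ℝ ℝ E), ⟨_, ho.mem_nhds (by simp), fun q hq => ?_⟩,
      ((i3.clm_comp contDiff_const).add (i2.clm_comp contDiff_const)).contDiffAt⟩
    exact (hasStrictFDerivAt_uncurry_coprod (𝕜 := ℝ) (u := q) (f := Φ)
      (f₁ := fun t z => (ContinuousLinearMap.id ℝ ℝ).smulRight (Y (Φ t z)))
      (f₂ := fun t z => (Ψ t (z, ContinuousLinearMap.id ℝ E)).2)
      (.of_forall fun v => (hd v.2 v.1).hasFDerivAt)
      (Filter.mem_of_superset (ho.mem_nhds hq) fun v hv => a6 v.2 v.1 (abs_le.1 (le_of_lt hv)))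
      i3.continuous.continuousAt i2.continuous.continuousAt).hasFDerivAt

theorem exists_isFlow {E : Type} [NormedAddCommGroup E] [NormedSpace ℝ E] [FiniteDimensional ℝ E]
    {Y : E → E} (hY : Sm Y) (hc : HasCompactSupport Y) : ∃ Φ, IsFlow Y Φ := by
  obtain ⟨Φ, a1, a2, a3⟩ := flowC_ex hY hc
  exact ⟨Φ, hY, ContDiff.lipschitzWith_of_hasCompactSupport hc hY (by simp),
    contDiff_infty.2 fun k => contDiff_flow k hY hc a1 a2 a3, a2, a3⟩

end Pool.Agent.Lib.MP_45f3cb_gt
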