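import Pool.Agent.Lib.MP_45f3cb_gt.Base

/-!
Global flows of Lipschitz fields, and differentiability in the initial point.
-/

open Set MeasureTheory

namespace Pool.Agent.Lib.MP_45f3cb_gt

variable {E : Type} [NormedAddCommGroup E] [NormedSpace ℝ E] [CompleteSpace E]

theorem FlowA_global {Y : E → E} {K M : NNReal} (hY : LipschitzWith K Y) (hM : ∀ x, ‖Y x‖ ≤ M)
    (x₀ : E) : ∃ f : ℝ → E, f 0 = x₀ ∧ ∀ t, HasDerivAt f (Y (f t)) t := by
  have h1 : ∀ n : ℕ, ∃ f : ℝ → E, f 0 = x₀ ∧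
      ∀ t ∈ Ioo (-((n : ℝ) + 1)) (n + 1), HasDerivAt f (Y (f t)) t := by
    intro n
    have h0 : (0 : ℝ) ∈ Icc (-((n : ℝ) + 1)) (n + 1) :=
      ⟨by linarith [n.cast_nonneg (α := ℝ)], by positivity⟩
    have hpl : IsPicardLindelof (fun _ => Y) (⟨0, h0⟩ : Icc (-((n : ℝ) + 1)) (n + 1)) x₀
        (M * (n + 1)) 0 M K :=
      { lipschitzOnWith := fun _ _ => hY.lipschitzOnWith
        continuousOn := fun _ _ => continuousOn_const
        norm_le := fun _ _ x _ => hM x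
        mul_max_le := by simp }
    obtain ⟨f, hf0, hf⟩ := hpl.exists_eq_forall_mem_Icc_hasDerivWithinAt₀
    exact ⟨f, hf0, fun t ht => (hf t (Ioo_subset_Icc_self ht)).hasDerivAt (Icc_mem_nhds ht.1 ht.2)⟩
  choose F hF0 hF using h1
  have h2 : ∀ n m : ℕ, n ≤ m → EqOn (F n) (F m) (Ioo (-((n : ℝ) + 1)) (n + 1)) := by
    intro n m hnm
    have hnm' : (n : ℝ) ≤ m := by exact_mod_cast hnm
    exact ODE_solution_unique_of_mem_Ioo (v := fun _ => Y) (s := fun _ => univ) (K := K) (t₀ := 0)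
      (fun _ _ => hY.lipschitzOnWith) ⟨by linarith [n.cast_nonneg (α := ℝ)], by positivity⟩
      (fun t ht => ⟨hF n t ht, trivial⟩)
      (fun t ht => ⟨hF m t ⟨by linarith [ht.1], by linarith [ht.2]⟩, trivial⟩)
      (by rw [hF0, hF0])
  have h3 : ∀ t : ℝ, t ∈ Ioo (-((⌈|t|⌉₊ : ℝ) + 1)) (⌈|t|⌉₊ + 1) := by
    intro t
    have := Nat.le_ceil |t|
    constructor <;> linarith [le_abs_self t, neg_abs_le t]
  refine ⟨fun t => F ⌈|t|⌉₊ t, hF0 _, fun t => ?_⟩
  have h4 : (fun t => F ⌈|t|⌉₊ t) =ᶠ[nhds t] F (⌈|t|⌉₊ + 1) := by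
    filter_upwards [Metric.ball_mem_nhds t one_pos] with t' ht'
    refine h2 _ _ ?_ (h3 t')
    rw [Nat.ceil_le]
    have h5 := Nat.le_ceil |t|
    have h6 : |t' - t| < 1 := by simpa [Real.dist_eq] using ht'
    have h7 := abs_sub_abs_le_abs_sub t' t
    push_cast
    linarith
  have h5 := hF (⌈|t|⌉₊ + 1) t (by
    have := h3 t
    push_cast
    constructor <;> linarith [this.1, this.2])
  rw [← h4.eq_of_nhds] at h5
  exact h5.congr_of_eventuallyEq h4

omit [CompleteSpace E] in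
theorem FlowA_rev {F : Type} [NormedAddCommGroup F] [NormedSpace ℝ F] {f : ℝ → F} {v : F} {t : ℝ}
    (h : HasDerivAt f v (-t)) : HasDerivAt (fun r => f (-r)) (-v) t := by
  simpa [Function.comp_def] using h.scomp t (hasDerivAt_neg t)

omit [CompleteSpace E] in
theorem FlowA_dist {Y : E → E} {K : NNReal} (hY : LipschitzWith K Y) {f g : ℝ → E}
    (hf : ∀ t, HasDerivAt f (Y (f t)) t) (hg : ∀ t, HasDerivAt g (Y (g t)) t) (t : ℝ) :
    dist (f t) (g t) ≤ dist (f 0) (g 0) * Real.exp (K * |t|) := by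
  have key : ∀ {Y : E → E}, LipschitzWith K Y → ∀ {f g : ℝ → E},
      (∀ t, HasDerivAt f (Y (f t)) t) → (∀ t, HasDerivAt g (Y (g t)) t) → ∀ t, 0 ≤ t →
      dist (f t) (g t) ≤ dist (f 0) (g 0) * Real.exp (K * t) := by
    intro Y hY f g hf hg t ht
    simpa using dist_le_of_trajectories_ODE (v := fun _ => Y) (a := 0) (b := t) (fun _ => hY)
      (fun r _ => (hf r).continuousAt.continuousWithinAt) (fun r _ => (hf r).hasDerivWithinAt)
      (fun r _ => (hg r).continuousAt.continuousWithinAt) (fun r _ => (hg r).hasDerivWithinAt)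
      le_rfl t ⟨ht, le_rfl⟩
  rcases le_total 0 t with ht | ht
  · rw [abs_of_nonneg ht]
    exact key hY hf hg t ht
  · rw [abs_of_nonpos ht]
    simpa using key hY.neg (f := fun r => f (-r)) (g := fun r => g (-r))
      (fun r => FlowA_rev (hf (-r))) (fun r => FlowA_rev (hg (-r))) (-t) (neg_nonneg.2 ht)

/-- Sketch: Picard-Lindelöf on `[-T, T]` for every `T` (the field has linear growth; either use
`IsPicardLindelof` on short steps of uniform length `1 / (2 K + 2)` and continue, or adapt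
`exists_global` of `Lib/MP_42bfd7_mp/Twist.lean` or `exists_flow` of
`Lib/MP_8cf91f_an/Deriv.lean`; a bounded field is all that is needed), glue by uniqueness
(`ODE_solution_unique_univ` and friends). Joint continuity: `dist_le_of_trajectories_ODE`
(forward, and backward for `-Y`) gives `dist (Φ t z) (Φ t w) ≤ dist z w * exp (K |t|)`. -/
theorem exists_cont_flow {Y : E → E} {K : NNReal} (hY : LipschitzWith K Y) {B : ℝ}
    (hB : ∀ z, ‖Y z‖ ≤ B) :
    ∃ Φ : ℝ → E → E, Continuous (fun q : ℝ × E => Φ q.1 q.2) ∧ (∀ z, Φ 0 z = z) ∧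
      ∀ z t, HasDerivAt (fun r => Φ r z) (Y (Φ t z)) t := by
  choose f h0 hf using FlowA_global (M := B.toNNReal) hY fun x =>
    (hB x).trans (Real.le_coe_toNNReal B)
  refine ⟨fun t z => f z t, continuous_iff_continuousAt.2 fun q => ?_, h0, hf⟩
  have hc : Continuous (f q.2) := continuous_iff_continuousAt.2 fun t => (hf q.2 t).continuousAt
  have h1 : Continuous fun p : ℝ × E =>
      dist p.2 q.2 * Real.exp (K * |p.1|) + dist (f q.2 p.1) (f q.2 q.1) := by fun_prop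
  have h2 := h1.tendsto q
  simp only [dist_self, zero_mul, add_zero] at h2
  refine tendsto_iff_dist_tendsto_zero.2 (squeeze_zero (fun _ => dist_nonneg) (fun p => ?_) h2)
  have h3 := FlowA_dist hY (hf p.2) (hf q.2) p.1
  rw [h0, h0] at h3
  exact (dist_triangle _ (f q.2 p.1) _).trans (add_le_add h3 le_rfl)

omit [CompleteSpace E] in
theorem FlowA_fwd {Y : E → E} {K : NNReal} (hY : LipschitzWith K Y)
    (hd : Differentiable ℝ Y) (hu : UniformContinuous (fderiv ℝ Y)) {Φ : ℝ → E → E}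
    (h0 : ∀ z, Φ 0 z = z) (hΦ : ∀ z t, HasDerivAt (fun r => Φ r z) (Y (Φ t z)) t) {z : E}
    {A : ℝ → E →L[ℝ] E} {t : ℝ} (ht : 0 ≤ t) (hA0 : A 0 = ContinuousLinearMap.id ℝ E)
    (hA : ∀ r ∈ Icc 0 t, HasDerivAt A ((fderiv ℝ Y (Φ r z)).comp (A r)) r) :
    HasFDerivAt (Φ t) (A t) z := by
  rw [hasFDerivAt_iff_isLittleO_nhds_zero, Asymptotics.isLittleO_iff]
  intro c hc
  have hG : ∀ ε : ℝ, gronwallBound 0 K ε t = ε * gronwallBound 0 K 1 t := fun ε => by
    unfold gronwallBound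
    split_ifs <;> ring
  have hX := Real.exp_pos (K * t)
  have hM : 0 < Real.exp (K * t) * |gronwallBound 0 K 1 t| + 1 := by positivity
  obtain ⟨ε, hε, hεc⟩ : ∃ ε, 0 < ε ∧ ε * (Real.exp (K * t) * |gronwallBound 0 K 1 t| + 1) = c :=
    ⟨_, div_pos hc hM, div_mul_cancel₀ _ hM.ne'⟩
  obtain ⟨δ, hδ, hδ'⟩ := Metric.uniformContinuous_iff.1 hu ε hε
  filter_upwards [Metric.ball_mem_nhds (0 : E) (div_pos hδ hX)] with w hw
  rw [mem_ball_zero_iff, lt_div_iff₀ hX] at hw
  have hder : ∀ r ∈ Icc 0 t, HasDerivAt (fun r => Φ r (z + w) - Φ r z - A r w)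
      (Y (Φ r (z + w)) - Y (Φ r z) - fderiv ℝ Y (Φ r z) (A r w)) r := fun r hr => by
    simpa using ((hΦ (z + w) r).fun_sub (hΦ z r)).fun_sub
      ((hA r hr).clm_apply (hasDerivAt_const r w))
  have key := norm_le_gronwallBound_of_norm_deriv_right_le (δ := 0) (K := K)
    (ε := ε * (‖w‖ * Real.exp (K * t))) (fun r hr => (hder r hr).continuousAt.continuousWithinAt)
    (fun r hr => (hder r (Ico_subset_Icc_self hr)).hasDerivWithinAt) (by simp [h0, hA0])
    (fun r hr => by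
      have h1 : ‖Φ r (z + w) - Φ r z‖ ≤ ‖w‖ * Real.exp (K * t) := by
        have h2 := FlowA_dist hY (hΦ (z + w)) (hΦ z) r
        rw [h0, h0, dist_eq_norm, dist_eq_norm, add_sub_cancel_left, abs_of_nonneg hr.1] at h2
        refine h2.trans ?_
        gcongr
        exact hr.2.le
      have h2 := (convex_ball (Φ r z) δ).norm_image_sub_le_of_norm_fderiv_le' (f := Y)
        (φ := fderiv ℝ Y (Φ r z)) (C := ε) (fun x _ => hd x)
        (fun x hx => by rw [← dist_eq_norm]; exact (hδ' hx).le) (Metric.mem_ball_self hδ)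
        (mem_ball_iff_norm.2 (h1.trans_lt hw))
      have h3 := (fderiv ℝ Y (Φ r z)).le_of_opNorm_le (norm_fderiv_le_of_lipschitz ℝ hY)
        (Φ r (z + w) - Φ r z - A r w)
      have h4 : Y (Φ r (z + w)) - Y (Φ r z) - fderiv ℝ Y (Φ r z) (A r w) =
          fderiv ℝ Y (Φ r z) (Φ r (z + w) - Φ r z - A r w) +
            (Y (Φ r (z + w)) - Y (Φ r z) - fderiv ℝ Y (Φ r z) (Φ r (z + w) - Φ r z)) := by
        rw [map_sub _ _ (A r w)]
        abel
      rw [h4]
      exact (norm_add_le _ _).trans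
        (add_le_add h3 (h2.trans (mul_le_mul_of_nonneg_left h1 hε.le)))) t ⟨ht, le_rfl⟩
  rw [sub_zero, hG] at key
  refine key.trans ?_
  have h5 := mul_le_mul_of_nonneg_left (le_abs_self (gronwallBound 0 K 1 t))
    (show 0 ≤ ε * (‖w‖ * Real.exp (K * t)) by positivity)
  have h6 : 0 ≤ ε * ‖w‖ := by positivity
  rw [← hεc]
  linarith

/-- Sketch: for `t ≥ 0` (for `t ≤ 0` apply it to `-Y`, `r ↦ Φ (-r)`): put
`e r = Φ r (z + w) - Φ r z - A r w`. Then `e' = DY(Φ r z) e + ρ` with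
`‖ρ‖ ≤ ω(‖Φ r (z+w) - Φ r z‖) ≤ ε e^(K t) ‖w‖` for small `w` by uniform continuity of `fderiv Y`
(mean value inequality applied to `Y - fderiv Y (Φ r z)` on a ball), `‖fderiv Y‖ ≤ K`; conclude with
`norm_le_gronwallBound_of_norm_deriv_right_le`. -/
theorem hasFDerivAt_flow {Y : E → E} {K : NNReal} (hY : LipschitzWith K Y)
    (hd : Differentiable ℝ Y) (hu : UniformContinuous (fderiv ℝ Y)) {Φ : ℝ → E → E}
    (h0 : ∀ z, Φ 0 z = z) (hΦ : ∀ z t, HasDerivAt (fun r => Φ r z) (Y (Φ t z)) t) {z : E}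
    {A : ℝ → E →L[ℝ] E} {T : ℝ} (hA0 : A 0 = ContinuousLinearMap.id ℝ E)
    (hA : ∀ t ∈ Icc (-T) T, HasDerivAt A ((fderiv ℝ Y (Φ t z)).comp (A t)) t) {t : ℝ}
    (ht : t ∈ Icc (-T) T) : HasFDerivAt (Φ t) (A t) z := by
  rcases le_total 0 t with h | h
  · exact FlowA_fwd hY hd hu h0 hΦ h hA0 fun r hr =>
      hA r ⟨by linarith [hr.1, ht.2], hr.2.trans ht.2⟩
  · have hn : fderiv ℝ (-Y) = fun x => -fderiv ℝ Y x := funext fun x => fderiv_neg
    have := FlowA_fwd (Y := -Y) (Φ := fun r => Φ (-r)) (A := fun r => A (-r)) (z := z) (t := -t)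
      hY.neg hd.neg (hn ▸ hu.neg) (by simpa using h0) (fun z r => FlowA_rev (hΦ z (-r)))
      (neg_nonneg.2 h) (by simpa using hA0) fun r hr => by
        rw [hn, ContinuousLinearMap.neg_comp]
        exact FlowA_rev (hA (-r) ⟨by linarith [hr.2, ht.1], by linarith [hr.1, ht.1]⟩)
    simpa using this

end Pool.Agent.Lib.MP_45f3cb_gt
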