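import Pool.Agent.Lib.MP_45f3cb_gt.Top
import Pool.Agent.Lib.MP_45f3cb_gt.FlowC
import Pool.Agent.Lib.MP_45f3cb_gt.FlowD

/-!
Existence of the modified geodesic flow and of a complete Killing field; first properties.
-/

open Set MeasureTheory

namespace Pool.Agent.Lib.MP_45f3cb_gt

variable {n : ℕ} {D : Dom n} {e : ℝ}

theorem GFex_bump (D : Dom n) : ∃ (R : ℝ) (χ : V n → ℝ), Sm χ ∧ (∀ x, D.b x ≤ 0 → ‖x‖ < R) ∧
    (∀ x, ‖x‖ < R → χ x = 1) ∧ ∀ x, x ∉ Metric.closedBall (0 : V n) (R + 1) → χ x = 0 := by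
  obtain ⟨R, hR0, hR⟩ := D.compact.isBounded.subset_ball_lt 0 (0 : V n)
  let f : ContDiffBump (0 : V n) := ⟨R, R + 1, hR0, by linarith⟩
  refine ⟨R, f, f.contDiff, fun x hx => ?_, fun x hx => ?_, fun x hx => ?_⟩
  · simpa using hR hx
  · exact f.one_of_mem_closedBall (by simpa [f] using hx.le)
  · refine f.zero_of_le_dist ?_
    rw [Metric.mem_closedBall, not_le] at hx
    exact hx.le

/-- Sketch: `Y z = (χ₁ z.1 * χ₂ (H z)) • hv H z` with a bump `χ₁ = 1` on `ball 0 R ⊇ M`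
(`ContDiffBump`) and `χ₂ = 1` on `(-∞, e]`, `χ₂ = 0` on `[e + 1, ∞)`; compact support by
`Met.isCompact_le`; `exists_isFlow`. Energy: the derivative of `H (Φ t z)` is a multiple of
`br H H = 0`. Reversibility: `t ↦ ((Φ (-t) w).1, -(Φ (-t) w).2)` is an integral curve of `Y`
(`Met.hv_smul`, `Met.H_smul` with `r = -1`), `IsFlow.uniq_univ`. -/
theorem exists_GF (D : Dom n) (e : ℝ) : Nonempty (GF D e) := by
  obtain ⟨R, χ₁, h1, hb, h2, h3⟩ := GFex_bump D
  obtain ⟨χ₂, k1, -, -, k2, k3, -⟩ := exists_step' (a := e) (b := e + 1) (by linarith)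
  have hH : Sm D.H := D.toMet.sm_H
  let Y : Z n → Z n := fun z => (χ₁ z.1 * χ₂ (D.H z)) • hv D.H z
  have hY : Sm Y := ((h1.comp contDiff_fst).mul (k1.comp hH)).smul hH.hv
  have hc : HasCompactSupport Y := by
    refine HasCompactSupport.intro
      (D.toMet.isCompact_le (isCompact_closedBall (0 : V n) (R + 1)) (e + 1)) fun z hz => ?_
    rw [mem_setOf_eq, not_and_or] at hz
    rcases hz with hz | hz
    · simp only [Y, h3 _ hz, zero_mul, zero_smul]
    · simp only [Y, k3 _ (not_le.1 hz).le, mul_zero, zero_smul]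
  obtain ⟨Φ, hΦ⟩ := exists_isFlow hY hc
  have hneg : ∀ z : Z n, Y (z.1, -z.2) = (-(Y z).1, (Y z).2) := by
    intro z
    have e1 := D.toMet.H_smul z.1 z.2 (-1)
    have e2 := D.toMet.hv_smul z.1 z.2 (-1)
    simp only [neg_smul, one_smul, even_two, Even.neg_pow, one_pow, one_mul, Prod.mk.eta] at e1 e2
    simp only [Y, e1, e2, Prod.smul_mk, Prod.smul_fst, Prod.smul_snd, smul_neg]
  refine ⟨⟨Y, Φ, R, hΦ, fun t z => ?_, hb, fun z hz he => ?_, fun t z => ?_⟩⟩
  · have hd : ∀ r, HasDerivAt (fun r => D.H (Φ r z)) 0 r := by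
      intro r
      have h := hΦ.der_comp (F := D.H) (z := z) (t := r) (hH.dAt _)
      simp only [Y, map_smul] at h
      rwa [← br_eq, br_self, smul_zero] at h
    have h := is_const_of_deriv_eq_zero (fun r => (hd r).differentiableAt)
      (fun r => (hd r).deriv) t 0
    rwa [hΦ.zero] at h
  · simp only [Y, h2 _ hz, k2 _ he.le, mul_one, one_smul]
  · have hd : ∀ r, HasDerivAt (fun r => ((Φ (-r) (z.1, -z.2)).1, -(Φ (-r) (z.1, -z.2)).2))
        (Y ((Φ (-r) (z.1, -z.2)).1, -(Φ (-r) (z.1, -z.2)).2)) r := by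
      intro r
      have h := FlowA_rev (f := fun r => Φ r (z.1, -z.2)) (hΦ.der (z.1, -z.2) (-r))
      rw [hneg]
      have h4 := (ContinuousLinearMap.fst ℝ (V n) (V n)).hasFDerivAt.comp_hasDerivAt r h
      have h5 := (ContinuousLinearMap.snd ℝ (V n) (V n)).hasFDerivAt.comp_hasDerivAt r h
      have h6 := HasDerivAt.prodMk h4 h5.neg
      simp only [ContinuousLinearMap.coe_fst', ContinuousLinearMap.coe_snd', Prod.fst_neg,
        Prod.snd_neg, neg_neg] at h6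
      exact h6
    have h := hΦ.uniq_univ hd t
    simp only [neg_zero, hΦ.zero, neg_neg, Prod.mk.eta] at h
    rw [← h]
    simp

/-- Sketch: `ξ' x = χ x • ξ x` with a bump `χ = 1` on an open ball that contains `M`; `br_congr`. -/
theorem Kil.complete {ξ : V n → V n} (h : Kil D ξ) :
    ∃ (ξ' : V n → V n) (θ : ℝ → V n → V n), Kil D ξ' ∧ IsFlow ξ' θ ∧
      ∀ x, D.b x ≤ 0 → ξ' x = ξ x := by
  obtain ⟨R, χ, h1, hb, h2, h3⟩ := GFex_bump D
  have hs : Sm fun x => χ x • ξ x := h1.smul h.sm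
  have hc : HasCompactSupport fun x => χ x • ξ x :=
    HasCompactSupport.intro (isCompact_closedBall (0 : V n) (R + 1)) fun x hx => by
      simp only [h3 x hx, zero_smul]
  obtain ⟨θ, hθ⟩ := exists_isFlow hs hc
  refine ⟨_, θ, ⟨hs, fun z hz => ?_⟩, hθ, fun x hx => by simp only [h2 x (hb x hx), one_smul]⟩
  rw [← h.kil z hz]
  refine br_congr ?_
  have ho : IsOpen {w : Z n | ‖w.1‖ < R} := isOpen_lt (by fun_prop) continuous_const
  filter_upwards [ho.mem_nhds (hb _ hz)] with w hw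
  simp only [lin, h2 _ hw, one_smul]

theorem GF.der_ball (P : GF D e) {z : Z n} (he : D.H z < e) {t : ℝ} (ht : ‖(P.Φ t z).1‖ < P.R) :
    HasDerivAt (fun r => P.Φ r z) (hv D.H (P.Φ t z)) t := by
  have h := P.flow.der z t
  rwa [P.eqY _ ht ((P.ener t z).trans_lt he)] at h

theorem GF.traj_ball (P : GF D e) {z : Z n} (he : D.H z < e) {s : Set ℝ}
    (hs : ∀ t ∈ s, ‖(P.Φ t z).1‖ < P.R) : Traj D.H (fun r => P.Φ r z) s := by
  exact fun t ht => P.der_ball he (hs t ht)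

theorem GF.traj (P : GF D e) {z : Z n} (he : D.H z < e) {s : Set ℝ}
    (hs : ∀ t ∈ s, D.b (P.Φ t z).1 ≤ 0) : Traj D.H (fun r => P.Φ r z) s := by
  exact P.traj_ball he fun t ht => P.ball _ (hs t ht)

theorem GF.der_fun (P : GF D e) {z : Z n} (he : D.H z < e) {t : ℝ} (ht : ‖(P.Φ t z).1‖ < P.R)
    {F : Z n → ℝ} (hF : DifferentiableAt ℝ F (P.Φ t z)) :
    HasDerivAt (fun r => F (P.Φ r z)) (br D.H F (P.Φ t z)) t := by
  rw [br_eq]
  exact hF.hasFDerivAt.comp_hasDerivAt t (P.der_ball he ht)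

/-- `Y = hv H` on an open set -/
theorem GF.fderiv_Y (P : GF D e) {z : Z n} (he : D.H z < e) (hz : ‖z.1‖ < P.R) :
    fderiv ℝ P.Y z = fderiv ℝ (hv D.H) z := by
  refine Filter.EventuallyEq.fderiv_eq ?_
  have ho : IsOpen {w : Z n | ‖w.1‖ < P.R} := isOpen_lt (by fun_prop) continuous_const
  have ho' : IsOpen {w : Z n | D.H w < e} := isOpen_lt D.toMet.sm_H.continuous continuous_const
  filter_upwards [ho.mem_nhds hz, ho'.mem_nhds he] with w hw hw'
  exact P.eqY w hw hw'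

/-- `IsFlow.lin` -/
theorem GF.linz (P : GF D e) {z : Z n} (he : D.H z < e) {t : ℝ} (ht : ‖(P.Φ t z).1‖ < P.R)
    (w : Z n) : HasDerivAt (fun r => fderiv ℝ (P.Φ r) z w)
      (fderiv ℝ (hv D.H) (P.Φ t z) (fderiv ℝ (P.Φ t) z w)) t := by
  have h := P.flow.lin z w t
  rwa [P.fderiv_Y ((P.ener t z).trans_lt he) ht] at h

/-- trajectories over `M` below the energy `e` are orbits (`Traj.H_const`, `IsFlow.uniq`) -/
theorem GF.eq_of_traj (P : GF D e) {c : ℝ → Z n} {T : ℝ} (h : Traj D.H c (Icc 0 T))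
    (hb : ∀ t ∈ Icc 0 T, D.b (c t).1 ≤ 0) (he : D.H (c 0) < e) :
    ∀ t ∈ Icc 0 T, c t = P.Φ t (c 0) := by
  refine P.flow.uniq fun t ht => ?_
  rw [P.eqY _ (P.ball _ (hb t ht)) ((Traj.H_const D.toMet h t ht).trans_lt he)]
  exact h t ht

theorem GF.rev' (P : GF D e) (t : ℝ) (z : Z n) :
    P.Φ t (z.1, -z.2) = ((P.Φ (-t) z).1, -(P.Φ (-t) z).2) := by
  have h := P.rev (-t) z
  rwa [neg_neg] at h

/-- `Dom.Seg` along an orbit, on an arbitrary time interval (shift by `s`, `IsFlow.add`; the case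
`s = t` is trivial) -/
theorem GF.seg (P : GF D e) {F : Z n → ℝ} (hF : D.Seg F) {z : Z n} (h0 : 0 < D.H z)
    (he : D.H z < e) {s t : ℝ} (hst : s ≤ t) (hb : ∀ r ∈ Icc s t, D.b (P.Φ r z).1 ≤ 0)
    (hs : D.b (P.Φ s z).1 = 0) (ht : D.b (P.Φ t z).1 = 0) :
    ∫ r in s..t, F (P.Φ r z) = 0 := by
  rcases hst.eq_or_lt with rfl | hlt
  · exact intervalIntegral.integral_same
  have hb' : ∀ r ∈ Icc 0 (t - s), D.b (P.Φ r (P.Φ s z)).1 ≤ 0 := fun r hr => by
    rw [← P.flow.add]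
    exact hb _ ⟨by linarith [hr.1], by linarith [hr.2]⟩
  have h := hF (fun r => P.Φ r (P.Φ s z)) (t - s) (sub_pos.2 hlt)
    (P.traj ((P.ener s z).trans_lt he) hb') hb' (by simpa only [P.flow.zero] using hs)
    (by simpa only [← P.flow.add, sub_add_cancel] using ht)
    (by simpa only [P.flow.zero] using D.toMet.ne_of_H_pos (h0.trans_eq (P.ener s z).symm))
  simp only [← P.flow.add] at h
  rwa [intervalIntegral.integral_comp_add_right (fun r => F (P.Φ r z)), zero_add,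
    sub_add_cancel] at h

end Pool.Agent.Lib.MP_45f3cb_gt
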