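import Pool.Agent.Lib.MP_45f3cb_gt.ProjB
import Pool.Agent.Lib.MP_45f3cb_gt.Top

/-!
Gaussian concentration of fibrewise polynomials; basic facts on tubes.
-/

open Set MeasureTheory

namespace Pool.Agent.Lib.MP_45f3cb_gt

variable {n d : ℕ} (A : Met n) {ξ : V n → V n} {K : Set (V n)}

theorem Met.isCompact_tube (hξ : Sm ξ) (hK : IsCompact K) (r : ℝ) : IsCompact (A.tube ξ K r) :=
  A.isCompact_sig hξ hK r

theorem Met.tube_mono {r s : ℝ} (h : r ≤ s) : A.tube ξ K r ⊆ A.tube ξ K s := by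
  exact fun z hz => ⟨hz.1, hz.2.trans h⟩

theorem Met.sm_W (hξ : Sm ξ) (τ : ℝ) : Sm (A.W ξ τ) := by
  exact Real.contDiff_exp.comp (contDiff_const.mul (A.sm_psi hξ))

theorem Met.W_pos (τ : ℝ) (z : Z n) : 0 < A.W ξ τ z := Real.exp_pos _

theorem Gau_exp (τ s : ℝ) : HasDerivAt (fun s => Real.exp (τ * s)) (Real.exp (τ * s) * τ) s := by
  simpa using ((hasDerivAt_id' s).const_mul τ).exp

theorem Met.dp_W (hξ : Sm ξ) (τ : ℝ) (i : Fin n) (z : Z n) :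
    dp i (A.W ξ τ) z = τ * dp i (A.psi ξ) z * A.W ξ τ z := by
  have h := dp_comp (i := i) (z := z) (F := A.psi ξ) (Gau_exp τ _).differentiableAt
    ((A.sm_psi hξ).dAt z)
  rw [(Gau_exp τ _).deriv] at h
  exact h.trans (by rw [Met.W]; ring)

theorem Met.dx_W (hξ : Sm ξ) (τ : ℝ) (i : Fin n) (z : Z n) :
    dx i (A.W ξ τ) z = τ * dx i (A.psi ξ) z * A.W ξ τ z := by
  have h := dx_comp (i := i) (z := z) (F := A.psi ξ) (Gau_exp τ _).differentiableAt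
    ((A.sm_psi hξ).dAt z)
  rw [(Gau_exp τ _).deriv] at h
  exact h.trans (by rw [Met.W]; ring)

theorem Met.br_W (hξ : Sm ξ) (τ : ℝ) (a : Z n → ℝ) (z : Z n) :
    br a (A.W ξ τ) z = τ * br a (A.psi ξ) z * A.W ξ τ z := by
  have h := br_comp (a := a) (z := z) (F := A.psi ξ) (Gau_exp τ _).differentiableAt
    ((A.sm_psi hξ).dAt z)
  rw [(Gau_exp τ _).deriv] at h
  exact h.trans (by rw [Met.W]; ring)

theorem Met.Bq_nonneg (hξ : Sm ξ) (hK : IsCompact K) (τ : ℝ) (f : Z n → ℝ) :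
    0 ≤ A.Bq ξ K τ f := by
  exact integral_nonneg fun z => mul_nonneg (sq_nonneg _) (sq_nonneg _)

theorem Met.Er_nonneg (hξ : Sm ξ) (hK : IsCompact K) (r τ : ℝ) (u : Z n → ℝ) :
    0 ≤ A.Er ξ K r τ u := by
  exact integral_nonneg fun z => mul_nonneg (sq_nonneg _) (n1_nonneg u z)

/-- a smooth function that vanishes on the graph has square at most `C sig` on the tube
(`Met.lip_graph`, `Met.bounds`, `Met.sig_eq`) -/
theorem Met.sq_le_sig (hξ : Sm ξ) (hK : IsCompact K) {F : Z n → ℝ} (hF : Sm F)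
    (h : ∀ x ∈ K, F (x, A.fl ξ x) = 0) (s : ℝ) :
    ∃ C : ℝ, 0 ≤ C ∧ ∀ z ∈ A.tube ξ K s, F z ^ 2 ≤ C * A.sig ξ z := by
  obtain ⟨C, hC, h1⟩ := A.lip_graph hξ hK hF h s
  obtain ⟨l, L, hl, -, h2⟩ := A.bounds hK
  refine ⟨C ^ 2 / l, by positivity, fun z hz => ?_⟩
  have h3 := (h2 z.1 hz.1 (z.2 - A.fl ξ z.1)).1
  rw [← A.sig_eq] at h3
  have h4 : F z ^ 2 ≤ (C * ‖z.2 - A.fl ξ z.1‖) ^ 2 := by
    rw [← sq_abs]
    exact pow_le_pow_left₀ (abs_nonneg _) (h1 z hz.1 hz.2) 2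
  rw [div_mul_eq_mul_div, le_div_iff₀ hl]
  calc _ ≤ (C * ‖z.2 - A.fl ξ z.1‖) ^ 2 * l := mul_le_mul_of_nonneg_right h4 hl.le
    _ = C ^ 2 * (l * ‖z.2 - A.fl ξ z.1‖ ^ 2) := by ring
    _ ≤ _ := mul_le_mul_of_nonneg_left h3 (sq_nonneg _)

theorem Gau_cont (hξ : Sm ξ) (τ : ℝ) {f : Z n → ℝ} (hf : Sm f) :
    Continuous fun z => A.W ξ τ z ^ 2 * Real.exp (τ * A.sig ξ z) *
      (f z ^ 2 + τ⁻¹ * ∑ i, dp i f z ^ 2) :=
  (((A.sm_W hξ τ).continuous.pow 2).mul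
    (Real.continuous_exp.comp (continuous_const.mul (A.sm_sig hξ).continuous))).mul
    ((hf.continuous.pow 2).add (continuous_const.mul
      (continuous_finsetSum _ fun i _ => (hf.dp i).continuous.pow 2)))

/-- Sketch: `setInt_le_setInt`. On the fibre over `x ∈ K` let `c = fl x`, `l`, `L` of `Met.bounds`,
`r₀ = (L τ) ^ (-1/2)`, `y = ‖p - c‖ / r₀`. Then `W² exp (τ sig) = exp (2 τ rho) exp (-τ sig)` with
`τ sig ≥ (l / L) y²`; `τ⁻¹ = L r₀²`; `poly_ball` and `gauss_moment` bound the fibre integral by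
`C exp (2 τ rho) ∫ p in ball c r₀, q²`, and on this ball `τ sig ≤ 1`, so
`exp (2 τ rho) ≤ exp 2 * W²`. -/
theorem Met.gau (hξ : Sm ξ) (hK : IsCompact K) (d : ℕ) : ∃ C : ℝ, 0 ≤ C ∧ ∀ τ r : ℝ, 0 < τ →
    ∀ f : Z n → ℝ, Sm f → FP d f →
      ∫ z in A.tube ξ K r, A.W ξ τ z ^ 2 * Real.exp (τ * A.sig ξ z) *
        (f z ^ 2 + τ⁻¹ * ∑ i, dp i f z ^ 2) ≤ C * A.Bq ξ K τ f := by
  obtain ⟨l, L, hl, hL, hb⟩ := A.bounds hK
  obtain ⟨C₀, hC₀, h₀⟩ := poly_ball n d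
  obtain ⟨C₁, hC₁, h₁⟩ := gauss_moment n (2 * d) (div_pos hl hL)
  refine ⟨(1 + L) * C₀ * C₁ * Real.exp 2, by positivity, fun τ r hτ f hf hp => ?_⟩
  have hG : Continuous fun z => A.W ξ τ z ^ 2 * f z ^ 2 :=
    ((A.sm_W hξ τ).continuous.pow 2).mul (hf.continuous.pow 2)
  refine setInt_le_setInt (A.isCompact_tube hξ hK r) (A.isCompact_tube hξ hK τ⁻¹)
    (Gau_cont A hξ τ hf) hG fun x => ?_
  by_cases hx : x ∈ K
  swap
  · have e : ∀ s, {p | (x, p) ∈ A.tube ξ K s} = ∅ := fun s =>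
      eq_empty_of_forall_notMem fun p hp => hx hp.1
    rw [e, e, setIntegral_empty, setIntegral_empty, mul_zero]
  obtain ⟨r₀, hr₀, hr⟩ : ∃ r₀ : ℝ, 0 < r₀ ∧ τ⁻¹ = L * r₀ ^ 2 :=
    ⟨√(τ⁻¹ / L), Real.sqrt_pos.2 (by positivity), by
      rw [Real.sq_sqrt (by positivity), mul_div_cancel₀ _ hL.ne']⟩
  have hr' : τ * (L * r₀ ^ 2) = 1 := by rw [← hr, mul_inv_cancel₀ hτ.ne']
  obtain ⟨hgi, hgl⟩ := h₁ (A.fl ξ x) r₀ hr₀
  have hsig : ∀ p, l * ‖p - A.fl ξ x‖ ^ 2 ≤ A.sig ξ (x, p) ∧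
      A.sig ξ (x, p) ≤ L * ‖p - A.fl ξ x‖ ^ 2 := fun p => by
    rw [A.sig_eq]
    exact hb x hx _
  have hW : ∀ p, A.W ξ τ (x, p) ^ 2 = Real.exp (2 * τ * A.rho ξ x - 2 * (τ * A.sig ξ (x, p))) := by
    intro p
    rw [Met.W, sq, ← Real.exp_add, Met.sig]
    congr 1
    ring
  obtain ⟨I, hI⟩ : ∃ I, I = ∫ y in Metric.ball (A.fl ξ x) r₀, f (x, y) ^ 2 := ⟨_, rfl⟩
  have hI0 : 0 ≤ I := hI ▸ integral_nonneg fun y => sq_nonneg _
  obtain ⟨B, hB⟩ : ∃ B, B = Real.exp (2 * τ * A.rho ξ x) * ((1 + L) * C₀ * (r₀ ^ n)⁻¹ * I) :=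
    ⟨_, rfl⟩
  have hB0 : 0 ≤ B := by rw [hB]; positivity
  have key : ∀ p, A.W ξ τ (x, p) ^ 2 * Real.exp (τ * A.sig ξ (x, p)) *
      (f (x, p) ^ 2 + τ⁻¹ * ∑ i, dp i f (x, p) ^ 2) ≤
      B * (Real.exp (-(l / L) * (‖p - A.fl ξ x‖ / r₀) ^ 2) * (1 + ‖p - A.fl ξ x‖ / r₀) ^ (2 * d)) := by
    intro p
    have e1 := h₀ _ (hp x) (A.fl ξ x) p r₀ hr₀
    rw [← hI] at e1
    have e2 : ∑ i, dp i f (x, p) ^ 2 = ∑ i, pd i (fun p => f (x, p)) p ^ 2 :=
      Finset.sum_congr rfl fun i _ => by rw [dp_eq_pd (hf.dAt _)]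
    have e3 : 0 ≤ r₀ ^ 2 * ∑ i, pd i (fun p => f (x, p)) p ^ 2 := by positivity
    have e4 : 0 ≤ r₀ ^ 4 * ∑ i, ∑ j, pd i (pd j fun p => f (x, p)) p ^ 2 := by positivity
    have e5 : f (x, p) ^ 2 + τ⁻¹ * ∑ i, dp i f (x, p) ^ 2 ≤
        (1 + L) * (C₀ * (1 + ‖p - A.fl ξ x‖ / r₀) ^ (2 * d) * (r₀ ^ n)⁻¹ * I) := by
      refine le_trans ?_ (mul_le_mul_of_nonneg_left e1 (by positivity))
      rw [e2, hr]
      nlinarith [mul_nonneg hL.le (sq_nonneg (f (x, p))), mul_nonneg hL.le e4]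
    have e6 : A.W ξ τ (x, p) ^ 2 * Real.exp (τ * A.sig ξ (x, p)) ≤
        Real.exp (2 * τ * A.rho ξ x) * Real.exp (-(l / L) * (‖p - A.fl ξ x‖ / r₀) ^ 2) := by
      rw [hW, ← Real.exp_add, ← Real.exp_add, Real.exp_le_exp]
      have e7 : l / L * (‖p - A.fl ξ x‖ / r₀) ^ 2 = τ * (l * ‖p - A.fl ξ x‖ ^ 2) := by
        rw [div_pow, div_mul_div_comm, div_eq_iff (by positivity)]
        linear_combination (-(l * ‖p - A.fl ξ x‖ ^ 2)) * hr'
      have e8 := mul_le_mul_of_nonneg_left (hsig p).1 hτ.le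
      linarith
    refine (mul_le_mul e6 e5 (by positivity) (by positivity)).trans (le_of_eq ?_)
    rw [hB]
    ring
  have hS : IsCompact {p | (x, p) ∈ A.tube ξ K τ⁻¹} :=
    ((A.isCompact_tube hξ hK τ⁻¹).image continuous_snd).of_isClosed_subset
      ((A.isCompact_tube hξ hK τ⁻¹).isClosed.preimage (Continuous.prodMk_right x))
      fun p hp => ⟨(x, p), hp, rfl⟩
  have hin : ∀ p ∈ Metric.ball (A.fl ξ x) r₀, A.sig ξ (x, p) ≤ τ⁻¹ := fun p hp => by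
    rw [hr]
    exact (hsig p).2.trans (mul_le_mul_of_nonneg_left
      (pow_le_pow_left₀ (norm_nonneg _) (mem_ball_iff_norm.1 hp).le 2) hL.le)
  have hGx : Continuous fun p => A.W ξ τ (x, p) ^ 2 * f (x, p) ^ 2 :=
    hG.comp (Continuous.prodMk_right x)
  have hcore : Real.exp (2 * τ * A.rho ξ x) * I ≤
      Real.exp 2 * ∫ p in {p | (x, p) ∈ A.tube ξ K τ⁻¹}, A.W ξ τ (x, p) ^ 2 * f (x, p) ^ 2 := by
    refine le_trans ?_ (mul_le_mul_of_nonneg_left (setIntegral_mono_set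
      (s := Metric.ball (A.fl ξ x) r₀) (hGx.continuousOn.integrableOn_compact hS)
      (Filter.Eventually.of_forall fun p => mul_nonneg (sq_nonneg _) (sq_nonneg _))
      (LE.le.eventuallyLE fun p hp => ⟨hx, hin p hp⟩)) (Real.exp_pos 2).le)
    rw [hI, ← integral_const_mul, ← integral_const_mul]
    refine setIntegral_mono_on ((PolyC_intOn
      ((hf.continuous.comp (Continuous.prodMk_right x)).pow 2) _ _).const_mul _)
      ((PolyC_intOn hGx _ _).const_mul _) measurableSet_ball fun p hp => ?_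
    rw [← mul_assoc, hW, ← Real.exp_add]
    refine mul_le_mul_of_nonneg_right (Real.exp_le_exp.2 ?_) (sq_nonneg _)
    have e1 := mul_le_mul_of_nonneg_left (hin p hp) hτ.le
    rw [mul_inv_cancel₀ hτ.ne'] at e1
    linarith
  refine (integral_mono_of_nonneg (Filter.Eventually.of_forall fun p => by positivity)
    (hgi.const_mul B).integrableOn (Filter.Eventually.of_forall key)).trans
    ((setIntegral_le_integral (hgi.const_mul B)
      (Filter.Eventually.of_forall fun p => by positivity)).trans ?_)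
  rw [integral_const_mul]
  calc _ ≤ B * (C₁ * r₀ ^ n) := mul_le_mul_of_nonneg_left hgl hB0
    _ = (1 + L) * C₀ * C₁ * (Real.exp (2 * τ * A.rho ξ x) * I) := by
      rw [hB]
      field_simp
    _ ≤ (1 + L) * C₀ * C₁ * (Real.exp 2 *
        ∫ p in {p | (x, p) ∈ A.tube ξ K τ⁻¹}, A.W ξ τ (x, p) ^ 2 * f (x, p) ^ 2) :=
      mul_le_mul_of_nonneg_left hcore (by positivity)
    _ = _ := by ring

/-- `τ sig ≤ exp (τ sig)`, `1 ≤ exp (τ sig)` -/
theorem Met.gau' (hξ : Sm ξ) (hK : IsCompact K) (d : ℕ) : ∃ C : ℝ, 0 ≤ C ∧ ∀ τ r : ℝ, 0 < τ →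
    ∀ f : Z n → ℝ, Sm f → FP d f →
      ∫ z in A.tube ξ K r, A.W ξ τ z ^ 2 * (A.sig ξ z * ∑ i, dp i f z ^ 2) ≤ C * A.Bq ξ K τ f ∧
      ∫ z in A.tube ξ K r, A.W ξ τ z ^ 2 * (τ ^ 2 * A.sig ξ z * f z ^ 2 + ∑ i, dp i f z ^ 2) ≤
        C * (τ * A.Bq ξ K τ f) := by
  obtain ⟨C, hC, h⟩ := A.gau hξ hK d
  refine ⟨C, hC, fun τ r hτ f hf hp => ?_⟩
  have h1 := h τ r hτ f hf hp
  have hi := (Gau_cont A hξ τ hf).continuousOn.integrableOn_compact (μ := volume)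
    (A.isCompact_tube hξ hK r)
  have h2 : ∀ z, τ * A.sig ξ z ≤ Real.exp (τ * A.sig ξ z) := fun z => by
    linarith [Real.add_one_le_exp (τ * A.sig ξ z)]
  have h3 : ∀ z, 1 ≤ Real.exp (τ * A.sig ξ z) := fun z =>
    Real.one_le_exp (mul_nonneg hτ.le (A.sig_nonneg z))
  have h4 : τ * τ⁻¹ = 1 := mul_inv_cancel₀ hτ.ne'
  constructor
  · refine le_trans (integral_mono_of_nonneg (Filter.Eventually.of_forall fun z => ?_) hi
      (Filter.Eventually.of_forall fun z => ?_)) h1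
    · exact mul_nonneg (sq_nonneg _) (mul_nonneg (A.sig_nonneg z) (by positivity))
    · show _ ≤ _ * _ * _
      rw [mul_assoc]
      refine mul_le_mul_of_nonneg_left ?_ (sq_nonneg _)
      calc _ = τ * A.sig ξ z * (0 + τ⁻¹ * ∑ i, dp i f z ^ 2) := by
            linear_combination (-(A.sig ξ z * ∑ i, dp i f z ^ 2)) * h4
        _ ≤ _ := mul_le_mul (h2 z) (add_le_add (sq_nonneg _) le_rfl) (by positivity)
            (Real.exp_pos _).le
  · rw [mul_left_comm]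
    refine le_trans ?_ (mul_le_mul_of_nonneg_left h1 hτ.le)
    rw [← integral_const_mul]
    refine integral_mono_of_nonneg (Filter.Eventually.of_forall fun z => ?_) (hi.const_mul τ)
      (Filter.Eventually.of_forall fun z => ?_)
    · have := A.sig_nonneg (ξ := ξ) z
      positivity
    · show _ ≤ τ * (_ * _ * _)
      rw [mul_assoc (A.W ξ τ z ^ 2), mul_left_comm]
      refine mul_le_mul_of_nonneg_left ?_ (sq_nonneg _)
      have e1 := mul_le_mul_of_nonneg_right (h2 z) (by positivity : 0 ≤ τ * f z ^ 2)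
      have e2 := mul_le_mul_of_nonneg_right (h3 z) (by positivity : 0 ≤ ∑ i, dp i f z ^ 2)
      have e3 : τ * (Real.exp (τ * A.sig ξ z) * (f z ^ 2 + τ⁻¹ * ∑ i, dp i f z ^ 2)) =
          Real.exp (τ * A.sig ξ z) * (τ * f z ^ 2) +
            Real.exp (τ * A.sig ξ z) * ∑ i, dp i f z ^ 2 := by
        linear_combination (Real.exp (τ * A.sig ξ z) * ∑ i, dp i f z ^ 2) * h4
      rw [e3]
      linarith

/-- the tail. Sketch: `n1_mul_le`; `n1 (θ (sig) - 1)` is bounded on the tube and vanishes where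
`sig < r / 2` (`n1_of_eventually`); on the rest `1 ≤ exp (-τ r / 2) exp (τ sig)`, and
`n1 f ≤ τ (f² + τ⁻¹ ∑ dp f²)`; `Met.gau`. -/
theorem Met.tail (hξ : Sm ξ) (hK : IsCompact K) (d : ℕ) {θ : ℝ → ℝ} {r : ℝ} (hθ : Th θ r) :
    ∃ C : ℝ, 0 ≤ C ∧ ∀ τ : ℝ, 1 ≤ τ → ∀ f : Z n → ℝ, Sm f → FP d f →
      A.Er ξ K r τ (fun z => (θ (A.sig ξ z) - 1) * f z) ≤
        C * (τ * Real.exp (-(τ * r / 2))) * A.Bq ξ K τ f := by
  obtain ⟨C, hC, h⟩ := A.gau hξ hK d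
  have ha : Sm fun z => θ (A.sig ξ z) - 1 := (hθ.sm.comp (A.sm_sig hξ)).sub contDiff_const
  obtain ⟨B, hB⟩ := (A.isCompact_tube hξ hK r).exists_bound_of_continuousOn
    ha.n1.continuous.continuousOn
  refine ⟨2 * |B| * C, by positivity, fun τ hτ f hf hp => ?_⟩
  have hτ0 : 0 < τ := one_pos.trans_le hτ
  have hi := (Gau_cont A hξ τ hf).continuousOn.integrableOn_compact (μ := volume)
    (A.isCompact_tube hξ hK r)
  have h1 := mul_le_mul_of_nonneg_left (h τ r hτ0 f hf hp)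
    (by positivity : 0 ≤ 2 * |B| * (τ * Real.exp (-(τ * r / 2))))
  refine le_trans ?_ (h1.trans (le_of_eq (by ring)))
  rw [← integral_const_mul]
  refine integral_mono_of_nonneg (Filter.Eventually.of_forall fun z =>
    mul_nonneg (sq_nonneg _) (n1_nonneg _ z)) (hi.const_mul _)
    (ae_restrict_of_forall_mem (A.isCompact_tube hξ hK r).measurableSet fun z hz => ?_)
  have h2 := n1_mul_le ha hf z
  show A.W ξ τ z ^ 2 * _ ≤ _ * (_ * _ * _)
  by_cases hs : A.sig ξ z < r / 2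
  · have h3 : n1 (fun z => θ (A.sig ξ z) - 1) z = 0 := by
      refine n1_of_eventually ?_
      filter_upwards [(isOpen_lt (A.sm_sig hξ).continuous continuous_const).mem_nhds hs] with w hw
      rw [hθ.one _ (le_of_lt hw), sub_self]
    rw [h3, mul_zero, zero_mul] at h2
    exact (mul_nonpos_of_nonneg_of_nonpos (sq_nonneg _) h2).trans (by positivity)
  · have h3 : n1 (fun z => θ (A.sig ξ z) - 1) z ≤ |B| :=
      ((le_abs_self _).trans (hB z hz)).trans (le_abs_self B)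
    have h4 : n1 f z ≤ τ * (f z ^ 2 + τ⁻¹ * ∑ i, dp i f z ^ 2) := by
      rw [mul_add, ← mul_assoc, mul_inv_cancel₀ hτ0.ne', one_mul, n1]
      exact add_le_add (le_mul_of_one_le_left (sq_nonneg _) hτ) le_rfl
    have h5 : 1 ≤ Real.exp (-(τ * r / 2)) * Real.exp (τ * A.sig ξ z) := by
      rw [← Real.exp_add]
      have := mul_le_mul_of_nonneg_left (not_lt.1 hs) hτ0.le
      exact Real.one_le_exp (by linarith)
    have h6 : n1 (fun w => (θ (A.sig ξ w) - 1) * f w) z ≤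
        2 * |B| * (τ * (f z ^ 2 + τ⁻¹ * ∑ i, dp i f z ^ 2)) :=
      h2.trans (mul_le_mul (mul_le_mul_of_nonneg_left h3 zero_le_two) h4 (n1_nonneg f z)
        (by positivity))
    calc _ ≤ A.W ξ τ z ^ 2 * (2 * |B| * (τ * (f z ^ 2 + τ⁻¹ * ∑ i, dp i f z ^ 2))) * 1 := by
          rw [mul_one]
          exact mul_le_mul_of_nonneg_left h6 (sq_nonneg _)
      _ ≤ A.W ξ τ z ^ 2 * (2 * |B| * (τ * (f z ^ 2 + τ⁻¹ * ∑ i, dp i f z ^ 2))) *
          (Real.exp (-(τ * r / 2)) * Real.exp (τ * A.sig ξ z)) :=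
          mul_le_mul_of_nonneg_left h5 (by positivity)
      _ = _ := by ring

end Pool.Agent.Lib.MP_45f3cb_gt
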