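import Pool.Agent.Lib.MP_45f3cb_gt.Lay3
import Pool.Agent.Lib.MP_45f3cb_gt.Gauge

/-!
The theorem in Hamiltonian form.
-/

open Set MeasureTheory

namespace Pool.Agent.Lib.MP_45f3cb_gt

variable {n d : ℕ} {D : Dom n} {ξ : V n → V n} {θ : ℝ → V n → V n} {e m : ℝ} {f : Z n → ℝ}

/-- Sketch: `a` of `Met.le_H_of_psi` for `c / 2`, made smaller than `4 m + 1`; `exists_cut` with
`κ = 1` on `[a, 4 m + 1]` and `h₁ = 4 m + 2` (`Met.H_le_of_psi`); `GF.gauge`, `GF.claim`: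
`sol f = v + h` on `{psi > c}`. -/
theorem GF.sol_claim (P : GF D (4 * m + 3)) (hn : 0 < n) (hK : Kil D ξ) (hθ : IsFlow ξ θ)
    (hm0 : 0 ≤ m) (hm : ∀ x, D.b x ≤ 0 → D.rho ξ x ≤ m) (hf : Sm f) (hp : FP (d + 1) f)
    (hS : D.Seg f) {x : V n} (hx : D.b x ≤ 0) {c : ℝ} (hc : 0 < c) :
    ∃ q ∈ HP n d, ∀ p, c < D.psi ξ (x, p) → P.sol f (x, p) = q p := by
  obtain ⟨a, ha, h1⟩ := D.le_H_of_psi hK.sm D.compact (half_pos hc)
  have ha' : 0 < min a (4 * m + 1) := lt_min ha (by linarith)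
  obtain ⟨κ, hκ, hone⟩ := exists_cut (half_pos ha') (half_lt_self ha') (min_le_right _ _)
    (show 4 * m + 1 < 4 * m + 2 by linarith)
  have hlt : 4 * m + 2 < 4 * m + 3 := by linarith
  have hone' : ∀ z : Z n, D.b z.1 ≤ 0 → c / 2 ≤ D.psi ξ z → κ (D.H z) = 1 := fun z hz hz' => by
    have h2 := D.H_le_of_psi ξ ((half_pos hc).le.trans hz')
    have h3 := hm z.1 hz
    exact hone _ ⟨(min_le_left _ _).trans (h1 z hz hz'), by linarith⟩
  obtain ⟨h, v, f', hv, hh, -, -, -, hvu⟩ := P.gauge hn hκ hlt hf hp hS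
  obtain ⟨q, hq, h2⟩ := P.claim hn hK hθ hκ hlt hc hone'
    (fun y hy => by linarith [hm y hy]) v f' hv x
  refine ⟨q + fun p => h (x, p), (HP n d).add_mem hq (hh x), fun p hp' => ?_⟩
  have h3 := (hvu (x, p) hx).1
  rw [hone' (x, p) hx (by linarith), h2 p hp'] at h3
  simp only [Pi.add_apply]
  linarith

/-- Sketch: `v (x, p) = κ (H) (q p - h (x, p))` for `lin ξ (x, p) ≠ 0` (if `κ (H) ≠ 0` then `H < e`),
hence for all `p` by continuity (the complement of a hyperplane is dense); `hv.orth` and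
`proj_unique` for the weight `κ (H)²` give `q = h (x, ·)`. -/
theorem KC.zero_fib {κ : ℝ → ℝ} {h₀ h₁ : ℝ} {v f' h u : Z n → ℝ} (hn : 0 < n) (hκ : Cut κ h₀ h₁)
    (h1 : h₁ < e) (hv : KC D d κ h₀ h₁ v f') (hh : FP d h) {x : V n} (hx : ξ x ≠ 0)
    (hvu : ∀ p, v (x, p) = κ (D.H (x, p)) * (u (x, p) - h (x, p))) {q : V n → ℝ} (hq : q ∈ HP n d)
    (hu : ∀ p, D.H (x, p) < e → lin ξ (x, p) ≠ 0 → u (x, p) = q p) (p : V n) : v (x, p) = 0 := by
  have hr : (q - fun p => h (x, p)) ∈ HP n d := (HP n d).sub_mem hq (hh x)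
  have hκH : Continuous fun z : Z n => κ (D.H z) := hκ.sm.continuous.comp D.sm_H.continuous
  have h2 : ∀ p, lin ξ (x, p) ≠ 0 →
      v (x, p) = κ (D.H (x, p)) * (q - fun p => h (x, p) : V n → ℝ) p := fun p hp => by
    rw [hvu p]
    by_cases h3 : κ (D.H (x, p)) = 0
    · rw [h3, zero_mul, zero_mul]
    · have h4 : D.H (x, p) ∈ Icc h₀ h₁ := by_contra fun h4 => h3 (hκ.supp _ h4)
      rw [hu p (h4.2.trans_lt h1) hp]
      rfl
  have hS : 0 < ∑ i, ξ x i * ξ x i := by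
    obtain ⟨i, hi⟩ := Function.ne_iff.1 hx
    exact Finset.sum_pos' (fun j _ => mul_self_nonneg _)
      ⟨i, Finset.mem_univ _, mul_self_pos.2 hi⟩
  have h3 : ∀ p, v (x, p) = κ (D.H (x, p)) * (q - fun p => h (x, p) : V n → ℝ) p := fun p => by
    have hl : Continuous fun t : ℝ => p + t • ξ x := by fun_prop
    have hl' : Continuous fun t : ℝ => ((x, p + t • ξ x) : Z n) := continuous_const.prodMk hl
    have h4 := Continuous.ext_on (dense_compl_singleton (-lin ξ (x, p) / ∑ i, ξ x i * ξ x i))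
      (hv.smv.continuous.comp hl') ((hκH.comp hl').mul ((HP_sm hr).continuous.comp hl))
      fun t ht => h2 _ fun h5 => ht (by
        have h6 : lin ξ (x, p + t • ξ x) = lin ξ (x, p) + t * ∑ i, ξ x i * ξ x i := by
          simp only [lin, Pi.add_apply, Pi.smul_apply, smul_eq_mul, Finset.mul_sum,
            ← Finset.sum_add_distrib]
          exact Finset.sum_congr rfl fun i _ => by ring
        rw [mem_singleton_iff, eq_div_iff hS.ne']
        linarith)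
    simpa using congrFun h4 0
  have h4 := proj_unique (ω := fun z => κ (D.H z) ^ 2) (hκH.pow 2)
    (D.lb_H (s := h₁) fun z hz => by
      rw [hκ.supp _ fun h5 => absurd h5.2 (not_le.2 hz), zero_pow two_ne_zero])
    (fun z => sq_nonneg _) (x := x) ((hκ.fib D.toMet hn x).imp fun p hp => by positivity) hr
    (by
      rw [← hv.orth x _ hr]
      refine integral_congr_ae (Filter.Eventually.of_forall fun p => ?_)
      simp only [h3 p]
      ring) p
  rw [h3 p, h4, mul_zero]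

/-- Sketch: `n > 0` since `ξ x ≠ 0`; `Kil.complete`; `m` a bound of `rho` on `M`; `exists_GF` with
`e = 4 m + 3`; any cut-off (`exists_cut`); `GF.gauge`. By `GF.sol_claim`, `GF.sol_poly`,
`KC.zero_fib`, `v = 0` over `{b ≤ 0, ξ ≠ 0}`, so over `M` (`Kil.dense`), so everywhere. Then
`κ (H) f' = 0`, and `f' = 0` (`Cut.fib`, `HP_eq_zero`). -/
theorem ham_main (hK : Kil D ξ) (h0 : ∃ x, D.b x ≤ 0 ∧ ξ x ≠ 0) (hf : Sm f) (hp : FP (d + 1) f)
    (hS : D.Seg f) : ∃ h : Z n → ℝ, FP d h ∧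
      ContDiffOn ℝ (⊤ : ℕ∞) h ({x | D.b x ≤ 0} ×ˢ univ) ∧ (∀ z : Z n, D.b z.1 = 0 → h z = 0) ∧
      ∀ z : Z n, D.b z.1 < 0 → br D.H h z = f z := by
  obtain ⟨x₀, hx₀, hx₁⟩ := h0
  have hn : 0 < n := Nat.pos_of_ne_zero fun h => hx₁ (by
    subst h
    exact Subsingleton.elim _ _)
  obtain ⟨ξ', θ, hK', hθ, hξ⟩ := hK.complete
  obtain ⟨C, hC⟩ := D.compact.exists_bound_of_continuousOn
    (D.sm_rho hK'.sm).continuous.continuousOn
  have hm : ∀ x, D.b x ≤ 0 → D.rho ξ' x ≤ |C| := fun x hx =>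
    (le_abs_self _).trans ((hC x hx).trans (le_abs_self C))
  obtain ⟨P⟩ := exists_GF D (4 * |C| + 3)
  obtain ⟨κ, hκ, -⟩ := exists_cut (h₀ := 1 / 2) (a := 1) (b := 1) (h₁ := 2) (by norm_num)
    (by norm_num) le_rfl (by norm_num)
  have hlt : (2 : ℝ) < 4 * |C| + 3 := by linarith [abs_nonneg C]
  obtain ⟨h, v, f', hv, hh, -, hsm, hb, hvu⟩ := P.gauge hn hκ hlt hf hp hS
  have h1 : ∀ x, D.b x ≤ 0 → ξ' x ≠ 0 → ∀ p, v (x, p) = 0 := fun x hx hx' p => by
    obtain ⟨q, hq, hu⟩ := P.sol_poly hf.continuous hp hS hK'.sm hx hx' fun c hc =>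
      P.sol_claim hn hK' hθ (abs_nonneg C) hm hf hp hS hx hc
    exact hv.zero_fib (u := P.sol f) hn hκ hlt hh hx' (fun p => (hvu (x, p) hx).1) hq hu p
  have h2 : v = fun _ => 0 := funext fun z => by
    by_cases hz : D.b z.1 ≤ 0
    · exact closure_minimal (t := {y | v (y, z.2) = 0}) (fun y hy => h1 y hy.1 hy.2 z.2)
        (isClosed_eq (hv.smv.continuous.comp (Continuous.prodMk_left z.2)) continuous_const)
        (hK'.dense hx₀ (by rwa [hξ x₀ hx₀]) hz)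
    · exact hv.supp z fun h3 => hz h3.1
  refine ⟨h, hh, hsm, hb, fun z hz => ?_⟩
  have h3 : f' z = 0 := HP_eq_zero (hv.fp z.1) (O := {p | κ (D.H (z.1, p)) ≠ 0})
    (isOpen_ne_fun (hκ.sm.continuous.comp (D.sm_H.continuous.comp (Continuous.prodMk_right z.1)))
      continuous_const) (hκ.fib D.toMet hn z.1) (fun p hp' => by
        have h4 := hv.eq (z.1, p)
        rw [h2] at h4
        simp only [br, dx, dp, fderiv_fun_const, Pi.zero_apply, zero_apply, mul_zero, sub_zero,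
          Finset.sum_const_zero] at h4
        exact (mul_eq_zero.1 h4.symm).resolve_left hp') z.2
  have h4 := (hvu z hz.le).2
  linarith

end Pool.Agent.Lib.MP_45f3cb_gt
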