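import Pool.Agent.Lib.MP_45f3cb_gt.Calc

/-!
Second order rules: symmetry, commutators, the Jacobi identity, the linearised Hamilton equations.
-/

open Set MeasureTheory

namespace Pool.Agent.Lib.MP_45f3cb_gt

variable {n : ℕ} {a c F : Z n → ℝ} {z : Z n}

/-- `ContDiffAt.isSymmSndFDerivAt` -/
theorem fderiv_symm {E : Type} [NormedAddCommGroup E] [NormedSpace ℝ E] {u : E → ℝ} (h : Sm u)
    (y v w : E) : fderiv ℝ (fun y => fderiv ℝ u y v) y w = fderiv ℝ (fun y => fderiv ℝ u y w) y v := by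
  have hd : DifferentiableAt ℝ (fderiv ℝ u) y :=
    Sm.dAt (h.fderiv_right (m := (⊤ : ℕ∞)) le_rfl) y
  have key : ∀ v w : E, fderiv ℝ (fun y => fderiv ℝ u y v) y w = fderiv ℝ (fderiv ℝ u) y w v := by
    intro v w
    rw [fderiv_clm_apply hd (differentiableAt_const v)]
    simp
  rw [key, key]
  exact (h.contDiffAt.isSymmSndFDerivAt (by simp; exact WithTop.coe_le_coe.2 le_top)).eq w v

theorem dx_dx (h : Sm F) (i j : Fin n) (z : Z n) : dx i (dx j F) z = dx j (dx i F) z := by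
  exact fderiv_symm h z _ _

theorem dp_dp (h : Sm F) (i j : Fin n) (z : Z n) : dp i (dp j F) z = dp j (dp i F) z := by
  exact fderiv_symm h z _ _

theorem dx_dp (h : Sm F) (i j : Fin n) (z : Z n) : dx i (dp j F) z = dp j (dx i F) z := by
  exact fderiv_symm h z _ _

theorem pd_pd {u : V n → ℝ} (h : Sm u) (i j : Fin n) (x : V n) :
    pd i (pd j u) x = pd j (pd i u) x := by
  exact fderiv_symm h x _ _

theorem jac_br (ha : Sm a) (h : Sm F) (z v : Z n) :
    fderiv ℝ (br a F) z v =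
      br (fun y => fderiv ℝ a y v) F z + br a (fun y => fderiv ℝ F y v) z := by
  have h1 := HasFDerivAt.fun_sum (u := Finset.univ) fun i _ =>
    (((ha.dp i).dAt z).hasFDerivAt.fun_mul ((h.dx i).dAt z).hasFDerivAt).fun_sub
      (((ha.dx i).dAt z).hasFDerivAt.fun_mul ((h.dp i).dAt z).hasFDerivAt)
  have h2 : fderiv ℝ (br a F) z = _ := h1.fderiv
  rw [h2, br, br, ← Finset.sum_add_distrib, sum_apply]
  refine Finset.sum_congr rfl fun i _ => ?_
  have e1 : ∀ {u : Z n → ℝ}, Sm u → dx i (fun y => fderiv ℝ u y v) z = fderiv ℝ (dx i u) z v :=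
    fun hu => fderiv_symm hu z _ _
  have e2 : ∀ {u : Z n → ℝ}, Sm u → dp i (fun y => fderiv ℝ u y v) z = fderiv ℝ (dp i u) z v :=
    fun hu => fderiv_symm hu z _ _
  rw [e1 ha, e1 h, e2 ha, e2 h]
  simp only [sub_apply, add_apply, smul_apply, smul_eq_mul]
  ring

theorem dx_br (ha : Sm a) (h : Sm F) (i : Fin n) (z : Z n) :
    dx i (br a F) z = br (dx i a) F z + br a (dx i F) z := by
  exact jac_br ha h z _

theorem dp_br (ha : Sm a) (h : Sm F) (i : Fin n) (z : Z n) :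
    dp i (br a F) z = br (dp i a) F z + br a (dp i F) z := by
  exact jac_br ha h z _

/-- Jacobi identity -/
theorem br_br (ha : Sm a) (hc : Sm c) (h : Sm F) (z : Z n) :
    br a (br c F) z - br c (br a F) z = br (br a c) F z := by
  rw [br_eq a (br c F), br_eq c (br a F), br_anti (br a c) F, br_eq F (br a c), jac_br hc h,
    jac_br ha h, jac_br ha hc, br_anti _ F, br_anti _ F, br_anti _ c]
  simp only [br_eq]
  rw [fderiv_symm h z (hv a z), fderiv_symm hc z (hv a z), fderiv_symm ha z (hv c z)]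
  ring

theorem jac_fst (ha : Sm a) (z w : Z n) (i : Fin n) :
    (fderiv ℝ (hv a) z w).1 i = fderiv ℝ (dp i a) z w := by
  have h1 : HasFDerivAt (dp i a) _ z := hasFDerivAt_pi'.1 (ha.hv.dAt z).hasFDerivAt.fst i
  rw [h1.fderiv]
  rfl

theorem jac_snd (ha : Sm a) (z w : Z n) (i : Fin n) :
    (fderiv ℝ (hv a) z w).2 i = -fderiv ℝ (dx i a) z w := by
  have h1 : HasFDerivAt (fun z => -dx i a z) _ z :=
    hasFDerivAt_pi'.1 (ha.hv.dAt z).hasFDerivAt.snd i
  have h2 := h1.fderiv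
  rw [fderiv_fun_neg] at h2
  rw [← neg_apply, h2]
  rfl

theorem fderiv_hv_fst (ha : Sm a) (z w : Z n) (i : Fin n) :
    (fderiv ℝ (hv a) z w).1 i = ∑ j, (w.1 j * dx j (dp i a) z + w.2 j * dp j (dp i a) z) := by
  rw [jac_fst ha, fderiv_eq_sum]

theorem fderiv_hv_snd (ha : Sm a) (z w : Z n) (i : Fin n) :
    (fderiv ℝ (hv a) z w).2 i = -∑ j, (w.1 j * dx j (dx i a) z + w.2 j * dp j (dx i a) z) := by
  rw [jac_snd ha, fderiv_eq_sum]

/-- the commutator of two Hamiltonian fields -/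
theorem hv_comm (ha : Sm a) (hc : Sm c) (z : Z n) :
    fderiv ℝ (hv c) z (hv a z) - fderiv ℝ (hv a) z (hv c z) = hv (br a c) z := by
  refine Prod.ext (funext fun i => ?_) (funext fun i => ?_)
  · rw [Prod.fst_sub, Pi.sub_apply, jac_fst hc, jac_fst ha, ← br_eq, ← br_eq, br_anti c]
    change _ = dp i (br a c) z
    rw [dp_br ha hc]
    ring
  · rw [Prod.snd_sub, Pi.sub_apply, jac_snd hc, jac_snd ha, ← br_eq, ← br_eq, br_anti c]
    change _ = -dx i (br a c) z
    rw [dx_br ha hc]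
    ring

/-- along an integral curve of `hv a` the field `hv c` solves the linearised equation where the
bracket has zero differential -/
theorem hv_jac (ha : Sm a) (hc : Sm c) {γ : ℝ → Z n} {t : ℝ} (hγ : HasDerivAt γ (hv a (γ t)) t)
    (h0 : fderiv ℝ (br a c) (γ t) = 0) :
    HasDerivAt (fun r => hv c (γ r)) (fderiv ℝ (hv a) (γ t) (hv c (γ t))) t := by
  have h1 := (hc.hv.dAt (γ t)).hasFDerivAt.comp_hasDerivAt t hγ
  have h2 : hv (br a c) (γ t) = 0 := by
    refine Prod.ext (funext fun i => ?_) (funext fun i => ?_) <;> simp [hv, dx, dp, h0]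
  have h3 := hv_comm ha hc (γ t)
  rw [h2, sub_eq_zero] at h3
  rw [← h3]
  exact h1

/-- the symplectic form of two solutions of the linearised equation is constant -/
theorem wronski (ha : Sm a) {γ y y' : ℝ → Z n} {t : ℝ}
    (hy : HasDerivAt y (fderiv ℝ (hv a) (γ t) (y t)) t)
    (hy' : HasDerivAt y' (fderiv ℝ (hv a) (γ t) (y' t)) t) :
    HasDerivAt (fun r => ∑ i, ((y r).1 i * (y' r).2 i - (y r).2 i * (y' r).1 i)) 0 t := by
  have c1 : ∀ {y : ℝ → Z n} {w : Z n}, HasDerivAt y w t → ∀ i,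
      HasDerivAt (fun r => (y r).1 i) (w.1 i) t := fun h i => hasDerivAt_pi.1 h.fst i
  have c2 : ∀ {y : ℝ → Z n} {w : Z n}, HasDerivAt y w t → ∀ i,
      HasDerivAt (fun r => (y r).2 i) (w.2 i) t := fun h i => hasDerivAt_pi.1 h.snd i
  have h1 := HasDerivAt.fun_sum (u := Finset.univ) fun i _ =>
    ((c1 hy i).fun_mul (c2 hy' i)).fun_sub ((c2 hy i).fun_mul (c1 hy' i))
  refine h1.congr_deriv ?_
  have e : ∀ u w : Z n, fderiv ℝ (fun y => fderiv ℝ a y w) (γ t) u =
      ∑ i, (u.1 i * fderiv ℝ (dx i a) (γ t) w + u.2 i * fderiv ℝ (dp i a) (γ t) w) := by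
    intro u w
    rw [fderiv_eq_sum]
    refine Finset.sum_congr rfl fun i _ => ?_
    rw [dx, dp, fderiv_symm ha _ w, fderiv_symm ha _ w]
    rfl
  have h2 := fderiv_symm ha (γ t) (y t) (y' t)
  rw [e, e, ← sub_eq_zero, ← Finset.sum_sub_distrib] at h2
  rw [← h2]
  refine Finset.sum_congr rfl fun i _ => ?_
  rw [jac_fst ha, jac_fst ha, jac_snd ha, jac_snd ha]
  ring

theorem Traj.der {γ : ℝ → Z n} {s : Set ℝ} (h : Traj a γ s) {t : ℝ} (ht : t ∈ s)
    (hF : DifferentiableAt ℝ F (γ t)) : HasDerivAt (fun r => F (γ r)) (br a F (γ t)) t := by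
  rw [br_eq]
  exact hF.hasFDerivAt.comp_hasDerivAt t (h t ht)

end Pool.Agent.Lib.MP_45f3cb_gt
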