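import Pool.Agent.Lib.MP_45f3cb_gt.ProjB
import Pool.Agent.Lib.MP_45f3cb_gt.KilF
import Pool.Agent.Lib.MP_45f3cb_gt.Exit4

/-!
One layer: the localised solution lies in the class `CC`.
-/

open Set MeasureTheory

namespace Pool.Agent.Lib.MP_45f3cb_gt

variable {n d : ℕ} {D : Dom n} {ξ : V n → V n} {κ β χ η ζ : ℝ → ℝ} {e h₀ h₁ c₀ c δ δ₀ : ℝ}
  {v f h : Z n → ℝ}

theorem LC.weight (L : LC β χ η ζ c₀ c δ) (A : Met n) (hξ : Sm ξ) :
    Sm (fun z => β (A.sig ξ z)) ∧ LB (fun z => β (A.sig ξ z)) ∧ (∀ z, 0 ≤ β (A.sig ξ z)) ∧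
      (∀ z, β (A.sig ξ z) ≤ 1) ∧ ∀ x, ∃ p, 0 < β (A.sig ξ (x, p)) := by
  refine ⟨L.smβ.comp (A.sm_sig hξ), A.lb_sig hξ (s := δ / 2) fun z hz => L.βzero _ hz.le,
    fun z => L.β0 _, fun z => L.β1 _, fun x => ⟨A.fl ξ x, ?_⟩⟩
  rw [A.sig_fl]
  exact L.βpos

/-- `PD.eq` with `q = 0` -/
theorem lay_h0 (L : LC β χ η ζ c₀ c δ) (hξ : Sm ξ) (H : PD d (fun z => β (D.sig ξ z)) v h)
    {x : V n} (hx : ∀ p, v (x, p) = 0) (p : V n) : h (x, p) = 0 := by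
  obtain ⟨w1, w2, w3, -, w5⟩ := L.weight D.toMet hξ
  exact H.eq w1.continuous w2 w3 (w5 x) (HP n d).zero_mem (fun p _ => hx p) p

/-- `PD.eq`: `β (sig) ≠ 0` and `rho ≥ c + δ / 2` give `psi > c` -/
theorem lay_eq (L : LC β χ η ζ c₀ c δ) (hξ : Sm ξ) (hC : Claim D ξ d κ h₀ h₁ c)
    (hv : KC D d κ h₀ h₁ v f) (H : PD d (fun z => β (D.sig ξ z)) v h) {z : Z n}
    (h1 : c + δ / 2 ≤ D.rho ξ z.1) (h2 : c < D.psi ξ z) : v z = h z := by
  obtain ⟨w1, w2, w3, -, w5⟩ := L.weight D.toMet hξ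
  obtain ⟨q, hq, hvq⟩ := hC v f hv z.1
  have h3 : h (z.1, z.2) = q z.2 := by
    refine H.eq w1.continuous w2 w3 (w5 z.1) hq (fun p hp => hvq p ?_) z.2
    have h4 : D.sig ξ (z.1, p) < δ / 2 := not_le.1 fun h5 => hp (L.βzero _ h5)
    have h5 : D.sig ξ (z.1, p) = D.rho ξ z.1 - D.psi ξ (z.1, p) := rfl
    linarith
  exact (hvq z.2 h2).trans h3.symm

/-- off `M` both `v` and `h` vanish near the point -/
theorem Lay1_out (L : LC β χ η ζ c₀ c δ) (hξ : Sm ξ) (hv : KC D d κ h₀ h₁ v f)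
    (H : PD d (fun z => β (D.sig ξ z)) v h) {z : Z n} (hb : 0 < D.b z.1) :
    (v =ᶠ[nhds z] fun _ => 0) ∧ h =ᶠ[nhds z] fun _ => 0 := by
  have e1 : ∀ᶠ w in nhds z, 0 < D.b w.1 :=
    D.sm_bz.continuous.continuousAt.eventually (lt_mem_nhds hb)
  have e2 : ∀ w : Z n, 0 < D.b w.1 → ∀ p, v (w.1, p) = 0 := fun w hw p =>
    hv.supp _ fun a => absurd a.1 (not_le.2 hw)
  exact ⟨e1.mono fun w hw => e2 w hw w.2, e1.mono fun w hw => lay_h0 L hξ H (e2 w hw) w.2⟩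

/-- Sketch: for `b > 0` both sides vanish (`lay_h0` near the point). For `b ≤ 0`, on the open set
`{rho > c + δ / 2, psi > c}` one has `v = h`, so `br H h = κ f = f` (`br_congr`); the fibre of this set
contains `fl x`; `HP_eq`, `FP.br_H`. -/
theorem lay_br (L : LC β χ η ζ c₀ c δ) (hξ : Sm ξ) (hC : Claim D ξ d κ h₀ h₁ c) (h0 : 0 < c₀)
    (hc : c₀ ≤ c) (hδ : 0 < δ)
    (hone : ∀ z : Z n, D.b z.1 ≤ 0 → c₀ / 2 ≤ D.psi ξ z → κ (D.H z) = 1)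
    (hv : KC D d κ h₀ h₁ v f) (H : PD d (fun z => β (D.sig ξ z)) v h) {z : Z n}
    (h1 : c + δ / 2 < D.rho ξ z.1) : br D.H h z = f z := by
  rcases lt_or_ge 0 (D.b z.1) with hb | hb
  · rw [br_congr (Lay1_out L hξ hv H hb).2, br_const, hv.suppf z hb]
  · have hO : IsOpen {p : V n | c < D.psi ξ (z.1, p)} :=
      isOpen_lt continuous_const ((D.sm_psi hξ).continuous.comp (Continuous.prodMk_right z.1))
    have hne : {p : V n | c < D.psi ξ (z.1, p)}.Nonempty := by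
      refine ⟨D.fl ξ z.1, ?_⟩
      have h2 : D.rho ξ z.1 - D.psi ξ (z.1, D.fl ξ z.1) = 0 := D.sig_fl z.1
      change c < D.psi ξ (z.1, D.fl ξ z.1)
      linarith
    refine HP_eq (FP.br_H D.toMet H.fp (FlowD_diff H.sm) z.1) (hv.fp z.1) hO hne
      (fun p hp => ?_) z.2
    have hp' : c < D.psi ξ (z.1, p) := hp
    have e1 : ∀ᶠ w in nhds ((z.1, p) : Z n), c + δ / 2 < D.rho ξ w.1 :=
      ((D.sm_rho hξ).continuous.comp continuous_fst).continuousAt.eventually (lt_mem_nhds h1)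
    have e2 : ∀ᶠ w in nhds ((z.1, p) : Z n), c < D.psi ξ w :=
      (D.sm_psi hξ).continuous.continuousAt.eventually (lt_mem_nhds hp')
    have e3 : h =ᶠ[nhds ((z.1, p) : Z n)] v := by
      filter_upwards [e1, e2] with w a1 a2
      exact (lay_eq L hξ hC hv H a1.le a2).symm
    change br D.H h (z.1, p) = f (z.1, p)
    rw [br_congr e3, hv.eq, hone (z.1, p) hb (by linarith), one_mul]

theorem lay_sm (L : LC β χ η ζ c₀ c δ) (A : Met n) (hξ : Sm ξ) (hv : Sm v) (hf : Sm f) (hh : Sm h) :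
    Sm (layU A ξ χ η v h) ∧ Sm (layF A ξ χ ζ f h) := by
  have h1 : Sm fun w : Z n => A.rho ξ w.1 := (A.sm_rho hξ).comp contDiff_fst
  have h2 : Sm fun w : Z n => χ (A.rho ξ w.1) := L.smχ.comp h1
  exact ⟨(L.smη.comp (A.sm_psi hξ)).mul (hv.sub (h2.mul hh)),
    (L.smζ.comp h1).mul (((contDiff_const.sub h2).mul hf).sub ((A.sm_H.br h2).mul hh))⟩

/-- `br H (χ ∘ rho)` is fibrewise linear (`FP.br_H` for degree `0`), `FP.mul`, `FP.fst_mul` -/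
theorem lay_fp (L : LC β χ η ζ c₀ c δ) (A : Met n) (hξ : Sm ξ) (hf : FP (d + 1) f) (hh : FP d h) :
    FP (d + 1) (layF A ξ χ ζ f h) := by
  have h1 : Sm fun w : Z n => χ (A.rho ξ w.1) := L.smχ.comp ((A.sm_rho hξ).comp contDiff_fst)
  have h2 : FP 0 fun w : Z n => χ (A.rho ξ w.1) := fun x => HP_const (χ (A.rho ξ x))
  have h3 := hh.mul (FP.br_H A h2 (FlowD_diff h1))
  have h4 : FP (d + 1) fun z => br A.H (fun w : Z n => χ (A.rho ξ w.1)) z * h z :=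
    PolyB_congr h3 fun z => mul_comm _ _
  exact ((hf.fst_mul fun x => 1 - χ (A.rho ξ x)).sub h4).fst_mul fun x => ζ (A.rho ξ x)

/-- Sketch: over `M`, `br H psi = 0`; off `M`, `v = h = f = 0` near the point. If `η (psi) ≠ 0` then
`rho ≥ psi > c - 2 δ ≥ 2 c₀ / 3`, so `ζ = 1` and `κ = 1`; `χ * br H h = χ * f` by `lay_br`. -/
theorem lay_ode (L : LC β χ η ζ c₀ c δ) (hK : Kil D ξ) (hC : Claim D ξ d κ h₀ h₁ c) (h0 : 0 < c₀)
    (hc : c₀ ≤ c) (hδ : 0 < δ) (h6 : 6 * δ ≤ c₀)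
    (hone : ∀ z : Z n, D.b z.1 ≤ 0 → c₀ / 2 ≤ D.psi ξ z → κ (D.H z) = 1)
    (hv : KC D d κ h₀ h₁ v f) (H : PD d (fun z => β (D.sig ξ z)) v h) (z : Z n) :
    br D.H (layU D.toMet ξ χ η v h) z = η (D.psi ξ z) * layF D.toMet ξ χ ζ f h z := by
  have hξ := hK.sm
  rcases lt_or_ge 0 (D.b z.1) with hb | hb
  · obtain ⟨o1, o2⟩ := Lay1_out L hξ hv H hb
    have e1 : layU D.toMet ξ χ η v h =ᶠ[nhds z] fun _ => 0 := by
      filter_upwards [o1, o2] with w a1 a2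
      simp [layU, a1, a2]
    rw [br_congr e1, br_const]
    simp [layF, hv.suppf z hb, o2.self_of_nhds]
  · have h1 : Sm fun w : Z n => χ (D.rho ξ w.1) := L.smχ.comp ((D.sm_rho hξ).comp contDiff_fst)
    have h2 : Sm fun w : Z n => η (D.psi ξ w) := L.smη.comp (D.sm_psi hξ)
    have h3 : Sm fun w : Z n => χ (D.rho ξ w.1) * h w := h1.mul H.sm
    have h4 : Sm fun w : Z n => v w - χ (D.rho ξ w.1) * h w := hv.smv.sub h3
    have e1 : br D.H (layU D.toMet ξ χ η v h) z =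
        br D.H (fun w => η (D.psi ξ w) * (v w - χ (D.rho ξ w.1) * h w)) z := rfl
    rw [e1, br_mul (h2.dAt z) (h4.dAt z), br_comp (L.smη.dAt _) ((D.sm_psi hξ).dAt z),
      hK.br_psi hb, mul_zero, zero_mul, zero_add, br_sub (hv.smv.dAt z) (h3.dAt z),
      br_mul (h1.dAt z) (H.sm.dAt z)]
    by_cases hη : η (D.psi ξ z) = 0
    · rw [hη, zero_mul, zero_mul]
    have a1 : c - 2 * δ < D.psi ξ z := not_le.1 fun a => hη (L.ηzero _ a)
    have a2 := D.psi_le_rho ξ z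
    have a3 : χ (D.rho ξ z.1) * br D.H h z = χ (D.rho ξ z.1) * f z := by
      rcases le_or_gt (D.rho ξ z.1) (c + δ / 2) with a | a
      · rw [L.χzero _ a, zero_mul, zero_mul]
      · rw [lay_br L hξ hC h0 hc hδ hone hv H a]
    rw [a3, hv.eq, hone z hb (by linarith), layF, L.ζone _ (by linarith)]
    ring

/-- for `rho > c + δ` one has `χ ∘ rho = 1` near the point -/
theorem lay_suppF (L : LC β χ η ζ c₀ c δ) (hξ : Sm ξ) {Ms : Set (V n)}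
    (hs : ∀ z : Z n, z.1 ∉ Ms → v z = 0 ∧ f z = 0) (H : PD d (fun z => β (D.sig ξ z)) v h)
    {z : Z n} (hz : layF D.toMet ξ χ ζ f h z ≠ 0) :
    z.1 ∈ Ms ∩ {x | c₀ / 2 ≤ D.rho ξ x} ∧ D.rho ξ z.1 ≤ c + δ := by
  refine ⟨⟨?_, ?_⟩, ?_⟩
  · by_contra a
    have a1 : h (z.1, z.2) = 0 := lay_h0 L hξ H (fun p => (hs (z.1, p) a).1) z.2
    exact hz (by simp [layF, (hs z a).2, a1])
  · by_contra a
    have a1 : D.rho ξ z.1 < c₀ / 2 := not_le.1 a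
    exact hz (by rw [layF, L.ζzero _ a1.le, zero_mul])
  · by_contra a
    have a1 : c + δ < D.rho ξ z.1 := not_le.1 a
    have e1 : ∀ᶠ w in nhds z, c + δ < D.rho ξ w.1 :=
      ((D.sm_rho hξ).continuous.comp continuous_fst).continuousAt.eventually (lt_mem_nhds a1)
    have e2 : (fun w : Z n => χ (D.rho ξ w.1)) =ᶠ[nhds z] fun _ => 1 :=
      e1.mono fun w hw => L.χone _ hw.le
    exact hz (by rw [layF, br_congr e2, br_const, L.χone _ a1.le]; ring)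

/-- Sketch: only `rho ≤ c + 2 δ` on the support of `U = layU` is not immediate. Suppose `U z ≠ 0` and
`rho > c + δ`. Apply `GF.two_sided` to `U` (it vanishes for `b = 0`: `Dom.zero_pos`; the energy of `z`
is in `[h₀, h₁]` since `κ (H z) = 1`). If `br H U ≠ 0` at `Φ s z` and `Φ t z`, both points lie in
`tube K (3 δ)` and have `rho ≤ c + δ` (`lay_ode`, `lay_suppF`); `Dip` for the start `Φ s z`, the
length `t - s` and the time `-s` (`IsFlow.add`) gives `rho z.1 ≤ c + δ`. -/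
theorem lay_cc (P : GF D e) (L : LC β χ η ζ c₀ c δ) (hK : Kil D ξ) (hκ : Cut κ h₀ h₁) (h1 : h₁ < e)
    (hC : Claim D ξ d κ h₀ h₁ c) (h0 : 0 < c₀) (hc : c₀ ≤ c) (hδ : 0 < δ) (h6 : 6 * δ ≤ c₀)
    (h3 : 3 * δ ≤ δ₀) (hone : ∀ z : Z n, D.b z.1 ≤ 0 → c₀ / 2 ≤ D.psi ξ z → κ (D.H z) = 1)
    {Ms : Set (V n)} (hM : ∀ x ∈ Ms, D.b x ≤ 0)
    (hD : P.Dip ξ (Ms ∩ {x | c₀ / 2 ≤ D.rho ξ x}) δ₀) (hv : KC D d κ h₀ h₁ v f)
    (hs : ∀ z : Z n, z.1 ∉ Ms → v z = 0 ∧ f z = 0) (H : PD d (fun z => β (D.sig ξ z)) v h) :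
    CC D.toMet ξ d (Ms ∩ {x | c₀ / 2 ≤ D.rho ξ x}) η c δ (layU D.toMet ξ χ η v h)
      (layF D.toMet ξ χ ζ f h) := by
  have hξ := hK.sm
  obtain ⟨s1, s2⟩ := lay_sm L D.toMet hξ hv.smv hv.smf H.sm
  have hode := lay_ode L hK hC h0 hc hδ h6 hone hv H
  have hout : ∀ z : Z n, z.1 ∉ Ms → layU D.toMet ξ χ η v h z = 0 := by
    intro z a
    have a1 : h (z.1, z.2) = 0 := lay_h0 L hξ H (fun p => (hs (z.1, p) a).1) z.2
    simp [layU, (hs z a).1, a1]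
  refine ⟨s1, s2, lay_fp L D.toMet hξ hv.fp H.fp, fun z hz => ?_, fun z hz => ?_, hode⟩
  swap
  · obtain ⟨a1, a2⟩ := lay_suppF L hξ hs H hz
    exact ⟨a1, by linarith⟩
  have a1 : z.1 ∈ Ms := by
    by_contra a
    exact hz (hout z a)
  have a2 : c - 2 * δ < D.psi ξ z := not_le.1 fun a => hz (by rw [layU, L.ηzero _ a, zero_mul])
  have a3 := D.psi_le_rho ξ z
  have a4 : c₀ / 2 ≤ D.rho ξ z.1 := by linarith
  refine ⟨⟨a1, a4⟩, a2.le, ?_⟩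
  by_contra a
  have a5 : c + 2 * δ < D.rho ξ z.1 := not_le.1 a
  have a6 : D.H z ∈ Icc h₀ h₁ := by
    by_contra a7
    have a8 := hone z (hM _ a1) (by linarith)
    rw [hκ.supp _ a7] at a8
    exact zero_ne_one a8
  have htube : ∀ y : Z n, br D.H (layU D.toMet ξ χ η v h) y ≠ 0 →
      y ∈ D.tube ξ (Ms ∩ {x | c₀ / 2 ≤ D.rho ξ x}) δ₀ ∧ D.rho ξ y.1 ≤ c + δ := by
    intro y hy
    rw [hode, mul_ne_zero_iff] at hy
    obtain ⟨b1, b2⟩ := lay_suppF L hξ hs H hy.2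
    have b3 : c - 2 * δ < D.psi ξ y := not_le.1 fun b => hy.1 (L.ηzero _ b)
    have b4 : D.sig ξ y = D.rho ξ y.1 - D.psi ξ y := rfl
    exact ⟨⟨b1, by linarith⟩, b2⟩
  refine hz (P.two_sided (s1.of_le (by exact_mod_cast le_top)) (fun y hy => ?_) (hM _ a1)
    (hκ.pos.trans_le a6.1) (a6.2.trans_lt h1) fun s t hs0 ht0 hseg => ?_)
  · exact D.zero_pos s1.continuous (fun w hw => hout w fun b => absurd (hM _ b) (not_le.2 hw))
      hy.ge
  · by_contra b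
    rw [not_or] at b
    obtain ⟨b1, b2⟩ := htube _ b.1
    obtain ⟨b3, b4⟩ := htube _ b.2
    have e1 : P.Φ (t - s) (P.Φ s z) = P.Φ t z := by rw [← P.flow.add, sub_add_cancel]
    have e2 : P.Φ (-s) (P.Φ s z) = z := by rw [← P.flow.add, neg_add_cancel, P.flow.zero]
    have b5 := hD (P.Φ s z) (t - s) (by linarith) (fun r hr => by
      rw [← P.flow.add]
      exact hseg _ ⟨by linarith [hr.1], by linarith [hr.2]⟩) b1 (e1 ▸ b3) (-s)
      ⟨by linarith, by linarith⟩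
    rw [e1, e2] at b5
    have b6 := b5.trans (max_le b2 b4)
    linarith

end Pool.Agent.Lib.MP_45f3cb_gt
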