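import Pool.Agent.Lib.MP_45f3cb_gt.Lay1

/-!
One layer: equivariance and bounds.
-/

open Set MeasureTheory

namespace Pool.Agent.Lib.MP_45f3cb_gt

variable {n d : ℕ} {D : Dom n} {ξ : V n → V n} {κ β χ η ζ : ℝ → ℝ} {e h₀ h₁ c₀ c δ : ℝ}
  {v f h : Z n → ℝ}

theorem exists_LC {c₀ c δ : ℝ} (h0 : 0 < c₀) (hδ : 0 < δ) :
    ∃ β χ η ζ, LC β χ η ζ c₀ c δ := by
  obtain ⟨β, b1, b2, b3, -, b5, b6⟩ := exists_step' (a := 0) (b := δ / 2) (by linarith)
  obtain ⟨χ, c1, -, -, c4, c5, -⟩ := exists_step (a := c + δ / 2) (b := c + δ) (by linarith)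
  obtain ⟨η, e1, -, -, e4, e5, -⟩ := exists_step (a := c - 2 * δ) (b := c - δ) (by linarith)
  obtain ⟨ζ, z1, -, -, z4, z5, -⟩ := exists_step (a := c₀ / 2) (b := 2 * c₀ / 3) (by linarith)
  exact ⟨β, χ, η, ζ, b1, c1, e1, z1, b2, b3, b6 0 (by linarith), b5, c4, c5, e4, e5, z4, z5⟩

/-- an invariant factor commutes with `br L` on functions that vanish off `M` -/
theorem Dom.inv_mul (D : Dom n) {L a w : Z n → ℝ} (ha : Sm a) (hw : Sm w)
    (h : ∀ z : Z n, D.b z.1 ≤ 0 → br L a z = 0) (h0 : ∀ z : Z n, 0 < D.b z.1 → w z = 0) (z : Z n) :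
    br L (fun y => a y * w y) z = a z * br L w z := by
  rw [br_mul (ha.dAt z) (hw.dAt z)]
  rcases le_or_gt (D.b z.1) 0 with hz | hz
  · rw [h z hz, zero_mul, zero_add]
  · rw [h0 z hz, mul_zero, zero_add]

theorem Lay2_v0 (hv : KC D d κ h₀ h₁ v f) (z : Z n) (hz : 0 < D.b z.1) : v z = 0 :=
  hv.supp z fun hs => absurd hs.1 (not_le.2 hz)

theorem Lay2_h0 (L : LC β χ η ζ c₀ c δ) (hξ : Sm ξ) (hv : KC D d κ h₀ h₁ v f)
    (H : PD d (fun z => β (D.sig ξ z)) v h) (z : Z n) (hz : 0 < D.b z.1) : h z = 0 :=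
  lay_h0 L hξ H (x := z.1) (fun p => Lay2_v0 hv (z.1, p) hz) z.2

theorem Lay2_comp {φ : ℝ → ℝ} {L F : Z n → ℝ} (hφ : Sm φ) (hF : Sm F) {z : Z n}
    (h : br L F z = 0) : br L (fun w => φ (F w)) z = 0 := by
  rw [br_comp (hφ.dAt _) (hF.dAt z), h, mul_zero]

theorem Lay2_bdd {S : Set (Z n)} (hS : IsCompact S) {a : Z n → ℝ} (ha : Continuous a) :
    ∃ B : ℝ, 0 ≤ B ∧ ∀ z ∈ S, a z ≤ B := by
  obtain ⟨B, hB⟩ := hS.bddAbove_image ha.continuousOn
  exact ⟨max B 0, le_max_right _ _, fun z hz => (hB (mem_image_of_mem a hz)).trans (le_max_left _ _)⟩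

theorem Lay2_int {S : Set (Z n)} (hS : IsCompact S) {u a b : Z n → ℝ} (hu : Continuous u)
    (ha : Continuous a) (hb : Continuous b) {B : ℝ} (h : ∀ z ∈ S, u z ≤ B * (a z + b z)) :
    ∫ z in S, u z ≤ B * ((∫ z in S, a z) + ∫ z in S, b z) := by
  have ia : IntegrableOn a S := ha.continuousOn.integrableOn_compact hS
  have ib : IntegrableOn b S := hb.continuousOn.integrableOn_compact hS
  rw [← integral_add ia ib, ← integral_const_mul]
  exact setIntegral_mono_on (hu.continuousOn.integrableOn_compact hS) ((ia.add ib).const_mul B)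
    hS.measurableSet h

/-- `Dom.inv_mul` with `Kil.lin_psi`, `Kil.lin_rho`, `Kil.lin_sig`, `br_comp`; `lay_h0`;
`Orth.br_lin`, `FP.br_lin` -/
theorem lay_step (L : LC β χ η ζ c₀ c δ) (hK : Kil D ξ) (hv : KC D d κ h₀ h₁ v f)
    (H : PD d (fun z => β (D.sig ξ z)) v h) :
    PD d (fun z => β (D.sig ξ z)) (br (lin ξ) v) (br (lin ξ) h) ∧
      br (lin ξ) (layU D.toMet ξ χ η v h) =
        layU D.toMet ξ χ η (br (lin ξ) v) (br (lin ξ) h) := by
  have hξ := hK.sm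
  obtain ⟨w1, w2, -, -, -⟩ := L.weight D.toMet hξ
  have v0 := Lay2_v0 hv
  have h0 := Lay2_h0 L hξ hv H
  have hρ : Sm fun w : Z n => D.rho ξ w.1 := (D.sm_rho hξ).comp contDiff_fst
  have hχ : Sm fun w : Z n => χ (D.rho ξ w.1) := L.smχ.comp hρ
  have hη : Sm fun w : Z n => η (D.psi ξ w) := L.smη.comp (D.sm_psi hξ)
  have i1 : ∀ z : Z n, D.b z.1 ≤ 0 → br (lin ξ) (fun z => β (D.sig ξ z)) z = 0 := fun z hz =>
    Lay2_comp L.smβ (D.sm_sig hξ) (hK.lin_sig hz)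
  have i2 : ∀ z : Z n, D.b z.1 ≤ 0 → br (lin ξ) (fun w => χ (D.rho ξ w.1)) z = 0 := fun z hz =>
    Lay2_comp L.smχ hρ (hK.lin_rho hz)
  have i3 : ∀ z : Z n, D.b z.1 ≤ 0 → br (lin ξ) (fun w => η (D.psi ξ w)) z = 0 := fun z hz =>
    Lay2_comp L.smη (D.sm_psi hξ) (hK.lin_psi hz)
  have s1 : Sm fun z => β (D.sig ξ z) * v z := w1.mul hv.smv
  have s2 : Sm fun z => β (D.sig ξ z) * h z := w1.mul H.sm
  refine ⟨⟨(sm_lin hξ).br H.sm, H.fp.br_lin hξ fun z => H.sm.dAt z, ?_⟩, ?_⟩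
  · have ho := H.orth.br_lin (s1.sub s2) (w2.mul_right.sub w2.mul_right) hξ
    have e : br (lin ξ) (fun z => β (D.sig ξ z) * v z - β (D.sig ξ z) * h z) =
        fun z => β (D.sig ξ z) * br (lin ξ) v z - β (D.sig ξ z) * br (lin ξ) h z := by
      funext z
      rw [br_sub (s1.dAt z) (s2.dAt z), D.inv_mul w1 hv.smv i1 v0, D.inv_mul w1 H.sm i1 h0]
    rwa [e] at ho
  · funext z
    have s3 : Sm fun w : Z n => χ (D.rho ξ w.1) * h w := hχ.mul H.sm
    have s4 : Sm fun w : Z n => v w - χ (D.rho ξ w.1) * h w := hv.smv.sub s3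
    have e := D.inv_mul (L := lin ξ) hη s4 i3
      (fun w hw => by rw [v0 w hw, h0 w hw, mul_zero, sub_zero]) z
    rw [br_sub (hv.smv.dAt z) (s3.dAt z), D.inv_mul hχ H.sm i2 h0] at e
    exact e

/-- Sketch: let `S₁ = sh ∪ {b ≤ 0, psi ≥ c - 2 δ}`, compact (`Met.isCompact_sig`, `rho` is bounded on
`M`). `layU` vanishes off `S₁`, where `η (psi)`, `χ (rho)` are bounded:
`layU² ≤ C (v² + n1 h)`. `n1 layF ≤ C (n1 f + n1 h)` on `S` (`n1_mul_le`, `n1_sub_le`). `PD.bound` for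
`S₁` and `S`. -/
theorem lay_bound (L : LC β χ η ζ c₀ c δ) (hξ : Sm ξ) {S : Set (Z n)} (hS : IsCompact S) :
    ∃ C : ℝ, 0 ≤ C ∧ ∀ v f h : Z n → ℝ, KC D d κ h₀ h₁ v f →
      PD d (fun z => β (D.sig ξ z)) v h →
      (∫ z, layU D.toMet ξ χ η v h z ^ 2) + ∫ z in S, n1 (layF D.toMet ξ χ ζ f h) z ≤
        C * ((∫ z, v z ^ 2) + ∫ z in S, n1 f z) := by
  obtain ⟨w1, w2, w3, w4, w5⟩ := L.weight D.toMet hξ
  have hρ : Sm fun w : Z n => D.rho ξ w.1 := (D.sm_rho hξ).comp contDiff_fst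
  have hχ : Sm fun w : Z n => χ (D.rho ξ w.1) := L.smχ.comp hρ
  have hχ' : Sm fun w : Z n => 1 - χ (D.rho ξ w.1) := contDiff_const.sub hχ
  have hζ : Sm fun w : Z n => ζ (D.rho ξ w.1) := L.smζ.comp hρ
  have hη : Sm fun w : Z n => η (D.psi ξ w) := L.smη.comp (D.sm_psi hξ)
  have hg : Sm (br D.H fun w : Z n => χ (D.rho ξ w.1)) := D.sm_H.br hχ
  obtain ⟨R, hR⟩ := D.compact.bddAbove_image (D.sm_rho hξ).continuous.continuousOn
  have hS₁ := D.isCompact_sig hξ D.compact (R - c + 2 * δ)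
  obtain ⟨C₁, hC₁, p₁⟩ := PD.bound (d := d) w1.continuous w2 w3 w4 w5 hS₁
  obtain ⟨C₂, hC₂, p₂⟩ := PD.bound (d := d) w1.continuous w2 w3 w4 w5 hS
  obtain ⟨B₁, hB₁, b₁⟩ := Lay2_bdd hS₁
    (a := fun w => 2 * η (D.psi ξ w) ^ 2 * (1 + χ (D.rho ξ w.1) ^ 2))
    ((continuous_const.mul (hη.continuous.pow 2)).mul (continuous_const.add (hχ.continuous.pow 2)))
  obtain ⟨B₂, hB₂, b₂⟩ := Lay2_bdd hS
    (a := fun w => 8 * n1 (fun w : Z n => ζ (D.rho ξ w.1)) w *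
      (n1 (fun w : Z n => 1 - χ (D.rho ξ w.1)) w + n1 (br D.H fun w : Z n => χ (D.rho ξ w.1)) w))
    ((continuous_const.mul hζ.n1.continuous).mul (hχ'.n1.continuous.add hg.n1.continuous))
  refine ⟨B₁ * (1 + C₁) + B₂ * (1 + C₂), by positivity, fun v f h hv H => ?_⟩
  obtain ⟨sU, sF⟩ := lay_sm L D.toMet hξ hv.smv hv.smf H.sm
  have q₁ := p₁ v h hv.smv.continuous hv.hcs H
  have q₂ := p₂ v h hv.smv.continuous hv.hcs H
  have hv2 : Continuous fun z => v z ^ 2 := hv.smv.continuous.pow 2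
  have iv : Integrable fun z => v z ^ 2 := by
    refine intg hv2 ?_
    simp only [sq]
    exact hv.hcs.mul_right (f' := v)
  have a0 : 0 ≤ ∫ z, v z ^ 2 := integral_nonneg fun z => sq_nonneg _
  have a1 : 0 ≤ ∫ z in S, n1 f z := integral_nonneg fun z => n1_nonneg f z
  have k1 : ∫ z, layU D.toMet ξ χ η v h z ^ 2 ≤ B₁ * ((∫ z, v z ^ 2) + C₁ * ∫ z, v z ^ 2) := by
    rw [← setIntegral_eq_integral_of_forall_compl_eq_zero
      (s := {z : Z n | z.1 ∈ {x | D.b x ≤ 0} ∧ D.sig ξ z ≤ R - c + 2 * δ})]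
    · refine (Lay2_int hS₁ (sU.continuous.pow 2) hv2 H.sm.n1.continuous (B := B₁)
        fun z hz => ?_).trans (mul_le_mul_of_nonneg_left (add_le_add
          (setIntegral_le_integral iv (Filter.Eventually.of_forall fun z => sq_nonneg _)) q₁) hB₁)
      have t1 : h z ^ 2 ≤ n1 h z :=
        le_add_of_nonneg_right (Finset.sum_nonneg fun i _ => sq_nonneg _)
      refine le_trans ?_ (mul_le_mul_of_nonneg_right (b₁ z hz)
        (add_nonneg (sq_nonneg _) (n1_nonneg h z)))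
      have t2 : (v z - χ (D.rho ξ z.1) * h z) ^ 2 ≤
          2 * ((1 + χ (D.rho ξ z.1) ^ 2) * (v z ^ 2 + n1 h z)) := by
        have t3 := mul_le_mul_of_nonneg_left t1 (sq_nonneg (χ (D.rho ξ z.1)))
        nlinarith [sq_nonneg (v z + χ (D.rho ξ z.1) * h z), sq_nonneg (χ (D.rho ξ z.1) * v z),
          n1_nonneg h z]
      have t4 := mul_le_mul_of_nonneg_left t2 (sq_nonneg (η (D.psi ξ z)))
      change (η (D.psi ξ z) * (v z - χ (D.rho ξ z.1) * h z)) ^ 2 ≤ _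
      rw [mul_pow]
      linarith
    · intro z hz
      rcases le_or_gt (D.b z.1) 0 with hb | hb
      · have t1 : R - c + 2 * δ < D.sig ξ z := not_le.1 fun t => hz ⟨hb, t⟩
        have t2 : D.rho ξ z.1 ≤ R := hR (mem_image_of_mem _ hb)
        have t3 : η (D.psi ξ z) = 0 := L.ηzero _ (by
          simp only [Met.sig] at t1
          linarith)
        simp only [layU, t3, zero_mul, ne_eq, OfNat.ofNat_ne_zero, not_false_eq_true, zero_pow]
      · simp only [layU, Lay2_v0 hv z hb, Lay2_h0 L hξ hv H z hb, mul_zero, sub_zero, ne_eq,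
          OfNat.ofNat_ne_zero, not_false_eq_true, zero_pow]
  have k2 : ∫ z in S, n1 (layF D.toMet ξ χ ζ f h) z ≤
      B₂ * ((∫ z in S, n1 f z) + C₂ * ∫ z, v z ^ 2) := by
    refine (Lay2_int hS sF.n1.continuous hv.smf.n1.continuous H.sm.n1.continuous (B := B₂)
      fun z hz => ?_).trans (mul_le_mul_of_nonneg_left (add_le_add le_rfl q₂) hB₂)
    refine le_trans ?_ (mul_le_mul_of_nonneg_right (b₂ z hz)
      (add_nonneg (n1_nonneg f z) (n1_nonneg h z)))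
    have s1 : Sm fun w : Z n => (1 - χ (D.rho ξ w.1)) * f w := hχ'.mul hv.smf
    have s2 : Sm fun w : Z n => br D.H (fun w : Z n => χ (D.rho ξ w.1)) w * h w := hg.mul H.sm
    have t1 := n1_mul_le hζ (s1.sub s2) z
    have t2 := n1_sub_le s1 s2 z
    have t3 := n1_mul_le hχ' hv.smf z
    have t4 := n1_mul_le hg H.sm z
    refine le_trans t1 ?_
    have u1 := n1_nonneg (fun w : Z n => ζ (D.rho ξ w.1)) z
    have u2 := mul_nonneg (n1_nonneg (fun w : Z n => 1 - χ (D.rho ξ w.1)) z) (n1_nonneg h z)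
    have u3 := mul_nonneg (n1_nonneg (br D.H fun w : Z n => χ (D.rho ξ w.1)) z) (n1_nonneg f z)
    have t5 : n1 (fun w : Z n => (1 - χ (D.rho ξ w.1)) * f w -
        br D.H (fun w : Z n => χ (D.rho ξ w.1)) w * h w) z ≤
        4 * ((n1 (fun w : Z n => 1 - χ (D.rho ξ w.1)) z +
          n1 (br D.H fun w : Z n => χ (D.rho ξ w.1)) z) * (n1 f z + n1 h z)) := by
      nlinarith
    have t6 := mul_le_mul_of_nonneg_left t5 u1
    linarith
  have m1 := mul_nonneg (mul_nonneg hB₁ (by linarith : (0 : ℝ) ≤ 1 + C₁)) a1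
  have m2 := mul_nonneg hB₂ a0
  have m3 := mul_nonneg (mul_nonneg hB₂ hC₂) a1
  nlinarith

end Pool.Agent.Lib.MP_45f3cb_gt
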