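import Pool.Agent.Lib.MP_45f3cb_gt.AprB
import Pool.Agent.Lib.MP_45f3cb_gt.Extr

/-!
Elements of `KC` vanish over the orbits of `ξ` that leave `M`; such orbits contain the critical points
of `rho`.
-/

open Set MeasureTheory

namespace Pool.Agent.Lib.MP_45f3cb_gt

variable {n d : ℕ} {κ : ℝ → ℝ} {h₀ h₁ e : ℝ} {D : Dom n} {ξ : V n → V n} {θ : ℝ → V n → V n}

theorem orb_br (hξ : Sm ξ) {u : V n → ℝ} {z : Z n} (hu : DifferentiableAt ℝ u z.1) :
    br (lin ξ) (fun w => u w.1) z = fderiv ℝ u z.1 (ξ z.1) := by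
  rw [br_fst hu, fderiv_eq_sum_pd]
  simp only [dp_lin hξ]

theorem orb_pos {f : ℝ → ℝ} {a : ℝ} (h0 : f 0 = 0) (h : HasDerivAt f a 0) (ha : 0 < a) :
    ∃ ε : ℝ, 0 < ε ∧ ∀ t ∈ Ioo 0 ε, 0 < f t := by
  have h1 := (hasDerivAt_iff_tendsto_slope_zero.1 h).eventually (lt_mem_nhds ha)
  obtain ⟨ε, hε, h2⟩ := Metric.eventually_nhds_iff.1 (eventually_nhdsWithin_iff.1 h1)
  refine ⟨ε, hε, fun t ht => ?_⟩
  have h3 := h2 (y := t) (by rw [Real.dist_eq, sub_zero, abs_of_pos ht.1]; exact ht.2) ht.1.ne'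
  simp only [zero_add, h0, sub_zero, smul_eq_mul] at h3
  exact (mul_pos_iff_of_pos_left (inv_pos.2 ht.1)).1 h3

/-- Sketch: take a smooth `φ` with values in `[0, 1]`, `φ (θ s x) = 1`, `φ = 0` on `{b ≤ 0}` (a bump,
or `χ ∘ b` with `exists_step`), and `g j k r = ∫ φ (θ r z.1) * u j z * u k z`. `hasDerivAt_int`; the
`r`-derivative of `φ (θ r y)` is `fderiv (φ ∘ θ r) y (ξ y) = br L (φ (θ r ·.1))`
(`IsFlow.fderiv_field`, `br_fst`, `dp_lin`); `int_mul_br`, `br_mul`. The bound is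
`|g j k| ≤ (∫ u j² + ∫ u k²) / 2 ≤ M C ^ (j + k)`. `taylor2`, `eq_zero_of_int`. -/
theorem orb_zero (D : Dom n) (hθ : IsFlow ξ θ) {u : ℕ → Z n → ℝ} (hu : ∀ N, Sm (u N))
    {S : Set (Z n)} (hS : IsCompact S) (hb : ∀ z ∈ S, D.b z.1 ≤ 0)
    (hs : ∀ N z, z ∉ S → u N z = 0) (hN : ∀ N, u (N + 1) = br (lin ξ) (u N)) {M C : ℝ} (hC : 1 ≤ C)
    (hM : ∀ N, ∫ z, u N z ^ 2 ≤ M * C ^ N) {x : V n} {s : ℝ} (hx : 0 < D.b (θ s x)) (p : V n) :
    u 0 (x, p) = 0 := by
  obtain ⟨χ, hχ, hχ0, hχ1, hχz, -, hχp⟩ := exists_step hx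
  have : (volume : Measure (Z n)).IsAddHaarMeasure := Measure.prod.instIsAddHaarMeasure _ _
  have hξ : Sm ξ := hθ.smY
  set φ : V n → ℝ := fun y => χ (D.b y) with hφ
  have hφs : Sm φ := hχ.comp D.smb
  have hF : ∀ r, Sm fun z : Z n => φ (θ r z.1) := fun r =>
    hφs.comp ((hθ.sm_t r).comp contDiff_fst)
  have hc : ∀ N, HasCompactSupport (u N) := fun N => HasCompactSupport.intro hS (hs N)
  have hcc : ∀ j k, HasCompactSupport fun z => u j z * u k z := fun j k => (hc k).mul_left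
  have hc3 : ∀ r j k, HasCompactSupport fun z : Z n => φ (θ r z.1) * (u j z * u k z) :=
    fun r j k => (hcc j k).mul_left
  have hi : ∀ r j k, Integrable fun z : Z n => φ (θ r z.1) * (u j z * u k z) := fun r j k =>
    intg ((hF r).mul ((hu j).mul (hu k))).continuous (hc3 r j k)
  have hi2 : ∀ j, Integrable fun z : Z n => u j z ^ 2 := fun j => by
    simp only [pow_two]
    exact intg ((hu j).mul (hu j)).continuous (hcc j j)
  have hM0 : 0 ≤ M := by
    have h1 := hM 0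
    have h2 : 0 ≤ ∫ z, u 0 z ^ 2 := integral_nonneg fun z => sq_nonneg _
    rw [pow_zero, mul_one] at h1
    exact h2.trans h1
  have key := taylor2 (g := fun j k r => ∫ z : Z n, φ (θ r z.1) * (u j z * u k z)) (M := M)
    (C := C) (by linarith) ?_ ?_ ?_ s
  · have h1 := eq_zero_of_int volume ((hF s).mul ((hu 0).mul (hu 0))).continuous (hc3 s 0 0)
      (fun z => mul_nonneg (hχ0 _) (mul_self_nonneg _)) key.le (x, p)
    rcases mul_eq_zero.1 h1 with h2 | h2
    · exact absurd h2 (hχp _ hx).ne'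
    · exact mul_self_eq_zero.1 h2
  · intro j k r
    have hG : Sm fun q : ℝ × Z n => φ (θ q.1 q.2.1) * (u j q.2 * u k q.2) :=
      (hφs.comp (hθ.sm.comp (contDiff_fst.prodMk (contDiff_fst.comp contDiff_snd)))).mul
        (((hu j).comp contDiff_snd).mul ((hu k).comp contDiff_snd))
    have h1 := hasDerivAt_int (μ := (volume : Measure (Z n))) hS
      (hG.of_le (by exact_mod_cast le_top))
      (fun r z hz => by simp only [hs j z hz, zero_mul, mul_zero]) r
    refine h1.congr_deriv ?_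
    have h2 : ∀ z : Z n, fderiv ℝ (fun q : ℝ × Z n => φ (θ q.1 q.2.1) * (u j q.2 * u k q.2))
        (r, z) (1, 0) = br (lin ξ) (fun w : Z n => φ (θ r w.1)) z * (u j z * u k z) := by
      intro z
      have a1 : HasDerivAt (fun t : ℝ => (t, z)) ((1 : ℝ), (0 : Z n)) r :=
        (hasDerivAt_id r).prodMk (hasDerivAt_const r z)
      have a2 := (hG.dAt (r, z)).hasFDerivAt.comp_hasDerivAt r a1
      have a3 := (hθ.der_comp (z := z.1) (t := r) (hφs.dAt _)).mul_const (u j z * u k z)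
      rw [a2.unique a3, orb_br (u := fun y => φ (θ r y)) hξ (Sm.dAt (hφs.comp (hθ.sm_t r)) _)]
      have a4 : fderiv ℝ (fun y => φ (θ r y)) z.1 = _ :=
        ((hφs.dAt _).hasFDerivAt.comp z.1 ((hθ.sm_t r).dAt _).hasFDerivAt).fderiv
      rw [a4, ContinuousLinearMap.comp_apply, hθ.fderiv_field]
    simp only [h2]
    have h3 := int_mul_br (sm_lin hξ) (hF r) ((hu j).mul (hu k)) (hcc j k)
    have h4 : ∀ z : Z n, φ (θ r z.1) * br (lin ξ) (fun z => u j z * u k z) z =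
        φ (θ r z.1) * (u (j + 1) z * u k z) + φ (θ r z.1) * (u j z * u (k + 1) z) := by
      intro z
      rw [br_mul ((hu j).dAt z) ((hu k).dAt z), hN j, hN k]
      ring
    simp only [h4] at h3
    rw [integral_add (hi r _ _) (hi r _ _)] at h3
    linarith
  · intro j k r
    have h1 : ‖∫ z : Z n, φ (θ r z.1) * (u j z * u k z)‖ ≤ ∫ z, (u j z ^ 2 + u k z ^ 2) / 2 := by
      refine norm_integral_le_of_norm_le (((hi2 j).add (hi2 k)).div_const 2)
        (Filter.Eventually.of_forall fun z => ?_)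
      rw [Real.norm_eq_abs, abs_mul, abs_of_nonneg (hχ0 _)]
      have a1 : |u j z * u k z| ≤ (u j z ^ 2 + u k z ^ 2) / 2 := by
        rw [abs_le]
        constructor <;> nlinarith [sq_nonneg (u j z + u k z), sq_nonneg (u j z - u k z)]
      exact (mul_le_of_le_one_left (abs_nonneg _) (hχ1 _)).trans a1
    rw [integral_div, integral_add (hi2 j) (hi2 k), Real.norm_eq_abs] at h1
    have a1 : M * C ^ j ≤ M * C ^ (j + k) :=
      mul_le_mul_of_nonneg_left (pow_le_pow_right₀ hC (Nat.le_add_right _ _)) hM0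
    have a2 : M * C ^ k ≤ M * C ^ (j + k) :=
      mul_le_mul_of_nonneg_left (pow_le_pow_right₀ hC (Nat.le_add_left _ _)) hM0
    linarith [hM j, hM k]
  · intro j k
    have : ∀ z : Z n, φ (θ 0 z.1) * (u j z * u k z) = 0 := by
      intro z
      by_cases hz : z ∈ S
      · rw [hθ.zero]
        simp only [hφ, hχz _ (hb z hz), zero_mul]
      · simp only [hs j z hz, zero_mul, mul_zero]
    simp only [this, integral_zero]

/-- Sketch: `β s = b (θ s x)` has `β' s = ℓ (θ s x)` with `ℓ y = ∑ ξ y i * pd i b y`, and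
`br L (b ∘ fst) = ℓ ∘ fst`. At `z`, `hv L z = hv H z` gives `β' 0 = ell z`. If this is `0` then
`β'' 0 = br L (br L b) z = br H (br L b) z = br L (br H b) z = br H (br H b) z > 0` (`br_eq`,
`Kil.comm`, `D.convex`). In both cases `β s > 0` for some small `s > 0`. -/
theorem Kil.leave (hK : Kil D ξ) (hθ : IsFlow ξ θ) {z : Z n} (hb : D.b z.1 = 0) (hp : z.2 ≠ 0)
    (hl : 0 ≤ D.ell z) (h : hv (lin ξ) z = hv D.H z) : ∃ s, 0 < D.b (θ s z.1) := by
  have hξ : Sm ξ := hθ.smY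
  set l : V n → ℝ := fun y => fderiv ℝ D.b y (ξ y) with hl'
  have hls : Sm l := (FlowD_smd D.smb).clm_apply hξ
  have e0 : ∀ F, br (lin ξ) F z = br D.H F z := fun F => by rw [br_eq, br_eq, h]
  have e1 : br (lin ξ) (fun w : Z n => D.b w.1) = fun w => l w.1 :=
    funext fun w => orb_br hξ (D.smb.dAt _)
  have e2 : D.ell z = l z.1 := by
    rw [Dom.ell, ← e0, e1]
  have d1 : ∀ t, HasDerivAt (fun r => D.b (θ r z.1)) (l (θ t z.1)) t := fun t =>
    hθ.der_comp (D.smb.dAt _)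
  have b0 : D.b (θ 0 z.1) = 0 := by rw [hθ.zero, hb]
  rcases hl.lt_or_eq with hl | hl
  · obtain ⟨ε, hε, h1⟩ := orb_pos (f := fun r => D.b (θ r z.1)) b0 (d1 0)
      (by rw [hθ.zero, ← e2]; exact hl)
    exact ⟨ε / 2, h1 _ ⟨by linarith, by linarith⟩⟩
  · have h2 := D.convex z hb hp hl.symm
    rw [← e0, ← hK.comm D.sm_bz hb.le, ← e0, e1, orb_br hξ (hls.dAt _)] at h2
    have d2 := hθ.der_comp (z := z.1) (t := 0) (hls.dAt _)
    obtain ⟨ε, hε, h1⟩ := orb_pos (f := fun r => l (θ r z.1)) (by rw [hθ.zero, ← e2, hl]) d2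
      (by rw [hθ.zero]; exact h2)
    obtain ⟨c, hc, h3⟩ := exists_hasDerivAt_eq_slope (fun r => D.b (θ r z.1))
      (fun t => l (θ t z.1)) hε (fun t _ => (d1 t).continuousAt.continuousWithinAt)
      fun t _ => d1 t
    have h4 := h1 c hc
    rw [h3, b0, sub_zero, sub_zero] at h4
    exact ⟨ε, (div_pos_iff_of_pos_right hε).1 h4⟩

/-- Sketch: `z = (x, fl x)` has energy `rho x ∈ (0, e)` and `hv psi z = 0` (`Met.dp_psi`,
`Met.dx_psi_fl`). By `Kil.jac_psi` and `lin_ode_zero`, `hv psi = hv L - hv H` vanishes along the segment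
`[0, ex z]`; so its projection solves `x' = ξ x` and equals `θ t x` (`IsFlow.uniq`); `Kil.leave` at
the exit point, `IsFlow.add`. -/
theorem GF.orbit_exits (P : GF D e) (hK : Kil D ξ) (hθ : IsFlow ξ θ) {x : V n} (hx : D.b x ≤ 0)
    (h0 : ξ x ≠ 0) (he : D.rho ξ x < e) (hc : fderiv ℝ (D.rho ξ) x = 0) :
    ∃ s, 0 < D.b (θ s x) := by
  have hξ : Sm ξ := hθ.smY
  set z : Z n := (x, D.fl ξ x) with hz
  have hH : D.H z = D.rho ξ x := (D.rho_eq x).symm
  have p0 : 0 < D.H z := by rw [hH]; exact D.rho_pos h0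
  have pe : D.H z < e := by rw [hH]; exact he
  have hb : D.b z.1 ≤ 0 := hx
  have hT := P.ex_nonneg hb p0 pe
  have hin := P.ex_in hb p0 pe
  have htr := P.traj pe hin
  have hy := lin_ode_zero (B := fun t => fderiv ℝ (hv D.H) (P.Φ t z))
    (y := fun t => hv (D.psi ξ) (P.Φ t z)) (a := 0) (b := P.ex z) (t₀ := 0)
    ((FlowD_smd D.sm_H.hv).continuous.comp (P.flow.cont_z z)).continuousOn
    (fun t ht => hK.jac_psi (htr t ht) (hin t ht)) ⟨le_rfl, hT⟩ (by
      simp only [P.flow.zero]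
      refine Prod.ext (funext fun i => ?_) (funext fun i => ?_)
      · simp [hv, D.dp_psi hξ, hz]
      · simp only [hv, hz, D.dx_psi_fl hξ, pd, hc]
        simp)
  have hLH : ∀ t ∈ Icc 0 (P.ex z), hv (lin ξ) (P.Φ t z) = hv D.H (P.Φ t z) := by
    intro t ht
    have h1 := hy t ht
    refine Prod.ext (funext fun i => ?_) (funext fun i => ?_)
    · have h2 : dp i (D.psi ξ) (P.Φ t z) = 0 := congrFun (congrArg Prod.fst h1) i
      have h3 : dp i (D.psi ξ) (P.Φ t z) = _ := dp_sub ((sm_lin hξ).dAt _) (D.sm_H.dAt _)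
      change dp i _ _ = dp i _ _
      linarith
    · have h2 : -dx i (D.psi ξ) (P.Φ t z) = 0 := congrFun (congrArg Prod.snd h1) i
      have h3 : dx i (D.psi ξ) (P.Φ t z) = _ := dx_sub ((sm_lin hξ).dAt _) (D.sm_H.dAt _)
      change -dx i _ _ = -dx i _ _
      linarith
  have hpr := hθ.uniq (c := fun t => (P.Φ t z).1) (T := P.ex z) (fun t ht => by
    have h1 := (htr t ht).fst
    rw [← hLH t ht] at h1
    have h2 : (hv (lin ξ) (P.Φ t z)).1 = ξ (P.Φ t z).1 := funext fun i => dp_lin hξ i _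
    rw [← h2]
    exact h1) (P.ex z) ⟨hT, le_rfl⟩
  obtain ⟨s, hs⟩ := hK.leave hθ (P.ex_bdry hb p0 pe)
    (D.ne_of_H_pos (by rw [P.ener]; exact p0)) (P.ex_ell hb p0 pe) (hLH _ ⟨hT, le_rfl⟩)
  simp only [P.flow.zero] at hpr
  rw [hpr, ← hθ.add] at hs
  exact ⟨_, hs⟩

theorem Dom.Mst_le (D : Dom n) (hθ : IsFlow ξ θ) {x : V n} (h : x ∈ D.Mst θ) : D.b x ≤ 0 := by
  have h1 := h 0
  rwa [hθ.zero] at h1

theorem Dom.isCompact_Mst (D : Dom n) (hθ : IsFlow ξ θ) : IsCompact (D.Mst θ) := by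
  refine D.compact.of_isClosed_subset ?_ fun x hx => D.Mst_le hθ hx
  have : D.Mst θ = ⋂ s, {x | D.b (θ s x) ≤ 0} := by
    ext x
    simp [Dom.Mst]
  rw [this]
  exact isClosed_iInter fun s =>
    isClosed_le (D.smb.comp (hθ.sm_t s)).continuous continuous_const

/-- `orb_zero` with `GF.apriori_iter`; then `κ f = br H v = 0` over the open complement, and
`{κ (H) ≠ 0}` is open and nonempty in the fibre (`Cut.fib`, `HP_eq_zero`) -/
theorem GF.off_Mst (P : GF D e) (hn : 0 < n) (hκ : Cut κ h₀ h₁) (h1 : h₁ < e) (hK : Kil D ξ)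
    (hθ : IsFlow ξ θ) {v f : Z n → ℝ} (h : KC D d κ h₀ h₁ v f) {z : Z n} (hz : z.1 ∉ D.Mst θ) :
    v z = 0 ∧ f z = 0 := by
  obtain ⟨C, hC, hA⟩ := P.apriori_iter (d := d) hn hκ h1 hK isCompact_empty
  have hv0 : ∀ w : Z n, w.1 ∉ D.Mst θ → v w = 0 := by
    intro w hw
    obtain ⟨s, hs⟩ : ∃ s, 0 < D.b (θ s w.1) := by
      by_contra hne
      exact hw fun s => not_lt.1 fun hlt => hne ⟨s, hlt⟩
    exact orb_zero D hθ (u := fun N => (br (lin ξ))^[N] v) (fun N => (h.iter hK hκ.sm N).smv)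
      (D.isCompact_sh h₀ h₁) (fun z hz => hz.1) (fun N => (h.iter hK hκ.sm N).supp)
      (fun N => Function.iterate_succ_apply' _ _ _) hC (fun N => (hA v f h N).1) hs w.2
  refine ⟨hv0 z hz, ?_⟩
  have hO : IsOpen {w : Z n | w.1 ∉ D.Mst θ} :=
    (D.isCompact_Mst hθ).isClosed.isOpen_compl.preimage continuous_fst
  have hO' : IsOpen {p : V n | κ (D.H (z.1, p)) ≠ 0} :=
    isOpen_ne_fun (hκ.sm.continuous.comp (D.sm_H.continuous.comp (Continuous.prodMk_right _)))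
      continuous_const
  refine HP_eq_zero (h.fp z.1) hO' (hκ.fib D.toMet hn z.1) (fun p hp => ?_) z.2
  have h2 := h.eq (z.1, p)
  rw [br_congr (G := fun _ => 0)
    (Filter.eventually_of_mem (hO.mem_nhds (x := (z.1, p)) hz) hv0), br_const] at h2
  exact (mul_eq_zero.1 h2.symm).resolve_left hp

end Pool.Agent.Lib.MP_45f3cb_gt
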