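import Pool.Agent.Lib.MP_45f3cb_gt.Lay2
import Pool.Agent.Lib.MP_45f3cb_gt.Car4
import Pool.Agent.Lib.MP_45f3cb_gt.Orb
import Pool.Agent.Lib.MP_45f3cb_gt.Dip

/-!
Layer stripping.
-/

open Set MeasureTheory

namespace Pool.Agent.Lib.MP_45f3cb_gt

variable {n d : ℕ} {D : Dom n} {ξ : V n → V n} {θ : ℝ → V n → V n} {κ : ℝ → ℝ} {e h₀ h₁ c₀ : ℝ}

/-- `GF.orbit_exits`, `Kil.br_mu`, `Met.G_pd_pos` -/
theorem GF.good (P : GF D e) (hK : Kil D ξ) (hθ : IsFlow ξ θ) (h0 : 0 < c₀)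
    (he : ∀ x, D.b x ≤ 0 → D.rho ξ x < e) :
    Good D.toMet ξ (D.Mst θ ∩ {x | c₀ / 2 ≤ D.rho ξ x}) ∧
      ∃ δ₀ : ℝ, 0 < δ₀ ∧ P.Dip ξ (D.Mst θ ∩ {x | c₀ / 2 ≤ D.rho ξ x}) δ₀ := by
  have hM : ∀ x ∈ D.Mst θ ∩ {x | c₀ / 2 ≤ D.rho ξ x}, D.b x ≤ 0 := fun x hx => D.Mst_le hθ hx.1
  have hcl : IsClosed {x | c₀ / 2 ≤ D.rho ξ x} :=
    isClosed_le continuous_const (D.toMet.sm_rho hK.sm).continuous
  have hcpt : IsCompact (D.Mst θ ∩ {x | c₀ / 2 ≤ D.rho ξ x}) := (D.isCompact_Mst hθ).inter_right hcl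
  have hne : ∀ x ∈ D.Mst θ ∩ {x | c₀ / 2 ≤ D.rho ξ x}, ξ x ≠ 0 := fun x hx =>
    D.toMet.ne_of_rho_pos (lt_of_lt_of_le (by linarith) hx.2)
  have hd : ∀ x ∈ D.Mst θ ∩ {x | c₀ / 2 ≤ D.rho ξ x}, fderiv ℝ (D.rho ξ) x ≠ 0 := by
    intro x hx hc
    obtain ⟨s, hs⟩ := P.orbit_exits hK hθ (hM x hx) (hne x hx) (he x (hM x hx)) hc
    exact absurd (hx.1 s) (not_le.2 hs)
  refine ⟨⟨hcpt, hK.sm, fun z hz => hK.kil z (hM _ hz), fun z hz => hK.lin_rho (hM _ hz),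
    fun x hx => ?_⟩, P.exists_dip hK hcpt hM hne hd fun x hx => he x (hM x hx)⟩
  rw [hK.br_mu (hM x hx)]
  exact D.toMet.G_pd_pos (hd x hx)

/-- Sketch: `K = Mst ∩ {rho ≥ c₀ / 2}`, `r` of `carleman`, `δ = min (r / 8) (min (δ₀ / 3) (c₀ / 6))`. For
`(v, f)` in `KC` take the iterates `v N`, `f N` (`KC.iter`, `GF.off_Mst`), `h 0` from `exists_PD`,
`h N = (br L)^[N] (h 0)` (`lay_step`), `U N = layU (v N) (h N)`, `F N = layF (f N) (h N)`; `lay_cc`,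
`lay_bound` and `GF.apriori_iter` with `S₀ = tube K r`. On `{psi > c - δ / 2}` one has `η = 1`, so
`v = q + χ (rho x) h (x, ·)`. -/
theorem GF.layer (P : GF D e) (hn : 0 < n) (hK : Kil D ξ) (hθ : IsFlow ξ θ) (hκ : Cut κ h₀ h₁)
    (h1 : h₁ < e) (h0 : 0 < c₀)
    (hone : ∀ z : Z n, D.b z.1 ≤ 0 → c₀ / 2 ≤ D.psi ξ z → κ (D.H z) = 1)
    (he : ∀ x, D.b x ≤ 0 → D.rho ξ x < e) : ∃ δ : ℝ, 0 < δ ∧ ∀ c, c₀ ≤ c →
      Claim D ξ d κ h₀ h₁ c → Claim D ξ d κ h₀ h₁ (c - δ / 2) := by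
  obtain ⟨hG, δ₀, hδ₀, hD⟩ := P.good hK hθ h0 he
  obtain ⟨r, hr, hcar⟩ := carleman hG d
  have hδ : 0 < min (r / 8) (min (δ₀ / 3) (c₀ / 6)) :=
    lt_min (by linarith) (lt_min (by linarith) (by linarith))
  have h8 : 8 * min (r / 8) (min (δ₀ / 3) (c₀ / 6)) ≤ r := by
    have := min_le_left (r / 8) (min (δ₀ / 3) (c₀ / 6))
    linarith
  have h3 : 3 * min (r / 8) (min (δ₀ / 3) (c₀ / 6)) ≤ δ₀ := by
    have := (min_le_right (r / 8) (min (δ₀ / 3) (c₀ / 6))).trans (min_le_left _ _)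
    linarith
  have h6 : 6 * min (r / 8) (min (δ₀ / 3) (c₀ / 6)) ≤ c₀ := by
    have := (min_le_right (r / 8) (min (δ₀ / 3) (c₀ / 6))).trans (min_le_right _ _)
    linarith
  generalize min (r / 8) (min (δ₀ / 3) (c₀ / 6)) = δ at hδ h8 h3 h6
  refine ⟨δ, hδ, fun c hc hC v f hv x => ?_⟩
  obtain ⟨β, χ, η, ζ, L⟩ := exists_LC (c := c) h0 hδ
  obtain ⟨w1, w2, w3, -, w5⟩ := L.weight D.toMet hK.sm
  obtain ⟨h, H⟩ := exists_PD (d := d) w1 w2 w3 w5 hv.smv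
  have hit : ∀ N, KC D d κ h₀ h₁ ((br (lin ξ))^[N] v) ((br (lin ξ))^[N] f) :=
    fun N => hv.iter hK hκ.sm N
  have hPD : ∀ N, PD d (fun z => β (D.sig ξ z)) ((br (lin ξ))^[N] v) ((br (lin ξ))^[N] h) := by
    intro N
    induction N with
    | zero => exact H
    | succ N ih =>
      rw [Function.iterate_succ_apply', Function.iterate_succ_apply']
      exact (lay_step L hK (hit N) ih).1
  have hS : IsCompact (D.toMet.tube ξ (D.Mst θ ∩ {x | c₀ / 2 ≤ D.rho ξ x}) r) :=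
    D.toMet.isCompact_sig hK.sm hG.cpt r
  obtain ⟨Cb, hCb, hb⟩ := lay_bound (d := d) (κ := κ) (h₀ := h₀) (h₁ := h₁) L hK.sm hS
  obtain ⟨C, hC1, ha⟩ := P.apriori_iter (d := d) hn hκ h1 hK hS
  obtain ⟨q, hq, hq'⟩ := hcar η c δ (Cb * ((∫ z, v z ^ 2) + C * ∫ z, v z ^ 2)) C
    (fun N => layU D.toMet ξ χ η ((br (lin ξ))^[N] v) ((br (lin ξ))^[N] h))
    (fun N => layF D.toMet ξ χ ζ ((br (lin ξ))^[N] f) ((br (lin ξ))^[N] h)) L.smη hδ h8 L.ηone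
    (by linarith)
    (fun N => lay_cc P L hK hκ h1 hC h0 hc hδ h6 h3 hone (fun x hx => D.Mst_le hθ hx) hD (hit N)
      (fun z hz => P.off_Mst hn hκ h1 hK hθ (hit N) hz) (hPD N))
    (fun N => by
      simp only [Function.iterate_succ_apply']
      exact (lay_step L hK (hit N) (hPD N)).2.symm)
    (fun N => by
      refine (hb _ _ _ (hit N) (hPD N)).trans ?_
      obtain ⟨a1, a2⟩ := ha v f hv N
      rw [mul_assoc]
      refine mul_le_mul_of_nonneg_left ?_ hCb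
      rw [add_mul]
      exact add_le_add a1 a2) x
  refine ⟨fun p => q p + χ (D.rho ξ x) * h (x, p), polyA_add hq (polyA_smul (H.fp x) _),
    fun p hp => ?_⟩
  have e1 := hq' p hp
  simp only [Function.iterate_zero, id_eq, layU] at e1
  rw [L.ηone _ (by linarith), one_mul] at e1
  simp only
  linarith

/-- Sketch: `Claim e` holds with `q = 0` (`psi ≤ rho < e` over `M`, `v = 0` off `M`); `Claim` is
monotone in `c`; by induction on `j`, `Claim (max c₀ (e - j δ / 2))`; take `j` large. -/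
theorem GF.claim (P : GF D e) (hn : 0 < n) (hK : Kil D ξ) (hθ : IsFlow ξ θ) (hκ : Cut κ h₀ h₁)
    (h1 : h₁ < e) (h0 : 0 < c₀)
    (hone : ∀ z : Z n, D.b z.1 ≤ 0 → c₀ / 2 ≤ D.psi ξ z → κ (D.H z) = 1)
    (he : ∀ x, D.b x ≤ 0 → D.rho ξ x < e) : Claim D ξ d κ h₀ h₁ c₀ := by
  obtain ⟨δ, hδ, hl⟩ := P.layer (d := d) hn hK hθ hκ h1 h0 hone he
  have hmono : ∀ {a b : ℝ}, a ≤ b → Claim D ξ d κ h₀ h₁ a → Claim D ξ d κ h₀ h₁ b := by
    intro a b hab hC v f hv x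
    obtain ⟨q, hq, hq'⟩ := hC v f hv x
    exact ⟨q, hq, fun p hp => hq' p (lt_of_le_of_lt hab hp)⟩
  have hE : Claim D ξ d κ h₀ h₁ e := by
    intro v f hv x
    refine ⟨0, (HP n d).zero_mem, fun p hp => hv.supp _ fun hz => ?_⟩
    have a1 := D.toMet.psi_le_rho ξ (x, p)
    have a2 := he x hz.1
    simp only at a1
    linarith
  have hj : ∀ j : ℕ, Claim D ξ d κ h₀ h₁ (max c₀ (e - j * (δ / 2))) := by
    intro j
    induction j with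
    | zero => exact hmono (by simp) hE
    | succ j ih =>
      refine hmono ?_ (hl _ (le_max_left _ _) ih)
      have a1 := le_max_left c₀ (e - ((j + 1 : ℕ) : ℝ) * (δ / 2))
      have a2 := le_max_right c₀ (e - ((j + 1 : ℕ) : ℝ) * (δ / 2))
      push_cast at a1 a2 ⊢
      rcases le_total c₀ (e - j * (δ / 2)) with h | h
      · rw [max_eq_right h]
        linarith
      · rw [max_eq_left h]
        linarith
  obtain ⟨j, hj'⟩ := exists_nat_ge ((e - c₀) / (δ / 2))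
  rw [div_le_iff₀ (by linarith)] at hj'
  have := hj j
  rwa [max_eq_left (by linarith)] at this

end Pool.Agent.Lib.MP_45f3cb_gt
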