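import Pool.Agent.Lib.MP_45f3cb_gt.HamMain
import Pool.Agent.Lib.MP_45f3cb_gt.Tr2
import Pool.Agent.Lib.MP_45f3cb_gt.Tr3

/-!
The main theorem.
-/

open Set MeasureTheory

namespace Pool.Agent.Lib.MP_45f3cb_gt

/-- Sketch: `exists_dom`, `kil_of_lie`, `seg_of_ray`, `fp_ev`, `ham_main`, `exists_tensor`. For
`b x < 0` the components of `t` are differentiable at `x`; with `E w = ev (t w.1) w.2` one has
`h = E ∘ up` (`Met.dn_up`), so `ev (cov g t x) v = br H h (dn (x, v)) = ev (f x) v` (`ev_cov`,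
`Met.br_up`, `Met.up_dn`); `sym_ext`, `ev_symm`. -/
theorem killing_sinj {n : ℕ} {g : V n → Matrix (Fin n) (Fin n) ℝ} {b : V n → ℝ}
    (h : SimpleDomain g b) {ξ : V n → V n} (hξ : ContDiff ℝ (⊤ : ℕ∞) ξ)
    (hk : ∀ x, b x ≤ 0 → ∀ i j, lieG g ξ x i j = 0) (h0 : ∃ x, b x ≤ 0 ∧ ξ x ≠ 0) (d : ℕ) :
    SInj g b d := by
  obtain ⟨D, rfl, hg⟩ := exists_dom h
  intro f hf hs hr
  obtain ⟨f1, f2⟩ := fp_ev D.toMet hf
  obtain ⟨u, u1, u2, u3, u4⟩ := ham_main (kil_of_lie D hg hξ hk) h0 f1 f2 (seg_of_ray D hg hr)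
  obtain ⟨t, t1, t2, t3, t4⟩ := exists_tensor D.toMet u1 u2
  refine ⟨t, t1, t2, fun x hx => t3 x fun p => u3 (x, p) hx, fun x hx => ?_⟩
  have hd : ∀ a, DifferentiableAt ℝ (fun y => t y a) x := fun a =>
    ((t1 a).contDiffAt (Filter.mem_of_superset
      ((isOpen_lt D.smb.continuous continuous_const).mem_nhds hx) fun y hy =>
        (le_of_lt hy : D.b y ≤ 0))).differentiableAt (by simp)
  refine sym_ext (hs x) (isSym_symm _) fun v => ?_
  have e : u = fun w => (fun w : Z n => ev (t w.1) w.2) (D.up w) := funext fun w => by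
    change u w = ev (t (D.up w).1) (D.up w).2
    rw [t4, Prod.mk.eta, Met.dn_up]
  have hE : DifferentiableAt ℝ (fun w : Z n => ev (t w.1) w.2) (D.up (D.dn (x, v))) := by
    rw [Met.up_dn]
    unfold ev
    refine DifferentiableAt.fun_sum fun a _ => DifferentiableAt.mul ?_ (by fun_prop)
    exact DifferentiableAt.comp (g := fun y => t y a) (f := Prod.fst) ((x, v) : Z n) (hd a)
      differentiableAt_fst
  have h1 := u4 (D.dn (x, v)) hx
  rw [e, D.br_up hg hE, Met.up_dn] at h1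
  rw [ev_symm, ev_cov g hd, h1]
  rfl

end Pool.Agent.Lib.MP_45f3cb_gt
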