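import Pool.Agent.Lib.MP_45f3cb_gt.Calc

/-!
Homogeneous polynomial functions: closure properties (`Submodule.span_induction` everywhere).
-/

open Set MeasureTheory

namespace Pool.Agent.Lib.MP_45f3cb_gt

variable {n d e : ℕ} {q q' : V n → ℝ}

theorem polyA_mon (a : Fin d → Fin n) : (fun p : V n => ∏ j, p (a j)) ∈ HP n d :=
  Submodule.subset_span ⟨a, rfl⟩

theorem polyA_smul (h : q ∈ HP n d) (c : ℝ) : (fun p => c * q p) ∈ HP n d := (HP n d).smul_mem c h

theorem polyA_add (h : q ∈ HP n d) (h' : q' ∈ HP n d) : (fun p => q p + q' p) ∈ HP n d :=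
  (HP n d).add_mem h h'

theorem polyA_sum {ι : Type} [Fintype ι] {f : ι → V n → ℝ} (h : ∀ i, f i ∈ HP n d) :
    (fun p => ∑ i, f i p) ∈ HP n d := by
  have := (HP n d).sum_mem (t := Finset.univ) fun i _ => h i
  rwa [Finset.sum_fn] at this

theorem polyA_ind {P : (V n → ℝ) → Prop} (h : q ∈ HP n d)
    (mon : ∀ a : Fin d → Fin n, P fun p => ∏ j, p (a j)) (zero : P fun _ => 0)
    (add : ∀ f g, P f → P g → P fun p => f p + g p) (smul : ∀ c f, P f → P fun p => c * f p) :
    P q := by
  induction h using Submodule.span_induction with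
  | mem x hx =>
    obtain ⟨a, rfl⟩ := hx
    exact mon a
  | zero => exact zero
  | add f g _ _ hf hg => exact add f g hf hg
  | smul c f _ hf => exact smul c f hf

theorem polyA_analytic (h : q ∈ HP n d) : AnalyticOnNhd ℝ q univ :=
  polyA_ind (P := fun q => AnalyticOnNhd ℝ q univ) h
    (fun a => Finset.analyticOnNhd_fun_prod _ fun j _ =>
      (ContinuousLinearMap.proj (R := ℝ) (φ := fun _ : Fin n => ℝ) (a j)).analyticOnNhd _)
    analyticOnNhd_const (fun _ _ hf hg => hf.add hg) fun _ _ hf => analyticOnNhd_const.mul hf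

theorem HP_fd (n d : ℕ) : FiniteDimensional ℝ (HP n d) :=
  FiniteDimensional.span_of_finite ℝ (finite_range _)

theorem HP_sm (h : q ∈ HP n d) : Sm q := (polyA_analytic h).contDiff

theorem HP_analytic (h : q ∈ HP n d) : AnalyticOnNhd ℝ q univ := polyA_analytic h

theorem HP_const (r : ℝ) : (fun _ => r) ∈ HP n 0 := by
  simpa using polyA_smul (polyA_mon (n := n) Fin.elim0) r

theorem HP_zero_const (h : q ∈ HP n 0) (p p' : V n) : q p = q p' :=
  polyA_ind (P := fun q => q p = q p') h (fun _ => by simp) rfl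
    (fun _ _ hf hg => by simp only [hf, hg]) fun _ _ hf => by simp only [hf]

/-- `Fin.cons` / `Fin.prod_univ_succ` -/
theorem HP_coord_mul (h : q ∈ HP n d) (i : Fin n) : (fun p => p i * q p) ∈ HP n (d + 1) := by
  refine polyA_ind (P := fun q => (fun p => p i * q p) ∈ HP n (d + 1)) h (fun a => ?_) ?_
    (fun f g hf hg => ?_) fun c f hf => ?_
  · simpa [Fin.prod_univ_succ] using polyA_mon (Fin.cons i a : Fin (d + 1) → Fin n)
  · simp only [mul_zero]
    exact (HP n (d + 1)).zero_mem
  · simpa only [mul_add] using polyA_add hf hg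
  · simpa only [mul_left_comm c] using polyA_smul hf c

/-- every element of degree `d + 1` is a sum `∑ p i * r i p` -/
theorem HP_succ (h : q ∈ HP n (d + 1)) :
    ∃ r : Fin n → V n → ℝ, (∀ i, r i ∈ HP n d) ∧ ∀ p, q p = ∑ i, p i * r i p := by
  refine polyA_ind (P := fun q => ∃ r : Fin n → V n → ℝ, (∀ i, r i ∈ HP n d) ∧
    ∀ p, q p = ∑ i, p i * r i p) h (fun a => ?_) ⟨0, fun _ => (HP n d).zero_mem, by simp⟩ ?_ ?_
  · refine ⟨fun i p => (if i = a 0 then 1 else 0) * ∏ j : Fin d, p (a j.succ),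
      fun i => polyA_smul (polyA_mon _) _, fun p => ?_⟩
    simp [Fin.prod_univ_succ]
  · rintro f g ⟨r, h1, h2⟩ ⟨r', h3, h4⟩
    exact ⟨fun i p => r i p + r' i p, fun i => polyA_add (h1 i) (h3 i), fun p => by
      simp only [h2, h4, mul_add, Finset.sum_add_distrib]⟩
  · rintro c f ⟨r, h1, h2⟩
    exact ⟨fun i p => c * r i p, fun i => polyA_smul (h1 i) c, fun p => by
      simp only [h2, Finset.mul_sum, mul_left_comm c]⟩

theorem HP_mul (h : q ∈ HP n d) (h' : q' ∈ HP n e) : (fun p => q p * q' p) ∈ HP n (d + e) := by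
  induction e generalizing q' with
  | zero =>
    have : (fun p => q p * q' p) = fun p => q' 0 * q p :=
      funext fun p => by rw [HP_zero_const h' p 0, mul_comm]
    rw [this]
    exact polyA_smul h _
  | succ e ih =>
    obtain ⟨r, h1, h2⟩ := HP_succ h'
    simpa only [h2, Finset.mul_sum, mul_left_comm, add_assoc] using
      polyA_sum fun i => HP_coord_mul (ih (h1 i)) i

theorem polyA_pd_zero (h : q ∈ HP n 0) (i : Fin n) (p : V n) : pd i q p = 0 := by
  have : q = fun _ => q 0 := funext fun p => HP_zero_const h p 0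
  rw [this]
  simp [pd]

theorem polyA_pd {r : Fin n → V n → ℝ} (h1 : ∀ i, r i ∈ HP n d) (h2 : ∀ p, q p = ∑ i, p i * r i p)
    (i : Fin n) (p : V n) : pd i q p = r i p + ∑ j, p j * pd i (r j) p := by
  have h3 : HasFDerivAt (fun p : V n => ∑ j, p j * r j p) (∑ j, (p j • fderiv ℝ (r j) p +
      r j p • ContinuousLinearMap.proj (R := ℝ) (φ := fun _ : Fin n => ℝ) j)) p :=
    HasFDerivAt.fun_sum fun j _ =>
      (hasFDerivAt_apply j p).mul ((HP_sm (h1 j)).dAt p).hasFDerivAt
  rw [funext h2, pd, h3.fderiv]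
  simp [pd, Finset.sum_add_distrib, Pi.single_apply, add_comm]

theorem polyA_coord_pd (h : q ∈ HP n d) (i j : Fin n) : (fun p => p j * pd i q p) ∈ HP n d := by
  induction d generalizing q j with
  | zero =>
    simp only [polyA_pd_zero h, mul_zero]
    exact (HP n 0).zero_mem
  | succ d ih =>
    obtain ⟨r, h1, h2⟩ := HP_succ h
    simp only [polyA_pd h1 h2]
    exact HP_coord_mul (polyA_add (h1 i) (polyA_sum fun k => ih (h1 k) k)) j

/-- induction on `d` with `HP_succ` -/
theorem HP_pd (h : q ∈ HP n (d + 1)) (i : Fin n) : pd i q ∈ HP n d := by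
  obtain ⟨r, h1, h2⟩ := HP_succ h
  rw [funext (polyA_pd h1 h2 i)]
  exact polyA_add (h1 i) (polyA_sum fun k => polyA_coord_pd (h1 k) i k)

theorem HP_pd_zero (h : q ∈ HP n 0) (i : Fin n) (p : V n) : pd i q p = 0 := polyA_pd_zero h i p

theorem HP_coord_pd (h : q ∈ HP n d) (i j : Fin n) : (fun p => p j * pd i q p) ∈ HP n d :=
  polyA_coord_pd h i j

theorem HP_smul_arg (h : q ∈ HP n d) (r : ℝ) (p : V n) : q (r • p) = r ^ d * q p :=
  polyA_ind (P := fun q => q (r • p) = r ^ d * q p) h (fun _ => by simp [Finset.prod_mul_distrib])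
    (by simp) (fun _ _ hf hg => by simp only [hf, hg, mul_add]) fun _ _ hf => by
      simp only [hf, mul_left_comm]

/-- Euler -/
theorem HP_euler (h : q ∈ HP n d) (p : V n) : ∑ i, p i * pd i q p = d * q p := by
  induction d generalizing q with
  | zero => simp [HP_pd_zero h]
  | succ d ih =>
    obtain ⟨r, h1, h2⟩ := HP_succ h
    have h3 : ∑ i, p i * ∑ j, p j * pd i (r j) p = d * q p := by
      simp only [Finset.mul_sum, h2]
      rw [Finset.sum_comm]
      refine Finset.sum_congr rfl fun j _ => ?_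
      rw [mul_left_comm, ← ih (h1 j), Finset.mul_sum]
      exact Finset.sum_congr rfl fun i _ => mul_left_comm _ _ _
    simp only [polyA_pd h1 h2, mul_add, Finset.sum_add_distrib, h3, ← h2]
    push_cast
    ring

/-- linear substitution -/
theorem HP_comp_lin (h : q ∈ HP n d) (A : Fin n → Fin n → ℝ) :
    (fun p => q fun i => ∑ j, A i j * p j) ∈ HP n d := by
  induction d generalizing q with
  | zero =>
    simp only [fun p => HP_zero_const h p 0]
    exact HP_const _
  | succ d ih =>
    obtain ⟨r, h1, h2⟩ := HP_succ h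
    simpa only [h2, Finset.sum_mul, mul_assoc] using
      polyA_sum fun i => polyA_sum fun j => polyA_smul (HP_coord_mul (ih (h1 i)) j) (A i j)

/-- identity theorem, `AnalyticOnNhd.eqOn_zero_of_preconnected_of_eventuallyEq_zero` -/
theorem HP_eq_zero (h : q ∈ HP n d) {O : Set (V n)} (hO : IsOpen O) (hne : O.Nonempty)
    (h0 : ∀ p ∈ O, q p = 0) (p : V n) : q p = 0 := by
  obtain ⟨y, hy⟩ := hne
  exact (HP_analytic h).eqOn_zero_of_preconnected_of_eventuallyEq_zero isPreconnected_univ
    (mem_univ y) (Filter.eventually_of_mem (hO.mem_nhds hy) h0) (mem_univ p)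

theorem HP_eq (h : q ∈ HP n d) (h' : q' ∈ HP n d) {O : Set (V n)} (hO : IsOpen O)
    (hne : O.Nonempty) (h0 : ∀ p ∈ O, q p = q' p) (p : V n) : q p = q' p :=
  sub_eq_zero.1 (HP_eq_zero ((HP n d).sub_mem h h') hO hne (fun y hy => sub_eq_zero.2 (h0 y hy)) p)

/-- interpolation with nodes in a given open set. Sketch: the evaluations at the points of `O` span
the dual of the finite dimensional space `HP n d` (their common kernel is zero by `HP_eq_zero`;
e.g. `Submodule.span_eq_top_of_ne_zero` or induction on the dimension of a subspace); write the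
coordinate forms of a basis as finite combinations of evaluations. -/
theorem HP_interp (n d : ℕ) {O : Set (V n)} (hO : IsOpen O) (hne : O.Nonempty) :
    ∃ (N : ℕ) (y : Fin N → V n) (l : Fin N → V n → ℝ), (∀ i, y i ∈ O) ∧ (∀ i, l i ∈ HP n d) ∧
      ∀ q ∈ HP n d, ∀ p, q p = ∑ i, q (y i) * l i p := by
  have := HP_fd n d
  let ev : V n → HP n d →ₗ[ℝ] ℝ := fun y => (LinearMap.proj y).comp (HP n d).subtype
  have h1 : Submodule.span ℝ (ev '' O) = ⊤ := by
    refine Submodule.span_eq_top_of_ne_zero fun z hz => ?_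
    by_contra! h
    exact hz (Subtype.ext (funext (HP_eq_zero z.2 hO hne fun y hy => h _ ⟨y, hy, rfl⟩)))
  obtain ⟨f, h2, h3, -⟩ := Submodule.exists_fun_fin_finrank_span_eq ℝ (ev '' O)
  choose y hy hy' using h2
  let b := Module.finBasis ℝ (HP n d)
  have h4 : ∀ k, ∃ c : Fin _ → ℝ, ∑ i, c i • f i = b.coord k := fun k =>
    (Submodule.mem_span_range_iff_exists_fun ℝ).1 (by rw [h3, h1]; trivial)
  choose c hc using h4
  refine ⟨_, y, fun i p => ∑ k, c k i * (b k).1 p, hy,
    fun i => polyA_sum fun k => polyA_smul (b k).2 _, fun q hq p => ?_⟩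
  have h5 := congrArg (ev p) (b.sum_repr ⟨q, hq⟩)
  have h6 : ∀ k, b.repr ⟨q, hq⟩ k = ∑ i, c k i * q (y i) := fun k => by
    rw [← b.coord_apply, ← hc, LinearMap.sum_apply]
    exact Finset.sum_congr rfl fun i _ => by rw [← hy']; rfl
  rw [map_sum] at h5
  refine h5.symm.trans ?_
  simp only [h6, map_smul, smul_eq_mul, Finset.sum_mul, Finset.mul_sum]
  rw [Finset.sum_comm]
  refine Finset.sum_congr rfl fun i _ => Finset.sum_congr rfl fun k _ => ?_
  change _ * (b k).1 p = _
  ring

end Pool.Agent.Lib.MP_45f3cb_gt
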