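import Pool.Agent.Lib.MP_45f3cb_gt.PolyA
import Pool.Agent.Lib.MP_45f3cb_gt.ParInt

/-!
Norm inequalities for polynomials.
-/

open Set MeasureTheory

namespace Pool.Agent.Lib.MP_45f3cb_gt

variable {n d : ℕ}

/-- polynomial functions of degree at most `d` -/
noncomputable def PolyC_LP (n d : ℕ) : Submodule ℝ (V n → ℝ) := ⨆ j : Fin (d + 1), HP n j

theorem PolyC_mem {j : ℕ} (hj : j ≤ d) {q : V n → ℝ} (h : q ∈ HP n j) : q ∈ PolyC_LP n d :=
  Submodule.mem_iSup_of_mem (p := fun j : Fin (d + 1) => HP n j) ⟨j, Nat.lt_succ_of_le hj⟩ h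

theorem PolyC_ind {P : (V n → ℝ) → Prop} {w : V n → ℝ} (hw : w ∈ PolyC_LP n d)
    (mem : ∀ j ≤ d, ∀ q ∈ HP n j, P q) (add : ∀ x y, P x → P y → P (x + y)) : P w :=
  Submodule.iSup_induction (motive := P) (fun j : Fin (d + 1) => HP n j) hw
    (fun j q hq => mem j (Nat.le_of_lt_succ j.2) q hq)
    (mem 0 (Nat.zero_le _) 0 (Submodule.zero_mem _)) add

theorem PolyC_fd (n d : ℕ) : FiniteDimensional ℝ (PolyC_LP n d) := by
  have : ∀ j : Fin (d + 1), FiniteDimensional ℝ (HP n j) := fun j => HP_fd n j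
  unfold PolyC_LP
  infer_instance

theorem PolyC_sm {w : V n → ℝ} (hw : w ∈ PolyC_LP n d) : Sm w :=
  PolyC_ind (P := fun w => Sm w) hw (fun _ _ _ hq => HP_sm hq) fun _ _ hx hy => ContDiff.add hx hy

theorem PolyC_an {w : V n → ℝ} (hw : w ∈ PolyC_LP n d) : AnalyticOnNhd ℝ w univ :=
  PolyC_ind (P := fun w => AnalyticOnNhd ℝ w univ) hw (fun _ _ _ hq => HP_analytic hq)
    fun _ _ hx hy => hx.add hy

theorem PolyC_pd_add {u w : V n → ℝ} (hu : Sm u) (hw : Sm w) (i : Fin n) :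
    pd i (u + w) = pd i u + pd i w := by
  funext y
  simp only [pd, Pi.add_apply]
  rw [fderiv_add (hu.dAt y) (hw.dAt y)]
  rfl

theorem PolyC_pd_smul {u : V n → ℝ} (hu : Sm u) (r : ℝ) (i : Fin n) :
    pd i (r • u) = r • pd i u := by
  funext y
  simp only [pd, Pi.smul_apply]
  rw [fderiv_const_smul (hu.dAt y)]
  rfl

theorem PolyC_pd_mem {w : V n → ℝ} (hw : w ∈ PolyC_LP n d) (i : Fin n) :
    pd i w ∈ PolyC_LP n d := by
  refine (PolyC_ind (P := fun w => Sm w ∧ pd i w ∈ PolyC_LP n d) hw ?_ ?_).2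
  · intro j hj q hq
    refine ⟨HP_sm hq, ?_⟩
    cases j with
    | zero =>
      have : pd i q = 0 := funext fun p => HP_pd_zero hq i p
      rw [this]
      exact Submodule.zero_mem _
    | succ j => exact PolyC_mem (Nat.le_of_succ_le hj) (HP_pd hq i)
  · rintro x y ⟨hx, hx'⟩ ⟨hy, hy'⟩
    refine ⟨ContDiff.add hx hy, ?_⟩
    rw [PolyC_pd_add hx hy]
    exact Submodule.add_mem _ hx' hy'

/-- the derivative as a linear map -/
noncomputable def PolyC_D (n d : ℕ) (i : Fin n) : PolyC_LP n d →ₗ[ℝ] PolyC_LP n d where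
  toFun w := ⟨pd i w, PolyC_pd_mem w.2 i⟩
  map_add' u w := Subtype.ext (PolyC_pd_add (PolyC_sm u.2) (PolyC_sm w.2) i)
  map_smul' r u := Subtype.ext (PolyC_pd_smul (PolyC_sm u.2) r i)

theorem PolyC_mono {w : V n → ℝ} (hw : w ∈ PolyC_LP n d) : w ∈ PolyC_LP n (d + 1) :=
  PolyC_ind (P := fun w => w ∈ PolyC_LP n (d + 1)) hw
    (fun _ hj _ hq => PolyC_mem (Nat.le_succ_of_le hj) hq) fun _ _ => Submodule.add_mem _

theorem PolyC_coord_mul {w : V n → ℝ} (hw : w ∈ PolyC_LP n d) (i : Fin n) :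
    (fun p => p i * w p) ∈ PolyC_LP n (d + 1) := by
  refine PolyC_ind (P := fun w => (fun p => p i * w p) ∈ PolyC_LP n (d + 1)) hw
    (fun j hj q hq => PolyC_mem (Nat.succ_le_succ hj) (HP_coord_mul hq i)) fun x y hx hy => ?_
  have := Submodule.add_mem _ hx hy
  convert this using 1
  funext p
  simp [mul_add]

theorem PolyC_affine (c : V n) (r : ℝ) : ∀ (d : ℕ) (q : V n → ℝ), q ∈ HP n d →
    (fun y => q (c + r • y)) ∈ PolyC_LP n d := by
  intro d
  induction d with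
  | zero =>
    intro q hq
    have : (fun y => q (c + r • y)) = q := funext fun y => HP_zero_const hq _ _
    rw [this]
    exact PolyC_mem le_rfl hq
  | succ d ih =>
    intro q hq
    obtain ⟨s, hs, hqs⟩ := HP_succ hq
    have : (fun y => q (c + r • y)) = ∑ i, (c i • (fun y => s i (c + r • y)) +
        r • fun y : V n => y i * s i (c + r • y)) := by
      funext y
      rw [hqs, Finset.sum_apply]
      refine Finset.sum_congr rfl fun i _ => ?_
      simp only [Pi.add_apply, Pi.smul_apply, smul_eq_mul]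
      ring
    rw [this]
    refine Submodule.sum_mem _ fun i _ => Submodule.add_mem _ (Submodule.smul_mem _ _ ?_)
      (Submodule.smul_mem _ _ ?_)
    · exact PolyC_mono (ih _ (hs i))
    · exact PolyC_coord_mul (ih _ (hs i)) i

theorem PolyC_growth_HP {j : ℕ} {q : V n → ℝ} (hq : q ∈ HP n j) :
    ∃ C : ℝ, 0 ≤ C ∧ ∀ y, |q y| ≤ C * (1 + ‖y‖) ^ j := by
  induction hq using Submodule.span_induction with
  | mem x hx =>
    obtain ⟨a, rfl⟩ := hx
    refine ⟨1, zero_le_one, fun y => ?_⟩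
    rw [one_mul, Finset.abs_prod]
    calc ∏ k, |y (a k)| ≤ ∏ _k : Fin j, (1 + ‖y‖) := by
          refine Finset.prod_le_prod (fun _ _ => abs_nonneg _) fun k _ => ?_
          have := norm_le_pi_norm y (a k)
          rw [Real.norm_eq_abs] at this
          linarith
      _ = (1 + ‖y‖) ^ j := by simp
  | zero => exact ⟨0, le_rfl, fun y => by simp⟩
  | add x y _ _ hx hy =>
    obtain ⟨C, hC, h⟩ := hx
    obtain ⟨C', hC', h'⟩ := hy
    refine ⟨C + C', add_nonneg hC hC', fun p => ?_⟩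
    rw [Pi.add_apply, add_mul]
    exact (abs_add_le _ _).trans (add_le_add (h p) (h' p))
  | smul a x _ hx =>
    obtain ⟨C, hC, h⟩ := hx
    refine ⟨|a| * C, mul_nonneg (abs_nonneg _) hC, fun p => ?_⟩
    rw [Pi.smul_apply, smul_eq_mul, abs_mul, mul_assoc]
    exact mul_le_mul_of_nonneg_left (h p) (abs_nonneg _)

theorem PolyC_growth {w : V n → ℝ} (hw : w ∈ PolyC_LP n d) :
    ∃ C : ℝ, 0 ≤ C ∧ ∀ y, |w y| ≤ C * (1 + ‖y‖) ^ d := by
  refine PolyC_ind (P := fun w => ∃ C : ℝ, 0 ≤ C ∧ ∀ y, |w y| ≤ C * (1 + ‖y‖) ^ d) hw ?_ ?_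
  · intro j hj q hq
    obtain ⟨C, hC, h⟩ := PolyC_growth_HP hq
    refine ⟨C, hC, fun y => (h y).trans (mul_le_mul_of_nonneg_left ?_ hC)⟩
    exact pow_le_pow_right₀ (by linarith [norm_nonneg y]) hj
  · rintro x y ⟨C, hC, h⟩ ⟨C', hC', h'⟩
    refine ⟨C + C', add_nonneg hC hC', fun p => ?_⟩
    rw [Pi.add_apply, add_mul]
    exact (abs_add_le _ _).trans (add_le_add (h p) (h' p))

theorem PolyC_coercive {E : Type} [NormedAddCommGroup E] [NormedSpace ℝ E] [FiniteDimensional ℝ E]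
    {F : E → ℝ} (hc : Continuous F) (hh : ∀ (t : ℝ) x, F (t • x) = t ^ 2 * F x)
    (hp : ∀ x, x ≠ 0 → 0 < F x) : ∃ C : ℝ, 0 ≤ C ∧ ∀ x, ‖x‖ ^ 2 ≤ C * F x := by
  obtain ⟨m, hm, h⟩ := (isCompact_sphere (0 : E) 1).exists_forall_le' hc.continuousOn (a := 0)
    (fun x hx => hp x (by
      rintro rfl
      simp at hx))
  refine ⟨m⁻¹, inv_nonneg.2 hm.le, fun x => ?_⟩
  by_cases hx : x = 0
  · have h0 : F 0 = 0 := by simpa using hh 0 0
    simp [hx, h0]
  · have hn : 0 < ‖x‖ := norm_pos_iff.2 hx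
    have h1 := h (‖x‖⁻¹ • x) (by simp [norm_smul, hn.ne'])
    rw [hh] at h1
    rw [inv_mul_eq_div, le_div_iff₀ hm]
    have h2 := mul_le_mul_of_nonneg_left h1 (sq_nonneg ‖x‖)
    rwa [← mul_assoc, ← mul_pow, mul_inv_cancel₀ hn.ne', one_pow, one_mul] at h2

theorem PolyC_intOn {u : V n → ℝ} (hu : Continuous u) (c : V n) (r : ℝ) :
    IntegrableOn u (Metric.ball c r) :=
  (hu.continuousOn.integrableOn_compact (isCompact_closedBall c r)).mono_set
    Metric.ball_subset_closedBall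

theorem PolyC_pos {w : V n → ℝ} (hw : w ∈ PolyC_LP n d) (h0 : w ≠ 0) :
    0 < ∫ y in Metric.closedBall (0 : V n) (1 / 2), w y ^ 2 := by
  have hc : Continuous w := (PolyC_sm hw).continuous
  rw [setIntegral_pos_iff_support_of_nonneg_ae (Filter.Eventually.of_forall fun y => sq_nonneg _)
    ((hc.pow 2).continuousOn.integrableOn_compact (isCompact_closedBall _ _))]
  have hne : (Function.support (fun y => w y ^ 2) ∩ Metric.ball (0 : V n) (1 / 2)).Nonempty := by
    by_contra hcon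
    apply h0
    have hev : w =ᶠ[nhds 0] 0 := by
      filter_upwards [Metric.ball_mem_nhds (0 : V n) (by norm_num : (0 : ℝ) < 1 / 2)] with y hy
      by_contra hy0
      exact hcon ⟨y, pow_ne_zero 2 hy0, hy⟩
    funext y
    exact (PolyC_an hw).eqOn_zero_of_preconnected_of_eventuallyEq_zero isPreconnected_univ
      (mem_univ 0) hev (mem_univ y)
  have hop : IsOpen (Function.support (fun y => w y ^ 2) ∩ Metric.ball (0 : V n) (1 / 2)) :=
    (hc.pow 2).isOpen_support.inter Metric.isOpen_ball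
  exact (hop.measure_pos volume hne).trans_le
    (measure_mono (inter_subset_inter_right _ Metric.ball_subset_closedBall))

theorem PolyC_key (T : PolyC_LP n d →ₗ[ℝ] PolyC_LP n d) : ∃ C : ℝ, 0 ≤ C ∧
    ∀ (w : PolyC_LP n d) (y : V n), (T w : V n → ℝ) y ^ 2 ≤
      C * (1 + ‖y‖) ^ (2 * d) * ∫ y in Metric.ball (0 : V n) 1, (w : V n → ℝ) y ^ 2 := by
  have := PolyC_fd n d
  let b := Module.finBasis ℝ (PolyC_LP n d)
  let u : (Fin (Module.finrank ℝ (PolyC_LP n d)) → ℝ) → V n → ℝ :=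
    fun x => (b.equivFun.symm x : PolyC_LP n d)
  have hu : ∀ x y, u x y = ∑ k, x k * (b k : V n → ℝ) y := by
    intro x y
    simp [u, Finset.sum_apply]
  have hcont : Continuous fun x => ∫ y in Metric.closedBall (0 : V n) (1 / 2), u x y ^ 2 := by
    refine continuous_parametric_integral_of_continuous ?_ (isCompact_closedBall _ _)
    have : (Function.uncurry fun x y => u x y ^ 2) =
        fun z => (∑ k, z.1 k * (b k : V n → ℝ) z.2) ^ 2 := by
      funext z
      exact congrArg (· ^ 2) (hu z.1 z.2)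
    rw [this]
    refine Continuous.pow (continuous_finsetSum _ fun k _ => ?_) 2
    exact ((continuous_apply k).comp continuous_fst).mul
      ((PolyC_sm (b k).2).continuous.comp continuous_snd)
  obtain ⟨C₁, hC₁, h₁⟩ := PolyC_coercive hcont
    (fun t x => by
      rw [← integral_const_mul]
      refine integral_congr_ae (Filter.Eventually.of_forall fun y => ?_)
      simp only [u, map_smul, Submodule.coe_smul, Pi.smul_apply, smul_eq_mul]
      ring)
    (fun x hx => PolyC_pos (b.equivFun.symm x).2 (fun h => hx (by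
      have : b.equivFun.symm x = 0 := Subtype.ext h
      exact b.equivFun.symm.map_eq_zero_iff.1 this)))
  choose G hG0 hG using fun k => PolyC_growth (T (b k)).2
  refine ⟨(∑ k, G k) ^ 2 * C₁, by positivity, fun w y => ?_⟩
  set x := b.equivFun w with hx
  have hw : w = b.equivFun.symm x := by simp [hx]
  have huw : u x = w := by simp only [u, ← hw]
  have hT : (T w : V n → ℝ) y = ∑ k, x k * (T (b k) : V n → ℝ) y := by
    conv_lhs => rw [hw]
    simp [Finset.sum_apply]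
  have hA : |(T w : V n → ℝ) y| ≤ ‖x‖ * ((∑ k, G k) * (1 + ‖y‖) ^ d) := by
    rw [hT, Finset.sum_mul, Finset.mul_sum]
    refine (Finset.abs_sum_le_sum_abs _ _).trans (Finset.sum_le_sum fun k _ => ?_)
    rw [abs_mul]
    exact mul_le_mul (norm_le_pi_norm x k) (hG k y) (abs_nonneg _) (norm_nonneg _)
  have hB : ‖x‖ ^ 2 ≤ C₁ * ∫ y in Metric.ball (0 : V n) 1, (w : V n → ℝ) y ^ 2 := by
    refine (h₁ x).trans (mul_le_mul_of_nonneg_left ?_ hC₁)
    rw [huw]
    refine setIntegral_mono_set (PolyC_intOn ((PolyC_sm w.2).continuous.pow 2) _ _)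
      (Filter.Eventually.of_forall fun y => sq_nonneg _) ?_
    exact (Metric.closedBall_subset_ball (by norm_num)).eventuallyLE
  calc (T w : V n → ℝ) y ^ 2 = |(T w : V n → ℝ) y| ^ 2 := (sq_abs _).symm
    _ ≤ (‖x‖ * ((∑ k, G k) * (1 + ‖y‖) ^ d)) ^ 2 := pow_le_pow_left₀ (abs_nonneg _) hA 2
    _ = ‖x‖ ^ 2 * ((∑ k, G k) ^ 2 * (1 + ‖y‖) ^ (2 * d)) := by ring
    _ ≤ (C₁ * ∫ y in Metric.ball (0 : V n) 1, (w : V n → ℝ) y ^ 2) *
        ((∑ k, G k) ^ 2 * (1 + ‖y‖) ^ (2 * d)) := mul_le_mul_of_nonneg_right hB (by positivity)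
    _ = _ := by ring

theorem PolyC_unit (n d : ℕ) : ∃ C : ℝ, 0 ≤ C ∧ ∀ w ∈ PolyC_LP n d, ∀ y : V n,
    w y ^ 2 + ∑ i, pd i w y ^ 2 + ∑ i, ∑ j, pd i (pd j w) y ^ 2 ≤
      C * (1 + ‖y‖) ^ (2 * d) * ∫ y in Metric.ball (0 : V n) 1, w y ^ 2 := by
  obtain ⟨C₀, h₀, H₀⟩ := PolyC_key (LinearMap.id : PolyC_LP n d →ₗ[ℝ] PolyC_LP n d)
  choose C₁ h₁ H₁ using fun i => PolyC_key (PolyC_D n d i)
  choose C₂ h₂ H₂ using fun i j => PolyC_key (PolyC_D n d i ∘ₗ PolyC_D n d j)
  refine ⟨C₀ + ∑ i, C₁ i + ∑ i, ∑ j, C₂ i j,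
    add_nonneg (add_nonneg h₀ (Finset.sum_nonneg fun i _ => h₁ i))
      (Finset.sum_nonneg fun i _ => Finset.sum_nonneg fun j _ => h₂ i j), fun w hw y => ?_⟩
  simp only [add_mul, Finset.sum_mul]
  exact add_le_add (add_le_add (H₀ ⟨w, hw⟩ y) (Finset.sum_le_sum fun i _ => H₁ i ⟨w, hw⟩ y))
    (Finset.sum_le_sum fun i _ => Finset.sum_le_sum fun j _ => H₂ i j ⟨w, hw⟩ y)

theorem PolyC_pd_affine {u : V n → ℝ} (hu : Sm u) (c : V n) (r : ℝ) (i : Fin n) :
    pd i (fun y => u (c + r • y)) = r • fun y => pd i u (c + r • y) := by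
  funext y
  have h1 : HasFDerivAt (fun y : V n => c + r • y) (r • ContinuousLinearMap.id ℝ (V n)) y :=
    ((hasFDerivAt_id y).const_smul r).const_add c
  have h2 := (hu.dAt (c + r • y)).hasFDerivAt.comp y h1
  have h3 : fderiv ℝ (fun y => u (c + r • y)) y = _ := h2.fderiv
  simp only [pd, Pi.smul_apply, smul_eq_mul]
  rw [h3]
  simp

theorem PolyC_change (g : V n → ℝ) (c : V n) {r : ℝ} (hr : 0 < r) :
    ∫ y, g (c + r • y) = (r ^ n)⁻¹ * ∫ p, g p := by
  have h1 := Measure.integral_comp_smul_of_nonneg (volume : Measure (V n)) (fun z => g (c + z)) r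
    (hR := hr.le)
  rw [integral_add_left_eq_self] at h1
  simpa using h1

theorem PolyC_change_ball (g : V n → ℝ) (c : V n) {r : ℝ} (hr : 0 < r) :
    ∫ y in Metric.ball (0 : V n) 1, g (c + r • y) = (r ^ n)⁻¹ * ∫ p in Metric.ball c r, g p := by
  rw [← integral_indicator measurableSet_ball, ← integral_indicator measurableSet_ball,
    ← PolyC_change _ c hr]
  refine integral_congr_ae (Filter.Eventually.of_forall fun y => ?_)
  have : c + r • y ∈ Metric.ball c r ↔ y ∈ Metric.ball (0 : V n) 1 := by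
    rw [mem_ball_iff_norm, mem_ball_zero_iff, add_sub_cancel_left, norm_smul, Real.norm_eq_abs,
      abs_of_pos hr, mul_lt_iff_lt_one_right hr]
  by_cases hy : y ∈ Metric.ball (0 : V n) 1
  · simp only [indicator_of_mem hy, indicator_of_mem (this.2 hy)]
  · simp only [indicator_of_notMem hy, indicator_of_notMem (mt this.1 hy)]

/-- Sketch: let `LP = ⨆ j ≤ d, HP n j` (or the span of all monomials of degree at most `d`), a finite
dimensional space of analytic functions, stable under `pd i` and under `q ↦ q (c + r • ·)`. On it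
`Q q = ∫ p in ball 0 1, q p ^ 2` is a positive definite quadratic form, hence coercive for the
coordinate norm of a basis (compactness of the unit sphere of `Fin N → ℝ`), and every basis
function and its derivatives are bounded by `C (1 + ‖y‖) ^ d`. Change variables `p = c + r • y`
(`Measure.setIntegral_comp_smul`, translation invariance; `pd i (q (c + r • ·)) = r * pd i q`). -/
theorem poly_ball (n d : ℕ) : ∃ C : ℝ, 0 ≤ C ∧ ∀ q ∈ HP n d, ∀ (c p : V n) (r : ℝ), 0 < r →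
    q p ^ 2 + r ^ 2 * ∑ i, pd i q p ^ 2 + r ^ 4 * ∑ i, ∑ j, pd i (pd j q) p ^ 2 ≤
      C * (1 + ‖p - c‖ / r) ^ (2 * d) * (r ^ n)⁻¹ * ∫ y in Metric.ball c r, q y ^ 2 := by
  obtain ⟨C, hC, h⟩ := PolyC_unit n d
  refine ⟨C, hC, fun q hq c p r hr => ?_⟩
  have hs := HP_sm hq
  have h1 := h _ (PolyC_affine c r d q hq) (r⁻¹ • (p - c))
  have hp : c + r • r⁻¹ • (p - c) = p := by
    rw [smul_inv_smul₀ hr.ne', add_sub_cancel]
  have haff : Sm fun y : V n => c + r • y := contDiff_const.add (contDiff_id.const_smul r)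
  have h2 : ∀ i j, pd i (pd j fun y => q (c + r • y)) =
      r • r • fun y => pd i (pd j q) (c + r • y) := by
    intro i j
    have h3 : Sm fun y => pd j q (c + r • y) := ContDiff.comp (hs.pd j) haff
    rw [PolyC_pd_affine hs, PolyC_pd_smul h3, PolyC_pd_affine (hs.pd j)]
  simp only [h2] at h1
  simp only [PolyC_pd_affine hs, Pi.smul_apply, smul_eq_mul, hp] at h1
  rw [PolyC_change_ball (fun y => q y ^ 2) c hr, norm_smul, Real.norm_eq_abs,
    abs_of_pos (inv_pos.2 hr), inv_mul_eq_div, ← mul_assoc] at h1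
  refine le_trans (le_of_eq ?_) h1
  simp only [Finset.mul_sum]
  congr 1
  · congr 1
    exact Finset.sum_congr rfl fun i _ => by ring
  · exact Finset.sum_congr rfl fun i _ => Finset.sum_congr rfl fun j _ => by ring

/-- Sketch: near every `x₀ ∈ K` the weight is at least some `c₀ > 0` on a fixed ball of the fibre;
`poly_ball`; `IsCompact.induction_on` or a finite subcover. -/
theorem poly_weight {K : Set (V n)} (hK : IsCompact K) {ω : Z n → ℝ} (hω : Continuous ω)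
    (hb : LB ω) (h0 : ∀ z, 0 ≤ ω z) (hp : ∀ x ∈ K, ∃ p, 0 < ω (x, p)) (R : ℝ) :
    ∃ C : ℝ, 0 ≤ C ∧ ∀ x ∈ K, ∀ q ∈ HP n d, ∀ p : V n, ‖p‖ ≤ R →
      q p ^ 2 + ∑ i, pd i q p ^ 2 + ∑ i, ∑ j, pd i (pd j q) p ^ 2 ≤
        C * ∫ y, ω (x, y) * q y ^ 2 := by
  have hI : ∀ (x : V n) (q : V n → ℝ), 0 ≤ ∫ y, ω (x, y) * q y ^ 2 := fun x q =>
    integral_nonneg fun y => mul_nonneg (h0 _) (sq_nonneg _)
  obtain ⟨C₀, hC₀, H⟩ := poly_ball n d
  refine hK.induction_on (p := fun s => ∃ C : ℝ, 0 ≤ C ∧ ∀ x ∈ s, ∀ q ∈ HP n d, ∀ p : V n,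
    ‖p‖ ≤ R → q p ^ 2 + ∑ i, pd i q p ^ 2 + ∑ i, ∑ j, pd i (pd j q) p ^ 2 ≤
      C * ∫ y, ω (x, y) * q y ^ 2) ⟨0, le_rfl, fun x hx => hx.elim⟩ ?_ ?_ ?_
  · rintro s t hst ⟨C, hC, h⟩
    exact ⟨C, hC, fun x hx => h x (hst hx)⟩
  · rintro s t ⟨C, hC, h⟩ ⟨C', hC', h'⟩
    refine ⟨C + C', add_nonneg hC hC', fun x hx q hq p hpR => ?_⟩
    have := hI x q
    rcases hx with hx | hx
    · exact (h x hx q hq p hpR).trans (mul_le_mul_of_nonneg_right (by linarith) this)
    · exact (h' x hx q hq p hpR).trans (mul_le_mul_of_nonneg_right (by linarith) this)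
  · intro x₀ hx₀
    obtain ⟨p₀, hp₀⟩ := hp x₀ hx₀
    set m := ω (x₀, p₀) / 2 with hm
    have hm0 : 0 < m := half_pos hp₀
    have hev : ∀ᶠ z in nhds (x₀, p₀), m < ω z :=
      hω.continuousAt.eventually (lt_mem_nhds (half_lt_self hp₀))
    obtain ⟨ε₀, hε₀, hball⟩ := Metric.eventually_nhds_iff_ball.1 hev
    set ε := min ε₀ 1 with hε
    have hε0 : 0 < ε := lt_min hε₀ one_pos
    have hε1 : ε ≤ 1 := min_le_right _ _
    refine ⟨Metric.ball x₀ ε, mem_nhdsWithin_of_mem_nhds (Metric.ball_mem_nhds _ hε0),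
      (ε ^ 4)⁻¹ * (C₀ * (1 + (|R| + ‖p₀‖) / ε) ^ (2 * d) * (ε ^ n)⁻¹) * m⁻¹, by positivity,
      fun x hx q hq p hpR => ?_⟩
    have hc : Continuous q := (HP_sm hq).continuous
    have hint : Integrable fun y => ω (x, y) * q y ^ 2 :=
      (hb.mul_right (G := fun z => q z.2 ^ 2)).integrable
        (hω.mul ((hc.comp continuous_snd).pow 2)) x
    have hA : m * ∫ y in Metric.ball p₀ ε, q y ^ 2 ≤ ∫ y, ω (x, y) * q y ^ 2 := by
      rw [← integral_const_mul]
      refine le_trans (setIntegral_mono_on (PolyC_intOn (continuous_const.mul (hc.pow 2)) _ _)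
        hint.integrableOn measurableSet_ball fun y hy => ?_)
        (setIntegral_le_integral hint
          (Filter.Eventually.of_forall fun y => mul_nonneg (h0 _) (sq_nonneg _)))
      refine mul_le_mul_of_nonneg_right (hball (x, y) ?_).le (sq_nonneg _)
      rw [← ball_prod_same]
      exact ⟨Metric.ball_subset_ball (min_le_left _ _) hx,
        Metric.ball_subset_ball (min_le_left _ _) hy⟩
    have hJ : 0 ≤ ∫ y in Metric.ball p₀ ε, q y ^ 2 := integral_nonneg fun y => sq_nonneg _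
    have hB := H q hq p₀ p ε hε0
    have hn : ‖p - p₀‖ / ε ≤ (|R| + ‖p₀‖) / ε :=
      div_le_div_of_nonneg_right ((norm_sub_le _ _).trans
        (add_le_add (hpR.trans (le_abs_self _)) le_rfl)) hε0.le
    have hC : C₀ * (1 + ‖p - p₀‖ / ε) ^ (2 * d) * (ε ^ n)⁻¹ ≤
        C₀ * (1 + (|R| + ‖p₀‖) / ε) ^ (2 * d) * (ε ^ n)⁻¹ := by gcongr
    set D := C₀ * (1 + (|R| + ‖p₀‖) / ε) ^ (2 * d) * (ε ^ n)⁻¹ with hD
    have hD0 : 0 ≤ D := by positivity
    set a := q p ^ 2
    set b := ∑ i, pd i q p ^ 2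
    set e := ∑ i, ∑ j, pd i (pd j q) p ^ 2
    have ha : 0 ≤ a := sq_nonneg _
    have hb' : 0 ≤ b := Finset.sum_nonneg fun _ _ => sq_nonneg _
    have h41 : ε ^ 4 ≤ 1 := pow_le_one₀ hε0.le hε1
    have h42 : ε ^ 4 ≤ ε ^ 2 := pow_le_pow_of_le_one hε0.le hε1 (by norm_num)
    have h1 : ε ^ 4 * (a + b + e) ≤ D * ∫ y in Metric.ball p₀ ε, q y ^ 2 := by
      have := mul_le_mul_of_nonneg_right h41 ha
      have := mul_le_mul_of_nonneg_right h42 hb'
      have := mul_le_mul_of_nonneg_right hC hJ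
      linarith
    have h2 : ∫ y in Metric.ball p₀ ε, q y ^ 2 ≤ m⁻¹ * ∫ y, ω (x, y) * q y ^ 2 := by
      rw [inv_mul_eq_div, le_div_iff₀' hm0]
      exact hA
    have h3 := h1.trans (mul_le_mul_of_nonneg_left h2 hD0)
    have h4 : 0 < ε ^ 4 := by positivity
    rw [mul_assoc, mul_assoc, inv_mul_eq_div, le_div_iff₀' h4]
    exact h3

/-- Gaussian moments at scale `τ ^ (-1/2)`: change of variables and integrability of
`exp (-l ‖y‖²) (1 + ‖y‖) ^ k` (bound it by `C (1 + ‖y‖) ^ (-(n + 1))`, `integrable_one_add_norm`) -/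
theorem gauss_moment (n k : ℕ) {l : ℝ} (hl : 0 < l) : ∃ C : ℝ, 0 ≤ C ∧ ∀ (c : V n) (r : ℝ), 0 < r →
    Integrable (fun p : V n => Real.exp (-l * (‖p - c‖ / r) ^ 2) * (1 + ‖p - c‖ / r) ^ k) ∧
    ∫ p : V n, Real.exp (-l * (‖p - c‖ / r) ^ 2) * (1 + ‖p - c‖ / r) ^ k ≤ C * r ^ n := by
  let h : V n → ℝ := fun y => Real.exp (-l * ‖y‖ ^ 2) * (1 + ‖y‖) ^ k
  have hc : Continuous h := by fun_prop
  have hi : Integrable h := by
    have h1 : Integrable fun y : V n => (1 + ‖y‖) ^ (-((n + 1 : ℕ) : ℝ)) :=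
      integrable_one_add_norm (by simp)
    refine (h1.const_mul (Real.exp (((k + (n + 1) : ℕ) : ℝ) ^ 2 / (4 * l)))).mono'
      hc.aestronglyMeasurable (Filter.Eventually.of_forall fun y => ?_)
    have ht := norm_nonneg y
    set t := ‖y‖
    set m : ℕ := k + (n + 1) with hm
    have hpos : 0 < 1 + t := by linarith
    rw [Real.rpow_neg hpos.le, Real.rpow_natCast, Real.norm_of_nonneg (by positivity),
      ← div_eq_mul_inv, le_div_iff₀ (by positivity)]
    change Real.exp (-l * t ^ 2) * (1 + t) ^ k * (1 + t) ^ (n + 1) ≤ _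
    rw [mul_assoc, ← pow_add]
    have h2 : (1 + t) ^ m ≤ Real.exp (m * t) := by
      rw [Real.exp_nat_mul]
      exact pow_le_pow_left₀ hpos.le (by linarith [Real.add_one_le_exp t]) m
    refine (mul_le_mul_of_nonneg_left h2 (Real.exp_pos _).le).trans ?_
    rw [← Real.exp_add, Real.exp_le_exp, le_div_iff₀ (by positivity)]
    nlinarith [sq_nonneg (2 * l * t - m)]
  refine ⟨∫ y, h y, integral_nonneg fun y => by positivity, fun c r hr => ?_⟩
  have he : (fun p : V n => Real.exp (-l * (‖p - c‖ / r) ^ 2) * (1 + ‖p - c‖ / r) ^ k) =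
      fun p => h (r⁻¹ • (p - c)) := by
    funext p
    simp only [h]
    rw [norm_smul, Real.norm_eq_abs, abs_of_pos (inv_pos.2 hr), inv_mul_eq_div]
  rw [he]
  refine ⟨(hi.comp_smul (inv_pos.2 hr).ne').comp_sub_right c, le_of_eq ?_⟩
  rw [integral_sub_right_eq_self (fun z => h (r⁻¹ • z)) c,
    Measure.integral_comp_inv_smul_of_nonneg _ _ hr.le]
  simp [mul_comm]

end Pool.Agent.Lib.MP_45f3cb_gt
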