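import Pool.Agent.Lib.MP_45f3cb_gt.Base2
import Pool.Agent.Lib.MP_45f3cb_gt.Proj
import Pool.Agent.Lib.MP_45f3cb_gt.PolyC

/-!
Bounds for projections and jets; extraction of a polynomial from approximations.
-/

open Set MeasureTheory

namespace Pool.Agent.Lib.MP_45f3cb_gt

variable {n d : ℕ} {ω v h : Z n → ℝ}

theorem Sm.n1 {F : Z n → ℝ} (hF : Sm F) : Sm (n1 F) := by
  exact ContDiff.add (hF.pow 2) (ContDiff.sum fun i _ => (hF.dp i).pow 2)

theorem Sm.n2 {F : Z n → ℝ} (hF : Sm F) : Sm (n2 F) := by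
  exact ContDiff.add hF.n1 (ContDiff.sum fun i _ => ContDiff.sum fun j _ =>
    ((hF.dp j).dp i).pow 2)

theorem n1_nonneg (F : Z n → ℝ) (z : Z n) : 0 ≤ n1 F z := by
  exact add_nonneg (sq_nonneg _) (Finset.sum_nonneg fun _ _ => sq_nonneg _)

theorem n1_le_n2 (F : Z n → ℝ) (z : Z n) : n1 F z ≤ n2 F z := by
  exact le_add_of_nonneg_right
    (Finset.sum_nonneg fun _ _ => Finset.sum_nonneg fun _ _ => sq_nonneg _)

theorem n1_add_le {F G : Z n → ℝ} (hF : Sm F) (hG : Sm G) (z : Z n) :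
    n1 (fun w => F w + G w) z ≤ 2 * n1 F z + 2 * n1 G z := by
  have h1 : ∑ i, (dp i F z + dp i G z) ^ 2 ≤ ∑ i, (2 * dp i F z ^ 2 + 2 * dp i G z ^ 2) :=
    Finset.sum_le_sum fun i _ => by nlinarith [sq_nonneg (dp i F z - dp i G z)]
  simp only [Finset.sum_add_distrib, ← Finset.mul_sum] at h1
  simp only [n1, dp_add (hF.dAt z) (hG.dAt z)]
  nlinarith [sq_nonneg (F z - G z)]

theorem n1_sub_le {F G : Z n → ℝ} (hF : Sm F) (hG : Sm G) (z : Z n) :
    n1 (fun w => F w - G w) z ≤ 2 * n1 F z + 2 * n1 G z := by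
  have h1 : ∑ i, (dp i F z - dp i G z) ^ 2 ≤ ∑ i, (2 * dp i F z ^ 2 + 2 * dp i G z ^ 2) :=
    Finset.sum_le_sum fun i _ => by nlinarith [sq_nonneg (dp i F z + dp i G z)]
  simp only [Finset.sum_add_distrib, ← Finset.mul_sum] at h1
  simp only [n1, dp_sub (hF.dAt z) (hG.dAt z)]
  nlinarith [sq_nonneg (F z + G z)]

theorem n1_mul_le {a F : Z n → ℝ} (ha : Sm a) (hF : Sm F) (z : Z n) :
    n1 (fun w => a w * F w) z ≤ 2 * n1 a z * n1 F z := by
  have h1 : ∑ i, (dp i a z * F z + a z * dp i F z) ^ 2 ≤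
      ∑ i, (2 * F z ^ 2 * dp i a z ^ 2 + 2 * a z ^ 2 * dp i F z ^ 2) :=
    Finset.sum_le_sum fun i _ => by nlinarith [sq_nonneg (dp i a z * F z - a z * dp i F z)]
  simp only [Finset.sum_add_distrib, ← Finset.mul_sum] at h1
  have h2 : 0 ≤ (∑ i, dp i a z ^ 2) * ∑ i, dp i F z ^ 2 :=
    mul_nonneg (Finset.sum_nonneg fun _ _ => sq_nonneg _) (Finset.sum_nonneg fun _ _ => sq_nonneg _)
  simp only [n1, dp_mul (ha.dAt z) (hF.dAt z)]
  nlinarith [sq_nonneg (a z * F z)]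

theorem n1_of_eventually {F : Z n → ℝ} {z : Z n} (hF : ∀ᶠ w in nhds z, F w = 0) : n1 F z = 0 := by
  have h1 : ∀ i, dp i F z = 0 := fun i => (dp_congr (G := fun _ => 0) hF).trans (dp_const 0)
  simp [n1, h1, hF.self_of_nhds]

/-- bounded coefficients on a compact set, Cauchy-Schwarz -/
theorem coef_bound {S : Set (Z n)} (hS : IsCompact S) {c₀ : Z n → ℝ} {c₁ : Fin n → Z n → ℝ}
    {c₂ : Fin n → Fin n → Z n → ℝ} (h0 : Continuous c₀) (h1 : ∀ i, Continuous (c₁ i))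
    (h2 : ∀ i j, Continuous (c₂ i j)) : ∃ C : ℝ, 0 ≤ C ∧ ∀ (F : Z n → ℝ), ∀ z ∈ S,
      (c₀ z * F z + ∑ i, c₁ i z * dp i F z + ∑ i, ∑ j, c₂ i j z * dp i (dp j F) z) ^ 2 ≤
        C * n2 F z := by
  have hc : Continuous fun z => c₀ z ^ 2 + ∑ i, c₁ i z ^ 2 + ∑ i, ∑ j, c₂ i j z ^ 2 := by fun_prop
  obtain ⟨B, hB⟩ := hS.exists_bound_of_continuousOn hc.continuousOn
  refine ⟨3 * |B|, by positivity, fun F z hz => ?_⟩
  have b0 := ((le_abs_self _).trans (hB z hz)).trans (le_abs_self B)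
  have p1 : 0 ≤ ∑ i, c₁ i z ^ 2 := by positivity
  have p2 : 0 ≤ ∑ i, ∑ j, c₂ i j z ^ 2 := by positivity
  have a0 : (c₀ z * F z) ^ 2 ≤ |B| * F z ^ 2 := by
    rw [mul_pow]
    exact mul_le_mul_of_nonneg_right (by linarith) (sq_nonneg _)
  have a1 : (∑ i, c₁ i z * dp i F z) ^ 2 ≤ |B| * ∑ i, dp i F z ^ 2 :=
    (Finset.sum_mul_sq_le_sq_mul_sq _ _ _).trans
      (mul_le_mul_of_nonneg_right (by linarith [sq_nonneg (c₀ z)]) (by positivity))
  have a2 : (∑ i, ∑ j, c₂ i j z * dp i (dp j F) z) ^ 2 ≤ |B| * ∑ i, ∑ j, dp i (dp j F) z ^ 2 := by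
    have a3 := Finset.sum_mul_sq_le_sq_mul_sq Finset.univ (fun q : Fin n × Fin n => c₂ q.1 q.2 z)
      fun q => dp q.1 (dp q.2 F) z
    simp only [Fintype.sum_prod_type] at a3
    exact a3.trans (mul_le_mul_of_nonneg_right (by linarith [sq_nonneg (c₀ z)]) (by positivity))
  unfold n2
  generalize c₀ z * F z = u at a0 ⊢
  generalize ∑ i, c₁ i z * dp i F z = u' at a1 ⊢
  generalize ∑ i, ∑ j, c₂ i j z * dp i (dp j F) z = u'' at a2 ⊢
  nlinarith [sq_nonneg (u - u'), sq_nonneg (u - u''), sq_nonneg (u' - u'')]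

theorem exists_PD (hω : Sm ω) (hb : LB ω) (h0 : ∀ z, 0 ≤ ω z) (hp : ∀ x, ∃ p, 0 < ω (x, p))
    (hv : Sm v) : ∃ h, PD d ω v h := by
  have hs : Sm fun z => ω z * v z := hω.mul hv
  obtain ⟨h, a1, a2, a3⟩ := exists_proj (d := d) hω hb h0 hp hs.continuous hb.mul_right
  exact ⟨h, contDiff_infty.2 fun k => a1 k (contDiff_infty.1 hs k), a2, a3⟩

theorem PD.eq (H : PD d ω v h) (hω : Continuous ω) (hb : LB ω) (h0 : ∀ z, 0 ≤ ω z) {x : V n}
    (hp : ∃ p, 0 < ω (x, p)) {q : V n → ℝ} (hq : q ∈ HP n d)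
    (he : ∀ p, ω (x, p) ≠ 0 → v (x, p) = q p) (p : V n) : h (x, p) = q p := by
  refine proj_eq hω hb h0 H.fp H.orth hp hq (fun y => ?_) p
  by_cases e : ω (x, y) = 0
  · simp only [e, zero_mul]
  · simp only [he y e]

theorem projB_le (H : PD d ω v h) (hω : Continuous ω) (hb : LB ω) (h0 : ∀ z, 0 ≤ ω z)
    (hv : Continuous v) (x : V n) {q A B : V n → ℝ} (hq : q ∈ HP n d) (hA : Continuous A)
    (hB : Continuous B) (hle : ∀ p, A p + 2 * ((v (x, p) - h (x, p)) * q p) ≤ B p) :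
    ∫ p, ω (x, p) * A p ≤ ∫ p, ω (x, p) * B p := by
  have i1 := Proj_int hω hb x hA
  have i2 := (Proj_int (F := fun z => ω z * v z - ω z * h z)
    ((hω.mul hv).sub (hω.mul H.sm.continuous)) (hb.mul_right.sub hb.mul_right) x
    (HP_sm hq).continuous).const_mul 2
  have h1 := integral_mono (i1.add i2) (Proj_int hω hb x hB) fun p =>
    (le_of_eq (by simp only [Pi.add_apply]; ring)).trans
      (mul_le_mul_of_nonneg_left (hle p) (h0 (x, p)))
  rwa [integral_add' i1 i2, integral_const_mul, H.orth x q hq, mul_zero, add_zero] at h1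

/-- Pythagoras: `ω (v - q)² = ω (v - h)² + 2 ω (v - h) (h - q) + ω (h - q)²` -/
theorem PD.min (H : PD d ω v h) (hω : Continuous ω) (hb : LB ω) (h0 : ∀ z, 0 ≤ ω z)
    (hv : Continuous v) (x : V n) {q : V n → ℝ} (hq : q ∈ HP n d) :
    ∫ p, ω (x, p) * (v (x, p) - h (x, p)) ^ 2 ≤ ∫ p, ω (x, p) * (v (x, p) - q p) ^ 2 := by
  have c1 : Continuous fun p => v (x, p) := hv.comp (Continuous.prodMk_right x)
  have c2 : Continuous fun p => h (x, p) := H.sm.continuous.comp (Continuous.prodMk_right x)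
  refine projB_le H hω hb h0 hv x ((HP n d).sub_mem (H.fp x) hq) ((c1.sub c2).pow 2)
    ((c1.sub (HP_sm hq).continuous).pow 2) fun p => ?_
  simp only [Pi.sub_apply]
  nlinarith [sq_nonneg (h (x, p) - q p)]

/-- `ω v² = ω (v - h)² + 2 ω (v - h) h + ω h²` -/
theorem PD.le (H : PD d ω v h) (hω : Continuous ω) (hb : LB ω) (h0 : ∀ z, 0 ≤ ω z)
    (hv : Continuous v) (x : V n) :
    ∫ p, ω (x, p) * h (x, p) ^ 2 ≤ ∫ p, ω (x, p) * v (x, p) ^ 2 := by
  have c1 : Continuous fun p => v (x, p) := hv.comp (Continuous.prodMk_right x)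
  have c2 : Continuous fun p => h (x, p) := H.sm.continuous.comp (Continuous.prodMk_right x)
  refine projB_le H hω hb h0 hv x (H.fp x) (c2.pow 2) (c1.pow 2) fun p => ?_
  nlinarith [sq_nonneg (v (x, p) - h (x, p))]

/-- the jet of a fibrewise polynomial on a compact set, by `poly_weight` and `dp_eq_pd` -/
theorem fp_weight {K : Set (V n)} (hK : IsCompact K) (hω : Continuous ω) (hb : LB ω)
    (h0 : ∀ z, 0 ≤ ω z) (hp : ∀ x ∈ K, ∃ p, 0 < ω (x, p)) (R : ℝ) : ∃ C : ℝ, 0 ≤ C ∧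
      ∀ F : Z n → ℝ, Sm F → FP d F → ∀ x ∈ K, ∀ p : V n, ‖p‖ ≤ R →
        n2 F (x, p) ≤ C * ∫ y, ω (x, y) * F (x, y) ^ 2 := by
  obtain ⟨C, hC, H⟩ := poly_weight (d := d) hK hω hb h0 hp R
  refine ⟨C, hC, fun F hF hd x hx p hR => (le_of_eq ?_).trans (H x hx _ (hd x) p hR)⟩
  have e1 : ∀ j, (fun y => dp j F (x, y)) = pd j fun y => F (x, y) := fun j =>
    funext fun y => dp_eq_pd (hF.dAt _)
  simp only [n2, dp_eq_pd (hF.dAt (x, p)), fun i j => dp_eq_pd (i := i) ((hF.dp j).dAt (x, p)), e1]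

/-- `fp_weight`, `PD.le`, `setInt_le_fib`; `S ⊆ K ×ˢ closedBall 0 R` with `K = fst '' S` -/
theorem PD.bound (hω : Continuous ω) (hb : LB ω) (h0 : ∀ z, 0 ≤ ω z) (h1 : ∀ z, ω z ≤ 1)
    (hp : ∀ x, ∃ p, 0 < ω (x, p)) {S : Set (Z n)} (hS : IsCompact S) : ∃ C : ℝ, 0 ≤ C ∧
      ∀ v h : Z n → ℝ, Continuous v → HasCompactSupport v → PD d ω v h →
        ∫ z in S, n1 h z ≤ C * ∫ z, v z ^ 2 := by
  have hK : IsCompact (Prod.fst '' S) := hS.image continuous_fst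
  obtain ⟨R, hR⟩ := hS.isBounded.exists_norm_le
  obtain ⟨C, hC, H⟩ := fp_weight (d := d) hK hω hb h0 (fun x _ => hp x) R
  refine ⟨C * (volume (Metric.closedBall (0 : V n) R)).toReal, by positivity,
    fun v h hv hc P => ?_⟩
  have hc2 : HasCompactSupport fun z => v z ^ 2 := hc.comp_left (g := fun t : ℝ => t ^ 2) (by simp)
  have c1 := P.sm.n1.continuous
  refine le_trans (setIntegral_mono_set
    (c1.continuousOn.integrableOn_compact (hK.prod (isCompact_closedBall 0 R)))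
    (Filter.Eventually.of_forall (n1_nonneg h)) (HasSubset.Subset.eventuallyLE fun z hz =>
      ⟨mem_image_of_mem _ hz, mem_closedBall_zero_iff.2 ((norm_snd_le z).trans (hR z hz))⟩))
    (setInt_le_fib hK hC c1 (hv.pow 2) hc2 (fun z => sq_nonneg _) fun x hx p hp' => ?_)
  refine ((n1_le_n2 h _).trans (H h P.sm P.fp x hx p hp')).trans
    (mul_le_mul_of_nonneg_left ((P.le hω hb h0 hv x).trans ?_) hC)
  exact integral_mono (Proj_int hω hb x ((hv.comp (Continuous.prodMk_right x)).pow 2))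
    ((LB.of_compact hc2).integrable (hv.pow 2) x) fun y =>
      mul_le_of_le_one_left (sq_nonneg _) (h1 _)

end Pool.Agent.Lib.MP_45f3cb_gt
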