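import Mathlib

/-!
Definitions used in the statements: Riemannian metrics on domains of `ℝ^n` in coordinates,
geodesics, Jacobi fields, simple domains, symmetric tensor fields and the symmetrised covariant
derivative.
-/

open Set

namespace Pool.Agent.Lib.MP_45f3cb_gt

/-- coordinate space -/
abbrev V (n : ℕ) : Type := Fin n → ℝ

variable {n : ℕ}

/-- the derivative in the `i`-th coordinate direction -/
noncomputable def pd (i : Fin n) (F : V n → ℝ) (x : V n) : ℝ := fderiv ℝ F x (Pi.single i 1)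

/-- the Christoffel symbol `Γ^k_{ij}` of the metric `g` at `x` -/
noncomputable def chr (g : V n → Matrix (Fin n) (Fin n) ℝ) (x : V n) (k i j : Fin n) : ℝ :=
  (1 / 2) * ∑ l, (g x)⁻¹ k l *
    (pd i (fun y => g y j l) x + pd j (fun y => g y i l) x - pd l (fun y => g y i j) x)

/-- the geodesic equation as a first order system: `(x, v)' = (v, -Γ(v, v))` -/
noncomputable def spray (g : V n → Matrix (Fin n) (Fin n) ℝ) (z : V n × V n) : V n × V n :=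
  (z.2, fun k => -∑ i, ∑ j, chr g z.1 k i j * z.2 i * z.2 j)

/-- `γ` is a geodesic with velocity `γ'` at all times in `s` -/
def IsGeod (g : V n → Matrix (Fin n) (Fin n) ℝ) (γ γ' : ℝ → V n) (s : Set ℝ) : Prop :=
  ∀ t ∈ s, HasDerivAt (fun r => (γ r, γ' r)) (spray g (γ t, γ' t)) t

/-- `J` with derivative `J'` solves the linearised geodesic (Jacobi) equation along `γ` on `s` -/
def IsJac (g : V n → Matrix (Fin n) (Fin n) ℝ) (γ γ' J J' : ℝ → V n) (s : Set ℝ) : Prop :=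
  ∀ t ∈ s, HasDerivAt (fun r => (J r, J' r)) (fderiv ℝ (spray g) (γ t, γ' t) (J t, J' t)) t

/-- `M = {b ≤ 0}` is a compact smooth domain, `g` a smooth Riemannian metric, the boundary is
strictly convex, no geodesic is trapped, there are no conjugate points and any two points are joined
by a geodesic in `M` -/
structure SimpleDomain (g : V n → Matrix (Fin n) (Fin n) ℝ) (b : V n → ℝ) : Prop where
  smooth_g : ∀ i j, ContDiff ℝ (⊤ : ℕ∞) fun x => g x i j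
  pos : ∀ x, (g x).PosDef
  smooth_b : ContDiff ℝ (⊤ : ℕ∞) b
  compact : IsCompact {x | b x ≤ 0}
  regular : ∀ x, b x = 0 → fderiv ℝ b x ≠ 0
  convex : ∀ x v : V n, b x = 0 → v ≠ 0 → ∑ i, pd i b x * v i = 0 →
    0 < ∑ i, ∑ j, (pd i (pd j b) x - ∑ k, chr g x k i j * pd k b x) * v i * v j
  nontrap : ∀ γ γ' : ℝ → V n, IsGeod g γ γ' (Ici 0) → γ' 0 ≠ 0 → ∃ t : ℝ, 0 ≤ t ∧ 0 < b (γ t)
  noconj : ∀ (γ γ' J J' : ℝ → V n) (T : ℝ), 0 < T → IsGeod g γ γ' (Icc 0 T) →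
    (∀ t ∈ Icc 0 T, b (γ t) ≤ 0) → γ' 0 ≠ 0 → IsJac g γ γ' J J' (Icc 0 T) → J 0 = 0 →
    J T = 0 → ∀ t ∈ Icc 0 T, J t = 0
  join : ∀ x y, b x ≤ 0 → b y ≤ 0 → ∃ γ γ' : ℝ → V n, IsGeod g γ γ' (Icc 0 1) ∧
    (∀ t ∈ Icc (0 : ℝ) 1, b (γ t) ≤ 0) ∧ γ 0 = x ∧ γ 1 = y

/-- the Lie derivative `(L_ξ g)_{ij}` at `x` -/
noncomputable def lieG (g : V n → Matrix (Fin n) (Fin n) ℝ) (ξ : V n → V n) (x : V n)
    (i j : Fin n) : ℝ :=
  ∑ k, (ξ x k * pd k (fun y => g y i j) x + g x k j * pd i (fun y => ξ y k) x +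
    g x i k * pd j (fun y => ξ y k) x)

/-- a covariant `m`-tensor (given by its components) is symmetric -/
def IsSym {m : ℕ} (T : (Fin m → Fin n) → ℝ) : Prop :=
  ∀ (σ : Equiv.Perm (Fin m)) (a : Fin m → Fin n), T (a ∘ σ) = T a

/-- `T(v, …, v)` -/
def ev {m : ℕ} (T : (Fin m → Fin n) → ℝ) (v : V n) : ℝ := ∑ a, T a * ∏ j, v (a j)

/-- symmetrisation -/
noncomputable def symm {m : ℕ} (T : (Fin m → Fin n) → ℝ) (a : Fin m → Fin n) : ℝ :=
  (1 / (m.factorial : ℝ)) * ∑ σ : Equiv.Perm (Fin m), T (a ∘ σ)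

/-- the covariant derivative `(∇ h)_{a_0 a_1 … a_d} = ∇_{a_0} h_{a_1 … a_d}` at `x` -/
noncomputable def cov {d : ℕ} (g : V n → Matrix (Fin n) (Fin n) ℝ)
    (h : V n → (Fin d → Fin n) → ℝ) (x : V n) (a : Fin (d + 1) → Fin n) : ℝ :=
  pd (a 0) (fun y => h y (Fin.tail a)) x -
    ∑ j : Fin d, ∑ k, chr g x k (a 0) (a j.succ) * h x (Function.update (Fin.tail a) j k)

/-- the geodesic ray transform of `f` vanishes on every unit speed geodesic in `{b ≤ 0}` with both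
end points on the boundary -/
def RayZero {m : ℕ} (g : V n → Matrix (Fin n) (Fin n) ℝ) (b : V n → ℝ)
    (f : V n → (Fin m → Fin n) → ℝ) : Prop :=
  ∀ (γ γ' : ℝ → V n) (L : ℝ), 0 < L → IsGeod g γ γ' (Icc 0 L) →
    (∀ t ∈ Icc 0 L, b (γ t) ≤ 0) → b (γ 0) = 0 → b (γ L) = 0 →
    (∀ t ∈ Icc 0 L, ∑ i, ∑ j, g (γ t) i j * γ' t i * γ' t j = 1) →
    ∫ t in (0 : ℝ)..L, ev (f (γ t)) (γ' t) = 0

/-- `I_{d+1}` is s-injective on `({b ≤ 0}, g)` -/
def SInj (g : V n → Matrix (Fin n) (Fin n) ℝ) (b : V n → ℝ) (d : ℕ) : Prop :=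
  ∀ f : V n → (Fin (d + 1) → Fin n) → ℝ, (∀ a, ContDiff ℝ (⊤ : ℕ∞) fun x => f x a) →
    (∀ x, IsSym (f x)) → RayZero g b f →
    ∃ h : V n → (Fin d → Fin n) → ℝ,
      (∀ a, ContDiffOn ℝ (⊤ : ℕ∞) (fun x => h x a) {x | b x ≤ 0}) ∧ (∀ x, IsSym (h x)) ∧
      (∀ x, b x = 0 → h x = 0) ∧ ∀ x, b x < 0 → f x = symm (cov g h x)

end Pool.Agent.Lib.MP_45f3cb_gt
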